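import Mathlib

/-! # Partial fractions -/

namespace Pool.Agent.MP_d8b6c2_an

open Finset Polynomial

/-- Partial fractions: the polynomials `∏ k' ≠ k, (X - k')^M`, `k = 0..n`, are coprime. -/
theorem exists_bez (n M : ℕ) (hM : 0 < M) :
    ∃ a : Fin (n + 1) → ℂ[X], (∀ k, (a k).natDegree < M) ∧
      ∑ k, a k * ∏ k' ∈ univ.erase k, (X - C ((k' : ℕ) : ℂ)) ^ M = 1 := by
  set g : Fin (n + 1) → ℂ[X] := fun k => (X - C ((k : ℕ) : ℂ)) ^ M with hg
  have hgm : ∀ k ∈ (univ : Finset (Fin (n + 1))), (g k).Monic := fun k _ =>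
    (monic_X_sub_C _).pow M
  have hdeg : ∀ k, (g k).degree = (M : ℕ) := by
    intro k
    rw [hg]
    simp only
    rw [degree_pow, degree_X_sub_C]
    simp
  have hcop : Set.Pairwise (↑(univ : Finset (Fin (n + 1))))
      fun i j => IsCoprime (g i) (g j) := by
    intro i _ j _ hij
    refine IsCoprime.pow ?_
    apply Polynomial.isCoprime_X_sub_C_of_isUnit_sub
    refine IsUnit.mk0 _ ?_
    rw [sub_ne_zero]
    intro h
    apply hij
    have h' : (i : ℕ) = (j : ℕ) := by exact_mod_cast h
    exact Fin.ext h'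
  obtain ⟨q, r, hr, hf⟩ := eq_quo_mul_prod_add_sum_rem_mul_prod (1 : ℂ[X]) hgm hcop
  have hrd : ∀ k, (r k).degree < (M : ℕ) := fun k => by
    have := hr k (mem_univ k)
    rwa [hdeg k] at this
  have hprodm : (∏ i, g i).Monic := monic_prod_of_monic _ _ hgm
  have hprod : (∏ i, g i).degree = ((M * (n + 1) : ℕ) : WithBot ℕ) := by
    rw [degree_prod]
    simp only [hdeg]
    rw [sum_const, card_univ, Fintype.card_fin]
    simp [mul_comm]
  have hsum : (∑ i, r i * ∏ k ∈ univ.erase i, g k).degree < ((M * (n + 1) : ℕ) : WithBot ℕ) := by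
    refine lt_of_le_of_lt (degree_sum_le _ _) ?_
    rw [Finset.sup_lt_iff (WithBot.bot_lt_coe _)]
    intro i _
    by_cases h0 : r i = 0
    · simp only [h0, zero_mul, degree_zero]
      exact WithBot.bot_lt_coe _
    have he : (∏ k ∈ univ.erase i, g k).degree = ((M * n : ℕ) : WithBot ℕ) := by
      rw [degree_prod]
      simp only [hdeg]
      rw [sum_const, card_erase_of_mem (mem_univ i), card_univ, Fintype.card_fin]
      simp [mul_comm]
    rw [degree_mul, he, degree_eq_natDegree h0]
    have h1 : (r i).natDegree < M := by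
      have := hrd i
      rwa [degree_eq_natDegree h0, Nat.cast_lt] at this
    have h2 : (r i).natDegree + M * n < M * (n + 1) := by
      rw [Nat.mul_succ]
      omega
    exact_mod_cast h2
  have hq : q = 0 := by
    by_contra hq0
    have h1 : q * ∏ i, g i = 1 - ∑ i, r i * ∏ k ∈ univ.erase i, g k := by
      rw [eq_sub_iff_add_eq]
      exact hf.symm
    have h2 : (q * ∏ i, g i).degree < ((M * (n + 1) : ℕ) : WithBot ℕ) := by
      rw [h1]
      refine lt_of_le_of_lt (degree_sub_le _ _) (max_lt ?_ hsum)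
      rw [degree_one]
      have : 0 < M * (n + 1) := Nat.mul_pos hM (Nat.succ_pos n)
      exact_mod_cast this
    rw [degree_mul, hprod, degree_eq_natDegree hq0] at h2
    have h3 : q.natDegree + M * (n + 1) < M * (n + 1) := by exact_mod_cast h2
    omega
  refine ⟨r, fun k => ?_, ?_⟩
  · by_cases h0 : r k = 0
    · rw [h0, natDegree_zero]
      exact hM
    · have := hrd k
      rwa [degree_eq_natDegree h0, Nat.cast_lt] at this
  · rw [hq, zero_mul, zero_add] at hf
    exact hf.symm

end Pool.Agent.MP_d8b6c2_an
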