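import Mathlib

/-!
# Mixed discriminants

`mixD B = ∑_f det (B_i (f i) (f j))`, the coefficient of `∏ X_i` in `det (1 + ∑ X_i B_i)`.
-/

namespace Pool.Agent.MP_d8b6c2_an

open Finset

variable {R : Type*} [CommRing R]
variable {l n : Type*} [Fintype l] [DecidableEq l] [Fintype n] [DecidableEq n]

/-- mixed discriminant of a family of matrices -/
def mixD (B : l → Matrix n n R) : R :=
  ∑ f : l → n, Matrix.det (Matrix.of fun i j => B i (f i) (f j))

/-- embedding of complex matrices -/
def cmat {R : Type*} [CommRing R] [Algebra ℂ R] {n n' : Type*} (P : Matrix n n' ℂ) :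
    Matrix n n' R := P.map (algebraMap ℂ R)

end Pool.Agent.MP_d8b6c2_an
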