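import Mathlib

/-!
# Rank problem, combinatorics of labels (definitions)

`J` levels; at depth `t` a node has `m t + 1` children. A label is a word of length `J`; the node of
depth `t` on the way to the label `q` is given by the prefix `pre t q` (letters beyond `t` are
replaced by `0`). `κ` lines `0, 1, ...` carry labels `p : Fin κ → Pth m`; the first `r` lines are the
lines of the bundle of rank `r`. A node is overfull at rank `r` if more than `cap t` of the first
`r` lines go through it.
-/

namespace Pool.Agent.MP_d8b6c2_an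

open Finset

/-- words `p` with `p t ∈ {0, ..., m t}` -/
abbrev Pth {J : ℕ} (m : Fin J → ℕ) : Type := (t : Fin J) → Fin (m t + 1)

variable {J : ℕ} {m : Fin J → ℕ}

/-- prefix of length `t` (padded with zeros) -/
def pre (t : ℕ) (p : Pth m) : Pth m := fun s => if (s : ℕ) < t then p s else 0

/-- number of lines `< r` through the node of depth `t` on the way to `q` -/
def cnt {κ : ℕ} (r : ℕ) (p : Fin κ → Pth m) (t : ℕ) (q : Pth m) : ℕ :=
  (univ.filter fun l : Fin κ => (l : ℕ) < r ∧ pre t (p l) = pre t q).card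

/-- the node of depth `t` on the way to `q` is overfull at rank `r` -/
def ovf (cap : Fin J → ℕ) {κ : ℕ} (r : ℕ) (p : Fin κ → Pth m) (t : Fin J) (q : Pth m) : Prop :=
  cap t < cnt r p t q

instance (cap : Fin J → ℕ) {κ : ℕ} (r : ℕ) (p : Fin κ → Pth m) (t : Fin J) (q : Pth m) :
    Decidable (ovf cap r p t q) := inferInstanceAs (Decidable (_ < _))

/-- number of `t` such that no node of depth `≤ t` on the way to `q` is overfull at rank `r` -/
def dep (cap : Fin J → ℕ) {κ : ℕ} (r : ℕ) (p : Fin κ → Pth m) (q : Pth m) : ℕ :=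
  (univ.filter fun t : Fin J => ∀ s : Fin J, s ≤ t → ¬ ovf cap r p s q).card

/-- the label `q` is present at rank `r` -/
def pres (cap : Fin J → ℕ) (r0 : ℕ) {κ : ℕ} (r : ℕ) (p : Fin κ → Pth m) (q : Pth m) : Prop :=
  (∃ t, ovf cap r p t q) ∨ r0 ≤ cnt r p J q

instance (cap : Fin J → ℕ) (r0 : ℕ) {κ : ℕ} (r : ℕ) (p : Fin κ → Pth m) (q : Pth m) :
    Decidable (pres cap r0 r p q) := inferInstanceAs (Decidable (_ ∨ _))

/-- `R` is the finite set of ranks of a chain of bundles. `entr R l` is the rank at which the line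
`l` enters (`0` if it does not) -/
def entr (R : Finset ℕ) (l : ℕ) : ℕ :=
  if h : (R.filter (l < ·)).Nonempty then (R.filter (l < ·)).min' h else 0

/-- the largest rank in `R` which is `≤ l` (`0` if there is none) -/
def prv (R : Finset ℕ) (l : ℕ) : ℕ := (R.filter (· ≤ l)).sup id

/-- the largest rank in `R` -/
def rmax (R : Finset ℕ) : ℕ := R.sup id

/-- depth up to which the label of the line `l` counts -/
def ldep (cap : Fin J → ℕ) (R : Finset ℕ) {κ : ℕ} (p : Fin κ → Pth m) (l : Fin κ) : ℕ :=
  if (l : ℕ) < rmax R then dep cap (entr R l) p (p l) else 0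

/-- `p'` is in the class of `p` -/
def Cls (cap : Fin J → ℕ) (R : Finset ℕ) {κ : ℕ} (p p' : Fin κ → Pth m) : Prop :=
  ∀ l, pre (ldep cap R p l) (p' l) = pre (ldep cap R p l) (p l)

/-- canonical representatives of the classes -/
def IsCan (cap : Fin J → ℕ) (R : Finset ℕ) {κ : ℕ} (p : Fin κ → Pth m) : Prop :=
  ∀ l, pre (ldep cap R p l) (p l) = p l

instance (cap : Fin J → ℕ) (R : Finset ℕ) {κ : ℕ} (p : Fin κ → Pth m) :
    Decidable (IsCan cap R p) := inferInstanceAs (Decidable (∀ _, _))

/-- number of lines which are refined at the node of depth `t` on the way to `q` -/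
def rho (cap : Fin J → ℕ) (R : Finset ℕ) {κ : ℕ} (p : Fin κ → Pth m) (t : Fin J) (q : Pth m) : ℕ :=
  (univ.filter fun l : Fin κ => (t : ℕ) < ldep cap R p l ∧ pre t (p l) = pre t q).card

/-- a predicate on labellings which only depends on the class -/
def ClsInv (cap : Fin J → ℕ) (R : Finset ℕ) {κ : ℕ} (γ : (Fin κ → Pth m) → Prop) : Prop :=
  ∀ p p', Cls cap R p p' → (γ p' ↔ γ p)

/-- nodes: pairs `(t, q)` with `q = pre t q` -/
def nodes (m : Fin J → ℕ) : Finset (Fin J × Pth m) := univ.filter fun v => pre v.1 v.2 = v.2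

/-- number of leaves below a node of depth `t` -/
def nlv (m : Fin J → ℕ) (t : Fin J) : ℕ := ∏ s ∈ univ.filter (t ≤ ·), (m s + 1)

end Pool.Agent.MP_d8b6c2_an
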