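import Mathlib
import Pool.Agent.Lib.MP_d8b6c2_an.Comb
import Pool.Agent.Lib.MP_d8b6c2_an.Bez

/-!
# Rank problem: the label polynomials

`bez n M k` are polynomials of degree `< M` with `∑ k, bez n M k * ∏ k' ≠ k, (X - k')^M = 1`
(partial fractions); `Afac n M k x` is the homogenised product, so that
`∑ k, Afac n M k x = x ^ ((n+1) * M - 1)`.
-/

namespace Pool.Agent.MP_d8b6c2_an

open Finset Polynomial

/-- the polynomials of `exists_bez` (`0` if `M = 0`) -/
noncomputable def bez (n M : ℕ) (k : Fin (n + 1)) : ℂ[X] :=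
  if h : 0 < M then (exists_bez n M h).choose k else 0

variable {R : Type*} [CommRing R] [Algebra ℂ R]

/-- homogenised `bez * ∏ (X - k' x)^M` -/
noncomputable def Afac (n M : ℕ) (k : Fin (n + 1)) (x : R) : R[X] :=
  (∑ e ∈ range M, C (algebraMap ℂ R ((bez n M k).coeff e) * x ^ (M - 1 - e)) * X ^ e) *
    ∏ k' ∈ univ.erase k, (X - C (((k' : ℕ) : R) * x)) ^ M

variable {J : ℕ} {m : Fin J → ℕ}

/-- `∑_{s<t} w_s x_{s, pre s w}` -/
def xsum (x : Fin J → Pth m → R) (t : ℕ) (w : Pth m) : R :=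
  ∑ s ∈ univ.filter (fun s : Fin J => (s : ℕ) < t), ((w s : ℕ) : R) * x s (pre s w)

/-- label polynomial for the prefix of length `τ` of `w` -/
noncomputable def Apoly (M : Fin J → ℕ) (x : Fin J → Pth m → R) (τ : ℕ) (w : Pth m) : R[X] :=
  ∏ t ∈ univ.filter (fun t : Fin J => (t : ℕ) < τ),
    (Afac (m t) (M t) (w t) (x t (pre t w))).comp (X - C (xsum x t w))

/-- exponent of `x` in `∑ Afac` -/
def eexp (M : Fin J → ℕ) (m : Fin J → ℕ) (t : Fin J) : ℕ := (m t + 1) * M t - 1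

/-- the monomial `∏ x_v ^ (e_v (cap_v - rho_v))` over the nodes -/
def xmon (M cap : Fin J → ℕ) (Rk : Finset ℕ) {κ : ℕ} (x : Fin J → Pth m → R)
    (p : Fin κ → Pth m) : R :=
  ∏ v ∈ nodes m, x v.1 v.2 ^ (eexp M m v.1 * (cap v.1 - rho cap Rk p v.1 v.2))

/-- the full monomial `∏ x_v ^ (e_v cap_v)` -/
def xtot (M cap : Fin J → ℕ) (x : Fin J → Pth m → R) : R :=
  ∏ v ∈ nodes m, x v.1 v.2 ^ (eexp M m v.1 * cap v.1)

/-- value at `y` of the polynomial attached to a labelling -/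
noncomputable def Tval (M cap : Fin J → ℕ) (Rk : Finset ℕ) {κ : ℕ} (x : Fin J → Pth m → R)
    (p : Fin κ → Pth m) (y : Fin κ → R) : R :=
  xmon M cap Rk x p * ∏ l, (Apoly M x (ldep cap Rk p l) (p l)).eval (y l)

/-- the polynomial attached to a labelling -/
noncomputable def Tpol (M cap : Fin J → ℕ) (Rk : Finset ℕ) {κ : ℕ} (p : Fin κ → Pth m) :
    MvPolynomial ((Fin J × Pth m) ⊕ Fin κ) ℂ :=
  Tval M cap Rk (fun t q => MvPolynomial.X (Sum.inl (t, q))) p
    (fun l => MvPolynomial.X (Sum.inr l))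

end Pool.Agent.MP_d8b6c2_an
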