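import Mathlib
import Pool.Agent.Lib.MP_d8b6c2_an.Poly
import Pool.Agent.Lib.MP_d8b6c2_an.MD

/-!
# Evaluation of label polynomials on a chain of bundles (definitions)

`Pr r` is the idempotent of rank `r` of the chain; the line `l` belongs to the piece
`Ql Rk Pr l = Pr (entr Rk l) - Pr (prv Rk l)`. `N` is the curvature matrix over the commutative
ring `R` of even forms.
-/

namespace Pool.Agent.MP_d8b6c2_an

open Finset

/-- a chain of nested commuting idempotents `Pr r` of rank `r`, `r ∈ Rk` -/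
structure Chain {n : Type*} [Fintype n] [DecidableEq n] (Rk : Finset ℕ)
    (Pr : ℕ → Matrix n n ℂ) : Prop where
  zero : Pr 0 = 0
  idem : ∀ r ∈ Rk, Pr r * Pr r = Pr r
  nest : ∀ r ∈ Rk, ∀ r' ∈ Rk, r ≤ r' → Pr r * Pr r' = Pr r ∧ Pr r' * Pr r = Pr r
  rank : ∀ r ∈ Rk, (Pr r).rank = r

variable {n : Type*} [Fintype n] [DecidableEq n]

/-- the idempotent of the piece of the line `l` -/
def Ql (Rk : Finset ℕ) (Pr : ℕ → Matrix n n ℂ) (l : ℕ) : Matrix n n ℂ :=
  Pr (entr Rk l) - Pr (prv Rk l)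

/-- the lines of the top bundle -/
abbrev Ln (Rk : Finset ℕ) (κ : ℕ) : Type := {l : Fin κ // (l : ℕ) < rmax Rk}

/-- normalising constant (the inverse of a product of factorials) -/
noncomputable def cR (Rk : Finset ℕ) (Pr : ℕ → Matrix n n ℂ) (κ : ℕ) : ℂ :=
  (mixD (fun l : Ln Rk κ => Ql Rk Pr (l : Fin κ)))⁻¹

variable {R : Type*} [CommRing R] [Algebra ℂ R]
variable {J : ℕ} {m : Fin J → ℕ} {κ : ℕ}

/-- the linear functional on polynomials: a monomial `x^a y^b` goes to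
`x^a * mixD (Q_l N^(b_l))` -/
noncomputable def evL (Rk : Finset ℕ) (Pr : ℕ → Matrix n n ℂ) (N : Matrix n n R)
    (x : Fin J → Pth m → R) (κ : ℕ) :
    MvPolynomial ((Fin J × Pth m) ⊕ Fin κ) ℂ →ₗ[ℂ] R :=
  (MvPolynomial.basisMonomials ((Fin J × Pth m) ⊕ Fin κ) ℂ).constr ℂ fun mon =>
    (∏ v : Fin J × Pth m, x v.1 v.2 ^ mon (Sum.inl v)) *
      mixD (fun l : Ln Rk κ => cmat (Ql Rk Pr (l : Fin κ)) * N ^ mon (Sum.inr (l : Fin κ)))

/-- the value of a labelling on a chain of bundles -/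
noncomputable def TD (M cap : Fin J → ℕ) (Rk : Finset ℕ) (Pr : ℕ → Matrix n n ℂ)
    (N : Matrix n n R) (x : Fin J → Pth m → R) (p : Fin κ → Pth m) : R :=
  algebraMap ℂ R (cR Rk Pr κ) * (xmon M cap Rk x p *
    mixD (fun l : Ln Rk κ => cmat (Ql Rk Pr (l : Fin κ)) *
      Polynomial.aeval N (Apoly M x (ldep cap Rk p l) (p l))))

/-- a polynomial symmetric in the lines of each piece which does not involve the lines beyond
`rmax Rk` -/
def SymF (Rk : Finset ℕ) (F : MvPolynomial ((Fin J × Pth m) ⊕ Fin κ) ℂ) : Prop :=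
  (∀ σ : Equiv.Perm (Fin κ), (∀ l : Fin κ, entr Rk (σ l) = entr Rk l) →
    MvPolynomial.rename (Sum.map id σ) F = F) ∧
  ∀ mon ∈ F.support, ∀ l : Fin κ, rmax Rk ≤ l → mon (Sum.inr l) = 0

end Pool.Agent.MP_d8b6c2_an
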