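import Mathlib
import Pool.Agent.Lib.MP_d8b6c2_an.Ev

/-!
# Differential forms with values in an abstract Grassmann algebra (definitions)

`𝔾` is a Grassmann algebra with anticommuting generators `θ i`, `R` the commutative ring of its
even elements, `inc : R → 𝔾`, `tt i j` the element of `R` corresponding to `θ i * θ j`. A form is a
function `(ι → ℝ) → 𝔾`.
-/

namespace Pool.Agent.MP_d8b6c2_an

open Finset
open scoped ContDiff

/-- abstract Grassmann algebra with its commutative even part -/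
structure GData (ι R 𝔾 : Type*) [Fintype ι] [DecidableEq ι] [NormedCommRing R]
    [NormedAlgebra ℂ R] [NormedRing 𝔾] [NormedAlgebra ℂ 𝔾] where
  inc : R →ₐ[ℂ] 𝔾
  inc_cont : Continuous inc
  inc_inj : Function.Injective inc
  θ : ι → 𝔾
  tt : ι → ι → R
  inc_tt : ∀ i j, inc (tt i j) = θ i * θ j
  comm : ∀ r y, inc r * y = y * inc r
  anti : ∀ i j, θ i * θ j = -(θ j * θ i)
  top : 𝔾 →L[ℂ] ℂ
  top_zero : ∀ i, ∀ y ∈ Algebra.adjoin ℂ (θ '' {j | j ≠ i}), top y = 0
  top_ne : ∀ L : List ι, L.Nodup → (∀ i, i ∈ L) → top ((L.map θ).prod) ≠ 0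

/-- partial derivative -/
noncomputable def pd {ι V : Type*} [Fintype ι] [DecidableEq ι] [NormedAddCommGroup V]
    [NormedSpace ℝ V] (j : ι) (F : (ι → ℝ) → V) (x : ι → ℝ) : V :=
  fderiv ℝ F x (Pi.single j 1)

/-- entrywise partial derivative of a matrix valued function -/
noncomputable def pdm {ι V n n' : Type*} [Fintype ι] [DecidableEq ι] [NormedAddCommGroup V]
    [NormedSpace ℝ V] (j : ι) (B : (ι → ℝ) → Matrix n n' V) (x : ι → ℝ) : Matrix n n' V :=
  Matrix.of fun a b => pd j (fun y => B y a b) x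

/-- entrywise smoothness at a point -/
def SmAt {ι V n n' : Type*} [Fintype ι] [NormedAddCommGroup V]
    [NormedSpace ℝ V] (B : (ι → ℝ) → Matrix n n' V) (x : ι → ℝ) : Prop :=
  ∀ a b, ContDiffAt ℝ ∞ (fun y => B y a b) x

variable {ι R 𝔾 : Type*} [Fintype ι] [DecidableEq ι] [NormedCommRing R]
    [NormedAlgebra ℂ R] [NormedRing 𝔾] [NormedAlgebra ℂ 𝔾]
variable {n : Type*} [Fintype n] [DecidableEq n]

/-- exterior derivative of a form -/
noncomputable def dF (g : GData ι R 𝔾) (F : (ι → ℝ) → 𝔾) (x : ι → ℝ) : 𝔾 :=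
  ∑ j, g.θ j * pd j F x

/-- the 1-form `df` of a real function -/
noncomputable def d1 (g : GData ι R 𝔾) (f : (ι → ℝ) → ℝ) (x : ι → ℝ) : 𝔾 :=
  ∑ j, ((pd j f x : ℝ) : ℂ) • g.θ j

/-- an even form which is smooth at `x` and closed at `x` -/
def Closed (g : GData ι R 𝔾) (s : (ι → ℝ) → R) (x : ι → ℝ) : Prop :=
  ContDiffAt ℝ ∞ s x ∧ ∑ j, g.θ j * g.inc (pd j s x) = 0

/-- covariantly constant (at `x`) even matrix valued form for the connection `d + A` -/
def Cov (g : GData ι R 𝔾) (A : ι → (ι → ℝ) → Matrix n n ℂ) (B : (ι → ℝ) → Matrix n n R)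
    (x : ι → ℝ) : Prop :=
  SmAt B x ∧ ∀ a b, ∑ j, g.θ j *
    g.inc ((pdm j B x + (cmat (A j x) * B x - B x * cmat (A j x)) : Matrix n n R) a b) = 0

/-- covariant derivative of a complex matrix valued function -/
noncomputable def covd (A : ι → (ι → ℝ) → Matrix n n ℂ) (j : ι) (P : (ι → ℝ) → Matrix n n ℂ)
    (x : ι → ℝ) : Matrix n n ℂ :=
  pdm j P x + (A j x * P x - P x * A j x)

/-- components of the curvature -/
noncomputable def curv (A : ι → (ι → ℝ) → Matrix n n ℂ) (i j : ι) (x : ι → ℝ) : Matrix n n ℂ :=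
  pdm i (A j) x - pdm j (A i) x + (A i x * A j x - A j x * A i x)

/-- the curvature as an even matrix valued form -/
noncomputable def curvN (g : GData ι R 𝔾) (A : ι → (ι → ℝ) → Matrix n n ℂ) (x : ι → ℝ) :
    Matrix n n R :=
  ∑ i, ∑ j, g.tt i j • cmat ((1 / 2 : ℂ) • curv A i j x)

end Pool.Agent.MP_d8b6c2_an
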