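import Mathlib
import Pool.Agent.Lib.MP_d8b6c2_an.Forms

/-!
# Coordinates of the base (definitions)

The base is `(Co m d → ℝ)`: the homotopy parameter `cτ`, one coordinate `cu p` for every label and
two coordinates `cr s`, `ct s` for every sphere `s : Sg m d` (there are `d t` spheres at every node
of depth `t`). The sphere point is `(cos ϑ(r), exp(2πit) sin ϑ(r))`.
-/

namespace Pool.Agent.MP_d8b6c2_an

open Finset

variable {J : ℕ}

/-- spheres: `d t` of them at every node of depth `t` -/
abbrev Sg (m d : Fin J → ℕ) : Type :=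
  Σ v : {v : Fin J × Pth m // pre v.1 v.2 = v.2}, Fin (d v.1.1)

/-- coordinates -/
abbrev Co (m d : Fin J → ℕ) : Type := Option (Pth m ⊕ (Sg m d ⊕ Sg m d))

variable {m d : Fin J → ℕ}

abbrev cτ : Co m d := none
abbrev cu (p : Pth m) : Co m d := some (Sum.inl p)
abbrev cr (s : Sg m d) : Co m d := some (Sum.inr (Sum.inl s))
abbrev ct (s : Sg m d) : Co m d := some (Sum.inr (Sum.inr s))

/-- weight of the label `p` at the sphere `s`: the letter of `p` at the depth of `s` if the node
of `s` lies on the way to `p`, and `0` otherwise -/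
def lw (p : Pth m) (s : Sg m d) : ℕ :=
  if pre s.1.1.1 p = s.1.1.2 then (p s.1.1.1 : ℕ) else 0

/-- the angle: `0` for `r ≤ 0`, `π/2` for `r ≥ 1` -/
noncomputable def ang (r : ℝ) : ℝ := Real.pi / 2 * Real.smoothTransition r

/-- the point of the sphere -/
noncomputable def sig (r t : ℝ) : Fin 2 → ℂ :=
  ![(Real.cos (ang r) : ℂ), Complex.exp (2 * Real.pi * Complex.I * t) * (Real.sin (ang r) : ℂ)]

/-- `2πi sin² ϑ(r)` -/
noncomputable def aS (r : ℝ) : ℂ := 2 * Real.pi * Complex.I * (Real.sin (ang r) ^ 2 : ℝ)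

/-- its derivative -/
noncomputable def cS (r : ℝ) : ℂ :=
  2 * Real.pi * Complex.I * (deriv (fun y => Real.sin (ang y) ^ 2) r : ℝ)

/-- the connection 1-form of the line of the label `p` -/
noncomputable def aa (p : Pth m) (j : Co m d) (x : Co m d → ℝ) : ℂ :=
  match j with
  | some (Sum.inr (Sum.inr s)) => (lw p s : ℂ) * aS (x (cr s))
  | _ => 0

variable {R 𝔾 : Type*} [NormedCommRing R] [NormedAlgebra ℂ R] [NormedRing 𝔾] [NormedAlgebra ℂ 𝔾]

/-- the 2-form of the node of depth `t` on the way to `q` -/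
noncomputable def XX (g : GData (Co m d) R 𝔾) (t : Fin J) (q : Pth m) (x : Co m d → ℝ) : R :=
  ∑ s ∈ univ.filter (fun s : Sg m d => s.1.1 = (t, pre t q)),
    cS (x (cr s)) • g.tt (cr s) (ct s)

/-- unit vector in the direction `j` -/
noncomputable def ej (j : Co m d) : Co m d → ℝ := Pi.single j 1

end Pool.Agent.MP_d8b6c2_an
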