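import Mathlib
import Pool.Agent.Lib.MP_d8b6c2_an.Coord
import Pool.Agent.Lib.MP_d8b6c2_an.Spec

/-!
# Continuous equivariant fields (definition)

This is the interface with the C*-algebraic part. The base is
`(Pth m → [0,1]) × (Sg m d → S³)`; the circle acts on each sphere, and `b` is equivariant with
weights `wt u α`.
-/

namespace Pool.Agent.MP_d8b6c2_an

open Finset

variable {J : ℕ}

/-- the unit sphere of `ℂ²` -/
abbrev S3 : Type := {z : Fin 2 → ℂ // ∑ i, ‖z i‖ ^ 2 = 1}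

/-- rotation of a point of the sphere -/
def rotS (c : Circle) (z : S3) : S3 :=
  ⟨fun i => (c : ℂ) * z.1 i, by simpa [norm_mul] using z.2⟩

/-- the base of the field -/
abbrev Bs (m d : Fin J → ℕ) : Type := (Pth m → unitInterval) × (Sg m d → S3)

/-- rotation of one of the spheres -/
def rotB {m d : Fin J → ℕ} (u : Sg m d) (c : Circle) (x : Bs m d) : Bs m d :=
  (x.1, Function.update x.2 u (rotS c (x.2 u)))

/-- A continuous equivariant field of Hermitian matrices with certified labels. -/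
structure CField (m d : Fin J → ℕ) (n : Type*) [Fintype n] [DecidableEq n]
    (κ r0 s o : ℕ) (δ δ2 : ℝ) where
  wt : Sg m d → n → ℕ
  e : Pth m → Matrix n (Fin r0) ℂ
  b : Bs m d → Matrix n n ℂ
  δ_pos : 0 < δ
  δ_lt : δ < δ2
  e_orth : ∀ p, (e p).conjTranspose * e p = 1
  e_orth' : ∀ p p', p ≠ p' → (e p).conjTranspose * e p' = 0
  e_wt : ∀ p α k u, e p α k ≠ 0 → wt u α = lw p u
  b_cont : Continuous b
  b_herm : ∀ x, (b x).IsHermitian
  b_eqv : ∀ x u (c : Circle) α β,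
    b (rotB u c x) α β = (starRingEnd ℂ) ((c : ℂ) ^ wt u α) * (c : ℂ) ^ wt u β * b x α β
  win : ∀ x, nIcc δ δ2 (b x) ≤ s
  le : ∀ x, nGe δ (b x) ≤ κ
  hR : ∀ x : Bs m d, (univ.filter fun p : Pth m => (x.1 p : ℝ) ≠ 0).card ≤ o + s →
    nGe δ (b x) < r0 * (Fintype.card (Pth m) - o)
  cert : ∀ (x : Bs m d) (ξ : Pth m → Fin r0 → ℂ), (∀ p, (x.1 p : ℝ) ≠ 1 → ξ p = 0) →
    16 * nsq ((1 - sproj δ2 (b x)).mulVec (∑ p, (e p).mulVec (ξ p))) ≤
      nsq (∑ p, (e p).mulVec (ξ p))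

end Pool.Agent.MP_d8b6c2_an
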