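import Mathlib
import Pool.Agent.Lib.MP_d8b6c2_an.Coord

/-!
# The smooth structure (definition)

`Str` collects the smooth data constructed from a field of operators: a partition of unity `φ`,
idempotents `Ph i` defined near the support of `φ i`, nested, parallel for the connection `A`, and
frames `Jf p` of certified subbundles.
-/

namespace Pool.Agent.MP_d8b6c2_an

open Finset Filter Topology
open scoped ContDiff

variable {J : ℕ}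

structure Str (m d : Fin J → ℕ) (n : Type*) [Fintype n] [DecidableEq n]
    (κ r0 s o S : ℕ) where
  φ : Fin S → (Co m d → ℝ) → ℝ
  Ph : Fin S → (Co m d → ℝ) → Matrix n n ℂ
  A : Co m d → (Co m d → ℝ) → Matrix n n ℂ
  Jf : Pth m → (Co m d → ℝ) → Matrix n (Fin r0) ℂ
  φ_smooth : ∀ i, ContDiff ℝ ∞ (φ i)
  φ_nonneg : ∀ i x, 0 ≤ φ i x
  φ_sum : ∀ x, ∑ i, φ i x = 1
  A_smooth : ∀ j x, SmAt (A j) x
  Ph_smooth : ∀ i x, x ∈ tsupport (φ i) → ∀ᶠ y in 𝓝 x, SmAt (Ph i) y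
  Ph_cov : ∀ i x, x ∈ tsupport (φ i) → ∀ᶠ y in 𝓝 x, ∀ j, covd A j (Ph i) y = 0
  Ph_idem : ∀ i x, x ∈ tsupport (φ i) → ∀ᶠ y in 𝓝 x, Ph i y * Ph i y = Ph i y
  Ph_nest : ∀ i i' x, i ≤ i' → x ∈ tsupport (φ i) → x ∈ tsupport (φ i') →
    ∀ᶠ y in 𝓝 x, Ph i y * Ph i' y = Ph i y ∧ Ph i' y * Ph i y = Ph i y
  Ph_rank : ∀ i x, x ∈ tsupport (φ i) → ∀ᶠ y in 𝓝 x, (Ph i y).rank = (Ph i x).rank
  rank_le : ∀ i x, x ∈ tsupport (φ i) → (Ph i x).rank ≤ κ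
  rank_win : ∀ i i' x, i ≤ i' → x ∈ tsupport (φ i) → x ∈ tsupport (φ i') →
    (Ph i' x).rank ≤ (Ph i x).rank + s
  rank_R : ∀ i x, x ∈ tsupport (φ i) →
    (univ.filter fun p : Pth m => 0 ≤ x (cu p)).card ≤ o + s →
    (Ph i x).rank < r0 * (Fintype.card (Pth m) - o)
  J_smooth : ∀ p x, SmAt (Jf p) x
  J_orth : ∀ p x, (Jf p x).conjTranspose * Jf p x = 1
  J_cov : ∀ p x, 3 / 4 < x (cu p) → ∀ j, pdm j (Jf p) x + A j x * Jf p x = aa p j x • Jf p x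
  J_cert : ∀ p x, 3 / 4 < x (cu p) → ∀ i, x ∈ tsupport (φ i) → Ph i x * Jf p x = Jf p x
  end_φ : ∀ (s : Sg m d) x, (x (cr s) < 0 ∨ 1 < x (cr s)) →
    ∀ i, pd (cr s) (φ i) x = 0 ∧ pd (ct s) (φ i) x = 0
  end_A : ∀ (s : Sg m d) x, (x (cr s) < 0 ∨ 1 < x (cr s)) → A (cr s) x = 0 ∧ A (ct s) x = 0
  end_dA : ∀ (s : Sg m d) x, (x (cr s) < 0 ∨ 1 < x (cr s)) →
    ∀ k, pdm (cr s) (A k) x = 0 ∧ pdm (ct s) (A k) x = 0
  per_φ : ∀ (s : Sg m d) x i, φ i (x + ej (ct s)) = φ i x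
  per_A : ∀ (s : Sg m d) x j, A j (x + ej (ct s)) = A j x
  per_Ph : ∀ (s : Sg m d) x i, Ph i (x + ej (ct s)) = Ph i x
  tau_φ : ∀ x i, pd cτ (φ i) x = 0
  tau_A : ∀ x, A cτ x = 0
  tau_dA : ∀ x j, pdm cτ (A j) x = 0

end Pool.Agent.MP_d8b6c2_an
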