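import Mathlib
import Pool.Agent.Lib.MP_d8b6c2_an.Str
import Pool.Agent.Lib.MP_d8b6c2_an.Spec

/-! # Smooth fields of operators (definition) -/

namespace Pool.Agent.MP_d8b6c2_an

open Finset Filter Topology
open scoped ContDiff

variable {J : ℕ}

/-- cut-off in the `u` coordinates: `0` for `u ≤ 1/2`, `1` for `u ≥ 3/4` -/
noncomputable def chi (u : ℝ) : ℝ := Real.smoothTransition (4 * u - 2)

structure Fld (m d : Fin J → ℕ) (n : Type*) [Fintype n] [DecidableEq n]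
    (κ r0 s o : ℕ) (δ δ2 : ℝ) where
  b : (Co m d → ℝ) → Matrix n n ℂ
  Jf : Pth m → (Co m d → ℝ) → Matrix n (Fin r0) ℂ
  δ_lt : δ < δ2
  b_smooth : ∀ x, SmAt b x
  b_herm : ∀ x, (b x).IsHermitian
  b_cpt : IsCompact (Set.range fun x => (fun i j => b x i j : n → n → ℂ))
  b_tau : ∀ x, pdm cτ b x = 0
  b_end : ∀ (u : Sg m d) x, (x (cr u) < 0 ∨ 1 < x (cr u)) →
    pdm (cr u) b x = 0 ∧ pdm (ct u) b x = 0
  b_per : ∀ (u : Sg m d) x, b (x + ej (ct u)) = b x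
  J_smooth : ∀ p x, SmAt (Jf p) x
  J_orth : ∀ p x, (Jf p x).conjTranspose * Jf p x = 1
  J_orth' : ∀ p p' x, p ≠ p' → (Jf p x).conjTranspose * Jf p' x = 0
  J_aa : ∀ p j x, (Jf p x).conjTranspose * pdm j (Jf p) x = aa p j x • (1 : Matrix _ _ ℂ)
  PJ_tau : ∀ p x, pdm cτ (fun y => Jf p y * (Jf p y).conjTranspose) x = 0
  PJ_end : ∀ (u : Sg m d) p x, (x (cr u) < 0 ∨ 1 < x (cr u)) →
    pdm (cr u) (fun y => Jf p y * (Jf p y).conjTranspose) x = 0 ∧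
    pdm (ct u) (fun y => Jf p y * (Jf p y).conjTranspose) x = 0
  PJ_per : ∀ (u : Sg m d) p x, Jf p (x + ej (ct u)) * (Jf p (x + ej (ct u))).conjTranspose =
    Jf p x * (Jf p x).conjTranspose
  win : ∀ x, nIcc δ δ2 (b x) ≤ s
  le : ∀ x, nGe δ (b x) ≤ κ
  hR : ∀ x, (univ.filter fun p : Pth m => 0 ≤ x (cu p)).card ≤ o + s →
    nGe δ (b x) < r0 * (Fintype.card (Pth m) - o)
  cert : ∀ x (ξ : Pth m → Fin r0 → ℂ), (∀ p, x (cu p) ≤ 1 / 2 → ξ p = 0) →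
    4 * nsq ((1 - sproj δ2 (b x)).mulVec (∑ p, (Jf p x).mulVec (ξ p))) ≤
      nsq (∑ p, (Jf p x).mulVec (ξ p))

end Pool.Agent.MP_d8b6c2_an
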