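import Mathlib
import Pool.Agent.Lib.MP_d8b6c2_an.CField
import Pool.Agent.Lib.MP_d8b6c2_an.Fld

/-! # From continuous equivariant fields to smooth fields: definitions -/

namespace Pool.Agent.MP_d8b6c2_an

open Finset Filter Topology
open scoped ContDiff

variable {J : ℕ} {m d : Fin J → ℕ} {n : Type*} [Fintype n] [DecidableEq n] {κ r0 s o : ℕ}
  {δ δ2 : ℝ}

/-- clamp: `0` for `u ≤ 0`, `1` for `u ≥ 1/2` -/
noncomputable def c0 (u : ℝ) : ℝ := Real.smoothTransition (2 * u)

theorem c0_mem (u : ℝ) : c0 u ∈ unitInterval :=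
  ⟨Real.smoothTransition.nonneg _, Real.smoothTransition.le_one _⟩

theorem sig_mem (r t : ℝ) : ∑ i, ‖sig r t i‖ ^ 2 = 1 := by
  have h : ‖Complex.exp (2 * Real.pi * Complex.I * t)‖ = 1 := by
    rw [Complex.norm_exp]
    simp
  rw [Fin.sum_univ_two]
  simp only [sig, Matrix.cons_val_zero, Matrix.cons_val_one, norm_mul, h, one_mul,
    Complex.norm_real, Real.norm_eq_abs, sq_abs]
  nlinarith [Real.sin_sq_add_cos_sq (ang r)]

/-- the map from the coordinate space to the base of a continuous field -/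
noncomputable def toBs (x : Co m d → ℝ) : Bs m d :=
  (fun p => ⟨c0 (x (cu p)), c0_mem _⟩, fun u => ⟨sig (x (cr u)) (x (ct u)), sig_mem _ _⟩)

/-- index set after tensoring with the tautological vectors -/
abbrev Nx (wt : Sg m d → n → ℕ) : Type _ := Σ α : n, ((u : Sg m d) → Fin (wt u α) → Fin 2)

/-- the isometry `V (z)`: `α ↦ e_α ⊗ ⨂_u z_u^(⊗ wt u α)` -/
noncomputable def Vm (wt : Sg m d → n → ℕ) (z : Sg m d → Fin 2 → ℂ) :
    Matrix (Nx wt) n ℂ :=
  Matrix.of fun i β => if i.1 = β then ∏ u, ∏ a, z u (i.2 u a) else 0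

/-- the gauge invariant field -/
noncomputable def bV (C : CField m d n κ r0 s o δ δ2) (x : Bs m d) :
    Matrix (Nx C.wt) (Nx C.wt) ℂ :=
  Vm C.wt (fun u => (x.2 u).1) * C.b x * (Vm C.wt (fun u => (x.2 u).1)).conjTranspose

/-- invariants of the circle actions: the coordinates `c0 (u_p)` and the entries of `z_u z_u^*` -/
abbrev Inv (m d : Fin J → ℕ) : Type := Pth m ⊕ (Sg m d × (Fin 2 × Fin 2))

noncomputable def inv (x : Bs m d) : Inv m d → ℂ := fun j =>
  match j with
  | Sum.inl p => ((x.1 p : ℝ) : ℂ)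
  | Sum.inr (u, a, c) => (x.2 u).1 a * (starRingEnd ℂ) ((x.2 u).1 c)

end Pool.Agent.MP_d8b6c2_an
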