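import Mathlib
import Pool.Agent.Lib.MP_d8b6c2_an.Forms

/-! # Existence of the Grassmann algebra -/

namespace Pool.Agent.MP_d8b6c2_an

open Finset

section Grass

variable {ι : Type} [Fintype ι] [DecidableEq ι]

/-- number of elements of `s` before `i` -/
noncomputable def grass_c (i : ι) (s : Finset ι) : ℕ :=
  (s.filter fun j => Fintype.equivFin ι j < Fintype.equivFin ι i).card

/-- the creation operator as a linear map -/
noncomputable def grass_lin (i : ι) : (Finset ι → ℂ) →ₗ[ℂ] (Finset ι → ℂ) where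
  toFun v s := if i ∈ s then (-1) ^ grass_c i s * v (s.erase i) else 0
  map_add' v w := by
    funext s
    by_cases h : i ∈ s
    · simp [h, mul_add]
    · simp [h]
  map_smul' c v := by
    funext s
    by_cases h : i ∈ s
    · simp [h]; ring
    · simp [h]

/-- the creation operator -/
noncomputable def grass_op (i : ι) : (Finset ι → ℂ) →L[ℂ] (Finset ι → ℂ) :=
  LinearMap.toContinuousLinearMap (grass_lin i)

theorem grass_op_apply (i : ι) (v : Finset ι → ℂ) (s : Finset ι) :
    grass_op i v s = if i ∈ s then (-1) ^ grass_c i s * v (s.erase i) else 0 := rfl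

theorem grass_c_erase_lt {i j : ι} {s : Finset ι} (hi : i ∈ s)
    (h : Fintype.equivFin ι i < Fintype.equivFin ι j) :
    grass_c j s = grass_c j (s.erase i) + 1 := by
  unfold grass_c
  rw [Finset.filter_erase, Finset.card_erase_add_one]
  exact Finset.mem_filter.2 ⟨hi, h⟩

theorem grass_c_erase_not_lt {i j : ι} {s : Finset ι}
    (h : ¬ Fintype.equivFin ι i < Fintype.equivFin ι j) :
    grass_c j s = grass_c j (s.erase i) := by
  unfold grass_c
  rw [Finset.filter_erase, Finset.erase_eq_of_notMem]
  intro h'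
  exact h (Finset.mem_filter.1 h').2

theorem grass_anti (i j : ι) : grass_op i * grass_op j = -(grass_op j * grass_op i) := by
  apply ContinuousLinearMap.ext
  intro v
  funext s
  change grass_op i (grass_op j v) s = -(grass_op j (grass_op i v) s)
  rw [grass_op_apply, grass_op_apply, grass_op_apply, grass_op_apply]
  by_cases hij : i = j
  · subst hij
    by_cases hi : i ∈ s <;> simp
  by_cases hi : i ∈ s
  · by_cases hj : j ∈ s
    · have h1 : j ∈ s.erase i := Finset.mem_erase.2 ⟨fun h => hij h.symm, hj⟩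
      have h2 : i ∈ s.erase j := Finset.mem_erase.2 ⟨hij, hi⟩
      rw [if_pos hi, if_pos h1, if_pos hj, if_pos h2, Finset.erase_right_comm]
      rcases lt_trichotomy (Fintype.equivFin ι i) (Fintype.equivFin ι j) with h | h | h
      · rw [grass_c_erase_lt hi h (j := j),
          grass_c_erase_not_lt (i := j) (j := i) (s := s) (not_lt.2 h.le)]
        ring
      · exact absurd ((Fintype.equivFin ι).injective h) hij
      · rw [grass_c_erase_lt hj h (j := i),
          grass_c_erase_not_lt (i := i) (j := j) (s := s) (not_lt.2 h.le)]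
        ring
    · have h1 : j ∉ s.erase i := fun h => hj (Finset.mem_of_mem_erase h)
      simp [hj]
  · have h1 : i ∉ s.erase j := fun h => hi (Finset.mem_of_mem_erase h)
    by_cases hj : j ∈ s <;> simp [hi]

/-- the coefficient functional -/
noncomputable def grass_top (ι : Type) [Fintype ι] [DecidableEq ι] :
    ((Finset ι → ℂ) →L[ℂ] (Finset ι → ℂ)) →L[ℂ] ℂ :=
  (ContinuousLinearMap.proj (R := ℂ) (φ := fun _ : Finset ι => ℂ) Finset.univ).comp
    (ContinuousLinearMap.apply ℂ (Finset ι → ℂ) (Pi.single (∅ : Finset ι) (1 : ℂ)))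

theorem grass_top_apply (y : (Finset ι → ℂ) →L[ℂ] (Finset ι → ℂ)) :
    grass_top ι y = y (Pi.single (∅ : Finset ι) (1 : ℂ)) Finset.univ := rfl

/-- operators from the algebra generated by the `θ j`, `j ≠ i`, preserve the functions which
vanish on sets containing `i` -/
theorem grass_pres (i : ι) (y : (Finset ι → ℂ) →L[ℂ] (Finset ι → ℂ))
    (hy : y ∈ Algebra.adjoin ℂ (grass_op '' {j : ι | j ≠ i})) :
    ∀ v : Finset ι → ℂ, (∀ s, i ∈ s → v s = 0) → ∀ s, i ∈ s → y v s = 0 := by
  induction hy using Algebra.adjoin_induction with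
  | mem x hx =>
    obtain ⟨j, hj, rfl⟩ := hx
    intro v hv s hs
    rw [grass_op_apply]
    split_ifs with h
    · rw [hv (s.erase j) (Finset.mem_erase.2 ⟨fun h' => hj h'.symm, hs⟩), mul_zero]
    · rfl
  | algebraMap r =>
    intro v hv s hs
    change (r • v) s = 0
    rw [Pi.smul_apply, hv s hs, smul_zero]
  | add x y _ _ hx hy =>
    intro v hv s hs
    change x v s + y v s = 0
    rw [hx v hv s hs, hy v hv s hs, add_zero]
  | mul x y _ _ hx hy =>
    intro v hv s hs
    exact hx (y v) (hy v hv) s hs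

theorem grass_top_zero (i : ι) (y : (Finset ι → ℂ) →L[ℂ] (Finset ι → ℂ))
    (hy : y ∈ Algebra.adjoin ℂ (grass_op '' {j : ι | j ≠ i})) : grass_top ι y = 0 := by
  rw [grass_top_apply]
  apply grass_pres i y hy
  · intro s hs
    rw [Pi.single_apply, if_neg]
    rintro rfl
    exact absurd hs (Finset.notMem_empty i)
  · exact Finset.mem_univ i

theorem grass_prod (L : List ι) : L.Nodup → ∃ c : ℂ, c ≠ 0 ∧
    (L.map (grass_op : ι → (Finset ι → ℂ) →L[ℂ] (Finset ι → ℂ))).prod
      (Pi.single (∅ : Finset ι) (1 : ℂ)) = Pi.single L.toFinset c := by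
  induction L with
  | nil =>
    intro _
    exact ⟨1, one_ne_zero, rfl⟩
  | cons i L ih =>
    intro h
    obtain ⟨hi, hL⟩ := List.nodup_cons.1 h
    obtain ⟨c, hc, hc'⟩ := ih hL
    refine ⟨(-1) ^ grass_c i (insert i L.toFinset) * c,
      mul_ne_zero (pow_ne_zero _ (neg_ne_zero.2 one_ne_zero)) hc, ?_⟩
    rw [List.map_cons, List.prod_cons]
    change grass_op i ((L.map grass_op).prod (Pi.single (∅ : Finset ι) (1 : ℂ))) = _
    rw [hc', List.toFinset_cons]
    funext s
    rw [grass_op_apply]
    by_cases hs : s = insert i L.toFinset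
    · subst hs
      rw [if_pos (Finset.mem_insert_self i _), Pi.single_eq_same,
        Finset.erase_insert (by simpa using hi), Pi.single_eq_same]
    · rw [Pi.single_eq_of_ne hs]
      split_ifs with h1
      · rw [Pi.single_eq_of_ne, mul_zero]
        intro h2
        apply hs
        rw [← h2, Finset.insert_erase h1]
      · rfl

theorem grass_top_ne (L : List ι) (hL : L.Nodup) (hL' : ∀ i, i ∈ L) :
    grass_top ι ((L.map grass_op).prod) ≠ 0 := by
  obtain ⟨c, hc, hc'⟩ := grass_prod L hL
  have h2 : L.toFinset = Finset.univ := by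
    ext i
    simp [hL' i]
  rw [grass_top_apply, hc', h2, Pi.single_eq_same]
  exact hc

end Grass

/-- assembling the structure over the centre -/
theorem grass_gen {ι : Type} [Fintype ι] [DecidableEq ι] {G : Type} [NormedRing G]
    [NormedAlgebra ℂ G] (th : ι → G) (hc : ∀ i j, ∀ y : G, y * (th i * th j) = th i * th j * y)
    (ha : ∀ i j, th i * th j = -(th j * th i)) (tp : G →L[ℂ] ℂ)
    (h0 : ∀ i, ∀ y ∈ Algebra.adjoin ℂ (th '' {j | j ≠ i}), tp y = 0)
    (h1 : ∀ L : List ι, L.Nodup → (∀ i, i ∈ L) → tp ((L.map th).prod) ≠ 0) :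
    ∃ (R 𝔾 : Type) (_ : NormedCommRing R) (_ : NormedAlgebra ℂ R) (_ : NormedRing 𝔾)
      (_ : NormedAlgebra ℂ 𝔾), Nonempty (GData ι R 𝔾) := by
  let iR : NormedCommRing (Subalgebra.center ℂ G) :=
    { (inferInstance : NormedRing (Subalgebra.center ℂ G)) with
      mul_comm := fun a b => Subtype.ext ((Subalgebra.mem_center_iff.1 b.2) a.1) }
  refine ⟨Subalgebra.center ℂ G, G, iR, inferInstance, inferInstance, inferInstance, ⟨?_⟩⟩
  exact
    { inc := (Subalgebra.center ℂ G).val
      inc_cont := continuous_subtype_val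
      inc_inj := Subtype.val_injective
      θ := th
      tt := fun i j => ⟨th i * th j, Subalgebra.mem_center_iff.2 (hc i j)⟩
      inc_tt := fun i j => rfl
      comm := fun r y => ((Subalgebra.mem_center_iff.1 r.2) y).symm
      anti := ha
      top := tp
      top_zero := h0
      top_ne := h1 }

theorem grass_ring {A : Type*} [Ring A] {a b c : A} (h1 : c * a = -(a * c))
    (h2 : c * b = -(b * c)) : c * (a * b) = (a * b) * c := by
  rw [← mul_assoc, h1, neg_mul, mul_assoc, h2, mul_neg, neg_neg, ← mul_assoc]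

/-- passing to the subalgebra generated by the `th i` -/
theorem grass_gen2 {ι : Type} [Fintype ι] [DecidableEq ι] {A : Type} [NormedRing A]
    [NormedAlgebra ℂ A] (th : ι → A) (ha : ∀ i j, th i * th j = -(th j * th i))
    (tp : A →L[ℂ] ℂ) (h0 : ∀ i, ∀ y ∈ Algebra.adjoin ℂ (th '' {j | j ≠ i}), tp y = 0)
    (h1 : ∀ L : List ι, L.Nodup → (∀ i, i ∈ L) → tp ((L.map th).prod) ≠ 0) :
    ∃ (R 𝔾 : Type) (_ : NormedCommRing R) (_ : NormedAlgebra ℂ R) (_ : NormedRing 𝔾)
      (_ : NormedAlgebra ℂ 𝔾), Nonempty (GData ι R 𝔾) := by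
  have hm : ∀ i, th i ∈ Algebra.adjoin ℂ (Set.range th) :=
    fun i => Algebra.subset_adjoin ⟨i, rfl⟩
  have hcomm : ∀ i j, ∀ y ∈ Algebra.adjoin ℂ (Set.range th),
      y * (th i * th j) = th i * th j * y := by
    intro i j y hy
    induction hy using Algebra.adjoin_induction with
    | mem x hx =>
      obtain ⟨k, rfl⟩ := hx
      exact grass_ring (ha k i) (ha k j)
    | algebraMap r => exact Algebra.commutes r _
    | add x y _ _ hx hy => rw [add_mul, mul_add, hx, hy]
    | mul x y _ _ hx hy => rw [mul_assoc, hy, ← mul_assoc, hx, mul_assoc]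
  refine grass_gen (G := Algebra.adjoin ℂ (Set.range th)) (fun i => ⟨th i, hm i⟩) ?_ ?_
    (tp.comp (Subalgebra.toSubmodule (Algebra.adjoin ℂ (Set.range th))).subtypeL) ?_ ?_
  · intro i j y
    exact Subtype.ext (hcomm i j y.1 y.2)
  · intro i j
    exact Subtype.ext (ha i j)
  · intro i y hy
    change tp y.1 = 0
    apply h0 i
    have h2 : (Algebra.adjoin ℂ ((fun i => (⟨th i, hm i⟩ :
        Algebra.adjoin ℂ (Set.range th))) '' {j : ι | j ≠ i})).map
        (Algebra.adjoin ℂ (Set.range th)).val = Algebra.adjoin ℂ (th '' {j : ι | j ≠ i}) := by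
      rw [AlgHom.map_adjoin, Set.image_image]
      rfl
    rw [← h2]
    exact ⟨y, hy, rfl⟩
  · intro L hL hL'
    change tp ((L.map fun i => (⟨th i, hm i⟩ : Algebra.adjoin ℂ (Set.range th))).prod).1 ≠ 0
    have h3 : ((L.map fun i => (⟨th i, hm i⟩ : Algebra.adjoin ℂ (Set.range th))).prod).1 =
        (L.map th).prod := by
      change (Algebra.adjoin ℂ (Set.range th)).val ((L.map fun i =>
        (⟨th i, hm i⟩ : Algebra.adjoin ℂ (Set.range th))).prod) = _
      rw [map_list_prod, List.map_map]
      rfl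
    rw [h3]
    exact h1 L hL hL'

/-- Fermionic creation operators: on `V = Finset ι → ℂ` (with `ι` linearly ordered, for instance
through `Fintype.equivFin`), `θ i e_s = ± e_(insert i s)` if `i ∉ s` and `0` otherwise, with the
sign `(-1)^(number of elements of s before i)`. They anticommute. Let `𝔾` be the algebra of
operators generated by the `θ i` (a subalgebra of `V →L[ℂ] V`), `R` its centre, which contains the
products `θ i * θ j`, and `top y` the coefficient of `e_univ` in `y e_∅`. -/
theorem exists_grass (ι : Type) [Fintype ι] [DecidableEq ι] :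
    ∃ (R 𝔾 : Type) (_ : NormedCommRing R) (_ : NormedAlgebra ℂ R) (_ : NormedRing 𝔾)
      (_ : NormedAlgebra ℂ 𝔾), Nonempty (GData ι R 𝔾) := by
  exact grass_gen2 grass_op grass_anti (grass_top ι) grass_top_zero grass_top_ne

end Pool.Agent.MP_d8b6c2_an
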