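import Mathlib
import Pool.Agent.Lib.MP_d8b6c2_an.Loc1
import Pool.Agent.Lib.MP_d8b6c2_an.StrFalse
import Pool.Agent.Lib.MP_d8b6c2_an.Grass

/-! # There is no smooth field -/

namespace Pool.Agent.MP_d8b6c2_an

open Finset

variable {J : ℕ} {m d : Fin J → ℕ} {n : Type*} [Fintype n] [DecidableEq n] {κ r0 s o : ℕ}
  {δ δ2 : ℝ}

theorem no_fld (M cap : Fin J → ℕ) (hd : ∀ t, d t = eexp M m t * cap t)
    (hM : ∀ t, ∑ u ∈ univ.filter (t < ·), d u < M t) (hcap : ∀ t, 0 < cap t)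
    (ho : ∑ t, (κ : ℝ) * nlv m t / cap t ≤ o) (F : Fld m d n κ r0 s o δ δ2) : False := by
  obtain ⟨S, ⟨σ⟩⟩ := exists_str F
  obtain ⟨R, 𝔾, i1, i2, i3, i4, ⟨g⟩⟩ := exists_grass (Co m d)
  exact str_false M cap hd hM hcap ho σ g

end Pool.Agent.MP_d8b6c2_an
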