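import Mathlib
import Pool.Agent.Lib.MP_d8b6c2_an.Bridge
import Pool.Agent.Lib.MP_d8b6c2_an.NoFld

/-! # From continuous equivariant fields to smooth fields: proofs -/

namespace Pool.Agent.MP_d8b6c2_an

open Finset Filter Topology
open scoped ContDiff

variable {J : ℕ} {m d : Fin J → ℕ} {n : Type*} [Fintype n] [DecidableEq n] {κ r0 s o : ℕ}
  {δ δ2 : ℝ}

/-- coefficients in the eigenbasis -/
private noncomputable def bridge1a_cf {B : Matrix n n ℂ} (hB : B.IsHermitian) :
    (n → ℂ) →ₗ[ℂ] (n → ℂ) where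
  toFun v := fun i => hB.eigenvectorBasis.repr (WithLp.toLp 2 v) i
  map_add' v w := by
    funext i
    simp [WithLp.toLp_add]
  map_smul' c v := by
    funext i
    simp [WithLp.toLp_smul]

omit [DecidableEq n] in
private theorem bridge1a_nsq (v : n → ℂ) : nsq v = ‖(WithLp.toLp 2 v : EuclideanSpace ℂ n)‖ ^ 2 := by
  rw [EuclideanSpace.norm_sq_eq]
  rfl

private theorem bridge1a_parseval {B : Matrix n n ℂ} (hB : B.IsHermitian) (v : n → ℂ) :
    nsq v = ∑ i, ‖bridge1a_cf hB v i‖ ^ 2 := by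
  rw [bridge1a_nsq, ← hB.eigenvectorBasis.repr.norm_map, EuclideanSpace.norm_sq_eq]
  rfl

private theorem bridge1a_mul {B : Matrix n n ℂ} (hB : B.IsHermitian) (v : n → ℂ) (i : n) :
    bridge1a_cf hB (B.mulVec v) i = (hB.eigenvalues i : ℂ) * bridge1a_cf hB v i := by
  change hB.eigenvectorBasis.repr (WithLp.toLp 2 (B.mulVec v)) i =
    (hB.eigenvalues i : ℂ) * hB.eigenvectorBasis.repr (WithLp.toLp 2 v) i
  rw [OrthonormalBasis.repr_apply_apply, OrthonormalBasis.repr_apply_apply]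
  rw [EuclideanSpace.inner_eq_star_dotProduct, EuclideanSpace.inner_eq_star_dotProduct]
  have h1 := hB.mulVec_eigenvectorBasis i
  have h2 : Matrix.vecMul (star ((hB.eigenvectorBasis i).ofLp : n → ℂ)) B =
      (hB.eigenvalues i : ℂ) • star ((hB.eigenvectorBasis i).ofLp : n → ℂ) := by
    have h3 := congrArg star h1
    rw [Matrix.star_mulVec, hB.eq] at h3
    rw [h3]
    ext j
    simp
  simp only
  rw [dotProduct_comm, Matrix.dotProduct_mulVec, h2, smul_dotProduct, smul_eq_mul,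
    dotProduct_comm]

private theorem bridge1a_nIcc {B : Matrix n n ℂ} (hB : B.IsHermitian) (a b : ℝ) :
    nIcc a b B = Fintype.card {i : n // a ≤ hB.eigenvalues i ∧ hB.eigenvalues i ≤ b} := by
  classical
  unfold nIcc
  rw [hB.roots_charpoly_eq_eigenvalues, Fintype.card_subtype]
  rw [Multiset.filter_map, Multiset.card_map]
  rfl

private theorem bridge1a_nGe {B : Matrix n n ℂ} (hB : B.IsHermitian) (a : ℝ) :
    nGe a B = Fintype.card {i : n // a ≤ hB.eigenvalues i} := by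
  classical
  unfold nGe
  rw [hB.roots_charpoly_eq_eigenvalues, Fintype.card_subtype]
  rw [Multiset.filter_map, Multiset.card_map]
  rfl

/-- if `V, W` are the spans of the eigenvectors of `B` in `[a, b]` and of `C` outside
`[a - ε, b + ε]` then `V ∩ W = 0`; compare dimensions -/
theorem nIcc_pert {B C : Matrix n n ℂ} (hB : B.IsHermitian) (hC : C.IsHermitian) {ε : ℝ}
    (hε0 : 0 ≤ ε) (hε : ∀ v : n → ℂ, nsq ((B - C).mulVec v) ≤ ε ^ 2 * nsq v) (a b : ℝ) :
    nIcc a b B ≤ nIcc (a - ε) (b + ε) C := by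
  classical
  rw [bridge1a_nIcc hB, bridge1a_nIcc hC]
  by_contra hlt
  push Not at hlt
  -- the interval is nonempty
  have hab : a ≤ b := by
    have : 0 < Fintype.card {i : n // a ≤ hB.eigenvalues i ∧ hB.eigenvalues i ≤ b} := by omega
    obtain ⟨i⟩ := Fintype.card_pos_iff.1 this
    exact i.2.1.trans i.2.2
  -- the linear map
  let L : (n → ℂ) →ₗ[ℂ] ({i : n // ¬ (a ≤ hB.eigenvalues i ∧ hB.eigenvalues i ≤ b)} → ℂ) ×
      ({i : n // a - ε ≤ hC.eigenvalues i ∧ hC.eigenvalues i ≤ b + ε} → ℂ) :=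
    LinearMap.prod
      ((LinearMap.funLeft ℂ ℂ (fun i => i.1)).comp (bridge1a_cf hB))
      ((LinearMap.funLeft ℂ ℂ (fun i => i.1)).comp (bridge1a_cf hC))
  have hker : LinearMap.ker L ≠ ⊥ := by
    apply LinearMap.ker_ne_bot_of_finrank_lt
    rw [Module.finrank_prod, Module.finrank_fintype_fun_eq_card,
      Module.finrank_fintype_fun_eq_card, Module.finrank_fintype_fun_eq_card]
    have h := Fintype.card_subtype_compl
      (fun i : n => a ≤ hB.eigenvalues i ∧ hB.eigenvalues i ≤ b)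
    have h' := Fintype.card_subtype_le
      (fun i : n => a ≤ hB.eigenvalues i ∧ hB.eigenvalues i ≤ b)
    omega
  obtain ⟨v, hv, hv0⟩ := Submodule.exists_mem_ne_zero_of_ne_bot hker
  have hLv : L v = 0 := hv
  have h1 : ∀ i, ¬ (a ≤ hB.eigenvalues i ∧ hB.eigenvalues i ≤ b) → bridge1a_cf hB v i = 0 := by
    intro i hi
    exact congrFun (congrArg Prod.fst hLv) ⟨i, hi⟩
  have h2 : ∀ i, (a - ε ≤ hC.eigenvalues i ∧ hC.eigenvalues i ≤ b + ε) →
      bridge1a_cf hC v i = 0 := by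
    intro i hi
    exact congrFun (congrArg Prod.snd hLv) ⟨i, hi⟩
  set c : ℝ := (a + b) / 2 with hc
  set h : ℝ := (b - a) / 2 with hh
  have hh0 : 0 ≤ h := by rw [hh]; linarith
  -- norms
  have hnv : 0 < ‖(WithLp.toLp 2 v : EuclideanSpace ℂ n)‖ := by
    rw [norm_pos_iff]
    intro h0
    exact hv0 (by simpa using h0)
  have e1 : nsq (B.mulVec v - (c : ℂ) • v) ≤ h ^ 2 * nsq v := by
    rw [bridge1a_parseval hB, bridge1a_parseval hB v, Finset.mul_sum]
    apply Finset.sum_le_sum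
    intro i _
    rw [map_sub, map_smul, Pi.sub_apply, Pi.smul_apply, bridge1a_mul, smul_eq_mul, ← sub_mul,
      norm_mul, mul_pow]
    by_cases hi : a ≤ hB.eigenvalues i ∧ hB.eigenvalues i ≤ b
    · refine mul_le_mul_of_nonneg_right ?_ (sq_nonneg _)
      rw [← Complex.ofReal_sub, Complex.norm_real, Real.norm_eq_abs, sq_abs]
      apply sq_le_sq'
      · rw [hc, hh]; linarith [hi.1]
      · rw [hc, hh]; linarith [hi.2]
    · rw [h1 i hi]
      simp
  have e2 : (h + ε) ^ 2 * nsq v < nsq (C.mulVec v - (c : ℂ) • v) := by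
    rw [bridge1a_parseval hC v, bridge1a_parseval hC (C.mulVec v - (c : ℂ) • v), Finset.mul_sum]
    obtain ⟨i0, hi0⟩ : ∃ i, bridge1a_cf hC v i ≠ 0 := by
      by_contra hcon
      push Not at hcon
      have : nsq v = 0 := by
        rw [bridge1a_parseval hC]
        simp [hcon]
      rw [bridge1a_nsq] at this
      have := pow_eq_zero_iff (two_ne_zero) |>.1 this
      linarith
    have key : ∀ i, bridge1a_cf hC v i ≠ 0 →
        (h + ε) ^ 2 < ‖((hC.eigenvalues i : ℂ) - (c : ℂ))‖ ^ 2 := by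
      intro i hi
      have hne : ¬ (a - ε ≤ hC.eigenvalues i ∧ hC.eigenvalues i ≤ b + ε) :=
        fun hcon => hi (h2 i hcon)
      rw [← Complex.ofReal_sub, Complex.norm_real, Real.norm_eq_abs, sq_abs]
      rw [not_and_or, not_le, not_le] at hne
      rcases hne with hne | hne
      · have : h + ε < c - hC.eigenvalues i := by rw [hh, hc]; linarith
        nlinarith
      · have : h + ε < hC.eigenvalues i - c := by rw [hh, hc]; linarith
        nlinarith
    apply Finset.sum_lt_sum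
    · intro i _
      rw [map_sub, map_smul, Pi.sub_apply, Pi.smul_apply, bridge1a_mul, smul_eq_mul, ← sub_mul,
        norm_mul, mul_pow]
      by_cases hi : bridge1a_cf hC v i = 0
      · rw [hi]; simp
      · exact mul_le_mul_of_nonneg_right (key i hi).le (sq_nonneg _)
    · refine ⟨i0, Finset.mem_univ _, ?_⟩
      rw [map_sub, map_smul, Pi.sub_apply, Pi.smul_apply, bridge1a_mul, smul_eq_mul, ← sub_mul,
        norm_mul, mul_pow]
      have : 0 < ‖bridge1a_cf hC v i0‖ := norm_pos_iff.2 hi0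
      exact mul_lt_mul_of_pos_right (key i0 hi0) (by positivity)
  have e3 := hε v
  -- triangle inequality
  rw [bridge1a_nsq, bridge1a_nsq] at e1 e2 e3
  have f1 : ‖(WithLp.toLp 2 (B.mulVec v - (c : ℂ) • v) : EuclideanSpace ℂ n)‖ ≤
      h * ‖(WithLp.toLp 2 v : EuclideanSpace ℂ n)‖ := by
    rw [← mul_pow] at e1
    exact (abs_le_of_sq_le_sq' e1 (by positivity)).2
  have f3 : ‖(WithLp.toLp 2 ((B - C).mulVec v) : EuclideanSpace ℂ n)‖ ≤
      ε * ‖(WithLp.toLp 2 v : EuclideanSpace ℂ n)‖ := by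
    rw [← mul_pow] at e3
    exact (abs_le_of_sq_le_sq' e3 (by positivity)).2
  have f2 : (h + ε) * ‖(WithLp.toLp 2 v : EuclideanSpace ℂ n)‖ <
      ‖(WithLp.toLp 2 (C.mulVec v - (c : ℂ) • v) : EuclideanSpace ℂ n)‖ := by
    rw [← mul_pow] at e2
    exact lt_of_pow_lt_pow_left₀ 2 (norm_nonneg _) e2
  have f4 : (WithLp.toLp 2 (C.mulVec v - (c : ℂ) • v) : EuclideanSpace ℂ n) =
      WithLp.toLp 2 (B.mulVec v - (c : ℂ) • v) - WithLp.toLp 2 ((B - C).mulVec v) := by
    rw [← WithLp.toLp_sub, Matrix.sub_mulVec]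
    congr 1
    abel
  rw [f4] at f2
  have f5 := norm_sub_le (WithLp.toLp 2 (B.mulVec v - (c : ℂ) • v) : EuclideanSpace ℂ n)
    (WithLp.toLp 2 ((B - C).mulVec v))
  nlinarith

theorem nGe_pert {B C : Matrix n n ℂ} (hB : B.IsHermitian) (hC : C.IsHermitian) {ε : ℝ}
    (hε0 : 0 ≤ ε) (hε : ∀ v : n → ℂ, nsq ((B - C).mulVec v) ≤ ε ^ 2 * nsq v) (a : ℝ) :
    nGe a B ≤ nGe (a - ε) C := by
  classical
  obtain ⟨b, hb⟩ : ∃ b, ∀ i, hB.eigenvalues i ≤ b := by
    obtain ⟨b, hb⟩ := (Set.finite_range hB.eigenvalues).bddAbove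
    exact ⟨b, fun i => hb ⟨i, rfl⟩⟩
  have h1 : nGe a B = nIcc a b B := by
    rw [bridge1a_nGe hB, bridge1a_nIcc hB]
    apply Fintype.card_congr
    exact Equiv.subtypeEquivRight fun i => ⟨fun h => ⟨h, hb i⟩, fun h => h.1⟩
  have h2 : nIcc (a - ε) (b + ε) C ≤ nGe (a - ε) C := by
    rw [bridge1a_nGe hC, bridge1a_nIcc hC]
    apply Fintype.card_subtype_mono
    intro i hi
    exact hi.1
  rw [h1]
  exact (nIcc_pert hB hC hε0 hε a b).trans h2

end Pool.Agent.MP_d8b6c2_an
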