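import Mathlib
import Pool.Agent.Lib.MP_d8b6c2_an.Bridge
import Pool.Agent.Lib.MP_d8b6c2_an.NoFld
import Pool.Agent.Lib.MP_d8b6c2_an.Bridge1a

/-! # From continuous equivariant fields to smooth fields: proofs -/

namespace Pool.Agent.MP_d8b6c2_an

open Finset Filter Topology
open scoped ContDiff

variable {J : ℕ} {m d : Fin J → ℕ} {n : Type*} [Fintype n] [DecidableEq n] {κ r0 s o : ℕ}
  {δ δ2 : ℝ}

theorem bridge1b_nsq_eq {n : Type*} [Fintype n] (v : n → ℂ) :
    nsq v = (star v ⬝ᵥ v).re := by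
  simp only [nsq, dotProduct, Pi.star_apply, Complex.re_sum]
  refine Finset.sum_congr rfl fun i _ => ?_
  have : star (v i) * v i = ((‖v i‖ ^ 2 : ℝ) : ℂ) := by
    rw [Complex.star_def, mul_comm, Complex.mul_conj, Complex.normSq_eq_norm_sq]
  rw [this, Complex.ofReal_re]

theorem bridge1b_nsq_nonneg {n : Type*} [Fintype n] (v : n → ℂ) : 0 ≤ nsq v :=
  Finset.sum_nonneg fun _ _ => by positivity

theorem bridge1b_cs {n : Type*} [Fintype n] (u v : n → ℂ) :
    (star u ⬝ᵥ v).re ≤ Real.sqrt (nsq u) * Real.sqrt (nsq v) := by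
  have h1 : star u ⬝ᵥ v = inner ℂ (WithLp.toLp 2 u) (WithLp.toLp 2 v) := by
    rw [EuclideanSpace.inner_eq_star_dotProduct, dotProduct_comm]
  have h2 : ∀ w : n → ℂ, ‖(WithLp.toLp 2 w : EuclideanSpace ℂ n)‖ = Real.sqrt (nsq w) := by
    intro w
    rw [EuclideanSpace.norm_eq]
    rfl
  rw [h1, ← h2, ← h2]
  exact (Complex.re_le_norm _).trans (norm_inner_le_norm _ _)

theorem bridge1b_nonneg {A : Matrix n n ℂ} (f : ℝ → ℝ)
    (hf : ∀ x ∈ spectrum ℝ A, 0 ≤ f x) (v : n → ℂ) :
    0 ≤ (star v ⬝ᵥ (cfc f A).mulVec v).re := by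
  have hfin : (spectrum ℝ A).Finite := Matrix.finite_real_spectrum
  have hc : ∀ g : ℝ → ℝ, ContinuousOn g (spectrum ℝ A) := fun g => hfin.continuousOn g
  set H : Matrix n n ℂ := cfc (fun x => Real.sqrt (f x)) A with hH
  have h1 : cfc f A = H * H := by
    rw [hH, ← cfc_mul _ _ A (hc _) (hc _)]
    refine cfc_congr fun x hx => ?_
    exact (Real.mul_self_sqrt (hf x hx)).symm
  have h2 : H.conjTranspose = H :=
    cfc_predicate (R := ℝ) (p := IsSelfAdjoint) (fun x => Real.sqrt (f x)) A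
  have h3 : star v ⬝ᵥ (cfc f A).mulVec v = star (H.mulVec v) ⬝ᵥ H.mulVec v := by
    rw [h1, ← Matrix.mulVec_mulVec, Matrix.star_mulVec, h2, Matrix.dotProduct_mulVec]
  rw [h3, ← bridge1b_nsq_eq]
  exact bridge1b_nsq_nonneg _

/-- Davis-Kahan for half lines: `‖1_{B ≤ a} 1_{C > b}‖ ≤ ε / (b - a)` -/
theorem davis_kahan {B C : Matrix n n ℂ} (hB : B.IsHermitian) (hC : C.IsHermitian) {ε : ℝ}
    (hε0 : 0 ≤ ε) (hε : ∀ v : n → ℂ, nsq ((B - C).mulVec v) ≤ ε ^ 2 * nsq v) {a b : ℝ}
    (hab : a < b) (v : n → ℂ) :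
    nsq ((1 - sproj a B).mulVec ((sproj b C).mulVec v)) ≤ (ε / (b - a)) ^ 2 * nsq v := by
  classical
  have hab' : 0 < b - a := sub_pos.mpr hab
  have hcB : ∀ g : ℝ → ℝ, ContinuousOn g (spectrum ℝ B) := fun g =>
    Matrix.finite_real_spectrum.continuousOn g
  have hcC : ∀ g : ℝ → ℝ, ContinuousOn g (spectrum ℝ C) := fun g =>
    Matrix.finite_real_spectrum.continuousOn g
  have hBsa : IsSelfAdjoint B := hB
  have hCsa : IsSelfAdjoint C := hC
  set F : Matrix n n ℂ := sproj b C with hF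
  set E : Matrix n n ℂ := 1 - sproj a B with hE
  have hEc : E = cfc (fun y : ℝ => 1 - (if a < y then (1 : ℝ) else 0)) B := by
    rw [cfc_sub _ _ B (hcB _) (hcB _), cfc_const_one ℝ B, hE, sproj]
  -- projections
  have hFF : F * F = F := by
    rw [hF, sproj, ← cfc_mul _ _ C (hcC _) (hcC _)]
    refine cfc_congr fun x _ => ?_
    by_cases h : b < x <;> simp [h]
  have hEE : E * E = E := by
    rw [hEc, ← cfc_mul _ _ B (hcB _) (hcB _)]
    refine cfc_congr fun x _ => ?_
    by_cases h : a < x <;> simp [h]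
  have hFh : F.conjTranspose = F :=
    cfc_predicate (R := ℝ) (p := IsSelfAdjoint) _ C
  have hEh : E.conjTranspose = E := by
    rw [hEc]
    exact cfc_predicate (R := ℝ) (p := IsSelfAdjoint) _ B
  -- commutation and bounds
  have hCF : C * F = cfc (fun y : ℝ => y * (if b < y then (1 : ℝ) else 0)) C := by
    rw [cfc_mul _ _ C (hcC _) (hcC _), cfc_id' ℝ C, hF, sproj]
  have hFC : F * C = C * F := by
    have h1 : (C * F).conjTranspose = C * F := by
      rw [hCF]
      exact cfc_predicate (R := ℝ) (p := IsSelfAdjoint) _ C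
    rw [← h1, Matrix.conjTranspose_mul, hFh, hC.eq]
  have hBE : B * E = cfc (fun y : ℝ => y * (1 - (if a < y then (1 : ℝ) else 0))) B := by
    rw [cfc_mul _ _ B (hcB _) (hcB _), cfc_id' ℝ B, hEc]
  have hEB : E * B = B * E := by
    have h1 : (B * E).conjTranspose = B * E := by
      rw [hBE]
      exact cfc_predicate (R := ℝ) (p := IsSelfAdjoint) _ B
    rw [← h1, Matrix.conjTranspose_mul, hEh, hB.eq]
  have hlowC : ∀ w : n → ℂ, F.mulVec w = w → b * nsq w ≤ (star w ⬝ᵥ C.mulVec w).re := by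
    intro w hw
    have h1 := bridge1b_nonneg (A := C) (fun y : ℝ => (y - b) * (if b < y then (1 : ℝ) else 0))
      (fun x _ => by
        by_cases h : b < x
        · simp [h, h.le]
        · simp [h]) w
    have h2 : cfc (fun y : ℝ => (y - b) * (if b < y then (1 : ℝ) else 0)) C
        = C * F - (b : ℂ) • F := by
      have h3 : (b : ℂ) • F = cfc (fun y : ℝ => b * (if b < y then (1 : ℝ) else 0)) C := by
        rw [cfc_const_mul b _ C (hcC _), hF, sproj]
        rfl
      rw [h3, hCF, ← cfc_sub _ _ C (hcC _) (hcC _)]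
      exact cfc_congr fun x _ => by ring
    rw [h2, Matrix.sub_mulVec, ← Matrix.mulVec_mulVec, hw, Matrix.smul_mulVec, hw,
      dotProduct_sub, dotProduct_smul, Complex.sub_re, smul_eq_mul, Complex.re_ofReal_mul,
      ← bridge1b_nsq_eq] at h1
    linarith
  have hupB : ∀ w : n → ℂ, E.mulVec w = w → (star w ⬝ᵥ B.mulVec w).re ≤ a * nsq w := by
    intro w hw
    have h1 := bridge1b_nonneg (A := B)
      (fun y : ℝ => (a - y) * (1 - (if a < y then (1 : ℝ) else 0)))
      (fun x _ => by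
        by_cases h : a < x
        · simp [h]
        · simp [h, not_lt.mp h]) w
    have h2 : cfc (fun y : ℝ => (a - y) * (1 - (if a < y then (1 : ℝ) else 0))) B
        = (a : ℂ) • E - B * E := by
      have h3 : (a : ℂ) • E = cfc (fun y : ℝ => a * (1 - (if a < y then (1 : ℝ) else 0))) B := by
        rw [cfc_const_mul a _ B (hcB _), ← hEc]
        rfl
      rw [h3, hBE, ← cfc_sub _ _ B (hcB _) (hcB _)]
      exact cfc_congr fun x _ => by ring
    rw [h2, Matrix.sub_mulVec, ← Matrix.mulVec_mulVec, hw, Matrix.smul_mulVec, hw,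
      dotProduct_sub, dotProduct_smul, Complex.sub_re, smul_eq_mul, Complex.re_ofReal_mul,
      ← bridge1b_nsq_eq] at h1
    linarith
  -- the largest singular value of `X = E F`
  set X : Matrix n n ℂ := E * F with hX
  set M : Matrix n n ℂ := X.conjTranspose * X with hM
  have hMh : M.IsHermitian := Matrix.isHermitian_conjTranspose_mul_self X
  have hquad : ∀ w : n → ℂ, nsq (X.mulVec w) = (star w ⬝ᵥ M.mulVec w).re := by
    intro w
    rw [bridge1b_nsq_eq, Matrix.star_mulVec, ← Matrix.dotProduct_mulVec,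
      Matrix.mulVec_mulVec]
  rw [Matrix.mulVec_mulVec, ← hX]
  rcases isEmpty_or_nonempty n with hn | hn
  · simp [nsq]
  obtain ⟨i0, hi0⟩ := Finite.exists_max hMh.eigenvalues
  set l : ℝ := hMh.eigenvalues i0 with hl
  have hle : ∀ w : n → ℂ, nsq (X.mulVec w) ≤ l * nsq w := by
    intro w
    have h1 := bridge1b_nonneg (A := M) (fun y : ℝ => l - y)
      (fun x hx => by
        rw [hMh.spectrum_real_eq_range_eigenvalues] at hx
        obtain ⟨i, rfl⟩ := hx
        exact sub_nonneg.mpr (hi0 i)) w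
    have h2 : cfc (fun y : ℝ => l - y) M = (l : ℂ) • (1 : Matrix n n ℂ) - M := by
      have hcM : ∀ g : ℝ → ℝ, ContinuousOn g (spectrum ℝ M) := fun g =>
        Matrix.finite_real_spectrum.continuousOn g
      have hMsa : IsSelfAdjoint M := hMh
      rw [cfc_sub _ _ M (hcM _) (hcM _), cfc_id' ℝ M, cfc_const l M, Algebra.algebraMap_eq_smul_one]
      rfl
    rw [h2, Matrix.sub_mulVec, Matrix.smul_mulVec, Matrix.one_mulVec, dotProduct_sub,
      dotProduct_smul, Complex.sub_re, smul_eq_mul, Complex.re_ofReal_mul,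
      ← bridge1b_nsq_eq, ← hquad] at h1
    linarith
  have hl0 : 0 ≤ l := by
    open scoped ComplexOrder in
    exact (Matrix.posSemidef_conjTranspose_mul_self X).eigenvalues_nonneg i0
  -- the main estimate
  have hmain : l ≤ (ε / (b - a)) ^ 2 := by
    rcases hl0.eq_or_lt with h0 | h0
    · rw [← h0]; positivity
    set v0 : n → ℂ := (hMh.eigenvectorBasis i0).ofLp with hv0
    have hv0n : nsq v0 = 1 := by
      have h1 := hMh.eigenvectorBasis.orthonormal.1 i0
      have h2 := EuclideanSpace.norm_sq_eq (hMh.eigenvectorBasis i0)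
      rw [h1, one_pow] at h2
      rw [h2]
      rfl
    have hMv0 : M.mulVec v0 = (l : ℂ) • v0 := by
      have h1 := hMh.mulVec_eigenvectorBasis i0
      exact h1
    set u : n → ℂ := X.mulVec v0 with hu
    have hun : nsq u = l := by
      rw [hu, hquad, hMv0, dotProduct_smul, smul_eq_mul, Complex.re_ofReal_mul,
        ← bridge1b_nsq_eq, hv0n, mul_one]
    have hXu : X.conjTranspose.mulVec u = (l : ℂ) • v0 := by
      rw [hu, Matrix.mulVec_mulVec, ← hM, hMv0]
    have hEu : E.mulVec u = u := by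
      rw [hu, Matrix.mulVec_mulVec, hX, ← mul_assoc, hEE]
    have hFv0 : F.mulVec v0 = v0 := by
      have h1 : F.mulVec ((l : ℂ) • v0) = (l : ℂ) • v0 := by
        rw [← hXu, Matrix.mulVec_mulVec, hX, Matrix.conjTranspose_mul, hFh, ← mul_assoc, hFF]
      rw [Matrix.mulVec_smul] at h1
      exact smul_right_injective _ (Complex.ofReal_ne_zero.mpr h0.ne') h1
    have h1 := hlowC v0 hFv0
    have h2 := hupB u hEu
    rw [hv0n, mul_one] at h1
    rw [hun] at h2
    have h3 : (star u ⬝ᵥ (C - B).mulVec v0).re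
        = l * (star v0 ⬝ᵥ C.mulVec v0).re - (star u ⬝ᵥ B.mulVec u).re := by
      have h4 : X * C = E * (C * F) := by rw [hX, mul_assoc, hFC]
      have h5 : (star u ⬝ᵥ C.mulVec v0) = l * (star v0 ⬝ᵥ C.mulVec v0) := by
        have h6 : star u ⬝ᵥ C.mulVec v0 = star u ⬝ᵥ X.mulVec (C.mulVec v0) := by
          rw [Matrix.mulVec_mulVec, h4, ← Matrix.mulVec_mulVec, ← Matrix.mulVec_mulVec, hFv0]
          conv_lhs => rw [← hEu]
          rw [Matrix.star_mulVec, hEh, ← Matrix.dotProduct_mulVec]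
        rw [h6, Matrix.dotProduct_mulVec, ← Matrix.conjTranspose_conjTranspose X,
          ← Matrix.star_mulVec, hXu, star_smul, smul_dotProduct]
        simp
      have h7 : star u ⬝ᵥ B.mulVec v0 = star u ⬝ᵥ B.mulVec u := by
        have h8 : B.mulVec u = E.mulVec (B.mulVec v0) := by
          rw [hu, Matrix.mulVec_mulVec, Matrix.mulVec_mulVec, hX, ← mul_assoc, ← hEB,
            ← Matrix.mulVec_mulVec, hFv0]
        rw [h8]
        conv_lhs => rw [← hEu]
        rw [Matrix.star_mulVec, hEh, ← Matrix.dotProduct_mulVec]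
      rw [Matrix.sub_mulVec, dotProduct_sub, h5, h7, Complex.sub_re, Complex.re_ofReal_mul]
    have h9 : nsq ((C - B).mulVec v0) ≤ ε ^ 2 := by
      have h10 : (C - B).mulVec v0 = - ((B - C).mulVec v0) := by
        rw [← neg_sub B C, Matrix.neg_mulVec]
      have h11 : nsq ((C - B).mulVec v0) = nsq ((B - C).mulVec v0) := by
        rw [h10]; simp [nsq]
      rw [h11]
      simpa [hv0n] using hε v0
    have h12 := bridge1b_cs u ((C - B).mulVec v0)
    rw [hun, h3] at h12
    have h13 : Real.sqrt (nsq ((C - B).mulVec v0)) ≤ ε := by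
      rw [← Real.sqrt_sq hε0]; exact Real.sqrt_le_sqrt h9
    have h14 : l * (b - a) ≤ Real.sqrt l * ε := by
      have h15 : Real.sqrt l * Real.sqrt (nsq ((C - B).mulVec v0)) ≤ Real.sqrt l * ε :=
        mul_le_mul_of_nonneg_left h13 (Real.sqrt_nonneg l)
      nlinarith
    have hs : 0 < Real.sqrt l := Real.sqrt_pos.mpr h0
    have hss : Real.sqrt l * Real.sqrt l = l := Real.mul_self_sqrt hl0
    have h16 : Real.sqrt l ≤ ε / (b - a) := by
      rw [le_div_iff₀ hab']
      have : Real.sqrt l * (Real.sqrt l * (b - a)) ≤ Real.sqrt l * ε := by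
        rw [← mul_assoc, hss]; exact h14
      exact le_of_mul_le_mul_left this hs
    calc l = Real.sqrt l ^ 2 := by rw [sq, hss]
      _ ≤ (ε / (b - a)) ^ 2 := by
        exact pow_le_pow_left₀ hs.le h16 2
  exact (hle v).trans (mul_le_mul_of_nonneg_right hmain (bridge1b_nsq_nonneg v))

end Pool.Agent.MP_d8b6c2_an
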