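import Mathlib
import Pool.Agent.Lib.MP_d8b6c2_an.Bridge
import Pool.Agent.Lib.MP_d8b6c2_an.NoFld
import Pool.Agent.Lib.MP_d8b6c2_an.Bridge1b

/-! # From continuous equivariant fields to smooth fields: proofs -/

namespace Pool.Agent.MP_d8b6c2_an

open Finset Filter Topology
open scoped ContDiff

variable {J : ℕ} {m d : Fin J → ℕ} {n : Type*} [Fintype n] [DecidableEq n] {κ r0 s o : ℕ}
  {δ δ2 : ℝ}

theorem nsq_add_le (v w : n → ℂ) : Real.sqrt (nsq (v + w)) ≤ Real.sqrt (nsq v) +
    Real.sqrt (nsq w) := by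
  have h : ∀ v : n → ℂ, Real.sqrt (nsq v) = ‖(WithLp.toLp 2 v : EuclideanSpace ℂ n)‖ := by
    intro v
    rw [EuclideanSpace.norm_eq]
    rfl
  rw [h, h, h, WithLp.toLp_add]
  exact norm_add_le _ _

/-- from entries to the operator norm -/
theorem nsq_le_of_entries {B : Matrix n n ℂ} {ε : ℝ} (h0 : 0 ≤ ε)
    (h : ∀ i j, ‖B i j‖ ≤ ε / (Fintype.card n + 1)) (v : n → ℂ) :
    nsq (B.mulVec v) ≤ ε ^ 2 * nsq v := by
  classical
  set N : ℝ := (Fintype.card n : ℝ) with hN
  have hN0 : 0 ≤ N := Nat.cast_nonneg _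
  have hq0 : 0 ≤ nsq v := Finset.sum_nonneg fun i _ => by positivity
  have key : ∀ i, ‖B.mulVec v i‖ ^ 2 ≤ (ε / (N + 1)) ^ 2 * (N * nsq v) := by
    intro i
    have h1 : ‖B.mulVec v i‖ ≤ ε / (N + 1) * ∑ j, ‖v j‖ := by
      rw [Finset.mul_sum]
      refine (norm_sum_le _ _).trans (Finset.sum_le_sum fun j _ => ?_)
      rw [norm_mul]
      exact mul_le_mul_of_nonneg_right (h i j) (norm_nonneg _)
    have h2 : (∑ j, ‖v j‖) ^ 2 ≤ N * nsq v := by
      have := sq_sum_le_card_mul_sum_sq (s := (Finset.univ : Finset n)) (f := fun j => ‖v j‖)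
      simpa [hN, nsq, Finset.card_univ] using this
    calc ‖B.mulVec v i‖ ^ 2 ≤ (ε / (N + 1) * ∑ j, ‖v j‖) ^ 2 :=
          pow_le_pow_left₀ (norm_nonneg _) h1 2
      _ = (ε / (N + 1)) ^ 2 * (∑ j, ‖v j‖) ^ 2 := by ring
      _ ≤ _ := mul_le_mul_of_nonneg_left h2 (by positivity)
  have h3 : nsq (B.mulVec v) ≤ N * ((ε / (N + 1)) ^ 2 * (N * nsq v)) := by
    unfold nsq
    refine (Finset.sum_le_sum fun i _ => key i).trans ?_
    rw [Finset.sum_const, Finset.card_univ, nsmul_eq_mul]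
    rfl
  refine h3.trans ?_
  have h4 : (N / (N + 1)) ^ 2 ≤ 1 := by
    have : N / (N + 1) ≤ 1 := by
      rw [div_le_one (by linarith)]
      linarith
    have h5 : 0 ≤ N / (N + 1) := by positivity
    nlinarith
  have h6 : N * ((ε / (N + 1)) ^ 2 * (N * nsq v)) = (N / (N + 1)) ^ 2 * (ε ^ 2 * nsq v) := by
    field_simp
  rw [h6]
  have h7 : 0 ≤ ε ^ 2 * nsq v := by positivity
  nlinarith

/-! The isometry `V`. -/

theorem Vm_isom (wt : Sg m d → n → ℕ) (z : Sg m d → Fin 2 → ℂ)
    (hz : ∀ u, ∑ i, ‖z u i‖ ^ 2 = 1) : (Vm wt z).conjTranspose * Vm wt z = 1 := by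
  ext β γ
  rw [Matrix.mul_apply, Fintype.sum_sigma]
  have hone : ∀ (α : n) (inst : Fintype ((u : Sg m d) → Fin (wt u α) → Fin 2)),
      ∑ f : ((u : Sg m d) → Fin (wt u α) → Fin 2),
      (starRingEnd ℂ) (∏ u, ∏ a, z u (f u a)) * (∏ u, ∏ a, z u (f u a)) = 1 := by
    intro α inst
    have hinst : inst = Pi.instFintype := Subsingleton.elim _ _
    subst hinst
    have h1 : ∀ u : Sg m d, ∑ i, (starRingEnd ℂ) (z u i) * z u i = 1 := by
      intro u
      have : ∀ i, (starRingEnd ℂ) (z u i) * z u i = ((‖z u i‖ ^ 2 : ℝ) : ℂ) := by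
        intro i
        rw [← Complex.normSq_eq_norm_sq, ← Complex.normSq_eq_conj_mul_self]
      rw [Finset.sum_congr rfl fun i _ => this i, ← Complex.ofReal_sum, hz u, Complex.ofReal_one]
    have h2 : ∀ u : Sg m d, ∑ g : Fin (wt u α) → Fin 2,
        ∏ a, ((starRingEnd ℂ) (z u (g a)) * z u (g a)) = 1 := by
      intro u
      rw [← Fintype.prod_sum (fun (_ : Fin (wt u α)) (i : Fin 2) =>
        (starRingEnd ℂ) (z u i) * z u i)]
      exact Finset.prod_eq_one fun a _ => h1 u
    have h3 := Fintype.prod_sum (fun (u : Sg m d) (g : Fin (wt u α) → Fin 2) =>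
        ∏ a, ((starRingEnd ℂ) (z u (g a)) * z u (g a)))
    rw [Finset.prod_eq_one (fun u _ => h2 u)] at h3
    rw [h3]
    refine Finset.sum_congr rfl fun f _ => ?_
    simp only [map_prod, Finset.prod_mul_distrib]
  by_cases hbg : β = γ
  · subst hbg
    rw [Matrix.one_apply_eq, Finset.sum_eq_single β]
    · refine Eq.trans (Finset.sum_congr rfl fun f _ => ?_) (hone β _)
      simp [Vm, Matrix.conjTranspose_apply]
    · intro α _ hα
      refine Finset.sum_eq_zero fun f _ => ?_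
      simp [Vm, Matrix.conjTranspose_apply, hα]
    · intro h
      exact absurd (Finset.mem_univ _) h
  · rw [Matrix.one_apply_ne hbg]
    refine Finset.sum_eq_zero fun α _ => Finset.sum_eq_zero fun f _ => ?_
    by_cases h1 : α = β
    · have h2 : α ≠ γ := fun h => hbg (h1.symm.trans h)
      simp [Vm, Matrix.conjTranspose_apply, h2]
    · simp [Vm, Matrix.conjTranspose_apply, h1]

theorem Vm_rot (wt : Sg m d → n → ℕ) (z : Sg m d → Fin 2 → ℂ) (u : Sg m d) (c : ℂ) :
    Vm wt (Function.update z u (fun i => c * z u i)) =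
      Vm wt z * Matrix.diagonal (fun α => c ^ wt u α) := by
  classical
  ext i β
  rw [Matrix.mul_diagonal]
  by_cases h : i.1 = β
  · subst h
    simp only [Vm, Matrix.of_apply, if_true]
    have h1 : ∀ u' : Sg m d, ∏ a, Function.update z u (fun i => c * z u i) u' (i.2 u' a) =
        (if u' = u then c ^ wt u i.1 else 1) * ∏ a, z u' (i.2 u' a) := by
      intro u'
      by_cases hu : u' = u
      · subst hu
        simp only [Function.update_self, if_true, Finset.prod_mul_distrib, Finset.prod_const,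
          Finset.card_univ, Fintype.card_fin]
      · simp [Function.update_of_ne hu, hu]
    rw [Finset.prod_congr rfl fun u' _ => h1 u', Finset.prod_mul_distrib, mul_comm]
    congr 1
    rw [Finset.prod_ite_eq' Finset.univ u (fun _ => c ^ wt u i.1)]
    simp
  · simp [Vm, h]

end Pool.Agent.MP_d8b6c2_an
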