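import Mathlib
import Pool.Agent.Lib.MP_d8b6c2_an.Bridge
import Pool.Agent.Lib.MP_d8b6c2_an.NoFld
import Pool.Agent.Lib.MP_d8b6c2_an.Bridge1c

/-! # From continuous equivariant fields to smooth fields: proofs -/

namespace Pool.Agent.MP_d8b6c2_an

open Finset Filter Topology
open scoped ContDiff

variable {J : ℕ} {m d : Fin J → ℕ} {n : Type*} [Fintype n] [DecidableEq n] {κ r0 s o : ℕ}
  {δ δ2 : ℝ}

variable (C : CField m d n κ r0 s o δ δ2)

theorem bV_herm (x : Bs m d) : (bV C x).IsHermitian := by
  have h := C.b_herm x
  unfold Matrix.IsHermitian at h ⊢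
  unfold bV
  rw [Matrix.conjTranspose_mul, Matrix.conjTranspose_mul, Matrix.conjTranspose_conjTranspose, h,
    Matrix.mul_assoc]

theorem bV_cont : Continuous (bV C) := by
  have hV : Continuous fun x : Bs m d => Vm C.wt (fun u => (x.2 u).1) := by
    refine continuous_matrix fun i β => ?_
    unfold Vm
    simp only [Matrix.of_apply]
    by_cases h : i.1 = β
    · simp only [h, if_true]
      refine continuous_finset_prod _ fun u _ => continuous_finset_prod _ fun a _ => ?_
      exact (continuous_apply (i.2 u a)).comp
        (continuous_subtype_val.comp ((continuous_apply u).comp continuous_snd))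
    · simp only [h, if_false]
      exact continuous_const
  unfold bV
  exact (hV.matrix_mul C.b_cont).matrix_mul hV.matrix_conjTranspose

theorem bV_rot (x : Bs m d) (u : Sg m d) (c : Circle) : bV C (rotB u c x) = bV C x := by
  have h1 : C.b (rotB u c x) = (Matrix.diagonal (fun α => (c : ℂ) ^ C.wt u α)).conjTranspose *
      C.b x * Matrix.diagonal (fun α => (c : ℂ) ^ C.wt u α) := by
    ext α β
    rw [C.b_eqv, Matrix.diagonal_conjTranspose, Matrix.mul_diagonal, Matrix.diagonal_mul]
    simp only [Pi.star_apply, RCLike.star_def]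
    ring
  have h2 : Vm C.wt (fun u' => ((rotB u c x).2 u').1) = Vm C.wt (fun u' => (x.2 u').1) *
      Matrix.diagonal (fun α => (c : ℂ) ^ C.wt u α) := by
    rw [← Vm_rot C.wt (fun u' => (x.2 u').1) u (c : ℂ)]
    congr 1
    funext u'
    by_cases h : u' = u
    · subst h
      simp [rotB, rotS]
    · simp [rotB, Function.update_of_ne h]
  have h3 : Matrix.diagonal (fun α => (c : ℂ) ^ C.wt u α) *
      (Matrix.diagonal (fun α => (c : ℂ) ^ C.wt u α)).conjTranspose = 1 := by
    rw [Matrix.diagonal_conjTranspose, Matrix.diagonal_mul_diagonal, ← Matrix.diagonal_one]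
    congr 1
    funext α
    simp only [Pi.star_apply, RCLike.star_def, map_pow, ← mul_pow, Complex.mul_conj,
      Circle.normSq_coe, Complex.ofReal_one, one_pow]
  unfold bV
  rw [h1, h2, Matrix.conjTranspose_mul]
  set D := Matrix.diagonal (fun α => (c : ℂ) ^ C.wt u α) with hD
  set V := Vm C.wt (fun u' => (x.2 u').1) with hV
  calc V * D * (D.conjTranspose * C.b x * D) * (D.conjTranspose * V.conjTranspose)
      = V * (D * D.conjTranspose) * C.b x * (D * D.conjTranspose) * V.conjTranspose := by
        simp only [Matrix.mul_assoc]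
    _ = V * C.b x * V.conjTranspose := by rw [h3]; simp only [Matrix.mul_one]

/-- the invariants determine the point up to rotations of the spheres -/
theorem inv_eq {x y : Bs m d} (h : inv x = inv y) :
    x.1 = y.1 ∧ ∀ u, ∃ c : Circle, y.2 u = rotS c (x.2 u) := by
  have h1 : ∀ p, x.1 p = y.1 p := by
    intro p
    have := congrFun h (Sum.inl p)
    simp only [inv] at this
    exact Subtype.ext (Complex.ofReal_injective this)
  refine ⟨funext h1, fun u => ?_⟩
  set z := (x.2 u).1 with hz
  set w := (y.2 u).1 with hw
  have h2 : ∀ a b, z a * (starRingEnd ℂ) (z b) = w a * (starRingEnd ℂ) (w b) := by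
    intro a b
    have := congrFun h (Sum.inr (u, a, b))
    simpa only [inv] using this
  have hz1 : ∑ i, z i * (starRingEnd ℂ) (z i) = 1 := by
    have : ∀ i, z i * (starRingEnd ℂ) (z i) = ((‖z i‖ ^ 2 : ℝ) : ℂ) := fun i => by
      rw [Complex.mul_conj, Complex.normSq_eq_norm_sq]
    rw [Finset.sum_congr rfl fun i _ => this i, ← Complex.ofReal_sum, (x.2 u).2,
      Complex.ofReal_one]
  have hw1 : ∑ i, w i * (starRingEnd ℂ) (w i) = 1 := by
    rw [← hz1]
    exact Finset.sum_congr rfl fun i _ => (h2 i i).symm
  set c : ℂ := ∑ a, w a * (starRingEnd ℂ) (z a) with hc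
  have h3 : ∀ b, c * z b = w b := by
    intro b
    calc c * z b = ∑ a, w a * (z b * (starRingEnd ℂ) (z a)) := by
          rw [hc, Finset.sum_mul]
          exact Finset.sum_congr rfl fun a _ => by ring
      _ = ∑ a, w b * (w a * (starRingEnd ℂ) (w a)) := by
          refine Finset.sum_congr rfl fun a _ => ?_
          rw [h2 b a]
          ring
      _ = w b := by rw [← Finset.mul_sum, hw1, mul_one]
  have h4 : c * (starRingEnd ℂ) c = 1 := by
    calc c * (starRingEnd ℂ) c = c * (starRingEnd ℂ) c * ∑ i, z i * (starRingEnd ℂ) (z i) := by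
          rw [hz1, mul_one]
      _ = ∑ i, (c * z i) * (starRingEnd ℂ) (c * z i) := by
          rw [Finset.mul_sum]
          refine Finset.sum_congr rfl fun i _ => ?_
          rw [map_mul]
          ring
      _ = 1 := by
          rw [← hw1]
          exact Finset.sum_congr rfl fun i _ => by rw [h3]
  have h5 : ‖c‖ = 1 := by
    rw [Complex.mul_conj, Complex.normSq_eq_norm_sq] at h4
    have h6 : ‖c‖ ^ 2 = 1 := by exact_mod_cast h4
    nlinarith [norm_nonneg c]
  refine ⟨⟨c, mem_sphere_zero_iff_norm.2 h5⟩, Subtype.ext (funext fun b => ?_)⟩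
  exact (h3 b).symm

theorem bV_inv {x y : Bs m d} (h : inv x = inv y) : bV C x = bV C y := by
  classical
  obtain ⟨h1, h2⟩ := inv_eq h
  choose c hc using h2
  have key : ∀ S : Finset (Sg m d),
      bV C (x.1, fun u => if u ∈ S then rotS (c u) (x.2 u) else x.2 u) = bV C x := by
    intro S
    induction S using Finset.induction_on with
    | empty => simp
    | insert u S hu ih =>
      have hrot := bV_rot C (x.1, fun u => if u ∈ S then rotS (c u) (x.2 u) else x.2 u) u (c u)
      rw [← ih, ← hrot]
      congr 1
      refine Prod.ext rfl (funext fun u' => ?_)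
      simp only [rotB]
      by_cases h : u' = u
      · subst h
        simp only [Finset.mem_insert_self, if_true, Function.update_self, hu, if_false]
      · simp only [Function.update_of_ne h, Finset.mem_insert, h, false_or]
  have h3 := key Finset.univ
  rw [← h3]
  congr 1
  refine Prod.ext h1 (funext fun u => ?_)
  simp [hc]

end Pool.Agent.MP_d8b6c2_an
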