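import Mathlib
import Pool.Agent.Lib.MP_d8b6c2_an.Bridge
import Pool.Agent.Lib.MP_d8b6c2_an.NoFld
import Pool.Agent.Lib.MP_d8b6c2_an.Bridge1d

/-! # From continuous equivariant fields to smooth fields: proofs -/

namespace Pool.Agent.MP_d8b6c2_an

open Finset Filter Topology
open scoped ContDiff

variable {J : ℕ} {m d : Fin J → ℕ} {n : Type*} [Fintype n] [DecidableEq n] {κ r0 s o : ℕ}
  {δ δ2 : ℝ}

variable (C : CField m d n κ r0 s o δ δ2)

private theorem bridge1e_roots {n' : Type*} [Fintype n'] [DecidableEq n'] (V : Matrix n' n ℂ)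
    (hV : V.conjTranspose * V = 1) (B : Matrix n n ℂ) :
    Multiset.replicate (Fintype.card n) (0 : ℂ) + (V * B * V.conjTranspose).charpoly.roots =
      Multiset.replicate (Fintype.card n') (0 : ℂ) + B.charpoly.roots := by
  have h := Matrix.charpoly_mul_comm' V (B * V.conjTranspose)
  rw [Matrix.mul_assoc B, hV, Matrix.mul_one, ← Matrix.mul_assoc] at h
  have h2 := congrArg Polynomial.roots h
  have e1 : (Polynomial.X : Polynomial ℂ) ^ Fintype.card n * (V * B * V.conjTranspose).charpoly ≠ 0 :=
    mul_ne_zero (pow_ne_zero _ Polynomial.X_ne_zero) (Matrix.charpoly_monic _).ne_zero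
  have e2 : (Polynomial.X : Polynomial ℂ) ^ Fintype.card n' * B.charpoly ≠ 0 :=
    mul_ne_zero (pow_ne_zero _ Polynomial.X_ne_zero) (Matrix.charpoly_monic _).ne_zero
  rw [Polynomial.roots_mul e1, Polynomial.roots_mul e2, Polynomial.roots_X_pow,
    Polynomial.roots_X_pow, Multiset.nsmul_singleton, Multiset.nsmul_singleton] at h2
  exact h2

private theorem bridge1e_filter {k l : ℕ} {s t : Multiset ℂ}
    (h : Multiset.replicate k (0 : ℂ) + s = Multiset.replicate l (0 : ℂ) + t) (P : ℂ → Prop)
    [DecidablePred P] (hP : ¬ P 0) : (s.filter P).card = (t.filter P).card := by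
  have h2 := congrArg (fun u => (Multiset.filter P u).card) h
  have e : ∀ k : ℕ, Multiset.filter P (Multiset.replicate k (0 : ℂ)) = 0 := by
    intro k
    rw [Multiset.filter_eq_nil]
    intro a ha
    rw [Multiset.eq_of_mem_replicate ha]
    exact hP
  simpa [Multiset.filter_add, e] using h2

/-- `V B V^*` has the eigenvalues of `B` and zeros -/
theorem nIcc_conj {n' : Type*} [Fintype n'] [DecidableEq n'] (V : Matrix n' n ℂ)
    (hV : V.conjTranspose * V = 1) (B : Matrix n n ℂ) {a b : ℝ} (ha : 0 < a) :
    nIcc a b (V * B * V.conjTranspose) = nIcc a b B := by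
  classical
  unfold nIcc
  exact bridge1e_filter (bridge1e_roots V hV B) _ (by simp [not_le.2 ha])

theorem nGe_conj {n' : Type*} [Fintype n'] [DecidableEq n'] (V : Matrix n' n ℂ)
    (hV : V.conjTranspose * V = 1) (B : Matrix n n ℂ) {a : ℝ} (ha : 0 < a) :
    nGe a (V * B * V.conjTranspose) = nGe a B := by
  classical
  unfold nGe
  exact bridge1e_filter (bridge1e_roots V hV B) _ (by simp [not_le.2 ha])

theorem sproj_conj {n' : Type*} [Fintype n'] [DecidableEq n'] (V : Matrix n' n ℂ)
    (hV : V.conjTranspose * V = 1) {B : Matrix n n ℂ} (hB : B.IsHermitian) {a : ℝ} (ha : 0 < a) :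
    sproj a (V * B * V.conjTranspose) * V = V * sproj a B := by
  classical
  have hW : (V * B * V.conjTranspose).IsHermitian := by
    unfold Matrix.IsHermitian
    rw [Matrix.conjTranspose_mul, Matrix.conjTranspose_mul, Matrix.conjTranspose_conjTranspose,
      hB.eq, Matrix.mul_assoc]
  have f1 : (spectrum ℝ B ∪ spectrum ℝ (V * B * V.conjTranspose)).Finite :=
    B.finite_real_spectrum.union (V * B * V.conjTranspose).finite_real_spectrum
  set f : ℝ → ℝ := fun y : ℝ => if a < y then (1 : ℝ) else 0 with hf
  set q : Polynomial ℝ := Lagrange.interpolate f1.toFinset id f with hq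
  have hqf : ∀ x ∈ f1.toFinset, q.eval x = f x := by
    intro x hx
    exact Lagrange.eval_interpolate_at_node f (Function.injective_id.injOn) hx
  have c1 : sproj a B = Polynomial.aeval B q := by
    unfold sproj
    rw [← cfc_polynomial q B hB]
    apply cfc_congr
    intro x hx
    exact (hqf x (f1.mem_toFinset.2 (Or.inl hx))).symm
  have c2 : sproj a (V * B * V.conjTranspose) = Polynomial.aeval (V * B * V.conjTranspose) q := by
    unfold sproj
    rw [← cfc_polynomial q (V * B * V.conjTranspose) hW]
    apply cfc_congr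
    intro x hx
    exact (hqf x (f1.mem_toFinset.2 (Or.inr hx))).symm
  have hpow : ∀ k : ℕ, (V * B * V.conjTranspose) ^ k * V = V * B ^ k := by
    intro k
    induction k with
    | zero => simp
    | succ k ih =>
      have e : V * B * V.conjTranspose * V = V * B := by
        rw [Matrix.mul_assoc (V * B), hV, Matrix.mul_one]
      rw [pow_succ, Matrix.mul_assoc, e, ← Matrix.mul_assoc, ih, pow_succ, Matrix.mul_assoc]
  rw [c1, c2, Polynomial.aeval_eq_sum_range, Polynomial.aeval_eq_sum_range, Matrix.sum_mul,
    Matrix.mul_sum]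
  refine Finset.sum_congr rfl fun k _ => ?_
  rw [Matrix.smul_mul, hpow, Matrix.mul_smul]

end Pool.Agent.MP_d8b6c2_an
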