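import Mathlib
import Pool.Agent.Lib.MP_d8b6c2_an.Bridge
import Pool.Agent.Lib.MP_d8b6c2_an.NoFld
import Pool.Agent.Lib.MP_d8b6c2_an.Bridge1e

/-! # From continuous equivariant fields to smooth fields: proofs -/

namespace Pool.Agent.MP_d8b6c2_an

open Finset Filter Topology
open scoped ContDiff

variable {J : ℕ} {m d : Fin J → ℕ} {n : Type*} [Fintype n] [DecidableEq n] {κ r0 s o : ℕ}
  {δ δ2 : ℝ}

variable (C : CField m d n κ r0 s o δ δ2)

theorem bridge1f_compact_S3 : CompactSpace S3 := by
  have hcl : IsClosed {z : Fin 2 → ℂ | ∑ i, ‖z i‖ ^ 2 = 1} :=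
    isClosed_eq (by fun_prop) continuous_const
  have hbd : Bornology.IsBounded {z : Fin 2 → ℂ | ∑ i, ‖z i‖ ^ 2 = 1} := by
    rw [isBounded_iff_forall_norm_le]
    refine ⟨1, fun z hz => ?_⟩
    rw [Set.mem_ofPred_eq] at hz
    rw [pi_norm_le_iff_of_nonneg zero_le_one]
    intro i
    have h1 : ‖z i‖ ^ 2 ≤ ∑ i, ‖z i‖ ^ 2 :=
      Finset.single_le_sum (f := fun i => ‖z i‖ ^ 2) (fun j _ => by positivity) (mem_univ i)
    rw [hz] at h1
    have h2 : 0 ≤ ‖z i‖ := norm_nonneg _
    nlinarith
  exact isCompact_iff_compactSpace.mp (Metric.isCompact_of_isClosed_isBounded hcl hbd)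

theorem bridge1f_inv_cont : Continuous (inv : Bs m d → Inv m d → ℂ) := by
  refine continuous_pi fun j => ?_
  rcases j with p | ⟨u, a, c⟩
  · change Continuous fun x : Bs m d => ((x.1 p : ℝ) : ℂ)
    fun_prop
  · change Continuous fun x : Bs m d => (x.2 u).1 a * (starRingEnd ℂ) ((x.2 u).1 c)
    have h1 : ∀ a, Continuous fun x : Bs m d => (x.2 u).1 a := fun a =>
      (continuous_apply a).comp (continuous_subtype_val.comp
        ((continuous_apply u).comp continuous_snd))
    exact (h1 a).mul (Complex.continuous_conj.comp (h1 c))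

/-- index of the conjugate invariant -/
def bridge1f_cj : Inv m d → Inv m d
  | Sum.inl p => Sum.inl p
  | Sum.inr (u, a, c) => Sum.inr (u, c, a)

theorem bridge1f_conj (x : Bs m d) (j : Inv m d) :
    (starRingEnd ℂ) (inv x j) = inv x (bridge1f_cj j) := by
  rcases j with p | ⟨u, a, c⟩
  · exact Complex.conj_ofReal _
  · simp [inv, bridge1f_cj, mul_comm]

/-- the coordinates on the image -/
def bridge1f_co (j : Inv m d) : C(Set.range (inv : Bs m d → Inv m d → ℂ), ℂ) :=
  ⟨fun k => k.1 j, (continuous_apply j).comp continuous_subtype_val⟩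

theorem bridge1f_star (j : Inv m d) :
    star (bridge1f_co (m := m) (d := d) j) = bridge1f_co (bridge1f_cj j) := by
  ext ⟨k, x, rfl⟩
  exact bridge1f_conj x j

theorem bridge1f_aeval (G : MvPolynomial (Inv m d) ℂ)
    (k : Set.range (inv : Bs m d → Inv m d → ℂ)) :
    MvPolynomial.aeval bridge1f_co G k = G.eval k.1 := by
  induction G using MvPolynomial.induction_on with
  | C a => simp
  | add p q hp hq => rw [map_add, map_add, ContinuousMap.add_apply, hp, hq]
  | mul_X p i hp =>
    rw [map_mul, map_mul, ContinuousMap.mul_apply, hp, MvPolynomial.aeval_X, MvPolynomial.eval_X]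
    rfl

/-- the star subalgebra of polynomials in the invariants -/
noncomputable def bridge1f_A (m d : Fin J → ℕ) :
    StarSubalgebra ℂ C(Set.range (inv : Bs m d → Inv m d → ℂ), ℂ) where
  __ := (MvPolynomial.aeval (R := ℂ) (bridge1f_co (m := m) (d := d))).range
  star_mem' := by
    rintro _ ⟨G, rfl⟩
    induction G using MvPolynomial.induction_on with
    | C a =>
      refine ⟨MvPolynomial.C (star a), ?_⟩
      ext k
      simp
    | add p q hp hq =>
      obtain ⟨p', hp'⟩ := hp
      obtain ⟨q', hq'⟩ := hq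
      refine ⟨p' + q', ?_⟩
      simp only [RingHom.coe_coe, AlgHom.toRingHom_eq_coe, map_add, star_add] at hp' hq' ⊢
      rw [hp', hq']
    | mul_X p i hp =>
      obtain ⟨p', hp'⟩ := hp
      refine ⟨p' * MvPolynomial.X (bridge1f_cj i), ?_⟩
      simp only [RingHom.coe_coe, AlgHom.toRingHom_eq_coe, map_mul, star_mul, MvPolynomial.aeval_X]
        at hp' ⊢
      rw [hp', bridge1f_star, mul_comm]

/-- Stone-Weierstrass: `bV` is uniformly approximated, entrywise, by polynomials in the
invariants. Descend `bV` to a continuous function on the compact image of `inv` (closed map,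
`bV_inv`), and apply the theorem for polynomials in the coordinates and their conjugates; the
conjugate of an invariant is an invariant. -/
theorem exists_poly (ε : ℝ) (hε : 0 < ε) :
    ∃ G : Nx C.wt → Nx C.wt → MvPolynomial (Inv m d) ℂ,
      ∀ x i j, ‖bV C x i j - (G i j).eval (inv x)‖ ≤ ε := by
  have : CompactSpace S3 := bridge1f_compact_S3
  have : CompactSpace (Bs m d) := inferInstance
  have hK : IsCompact (Set.range (inv : Bs m d → Inv m d → ℂ)) :=
    isCompact_range bridge1f_inv_cont
  have : CompactSpace (Set.range (inv : Bs m d → Inv m d → ℂ)) := isCompact_iff_compactSpace.mp hK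
  have hA : (bridge1f_A m d).SeparatesPoints := by
    intro k k' hkk'
    have : k.1 ≠ k'.1 := fun h => hkk' (Subtype.ext h)
    obtain ⟨j, hj⟩ := Function.ne_iff.mp this
    refine ⟨bridge1f_co j, ⟨bridge1f_co j, ⟨MvPolynomial.X j, ?_⟩, rfl⟩, hj⟩
    simp
  have htop := ContinuousMap.starSubalgebra_topologicalClosure_eq_top_of_separatesPoints _ hA
  -- the quotient map
  let q : Bs m d → Set.range (inv : Bs m d → Inv m d → ℂ) := fun x => ⟨inv x, x, rfl⟩
  have hq : Continuous q := bridge1f_inv_cont.subtype_mk _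
  have hqs : Function.Surjective q := by
    rintro ⟨_, x, rfl⟩
    exact ⟨x, rfl⟩
  have hqm : Topology.IsQuotientMap q := (hq.isClosedMap).isQuotientMap hq hqs
  have key : ∀ i j, ∃ G : MvPolynomial (Inv m d) ℂ, ∀ x, ‖bV C x i j - G.eval (inv x)‖ ≤ ε := by
    intro i j
    let f : Set.range (inv : Bs m d → Inv m d → ℂ) → ℂ := fun k => bV C k.2.choose i j
    have hf : ∀ x, f (q x) = bV C x i j := by
      intro x
      have := (q x).2.choose_spec
      change bV C (q x).2.choose i j = _
      rw [bV_inv C this]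
    have hfc : Continuous f := by
      rw [hqm.continuous_iff]
      have : f ∘ q = fun x => bV C x i j := funext hf
      rw [this]
      exact (continuous_apply_apply i j).comp (bV_cont C)
    have hmem : (⟨f, hfc⟩ : C(Set.range (inv : Bs m d → Inv m d → ℂ), ℂ)) ∈
        (bridge1f_A m d).topologicalClosure := by rw [htop]; trivial
    have hmem' : (⟨f, hfc⟩ : C(Set.range (inv : Bs m d → Inv m d → ℂ), ℂ)) ∈
        closure (bridge1f_A m d : Set C(Set.range (inv : Bs m d → Inv m d → ℂ), ℂ)) := hmem
    rw [Metric.mem_closure_iff] at hmem'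
    obtain ⟨g, hg, hfg⟩ := hmem' ε hε
    obtain ⟨G, hG⟩ := hg
    refine ⟨G, fun x => ?_⟩
    have h1 := ContinuousMap.dist_apply_le_dist (f := (⟨f, hfc⟩ :
      C(Set.range (inv : Bs m d → Inv m d → ℂ), ℂ))) (g := g) (q x)
    rw [dist_eq_norm] at h1
    have h2 : g (q x) = G.eval (inv x) := by
      rw [← hG]
      exact bridge1f_aeval G (q x)
    rw [h2] at h1
    have h3 : (⟨f, hfc⟩ : C(Set.range (inv : Bs m d → Inv m d → ℂ), ℂ)) (q x) = bV C x i j := hf x
    rw [h3] at h1
    exact h1.trans hfg.le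
  choose G hG using key
  exact ⟨G, fun x i j => hG i j x⟩

end Pool.Agent.MP_d8b6c2_an
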