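import Mathlib
import Pool.Agent.Lib.MP_d8b6c2_an.Bridge
import Pool.Agent.Lib.MP_d8b6c2_an.NoFld
import Pool.Agent.Lib.MP_d8b6c2_an.Bridge1f

/-! # From continuous equivariant fields to smooth fields: proofs -/

namespace Pool.Agent.MP_d8b6c2_an

open Finset Filter Topology
open scoped ContDiff

variable {J : ℕ} {m d : Fin J → ℕ} {n : Type*} [Fintype n] [DecidableEq n] {κ r0 s o : ℕ}
  {δ δ2 : ℝ}

variable (C : CField m d n κ r0 s o δ δ2)

/-- the smooth field on the coordinate space: Hermitian part of the polynomial -/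
noncomputable def bS (G : Nx C.wt → Nx C.wt → MvPolynomial (Inv m d) ℂ) (x : Co m d → ℝ) :
    Matrix (Nx C.wt) (Nx C.wt) ℂ :=
  Matrix.of fun i j => (1 / 2 : ℂ) * ((G i j).eval (inv (toBs x)) +
    (starRingEnd ℂ) ((G j i).eval (inv (toBs x))))

/-- the frames of the certified subbundles -/
noncomputable def JS (p : Pth m) (x : Co m d → ℝ) : Matrix (Nx C.wt) (Fin r0) ℂ :=
  Vm C.wt (fun u => sig (x (cr u)) (x (ct u))) * C.e p

private theorem bridge1g_exp (t : ℝ) :
    Complex.exp (2 * Real.pi * Complex.I * t) *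
      (starRingEnd ℂ) (Complex.exp (2 * Real.pi * Complex.I * t)) = 1 := by
  rw [Complex.mul_conj, Complex.normSq_eq_norm_sq, Complex.norm_exp]
  simp

private theorem bridge1g_ang0 {r : ℝ} (h : r ≤ 0) : ang r = 0 := by
  rw [ang, Real.smoothTransition.zero_of_nonpos h, mul_zero]

private theorem bridge1g_ang1 {r : ℝ} (h : 1 ≤ r) : ang r = Real.pi / 2 := by
  rw [ang, Real.smoothTransition.one_of_one_le h, mul_one]

theorem sig_end {r r' t t' : ℝ} (h : (r ≤ 0 ∧ r' ≤ 0) ∨ (1 ≤ r ∧ 1 ≤ r')) (a c : Fin 2) :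
    sig r t a * (starRingEnd ℂ) (sig r t c) = sig r' t' a * (starRingEnd ℂ) (sig r' t' c) := by
  rcases h with ⟨h1, h2⟩ | ⟨h1, h2⟩
  · have e1 : sig r t = ![1, 0] := by
      unfold sig
      rw [bridge1g_ang0 h1]
      simp
    have e2 : sig r' t' = ![1, 0] := by
      unfold sig
      rw [bridge1g_ang0 h2]
      simp
    rw [e1, e2]
  · have e1 : sig r t = ![0, Complex.exp (2 * Real.pi * Complex.I * t)] := by
      unfold sig
      rw [bridge1g_ang1 h1]
      simp
    have e2 : sig r' t' = ![0, Complex.exp (2 * Real.pi * Complex.I * t')] := by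
      unfold sig
      rw [bridge1g_ang1 h2]
      simp
    rw [e1, e2]
    fin_cases a <;> fin_cases c <;> simp [-Complex.exp_conj, bridge1g_exp]

private theorem bridge1g_sig_smooth (u : Sg m d) (a : Fin 2) :
    ContDiff ℝ ∞ (fun x : Co m d → ℝ => sig (x (cr u)) (x (ct u)) a) := by
  have hr : ContDiff ℝ ∞ (fun x : Co m d → ℝ => x (cr u)) := contDiff_apply ℝ ℝ (cr u)
  have ht : ContDiff ℝ ∞ (fun x : Co m d → ℝ => x (ct u)) := contDiff_apply ℝ ℝ (ct u)
  have hang : ContDiff ℝ ∞ (fun x : Co m d → ℝ => ang (x (cr u))) := by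
    unfold ang
    exact contDiff_const.mul (Real.smoothTransition.contDiff.comp hr)
  fin_cases a
  · change ContDiff ℝ ∞ (fun x : Co m d → ℝ => (Real.cos (ang (x (cr u))) : ℂ))
    exact Complex.ofRealCLM.contDiff.comp (Real.contDiff_cos.comp hang)
  · change ContDiff ℝ ∞ (fun x : Co m d → ℝ =>
      Complex.exp (2 * Real.pi * Complex.I * (x (ct u) : ℂ)) * (Real.sin (ang (x (cr u))) : ℂ))
    refine ContDiff.mul ?_ (Complex.ofRealCLM.contDiff.comp (Real.contDiff_sin.comp hang))
    refine ContDiff.cexp ?_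
    exact contDiff_const.mul (Complex.ofRealCLM.contDiff.comp ht)

theorem inv_smooth (j : Inv m d) : ContDiff ℝ ∞ (fun x : Co m d → ℝ => inv (toBs x) j) := by
  rcases j with p | ⟨u, a, c⟩
  · change ContDiff ℝ ∞ (fun x : Co m d → ℝ => ((c0 (x (cu p)) : ℝ) : ℂ))
    unfold c0
    refine Complex.ofRealCLM.contDiff.comp (Real.smoothTransition.contDiff.comp ?_)
    exact contDiff_const.mul (contDiff_apply ℝ ℝ (cu p))
  · change ContDiff ℝ ∞ (fun x : Co m d → ℝ => sig (x (cr u)) (x (ct u)) a *
      (starRingEnd ℂ) (sig (x (cr u)) (x (ct u)) c))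
    exact (bridge1g_sig_smooth u a).mul
      (Complex.conjCLE.contDiff.comp (bridge1g_sig_smooth u c))

/-- the invariants do not change if `τ` changes, if `ct u` increases by `1`, or if `cr u`, `ct u`
change within an end -/
theorem inv_tau (x : Co m d → ℝ) (a : ℝ) :
    inv (toBs (Function.update x cτ a)) = inv (toBs x) := by
  funext j
  rcases j with p | ⟨u, a', c'⟩
  · simp [inv, toBs]
  · simp [inv, toBs]

private theorem bridge1g_sig_per (r t : ℝ) : sig r (t + 1) = sig r t := by
  unfold sig
  have : Complex.exp (2 * Real.pi * Complex.I * ((t + 1 : ℝ) : ℂ)) =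
      Complex.exp (2 * Real.pi * Complex.I * t) := by
    push_cast
    rw [mul_add, Complex.exp_add, mul_one, Complex.exp_two_pi_mul_I, mul_one]
  rw [this]

theorem inv_per (x : Co m d → ℝ) (u : Sg m d) :
    inv (toBs (x + ej (ct u))) = inv (toBs x) := by
  have hct : ∀ u' : Sg m d, sig ((x + ej (ct u)) (cr u')) ((x + ej (ct u)) (ct u')) =
      sig (x (cr u')) (x (ct u')) := by
    intro u'
    have h1 : (x + ej (ct u)) (cr u') = x (cr u') := by
      simp [ej]
    rw [h1]
    by_cases h : u' = u
    · subst h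
      have h2 : (x + ej (ct u')) (ct u') = x (ct u') + 1 := by
        simp [ej]
      rw [h2, bridge1g_sig_per]
    · have h2 : (x + ej (ct u)) (ct u') = x (ct u') := by
        simp [ej, h]
      rw [h2]
  funext j
  rcases j with p | ⟨u', a', c'⟩
  · simp [inv, toBs, ej, Pi.single_apply]
  · have := hct u'
    simp only [inv, toBs]
    rw [this]

theorem inv_end (x : Co m d → ℝ) (u : Sg m d) (j : Inv m d)
    (hx : x (cr u) < 0 ∨ 1 < x (cr u)) :
    pd (cr u) (fun y => inv (toBs y) j) x = 0 ∧ pd (ct u) (fun y => inv (toBs y) j) x = 0 := by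
  have hdiff : DifferentiableAt ℝ (fun y : Co m d → ℝ => inv (toBs y) j) x :=
    ((inv_smooth j).differentiable (by simp)).differentiableAt
  constructor
  · unfold pd
    rw [← hdiff.lineDeriv_eq_fderiv]
    unfold lineDeriv
    have hev : (fun t : ℝ => inv (toBs (x + t • Pi.single (cr u) (1 : ℝ))) j) =ᶠ[𝓝 0]
        fun _ => inv (toBs x) j := by
      have hcont : Tendsto (fun t : ℝ => x (cr u) + t) (𝓝 0) (𝓝 (x (cr u) + 0)) :=
        (continuous_const.add continuous_id).tendsto 0
      rw [add_zero] at hcont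
      have hev1 : ∀ᶠ t : ℝ in 𝓝 0, (x (cr u) + t ≤ 0 ∧ x (cr u) ≤ 0) ∨
          (1 ≤ x (cr u) + t ∧ 1 ≤ x (cr u)) := by
        rcases hx with h | h
        · filter_upwards [hcont.eventually (gt_mem_nhds h)] with t ht
          exact Or.inl ⟨le_of_lt ht, h.le⟩
        · filter_upwards [hcont.eventually (lt_mem_nhds h)] with t ht
          exact Or.inr ⟨le_of_lt ht, h.le⟩
      filter_upwards [hev1] with t ht
      rcases j with p | ⟨u', a', c'⟩
      · simp [inv, toBs, Pi.single_apply]
      · simp only [inv, toBs]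
        have h2 : (x + t • (Pi.single (cr u) (1 : ℝ) : Co m d → ℝ)) (ct u') = x (ct u') := by
          simp
        rw [h2]
        by_cases h : u' = u
        · subst h
          have h1 : (x + t • (Pi.single (cr u') (1 : ℝ) : Co m d → ℝ)) (cr u') = x (cr u') + t := by
            simp
          rw [h1]
          exact sig_end ht a' c'
        · have h1 : (x + t • (Pi.single (cr u) (1 : ℝ) : Co m d → ℝ)) (cr u') = x (cr u') := by
            simp [h]
          rw [h1]
    rw [hev.deriv_eq]
    simp
  · unfold pd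
    rw [← hdiff.lineDeriv_eq_fderiv]
    unfold lineDeriv
    have hev : (fun t : ℝ => inv (toBs (x + t • Pi.single (ct u) (1 : ℝ))) j) =
        fun _ => inv (toBs x) j := by
      funext t
      rcases j with p | ⟨u', a', c'⟩
      · simp [inv, toBs, Pi.single_apply]
      · simp only [inv, toBs]
        have h2 : (x + t • (Pi.single (ct u) (1 : ℝ) : Co m d → ℝ)) (cr u') = x (cr u') := by
          simp
        rw [h2]
        by_cases h : u' = u
        · subst h
          apply sig_end
          rcases hx with h | h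
          · exact Or.inl ⟨h.le, h.le⟩
          · exact Or.inr ⟨h.le, h.le⟩
        · have h1 : (x + t • (Pi.single (ct u) (1 : ℝ) : Co m d → ℝ)) (ct u') = x (ct u') := by
            simp [h]
          rw [h1]
    rw [hev]
    simp

end Pool.Agent.MP_d8b6c2_an
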