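import Mathlib
import Pool.Agent.Lib.MP_d8b6c2_an.Bridge
import Pool.Agent.Lib.MP_d8b6c2_an.NoFld
import Pool.Agent.Lib.MP_d8b6c2_an.Bridge1g

/-! # From continuous equivariant fields to smooth fields: proofs -/

namespace Pool.Agent.MP_d8b6c2_an

open Finset Filter Topology
open scoped ContDiff

variable {J : ℕ} {m d : Fin J → ℕ} {n : Type*} [Fintype n] [DecidableEq n] {κ r0 s o : ℕ}
  {δ δ2 : ℝ}

variable (C : CField m d n κ r0 s o δ δ2)

theorem bridge1h_eval (P : MvPolynomial (Inv m d) ℂ) :
    ContDiff ℝ ∞ (fun x : Co m d → ℝ => MvPolynomial.eval (inv (toBs x)) P) := by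
  induction P using MvPolynomial.induction_on with
  | C a =>
    simp only [MvPolynomial.eval_C]
    exact contDiff_const
  | add p q hp hq =>
    simp only [map_add]
    exact hp.add hq
  | mul_X p i hp =>
    simp only [map_mul, MvPolynomial.eval_X]
    exact hp.mul (inv_smooth i)

theorem bridge1h_entry (G : Nx C.wt → Nx C.wt → MvPolynomial (Inv m d) ℂ) (i j : Nx C.wt) :
    ContDiff ℝ ∞ (fun x : Co m d → ℝ => bS C G x i j) := by
  have h1 := bridge1h_eval (m := m) (d := d) (G i j)
  have h2 := bridge1h_eval (m := m) (d := d) (G j i)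
  have h3 : ContDiff ℝ ∞ (fun x : Co m d → ℝ =>
      (starRingEnd ℂ) (MvPolynomial.eval (inv (toBs x)) (G j i))) :=
    Complex.conjCLE.contDiff.comp h2
  exact contDiff_const.mul (h1.add h3)

theorem bS_smooth (G : Nx C.wt → Nx C.wt → MvPolynomial (Inv m d) ℂ) (x : Co m d → ℝ) :
    SmAt (bS C G) x := fun i j => (bridge1h_entry C G i j).contDiffAt

theorem bS_herm (G : Nx C.wt → Nx C.wt → MvPolynomial (Inv m d) ℂ) (x : Co m d → ℝ) :
    (bS C G x).IsHermitian := by
  ext i j
  rw [Matrix.conjTranspose_apply]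
  simp only [bS, Matrix.of_apply]
  change (starRingEnd ℂ) _ = _
  simp only [map_mul, map_add, map_div₀, map_one, map_ofNat, Complex.conj_conj]
  ring

/-- clamping of all coordinates -/
noncomputable def bridge1h_cl (x : Co m d → ℝ) : Co m d → ℝ := fun j =>
  match j with
  | none => 0
  | some (Sum.inl p) => (Set.projIcc (0 : ℝ) 1 zero_le_one (x (cu p)) : ℝ)
  | some (Sum.inr (Sum.inl u)) => (Set.projIcc (0 : ℝ) 1 zero_le_one (x (cr u)) : ℝ)
  | some (Sum.inr (Sum.inr u)) => Int.fract (x (ct u))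

theorem bridge1h_proj_st (r : ℝ) :
    Real.smoothTransition (Set.projIcc (0 : ℝ) 1 zero_le_one r : ℝ) =
      Real.smoothTransition r := by
  rw [Set.coe_projIcc]
  rcases le_total r 0 with h | h
  · rw [min_eq_right (by linarith), max_eq_left h, Real.smoothTransition.zero_of_nonpos h,
      Real.smoothTransition.zero_of_nonpos le_rfl]
  · rcases le_total r 1 with h1 | h1
    · rw [min_eq_right h1, max_eq_right h]
    · rw [min_eq_left h1, max_eq_right zero_le_one, Real.smoothTransition.one_of_one_le h1,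
        Real.smoothTransition.one_of_one_le le_rfl]

theorem bridge1h_proj_c0 (r : ℝ) :
    c0 (Set.projIcc (0 : ℝ) 1 zero_le_one r : ℝ) = c0 r := by
  unfold c0
  rw [Set.coe_projIcc]
  rcases le_total r 0 with h | h
  · rw [min_eq_right (by linarith), max_eq_left h,
      Real.smoothTransition.zero_of_nonpos (by linarith),
      Real.smoothTransition.zero_of_nonpos (by linarith)]
  · rcases le_total r 1 with h1 | h1
    · rw [min_eq_right h1, max_eq_right h]
    · rw [min_eq_left h1, max_eq_right zero_le_one,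
        Real.smoothTransition.one_of_one_le (by linarith),
        Real.smoothTransition.one_of_one_le (by linarith)]

theorem bridge1h_sig (r t : ℝ) :
    sig (Set.projIcc (0 : ℝ) 1 zero_le_one r : ℝ) (Int.fract t) = sig r t := by
  unfold sig ang
  rw [bridge1h_proj_st]
  have h : Complex.exp (2 * Real.pi * Complex.I * ((Int.fract t : ℝ) : ℂ)) =
      Complex.exp (2 * Real.pi * Complex.I * (t : ℂ)) := by
    rw [Complex.exp_eq_exp_iff_exists_int]
    refine ⟨-⌊t⌋, ?_⟩
    have : ((Int.fract t : ℝ) : ℂ) = (t : ℂ) - ((⌊t⌋ : ℤ) : ℂ) := by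
      rw [← Int.self_sub_floor]
      push_cast
      rfl
    rw [this]
    push_cast
    ring
  rw [h]

theorem bridge1h_toBs (x : Co m d → ℝ) : toBs (bridge1h_cl x) = toBs x := by
  unfold toBs
  refine Prod.ext ?_ ?_
  · funext p
    apply Subtype.ext
    exact bridge1h_proj_c0 (x (cu p))
  · funext u
    apply Subtype.ext
    exact bridge1h_sig (x (cr u)) (x (ct u))

theorem bridge1h_cl_mem (x : Co m d → ℝ) (j : Co m d) :
    bridge1h_cl x j ∈ Set.Icc (0 : ℝ) 1 := by
  rcases j with _ | p | u | u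
  · exact ⟨le_rfl, zero_le_one⟩
  · exact (Set.projIcc (0 : ℝ) 1 zero_le_one (x (cu p))).2
  · exact (Set.projIcc (0 : ℝ) 1 zero_le_one (x (cr u))).2
  · exact ⟨Int.fract_nonneg _, (Int.fract_lt_one _).le⟩

/-- the range is the continuous image of a compact set of parameters -/
theorem bS_cpt (G : Nx C.wt → Nx C.wt → MvPolynomial (Inv m d) ℂ) :
    IsCompact (Set.range fun x => (fun i j => bS C G x i j : Nx C.wt → Nx C.wt → ℂ)) := by
  have hK : IsCompact (Set.pi Set.univ fun _ : Co m d => Set.Icc (0 : ℝ) 1) :=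
    isCompact_univ_pi fun _ => isCompact_Icc
  have hc : Continuous fun x : Co m d → ℝ =>
      (fun i j => bS C G x i j : Nx C.wt → Nx C.wt → ℂ) :=
    continuous_pi fun i => continuous_pi fun j => (bridge1h_entry C G i j).continuous
  have he : (Set.range fun x => (fun i j => bS C G x i j : Nx C.wt → Nx C.wt → ℂ)) =
      (fun x => (fun i j => bS C G x i j : Nx C.wt → Nx C.wt → ℂ)) ''
        (Set.pi Set.univ fun _ : Co m d => Set.Icc (0 : ℝ) 1) := by
    apply Set.Subset.antisymm
    · rintro _ ⟨x, rfl⟩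
      refine ⟨bridge1h_cl x, fun j _ => bridge1h_cl_mem x j, ?_⟩
      funext i j
      simp only [bS, Matrix.of_apply, bridge1h_toBs]
    · rintro _ ⟨x, -, rfl⟩
      exact ⟨x, rfl⟩
  rw [he]
  exact hK.image hc

theorem bridge1h_bV_herm (y : Bs m d) (i j : Nx C.wt) :
    (starRingEnd ℂ) (bV C y j i) = bV C y i j := by
  have h : (bV C y).IsHermitian := by
    unfold bV
    exact Matrix.isHermitian_mul_mul_conjTranspose _ (C.b_herm y)
  have := congrFun (congrFun h i) j
  rw [Matrix.conjTranspose_apply] at this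
  exact this

theorem bS_near {G : Nx C.wt → Nx C.wt → MvPolynomial (Inv m d) ℂ} {ε : ℝ}
    (hG : ∀ x i j, ‖bV C x i j - (G i j).eval (inv x)‖ ≤ ε) (x : Co m d → ℝ) (i j) :
    ‖bS C G x i j - bV C (toBs x) i j‖ ≤ ε := by
  have h1 := hG (toBs x) i j
  have h2 := hG (toBs x) j i
  have he : bS C G x i j - bV C (toBs x) i j =
      (1 / 2 : ℂ) * -(bV C (toBs x) i j - (G i j).eval (inv (toBs x))) +
      (1 / 2 : ℂ) * -((starRingEnd ℂ) (bV C (toBs x) j i - (G j i).eval (inv (toBs x)))) := by
    rw [map_sub, bridge1h_bV_herm]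
    simp only [bS, Matrix.of_apply]
    ring
  rw [he]
  refine (norm_add_le _ _).trans ?_
  rw [norm_mul, norm_mul, norm_neg, norm_neg, RCLike.norm_conj]
  have h3 : ‖(1 / 2 : ℂ)‖ = 1 / 2 := by norm_num
  rw [h3]
  linarith

end Pool.Agent.MP_d8b6c2_an
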