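import Mathlib
import Pool.Agent.Lib.MP_d8b6c2_an.Bridge
import Pool.Agent.Lib.MP_d8b6c2_an.NoFld
import Pool.Agent.Lib.MP_d8b6c2_an.Bridge1h

/-! # From continuous equivariant fields to smooth fields: proofs -/

namespace Pool.Agent.MP_d8b6c2_an

open Finset Filter Topology
open scoped ContDiff

variable {J : ℕ} {m d : Fin J → ℕ} {n : Type*} [Fintype n] [DecidableEq n] {κ r0 s o : ℕ}
  {δ δ2 : ℝ}

variable (C : CField m d n κ r0 s o δ δ2)

private theorem bridge1i_sig (u : Sg m d) (c : Fin 2) :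
    ContDiff ℝ ∞ (fun x : Co m d → ℝ => sig (x (cr u)) (x (ct u)) c) := by
  have hr : ContDiff ℝ ∞ (fun x : Co m d → ℝ => ang (x (cr u))) := by
    unfold ang
    exact contDiff_const.mul (Real.smoothTransition.contDiff.comp (contDiff_apply ℝ ℝ (cr u)))
  have ht : ContDiff ℝ ∞ (fun x : Co m d → ℝ =>
      Complex.exp (2 * Real.pi * Complex.I * ((x (ct u) : ℝ) : ℂ))) := by
    apply ContDiff.cexp
    exact contDiff_const.mul (Complex.ofRealCLM.contDiff.comp (contDiff_apply ℝ ℝ (ct u)))
  fin_cases c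
  · simp only [sig, Fin.zero_eta, Matrix.cons_val_zero]
    exact Complex.ofRealCLM.contDiff.comp (Real.contDiff_cos.comp hr)
  · simp only [sig, Fin.mk_one, Matrix.cons_val_one]
    exact ht.mul (Complex.ofRealCLM.contDiff.comp (Real.contDiff_sin.comp hr))

theorem JS_smooth (p : Pth m) (x : Co m d → ℝ) : SmAt (JS C p) x := by
  intro i k
  have h : (fun y : Co m d → ℝ => JS C p y i k) = fun y => ∑ β : n,
      (if i.1 = β then ∏ u, ∏ a, sig (y (cr u)) (y (ct u)) (i.2 u a) else 0) * C.e p β k := by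
    funext y
    rfl
  rw [h]
  apply ContDiff.contDiffAt
  apply ContDiff.sum
  intro β _
  apply ContDiff.mul _ contDiff_const
  by_cases hb : i.1 = β
  · simp only [hb, if_true]
    apply contDiff_prod
    intro u _
    apply contDiff_prod
    intro a _
    exact bridge1i_sig u _
  · simp only [hb, if_false]
    exact contDiff_const

theorem JS_orth (p : Pth m) (x : Co m d → ℝ) :
    (JS C p x).conjTranspose * JS C p x = 1 := by
  unfold JS
  rw [Matrix.conjTranspose_mul, Matrix.mul_assoc, ← Matrix.mul_assoc _ _ (C.e p),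
    Vm_isom _ _ (fun u => sig_mem _ _), Matrix.one_mul]
  exact C.e_orth p

theorem JS_orth' (p p' : Pth m) (x : Co m d → ℝ) (h : p ≠ p') :
    (JS C p x).conjTranspose * JS C p' x = 0 := by
  unfold JS
  rw [Matrix.conjTranspose_mul, Matrix.mul_assoc, ← Matrix.mul_assoc _ _ (C.e p'),
    Vm_isom _ _ (fun u => sig_mem _ _), Matrix.one_mul]
  exact C.e_orth' p p' h

end Pool.Agent.MP_d8b6c2_an
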