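import Mathlib
import Pool.Agent.Lib.MP_d8b6c2_an.Bridge
import Pool.Agent.Lib.MP_d8b6c2_an.NoFld
import Pool.Agent.Lib.MP_d8b6c2_an.Bridge1i

/-! # From continuous equivariant fields to smooth fields: proofs -/

namespace Pool.Agent.MP_d8b6c2_an

open Finset Filter Topology
open scoped ContDiff

variable {J : ℕ} {m d : Fin J → ℕ} {n : Type*} [Fintype n] [DecidableEq n] {κ r0 s o : ℕ}
  {δ δ2 : ℝ}

variable (C : CField m d n κ r0 s o δ δ2)

private theorem bridge1j_conj_exp (t : ℝ) :
    (starRingEnd ℂ) (Complex.exp (2 * Real.pi * Complex.I * t)) *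
      Complex.exp (2 * Real.pi * Complex.I * t) = 1 := by
  rw [← Complex.exp_conj, ← Complex.exp_add]
  have : (starRingEnd ℂ) (2 * Real.pi * Complex.I * t) + 2 * Real.pi * Complex.I * t = 0 := by
    simp only [map_mul, Complex.conj_I, Complex.conj_ofReal]
    have : (starRingEnd ℂ) 2 = 2 := Complex.conj_ofNat 2
    rw [this]
    ring
  rw [this, Complex.exp_zero]

/-- derivative of the tautological vectors -/
theorem sig_deriv_t (r t : ℝ) :
    ∑ i, (starRingEnd ℂ) (sig r t i) * deriv (fun y => sig r y i) t = aS r := by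
  rw [Fin.sum_univ_two]
  have h0 : (fun y : ℝ => sig r y 0) = fun _ => (Real.cos (ang r) : ℂ) := rfl
  have h1 : (fun y : ℝ => sig r y 1) =
      fun y : ℝ => Complex.exp (2 * Real.pi * Complex.I * (y : ℂ)) * (Real.sin (ang r) : ℂ) := rfl
  have hd : HasDerivAt (fun y : ℝ => Complex.exp (2 * Real.pi * Complex.I * y) *
      (Real.sin (ang r) : ℂ))
      (Complex.exp (2 * Real.pi * Complex.I * t) * (2 * Real.pi * Complex.I) *
        (Real.sin (ang r) : ℂ)) t := by
    have h2 : HasDerivAt (fun y : ℝ => 2 * Real.pi * Complex.I * (y : ℂ))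
        (2 * Real.pi * Complex.I) t := by
      have := (Complex.ofRealCLM.hasDerivAt (x := t)).const_mul (2 * Real.pi * Complex.I)
      simpa using this
    exact (h2.cexp).mul_const _
  rw [h0, h1, deriv_const, mul_zero, zero_add, hd.deriv]
  have h3 : sig r t 1 = Complex.exp (2 * Real.pi * Complex.I * t) * (Real.sin (ang r) : ℂ) := rfl
  rw [h3, map_mul, Complex.conj_ofReal]
  have h4 := bridge1j_conj_exp t
  unfold aS
  calc (starRingEnd ℂ) (Complex.exp (2 * Real.pi * Complex.I * t)) * (Real.sin (ang r) : ℂ) *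
      (Complex.exp (2 * Real.pi * Complex.I * t) * (2 * Real.pi * Complex.I) *
        (Real.sin (ang r) : ℂ))
      = ((starRingEnd ℂ) (Complex.exp (2 * Real.pi * Complex.I * t)) *
          Complex.exp (2 * Real.pi * Complex.I * t)) *
        (2 * Real.pi * Complex.I * ((Real.sin (ang r) : ℂ) * (Real.sin (ang r) : ℂ))) := by ring
    _ = _ := by
      rw [h4, one_mul]
      push_cast
      ring

private theorem bridge1j_ang (r : ℝ) : DifferentiableAt ℝ ang r := by
  unfold ang
  exact ((Real.smoothTransition.contDiff (n := 1)).differentiable (by norm_num) r).const_mul _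

theorem sig_deriv_r (r t : ℝ) :
    ∑ i, (starRingEnd ℂ) (sig r t i) * deriv (fun y => sig y t i) r = 0 := by
  rw [Fin.sum_univ_two]
  have ha := (bridge1j_ang r).hasDerivAt
  have h0 : (fun y : ℝ => sig y t 0) = fun y => (Real.cos (ang y) : ℂ) := rfl
  have h1 : (fun y : ℝ => sig y t 1) =
      fun y => Complex.exp (2 * Real.pi * Complex.I * t) * (Real.sin (ang y) : ℂ) := rfl
  have hc : HasDerivAt (fun y : ℝ => (Real.cos (ang y) : ℂ))
      ((-Real.sin (ang r) * deriv ang r : ℝ) : ℂ) r := (ha.cos).ofReal_comp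
  have hs : HasDerivAt (fun y : ℝ => (Real.sin (ang y) : ℂ))
      ((Real.cos (ang r) * deriv ang r : ℝ) : ℂ) r := (ha.sin).ofReal_comp
  rw [h0, h1, hc.deriv, (hs.const_mul _).deriv]
  have h3 : sig r t 1 = Complex.exp (2 * Real.pi * Complex.I * t) * (Real.sin (ang r) : ℂ) := rfl
  have h2 : sig r t 0 = (Real.cos (ang r) : ℂ) := rfl
  rw [h3, h2, map_mul, Complex.conj_ofReal, Complex.conj_ofReal]
  have h4 := bridge1j_conj_exp t
  calc (Real.cos (ang r) : ℂ) * ((-Real.sin (ang r) * deriv ang r : ℝ) : ℂ) +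
      (starRingEnd ℂ) (Complex.exp (2 * Real.pi * Complex.I * t)) * (Real.sin (ang r) : ℂ) *
      (Complex.exp (2 * Real.pi * Complex.I * t) * ((Real.cos (ang r) * deriv ang r : ℝ) : ℂ))
      = (Real.cos (ang r) : ℂ) * ((-Real.sin (ang r) * deriv ang r : ℝ) : ℂ) +
        ((starRingEnd ℂ) (Complex.exp (2 * Real.pi * Complex.I * t)) *
          Complex.exp (2 * Real.pi * Complex.I * t)) * ((Real.sin (ang r) : ℂ) *
        ((Real.cos (ang r) * deriv ang r : ℝ) : ℂ)) := by ring
    _ = 0 := by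
      rw [h4]
      push_cast
      ring

/-- partial derivatives as derivatives of functions of one variable -/
private theorem bridge1j_pd {ι : Type*} [Fintype ι] [DecidableEq ι] (F : (ι → ℝ) → ℂ) (x : ι → ℝ)
    (hF : DifferentiableAt ℝ F x) (j : ι) :
    pd j F x = deriv (fun y => F (Function.update x j y)) (x j) := by
  have h1 := hasDerivAt_update x j (x j)
  have h2 : HasFDerivAt F (fderiv ℝ F x) (Function.update x j (x j)) := by
    rw [Function.update_eq_self]
    exact hF.hasFDerivAt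
  have h3 := h2.comp_hasDerivAt (x j) h1
  exact h3.deriv.symm

private theorem bridge1j_sig_diff (u : Sg m d) (c : Fin 2) (x : Co m d → ℝ) :
    DifferentiableAt ℝ (fun y : Co m d → ℝ => sig (y (cr u)) (y (ct u)) c) x := by
  have hr : DifferentiableAt ℝ (fun y : Co m d → ℝ => y (cr u)) x :=
    differentiableAt_apply _ _
  have ht : DifferentiableAt ℝ (fun y : Co m d → ℝ => y (ct u)) x :=
    differentiableAt_apply _ _
  have ha : DifferentiableAt ℝ (fun y : Co m d → ℝ => ang (y (cr u))) x :=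
    (bridge1j_ang _).comp x hr
  have hcos : DifferentiableAt ℝ (fun y : Co m d → ℝ => (Real.cos (ang (y (cr u))) : ℂ)) x :=
    Complex.ofRealCLM.differentiableAt.comp x ha.cos
  have hsin : DifferentiableAt ℝ (fun y : Co m d → ℝ => (Real.sin (ang (y (cr u))) : ℂ)) x :=
    Complex.ofRealCLM.differentiableAt.comp x ha.sin
  have hexp : DifferentiableAt ℝ
      (fun y : Co m d → ℝ => Complex.exp (2 * Real.pi * Complex.I * (y (ct u) : ℂ))) x := by
    apply DifferentiableAt.cexp
    exact (Complex.ofRealCLM.differentiableAt.comp x ht).const_mul _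
  fin_cases c
  · exact hcos
  · exact hexp.mul hsin

private theorem bridge1j_prod_diff {ι κ : Type*} [Fintype κ] (u : Finset ι)
    (g : ι → (κ → ℝ) → ℂ) (x : κ → ℝ) (hg : ∀ i ∈ u, DifferentiableAt ℝ (g i) x) :
    DifferentiableAt ℝ (fun y => ∏ i ∈ u, g i y) x := by
  classical
  exact (HasFDerivAt.finsetProd fun i hi => (hg i hi).hasFDerivAt).differentiableAt

/-- the scalar product of the tautological vector with its partial derivative -/
private theorem bridge1j_inner (u : Sg m d) (j : Co m d) (x : Co m d → ℝ) :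
    ∑ c, (starRingEnd ℂ) (sig (x (cr u)) (x (ct u)) c) *
      pd j (fun y : Co m d → ℝ => sig (y (cr u)) (y (ct u)) c) x =
      if j = ct u then aS (x (cr u)) else 0 := by
  have hpd : ∀ c, pd j (fun y : Co m d → ℝ => sig (y (cr u)) (y (ct u)) c) x =
      deriv (fun y => sig (Function.update x j y (cr u)) (Function.update x j y (ct u)) c)
        (x j) := fun c => bridge1j_pd _ x (bridge1j_sig_diff u c x) j
  simp only [hpd]
  by_cases h1 : j = ct u
  · subst h1
    rw [if_pos rfl]
    have h2 : (cr u : Co m d) ≠ ct u := by simp [cr, ct]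
    simp only [Function.update_self, Function.update_of_ne h2]
    exact sig_deriv_t _ _
  rw [if_neg h1]
  by_cases h3 : j = cr u
  · subst h3
    have h2 : (ct u : Co m d) ≠ cr u := by simp [cr, ct]
    simp only [Function.update_self, Function.update_of_ne h2]
    exact sig_deriv_r _ _
  · simp only [Function.update_of_ne (Ne.symm h1), Function.update_of_ne (Ne.symm h3)]
    simp

/-- the derivative of a tensor product -/
private theorem bridge1j_prod {I : Type*} [Fintype I] [DecidableEq I] (z dz : I → Fin 2 → ℂ)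
    (hz : ∀ i, ∑ c, (starRingEnd ℂ) (z i c) * z i c = 1) :
    ∑ f : I → Fin 2, (starRingEnd ℂ) (∏ i, z i (f i)) *
      (∑ i, (∏ k ∈ univ.erase i, z k (f k)) * dz i (f i)) =
      ∑ i, ∑ c, (starRingEnd ℂ) (z i c) * dz i c := by
  simp only [mul_sum]
  rw [sum_comm]
  refine sum_congr rfl fun i _ => ?_
  have h1 : ∀ f : I → Fin 2, (starRingEnd ℂ) (∏ k, z k (f k)) *
      ((∏ k ∈ univ.erase i, z k (f k)) * dz i (f i)) =
      ∏ k, ((starRingEnd ℂ) (z k (f k)) * (if k = i then dz k (f k) else z k (f k))) := by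
    intro f
    rw [map_prod, prod_mul_distrib]
    congr 1
    rw [← mul_prod_erase univ (fun k => if k = i then dz k (f k) else z k (f k)) (mem_univ i),
      if_pos rfl, mul_comm]
    congr 1
    refine prod_congr rfl fun k hk => ?_
    rw [if_neg (ne_of_mem_erase hk)]
  simp only [h1]
  have h2 := (prod_univ_sum (fun _ : I => (univ : Finset (Fin 2)))
    (fun k c => (starRingEnd ℂ) (z k c) * (if k = i then dz k c else z k c))).symm
  rw [Fintype.piFinset_univ] at h2
  rw [h2, ← mul_prod_erase univ _ (mem_univ i)]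
  simp only [if_true]
  have h3 : ∏ k ∈ univ.erase i, ∑ c, (starRingEnd ℂ) (z k c) *
      (if k = i then dz k c else z k c) = 1 := by
    refine prod_eq_one fun k hk => ?_
    simp only [if_neg (ne_of_mem_erase hk)]
    exact hz k
  rw [h3, mul_one]

private theorem bridge1j_norm (r t : ℝ) :
    ∑ c, (starRingEnd ℂ) (sig r t c) * sig r t c = 1 := by
  have h := sig_mem r t
  have h1 : ∀ c, (starRingEnd ℂ) (sig r t c) * sig r t c = ((‖sig r t c‖ ^ 2 : ℝ) : ℂ) := by
    intro c
    rw [mul_comm, Complex.mul_conj, Complex.normSq_eq_norm_sq]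
  simp only [h1]
  rw [← Complex.ofReal_sum, h, Complex.ofReal_one]

private theorem bridge1j_abs {U ι : Type*} [Fintype U] [DecidableEq U] [Fintype ι]
    [DecidableEq ι] (w : U → ℕ) (g : U → Fin 2 → (ι → ℝ) → ℂ) (j : ι) (x : ι → ℝ)
    (hg : ∀ u c, DifferentiableAt ℝ (g u c) x)
    (hn : ∀ u, ∑ c, (starRingEnd ℂ) (g u c x) * g u c x = 1) :
    ∑ f : (u : U) → Fin (w u) → Fin 2, (starRingEnd ℂ) (∏ u, ∏ a, g u (f u a) x) *
      pd j (fun y => ∏ u, ∏ a, g u (f u a) y) x =
      ∑ u, (w u : ℂ) * ∑ c, (starRingEnd ℂ) (g u c x) * pd j (g u c) x := by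
  have hprod := bridge1j_prod (I := Σ u : U, Fin (w u)) (fun i c => g i.1 c x)
    (fun i c => pd j (g i.1 c) x) (fun i => hn i.1)
  refine Eq.trans (Eq.trans ?_ hprod) ?_
  · refine (Fintype.sum_equiv (Equiv.piCurry (fun (u : U) (_ : Fin (w u)) => Fin 2)) _ _ ?_).symm
    intro f
    have e1 : ∀ y, ∏ i : (Σ u : U, Fin (w u)), g i.1 (f i) y = ∏ u, ∏ a, g u
          (Equiv.piCurry (fun (u : U) (_ : Fin (w u)) => Fin 2) f u a) y := by
      intro y
      rw [Fintype.prod_sigma]
      rfl
    have e2 : (fun y => ∏ u, ∏ a, g u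
          (Equiv.piCurry (fun (u : U) (_ : Fin (w u)) => Fin 2) f u a) y) =
        fun y => ∏ i : (Σ u : U, Fin (w u)), g i.1 (f i) y :=
      funext fun y => (e1 y).symm
    rw [e2, ← e1 x]
    congr 1
    have h3 : HasFDerivAt (fun y => ∏ i : (Σ u : U, Fin (w u)), g i.1 (f i) y) _ x :=
      HasFDerivAt.finsetProd (u := univ)
      (g := fun (i : Σ u : U, Fin (w u)) y => g i.1 (f i) y)
      (fun i _ => (hg i.1 (f i)).hasFDerivAt)
    unfold pd
    rw [h3.fderiv]
    simp
  · rw [Fintype.sum_sigma]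
    refine sum_congr rfl fun u _ => ?_
    dsimp only
    rw [sum_const, card_univ, Fintype.card_fin, nsmul_eq_mul]

private theorem bridge1j_abs2 {U ι ν : Type*} [Fintype U] [DecidableEq U] [Fintype ι]
    [DecidableEq ι] [Fintype ν] {q : ℕ} (w : U → ν → ℕ) (g : U → Fin 2 → (ι → ℝ) → ℂ) (j : ι)
    (x : ι → ℝ) (hg : ∀ u c, DifferentiableAt ℝ (g u c) x)
    (hn : ∀ u, ∑ c, (starRingEnd ℂ) (g u c x) * g u c x = 1) (e : ν → Fin q → ℂ) (A : ℂ)
    (k l : Fin q)
    (hA : ∀ α, e α l ≠ 0 →
      ∑ u, (w u α : ℂ) * ∑ c, (starRingEnd ℂ) (g u c x) * pd j (g u c) x = A) :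
    ∑ i : (Σ α : ν, ((u : U) → Fin (w u α) → Fin 2)),
      (starRingEnd ℂ) ((∏ u, ∏ a, g u (i.2 u a) x) * e i.1 k) *
        pd j (fun y => (∏ u, ∏ a, g u (i.2 u a) y) * e i.1 l) x =
      (∑ α, (starRingEnd ℂ) (e α k) * e α l) * A := by
  rw [Fintype.sum_sigma, sum_mul]
  refine sum_congr rfl fun α _ => ?_
  have h1 : ∀ f : (u : U) → Fin (w u α) → Fin 2,
      (starRingEnd ℂ) ((∏ u, ∏ a, g u (f u a) x) * e α k) *
        pd j (fun y => (∏ u, ∏ a, g u (f u a) y) * e α l) x =
      ((starRingEnd ℂ) (e α k) * e α l) * ((starRingEnd ℂ) (∏ u, ∏ a, g u (f u a) x) *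
        pd j (fun y => ∏ u, ∏ a, g u (f u a) y) x) := by
    intro f
    have hdiff : DifferentiableAt ℝ (fun y => ∏ u, ∏ a, g u (f u a) y) x :=
      bridge1j_prod_diff univ _ x fun u _ =>
        bridge1j_prod_diff univ _ x fun a _ => hg u _
    have h2 : pd j (fun y => (∏ u, ∏ a, g u (f u a) y) * e α l) x =
        pd j (fun y => ∏ u, ∏ a, g u (f u a) y) x * e α l := by
      unfold pd
      rw [fderiv_mul_const hdiff]
      simp [mul_comm]
    rw [h2, map_mul]
    ring
  refine (sum_congr rfl fun f _ => h1 f).trans ?_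
  rw [← mul_sum, bridge1j_abs (fun u => w u α) g j x hg hn]
  by_cases h0 : e α l = 0
  · rw [h0]; simp
  · rw [hA α h0]

private theorem bridge1j_aa (p : Pth m) (j : Co m d) (x : Co m d → ℝ) :
    ∑ u : Sg m d, (lw p u : ℂ) * (if j = ct u then aS (x (cr u)) else 0) = aa p j x := by
  rcases j with _ | (q | (v | v))
  · simp [aa, ct]
  · simp [aa, ct]
  · simp [aa, ct]
  · rw [Finset.sum_eq_single v]
    · simp [aa, ct]
    · intro u _ hu
      have h : (some (Sum.inr (Sum.inr v)) : Co m d) ≠ ct u := by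
        intro h
        simp only [ct, Option.some.injEq, Sum.inr.injEq] at h
        exact hu h.symm
      rw [if_neg h, mul_zero]
    · intro h
      exact absurd (mem_univ v) h

private theorem bridge1j_JS (p : Pth m) (y : Co m d → ℝ) (i : Nx C.wt) (k : Fin r0) :
    JS C p y i k = (∏ u, ∏ a, sig (y (cr u)) (y (ct u)) (i.2 u a)) * C.e p i.1 k := by
  unfold JS Vm
  rw [Matrix.mul_apply, Finset.sum_eq_single i.1]
  · simp
  · intro β _ hβ
    simp [Ne.symm hβ]
  · intro h
    exact absurd (mem_univ _) h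

theorem JS_aa (p : Pth m) (j : Co m d) (x : Co m d → ℝ) :
    (JS C p x).conjTranspose * pdm j (JS C p) x = aa p j x • (1 : Matrix _ _ ℂ) := by
  ext k l
  have h := bridge1j_abs2 (fun u α => C.wt u α)
    (fun u c (y : Co m d → ℝ) => sig (y (cr u)) (y (ct u)) c)
    j x (fun u c => bridge1j_sig_diff u c x) (fun u => bridge1j_norm _ _) (C.e p) (aa p j x) k l
    (by
      intro α hα
      rw [← bridge1j_aa p j x]
      refine sum_congr rfl fun u _ => ?_
      rw [bridge1j_inner, C.e_wt p α l u hα])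
  have h4 : ∑ α : n, (starRingEnd ℂ) (C.e p α k) * C.e p α l = (1 : Matrix _ _ ℂ) k l := by
    rw [← C.e_orth p, Matrix.mul_apply]
    rfl
  rw [h4] at h
  rw [Matrix.smul_apply, smul_eq_mul, mul_comm (aa p j x), ← h, Matrix.mul_apply]
  refine sum_congr (by ext i; simp) fun i _ => ?_
  rw [Matrix.conjTranspose_apply, bridge1j_JS]
  simp only [pdm, Matrix.of_apply, bridge1j_JS]
  rfl

end Pool.Agent.MP_d8b6c2_an
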