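import Mathlib
import Pool.Agent.Lib.MP_d8b6c2_an.Bridge
import Pool.Agent.Lib.MP_d8b6c2_an.NoFld
import Pool.Agent.Lib.MP_d8b6c2_an.Bridge1j

/-! # From continuous equivariant fields to smooth fields: proofs -/

namespace Pool.Agent.MP_d8b6c2_an

open Finset Filter Topology
open scoped ContDiff

variable {J : ℕ} {m d : Fin J → ℕ} {n : Type*} [Fintype n] [DecidableEq n] {κ r0 s o : ℕ}
  {δ δ2 : ℝ}

variable (C : CField m d n κ r0 s o δ δ2)

omit [Fintype n] in
private theorem bridge1k_Vm_mul (wt : Sg m d → n → ℕ) (z : Sg m d → Fin 2 → ℂ) {r : ℕ}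
    [Fintype n] (e : Matrix n (Fin r) ℂ) (i : Nx wt) (k : Fin r) :
    (Vm wt z * e) i k = (∏ u, ∏ a, z u (i.2 u a)) * e i.1 k := by
  rw [Matrix.mul_apply, Finset.sum_eq_single i.1]
  · simp [Vm]
  · intro b _ hb
    simp [Vm, Ne.symm hb]
  · intro h
    exact absurd (Finset.mem_univ _) h

private theorem bridge1k_inv {x y : Co m d → ℝ} (hu : ∀ p, y (cu p) = x (cu p))
    (hs : ∀ u, (y (cr u) = x (cr u) ∧ y (ct u) = x (ct u)) ∨
      ((y (cr u) ≤ 0 ∧ x (cr u) ≤ 0) ∨ (1 ≤ y (cr u) ∧ 1 ≤ x (cr u)))) :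
    inv (toBs y) = inv (toBs x) := by
  funext j
  rcases j with p | ⟨u, a, c⟩
  · show ((c0 (y (cu p)) : ℝ) : ℂ) = ((c0 (x (cu p)) : ℝ) : ℂ)
    rw [hu]
  · show sig (y (cr u)) (y (ct u)) a * (starRingEnd ℂ) (sig (y (cr u)) (y (ct u)) c) =
      sig (x (cr u)) (x (ct u)) a * (starRingEnd ℂ) (sig (x (cr u)) (x (ct u)) c)
    rcases hs u with ⟨h1, h2⟩ | h
    · rw [h1, h2]
    · exact sig_end h a c

private theorem bridge1k_pd {f : (Co m d → ℝ) → ℂ} {x : Co m d → ℝ} {j : Co m d}
    (h : ∀ᶠ t in 𝓝 (0 : ℝ), f (x + t • Pi.single j 1) = f x) : pd j f x = 0 := by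
  unfold pd
  by_cases hd : DifferentiableAt ℝ f x
  · rw [← hd.lineDeriv_eq_fderiv]
    unfold lineDeriv
    have h2 : (fun t : ℝ => f (x + t • Pi.single j 1)) =ᶠ[𝓝 0] fun _ => f x := h
    rw [h2.deriv_eq, deriv_const]
  · rw [fderiv_zero_of_not_differentiableAt hd]
    rfl

/-- the projection `JS JS^*` only depends on the invariants -/
theorem JS_proj (p : Pth m) : ∃ G : Nx C.wt → Nx C.wt → MvPolynomial (Inv m d) ℂ,
    ∀ x i j, (JS C p x * (JS C p x).conjTranspose) i j = (G i j).eval (inv (toBs x)) := by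
  classical
  refine ⟨fun i j => if h : ∀ u, C.wt u i.1 = C.wt u j.1 then
    MvPolynomial.C (∑ k, C.e p i.1 k * (starRingEnd ℂ) (C.e p j.1 k)) *
      ∏ u, ∏ a : Fin (C.wt u i.1), MvPolynomial.X (Sum.inr (u, i.2 u a, j.2 u (Fin.cast (h u) a)))
    else 0, ?_⟩
  intro x i j
  rw [Matrix.mul_apply]
  have h1 : ∀ k, JS C p x i k * (JS C p x).conjTranspose k j =
      ((∏ u, ∏ a, sig (x (cr u)) (x (ct u)) (i.2 u a)) *
        (starRingEnd ℂ) (∏ u, ∏ a, sig (x (cr u)) (x (ct u)) (j.2 u a))) *
        (C.e p i.1 k * (starRingEnd ℂ) (C.e p j.1 k)) := by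
    intro k
    rw [Matrix.conjTranspose_apply]
    unfold JS
    rw [bridge1k_Vm_mul, bridge1k_Vm_mul, Complex.star_def, map_mul]
    ring
  rw [Finset.sum_congr rfl fun k _ => h1 k, ← Finset.mul_sum]
  by_cases h : ∀ u, C.wt u i.1 = C.wt u j.1
  · simp only [dif_pos h]
    rw [map_mul, MvPolynomial.eval_C, map_prod, mul_comm]
    congr 1
    rw [map_prod, ← Finset.prod_mul_distrib]
    refine Finset.prod_congr rfl fun u _ => ?_
    rw [map_prod, map_prod]
    have h2 : ∏ a : Fin (C.wt u j.1), (starRingEnd ℂ) (sig (x (cr u)) (x (ct u)) (j.2 u a)) =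
        ∏ a : Fin (C.wt u i.1), (starRingEnd ℂ) (sig (x (cr u)) (x (ct u))
          (j.2 u (Fin.cast (h u) a))) := by
      symm
      exact Fintype.prod_equiv (finCongr (h u)) _ _ (fun a => rfl)
    rw [h2, ← Finset.prod_mul_distrib]
    refine Finset.prod_congr rfl fun a _ => ?_
    rw [MvPolynomial.eval_X]
    rfl
  · simp only [dif_neg h, map_zero]
    have h2 : ∀ k, C.e p i.1 k * (starRingEnd ℂ) (C.e p j.1 k) = 0 := by
      intro k
      by_contra hne
      apply h
      intro u
      have h3 : C.e p i.1 k ≠ 0 := left_ne_zero_of_mul hne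
      have h4 : C.e p j.1 k ≠ 0 := by
        intro h5
        apply hne
        rw [h5, map_zero, mul_zero]
      rw [C.e_wt p i.1 k u h3, C.e_wt p j.1 k u h4]
    rw [Finset.sum_eq_zero fun k _ => h2 k, mul_zero]

/-- entrywise consequences for functions of the invariants -/
theorem poly_inv_tau (G : MvPolynomial (Inv m d) ℂ) (x : Co m d → ℝ) :
    pd cτ (fun y => G.eval (inv (toBs y))) x = 0 := by
  apply bridge1k_pd
  refine Filter.Eventually.of_forall fun t => ?_
  have h : inv (toBs (x + t • Pi.single cτ 1)) = inv (toBs x) := by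
    apply bridge1k_inv
    · intro p
      simp
    · intro u
      left
      constructor <;> simp
  show (MvPolynomial.eval (inv (toBs (x + t • Pi.single cτ 1)))) G = _
  rw [h]

theorem poly_inv_end (G : MvPolynomial (Inv m d) ℂ) (u : Sg m d) (x : Co m d → ℝ)
    (hx : x (cr u) < 0 ∨ 1 < x (cr u)) :
    pd (cr u) (fun y => G.eval (inv (toBs y))) x = 0 ∧
      pd (ct u) (fun y => G.eval (inv (toBs y))) x = 0 := by
  constructor
  · apply bridge1k_pd
    have hc : Continuous (fun t : ℝ => x (cr u) + t) := by fun_prop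
    have hev : ∀ᶠ t in 𝓝 (0 : ℝ), ((x (cr u) + t ≤ 0 ∧ x (cr u) ≤ 0) ∨
        (1 ≤ x (cr u) + t ∧ 1 ≤ x (cr u))) := by
      rcases hx with hx | hx
      · have h0 : (0 : ℝ) ∈ {t : ℝ | x (cr u) + t < 0} := by simpa using hx
        filter_upwards [(isOpen_lt hc continuous_const).mem_nhds h0] with t ht
        exact Or.inl ⟨le_of_lt ht, hx.le⟩
      · have h0 : (0 : ℝ) ∈ {t : ℝ | 1 < x (cr u) + t} := by simpa using hx
        filter_upwards [(isOpen_lt continuous_const hc).mem_nhds h0] with t ht
        exact Or.inr ⟨le_of_lt ht, hx.le⟩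
    filter_upwards [hev] with t ht
    have h : inv (toBs (x + t • Pi.single (cr u) 1)) = inv (toBs x) := by
      apply bridge1k_inv
      · intro p
        simp
      · intro u'
        by_cases hu : u' = u
        · subst hu
          right
          simpa using ht
        · left
          constructor
          · simp [hu]
          · simp
    show (MvPolynomial.eval (inv (toBs (x + t • Pi.single (cr u) 1)))) G = _
    rw [h]
  · apply bridge1k_pd
    refine Filter.Eventually.of_forall fun t => ?_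
    have h : inv (toBs (x + t • Pi.single (ct u) 1)) = inv (toBs x) := by
      apply bridge1k_inv
      · intro p
        simp
      · intro u'
        by_cases hu : u' = u
        · subst hu
          right
          rcases hx with hx | hx
          · left
            constructor
            · simpa using hx.le
            · exact hx.le
          · right
            constructor
            · simpa using hx.le
            · exact hx.le
        · left
          constructor
          · simp
          · simp [hu]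
    show (MvPolynomial.eval (inv (toBs (x + t • Pi.single (ct u) 1)))) G = _
    rw [h]

end Pool.Agent.MP_d8b6c2_an
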