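import Mathlib
import Pool.Agent.Lib.MP_d8b6c2_an.Bridge
import Pool.Agent.Lib.MP_d8b6c2_an.NoFld
import Pool.Agent.Lib.MP_d8b6c2_an.Bridge1k

/-! # From continuous equivariant fields to smooth fields: proofs -/

namespace Pool.Agent.MP_d8b6c2_an

open Finset Filter Topology
open scoped ContDiff

variable {J : ℕ} {m d : Fin J → ℕ} {n : Type*} [Fintype n] [DecidableEq n] {κ r0 s o : ℕ}
  {δ δ2 : ℝ}

variable (C : CField m d n κ r0 s o δ δ2)

private theorem bridge1l_nIcc_mono {n : Type*} [Fintype n] [DecidableEq n] {a b a' b' : ℝ}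
    (h : a' ≤ a) (h' : b ≤ b') (B : Matrix n n ℂ) : nIcc a b B ≤ nIcc a' b' B := by
  classical
  unfold nIcc
  apply Multiset.card_le_card
  apply Multiset.monotone_filter_right
  intro z hz
  exact ⟨h.trans hz.1, hz.2.trans h'⟩

private theorem bridge1l_nGe_mono {n : Type*} [Fintype n] [DecidableEq n] {a a' : ℝ}
    (h : a' ≤ a) (B : Matrix n n ℂ) : nGe a B ≤ nGe a' B := by
  classical
  unfold nGe
  apply Multiset.card_le_card
  apply Multiset.monotone_filter_right
  intro z hz
  exact h.trans hz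

private theorem bridge1l_nsq_dot {n : Type*} [Fintype n] (v : n → ℂ) :
    ((nsq v : ℝ) : ℂ) = star v ⬝ᵥ v := by
  unfold nsq dotProduct
  push_cast
  refine Finset.sum_congr rfl fun i _ => ?_
  rw [Pi.star_apply, Complex.star_def, ← Complex.normSq_eq_conj_mul_self,
    Complex.normSq_eq_norm_sq]
  push_cast
  rfl

private theorem bridge1l_nsq_nonneg {n : Type*} [Fintype n] (v : n → ℂ) : 0 ≤ nsq v :=
  Finset.sum_nonneg fun _ _ => sq_nonneg _

private theorem bridge1l_isom {n n' : Type*} [Fintype n] [DecidableEq n] [Fintype n']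
    {V : Matrix n' n ℂ} (hV : V.conjTranspose * V = 1) (v : n → ℂ) :
    nsq (V.mulVec v) = nsq v := by
  have h : ((nsq (V.mulVec v) : ℝ) : ℂ) = ((nsq v : ℝ) : ℂ) := by
    rw [bridge1l_nsq_dot, bridge1l_nsq_dot, Matrix.star_mulVec, ← Matrix.dotProduct_mulVec,
      Matrix.mulVec_mulVec, hV, Matrix.one_mulVec]
  exact_mod_cast h

/-- an orthogonal projection is a contraction -/
private theorem bridge1l_contr {n : Type*} [Fintype n] [DecidableEq n]
    {P : Matrix n n ℂ} (hP : P.IsHermitian) (hPP : P * P = P) (v : n → ℂ) :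
    nsq ((1 - P).mulVec v) ≤ nsq v := by
  have hc : ((nsq v : ℝ) : ℂ) = ((nsq ((1 - P).mulVec v) + nsq (P.mulVec v) : ℝ) : ℂ) := by
    push_cast
    rw [bridge1l_nsq_dot, bridge1l_nsq_dot, bridge1l_nsq_dot, Matrix.star_mulVec,
      Matrix.star_mulVec, ← Matrix.dotProduct_mulVec, ← Matrix.dotProduct_mulVec,
      Matrix.mulVec_mulVec, Matrix.mulVec_mulVec, Matrix.conjTranspose_sub,
      Matrix.conjTranspose_one, hP.eq, hPP, ← dotProduct_add, ← Matrix.add_mulVec]
    have : (1 - P) * (1 - P) + P = 1 := by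
      rw [mul_sub, sub_mul, sub_mul, hPP]
      simp
    rw [this, Matrix.one_mulVec]
  have h2 : nsq v = nsq ((1 - P).mulVec v) + nsq (P.mulVec v) := by exact_mod_cast hc
  have := bridge1l_nsq_nonneg (P.mulVec v)
  linarith

private theorem bridge1l_diff (G : MvPolynomial (Inv m d) ℂ) (x : Co m d → ℝ) :
    DifferentiableAt ℝ (fun y : Co m d → ℝ => G.eval (inv (toBs y))) x := by
  induction G using MvPolynomial.induction_on with
  | C a => simp
  | add p q hp hq =>
    simp only [map_add]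
    exact hp.add hq
  | mul_X p j hp =>
    have hj : DifferentiableAt ℝ (fun y : Co m d → ℝ => inv (toBs y) j) x :=
      ((inv_smooth j).differentiable (by simp)).differentiableAt
    simp only [map_mul, MvPolynomial.eval_X]
    exact hp.mul hj

private theorem bridge1l_conj {F : (Co m d → ℝ) → ℂ} {x : Co m d → ℝ} (j : Co m d)
    (hF : DifferentiableAt ℝ F x) (h : pd j F x = 0) :
    pd j (fun y => (starRingEnd ℂ) (F y)) x = 0 := by
  unfold pd at h ⊢
  have h1 : HasFDerivAt (fun y => (starRingEnd ℂ) (F y))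
      ((Complex.conjCLE : ℂ →L[ℝ] ℂ).comp (fderiv ℝ F x)) x :=
    (Complex.conjCLE : ℂ →L[ℝ] ℂ).hasFDerivAt.comp x hF.hasFDerivAt
  rw [h1.fderiv, ContinuousLinearMap.comp_apply, h]
  simp

private theorem bridge1l_bS {G : Nx C.wt → Nx C.wt → MvPolynomial (Inv m d) ℂ}
    (j : Co m d) (x : Co m d → ℝ)
    (h : ∀ i i', pd j (fun y => (G i i').eval (inv (toBs y))) x = 0) :
    pdm j (bS C G) x = 0 := by
  ext a b
  have h1 := bridge1l_conj j (bridge1l_diff (G b a) x) (h b a)
  have h2 := h a b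
  have hd1 := bridge1l_diff (G a b) x
  have hd2 : DifferentiableAt ℝ
      (fun y : Co m d → ℝ => (starRingEnd ℂ) ((G b a).eval (inv (toBs y)))) x :=
    (Complex.conjCLE : ℂ →L[ℝ] ℂ).differentiableAt.comp x (bridge1l_diff (G b a) x)
  change pd j (fun y : Co m d → ℝ => (1 / 2 : ℂ) * ((G a b).eval (inv (toBs y)) +
    (starRingEnd ℂ) ((G b a).eval (inv (toBs y))))) x = 0
  unfold pd at h1 h2 ⊢
  have h3 : HasFDerivAt (fun y : Co m d → ℝ => (1 / 2 : ℂ) * ((G a b).eval (inv (toBs y)) +
      (starRingEnd ℂ) ((G b a).eval (inv (toBs y)))))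
      ((1 / 2 : ℂ) • (fderiv ℝ (fun y : Co m d → ℝ => (G a b).eval (inv (toBs y))) x +
        fderiv ℝ (fun y : Co m d → ℝ => (starRingEnd ℂ) ((G b a).eval (inv (toBs y)))) x)) x :=
    (hd1.hasFDerivAt.add hd2.hasFDerivAt).const_mul _
  rw [h3.fderiv, _root_.smul_apply, _root_.add_apply, h1, h2]
  simp

/-- the smooth field, with slightly smaller window -/
theorem exists_fld : ∃ δ' δ2' : ℝ,
    Nonempty (Fld m d (Nx C.wt) κ r0 s o δ' δ2') := by
  classical
  have hδ := C.δ_pos
  have hlt := C.δ_lt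
  set ε : ℝ := (δ2 - δ) / 10 with hε
  have hε0 : 0 < ε := by rw [hε]; linarith
  obtain ⟨G, hG⟩ := exists_poly C (ε / (Fintype.card (Nx C.wt) + 1)) (by positivity)
  -- the operator norm bound
  have hnear : ∀ (x : Co m d → ℝ) (v : Nx C.wt → ℂ),
      nsq ((bS C G x - bV C (toBs x)).mulVec v) ≤ ε ^ 2 * nsq v := by
    intro x v
    apply nsq_le_of_entries hε0.le
    intro i j
    exact bS_near C hG x i j
  have hisom : ∀ x : Co m d → ℝ,
      (Vm C.wt (fun u => ((toBs x).2 u).1)).conjTranspose *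
        Vm C.wt (fun u => ((toBs x).2 u).1) = 1 := by
    intro x
    exact Vm_isom _ _ fun u => ((toBs x).2 u).2
  have hIcc : ∀ x : Co m d → ℝ, nIcc δ δ2 (bV C (toBs x)) = nIcc δ δ2 (C.b (toBs x)) := by
    intro x
    unfold bV
    exact nIcc_conj _ (hisom x) _ hδ
  have hGe : ∀ x : Co m d → ℝ, nGe δ (bV C (toBs x)) = nGe δ (C.b (toBs x)) := by
    intro x
    unfold bV
    exact nGe_conj _ (hisom x) _ hδ
  have hGe2 : ∀ x : Co m d → ℝ, nGe (δ + ε) (bS C G x) ≤ nGe δ (C.b (toBs x)) := by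
    intro x
    rw [← hGe x]
    have := nGe_pert (bS_herm C G x) (bV_herm C (toBs x)) hε0.le (hnear x) (δ + ε)
    exact this.trans (bridge1l_nGe_mono (by linarith) _)
  refine ⟨δ + ε, δ2 - 4 * ε, ⟨{
    b := bS C G
    Jf := JS C
    δ_lt := by rw [hε]; linarith
    b_smooth := bS_smooth C G
    b_herm := bS_herm C G
    b_cpt := bS_cpt C G
    b_tau := fun x => bridge1l_bS C _ x fun i i' => poly_inv_tau (G i i') x
    b_end := fun u x hx => ⟨bridge1l_bS C _ x fun i i' => (poly_inv_end (G i i') u x hx).1,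
      bridge1l_bS C _ x fun i i' => (poly_inv_end (G i i') u x hx).2⟩
    b_per := ?_
    J_smooth := JS_smooth C
    J_orth := JS_orth C
    J_orth' := fun p p' x h => JS_orth' C p p' x h
    J_aa := JS_aa C
    PJ_tau := ?_
    PJ_end := ?_
    PJ_per := ?_
    win := ?_
    le := fun x => (hGe2 x).trans (C.le _)
    hR := ?_
    cert := ?_ }⟩⟩
  · intro u x
    unfold bS
    rw [inv_per]
  · intro p x
    obtain ⟨H, hH⟩ := JS_proj C p
    ext a b
    change pd cτ (fun y => (JS C p y * (JS C p y).conjTranspose) a b) x = 0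
    simp_rw [hH]
    exact poly_inv_tau _ x
  · intro u p x hx
    obtain ⟨H, hH⟩ := JS_proj C p
    constructor
    · ext a b
      change pd (cr u) (fun y => (JS C p y * (JS C p y).conjTranspose) a b) x = 0
      simp_rw [hH]
      exact (poly_inv_end _ u x hx).1
    · ext a b
      change pd (ct u) (fun y => (JS C p y * (JS C p y).conjTranspose) a b) x = 0
      simp_rw [hH]
      exact (poly_inv_end _ u x hx).2
  · intro u p x
    obtain ⟨H, hH⟩ := JS_proj C p
    ext a b
    rw [hH, hH, inv_per]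
  · intro x
    have h1 := nIcc_pert (bS_herm C G x) (bV_herm C (toBs x)) hε0.le (hnear x) (δ + ε)
      (δ2 - 4 * ε)
    refine (h1.trans (bridge1l_nIcc_mono (a' := δ) (b' := δ2) (by linarith) (by linarith) _)).trans ?_
    rw [hIcc]
    exact C.win _
  · intro x hx
    refine lt_of_le_of_lt (hGe2 x) (C.hR _ (le_trans (Finset.card_le_card ?_) hx))
    intro p hp
    rw [Finset.mem_filter] at hp ⊢
    refine ⟨hp.1, ?_⟩
    by_contra hcon
    push Not at hcon
    apply hp.2
    change c0 (x (cu p)) = 0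
    unfold c0
    exact Real.smoothTransition.zero_of_nonpos (by linarith)
  · intro x ξ hξ
    set w : n → ℂ := ∑ p, (C.e p).mulVec (ξ p) with hw
    set V := Vm C.wt (fun u => ((toBs x).2 u).1) with hV
    have hVV : V.conjTranspose * V = 1 := hisom x
    have hJ : ∑ p, (JS C p x).mulVec (ξ p) = V.mulVec w := by
      rw [hw, Matrix.mulVec_sum]
      refine Finset.sum_congr rfl fun p _ => ?_
      rw [Matrix.mulVec_mulVec]
      rfl
    rw [hJ]
    set v := V.mulVec w with hv
    set P := sproj δ2 (bV C (toBs x)) with hP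
    set Q := sproj (δ2 - 4 * ε) (bS C G x) with hQ
    have hPV : P * V = V * sproj δ2 (C.b (toBs x)) := by
      rw [hP, bV]
      exact sproj_conj V hVV (C.b_herm _) (by linarith)
    have hcert := C.cert (toBs x) ξ (by
      intro p hp
      apply hξ
      by_contra hcon
      push Not at hcon
      apply hp
      change c0 (x (cu p)) = 1
      unfold c0
      exact Real.smoothTransition.one_of_one_le (by linarith))
    have h1 : 16 * nsq ((1 - P).mulVec v) ≤ nsq v := by
      have e1 : (1 - P).mulVec v = V.mulVec ((1 - sproj δ2 (C.b (toBs x))).mulVec w) := by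
        rw [hv, Matrix.mulVec_mulVec, Matrix.mulVec_mulVec, Matrix.sub_mul, Matrix.mul_sub, hPV,
          Matrix.one_mul, Matrix.mul_one]
      rw [e1, bridge1l_isom hVV, hv, bridge1l_isom hVV]
      exact hcert
    have h2 : nsq ((1 - Q).mulVec (P.mulVec v)) ≤ (1 / 4) ^ 2 * nsq v := by
      have := davis_kahan (bS_herm C G x) (bV_herm C (toBs x)) hε0.le (hnear x)
        (a := δ2 - 4 * ε) (b := δ2) (by linarith) v
      have e : ε / (δ2 - (δ2 - 4 * ε)) = 1 / 4 := by
        field_simp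
        ring
      rw [e] at this
      exact this
    have h3 : nsq ((1 - Q).mulVec ((1 - P).mulVec v)) ≤ nsq ((1 - P).mulVec v) :=
      bridge1l_contr (sproj_herm _ (bS_herm C G x)) (sproj_idem _ (bS_herm C G x)) _
    have h4 : (1 - Q).mulVec v = (1 - Q).mulVec (P.mulVec v) + (1 - Q).mulVec ((1 - P).mulVec v) := by
      rw [← Matrix.mulVec_add, ← Matrix.add_mulVec]
      simp
    have h5 := nsq_add_le ((1 - Q).mulVec (P.mulVec v)) ((1 - Q).mulVec ((1 - P).mulVec v))
    rw [← h4] at h5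
    have h0 := bridge1l_nsq_nonneg v
    have h6 : Real.sqrt (nsq ((1 - Q).mulVec (P.mulVec v))) ≤ 1 / 4 * Real.sqrt (nsq v) := by
      rw [Real.sqrt_le_left (by positivity), mul_pow, Real.sq_sqrt h0]
      exact h2
    have h7 : Real.sqrt (nsq ((1 - Q).mulVec ((1 - P).mulVec v))) ≤ 1 / 4 * Real.sqrt (nsq v) := by
      rw [Real.sqrt_le_left (by positivity), mul_pow, Real.sq_sqrt h0]
      linarith
    have h8 : Real.sqrt (nsq ((1 - Q).mulVec v)) ≤ 1 / 2 * Real.sqrt (nsq v) := by linarith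
    rw [Real.sqrt_le_left (by positivity), mul_pow, Real.sq_sqrt h0] at h8
    linarith

/-- MAIN TOPOLOGICAL THEOREM: there is no continuous equivariant field. -/
theorem no_field (M cap : Fin J → ℕ) (hd : ∀ t, d t = eexp M m t * cap t)
    (hM : ∀ t, ∑ u ∈ univ.filter (t < ·), d u < M t) (hcap : ∀ t, 0 < cap t)
    (ho : ∑ t, (κ : ℝ) * nlv m t / cap t ≤ o) (C : CField m d n κ r0 s o δ δ2) : False := by
  obtain ⟨δ', δ2', ⟨F⟩⟩ := exists_fld C
  exact no_fld M cap hd hM hcap ho F

end Pool.Agent.MP_d8b6c2_an
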