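import Mathlib
import Pool.Agent.Lib.MP_d8b6c2_an.Forms

/-! # Spectral projections of Hermitian matrices -/

namespace Pool.Agent.MP_d8b6c2_an

open Finset Filter Topology
open scoped ContDiff

variable {n : Type*} [Fintype n] [DecidableEq n]

/-- projection onto the span of the eigenvectors with eigenvalue `> c` -/
noncomputable def sproj (c : ℝ) (B : Matrix n n ℂ) : Matrix n n ℂ :=
  cfc (fun y : ℝ => if c < y then (1 : ℝ) else 0) B

open Classical in
/-- number of eigenvalues `≥ c` -/
noncomputable def nGe (c : ℝ) (B : Matrix n n ℂ) : ℕ :=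
  (B.charpoly.roots.filter fun z => c ≤ z.re).card

open Classical in
/-- number of eigenvalues in `[c, c']` -/
noncomputable def nIcc (c c' : ℝ) (B : Matrix n n ℂ) : ℕ :=
  (B.charpoly.roots.filter fun z => c ≤ z.re ∧ z.re ≤ c').card

/-- no eigenvalue in `[c, c']` -/
def Gap (c c' : ℝ) (B : Matrix n n ℂ) : Prop :=
  ∀ z ∈ B.charpoly.roots, ¬ (c ≤ z.re ∧ z.re ≤ c')

/-- squared norm of a vector -/
noncomputable def nsq {n : Type*} [Fintype n] (v : n → ℂ) : ℝ := ∑ i, ‖v i‖ ^ 2

end Pool.Agent.MP_d8b6c2_an
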