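import Mathlib
import Pool.Agent.Lib.MP_d8b6c2_an.Forms
import Pool.Agent.Lib.MP_d8b6c2_an.Spec0

/-! # Spectral projections of Hermitian matrices -/

namespace Pool.Agent.MP_d8b6c2_an

open Finset Filter Topology
open scoped ContDiff

variable {n : Type*} [Fintype n] [DecidableEq n]

private theorem speca_mul (f g : ℝ → ℝ) {B : Matrix n n ℂ} :
    cfc f B * cfc g B = cfc (fun y => f y * g y) B := by
  symm
  exact cfc_mul f g B (Matrix.finite_real_spectrum.continuousOn f)
    (Matrix.finite_real_spectrum.continuousOn g)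

theorem sproj_idem (c : ℝ) {B : Matrix n n ℂ} (hB : B.IsHermitian) :
    sproj c B * sproj c B = sproj c B := by
  unfold sproj
  rw [speca_mul]
  congr 1
  funext y
  split_ifs <;> simp

theorem sproj_herm (c : ℝ) {B : Matrix n n ℂ} (hB : B.IsHermitian) :
    (sproj c B).IsHermitian := by
  have h : IsSelfAdjoint (cfc (fun y : ℝ => if c < y then (1 : ℝ) else 0) B) :=
    cfc_predicate _ _
  exact h

theorem sproj_nest {c c' : ℝ} (h : c' ≤ c) {B : Matrix n n ℂ} (hB : B.IsHermitian) :
    sproj c B * sproj c' B = sproj c B ∧ sproj c' B * sproj c B = sproj c B := by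
  unfold sproj
  constructor
  · rw [speca_mul]
    congr 1
    funext y
    by_cases h1 : c < y
    · rw [if_pos h1, if_pos (lt_of_le_of_lt h h1)]
      norm_num
    · rw [if_neg h1]
      simp
  · rw [speca_mul]
    congr 1
    funext y
    by_cases h1 : c < y
    · rw [if_pos h1, if_pos (lt_of_le_of_lt h h1)]
      norm_num
    · rw [if_neg h1]
      simp

end Pool.Agent.MP_d8b6c2_an
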