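import Mathlib
import Pool.Agent.Lib.MP_d8b6c2_an.Forms
import Pool.Agent.Lib.MP_d8b6c2_an.Speca

/-! # Spectral projections of Hermitian matrices -/

namespace Pool.Agent.MP_d8b6c2_an

open Finset Filter Topology
open scoped ContDiff

variable {n : Type*} [Fintype n] [DecidableEq n]

theorem specb_rank (c : ℝ) {B : Matrix n n ℂ} (hB : B.IsHermitian) :
    (sproj c B).rank = (Finset.univ.filter fun i => c < hB.eigenvalues i).card := by
  unfold sproj
  rw [hB.cfc_eq, Matrix.IsHermitian.cfc]
  rw [Unitary.conjStarAlgAut_apply, ← Unitary.coe_star]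
  rw [Matrix.rank_mul_eq_left_of_isUnit_det _ _ (Matrix.UnitaryGroup.det_isUnit _),
    Matrix.rank_mul_eq_right_of_isUnit_det _ _ (Matrix.UnitaryGroup.det_isUnit _),
    Matrix.rank_diagonal, Fintype.card_subtype]
  congr 1
  ext i
  simp

theorem specb_nGe (c : ℝ) {B : Matrix n n ℂ} (hB : B.IsHermitian) :
    nGe c B = (Finset.univ.filter fun i => c ≤ hB.eigenvalues i).card := by
  classical
  unfold nGe
  rw [hB.roots_charpoly_eq_eigenvalues, Multiset.filter_map, Multiset.card_map]
  simp [Finset.card_def, Finset.filter]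

theorem specb_nIcc (c c' : ℝ) {B : Matrix n n ℂ} (hB : B.IsHermitian) :
    nIcc c c' B =
      (Finset.univ.filter fun i => c ≤ hB.eigenvalues i ∧ hB.eigenvalues i ≤ c').card := by
  classical
  unfold nIcc
  rw [hB.roots_charpoly_eq_eigenvalues, Multiset.filter_map, Multiset.card_map]
  simp [Finset.card_def, Finset.filter]

theorem rank_sproj_le {c c' : ℝ} (h : c ≤ c') {B : Matrix n n ℂ} (hB : B.IsHermitian) :
    (sproj c' B).rank ≤ nGe c B := by
  rw [specb_rank c' hB, specb_nGe c hB]
  refine Finset.card_le_card fun i hi => ?_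
  simp only [Finset.mem_filter, Finset.mem_univ, true_and] at hi ⊢
  linarith

theorem rank_sproj_le_add {c c1 c2 c' : ℝ} (h : c ≤ c1) (h' : c2 ≤ c') {B : Matrix n n ℂ}
    (hB : B.IsHermitian) : (sproj c1 B).rank ≤ (sproj c2 B).rank + nIcc c c' B := by
  rw [specb_rank c1 hB, specb_rank c2 hB, specb_nIcc c c' hB]
  refine (Finset.card_le_card fun i hi => ?_).trans (Finset.card_union_le _ _)
  simp only [Finset.mem_filter, Finset.mem_univ, true_and, Finset.mem_union] at hi ⊢
  rcases lt_or_ge c2 (hB.eigenvalues i) with h2 | h2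
  · exact Or.inl h2
  · exact Or.inr ⟨by linarith, by linarith⟩

end Pool.Agent.MP_d8b6c2_an
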