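import Mathlib
import Pool.Agent.Lib.MP_d8b6c2_an.Comb

/-! Combinatorics of labels: the class of a labelling. -/

namespace Pool.Agent.MP_d8b6c2_an

open Finset

variable {J : ℕ} {m : Fin J → ℕ} {κ : ℕ}

theorem pre_pre (s t : ℕ) (p : Pth m) : pre s (pre t p) = pre (min s t) p := by
  funext u
  by_cases h1 : (u : ℕ) < s <;> by_cases h2 : (u : ℕ) < t <;> simp [pre, h1, h2]

theorem pre_J (p : Pth m) : pre J p = p := by
  funext u
  simp [pre, u.isLt]

theorem pre_eq_iff (t : ℕ) (p q : Pth m) :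
    pre t p = pre t q ↔ ∀ s : Fin J, (s : ℕ) < t → p s = q s := by
  constructor
  · intro h s hs
    have := congrFun h s
    simpa [pre, hs] using this
  · intro h
    funext s
    by_cases hs : (s : ℕ) < t
    · simp [pre, hs, h s hs]
    · simp [pre, hs]

theorem cnt_mono (p : Fin κ → Pth m) {r r' : ℕ} (h : r ≤ r') (t : ℕ) (q : Pth m) :
    cnt r p t q ≤ cnt r' p t q := by
  unfold cnt
  refine card_le_card fun l hl => ?_
  obtain ⟨_, h1, h2⟩ := mem_filter.mp hl
  exact mem_filter.mpr ⟨mem_univ _, lt_of_lt_of_le h1 h, h2⟩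

theorem cnt_congr (p : Fin κ → Pth m) (r t : ℕ) {q q' : Pth m} (h : pre t q = pre t q') :
    cnt r p t q = cnt r p t q' := by
  unfold cnt
  rw [h]

theorem ovf_mono (cap : Fin J → ℕ) (p : Fin κ → Pth m) {r r' : ℕ} (h : r ≤ r') {t : Fin J}
    {q : Pth m} (ho : ovf cap r p t q) : ovf cap r' p t q :=
  lt_of_lt_of_le ho (cnt_mono p h t q)

theorem pres_mono (cap : Fin J → ℕ) (r0 : ℕ) (p : Fin κ → Pth m) {r r' : ℕ} (h : r ≤ r')
    {q : Pth m} (ho : pres cap r0 r p q) : pres cap r0 r' p q := by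
  rcases ho with ⟨t, ht⟩ | ho
  · exact Or.inl ⟨t, ovf_mono cap p h ht⟩
  · exact Or.inr (ho.trans (cnt_mono p h J q))

theorem dep_le (cap : Fin J → ℕ) (p : Fin κ → Pth m) (r : ℕ) (q : Pth m) : dep cap r p q ≤ J := by
  unfold dep
  exact (card_filter_le _ _).trans (by simp)

theorem comb1a_dep (P : Fin J → Prop) [DecidablePred P] (t : Fin J) :
    (t : ℕ) < (univ.filter fun t : Fin J => ∀ s : Fin J, s ≤ t → ¬ P s).card ↔
      ∀ s, s ≤ t → ¬ P s := by
  classical
  constructor
  · intro h s hs hP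
    have hsub : (univ.filter fun t : Fin J => ∀ s : Fin J, s ≤ t → ¬ P s) ⊆
        Finset.Iio t := by
      intro u hu
      rw [mem_Iio]
      by_contra hc
      exact (mem_filter.mp hu).2 s (hs.trans (not_lt.mp hc)) hP
    have := card_le_card hsub
    rw [Fin.card_Iio] at this
    omega
  · intro h
    have hsub : Finset.Iic t ⊆ (univ.filter fun t : Fin J => ∀ s : Fin J, s ≤ t → ¬ P s) := by
      intro u hu
      rw [mem_Iic] at hu
      exact mem_filter.mpr ⟨mem_univ _, fun s hs => h s (hs.trans hu)⟩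
    have := card_le_card hsub
    rw [Fin.card_Iic] at this
    omega

theorem lt_dep_iff (cap : Fin J → ℕ) (p : Fin κ → Pth m) (r : ℕ) (q : Pth m) (t : Fin J) :
    (t : ℕ) < dep cap r p q ↔ ∀ s, s ≤ t → ¬ ovf cap r p s q :=
  comb1a_dep (fun s => ovf cap r p s q) t

/-- the node at depth `dep` is overfull -/
theorem ovf_dep (cap : Fin J → ℕ) (p : Fin κ → Pth m) (r : ℕ) (q : Pth m)
    (h : dep cap r p q < J) : ovf cap r p ⟨dep cap r p q, h⟩ q := by
  by_contra hc
  have hall : ∀ s, s ≤ (⟨dep cap r p q, h⟩ : Fin J) → ¬ ovf cap r p s q := by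
    intro s hs
    rcases eq_or_lt_of_le hs with h1 | h1
    · rw [h1]; exact hc
    · have h2 : (s : ℕ) < dep cap r p q := h1
      exact (lt_dep_iff cap p r q s).mp h2 s le_rfl
  have := (lt_dep_iff cap p r q ⟨dep cap r p q, h⟩).mpr hall
  simp at this

end Pool.Agent.MP_d8b6c2_an
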