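import Mathlib
import Pool.Agent.Lib.MP_d8b6c2_an.Comb
import Pool.Agent.Lib.MP_d8b6c2_an.Comb1a

/-! Combinatorics of labels: the class of a labelling. -/

namespace Pool.Agent.MP_d8b6c2_an

open Finset

variable {J : ℕ} {m : Fin J → ℕ} {κ : ℕ}

theorem le_rmax {Rk : Finset ℕ} {r : ℕ} (h : r ∈ Rk) : r ≤ rmax Rk :=
  Finset.le_sup (f := id) h

theorem lt_rmax_iff (Rk : Finset ℕ) (l : ℕ) : l < rmax Rk ↔ ∃ r ∈ Rk, l < r := by
  unfold rmax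
  rw [Finset.lt_sup_iff]
  rfl

theorem entr_mem {Rk : Finset ℕ} {l : ℕ} (h : l < rmax Rk) : entr Rk l ∈ Rk ∧ l < entr Rk l := by
  obtain ⟨r, hr, hlr⟩ := (lt_rmax_iff Rk l).mp h
  have hne : (Rk.filter (l < ·)).Nonempty := ⟨r, mem_filter.mpr ⟨hr, hlr⟩⟩
  unfold entr
  rw [dif_pos hne]
  have := Finset.min'_mem _ hne
  exact mem_filter.mp this

theorem entr_le {Rk : Finset ℕ} {l r : ℕ} (hr : r ∈ Rk) (h : l < r) : entr Rk l ≤ r := by
  have hne : (Rk.filter (l < ·)).Nonempty := ⟨r, mem_filter.mpr ⟨hr, h⟩⟩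
  unfold entr
  rw [dif_pos hne]
  exact Finset.min'_le _ _ (mem_filter.mpr ⟨hr, h⟩)

theorem prv_le (Rk : Finset ℕ) (l : ℕ) : prv Rk l ≤ l := by
  unfold prv
  exact Finset.sup_le fun r hr => (mem_filter.mp hr).2

theorem prv_mem (Rk : Finset ℕ) (l : ℕ) : prv Rk l ∈ Rk ∨ prv Rk l = 0 := by
  unfold prv
  by_cases hne : (Rk.filter (· ≤ l)).Nonempty
  · left
    obtain ⟨r, hr, hrs⟩ := Finset.exists_mem_eq_sup _ hne (id : ℕ → ℕ)
    rw [hrs]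
    exact (mem_filter.mp hr).1
  · right
    rw [Finset.not_nonempty_iff_eq_empty.mp hne]
    simp

theorem le_prv {Rk : Finset ℕ} {l r : ℕ} (hr : r ∈ Rk) (h : r ≤ l) : r ≤ prv Rk l :=
  Finset.le_sup (f := id) (mem_filter.mpr ⟨hr, h⟩)

end Pool.Agent.MP_d8b6c2_an
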