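import Mathlib
import Pool.Agent.Lib.MP_d8b6c2_an.Comb
import Pool.Agent.Lib.MP_d8b6c2_an.Comb1b

/-! Combinatorics of labels: the class of a labelling. -/

namespace Pool.Agent.MP_d8b6c2_an

open Finset

variable {J : ℕ} {m : Fin J → ℕ} {κ : ℕ}

private theorem comb1c_ovf_congr (cap : Fin J → ℕ) (r : ℕ) (p : Fin κ → Pth m) (s : Fin J)
    {q q' : Pth m} (h : pre s q = pre s q') : ovf cap r p s q ↔ ovf cap r p s q' := by
  unfold ovf
  rw [cnt_congr p r s h]

private theorem comb1c_agree (cap : Fin J → ℕ) (Rk : Finset ℕ) {p p' : Fin κ → Pth m}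
    (h : Cls cap Rk p p') {r : ℕ} (hr : r ∈ Rk) (q : Pth m) {l : Fin κ} (hl : (l : ℕ) < r)
    (s : Fin J) (hs : ∀ s' : Fin J, s' < s → p l s' = q s')
    (ho : ∀ s' : Fin J, s' ≤ s → ¬ ovf cap r p s' q) : p' l s = p l s := by
  have hmax : (l : ℕ) < rmax Rk := (lt_rmax_iff Rk l).2 ⟨r, hr, hl⟩
  have he := entr_le hr hl
  have hlt : (s : ℕ) < ldep cap Rk p l := by
    unfold ldep
    rw [if_pos hmax, lt_dep_iff]
    intro s' hs' hov
    have h1 := ovf_mono cap p he hov
    refine ho s' hs' ((comb1c_ovf_congr cap r p s' ?_).1 h1)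
    rw [pre_eq_iff]
    intro s'' hs''
    refine hs s'' ?_
    rw [Fin.lt_def]
    exact lt_of_lt_of_le hs'' (Fin.le_def.1 hs')
  exact (pre_eq_iff _ _ _).1 (h l) s hlt

/-- Key count: for `r ∈ Rk`, if no node of depth `< t` on the way to `q` is overfull at rank `r`
then the node of depth `t` has the same count for every member of the class. Proof: let `l < r`.
If `pre t (p l) = pre t q` then no node of depth `< t` on the way to `p l` is overfull at `r`, hence
(by `ovf_mono`, `entr Rk l ≤ r`) at `entr Rk l`; so `t ≤ ldep` and `pre t (p' l) = pre t (p l)`.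
If `pre t (p' l) = pre t q` but `pre t (p l) ≠ pre t q`, let `s` be the first place where `p l` and
`q` differ; then `s < ldep`, so `p' l` and `p l` agree at `s`, a contradiction. -/
theorem cnt_cls (cap : Fin J → ℕ) (Rk : Finset ℕ) {p p' : Fin κ → Pth m} (h : Cls cap Rk p p')
    {r : ℕ} (hr : r ∈ Rk) (t : ℕ) (q : Pth m)
    (ho : ∀ s : Fin J, (s : ℕ) < t → ¬ ovf cap r p s q) :
    cnt r p' t q = cnt r p t q := by
  unfold cnt
  congr 1
  ext l
  simp only [mem_filter, mem_univ, true_and]
  refine and_congr_right fun hl => ?_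
  rw [pre_eq_iff, pre_eq_iff]
  constructor
  · intro hp' 
    have key : ∀ k : ℕ, ∀ s : Fin J, (s : ℕ) = k → (s : ℕ) < t → p l s = q s := by
      intro k
      induction k using Nat.strong_induction_on with
      | _ k ih =>
        intro s hsk hst
        have h1 := comb1c_agree cap Rk h hr q hl s (fun s' hs' => ih s' (by
          rw [← hsk]; exact hs') s' rfl (lt_trans hs' hst))
          (fun s' hs' => ho s' (lt_of_le_of_lt (Fin.le_def.1 hs') hst))
        rw [← h1]
        exact hp' s hst
    exact fun s hs => key s s rfl hs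
  · intro hp s hs
    rw [comb1c_agree cap Rk h hr q hl s (fun s' hs' => hp s' (lt_trans hs' hs))
      (fun s' hs' => ho s' (lt_of_le_of_lt (Fin.le_def.1 hs') hs))]
    exact hp s hs

/-- hence the first overfull nodes agree -/
theorem novf_cls (cap : Fin J → ℕ) (Rk : Finset ℕ) {p p' : Fin κ → Pth m} (h : Cls cap Rk p p')
    {r : ℕ} (hr : r ∈ Rk) (t : Fin J) (q : Pth m) :
    (∀ s, s ≤ t → ¬ ovf cap r p' s q) ↔ (∀ s, s ≤ t → ¬ ovf cap r p s q) := by
  constructor
  · intro hp'
    have key : ∀ k : ℕ, ∀ s : Fin J, (s : ℕ) = k → s ≤ t → ¬ ovf cap r p s q := by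
      intro k
      induction k using Nat.strong_induction_on with
      | _ k ih =>
        intro s hsk hst
        have h1 := cnt_cls cap Rk h hr s q (fun s' hs' => ih s' (by rw [← hsk]; exact hs') s' rfl
          (le_trans (le_of_lt (Fin.lt_def.2 hs')) hst))
        have h2 := hp' s hst
        unfold ovf at h2 ⊢
        rwa [h1] at h2
    exact fun s hs => key s s rfl hs
  · intro hp s hs
    have h1 := cnt_cls cap Rk h hr s q (fun s' hs' => hp s'
      (le_trans (le_of_lt (Fin.lt_def.2 hs')) hs))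
    have h2 := hp s hs
    unfold ovf at h2 ⊢
    rwa [h1]

theorem ldep_cls (cap : Fin J → ℕ) (Rk : Finset ℕ) {p p' : Fin κ → Pth m} (h : Cls cap Rk p p')
    (l : Fin κ) : ldep cap Rk p' l = ldep cap Rk p l := by
  by_cases hmax : (l : ℕ) < rmax Rk
  · have hl := h l
    unfold ldep at hl ⊢
    rw [if_pos hmax] at hl
    rw [if_pos hmax, if_pos hmax]
    set e := entr Rk l with he
    have hemem : e ∈ Rk := (entr_mem hmax).1
    have hag := (pre_eq_iff _ _ _).1 hl
    have hpre : ∀ s : ℕ, s ≤ dep cap e p (p l) → pre s (p' l) = pre s (p l) := by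
      intro s hs
      rw [pre_eq_iff]
      intro s' hs'
      exact hag s' (lt_of_lt_of_le hs' hs)
    have key : ∀ t : Fin J, (t : ℕ) < dep cap e p' (p' l) ↔ (t : ℕ) < dep cap e p (p l) := by
      intro t
      rw [lt_dep_iff, novf_cls cap Rk h hemem t (p' l)]
      constructor
      · intro ht
        by_contra hcon
        push Not at hcon
        have hJ : dep cap e p (p l) < J := lt_of_le_of_lt hcon t.2
        have h1 := ovf_dep cap p e (p l) hJ
        refine ht ⟨dep cap e p (p l), hJ⟩ (Fin.le_def.2 hcon) ?_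
        refine (comb1c_ovf_congr cap e p ⟨dep cap e p (p l), hJ⟩ ?_).2 h1
        exact hpre _ le_rfl
      · intro ht s hs hov
        have h1 := (lt_dep_iff cap p e (p l) t).1 ht s hs
        refine h1 ((comb1c_ovf_congr cap e p s ?_).1 hov)
        exact hpre _ (le_of_lt (lt_of_le_of_lt (Fin.le_def.1 hs) ht))
    refine le_antisymm ?_ ?_
    · by_contra hcon
      push Not at hcon
      have hJ : dep cap e p (p l) < J := lt_of_lt_of_le hcon (dep_le cap p' e (p' l))
      have := (key ⟨dep cap e p (p l), hJ⟩).1 hcon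
      exact lt_irrefl _ this
    · by_contra hcon
      push Not at hcon
      have hJ : dep cap e p' (p' l) < J := lt_of_lt_of_le hcon (dep_le cap p e (p l))
      have := (key ⟨dep cap e p' (p' l), hJ⟩).2 hcon
      exact lt_irrefl _ this
  · unfold ldep
    rw [if_neg hmax, if_neg hmax]

theorem pres_cls (cap : Fin J → ℕ) (r0 : ℕ) (Rk : Finset ℕ) {p p' : Fin κ → Pth m}
    (h : Cls cap Rk p p') {r : ℕ} (hr : r ∈ Rk) (q : Pth m) :
    pres cap r0 r p' q ↔ pres cap r0 r p q := by
  unfold pres
  by_cases h1 : ∃ t, ovf cap r p t q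
  · have h2 : ∃ t, ovf cap r p' t q := by
      obtain ⟨t, ht⟩ := h1
      by_contra hcon
      push Not at hcon
      exact (novf_cls cap Rk h hr t q).1 (fun s _ => hcon s) t le_rfl ht
    exact ⟨fun _ => Or.inl h1, fun _ => Or.inl h2⟩
  · have h3 : ∀ t, ¬ ovf cap r p t q := fun t ht => h1 ⟨t, ht⟩
    have h2 : ¬ ∃ t, ovf cap r p' t q := by
      rintro ⟨t, ht⟩
      exact (novf_cls cap Rk h hr t q).2 (fun s _ => h3 s) t le_rfl ht
    rw [cnt_cls cap Rk h hr J q (fun s _ => h3 s)]
    simp [h1, h2]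

end Pool.Agent.MP_d8b6c2_an
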