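import Mathlib
import Pool.Agent.Lib.MP_d8b6c2_an.Comb
import Pool.Agent.Lib.MP_d8b6c2_an.Comb1c

/-! Combinatorics of labels: the class of a labelling. -/

namespace Pool.Agent.MP_d8b6c2_an

open Finset

variable {J : ℕ} {m : Fin J → ℕ} {κ : ℕ}

theorem cls_refl (cap : Fin J → ℕ) (Rk : Finset ℕ) (p : Fin κ → Pth m) : Cls cap Rk p p :=
  fun _ => rfl

theorem cls_symm (cap : Fin J → ℕ) (Rk : Finset ℕ) {p p' : Fin κ → Pth m}
    (h : Cls cap Rk p p') : Cls cap Rk p' p := by
  intro l
  rw [ldep_cls cap Rk h l]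
  exact (h l).symm

theorem cls_trans (cap : Fin J → ℕ) (Rk : Finset ℕ) {p p' p'' : Fin κ → Pth m}
    (h : Cls cap Rk p p') (h' : Cls cap Rk p' p'') : Cls cap Rk p p'' := by
  intro l
  have h2 := h' l
  rw [ldep_cls cap Rk h l] at h2
  exact h2.trans (h l)

/-- the canonical representative of a class -/
theorem can_spec (cap : Fin J → ℕ) (Rk : Finset ℕ) (p : Fin κ → Pth m) :
    IsCan cap Rk (fun l => pre (ldep cap Rk p l) (p l)) ∧
      Cls cap Rk p (fun l => pre (ldep cap Rk p l) (p l)) := by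
  have hc : Cls cap Rk p (fun l => pre (ldep cap Rk p l) (p l)) := by
    intro l
    show pre (ldep cap Rk p l) (pre (ldep cap Rk p l) (p l)) = _
    rw [pre_pre, min_self]
  refine ⟨?_, hc⟩
  intro l
  rw [ldep_cls cap Rk hc l]
  show pre (ldep cap Rk p l) (pre (ldep cap Rk p l) (p l)) = _
  rw [pre_pre, min_self]

theorem can_unique (cap : Fin J → ℕ) (Rk : Finset ℕ) {p p' : Fin κ → Pth m}
    (h : Cls cap Rk p p') (hp : IsCan cap Rk p) (hp' : IsCan cap Rk p') : p = p' := by
  funext l
  have h1 := hp' l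
  rw [ldep_cls cap Rk h l, h l, hp l] at h1
  exact h1

/-- the number of lines refined at a node is at most the capacity: all these lines enter at ranks
`≤ r`, the largest of their entering ranks, and the node is not overfull at rank `r` -/
theorem rho_le (cap : Fin J → ℕ) (Rk : Finset ℕ) (p : Fin κ → Pth m) (t : Fin J) (q : Pth m) :
    rho cap Rk p t q ≤ cap t := by
  unfold rho
  set S := univ.filter fun l : Fin κ => (t : ℕ) < ldep cap Rk p l ∧ pre t (p l) = pre t q with hS
  rcases S.eq_empty_or_nonempty with h0 | hne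
  · rw [h0]; simp
  · obtain ⟨l0, hl0, hmax⟩ := S.exists_max_image (fun l : Fin κ => entr Rk (l : ℕ)) hne
    have key : ∀ l ∈ S, (l : ℕ) < entr Rk (l : ℕ) ∧ pre t (p l) = pre t q ∧
        ¬ ovf cap (entr Rk (l : ℕ)) p t q := by
      intro l hl
      rw [hS, Finset.mem_filter] at hl
      obtain ⟨_, hlt, hpre⟩ := hl
      by_cases hr : (l : ℕ) < rmax Rk
      · refine ⟨(entr_mem hr).2, hpre, ?_⟩
        unfold ldep at hlt
        rw [if_pos hr, lt_dep_iff] at hlt
        have h2 := hlt t le_rfl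
        unfold ovf at h2 ⊢
        rw [cnt_congr p (entr Rk (l : ℕ)) (t : ℕ) hpre] at h2
        exact h2
      · unfold ldep at hlt
        rw [if_neg hr] at hlt
        omega
    have hnov := (key l0 hl0).2.2
    unfold ovf at hnov
    have hle : S.card ≤ cnt (entr Rk (l0 : ℕ)) p t q := by
      unfold cnt
      apply Finset.card_le_card
      intro l hl
      rw [Finset.mem_filter]
      refine ⟨Finset.mem_univ _, ?_, (key l hl).2.1⟩
      exact lt_of_lt_of_le (key l hl).1 (hmax l hl)
    omega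

end Pool.Agent.MP_d8b6c2_an
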