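import Mathlib
import Pool.Agent.Lib.MP_d8b6c2_an.Comb
import Pool.Agent.Lib.MP_d8b6c2_an.Comb1d

/-! Combinatorics of labels: the class of a labelling. -/

namespace Pool.Agent.MP_d8b6c2_an

open Finset

variable {J : ℕ} {m : Fin J → ℕ} {κ : ℕ}

private theorem comb1e_lt_rmax_iff (Rk : Finset ℕ) (l : ℕ) : l < rmax Rk ↔ 0 < entr Rk l := by
  constructor
  · intro h
    exact lt_of_le_of_lt (Nat.zero_le _) (entr_mem h).2
  · intro h
    unfold entr at h
    split_ifs at h with h1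
    · obtain ⟨r, hr⟩ := h1
      rw [Finset.mem_filter] at hr
      exact (lt_rmax_iff Rk l).2 ⟨r, hr.1, hr.2⟩
    · exact absurd h (lt_irrefl _)

private theorem comb1e_lt_iff {Rk : Finset ℕ} {l r : ℕ} (hr : r ∈ Rk) :
    l < r ↔ 0 < entr Rk l ∧ entr Rk l ≤ r := by
  constructor
  · intro h
    exact ⟨(comb1e_lt_rmax_iff Rk l).1 ((lt_rmax_iff Rk l).2 ⟨r, hr, h⟩), entr_le hr h⟩
  · rintro ⟨h1, h2⟩
    exact lt_of_lt_of_le (entr_mem ((comb1e_lt_rmax_iff Rk l).2 h1)).2 h2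

private theorem comb1e_cnt {Rk : Finset ℕ} (p : Fin κ → Pth m) (σ : Equiv.Perm (Fin κ))
    (hσ : ∀ l : Fin κ, entr Rk (σ l) = entr Rk l) {r : ℕ} (hr : r ∈ Rk) (t : ℕ) (q : Pth m) :
    cnt r (fun l => p (σ l)) t q = cnt r p t q := by
  unfold cnt
  refine Finset.card_bij' (fun l _ => σ l) (fun l _ => σ.symm l) ?_ ?_ ?_ ?_
  · intro l hl
    rw [Finset.mem_filter] at hl ⊢
    refine ⟨Finset.mem_univ _, ?_, hl.2.2⟩
    rw [comb1e_lt_iff hr, hσ l, ← comb1e_lt_iff hr]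
    exact hl.2.1
  · intro l hl
    rw [Finset.mem_filter] at hl ⊢
    have h1 := hσ (σ.symm l)
    rw [Equiv.apply_symm_apply] at h1
    refine ⟨Finset.mem_univ _, ?_, ?_⟩
    · rw [comb1e_lt_iff hr, ← h1, ← comb1e_lt_iff hr]
      exact hl.2.1
    · show pre t (p (σ (σ.symm l))) = _
      rw [Equiv.apply_symm_apply]
      exact hl.2.2
  · intro l _
    exact σ.symm_apply_apply l
  · intro l _
    exact σ.apply_symm_apply l

private theorem comb1e_ovf (cap : Fin J → ℕ) {Rk : Finset ℕ} (p : Fin κ → Pth m)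
    (σ : Equiv.Perm (Fin κ)) (hσ : ∀ l : Fin κ, entr Rk (σ l) = entr Rk l) {r : ℕ} (hr : r ∈ Rk)
    (t : Fin J) (q : Pth m) : ovf cap r (fun l => p (σ l)) t q ↔ ovf cap r p t q := by
  unfold ovf
  rw [comb1e_cnt p σ hσ hr]

/-- relabelling the lines by a permutation preserving the pieces -/
theorem ldep_perm (cap : Fin J → ℕ) (Rk : Finset ℕ) (p : Fin κ → Pth m) (σ : Equiv.Perm (Fin κ))
    (hσ : ∀ l : Fin κ, entr Rk (σ l) = entr Rk l) (l : Fin κ) :
    ldep cap Rk (fun l => p (σ l)) l = ldep cap Rk p (σ l) := by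
  unfold ldep
  by_cases h : (l : ℕ) < rmax Rk
  · have h' : ((σ l : Fin κ) : ℕ) < rmax Rk := by
      rw [comb1e_lt_rmax_iff, hσ l, ← comb1e_lt_rmax_iff]
      exact h
    rw [if_pos h, if_pos h', hσ l]
    unfold dep
    congr 1
    ext t
    rw [Finset.mem_filter, Finset.mem_filter]
    refine and_congr_right fun _ => forall_congr' fun s => imp_congr_right fun _ => not_congr ?_
    exact comb1e_ovf cap p σ hσ (entr_mem h).1 s _
  · have h' : ¬ ((σ l : Fin κ) : ℕ) < rmax Rk := by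
      rw [comb1e_lt_rmax_iff, hσ l, ← comb1e_lt_rmax_iff]
      exact h
    rw [if_neg h, if_neg h']

theorem pres_perm (cap : Fin J → ℕ) (r0 : ℕ) (Rk : Finset ℕ) (p : Fin κ → Pth m)
    (σ : Equiv.Perm (Fin κ)) (hσ : ∀ l : Fin κ, entr Rk (σ l) = entr Rk l) {r : ℕ} (hr : r ∈ Rk)
    (q : Pth m) : pres cap r0 r (fun l => p (σ l)) q ↔ pres cap r0 r p q := by
  unfold pres
  rw [comb1e_cnt p σ hσ hr]
  exact or_congr_left (exists_congr fun t => comb1e_ovf cap p σ hσ hr t q)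

end Pool.Agent.MP_d8b6c2_an
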