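import Mathlib
import Pool.Agent.Lib.MP_d8b6c2_an.Comb
import Pool.Agent.Lib.MP_d8b6c2_an.Comb1e

/-! Combinatorics of labels: the class of a labelling. -/

namespace Pool.Agent.MP_d8b6c2_an

open Finset

variable {J : ℕ} {m : Fin J → ℕ} {κ : ℕ}

theorem comb1f_card_pre (t : Fin J) (p : Pth m) :
    (univ.filter fun q : Pth m => pre t p = pre t q).card = nlv m t := by
  classical
  have h : (univ.filter fun q : Pth m => pre t p = pre t q) =
      Fintype.piFinset (fun s : Fin J => if s < t then {p s} else (univ : Finset (Fin (m s + 1)))) := by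
    ext q
    simp only [mem_filter, mem_univ, true_and, Fintype.mem_piFinset]
    constructor
    · intro hq s
      have := congrFun hq s
      by_cases hs : s < t
      · have hs' : (s : ℕ) < t := hs
        simp only [pre, hs', if_true] at this
        simp [hs, this]
      · simp [hs]
    · intro hq
      funext s
      by_cases hs : s < t
      · have hs' : (s : ℕ) < t := hs
        have := hq s
        simp only [hs, if_true, mem_singleton] at this
        simp [pre, hs', this]
      · have hs' : ¬ (s : ℕ) < t := hs
        simp [pre, hs']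
  rw [h, Fintype.card_piFinset, nlv, prod_filter]
  refine prod_congr rfl fun s _ => ?_
  by_cases hs : s < t
  · simp [hs, not_le.mpr hs]
  · simp [hs, not_lt.mp hs]

theorem comb1f_one (cap : Fin J → ℕ) (p : Fin κ → Pth m) (r : ℕ) (t : Fin J) :
    (univ.filter fun q : Pth m => ovf cap r p t q).card * cap t ≤ κ * nlv m t := by
  classical
  calc (univ.filter fun q : Pth m => ovf cap r p t q).card * cap t
      = ∑ q ∈ univ.filter (fun q : Pth m => ovf cap r p t q), cap t := by
        rw [sum_const, smul_eq_mul]
    _ ≤ ∑ q ∈ univ.filter (fun q : Pth m => ovf cap r p t q), cnt r p t q := by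
        refine sum_le_sum fun q hq => ?_
        exact le_of_lt (mem_filter.mp hq).2
    _ ≤ ∑ q : Pth m, cnt r p t q := sum_le_univ_sum_of_nonneg fun _ => Nat.zero_le _
    _ ≤ ∑ q : Pth m, ∑ l : Fin κ, if pre t (p l) = pre t q then 1 else 0 := by
        refine sum_le_sum fun q _ => ?_
        rw [cnt, card_filter]
        refine sum_le_sum fun l _ => ?_
        by_cases h1 : pre t (p l) = pre t q
        · by_cases h2 : (l : ℕ) < r <;> simp [h1, h2]
        · simp [h1]
    _ = ∑ l : Fin κ, ∑ q : Pth m, if pre t (p l) = pre t q then 1 else 0 := sum_comm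
    _ = ∑ l : Fin κ, nlv m t := by
        refine sum_congr rfl fun l _ => ?_
        rw [← card_filter, comb1f_card_pre]
    _ = κ * nlv m t := by simp

/-- at most `∑ t, κ * nlv m t / cap t` labels lie below an overfull node -/
theorem card_ovf_le (cap : Fin J → ℕ) (hcap : ∀ t, 0 < cap t) (p : Fin κ → Pth m) (r : ℕ) :
    ((univ.filter fun q : Pth m => ∃ t, ovf cap r p t q).card : ℝ) ≤
      ∑ t, (κ : ℝ) * nlv m t / cap t := by
  classical
  have h1 : (univ.filter fun q : Pth m => ∃ t, ovf cap r p t q) ⊆
      univ.biUnion fun t : Fin J => univ.filter fun q : Pth m => ovf cap r p t q := by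
    intro q hq
    obtain ⟨t, ht⟩ := (mem_filter.mp hq).2
    exact mem_biUnion.mpr ⟨t, mem_univ _, mem_filter.mpr ⟨mem_univ _, ht⟩⟩
  have h2 : (univ.filter fun q : Pth m => ∃ t, ovf cap r p t q).card ≤
      ∑ t : Fin J, (univ.filter fun q : Pth m => ovf cap r p t q).card :=
    (card_le_card h1).trans card_biUnion_le
  calc ((univ.filter fun q : Pth m => ∃ t, ovf cap r p t q).card : ℝ)
      ≤ ((∑ t : Fin J, (univ.filter fun q : Pth m => ovf cap r p t q).card : ℕ) : ℝ) := by
        exact_mod_cast h2
    _ = ∑ t : Fin J, ((univ.filter fun q : Pth m => ovf cap r p t q).card : ℝ) := by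
        push_cast; rfl
    _ ≤ ∑ t, (κ : ℝ) * nlv m t / cap t := by
        refine sum_le_sum fun t _ => ?_
        have hc : (0 : ℝ) < cap t := by exact_mod_cast hcap t
        rw [le_div_iff₀ hc]
        exact_mod_cast comb1f_one cap p r t

end Pool.Agent.MP_d8b6c2_an
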