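import Mathlib
import Pool.Agent.Lib.MP_d8b6c2_an.Comb
import Pool.Agent.Lib.MP_d8b6c2_an.Comb1f

/-! Combinatorics of labels: the class of a labelling. -/

namespace Pool.Agent.MP_d8b6c2_an

open Finset

variable {J : ℕ} {m : Fin J → ℕ} {κ : ℕ}

theorem comb1g_card_Ico (r r' : ℕ) (s : Finset (Fin κ)) (hs : ∀ l ∈ s, r ≤ (l : ℕ) ∧ (l : ℕ) < r') :
    s.card ≤ r' - r := by
  have h : (s.map Fin.valEmbedding).card ≤ (Finset.Ico r r').card := by
    refine card_le_card fun x hx => ?_
    obtain ⟨l, hl, rfl⟩ := mem_map.mp hx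
    exact mem_Ico.mpr (hs l hl)
  simpa using h

/-- at most `r' - r` labels which are not below an overfull node become present between the ranks
`r` and `r'` -/
theorem card_new_le (cap : Fin J → ℕ) (r0 : ℕ) (p : Fin κ → Pth m) {r r' : ℕ} (h : r ≤ r') :
    (univ.filter fun q : Pth m => (∀ t, ¬ ovf cap r' p t q) ∧ pres cap r0 r' p q ∧
      ¬ pres cap r0 r p q).card ≤ r' - r := by
  classical
  have key : ∀ q : Pth m, q ∈ (univ.filter fun q : Pth m => (∀ t, ¬ ovf cap r' p t q) ∧
      pres cap r0 r' p q ∧ ¬ pres cap r0 r p q) →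
      ∃ l : Fin κ, (r ≤ (l : ℕ) ∧ (l : ℕ) < r') ∧ p l = q := by
    intro q hq
    obtain ⟨h1, h2, h3⟩ := (mem_filter.mp hq).2
    have h4 : r0 ≤ cnt r' p J q := by
      rcases h2 with ⟨t, ht⟩ | h2
      · exact absurd ht (h1 t)
      · exact h2
    have h5 : cnt r p J q < r0 := by
      by_contra hc
      exact h3 (Or.inr (not_lt.mp hc))
    by_contra hne
    push Not at hne
    have h6 : cnt r' p J q ≤ cnt r p J q := by
      unfold cnt
      refine card_le_card fun l hl => ?_
      obtain ⟨_, hl1, hl2⟩ := mem_filter.mp hl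
      refine mem_filter.mpr ⟨mem_univ _, ?_, hl2⟩
      by_contra hlr
      refine hne l ⟨not_lt.mp hlr, hl1⟩ ?_
      rwa [pre_J, pre_J] at hl2
    omega
  calc (univ.filter fun q : Pth m => (∀ t, ¬ ovf cap r' p t q) ∧ pres cap r0 r' p q ∧
      ¬ pres cap r0 r p q).card
      ≤ ((univ.filter fun l : Fin κ => r ≤ (l : ℕ) ∧ (l : ℕ) < r').image p).card := by
        refine card_le_card fun q hq => ?_
        obtain ⟨l, hl, hlq⟩ := key q hq
        exact mem_image.mpr ⟨l, mem_filter.mpr ⟨mem_univ _, hl⟩, hlq⟩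
    _ ≤ (univ.filter fun l : Fin κ => r ≤ (l : ℕ) ∧ (l : ℕ) < r').card := card_image_le
    _ ≤ r' - r := comb1g_card_Ico r r' _ fun l hl => (mem_filter.mp hl).2

/-- if all labels outside the set of labels below an overfull node are present then there are
many lines -/
theorem card_lines_ge (cap : Fin J → ℕ) (r0 : ℕ) (p : Fin κ → Pth m) (r o : ℕ)
    (ho : (univ.filter fun q : Pth m => ∃ t, ovf cap r p t q).card ≤ o)
    (hp : ∀ q, pres cap r0 r p q) :
    r0 * (Fintype.card (Pth m) - o) ≤ r := by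
  classical
  have h1 : Fintype.card (Pth m) - o ≤
      (univ.filter fun q : Pth m => ¬ ∃ t, ovf cap r p t q).card := by
    have := card_filter_add_card_filter_not (s := (univ : Finset (Pth m)))
      (fun q : Pth m => ∃ t, ovf cap r p t q)
    rw [card_univ] at this
    omega
  have h2 : ∑ q : Pth m, cnt r p J q ≤ r := by
    calc ∑ q : Pth m, cnt r p J q
        = ∑ q : Pth m, ∑ l : Fin κ, if ((l : ℕ) < r ∧ pre J (p l) = pre J q) then 1 else 0 := by
          refine sum_congr rfl fun q _ => ?_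
          rw [cnt, card_filter]
      _ = ∑ l : Fin κ, ∑ q : Pth m, if ((l : ℕ) < r ∧ pre J (p l) = pre J q) then 1 else 0 :=
          sum_comm
      _ ≤ ∑ l : Fin κ, if (l : ℕ) < r then 1 else 0 := by
          refine sum_le_sum fun l _ => ?_
          by_cases hl : (l : ℕ) < r
          · simp [hl, pre_J]
          · simp [hl]
      _ = (univ.filter fun l : Fin κ => (l : ℕ) < r).card := by rw [card_filter]
      _ ≤ r - 0 := comb1g_card_Ico 0 r _ fun l hl => ⟨Nat.zero_le _, (mem_filter.mp hl).2⟩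
      _ = r := by simp
  calc r0 * (Fintype.card (Pth m) - o)
      ≤ r0 * (univ.filter fun q : Pth m => ¬ ∃ t, ovf cap r p t q).card :=
        Nat.mul_le_mul_left _ h1
    _ = ∑ q ∈ univ.filter (fun q : Pth m => ¬ ∃ t, ovf cap r p t q), r0 := by
        rw [sum_const, smul_eq_mul, mul_comm]
    _ ≤ ∑ q ∈ univ.filter (fun q : Pth m => ¬ ∃ t, ovf cap r p t q), cnt r p J q := by
        refine sum_le_sum fun q hq => ?_
        rcases hp q with h | h
        · exact absurd h (mem_filter.mp hq).2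
        · exact h
    _ ≤ ∑ q : Pth m, cnt r p J q := sum_le_univ_sum_of_nonneg fun _ => Nat.zero_le _
    _ ≤ r := h2

end Pool.Agent.MP_d8b6c2_an
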