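import Mathlib
import Pool.Agent.Lib.MP_d8b6c2_an.Ev
import Pool.Agent.Lib.MP_d8b6c2_an.Poly1
import Pool.Agent.Lib.MP_d8b6c2_an.MD2

/-! Independence of the value on the chain; certified labels; total mass. -/

namespace Pool.Agent.MP_d8b6c2_an

open Finset

variable {n : Type*} [Fintype n] [DecidableEq n]
variable {R : Type*} [CommRing R] [Algebra ℂ R]
variable {J : ℕ} {m : Fin J → ℕ} {κ : ℕ}

theorem cmat_mul {n' n'' : Type*} [Fintype n'] (P : Matrix n n' ℂ) (Q : Matrix n' n'' ℂ) :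
    (cmat (P * Q) : Matrix n n'' R) = cmat P * cmat Q := by
  unfold cmat
  rw [Matrix.map_mul]
  rfl

theorem cmat_sub {n' : Type*} (P Q : Matrix n n' ℂ) :
    (cmat (P - Q) : Matrix n n' R) = cmat P - cmat Q := by
  ext i j
  simp [cmat]

private def ev1a_equiv (a b κ : ℕ) (h : a ≤ b) :
    ({l : Fin κ // (l : ℕ) < a} ⊕ {l : Fin κ // a ≤ (l : ℕ) ∧ (l : ℕ) < b}) ≃
      {l : Fin κ // (l : ℕ) < b} where
  toFun := Sum.elim (fun l => ⟨l.1, lt_of_lt_of_le l.2 h⟩) (fun l => ⟨l.1, l.2.2⟩)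
  invFun := fun l => if h' : (l.1 : ℕ) < a then Sum.inl ⟨l.1, h'⟩
    else Sum.inr ⟨l.1, ⟨not_lt.mp h', l.2⟩⟩
  left_inv := by
    rintro (l | l)
    · simp [l.2]
    · have : ¬ ((l.1 : ℕ) < a) := not_lt.mpr l.2.1
      simp [this]
  right_inv := by
    intro l
    by_cases h' : (l.1 : ℕ) < a <;> simp [h']

private theorem ev1a_rmax_mem {s : Finset ℕ} (h : 0 < rmax s) : rmax s ∈ s := by
  have hne : s.Nonempty := by
    by_contra hn
    rw [Finset.not_nonempty_iff_eq_empty] at hn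
    subst hn
    simp [rmax] at h
  obtain ⟨a, ha, hae⟩ := Finset.exists_mem_eq_sup s hne id
  unfold rmax
  rw [hae]
  exact ha

private theorem ev1a_le_rmax {s : Finset ℕ} {a : ℕ} (h : a ∈ s) : a ≤ rmax s :=
  Finset.le_sup (f := id) h

private theorem ev1a_lt {s : Finset ℕ} : rmax (s.erase (rmax s)) ≤ rmax s := by
  unfold rmax
  exact Finset.sup_mono (Finset.erase_subset _ _)

private theorem ev1a_entr {s : Finset ℕ} {l : ℕ} (h : l < rmax (s.erase (rmax s))) :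
    entr s l = entr (s.erase (rmax s)) l := by
  have hm := ev1a_rmax_mem (lt_of_le_of_lt (Nat.zero_le _) h)
  have h1 : ((s.erase (rmax s)).filter (l < ·)).Nonempty :=
    ⟨_, Finset.mem_filter.mpr ⟨hm, h⟩⟩
  have h2 : (s.filter (l < ·)).Nonempty :=
    ⟨_, Finset.mem_filter.mpr ⟨Finset.mem_of_mem_erase hm, h⟩⟩
  unfold entr
  rw [dif_pos h1, dif_pos h2]
  apply le_antisymm
  · apply Finset.min'_le
    have := Finset.min'_mem _ h1
    rw [Finset.mem_filter] at this ⊢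
    exact ⟨Finset.mem_of_mem_erase this.1, this.2⟩
  · apply Finset.min'_le
    have h3 := Finset.min'_mem _ h2
    have h4 : (s.filter (l < ·)).min' h2 ≤ rmax (s.erase (rmax s)) :=
      Finset.min'_le _ _ (Finset.mem_filter.mpr ⟨Finset.mem_of_mem_erase hm, h⟩)
    have h5 : rmax (s.erase (rmax s)) ≠ rmax s := (Finset.mem_erase.mp hm).1
    have h6 : rmax (s.erase (rmax s)) ≤ rmax s := ev1a_le_rmax (Finset.mem_of_mem_erase hm)
    rw [Finset.mem_filter] at h3 ⊢
    refine ⟨Finset.mem_erase.mpr ⟨?_, h3.1⟩, h3.2⟩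
    intro h7
    rw [h7] at h4
    exact h5 (le_antisymm h6 h4)

private theorem ev1a_prv {s : Finset ℕ} {l : ℕ} (h : l < rmax s) :
    prv s l = prv (s.erase (rmax s)) l := by
  unfold prv
  congr 1
  ext a
  simp only [Finset.mem_filter, Finset.mem_erase]
  constructor
  · rintro ⟨h1, h2⟩
    exact ⟨⟨fun h3 => absurd h (by rw [← h3]; omega), h1⟩, h2⟩
  · rintro ⟨⟨_, h1⟩, h2⟩
    exact ⟨h1, h2⟩

private theorem ev1a_entr2 {s : Finset ℕ} (hr : rmax s ∈ s) {l : ℕ}
    (h : rmax (s.erase (rmax s)) ≤ l) (h' : l < rmax s) : entr s l = rmax s := by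
  have h2 : (s.filter (l < ·)).Nonempty :=
    ⟨_, Finset.mem_filter.mpr ⟨hr, h'⟩⟩
  unfold entr
  rw [dif_pos h2]
  have h3 := Finset.min'_mem _ h2
  rw [Finset.mem_filter] at h3
  by_contra hne
  have h4 : (s.filter (l < ·)).min' h2 ∈ s.erase (rmax s) := Finset.mem_erase.mpr ⟨hne, h3.1⟩
  have h5 := ev1a_le_rmax h4
  omega

private theorem ev1a_prv2 {s : Finset ℕ} {l : ℕ}
    (h : rmax (s.erase (rmax s)) ≤ l) (h' : l < rmax s) :
    prv s l = rmax (s.erase (rmax s)) := by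
  have h1 : s.filter (· ≤ l) = s.erase (rmax s) := by
    ext a
    simp only [Finset.mem_filter, Finset.mem_erase]
    constructor
    · rintro ⟨h1, h2⟩
      exact ⟨fun h3 => by omega, h1⟩
    · rintro ⟨h1, h2⟩
      exact ⟨h2, le_trans (ev1a_le_rmax (Finset.mem_erase.mpr ⟨h1, h2⟩)) h⟩
  unfold prv
  rw [h1]
  rfl

private theorem ev1a_nest {Rk : Finset ℕ} {Pr : ℕ → Matrix n n ℂ} (hc : Chain Rk Pr)
    {a b : ℕ} (ha : a ∈ Rk ∨ a = 0) (hb : b ∈ Rk) (hab : a ≤ b) :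
    Pr a * Pr b = Pr a ∧ Pr b * Pr a = Pr a := by
  rcases ha with ha | ha
  · exact hc.nest a ha b hb hab
  · subst ha
    rw [hc.zero, zero_mul, mul_zero]
    exact ⟨rfl, rfl⟩

private theorem ev1a_prv_mem (s : Finset ℕ) (l : ℕ) : prv s l ∈ s ∨ prv s l = 0 := by
  rcases Finset.eq_empty_or_nonempty (s.filter (· ≤ l)) with h | h
  · right
    unfold prv
    rw [h]
    rfl
  · left
    obtain ⟨a, ha, hae⟩ := Finset.exists_mem_eq_sup _ h id
    unfold prv
    rw [hae]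
    exact (Finset.mem_filter.mp ha).1

private theorem ev1a_prv_le (s : Finset ℕ) (l : ℕ) : prv s l ≤ l := by
  unfold prv
  apply Finset.sup_le
  intro a ha
  exact (Finset.mem_filter.mp ha).2

private theorem ev1a_rank_trace (Q : Matrix n n ℂ) (hQ : Q * Q = Q) :
    (Q.rank : ℂ) = Q.trace := by
  obtain ⟨G, G', s, h1, h2, h3, h4⟩ := exists_basis Q hQ
  conv_rhs => rw [h4]
  rw [Matrix.trace_mul_comm, ← Matrix.mul_assoc, h2, Matrix.one_mul, Matrix.trace_diagonal,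
    ← h3]
  simp

private theorem ev1a_rank_sub (P Q : Matrix n n ℂ) (hP : P * P = P) (hQ : Q * Q = Q)
    (h1 : P * Q = P) (h2 : Q * P = P) :
    (Q - P) * (Q - P) = Q - P ∧ (Q - P).rank + P.rank = Q.rank := by
  have hi : (Q - P) * (Q - P) = Q - P := by
    rw [sub_mul, mul_sub, mul_sub, hQ, h1, h2, hP]
    abel
  refine ⟨hi, ?_⟩
  have := ev1a_rank_trace (Q - P) hi
  rw [Matrix.trace_sub, ← ev1a_rank_trace P hP, ← ev1a_rank_trace Q hQ] at this
  have h3 : ((Q - P).rank + P.rank : ℂ) = Q.rank := by rw [this]; ring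
  exact_mod_cast h3

private theorem ev1a_card (a b κ : ℕ) (hb : b ≤ κ) :
    Fintype.card {l : Fin κ // a ≤ (l : ℕ) ∧ (l : ℕ) < b} = b - a := by
  rw [Fintype.card_subtype, ← Nat.card_Ico a b]
  have h : (univ.filter fun l : Fin κ => a ≤ (l : ℕ) ∧ (l : ℕ) < b).map Fin.valEmbedding =
      Finset.Ico a b := by
    ext x
    simp only [Finset.mem_map, Finset.mem_filter, Finset.mem_univ, true_and,
      Fin.valEmbedding_apply, Finset.mem_Ico]
    constructor
    · rintro ⟨l, hl, rfl⟩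
      exact hl
    · intro hx
      exact ⟨⟨x, lt_of_lt_of_le hx.2 hb⟩, hx, rfl⟩
  rw [← h, Finset.card_map]

private theorem ev1a_split {Rk : Finset ℕ} {Pr : ℕ → Matrix n n ℂ} (hc : Chain Rk Pr)
    (hr : rmax Rk ∈ Rk) :
    mixD (fun l : Ln Rk κ => Ql Rk Pr (l : Fin κ)) =
      mixD (fun l : Ln (Rk.erase (rmax Rk)) κ => Ql (Rk.erase (rmax Rk)) Pr (l : Fin κ)) *
      mixD (fun _ : {l : Fin κ // rmax (Rk.erase (rmax Rk)) ≤ (l : ℕ) ∧
        (l : ℕ) < rmax Rk} => Pr (rmax Rk) - Pr (rmax (Rk.erase (rmax Rk)))) := by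
  set r' := rmax (Rk.erase (rmax Rk)) with hr'
  have hle : r' ≤ rmax Rk := ev1a_lt
  rw [← mixD_sum]
  · rw [← mixD_perm _ (ev1a_equiv r' (rmax Rk) κ hle)]
    congr 1
    funext l
    rcases l with l | l
    · have h1 : Ql Rk Pr (l.1 : Fin κ) = Ql (Rk.erase (rmax Rk)) Pr (l.1 : Fin κ) := by
        unfold Ql
        rw [ev1a_entr l.2, ev1a_prv (lt_of_lt_of_le l.2 hle)]
      exact h1
    · have h1 : Ql Rk Pr (l.1 : Fin κ) = Pr (rmax Rk) - Pr r' := by
        unfold Ql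
        rw [ev1a_entr2 hr l.2.1 l.2.2, ev1a_prv2 l.2.1 l.2.2]
      exact h1
  · intro i j
    have hlt : 0 < r' := lt_of_le_of_lt (Nat.zero_le _) i.2
    have hr'm2 : r' ∈ Rk.erase (rmax Rk) := ev1a_rmax_mem hlt
    have he : entr (Rk.erase (rmax Rk)) (i.1 : Fin κ) ∈ Rk.erase (rmax Rk) ∧
        entr (Rk.erase (rmax Rk)) (i.1 : Fin κ) ≤ r' := by
      have h1 : ((Rk.erase (rmax Rk)).filter (((i.1 : Fin κ) : ℕ) < ·)).Nonempty :=
        ⟨_, Finset.mem_filter.mpr ⟨hr'm2, i.2⟩⟩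
      unfold entr
      rw [dif_pos h1]
      exact ⟨(Finset.mem_filter.mp (Finset.min'_mem _ h1)).1,
        Finset.min'_le _ _ (Finset.mem_filter.mpr ⟨hr'm2, i.2⟩)⟩
    have hp : prv (Rk.erase (rmax Rk)) (i.1 : Fin κ) ∈ Rk ∨
        prv (Rk.erase (rmax Rk)) (i.1 : Fin κ) = 0 := by
      rcases ev1a_prv_mem (Rk.erase (rmax Rk)) (i.1 : Fin κ) with h | h
      · exact Or.inl (Finset.mem_of_mem_erase h)
      · exact Or.inr h
    have hple : prv (Rk.erase (rmax Rk)) (i.1 : Fin κ) ≤ r' :=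
      le_trans (ev1a_prv_le _ _) i.2.le
    have heR := Finset.mem_of_mem_erase he.1
    have hrR := Finset.mem_of_mem_erase hr'm2
    show Ql (Rk.erase (rmax Rk)) Pr (i.1 : Fin κ) * (Pr (rmax Rk) - Pr r') = 0
    unfold Ql
    rw [sub_mul, mul_sub, mul_sub, (ev1a_nest hc (Or.inl heR) hr (le_trans he.2 hle)).1,
      (ev1a_nest hc (Or.inl heR) hrR he.2).1, (ev1a_nest hc hp hr (le_trans hple hle)).1,
      (ev1a_nest hc hp hrR hple).1]
    simp

omit [Fintype n] [DecidableEq n] in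
private theorem ev1a_cmat_id (P : Matrix n n ℂ) : (cmat P : Matrix n n ℂ) = P := by
  ext i j
  simp [cmat]

private theorem ev1a_ne (k : ℕ) : ∀ {Rk : Finset ℕ} {Pr : ℕ → Matrix n n ℂ}
    (_ : Chain Rk Pr) (_ : rmax Rk ≤ κ), Rk.card = k →
    mixD (fun l : Ln Rk κ => Ql Rk Pr (l : Fin κ)) ≠ 0 := by
  induction k with
  | zero =>
    intro Rk Pr hc hκ hk
    have h0 : Rk = ∅ := Finset.card_eq_zero.1 hk
    have hm : rmax Rk = 0 := by rw [h0]; rfl
    have hE : IsEmpty (Ln Rk κ) :=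
      ⟨fun l => Nat.not_lt_zero _ (lt_of_lt_of_eq l.2 hm)⟩
    unfold mixD
    simp
  | succ k ih =>
    intro Rk Pr hc hκ hk
    rcases Nat.eq_zero_or_pos (rmax Rk) with hm | hm
    · have hE : IsEmpty (Ln Rk κ) :=
        ⟨fun l => Nat.not_lt_zero _ (lt_of_lt_of_eq l.2 hm)⟩
      unfold mixD
      simp
    · have hr := ev1a_rmax_mem hm
      rw [ev1a_split hc hr]
      apply mul_ne_zero
      · apply ih (Pr := Pr) (Rk := Rk.erase (rmax Rk))
        · exact ⟨hc.zero, fun r h => hc.idem r (Finset.mem_of_mem_erase h),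
            fun r h r' h' => hc.nest r (Finset.mem_of_mem_erase h) r'
              (Finset.mem_of_mem_erase h'),
            fun r h => hc.rank r (Finset.mem_of_mem_erase h)⟩
        · exact le_trans ev1a_lt hκ
        · rw [Finset.card_erase_of_mem hr, hk]
          rfl
      · set r' := rmax (Rk.erase (rmax Rk)) with hr'
        have hle : r' ≤ rmax Rk := ev1a_lt
        have hr'm : r' ∈ Rk ∨ r' = 0 := by
          rcases Nat.eq_zero_or_pos r' with h | h
          · exact Or.inr h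
          · exact Or.inl (Finset.mem_of_mem_erase (ev1a_rmax_mem h))
        have hP : Pr r' * Pr r' = Pr r' := by
          rcases hr'm with h | h
          · exact hc.idem _ h
          · rw [h, hc.zero, mul_zero]
        have hrk : (Pr r').rank = r' := by
          rcases hr'm with h | h
          · exact hc.rank _ h
          · rw [h, hc.zero, Matrix.rank_zero]
        obtain ⟨hn1, hn2⟩ := ev1a_nest hc hr'm hr hle
        obtain ⟨hi, hs⟩ := ev1a_rank_sub (Pr r') (Pr (rmax Rk)) hP (hc.idem _ hr) hn1 hn2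
        rw [hrk, hc.rank _ hr] at hs
        have hcard := ev1a_card r' (rmax Rk) κ hκ
        have hx := mixD_idem (R := ℂ) (l := {l : Fin κ // r' ≤ (l : ℕ) ∧ (l : ℕ) < rmax Rk})
          (Pr (rmax Rk) - Pr r') hi (by rw [hcard]; omega)
        rw [ev1a_cmat_id] at hx
        rw [hx]
        exact_mod_cast Nat.factorial_ne_zero _

/-- the normalising constant is the inverse of a positive integer -/
theorem cR_ne {Rk : Finset ℕ} {Pr : ℕ → Matrix n n ℂ} (hc : Chain Rk Pr) (hκ : rmax Rk ≤ κ) :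
    cR Rk Pr κ ≠ 0 := by
  unfold cR
  exact inv_ne_zero (ev1a_ne Rk.card hc hκ rfl)

/-- `mixD` of the pieces themselves -/
theorem mixD_Ql {Rk : Finset ℕ} {Pr : ℕ → Matrix n n ℂ} (hc : Chain Rk Pr) (hκ : rmax Rk ≤ κ) :
    algebraMap ℂ R (cR Rk Pr κ) * mixD (fun l : Ln Rk κ => (cmat (Ql Rk Pr (l : Fin κ)) :
      Matrix n n R)) = 1 := by
  have h : mixD (fun l : Ln Rk κ => (cmat (Ql Rk Pr (l : Fin κ)) : Matrix n n R)) =
      algebraMap ℂ R (mixD (fun l : Ln Rk κ => Ql Rk Pr (l : Fin κ))) := by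
    rw [mixD_map]
    rfl
  rw [h, ← map_mul]
  unfold cR
  rw [inv_mul_cancel₀ (ev1a_ne Rk.card hc hκ rfl), map_one]

end Pool.Agent.MP_d8b6c2_an
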