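import Mathlib
import Pool.Agent.Lib.MP_d8b6c2_an.Ev
import Pool.Agent.Lib.MP_d8b6c2_an.Poly1
import Pool.Agent.Lib.MP_d8b6c2_an.MD2
import Pool.Agent.Lib.MP_d8b6c2_an.Ev1a

/-! Independence of the value on the chain; certified labels; total mass. -/

namespace Pool.Agent.MP_d8b6c2_an

open Finset

variable {n : Type*} [Fintype n] [DecidableEq n]
variable {R : Type*} [CommRing R] [Algebra ℂ R]
variable {J : ℕ} {m : Fin J → ℕ} {κ : ℕ}

private theorem ev1b_evL_monomial (Rk : Finset ℕ) (Pr : ℕ → Matrix n n ℂ) (N : Matrix n n R)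
    (x : Fin J → Pth m → R) (mon : ((Fin J × Pth m) ⊕ Fin κ) →₀ ℕ) (c : ℂ) :
    evL Rk Pr N x κ (MvPolynomial.monomial mon c) = c • ((∏ v : Fin J × Pth m,
      x v.1 v.2 ^ mon (Sum.inl v)) *
      mixD (fun l : Ln Rk κ => cmat (Ql Rk Pr (l : Fin κ)) * N ^ mon (Sum.inr (l : Fin κ)))) := by
  have h1 : (MvPolynomial.monomial mon c : MvPolynomial ((Fin J × Pth m) ⊕ Fin κ) ℂ) =
      c • MvPolynomial.basisMonomials ((Fin J × Pth m) ⊕ Fin κ) ℂ mon := by
    rw [MvPolynomial.coe_basisMonomials, MvPolynomial.smul_monomial, smul_eq_mul, mul_one]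
  rw [h1, map_smul, evL, Module.Basis.constr_basis]

private theorem ev1b_mono (Rk : Finset ℕ) (Pr : ℕ → Matrix n n ℂ) (N : Matrix n n R)
    (x : Fin J → Pth m → R) (g : Ln Rk κ → ℕ) (a : MvPolynomial (Fin J × Pth m) ℂ) :
    evL Rk Pr N x κ (MvPolynomial.rename Sum.inl a *
      ∏ l : Ln Rk κ, MvPolynomial.X (Sum.inr (l : Fin κ)) ^ g l) =
    MvPolynomial.aeval (fun v : Fin J × Pth m => x v.1 v.2) a *
      mixD (fun l : Ln Rk κ => cmat (Ql Rk Pr (l : Fin κ)) * N ^ g l) := by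
  classical
  induction a using MvPolynomial.induction_on' with
  | monomial s c =>
    have h2 : (∏ l : Ln Rk κ, (MvPolynomial.X (Sum.inr (l : Fin κ)) :
        MvPolynomial ((Fin J × Pth m) ⊕ Fin κ) ℂ) ^ g l) =
        MvPolynomial.monomial (∑ l : Ln Rk κ, Finsupp.single (Sum.inr (l : Fin κ)) (g l)) 1 := by
      rw [MvPolynomial.monomial_sum_one]
      exact Finset.prod_congr rfl fun l _ => MvPolynomial.X_pow_eq_monomial
    rw [MvPolynomial.rename_monomial, h2, MvPolynomial.monomial_mul, mul_one, ev1b_evL_monomial,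
      MvPolynomial.aeval_monomial, Finsupp.prod_fintype _ _ (fun v => pow_zero _)]
    have h3 : ∀ v : Fin J × Pth m, ((Finsupp.mapDomain Sum.inl s +
        ∑ l : Ln Rk κ, Finsupp.single (Sum.inr (l : Fin κ)) (g l) :
          ((Fin J × Pth m) ⊕ Fin κ) →₀ ℕ)) (Sum.inl v) = s v := by
      intro v
      rw [Finsupp.add_apply, Finsupp.mapDomain_apply Sum.inl_injective, Finsupp.finsetSum_apply]
      simp
    have h4 : ∀ l' : Ln Rk κ, ((Finsupp.mapDomain Sum.inl s +
        ∑ l : Ln Rk κ, Finsupp.single (Sum.inr (l : Fin κ)) (g l) :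
          ((Fin J × Pth m) ⊕ Fin κ) →₀ ℕ)) (Sum.inr (l' : Fin κ)) = g l' := by
      intro l'
      rw [Finsupp.add_apply, Finsupp.mapDomain_of_notMem_range _ _ (by simp), zero_add,
        Finsupp.finsetSum_apply, Finset.sum_eq_single l']
      · simp
      · intro b _ hb
        rw [Finsupp.single_apply, if_neg]
        intro h
        exact hb (Subtype.ext (Sum.inr_injective h))
      · simp
    simp only [h3, h4]
    rw [Algebra.smul_def, mul_assoc]
  | add p q hp hq =>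
    rw [map_add, add_mul, map_add, hp, hq, map_add, add_mul]

/-- products of polynomials in the `y_l`, `l < rmax Rk` -/
private theorem ev1b_prod (Rk : Finset ℕ) (Pr : ℕ → Matrix n n ℂ) (N : Matrix n n R)
    (x : Fin J → Pth m → R) (a : MvPolynomial (Fin J × Pth m) ℂ)
    (f : Ln Rk κ → Polynomial (MvPolynomial (Fin J × Pth m) ℂ)) :
    evL Rk Pr N x κ (MvPolynomial.rename Sum.inl a *
      ∏ l : Ln Rk κ, ((f l).map ((MvPolynomial.rename Sum.inl : MvPolynomial (Fin J × Pth m) ℂ →ₐ[ℂ]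
        MvPolynomial ((Fin J × Pth m) ⊕ Fin κ) ℂ) : MvPolynomial (Fin J × Pth m) ℂ →+*
        MvPolynomial ((Fin J × Pth m) ⊕ Fin κ) ℂ)).eval
        (MvPolynomial.X (Sum.inr (l : Fin κ)))) =
    MvPolynomial.aeval (fun v : Fin J × Pth m => x v.1 v.2) a *
      mixD (fun l : Ln Rk κ => cmat (Ql Rk Pr (l : Fin κ)) *
        Polynomial.aeval N ((f l).map ((MvPolynomial.aeval (fun v : Fin J × Pth m => x v.1 v.2) :
          MvPolynomial (Fin J × Pth m) ℂ →ₐ[ℂ] R) : MvPolynomial (Fin J × Pth m) ℂ →+* R))) := by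
  classical
  set ι : MvPolynomial (Fin J × Pth m) ℂ →ₐ[ℂ] MvPolynomial ((Fin J × Pth m) ⊕ Fin κ) ℂ :=
    MvPolynomial.rename Sum.inl with hι
  set φ : MvPolynomial (Fin J × Pth m) ℂ →ₐ[ℂ] R :=
    MvPolynomial.aeval (fun v : Fin J × Pth m => x v.1 v.2) with hφ
  -- common degree bound
  obtain ⟨D, hD⟩ : ∃ D : ℕ, ∀ l, (f l).natDegree < D :=
    ⟨(univ.sup fun l => (f l).natDegree) + 1, fun l =>
      Nat.lt_succ_of_le (Finset.le_sup (f := fun l => (f l).natDegree) (mem_univ l))⟩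
  have e1 : ∀ l : Ln Rk κ, ((f l).map (ι : MvPolynomial (Fin J × Pth m) ℂ →+*
      MvPolynomial ((Fin J × Pth m) ⊕ Fin κ) ℂ)).eval (MvPolynomial.X (Sum.inr (l : Fin κ))) =
      ∑ e ∈ range D, ι ((f l).coeff e) * MvPolynomial.X (Sum.inr (l : Fin κ)) ^ e := by
    intro l
    rw [Polynomial.eval_map, Polynomial.eval₂_eq_sum_range' _ (hD l)]
    rfl
  have e2 : ∀ l : Ln Rk κ, cmat (Ql Rk Pr (l : Fin κ)) *
      Polynomial.aeval N ((f l).map (φ : MvPolynomial (Fin J × Pth m) ℂ →+* R)) =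
      ∑ e ∈ range D, φ ((f l).coeff e) • (cmat (Ql Rk Pr (l : Fin κ)) * N ^ e) := by
    intro l
    rw [Polynomial.aeval_eq_sum_range' (lt_of_le_of_lt Polynomial.natDegree_map_le (hD l)),
      Finset.mul_sum]
    refine Finset.sum_congr rfl fun e _ => ?_
    rw [Polynomial.coeff_map, mul_smul_comm]
    rfl
  simp only [e1, e2]
  rw [Finset.prod_univ_sum, Finset.mul_sum, map_sum]
  rw [← mixDL_apply, MultilinearMap.map_sum_finset, Finset.mul_sum]
  refine Finset.sum_congr rfl fun g _ => ?_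
  rw [MultilinearMap.map_smul_univ, mixDL_apply, Finset.prod_mul_distrib, ← map_prod, ← mul_assoc,
    ← map_mul, ev1b_mono, map_mul, map_prod, smul_eq_mul, mul_assoc]

/-- value of the functional on the polynomial of a labelling -/
theorem ev_Tpol (M cap : Fin J → ℕ) (Rk : Finset ℕ) (Pr : ℕ → Matrix n n ℂ)
    (N : Matrix n n R) (x : Fin J → Pth m → R) (p : Fin κ → Pth m) :
    evL Rk Pr N x κ (Tpol M cap Rk p) = xmon M cap Rk x p *
      mixD (fun l : Ln Rk κ => cmat (Ql Rk Pr (l : Fin κ)) *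
        Polynomial.aeval N (Apoly M x (ldep cap Rk p l) (p l))) := by
  classical
  set X0 : Fin J → Pth m → MvPolynomial (Fin J × Pth m) ℂ :=
    fun t q => MvPolynomial.X (t, q) with hX0
  have h := ev1b_prod (κ := κ) Rk Pr N x (xmon M cap Rk X0 p)
    (fun l : Ln Rk κ => Apoly M X0 (ldep cap Rk p l) (p l))
  have hφ : ∀ l : Ln Rk κ, (Apoly M X0 (ldep cap Rk p l) (p l)).map
      ((MvPolynomial.aeval (fun v : Fin J × Pth m => x v.1 v.2) :
          MvPolynomial (Fin J × Pth m) ℂ →ₐ[ℂ] R) : MvPolynomial (Fin J × Pth m) ℂ →+* R) =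
      Apoly M x (ldep cap Rk p l) (p l) := by
    intro l
    rw [Apoly_map]
    simp only [hX0, MvPolynomial.aeval_X]
  have hι : ∀ l : Ln Rk κ, (Apoly M X0 (ldep cap Rk p l) (p l)).map
      ((MvPolynomial.rename Sum.inl : MvPolynomial (Fin J × Pth m) ℂ →ₐ[ℂ]
        MvPolynomial ((Fin J × Pth m) ⊕ Fin κ) ℂ) : MvPolynomial (Fin J × Pth m) ℂ →+*
        MvPolynomial ((Fin J × Pth m) ⊕ Fin κ) ℂ) =
      Apoly M (fun t q => MvPolynomial.X (Sum.inl (t, q))) (ldep cap Rk p l) (p l) := by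
    intro l
    rw [Apoly_map]
    simp only [hX0, MvPolynomial.rename_X]
  simp only [hφ, hι] at h
  have hx1 : MvPolynomial.rename Sum.inl (xmon M cap Rk X0 p) =
      xmon M cap Rk (fun t q => (MvPolynomial.X (Sum.inl (t, q)) :
        MvPolynomial ((Fin J × Pth m) ⊕ Fin κ) ℂ)) p := by
    unfold xmon
    rw [map_prod]
    refine Finset.prod_congr rfl fun v _ => ?_
    rw [map_pow, hX0, MvPolynomial.rename_X]
  have hx2 : MvPolynomial.aeval (fun v : Fin J × Pth m => x v.1 v.2) (xmon M cap Rk X0 p) =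
      xmon M cap Rk x p := by
    unfold xmon
    rw [map_prod]
    refine Finset.prod_congr rfl fun v _ => ?_
    rw [map_pow, hX0, MvPolynomial.aeval_X]
  rw [hx1, hx2] at h
  rw [← h]
  congr 1
  unfold Tpol Tval
  congr 1
  -- the other lines contribute the factor one
  rw [← Finset.prod_subset (Finset.filter_subset (fun l : Fin κ => (l : ℕ) < rmax Rk) univ)]
  · exact Finset.prod_subtype _ (by simp) _
  · intro l _ hl
    have hl' : ¬ (l : ℕ) < rmax Rk := by simpa using hl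
    have h0 : ldep cap Rk p l = 0 := by rw [ldep, if_neg hl']
    rw [h0, Apoly_zero, Polynomial.eval_one]

private theorem ev1b_can_perm (cap : Fin J → ℕ) (Rk : Finset ℕ) (σ : Equiv.Perm (Fin κ))
    (hσ : ∀ l : Fin κ, entr Rk (σ l) = entr Rk l) (p : Fin κ → Pth m) :
    IsCan cap Rk (fun l => p (σ l)) ↔ IsCan cap Rk p := by
  constructor
  · intro h l
    have := h (σ.symm l)
    rw [ldep_perm cap Rk p σ hσ] at this
    simpa using this
  · intro h l
    rw [ldep_perm cap Rk p σ hσ]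
    exact h (σ l)

private theorem ev1b_rho_perm (cap : Fin J → ℕ) (Rk : Finset ℕ) (σ : Equiv.Perm (Fin κ))
    (hσ : ∀ l : Fin κ, entr Rk (σ l) = entr Rk l) (p : Fin κ → Pth m) (t : Fin J) (q : Pth m) :
    rho cap Rk (fun l => p (σ l)) t q = rho cap Rk p t q := by
  unfold rho
  refine Finset.card_bij (fun l _ => σ l) ?_ ?_ ?_
  · intro l hl
    rw [mem_filter] at hl ⊢
    rw [ldep_perm cap Rk p σ hσ] at hl
    exact ⟨mem_univ _, hl.2⟩
  · intro a _ b _ h
    exact σ.injective h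
  · intro b hb
    rw [mem_filter] at hb
    refine ⟨σ.symm b, ?_, by simp⟩
    rw [mem_filter, ldep_perm cap Rk p σ hσ]
    simpa using hb.2

private theorem ev1b_rename (M cap : Fin J → ℕ) (Rk : Finset ℕ) (σ : Equiv.Perm (Fin κ))
    (hσ : ∀ l : Fin κ, entr Rk (σ l) = entr Rk l) (p : Fin κ → Pth m) :
    MvPolynomial.rename (Sum.map id σ) (Tpol M cap Rk (fun l => p (σ l))) = Tpol M cap Rk p := by
  unfold Tpol
  rw [Tval_map]
  simp only [MvPolynomial.rename_X, Sum.map_inl, Sum.map_inr, id]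
  unfold Tval
  congr 1
  · unfold xmon
    refine Finset.prod_congr rfl fun v _ => ?_
    rw [ev1b_rho_perm cap Rk σ hσ]
  · rw [← Equiv.prod_comp σ (fun l => Polynomial.eval (MvPolynomial.X (Sum.inr l))
      (Apoly M (fun t q => MvPolynomial.X (Sum.inl (t, q))) (ldep cap Rk p l) (p l)))]
    refine Finset.prod_congr rfl fun l _ => ?_
    rw [ldep_perm cap Rk p σ hσ]

private theorem ev1b_rename' (M cap : Fin J → ℕ) (Rk : Finset ℕ) (σ : Equiv.Perm (Fin κ))
    (hσ : ∀ l : Fin κ, entr Rk (σ l) = entr Rk l) (p : Fin κ → Pth m) :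
    MvPolynomial.rename (Sum.map id σ) (Tpol M cap Rk p) =
      Tpol M cap Rk (fun l => p (σ.symm l)) := by
  have h := ev1b_rename M cap Rk σ hσ (fun l => p (σ.symm l))
  have e : (fun l => (fun l => p (σ.symm l)) (σ l)) = p := by
    funext l
    exact congrArg p (σ.symm_apply_apply l)
  rw [e] at h
  exact h

/-- a labelling composed with the inverse of a permutation -/
private def ev1b_equiv (σ : Equiv.Perm (Fin κ)) : (Fin κ → Pth m) ≃ (Fin κ → Pth m) where
  toFun p := fun l => p (σ.symm l)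
  invFun p := fun l => p (σ l)
  left_inv p := by
    funext l
    exact congrArg p (σ.symm_apply_apply l)
  right_inv p := by
    funext l
    exact congrArg p (σ.apply_symm_apply l)

private theorem ev1b_supp (M cap : Fin J → ℕ) (Rk : Finset ℕ) (p : Fin κ → Pth m) (l : Fin κ)
    (hl : rmax Rk ≤ l) :
    Tpol M cap Rk p ∈ MvPolynomial.supported ℂ
      {v : (Fin J × Pth m) ⊕ Fin κ | v ≠ Sum.inr l} := by
  classical
  have hin : ∀ v : Fin J × Pth m, (Sum.inl v : (Fin J × Pth m) ⊕ Fin κ) ∈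
      {v : (Fin J × Pth m) ⊕ Fin κ | v ≠ Sum.inr l} := by
    intro v h
    exact Sum.inl_ne_inr h
  have hir : ∀ l' : Fin κ, l' ≠ l → (Sum.inr l' : (Fin J × Pth m) ⊕ Fin κ) ∈
      {v : (Fin J × Pth m) ⊕ Fin κ | v ≠ Sum.inr l} := by
    intro l' h h'
    exact h (Sum.inr_injective h')
  have key : MvPolynomial.rename (Subtype.val :
      {v : (Fin J × Pth m) ⊕ Fin κ | v ≠ Sum.inr l} → (Fin J × Pth m) ⊕ Fin κ)
      (Tval M cap Rk (fun t q => MvPolynomial.X ⟨Sum.inl (t, q), hin (t, q)⟩) p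
        (fun l' => if h : l' = l then 0 else MvPolynomial.X ⟨Sum.inr l', hir l' h⟩) :
        MvPolynomial {v : (Fin J × Pth m) ⊕ Fin κ | v ≠ Sum.inr l} ℂ) = Tpol M cap Rk p := by
    rw [Tval_map]
    unfold Tpol Tval
    simp only [MvPolynomial.rename_X]
    congr 1
    refine Finset.prod_congr rfl fun l' _ => ?_
    by_cases h : l' = l
    · have h0 : ldep cap Rk p l' = 0 := by
        rw [ldep, if_neg]
        rw [h]
        exact not_lt.2 hl
      rw [h0, Apoly_zero, Polynomial.eval_one, Polynomial.eval_one]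
    · rw [dif_neg h, MvPolynomial.rename_X]
  rw [MvPolynomial.supported_eq_range_rename]
  exact ⟨_, key⟩

open Classical in
/-- the sums over canonical labellings are symmetric -/
theorem symF_sum (M cap : Fin J → ℕ) (Rk : Finset ℕ)
    (γ : (Fin κ → Pth m) → Prop) (hγ : ∀ p (σ : Equiv.Perm (Fin κ)),
      (∀ l : Fin κ, entr Rk (σ l) = entr Rk l) → (γ (fun l => p (σ l)) ↔ γ p)) :
    SymF Rk (∑ p ∈ univ.filter (fun p : Fin κ → Pth m => IsCan cap Rk p ∧ γ p),
      Tpol M cap Rk p) := by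
  refine ⟨fun σ hσ => ?_, ?_⟩
  · rw [map_sum]
    refine Finset.sum_equiv (ev1b_equiv σ) (fun p => ?_) (fun p _ => ?_)
    · rw [mem_filter, mem_filter]
      have e : (fun l => ev1b_equiv (m := m) σ p (σ l)) = p := (ev1b_equiv σ).left_inv p
      have h1 := ev1b_can_perm cap Rk σ hσ (ev1b_equiv σ p)
      have h2 := hγ (ev1b_equiv σ p) σ hσ
      rw [e] at h1 h2
      rw [h1, h2]
      exact ⟨fun h => ⟨mem_univ _, h.2⟩, fun h => ⟨mem_univ _, h.2⟩⟩
    · exact ev1b_rename' M cap Rk σ hσ p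
  · intro mon hmon l hl
    have hmem : (∑ p ∈ univ.filter (fun p : Fin κ → Pth m => IsCan cap Rk p ∧ γ p),
        Tpol M cap Rk p) ∈ MvPolynomial.supported ℂ
          {v : (Fin J × Pth m) ⊕ Fin κ | v ≠ Sum.inr l} :=
      Subalgebra.sum_mem _ fun p _ => ev1b_supp M cap Rk p l hl
    rw [MvPolynomial.mem_supported] at hmem
    by_contra hne
    have hv : (Sum.inr l : (Fin J × Pth m) ⊕ Fin κ) ∈ (∑ p ∈ univ.filter
        (fun p : Fin κ → Pth m => IsCan cap Rk p ∧ γ p), Tpol M cap Rk p).vars :=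
      (MvPolynomial.mem_vars_iff_mem_support _).2 ⟨mon, hmon, Finsupp.mem_support_iff.2 hne⟩
    exact hmem (Finset.mem_coe.2 hv) rfl

end Pool.Agent.MP_d8b6c2_an
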