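import Mathlib
import Pool.Agent.Lib.MP_d8b6c2_an.Ev
import Pool.Agent.Lib.MP_d8b6c2_an.Poly1
import Pool.Agent.Lib.MP_d8b6c2_an.MD2
import Pool.Agent.Lib.MP_d8b6c2_an.Ev1b

/-! Independence of the value on the chain; certified labels; total mass. -/

namespace Pool.Agent.MP_d8b6c2_an

open Finset

variable {n : Type*} [Fintype n] [DecidableEq n]
variable {R : Type*} [CommRing R] [Algebra ℂ R]
variable {J : ℕ} {m : Fin J → ℕ} {κ : ℕ}

private theorem ev1c_perm {ι : Type*} [Fintype ι] [DecidableEq ι] (L A S : Finset ι)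
    (hA : A ⊆ L) (hS : S ⊆ L) (h : A.card = S.card) :
    ∃ τ : Equiv.Perm ι, (∀ l, l ∉ L → τ l = l) ∧ (∀ l ∈ L, τ l ∈ L) ∧
      (∀ l ∈ L, (τ l ∈ S ↔ l ∈ A)) := by
  classical
  let e1 : A ≃ S := Finset.equivOfCardEq h
  let f : ι → ι := fun l => if h : l ∈ A then (e1 ⟨l, h⟩ : ι) else l
  have hfA : ∀ l (h : l ∈ A), f l = (e1 ⟨l, h⟩ : ι) := fun l h => by simp only [f, dif_pos h]
  have hfn : ∀ l, l ∉ A → f l = l := fun l h => by simp only [f, dif_neg h]
  have hinj : Set.InjOn f (↑(A ∪ Lᶜ) : Set ι) := by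
    intro a ha b hb hab
    rw [Finset.mem_coe, Finset.mem_union, Finset.mem_compl] at ha hb
    by_cases ha1 : a ∈ A
    · by_cases hb1 : b ∈ A
      · rw [hfA a ha1, hfA b hb1] at hab
        have := e1.injective (Subtype.ext hab)
        exact congrArg Subtype.val this
      · have hb2 : b ∉ L := hb.resolve_left hb1
        rw [hfA a ha1, hfn b hb1] at hab
        exact absurd (hS (hab ▸ (e1 ⟨a, ha1⟩).2)) hb2
    · have ha2 : a ∉ L := ha.resolve_left ha1
      by_cases hb1 : b ∈ A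
      · rw [hfA b hb1, hfn a ha1] at hab
        exact absurd (hS (hab.symm ▸ (e1 ⟨b, hb1⟩).2)) ha2
      · rwa [hfn a ha1, hfn b hb1] at hab
  obtain ⟨g, hg⟩ := Finset.exists_equiv_extend_of_card_eq (t := (Finset.univ : Finset ι))
    (by rw [Finset.card_univ]) (Finset.subset_univ ((A ∪ Lᶜ).image f)) hinj
  let τ : Equiv.Perm ι := g.trans (Equiv.subtypeUnivEquiv fun x => Finset.mem_univ x)
  have hτ : ∀ i ∈ A ∪ Lᶜ, τ i = f i := fun i hi => hg i hi
  have hτn : ∀ l, l ∉ L → τ l = l := by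
    intro l hl
    rw [hτ l (Finset.mem_union_right _ (Finset.mem_compl.2 hl)), hfn l (fun h => hl (hA h))]
  have hτL : ∀ l ∈ L, τ l ∈ L := by
    intro l hl
    by_contra h'
    have : τ (τ l) = τ l := hτn _ h'
    have := τ.injective this
    rw [this] at h'
    exact h' hl
  have hτA : ∀ l ∈ A, τ l ∈ S := by
    intro l hl
    rw [hτ l (Finset.mem_union_left _ hl), hfA l hl]
    exact (e1 ⟨l, hl⟩).2
  refine ⟨τ, hτn, hτL, fun l hl => ⟨fun h' => ?_, hτA l⟩⟩
  have h2 : A.map τ.toEmbedding = S := by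
    apply Finset.eq_of_subset_of_card_le
    · intro x hx
      rw [Finset.mem_map] at hx
      obtain ⟨a, ha, rfl⟩ := hx
      exact hτA a ha
    · rw [Finset.card_map, h]
  rw [← h2, Finset.mem_map] at h'
  obtain ⟨a, ha, hax⟩ := h'
  have : a = l := τ.injective hax
  rwa [← this]

private def ev1c_a (s : Finset ℕ) (r : ℕ) : ℕ := (s.filter (· < r)).sup id

private theorem ev1c_a_le (s : Finset ℕ) (r : ℕ) : ev1c_a s r ≤ r :=
  Finset.sup_le fun _ ha => (Finset.mem_filter.1 ha).2.le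

private theorem ev1c_sup_mem (s : Finset ℕ) : s.sup id ∈ s ∨ s.sup id = 0 := by
  rcases Finset.eq_empty_or_nonempty s with h | h
  · right
    rw [h]
    rfl
  · left
    obtain ⟨a, ha, hae⟩ := Finset.exists_mem_eq_sup s h id
    rw [hae]
    exact ha

private theorem ev1c_a_mem (s : Finset ℕ) (r : ℕ) : ev1c_a s r ∈ s ∨ ev1c_a s r = 0 :=
  (ev1c_sup_mem _).imp_left fun h => (Finset.mem_filter.1 h).1

private theorem ev1c_a_lt {s : Finset ℕ} {r : ℕ} (h : 0 < ev1c_a s r) : ev1c_a s r < r := by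
  rcases ev1c_sup_mem (s.filter (· < r)) with h1 | h1
  · exact (Finset.mem_filter.1 h1).2
  · exact absurd h (by unfold ev1c_a; omega)

private theorem ev1c_le_a {s : Finset ℕ} {r x : ℕ} (hx : x ∈ s) (h : x < r) : x ≤ ev1c_a s r :=
  Finset.le_sup (f := id) (Finset.mem_filter.2 ⟨hx, h⟩)

private theorem ev1c_entr {s : Finset ℕ} {l b : ℕ} (hb : b ∈ s) (hl : l < b)
    (h : ∀ x ∈ s, l < x → b ≤ x) : entr s l = b := by
  have h1 : (s.filter (l < ·)).Nonempty := ⟨b, Finset.mem_filter.2 ⟨hb, hl⟩⟩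
  unfold entr
  rw [dif_pos h1]
  apply le_antisymm
  · exact Finset.min'_le _ _ (Finset.mem_filter.2 ⟨hb, hl⟩)
  · exact Finset.le_min' _ _ _ fun x hx => h x (Finset.mem_filter.1 hx).1 (Finset.mem_filter.1 hx).2

private theorem ev1c_prv {s : Finset ℕ} {l b : ℕ} (hb : b ∈ s ∨ b = 0) (hl : b ≤ l)
    (h : ∀ x ∈ s, x ≤ l → x ≤ b) : prv s l = b := by
  unfold prv
  apply le_antisymm
  · exact Finset.sup_le fun x hx => h x (Finset.mem_filter.1 hx).1 (Finset.mem_filter.1 hx).2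
  · rcases hb with hb | hb
    · exact Finset.le_sup (f := id) (Finset.mem_filter.2 ⟨hb, hl⟩)
    · rw [hb]; exact Nat.zero_le _

/-- data of the merged piece -/
private theorem ev1c_data (Rk : Finset ℕ) (r : ℕ) (hr : r ∈ Rk) (hr' : r < rmax Rk) :
    ∃ a b : ℕ, a ≤ r ∧ r < b ∧ b ≤ rmax Rk ∧ b ∈ Rk ∧ (a ∈ Rk ∨ a = 0) ∧
      rmax (Rk.erase r) = rmax Rk ∧
      (∀ l, a ≤ l → l < r → entr Rk l = r ∧ prv Rk l = a) ∧
      (∀ l, r ≤ l → l < b → entr Rk l = b ∧ prv Rk l = r) ∧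
      (∀ l, a ≤ l → l < b → entr (Rk.erase r) l = b ∧ prv (Rk.erase r) l = a) ∧
      (∀ l, (l < a ∨ (b ≤ l ∧ l < rmax Rk)) → entr (Rk.erase r) l = entr Rk l ∧
        prv (Rk.erase r) l = prv Rk l) := by
  have hmax : rmax Rk ∈ Rk := by
    rcases ev1c_sup_mem Rk with h | h
    · exact h
    · exact absurd hr' (by unfold rmax; omega)
  have hle : ∀ x ∈ Rk, x ≤ rmax Rk := fun x hx => Finset.le_sup (f := id) hx
  have hne : (Rk.filter (r < ·)).Nonempty := ⟨_, Finset.mem_filter.2 ⟨hmax, hr'⟩⟩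
  obtain ⟨b, hb1⟩ : ∃ b, b = (Rk.filter (r < ·)).min' hne := ⟨_, rfl⟩
  have hb2 := Finset.min'_mem _ hne
  rw [← hb1, Finset.mem_filter] at hb2
  have hb3 : ∀ x ∈ Rk, r < x → b ≤ x := by
    intro x hx hrx
    rw [hb1]
    exact Finset.min'_le _ _ (Finset.mem_filter.2 ⟨hx, hrx⟩)
  obtain ⟨a, ha⟩ : ∃ a, a = ev1c_a Rk r := ⟨_, rfl⟩
  have ha1 : a ≤ r := ha ▸ ev1c_a_le Rk r
  have ha2 : a ∈ Rk ∨ a = 0 := ha ▸ ev1c_a_mem Rk r
  have ha3 : ∀ x ∈ Rk, x < r → x ≤ a := fun x hx h => ha ▸ ev1c_le_a hx h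
  have ha4 : 0 < a → a < r := fun h => by rw [ha] at h ⊢; exact ev1c_a_lt h
  refine ⟨a, b, ha1, hb2.2, hle b hb2.1, hb2.1, ha2, ?_, ?_, ?_, ?_, ?_⟩
  · apply le_antisymm
    · exact Finset.sup_mono (Finset.erase_subset _ _)
    · exact Finset.le_sup (f := id) (Finset.mem_erase.2 ⟨hr'.ne', hmax⟩)
  · intro l h1 h2
    refine ⟨ev1c_entr hr h2 fun x hx hlx => ?_, ev1c_prv ha2 h1 fun x hx hxl =>
      ha3 x hx (by omega)⟩
    by_contra h3
    have := ha3 x hx (by omega)
    omega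
  · intro l h1 h2
    refine ⟨ev1c_entr hb2.1 h2 fun x hx hlx => hb3 x hx (by omega),
      ev1c_prv (Or.inl hr) h1 fun x hx hxl => ?_⟩
    by_contra h3
    have := hb3 x hx (by omega)
    omega
  · intro l h1 h2
    refine ⟨ev1c_entr (Finset.mem_erase.2 ⟨by omega, hb2.1⟩) h2 fun x hx hlx => ?_,
      ev1c_prv ?_ h1 fun x hx hxl => ?_⟩
    · rw [Finset.mem_erase] at hx
      rcases lt_trichotomy x r with h3 | h3 | h3
      · have := ha3 x hx.2 h3
        omega
      · exact absurd h3 hx.1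
      · exact hb3 x hx.2 h3
    · rcases Nat.eq_zero_or_pos a with h3 | h3
      · exact Or.inr h3
      · left
        rw [Finset.mem_erase]
        exact ⟨(ha4 h3).ne, ha2.resolve_right h3.ne'⟩
    · rw [Finset.mem_erase] at hx
      rcases lt_trichotomy x r with h3 | h3 | h3
      · exact ha3 x hx.2 h3
      · exact absurd h3 hx.1
      · have := hb3 x hx.2 h3
        omega
  · rintro l (h1 | ⟨h1, h2⟩)
    · have hapos : 0 < a := by omega
      have har := ha4 hapos
      have haR := ha2.resolve_right hapos.ne'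
      have hf : (Rk.erase r).filter (l < ·) = (Rk.filter (l < ·)).erase r := by
        ext x
        simp only [Finset.mem_filter, Finset.mem_erase]
        tauto
      constructor
      · have h3 : (Rk.filter (l < ·)).Nonempty := ⟨a, Finset.mem_filter.2 ⟨haR, h1⟩⟩
        have h4 := Finset.min'_mem _ h3
        have h5 : (Rk.filter (l < ·)).min' h3 ≤ a :=
          Finset.min'_le _ _ (Finset.mem_filter.2 ⟨haR, h1⟩)
        have h6 : entr Rk l = (Rk.filter (l < ·)).min' h3 := by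
          unfold entr
          rw [dif_pos h3]
        rw [h6]
        apply ev1c_entr
        · rw [Finset.mem_erase]
          exact ⟨by omega, (Finset.mem_filter.1 h4).1⟩
        · exact (Finset.mem_filter.1 h4).2
        · intro x hx hlx
          exact Finset.min'_le _ _ (Finset.mem_filter.2 ⟨(Finset.mem_erase.1 hx).2, hlx⟩)
      · unfold prv
        congr 1
        ext x
        simp only [Finset.mem_filter, Finset.mem_erase]
        constructor
        · rintro ⟨⟨_, h3⟩, h4⟩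
          exact ⟨h3, h4⟩
        · rintro ⟨h3, h4⟩
          exact ⟨⟨by omega, h3⟩, h4⟩
    · constructor
      · unfold entr
        have hf : (Rk.erase r).filter (l < ·) = Rk.filter (l < ·) := by
          ext x
          simp only [Finset.mem_filter, Finset.mem_erase]
          constructor
          · rintro ⟨⟨_, h3⟩, h4⟩
            exact ⟨h3, h4⟩
          · rintro ⟨h3, h4⟩
            exact ⟨⟨by omega, h3⟩, h4⟩
        simp only [hf]
      · unfold prv
        apply le_antisymm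
        · exact Finset.sup_mono (Finset.filter_subset_filter _ (Finset.erase_subset _ _))
        · apply Finset.sup_le
          intro x hx
          rw [Finset.mem_filter] at hx
          have hbm : b ∈ (Rk.erase r).filter (· ≤ l) := by
            rw [Finset.mem_filter, Finset.mem_erase]
            exact ⟨⟨by omega, hb2.1⟩, h1⟩
          by_cases hxr : x = r
          · refine le_trans ?_ (Finset.le_sup (f := id) hbm)
            show x ≤ b
            omega
          · exact Finset.le_sup (f := id) (Finset.mem_filter.2 ⟨Finset.mem_erase.2 ⟨hxr, hx.1⟩,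
              hx.2⟩)

private theorem ev1c_rank_trace (Q : Matrix n n ℂ) (hQ : Q * Q = Q) :
    (Q.rank : ℂ) = Q.trace := by
  obtain ⟨G, G', s, h1, h2, h3, h4⟩ := exists_basis Q hQ
  conv_rhs => rw [h4]
  rw [Matrix.trace_mul_comm, ← Matrix.mul_assoc, h2, Matrix.one_mul, Matrix.trace_diagonal,
    ← h3]
  simp

private theorem ev1c_rank_sub (P Q : Matrix n n ℂ) (hP : P * P = P) (hQ : Q * Q = Q)
    (h1 : P * Q = P) (h2 : Q * P = P) :
    (Q - P) * (Q - P) = Q - P ∧ (Q - P).rank + P.rank = Q.rank := by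
  have hi : (Q - P) * (Q - P) = Q - P := by
    rw [sub_mul, mul_sub, mul_sub, hQ, h1, h2, hP]
    abel
  refine ⟨hi, ?_⟩
  have := ev1c_rank_trace (Q - P) hi
  rw [Matrix.trace_sub, ← ev1c_rank_trace P hP, ← ev1c_rank_trace Q hQ] at this
  have h3 : ((Q - P).rank + P.rank : ℂ) = Q.rank := by rw [this]; ring
  exact_mod_cast h3

private theorem ev1c_monomial (Rk : Finset ℕ) (Pr : ℕ → Matrix n n ℂ) (N : Matrix n n R)
    (x : Fin J → Pth m → R) (mon : ((Fin J × Pth m) ⊕ Fin κ) →₀ ℕ) :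
    evL Rk Pr N x κ (MvPolynomial.monomial mon 1) =
      (∏ v : Fin J × Pth m, x v.1 v.2 ^ mon (Sum.inl v)) *
      mixD (fun l : Ln Rk κ => cmat (Ql Rk Pr (l : Fin κ)) * N ^ mon (Sum.inr (l : Fin κ))) := by
  have h1 : MvPolynomial.monomial mon (1 : ℂ) =
      MvPolynomial.basisMonomials ((Fin J × Pth m) ⊕ Fin κ) ℂ mon := by
    rw [MvPolynomial.coe_basisMonomials]
  rw [h1]
  unfold evL
  rw [Module.Basis.constr_basis]

private theorem ev1c_rename (Rk : Finset ℕ) (Pr : ℕ → Matrix n n ℂ) (N : Matrix n n R)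
    (x : Fin J → Pth m → R) (mon : ((Fin J × Pth m) ⊕ Fin κ) →₀ ℕ) (σ : Equiv.Perm (Fin κ)) :
    evL Rk Pr N x κ (MvPolynomial.rename (Sum.map id σ.symm) (MvPolynomial.monomial mon 1)) =
      (∏ v : Fin J × Pth m, x v.1 v.2 ^ mon (Sum.inl v)) *
      mixD (fun l : Ln Rk κ => cmat (Ql Rk Pr (l : Fin κ)) *
        N ^ mon (Sum.inr (σ (l : Fin κ)))) := by
  rw [MvPolynomial.rename_monomial, ev1c_monomial]
  have h : ∀ y, Finsupp.mapDomain (Sum.map id σ.symm) mon y =
      mon ((Equiv.sumCongr (Equiv.refl (Fin J × Pth m)) σ) y) := by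
    intro y
    have := Finsupp.mapDomain_equiv_apply
      (f := (Equiv.sumCongr (Equiv.refl (Fin J × Pth m)) σ).symm) mon y
    exact this
  congr 1
  · refine Finset.prod_congr rfl fun v _ => ?_
    rw [h]
    rfl
  · congr 1
    funext l
    rw [h]
    rfl

private def ev1c_L (Rk : Finset ℕ) (κ a b : ℕ) : Finset (Ln Rk κ) :=
  univ.filter (fun l => a ≤ ((l : Fin κ) : ℕ) ∧ ((l : Fin κ) : ℕ) < b)

private theorem ev1c_card (Rk : Finset ℕ) (κ a b : ℕ) (hb : b ≤ rmax Rk) (hκ : rmax Rk ≤ κ) :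
    (ev1c_L Rk κ a b).card = b - a := by
  have h : (ev1c_L Rk κ a b).map ⟨fun l : Ln Rk κ => ((l : Fin κ) : ℕ), fun x y hxy =>
      Subtype.ext (Fin.ext hxy)⟩ = Finset.Ico a b := by
    ext y
    simp only [ev1c_L, Finset.mem_map, Finset.mem_filter, Finset.mem_univ, true_and,
      Function.Embedding.coeFn_mk, Finset.mem_Ico]
    constructor
    · rintro ⟨l, hl, rfl⟩
      exact hl
    · rintro ⟨h1, h2⟩
      exact ⟨⟨⟨y, by omega⟩, by show y < rmax Rk; omega⟩, ⟨h1, h2⟩, rfl⟩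
  rw [← Finset.card_map, h, Nat.card_Ico]

private theorem ev1c_main {S : Type*} [CommRing S] [Algebra ℂ S] (Rk : Finset ℕ)
    (Pr : ℕ → Matrix n n ℂ) (hc : Chain Rk Pr) (hκ : rmax Rk ≤ κ) (N : Matrix n n S)
    (x : Fin J → Pth m → S) (r a b : ℕ) (h1 : a ≤ r) (h2 : r < b) (h3 : b ≤ rmax Rk)
    (hr : r ∈ Rk) (hb : b ∈ Rk) (ha : a ∈ Rk ∨ a = 0)
    (hrm : rmax (Rk.erase r) = rmax Rk)
    (e1 : ∀ l, a ≤ l → l < r → entr Rk l = r ∧ prv Rk l = a)
    (e2 : ∀ l, r ≤ l → l < b → entr Rk l = b ∧ prv Rk l = r)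
    (e3 : ∀ l, a ≤ l → l < b → entr (Rk.erase r) l = b ∧ prv (Rk.erase r) l = a)
    (e4 : ∀ l, (l < a ∨ (b ≤ l ∧ l < rmax Rk)) → entr (Rk.erase r) l = entr Rk l ∧
        prv (Rk.erase r) l = prv Rk l)
    (F : MvPolynomial ((Fin J × Pth m) ⊕ Fin κ) ℂ) (hF : SymF (Rk.erase r) F) :
    evL (Rk.erase r) Pr N x κ F =
      (((ev1c_L Rk κ a b).powersetCard (r - a)).card : ℂ) • evL Rk Pr N x κ F := by
  classical
  obtain ⟨L, hL⟩ : ∃ L, L = ev1c_L Rk κ a b := ⟨_, rfl⟩
  have hLm : ∀ l : Ln Rk κ, l ∈ L ↔ a ≤ ((l : Fin κ) : ℕ) ∧ ((l : Fin κ) : ℕ) < b := by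
    intro l
    rw [hL]
    simp only [ev1c_L, Finset.mem_filter, Finset.mem_univ, true_and]
  have hLc : L.card = b - a := hL ▸ ev1c_card Rk κ a b h3 hκ
  have hAc : (ev1c_L Rk κ a r).card = r - a := ev1c_card Rk κ a r (by omega) hκ
  have hAL : ev1c_L Rk κ a r ⊆ L := by
    intro l hl
    rw [hLm]
    simp only [ev1c_L, Finset.mem_filter, Finset.mem_univ, true_and] at hl
    omega
  have hAm : ∀ l ∈ L, (l ∈ ev1c_L Rk κ a r ↔ ((l : Fin κ) : ℕ) < r) := by
    intro l hl
    rw [hLm] at hl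
    simp only [ev1c_L, Finset.mem_filter, Finset.mem_univ, true_and]
    omega
  -- the two idempotents
  have ida : Pr a * Pr a = Pr a := by
    rcases ha with ha | ha
    · exact hc.idem a ha
    · rw [ha, hc.zero, mul_zero]
  have nar : Pr a * Pr r = Pr a ∧ Pr r * Pr a = Pr a := by
    rcases ha with ha | ha
    · exact hc.nest a ha r hr h1
    · rw [ha, hc.zero, mul_zero, zero_mul]
      exact ⟨rfl, rfl⟩
  have rka : (Pr a).rank = a := by
    rcases ha with ha | ha
    · exact hc.rank a ha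
    · rw [ha, hc.zero, Matrix.rank_zero]
  obtain ⟨q1, q1r⟩ := ev1c_rank_sub (Pr a) (Pr r) ida (hc.idem r hr) nar.1 nar.2
  obtain ⟨q2, q2r⟩ := ev1c_rank_sub (Pr r) (Pr b) (hc.idem r hr) (hc.idem b hb)
    (hc.nest r hr b hb h2.le).1 (hc.nest r hr b hb h2.le).2
  rw [rka, hc.rank r hr] at q1r
  rw [hc.rank r hr, hc.rank b hb] at q2r
  have c1 : (cmat (Pr r - Pr a) : Matrix n n S) * cmat (Pr r - Pr a) = cmat (Pr r - Pr a) := by
    have h := cmat_mul (R := S) (Pr r - Pr a) (Pr r - Pr a)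
    rw [q1] at h
    exact h.symm
  have c2 : (cmat (Pr b - Pr r) : Matrix n n S) * cmat (Pr b - Pr r) = cmat (Pr b - Pr r) := by
    have h := cmat_mul (R := S) (Pr b - Pr r) (Pr b - Pr r)
    rw [q2] at h
    exact h.symm
  let P2 : Ln Rk κ → Matrix n n ℂ := fun l => if l ∈ L then Pr b - Pr r else Ql Rk Pr (l : Fin κ)
  let mm : (Fin κ → ℕ) → Ln Rk κ → Matrix n n S := fun β l => cmat (Pr r - Pr a) * N ^ β l
  let mm' : (Fin κ → ℕ) → Ln Rk κ → Matrix n n S := fun β l => cmat (P2 l) * N ^ β l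
  -- the permutations
  have hσ : ∀ T : Finset (Ln Rk κ), ∃ σ : Equiv.Perm (Fin κ), T ∈ L.powersetCard (r - a) →
      (∀ l : Fin κ, entr (Rk.erase r) (σ l) = entr (Rk.erase r) l) ∧
      (∀ β : Fin κ → ℕ, mixD (T.piecewise (mm β) (mm' β)) =
        mixD (fun l : Ln Rk κ => cmat (Ql Rk Pr (l : Fin κ)) * N ^ β (σ (l : Fin κ)))) := by
    intro T
    by_cases hT : T ∈ L.powersetCard (r - a)
    · rw [Finset.mem_powersetCard] at hT
      obtain ⟨τ, t1, t2, t3⟩ := ev1c_perm L (ev1c_L Rk κ a r) T hAL hT.1 (by rw [hAc, hT.2])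
      refine ⟨Equiv.Perm.ofSubtype τ, fun _ => ⟨?_, ?_⟩⟩
      · intro l
        by_cases hl : (l : ℕ) < rmax Rk
        · have h5 : Equiv.Perm.ofSubtype τ l = (τ ⟨l, hl⟩ : Fin κ) :=
            Equiv.Perm.ofSubtype_apply_of_mem τ hl
          rw [h5]
          by_cases hlL : (⟨l, hl⟩ : Ln Rk κ) ∈ L
          · have h6 := (hLm _).1 (t2 _ hlL)
            have h7 := (hLm _).1 hlL
            rw [(e3 _ h6.1 h6.2).1, (e3 _ h7.1 h7.2).1]
          · rw [t1 _ hlL]
        · have h5 : Equiv.Perm.ofSubtype τ l = l :=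
            Equiv.Perm.ofSubtype_apply_of_not_mem τ hl
          rw [h5]
      · intro β
        rw [← mixD_perm _ τ]
        congr 1
        funext l
        have h5 : Equiv.Perm.ofSubtype τ (l : Fin κ) = (τ l : Fin κ) :=
          Equiv.Perm.ofSubtype_apply_coe τ l
        rw [h5]
        by_cases hlL : l ∈ L
        · have h7 := (hLm _).1 hlL
          by_cases hlA : l ∈ ev1c_L Rk κ a r
          · rw [Finset.piecewise_eq_of_mem _ _ _ ((t3 l hlL).2 hlA)]
            have h8 := e1 _ h7.1 ((hAm l hlL).1 hlA)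
            have h9 : Ql Rk Pr (l : Fin κ) = Pr r - Pr a := by
              unfold Ql
              rw [h8.1, h8.2]
            rw [h9]
          · rw [Finset.piecewise_eq_of_notMem _ _ _ (fun h => hlA ((t3 l hlL).1 h))]
            have h8 := e2 _ (not_lt.1 fun h => hlA ((hAm l hlL).2 h)) h7.2
            have h9 : Ql Rk Pr (l : Fin κ) = Pr b - Pr r := by
              unfold Ql
              rw [h8.1, h8.2]
            rw [h9]
            simp only [mm', P2, if_pos (t2 l hlL)]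
        · have h8 : τ l = l := t1 l hlL
          rw [h8, Finset.piecewise_eq_of_notMem _ _ _ (fun h => hlL (hT.1 h))]
          simp only [mm', P2, if_neg hlL]
    · exact ⟨1, fun h => absurd h hT⟩
  choose σ hσ using hσ
  have hexp : ∀ β : Fin κ → ℕ,
      mixD (fun l : Ln (Rk.erase r) κ => cmat (Ql (Rk.erase r) Pr (l : Fin κ)) *
        N ^ β (l : Fin κ)) =
      ∑ T ∈ L.powersetCard (r - a), mixD (T.piecewise (mm β) (mm' β)) := by
    intro β
    rw [← mixD_perm (l' := Ln Rk κ) _ (Equiv.subtypeEquivRight fun l => by rw [hrm])]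
    have h5 : (fun i : Ln Rk κ => (cmat (Ql (Rk.erase r) Pr (((Equiv.subtypeEquivRight
        (fun l : Fin κ => by rw [hrm] : ∀ l : Fin κ, ((l : ℕ) < rmax Rk ↔
          (l : ℕ) < rmax (Rk.erase r))) i : Ln (Rk.erase r) κ) : Fin κ)))
        : Matrix n n S) * N ^ β (((Equiv.subtypeEquivRight
        (fun l : Fin κ => by rw [hrm] : ∀ l : Fin κ, ((l : ℕ) < rmax Rk ↔
          (l : ℕ) < rmax (Rk.erase r))) i : Ln (Rk.erase r) κ) : Fin κ))) =
        L.piecewise (mm β + mm' β) (mm' β) := by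
      funext l
      show (cmat (Ql (Rk.erase r) Pr (l : Fin κ)) : Matrix n n S) * N ^ β (l : Fin κ) = _
      by_cases hlL : l ∈ L
      · rw [Finset.piecewise_eq_of_mem _ _ _ hlL]
        have h7 := (hLm _).1 hlL
        have h8 := e3 _ h7.1 h7.2
        have h9 : Ql (Rk.erase r) Pr (l : Fin κ) = Pr b - Pr a := by
          unfold Ql
          rw [h8.1, h8.2]
        rw [h9, Pi.add_apply]
        simp only [mm, mm', P2, if_pos hlL]
        rw [← add_mul, cmat_sub, cmat_sub, cmat_sub]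
        congr 1
        abel
      · rw [Finset.piecewise_eq_of_notMem _ _ _ hlL]
        have h7 : ((l : Fin κ) : ℕ) < a ∨ (b ≤ ((l : Fin κ) : ℕ) ∧ ((l : Fin κ) : ℕ) < rmax Rk) := by
          rw [hLm] at hlL
          have := l.2
          omega
        have h8 := e4 _ h7
        have h9 : Ql (Rk.erase r) Pr (l : Fin κ) = Ql Rk Pr (l : Fin κ) := by
          unfold Ql
          rw [h8.1, h8.2]
        rw [h9]
        simp only [mm', P2, if_neg hlL]
    rw [h5, ← mixDL_apply, MultilinearMap.map_piecewise_add]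
    symm
    refine Finset.sum_subset (fun T hT => Finset.mem_powerset.2 (Finset.mem_powersetCard.1 hT).1) ?_
    intro T hT hT'
    rw [Finset.mem_powerset] at hT
    have hT2 : T.card ≠ r - a := fun h => hT' (Finset.mem_powersetCard.2 ⟨hT, h⟩)
    show mixD (T.piecewise (mm β) (mm' β)) = 0
    rcases lt_or_gt_of_ne hT2 with h6 | h6
    · refine mixD_rank _ (Pr b - Pr r) q2 (L \ T) ?_ ?_
      · rw [Finset.card_sdiff_of_subset hT, hLc]
        omega
      · intro i hi
        rw [Finset.mem_sdiff] at hi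
        rw [Finset.piecewise_eq_of_notMem _ _ _ hi.2]
        simp only [mm', P2, if_pos hi.1]
        rw [← mul_assoc, c2]
    · refine mixD_rank _ (Pr r - Pr a) q1 T (by omega) ?_
      intro i hi
      rw [Finset.piecewise_eq_of_mem _ _ _ hi]
      simp only [mm]
      rw [← mul_assoc, c1]
  have hlin : evL (Rk.erase r) Pr N x κ = ∑ T ∈ L.powersetCard (r - a),
      (evL Rk Pr N x κ) ∘ₗ (MvPolynomial.rename (R := ℂ)
        (Sum.map (id : Fin J × Pth m → Fin J × Pth m) (σ T).symm)).toLinearMap := by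
    refine (MvPolynomial.basisMonomials ((Fin J × Pth m) ⊕ Fin κ) ℂ).ext fun mon => ?_
    rw [MvPolynomial.coe_basisMonomials, ev1c_monomial, LinearMap.sum_apply, hexp
      (fun l => mon (Sum.inr l)), Finset.mul_sum]
    refine Finset.sum_congr rfl fun T hT => ?_
    rw [LinearMap.comp_apply, AlgHom.toLinearMap_apply, ev1c_rename,
      (hσ T hT).2 (fun l => mon (Sum.inr l))]
  rw [hlin, LinearMap.sum_apply, ← hL, Nat.cast_smul_eq_nsmul, ← Finset.sum_const]
  refine Finset.sum_congr rfl fun T hT => ?_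
  rw [LinearMap.comp_apply, AlgHom.toLinearMap_apply, hF.1 (σ T).symm]
  intro l
  have := (hσ T hT).1 ((σ T).symm l)
  rw [Equiv.apply_symm_apply] at this
  exact this.symm

omit [Fintype n] [DecidableEq n] in
private theorem ev1c_cmat_id (P : Matrix n n ℂ) : (cmat P : Matrix n n ℂ) = P := by
  ext i j
  simp [cmat]

private theorem ev1c_one (Rk : Finset ℕ) (Pr : ℕ → Matrix n n ℂ) :
    evL (J := J) (m := m) Rk Pr (0 : Matrix n n ℂ) (fun _ _ => 0) κ 1 = (cR Rk Pr κ)⁻¹ := by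
  have h : (1 : MvPolynomial ((Fin J × Pth m) ⊕ Fin κ) ℂ) = MvPolynomial.monomial 0 1 := rfl
  rw [h, ev1c_monomial]
  unfold cR
  rw [inv_inv]
  simp [ev1c_cmat_id]

private theorem ev1c_symF_one (Rk : Finset ℕ) :
    SymF Rk (1 : MvPolynomial ((Fin J × Pth m) ⊕ Fin κ) ℂ) := by
  refine ⟨fun σ _ => map_one _, fun mon hmon l _ => ?_⟩
  have h : mon = 0 := by
    have h1 : (1 : MvPolynomial ((Fin J × Pth m) ⊕ Fin κ) ℂ) = MvPolynomial.monomial 0 1 := rfl
    rw [h1] at hmon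
    have := MvPolynomial.support_monomial_subset hmon
    rwa [Finset.mem_singleton] at this
  rw [h]
  rfl

/-- removing one rank which is not the largest one: two consecutive pieces `Q1, Q2` are merged.
Expand `mixD` with `Q1 + Q2` in the lines of the merged piece over the subsets `S` of lines which
take `Q1`; by `mixD_rank` only `S.card = rank Q1` counts; by symmetry all these `S` contribute the
same (`mixD_perm`). -/
theorem ev_erase_mid (Rk : Finset ℕ) (Pr : ℕ → Matrix n n ℂ) (hc : Chain Rk Pr)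
    (hκ : rmax Rk ≤ κ) (N : Matrix n n R) (hN : ∀ r ∈ Rk, cmat (Pr r) * N = N * cmat (Pr r))
    (x : Fin J → Pth m → R) (r : ℕ) (hr : r ∈ Rk) (hr' : r < rmax Rk)
    (F : MvPolynomial ((Fin J × Pth m) ⊕ Fin κ) ℂ) (hF : SymF (Rk.erase r) F) :
    cR Rk Pr κ • evL Rk Pr N x κ F = cR (Rk.erase r) Pr κ • evL (Rk.erase r) Pr N x κ F := by
  obtain ⟨a, b, h1, h2, h3, hb, ha, hrm, e1, e2, e3, e4⟩ := ev1c_data Rk r hr hr'
  have hF2 := ev1c_main Rk Pr hc hκ N x r a b h1 h2 h3 hr hb ha hrm e1 e2 e3 e4 F hF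
  have h1' := ev1c_main (J := J) (m := m) Rk Pr hc hκ (0 : Matrix n n ℂ) (fun _ _ => 0)
    r a b h1 h2 h3 hr hb ha hrm e1 e2 e3 e4 1 (ev1c_symF_one _)
  rw [ev1c_one, ev1c_one, smul_eq_mul] at h1'
  have hc' : Chain (Rk.erase r) Pr := ⟨hc.zero, fun s hs => hc.idem s (Finset.mem_of_mem_erase hs),
    fun s hs s' hs' => hc.nest s (Finset.mem_of_mem_erase hs) s' (Finset.mem_of_mem_erase hs'),
    fun s hs => hc.rank s (Finset.mem_of_mem_erase hs)⟩
  have n1 : cR Rk Pr κ ≠ 0 := cR_ne hc hκ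
  have n2 : cR (Rk.erase r) Pr κ ≠ 0 := cR_ne hc' (by rw [hrm]; exact hκ)
  rw [hF2, smul_smul]
  congr 1
  have h5 : cR (Rk.erase r) Pr κ * (cR (Rk.erase r) Pr κ)⁻¹ * cR Rk Pr κ =
      cR (Rk.erase r) Pr κ * (((ev1c_L Rk κ a b).powersetCard (r - a)).card : ℂ) *
        ((cR Rk Pr κ)⁻¹ * cR Rk Pr κ) := by
    rw [h1']
    ring
  rw [mul_inv_cancel₀ n2, inv_mul_cancel₀ n1, one_mul, mul_one] at h5
  exact h5

end Pool.Agent.MP_d8b6c2_an
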