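import Mathlib
import Pool.Agent.Lib.MP_d8b6c2_an.Ev
import Pool.Agent.Lib.MP_d8b6c2_an.Poly1
import Pool.Agent.Lib.MP_d8b6c2_an.MD2
import Pool.Agent.Lib.MP_d8b6c2_an.Ev1c

/-! Independence of the value on the chain; certified labels; total mass. -/

namespace Pool.Agent.MP_d8b6c2_an

open Finset

variable {n : Type*} [Fintype n] [DecidableEq n]
variable {R : Type*} [CommRing R] [Algebra ℂ R]
variable {J : ℕ} {m : Fin J → ℕ} {κ : ℕ}

private def ev1d_equiv (a b κ : ℕ) (h : a ≤ b) :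
    ({l : Fin κ // (l : ℕ) < a} ⊕ {l : Fin κ // a ≤ (l : ℕ) ∧ (l : ℕ) < b}) ≃
      {l : Fin κ // (l : ℕ) < b} where
  toFun := Sum.elim (fun l => ⟨l.1, lt_of_lt_of_le l.2 h⟩) (fun l => ⟨l.1, l.2.2⟩)
  invFun := fun l => if h' : (l.1 : ℕ) < a then Sum.inl ⟨l.1, h'⟩
    else Sum.inr ⟨l.1, ⟨not_lt.mp h', l.2⟩⟩
  left_inv := by
    rintro (l | l)
    · simp [l.2]
    · have : ¬ ((l.1 : ℕ) < a) := not_lt.mpr l.2.1
      simp [this]
  right_inv := by
    intro l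
    by_cases h' : (l.1 : ℕ) < a <;> simp [h']

private theorem ev1d_rmax_mem {s : Finset ℕ} (h : 0 < rmax s) : rmax s ∈ s := by
  have hne : s.Nonempty := by
    by_contra hn
    rw [Finset.not_nonempty_iff_eq_empty] at hn
    subst hn
    simp [rmax] at h
  obtain ⟨a, ha, hae⟩ := Finset.exists_mem_eq_sup s hne id
  unfold rmax
  rw [hae]
  exact ha

private theorem ev1d_le_rmax {s : Finset ℕ} {a : ℕ} (h : a ∈ s) : a ≤ rmax s :=
  Finset.le_sup (f := id) h

private theorem ev1d_lt {s : Finset ℕ} (_hr : rmax s ∈ s) :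
    rmax (s.erase (rmax s)) ≤ rmax s := by
  unfold rmax
  exact Finset.sup_mono (Finset.erase_subset _ _)

private theorem ev1d_entr {s : Finset ℕ} {l : ℕ} (h : l < rmax (s.erase (rmax s))) :
    entr s l = entr (s.erase (rmax s)) l := by
  have hm := ev1d_rmax_mem (lt_of_le_of_lt (Nat.zero_le _) h)
  have h1 : ((s.erase (rmax s)).filter (l < ·)).Nonempty :=
    ⟨_, Finset.mem_filter.mpr ⟨hm, h⟩⟩
  have h2 : (s.filter (l < ·)).Nonempty :=
    ⟨_, Finset.mem_filter.mpr ⟨Finset.mem_of_mem_erase hm, h⟩⟩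
  unfold entr
  rw [dif_pos h1, dif_pos h2]
  apply le_antisymm
  · apply Finset.min'_le
    have := Finset.min'_mem _ h1
    rw [Finset.mem_filter] at this ⊢
    exact ⟨Finset.mem_of_mem_erase this.1, this.2⟩
  · apply Finset.min'_le
    have h3 := Finset.min'_mem _ h2
    have h4 : (s.filter (l < ·)).min' h2 ≤ rmax (s.erase (rmax s)) :=
      Finset.min'_le _ _ (Finset.mem_filter.mpr ⟨Finset.mem_of_mem_erase hm, h⟩)
    have h5 : rmax (s.erase (rmax s)) ≠ rmax s := (Finset.mem_erase.mp hm).1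
    have h6 : rmax (s.erase (rmax s)) ≤ rmax s := ev1d_le_rmax (Finset.mem_of_mem_erase hm)
    rw [Finset.mem_filter] at h3 ⊢
    refine ⟨Finset.mem_erase.mpr ⟨?_, h3.1⟩, h3.2⟩
    intro h7
    rw [h7] at h4
    exact h5 (le_antisymm h6 h4)

private theorem ev1d_prv {s : Finset ℕ} {l : ℕ} (h : l < rmax s) :
    prv s l = prv (s.erase (rmax s)) l := by
  unfold prv
  congr 1
  ext a
  simp only [Finset.mem_filter, Finset.mem_erase]
  constructor
  · rintro ⟨h1, h2⟩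
    exact ⟨⟨fun h3 => absurd h (by rw [← h3]; omega), h1⟩, h2⟩
  · rintro ⟨⟨_, h1⟩, h2⟩
    exact ⟨h1, h2⟩

private theorem ev1d_entr2 {s : Finset ℕ} (hr : rmax s ∈ s) {l : ℕ}
    (h : rmax (s.erase (rmax s)) ≤ l) (h' : l < rmax s) : entr s l = rmax s := by
  have h2 : (s.filter (l < ·)).Nonempty :=
    ⟨_, Finset.mem_filter.mpr ⟨hr, h'⟩⟩
  unfold entr
  rw [dif_pos h2]
  have h3 := Finset.min'_mem _ h2
  rw [Finset.mem_filter] at h3
  by_contra hne
  have h4 : (s.filter (l < ·)).min' h2 ∈ s.erase (rmax s) := Finset.mem_erase.mpr ⟨hne, h3.1⟩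
  have h5 := ev1d_le_rmax h4
  omega

private theorem ev1d_prv2 {s : Finset ℕ} {l : ℕ}
    (h : rmax (s.erase (rmax s)) ≤ l) (h' : l < rmax s) :
    prv s l = rmax (s.erase (rmax s)) := by
  have h1 : s.filter (· ≤ l) = s.erase (rmax s) := by
    ext a
    simp only [Finset.mem_filter, Finset.mem_erase]
    constructor
    · rintro ⟨h1, h2⟩
      exact ⟨fun h3 => by omega, h1⟩
    · rintro ⟨h1, h2⟩
      exact ⟨h2, le_trans (ev1d_le_rmax (Finset.mem_erase.mpr ⟨h1, h2⟩)) h⟩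
  unfold prv
  rw [h1]
  rfl

private theorem ev1d_comm {S : Type*} [CommRing S] [Algebra ℂ S] {Rk : Finset ℕ}
    {Pr : ℕ → Matrix n n ℂ} (hc : Chain Rk Pr) {N : Matrix n n S}
    (hN : ∀ r ∈ Rk, cmat (Pr r) * N = N * cmat (Pr r)) {a : ℕ} (ha : a ∈ Rk ∨ a = 0) :
    (cmat (Pr a) : Matrix n n S) * N = N * cmat (Pr a) := by
  rcases ha with ha | ha
  · exact hN a ha
  · subst ha
    rw [hc.zero]
    have : (cmat (0 : Matrix n n ℂ) : Matrix n n S) = 0 := by
      ext i j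
      simp [cmat]
    rw [this, zero_mul, mul_zero]

private theorem ev1d_nest {Rk : Finset ℕ} {Pr : ℕ → Matrix n n ℂ} (hc : Chain Rk Pr)
    {a b : ℕ} (ha : a ∈ Rk ∨ a = 0) (hb : b ∈ Rk) (hab : a ≤ b) : Pr a * Pr b = Pr a := by
  rcases ha with ha | ha
  · exact (hc.nest a ha b hb hab).1
  · subst ha
    rw [hc.zero, zero_mul]

private theorem ev1d_prv_mem (s : Finset ℕ) (l : ℕ) : prv s l ∈ s ∨ prv s l = 0 := by
  rcases Finset.eq_empty_or_nonempty (s.filter (· ≤ l)) with h | h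
  · right
    unfold prv
    rw [h]
    rfl
  · left
    obtain ⟨a, ha, hae⟩ := Finset.exists_mem_eq_sup _ h id
    unfold prv
    rw [hae]
    exact (Finset.mem_filter.mp ha).1

private theorem ev1d_prv_le (s : Finset ℕ) (l : ℕ) : prv s l ≤ l := by
  unfold prv
  apply Finset.sup_le
  intro a ha
  exact (Finset.mem_filter.mp ha).2

private theorem ev1d_split {S : Type*} [CommRing S] [Algebra ℂ S] {Rk : Finset ℕ}
    {Pr : ℕ → Matrix n n ℂ} (hc : Chain Rk Pr) (hr : rmax Rk ∈ Rk) (N : Matrix n n S)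
    (hN : ∀ r ∈ Rk, cmat (Pr r) * N = N * cmat (Pr r)) (b : Fin κ → ℕ)
    (hb : ∀ l : Fin κ, rmax (Rk.erase (rmax Rk)) ≤ l → b l = 0) :
    mixD (fun l : Ln Rk κ => cmat (Ql Rk Pr (l : Fin κ)) * N ^ b (l : Fin κ)) =
      mixD (fun l : Ln (Rk.erase (rmax Rk)) κ =>
        cmat (Ql (Rk.erase (rmax Rk)) Pr (l : Fin κ)) * N ^ b (l : Fin κ)) *
      algebraMap ℂ S (mixD (fun _ : {l : Fin κ // rmax (Rk.erase (rmax Rk)) ≤ (l : ℕ) ∧
        (l : ℕ) < rmax Rk} => Pr (rmax Rk) - Pr (rmax (Rk.erase (rmax Rk))))) := by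
  set r' := rmax (Rk.erase (rmax Rk)) with hr'
  have hle : r' ≤ rmax Rk := ev1d_lt hr
  have hr'm : r' ∈ Rk ∨ r' = 0 := by
    rcases Nat.eq_zero_or_pos r' with h | h
    · exact Or.inr h
    · exact Or.inl (Finset.mem_of_mem_erase (ev1d_rmax_mem h))
  rw [mixD_map, ← mixD_sum]
  · rw [← mixD_perm _ (ev1d_equiv r' (rmax Rk) κ hle)]
    congr 1
    funext l
    rcases l with l | l
    · have h1 : Ql Rk Pr (l.1 : Fin κ) = Ql (Rk.erase (rmax Rk)) Pr (l.1 : Fin κ) := by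
        unfold Ql
        rw [ev1d_entr l.2, ev1d_prv (lt_of_lt_of_le l.2 hle)]
      show cmat (Ql Rk Pr (l.1 : Fin κ)) * N ^ b l.1 =
        cmat (Ql (Rk.erase (rmax Rk)) Pr (l.1 : Fin κ)) * N ^ b l.1
      rw [h1]
    · have h1 : Ql Rk Pr (l.1 : Fin κ) = Pr (rmax Rk) - Pr r' := by
        unfold Ql
        rw [ev1d_entr2 hr l.2.1 l.2.2, ev1d_prv2 l.2.1 l.2.2]
      show cmat (Ql Rk Pr (l.1 : Fin κ)) * N ^ b l.1 =
        (Pr (rmax Rk) - Pr r').map (algebraMap ℂ S)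
      rw [h1, hb l.1 l.2.1, pow_zero, mul_one]
      rfl
  · intro i j
    have hiN : N ^ b (i.1) * (cmat (Pr (rmax Rk) - Pr r') : Matrix n n S) =
        cmat (Pr (rmax Rk) - Pr r') * N ^ b (i.1) := by
      have : Commute N (cmat (Pr (rmax Rk) - Pr r') : Matrix n n S) := by
        rw [cmat_sub]
        exact (Commute.sub_right (ev1d_comm hc hN (Or.inl hr)).symm
          (ev1d_comm hc hN hr'm).symm)
      exact (this.pow_left _).eq
    have hlt : 0 < r' := lt_of_le_of_lt (Nat.zero_le _) i.2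
    have hr'm2 : r' ∈ Rk.erase (rmax Rk) := ev1d_rmax_mem hlt
    have hQQ : Ql (Rk.erase (rmax Rk)) Pr (i.1 : Fin κ) * (Pr (rmax Rk) - Pr r') = 0 := by
      have he : entr (Rk.erase (rmax Rk)) (i.1 : Fin κ) ∈ Rk.erase (rmax Rk) ∧
          entr (Rk.erase (rmax Rk)) (i.1 : Fin κ) ≤ r' := by
        have h1 : ((Rk.erase (rmax Rk)).filter (((i.1 : Fin κ) : ℕ) < ·)).Nonempty :=
          ⟨_, Finset.mem_filter.mpr ⟨hr'm2, i.2⟩⟩
        unfold entr
        rw [dif_pos h1]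
        exact ⟨(Finset.mem_filter.mp (Finset.min'_mem _ h1)).1,
          Finset.min'_le _ _ (Finset.mem_filter.mpr ⟨hr'm2, i.2⟩)⟩
      have hp : prv (Rk.erase (rmax Rk)) (i.1 : Fin κ) ∈ Rk ∨
          prv (Rk.erase (rmax Rk)) (i.1 : Fin κ) = 0 := by
        rcases ev1d_prv_mem (Rk.erase (rmax Rk)) (i.1 : Fin κ) with h | h
        · exact Or.inl (Finset.mem_of_mem_erase h)
        · exact Or.inr h
      have hple : prv (Rk.erase (rmax Rk)) (i.1 : Fin κ) ≤ r' :=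
        le_trans (ev1d_prv_le _ _) i.2.le
      have heR := Finset.mem_of_mem_erase he.1
      have hrR := Finset.mem_of_mem_erase hr'm2
      unfold Ql
      rw [sub_mul, mul_sub, mul_sub, ev1d_nest hc (Or.inl heR) hr (le_trans he.2 hle),
        ev1d_nest hc (Or.inl heR) hrR he.2, ev1d_nest hc hp hr (le_trans hple hle),
        ev1d_nest hc hp hrR hple]
      simp
    show cmat (Ql (Rk.erase (rmax Rk)) Pr (i.1 : Fin κ)) * N ^ b i.1 *
        cmat (Pr (rmax Rk) - Pr r') = 0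
    have h2 : (cmat (0 : Matrix n n ℂ) : Matrix n n S) = 0 := by
      ext i j
      simp [cmat]
    have h3 : (cmat (Ql (Rk.erase (rmax Rk)) Pr (i.1 : Fin κ)) : Matrix n n S) *
        cmat (Pr (rmax Rk) - Pr r') = 0 := by
      have h1 := cmat_mul (R := S) (Ql (Rk.erase (rmax Rk)) Pr (i.1 : Fin κ))
        (Pr (rmax Rk) - Pr r')
      rw [hQQ, h2] at h1
      exact h1.symm
    rw [mul_assoc, hiN, ← mul_assoc, h3, zero_mul]

omit [Fintype n] [DecidableEq n] in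
private theorem ev1d_cmat_id (P : Matrix n n ℂ) : (cmat P : Matrix n n ℂ) = P := by
  ext i j
  simp [cmat]

private theorem ev1d_evL (Rk : Finset ℕ) (Pr : ℕ → Matrix n n ℂ) (N : Matrix n n R)
    (x : Fin J → Pth m → R) (F : MvPolynomial ((Fin J × Pth m) ⊕ Fin κ) ℂ) :
    evL Rk Pr N x κ F = ∑ mon ∈ F.support, MvPolynomial.coeff mon F •
      ((∏ v : Fin J × Pth m, x v.1 v.2 ^ mon (Sum.inl v)) *
      mixD (fun l : Ln Rk κ => cmat (Ql Rk Pr (l : Fin κ)) * N ^ mon (Sum.inr (l : Fin κ)))) := by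
  conv_lhs => rw [MvPolynomial.as_sum F]
  rw [map_sum]
  refine Finset.sum_congr rfl fun mon _ => ?_
  have h1 : MvPolynomial.monomial mon (MvPolynomial.coeff mon F) =
      MvPolynomial.coeff mon F • (MvPolynomial.basisMonomials ((Fin J × Pth m) ⊕ Fin κ) ℂ mon) := by
    rw [MvPolynomial.coe_basisMonomials, MvPolynomial.smul_monomial, smul_eq_mul, mul_one]
  rw [h1, map_smul]
  congr 1
  unfold evL
  rw [Module.Basis.constr_basis]

/-- removing the largest rank: the lines of the last piece only give the factor `mixD Q`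
(`mixD_sum`) -/
theorem ev_erase_max (Rk : Finset ℕ) (Pr : ℕ → Matrix n n ℂ) (hc : Chain Rk Pr)
    (hκ : rmax Rk ≤ κ) (N : Matrix n n R) (hN : ∀ r ∈ Rk, cmat (Pr r) * N = N * cmat (Pr r))
    (x : Fin J → Pth m → R) (hr : rmax Rk ∈ Rk)
    (F : MvPolynomial ((Fin J × Pth m) ⊕ Fin κ) ℂ) (hF : SymF (Rk.erase (rmax Rk)) F) :
    cR Rk Pr κ • evL Rk Pr N x κ F =
      cR (Rk.erase (rmax Rk)) Pr κ • evL (Rk.erase (rmax Rk)) Pr N x κ F := by
  have hle : rmax (Rk.erase (rmax Rk)) ≤ rmax Rk := ev1d_lt hr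
  set D : ℂ := mixD (fun _ : {l : Fin κ // rmax (Rk.erase (rmax Rk)) ≤ (l : ℕ) ∧
        (l : ℕ) < rmax Rk} => Pr (rmax Rk) - Pr (rmax (Rk.erase (rmax Rk)))) with hD
  have hev : evL Rk Pr N x κ F = D • evL (Rk.erase (rmax Rk)) Pr N x κ F := by
    rw [ev1d_evL, ev1d_evL, Finset.smul_sum]
    refine Finset.sum_congr rfl fun mon hmon => ?_
    rw [ev1d_split hc hr N hN (fun l => mon (Sum.inr l)) (fun l hl => hF.2 mon hmon l hl),
      ← hD, ← mul_assoc, mul_comm _ (algebraMap ℂ R D), ← Algebra.smul_def, smul_comm]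
  have hcR : (cR Rk Pr κ)⁻¹ = (cR (Rk.erase (rmax Rk)) Pr κ)⁻¹ * D := by
    unfold cR
    rw [inv_inv, inv_inv]
    have h0 := ev1d_split (S := ℂ) (κ := κ) hc hr (0 : Matrix n n ℂ)
      (fun r _ => by rw [mul_zero, zero_mul]) (fun _ => 0) (fun _ _ => rfl)
    simp only [pow_zero, mul_one, ev1d_cmat_id, Algebra.algebraMap_self, RingHom.id_apply] at h0
    exact h0
  have hne : cR Rk Pr κ ≠ 0 := cR_ne hc hκ
  have hDne : D ≠ 0 := by
    intro h
    rw [h, mul_zero] at hcR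
    exact hne (inv_eq_zero.mp hcR)
  rw [hev, smul_smul]
  congr 1
  have h2 : cR Rk Pr κ = cR (Rk.erase (rmax Rk)) Pr κ * D⁻¹ := by
    rw [← inv_inv (cR Rk Pr κ), hcR, mul_inv, inv_inv]
  rw [h2, mul_assoc, inv_mul_cancel₀ hDne, mul_one]

end Pool.Agent.MP_d8b6c2_an
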