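import Mathlib
import Pool.Agent.Lib.MP_d8b6c2_an.Ev
import Pool.Agent.Lib.MP_d8b6c2_an.Poly1
import Pool.Agent.Lib.MP_d8b6c2_an.MD2
import Pool.Agent.Lib.MP_d8b6c2_an.Ev1d

/-! Independence of the value on the chain; certified labels; total mass. -/

namespace Pool.Agent.MP_d8b6c2_an

open Finset

variable {n : Type*} [Fintype n] [DecidableEq n]
variable {R : Type*} [CommRing R] [Algebra ℂ R]
variable {J : ℕ} {m : Fin J → ℕ} {κ : ℕ}

private theorem ev1e_entr {Rk Rk' : Finset ℕ} (h : Rk' ⊆ Rk) {a b : ℕ} (hab : entr Rk a = entr Rk b) :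
    entr Rk' a = entr Rk' b := by
  have key : ∀ a b : ℕ, entr Rk a = entr Rk b → ∀ r ∈ Rk', a < r → b < r := by
    intro a b hab r hr har
    have h1 := entr_mem ((lt_rmax_iff Rk a).2 ⟨r, h hr, har⟩)
    have h2 : entr Rk a ≤ r := entr_le (h hr) har
    have h3 : b < rmax Rk := by
      by_contra hcon
      have h4 : entr Rk b = 0 := by
        unfold entr
        rw [dif_neg]
        rintro ⟨c, hc⟩
        rw [Finset.mem_filter] at hc
        exact hcon ((lt_rmax_iff Rk b).2 ⟨c, hc.1, hc.2⟩)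
      rw [hab, h4] at h1
      exact absurd h1.2 (Nat.not_lt_zero _)
    have h5 := (entr_mem h3).2
    rw [← hab] at h5
    exact lt_of_lt_of_le h5 h2
  have hfil : Rk'.filter (a < ·) = Rk'.filter (b < ·) := by
    ext r
    simp only [Finset.mem_filter]
    constructor
    · rintro ⟨h1, h2⟩
      exact ⟨h1, key a b hab r h1 h2⟩
    · rintro ⟨h1, h2⟩
      exact ⟨h1, key b a hab.symm r h1 h2⟩
  unfold entr
  simp only [hfil]

private theorem ev1e_rmax {Rk Rk' : Finset ℕ} (h : Rk' ⊆ Rk) : rmax Rk' ≤ rmax Rk := by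
  unfold rmax
  exact Finset.sup_mono h

/-- symmetry passes to finer chains -/
theorem symF_mono {Rk Rk' : Finset ℕ} (h : Rk' ⊆ Rk)
    {F : MvPolynomial ((Fin J × Pth m) ⊕ Fin κ) ℂ} (hF : SymF Rk' F) : SymF Rk F := by
  refine ⟨fun σ hσ => hF.1 σ fun l => ev1e_entr h (hσ l), fun mon hmon l hl =>
    hF.2 mon hmon l (le_trans (ev1e_rmax h) hl)⟩

theorem chain_mono {Rk Rk' : Finset ℕ} (h : Rk' ⊆ Rk) {Pr : ℕ → Matrix n n ℂ}
    (hc : Chain Rk Pr) : Chain Rk' Pr := by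
  exact ⟨hc.zero, fun r hr => hc.idem r (h hr), fun r hr r' hr' => hc.nest r (h hr) r' (h hr'),
    fun r hr => hc.rank r (h hr)⟩

theorem ev_subset (Rk Rk' : Finset ℕ) (h : Rk' ⊆ Rk) (Pr : ℕ → Matrix n n ℂ) (hc : Chain Rk Pr)
    (hκ : rmax Rk ≤ κ) (N : Matrix n n R) (hN : ∀ r ∈ Rk, cmat (Pr r) * N = N * cmat (Pr r))
    (x : Fin J → Pth m → R)
    (F : MvPolynomial ((Fin J × Pth m) ⊕ Fin κ) ℂ) (hF : SymF Rk' F) :
    cR Rk Pr κ • evL Rk Pr N x κ F = cR Rk' Pr κ • evL Rk' Pr N x κ F := by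
  induction hn : (Rk \ Rk').card using Nat.strong_induction_on generalizing Rk with
  | _ k ih =>
    by_cases he : Rk = Rk'
    · rw [he]
    · obtain ⟨r, hr, hr'⟩ : ∃ r ∈ Rk, r ∉ Rk' := by
        by_contra hcon
        push Not at hcon
        exact he (Finset.Subset.antisymm hcon h)
      have hsub : Rk' ⊆ Rk.erase r := fun a ha =>
        Finset.mem_erase.2 ⟨fun h1 => hr' (h1 ▸ ha), h ha⟩
      have hsub2 : Rk.erase r ⊆ Rk := Finset.erase_subset _ _
      have hlt : (Rk.erase r \ Rk').card < k := by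
        rw [← hn]
        refine Finset.card_lt_card ?_
        rw [Finset.ssubset_iff_of_subset (Finset.sdiff_subset_sdiff hsub2 (Finset.Subset.refl _))]
        exact ⟨r, Finset.mem_sdiff.2 ⟨hr, hr'⟩, fun h1 =>
          Finset.notMem_erase r Rk (Finset.mem_sdiff.1 h1).1⟩
      have h2 := ih _ hlt (Rk.erase r) hsub (chain_mono hsub2 hc)
        (le_trans (ev1e_rmax hsub2) hκ) (fun a ha => hN a (hsub2 ha)) rfl
      rw [← h2]
      have hF1 : SymF (Rk.erase r) F := symF_mono hsub hF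
      rcases lt_or_eq_of_le (le_rmax hr) with h3 | h3
      · exact ev_erase_mid Rk Pr hc hκ N hN x r hr h3 F hF1
      · subst h3
        exact ev_erase_max Rk Pr hc hκ N hN x hr F hF1

open Classical in
/-- MAIN LEMMA 1 (independence of the chain). -/
theorem TD_sum_eq (M cap : Fin J → ℕ) (hM : ∀ t, 0 < M t) (Rk Rk' : Finset ℕ) (h : Rk' ⊆ Rk)
    (Pr : ℕ → Matrix n n ℂ) (hc : Chain Rk Pr) (hκ : rmax Rk ≤ κ) (N : Matrix n n R)
    (hN : ∀ r ∈ Rk, cmat (Pr r) * N = N * cmat (Pr r)) (x : Fin J → Pth m → R)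
    (γ : (Fin κ → Pth m) → Prop) (hγ : ClsInv cap Rk γ) (hγ' : ClsInv cap Rk' γ)
    (hγσ : ∀ p (σ : Equiv.Perm (Fin κ)),
      (∀ l : Fin κ, entr Rk' (σ l) = entr Rk' l) → (γ (fun l => p (σ l)) ↔ γ p)) :
    ∑ p ∈ univ.filter (fun p : Fin κ → Pth m => IsCan cap Rk p ∧ γ p), TD M cap Rk Pr N x p =
      ∑ p ∈ univ.filter (fun p : Fin κ → Pth m => IsCan cap Rk' p ∧ γ p),
        TD M cap Rk' Pr N x p := by
  have hTD : ∀ (S : Finset ℕ) (p : Fin κ → Pth m), TD M cap S Pr N x p =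
      cR S Pr κ • evL S Pr N x κ (Tpol M cap S p) := by
    intro S p
    rw [ev_Tpol, Algebra.smul_def]
    rfl
  have hsum : ∀ S : Finset ℕ,
      ∑ p ∈ univ.filter (fun p : Fin κ → Pth m => IsCan cap S p ∧ γ p), TD M cap S Pr N x p =
      cR S Pr κ • evL S Pr N x κ
        (∑ p ∈ univ.filter (fun p : Fin κ → Pth m => IsCan cap S p ∧ γ p), Tpol M cap S p) := by
    intro S
    rw [map_sum, Finset.smul_sum]
    exact Finset.sum_congr rfl fun p _ => hTD S p
  rw [hsum Rk, hsum Rk', Tpol_sum_eq M cap hM Rk Rk' γ hγ hγ']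
  exact ev_subset Rk Rk' h Pr hc hκ N hN x _ (symF_sum M cap Rk' γ hγσ)

/-- MAIN LEMMA 2 (total mass): `TD_sum_eq` with `Rk' = ∅`. -/
theorem TD_total (M cap : Fin J → ℕ) (hM : ∀ t, 0 < M t) (Rk : Finset ℕ)
    (Pr : ℕ → Matrix n n ℂ) (hc : Chain Rk Pr) (hκ : rmax Rk ≤ κ) (N : Matrix n n R)
    (hN : ∀ r ∈ Rk, cmat (Pr r) * N = N * cmat (Pr r)) (x : Fin J → Pth m → R) :
    ∑ p ∈ univ.filter (fun p : Fin κ → Pth m => IsCan cap Rk p), TD M cap Rk Pr N x p =
      xtot M cap x := by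
  classical
  have h0 := TD_sum_eq M cap hM Rk ∅ (Finset.empty_subset _) Pr hc hκ N hN x
    (fun _ : Fin κ → Pth m => True) (fun _ _ _ => Iff.rfl) (fun _ _ _ => Iff.rfl)
    (fun _ _ _ => Iff.rfl)
  simp only [and_true] at h0
  have hl0 : ∀ (p : Fin κ → Pth m) (l : Fin κ), ldep cap ∅ p l = 0 := by
    intro p l
    unfold ldep
    rw [if_neg]
    simp [rmax]
  have hpre0 : ∀ w : Pth m, pre 0 w = fun _ => 0 := by
    intro w
    funext s
    simp [pre]
  have hfil : (univ.filter fun p : Fin κ → Pth m => IsCan cap ∅ p) = {fun _ _ => 0} := by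
    ext p
    simp only [mem_filter, mem_univ, true_and, mem_singleton]
    constructor
    · intro hp
      funext l
      have := hp l
      rw [hl0, hpre0] at this
      exact this.symm
    · rintro rfl l
      rw [hl0, hpre0]
  have hL : IsEmpty (Ln ∅ κ) := ⟨fun l => by
    have := l.2
    simp [rmax] at this⟩
  have h1 : ∑ p ∈ univ.filter (fun p : Fin κ → Pth m => IsCan cap Rk p), TD M cap Rk Pr N x p =
      ∑ p ∈ univ.filter (fun p : Fin κ → Pth m => IsCan cap ∅ p), TD M cap ∅ Pr N x p := by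
    convert h0 using 2
  rw [h1, hfil, Finset.sum_singleton]
  unfold TD
  have h2 := mixD_Ql (R := R) (κ := κ) (chain_mono (Finset.empty_subset Rk) hc)
    (by simp [rmax] : rmax ∅ ≤ κ)
  have h3 : (fun l : Ln ∅ κ => cmat (Ql ∅ Pr (l : Fin κ)) *
      Polynomial.aeval N (Apoly M x (ldep cap ∅ (fun _ _ => (0 : Fin _) : Fin κ → Pth m) l)
        (fun _ => 0))) = (fun l : Ln ∅ κ => (cmat (Ql ∅ Pr (l : Fin κ)) : Matrix n n R)) := by
    funext l
    exact hL.elim l
  rw [h3, mul_left_comm, h2, mul_one]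
  unfold xmon xtot
  refine Finset.prod_congr rfl fun v _ => ?_
  have h4 : rho cap ∅ (fun _ _ => (0 : Fin _) : Fin κ → Pth m) v.1 v.2 = 0 := by
    unfold rho
    rw [Finset.card_eq_zero, Finset.filter_eq_empty_iff]
    intro l _
    rw [hl0]
    simp
  rw [h4, Nat.sub_zero]

end Pool.Agent.MP_d8b6c2_an
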