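import Mathlib
import Pool.Agent.Lib.MP_d8b6c2_an.Ev
import Pool.Agent.Lib.MP_d8b6c2_an.Poly1
import Pool.Agent.Lib.MP_d8b6c2_an.MD2
import Pool.Agent.Lib.MP_d8b6c2_an.Ev1e

/-! Independence of the value on the chain; certified labels; total mass. -/

namespace Pool.Agent.MP_d8b6c2_an

open Finset

variable {n : Type*} [Fintype n] [DecidableEq n]
variable {R : Type*} [CommRing R] [Algebra ℂ R]
variable {J : ℕ} {m : Fin J → ℕ} {κ : ℕ}

private theorem ev1f_le_rmax {Rk : Finset ℕ} {r : ℕ} (hr : r ∈ Rk) : r ≤ rmax Rk :=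
  Finset.le_sup (f := id) hr

private theorem ev1f_entr_mem {Rk : Finset ℕ} {l : ℕ} (hl : l < rmax Rk) :
    entr Rk l ∈ Rk := by
  have h : (Rk.filter (l < ·)).Nonempty := by
    have hne : Rk.Nonempty := by
      by_contra hne
      rw [Finset.not_nonempty_iff_eq_empty] at hne
      subst hne
      simp [rmax] at hl
    obtain ⟨a, ha, hal⟩ := Finset.exists_mem_eq_sup Rk hne id
    refine ⟨a, ?_⟩
    rw [Finset.mem_filter]
    refine ⟨ha, ?_⟩
    have : rmax Rk = a := hal
    omega
  unfold entr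
  rw [dif_pos h]
  exact (Finset.mem_filter.1 (Finset.min'_mem _ h)).1

private theorem ev1f_entr_min {Rk : Finset ℕ} {r1 l : ℕ} (h1 : r1 ∈ Rk)
    (hmin : ∀ r ∈ Rk, r1 ≤ r) (hl : l < r1) : entr Rk l = r1 := by
  have h : (Rk.filter (l < ·)).Nonempty := ⟨r1, by simp [h1, hl]⟩
  unfold entr
  rw [dif_pos h]
  apply le_antisymm
  · exact Finset.min'_le _ _ (by simp [h1, hl])
  · exact hmin _ (Finset.mem_filter.1 (Finset.min'_mem _ h)).1

private theorem ev1f_prv_min {Rk : Finset ℕ} {r1 l : ℕ}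
    (hmin : ∀ r ∈ Rk, r1 ≤ r) (hl : l < r1) : prv Rk l = 0 := by
  unfold prv
  have : Rk.filter (· ≤ l) = ∅ := by
    rw [Finset.filter_eq_empty_iff]
    intro r hr hrl
    have := hmin r hr
    omega
  rw [this]
  rfl

private theorem ev1f_prv_mem {Rk : Finset ℕ} {r1 l : ℕ} (h1 : r1 ∈ Rk) (hl : r1 ≤ l) :
    prv Rk l ∈ Rk := by
  unfold prv
  have hne : (Rk.filter (· ≤ l)).Nonempty := ⟨r1, by simp [h1, hl]⟩
  obtain ⟨a, ha, hal⟩ := Finset.exists_mem_eq_sup _ hne (id : ℕ → ℕ)
  rw [hal]
  exact (Finset.mem_filter.1 ha).1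

private theorem ev1f_cmat_mul {n1 n2 n3 : Type*} [Fintype n2] (A : Matrix n1 n2 ℂ)
    (B : Matrix n2 n3 ℂ) :
    (cmat (A * B) : Matrix n1 n3 R) = (cmat A : Matrix n1 n2 R) * (cmat B : Matrix n2 n3 R) := by
  unfold cmat
  exact Matrix.map_mul

private theorem ev1f_cmat_sub {n1 n2 : Type*} (A B : Matrix n1 n2 ℂ) :
    (cmat (A - B) : Matrix n1 n2 R) = cmat A - cmat B := by
  unfold cmat
  ext i j
  simp

private theorem ev1f_cmat_zero {n1 n2 : Type*} :
    (cmat (0 : Matrix n1 n2 ℂ) : Matrix n1 n2 R) = 0 := by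
  unfold cmat
  ext i j
  simp

private theorem ev1f_aeval {r0 : ℕ} (N : Matrix n n R) (Y : Matrix n (Fin r0) R) (lam : R)
    (hN : N * Y = lam • Y) (P : Polynomial R) :
    Polynomial.aeval N P * Y = P.eval lam • Y := by
  induction P using Polynomial.induction_on' with
  | add p q hp hq => rw [map_add, Matrix.add_mul, hp, hq, Polynomial.eval_add, add_smul]
  | monomial k a =>
    have hpow : ∀ k : ℕ, N ^ k * Y = lam ^ k • Y := by
      intro k
      induction k with
      | zero => simp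
      | succ k ih =>
        rw [pow_succ', Matrix.mul_assoc, ih, Matrix.mul_smul, hN, smul_smul, pow_succ]
    rw [Polynomial.aeval_monomial, Polynomial.eval_monomial, Matrix.mul_assoc, hpow,
      Matrix.algebraMap_eq_diagonal]
    ext i j
    simp [Matrix.diagonal_mul, mul_assoc]

private theorem ev1f_cnt_mono {r r' : ℕ} (h : r ≤ r') (p : Fin κ → Pth m) (t : ℕ) (q : Pth m) :
    cnt r p t q ≤ cnt r' p t q := by
  unfold cnt
  apply Finset.card_le_card
  intro l hl
  simp only [Finset.mem_filter, Finset.mem_univ, true_and] at hl ⊢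
  exact ⟨by omega, hl.2⟩

private theorem ev1f_pre_pre {t t' : ℕ} (h : t ≤ t') {w q : Pth m} (hw : pre t' w = pre t' q) :
    pre t w = pre t q := by
  funext s
  have := congrFun hw s
  unfold pre at this ⊢
  by_cases hs : (s : ℕ) < t
  · rw [if_pos hs, if_pos hs]
    rw [if_pos (by omega), if_pos (by omega)] at this
    exact this
  · rw [if_neg hs, if_neg hs]

/-- if nothing on the way to `q` is overfull and `w` agrees with `q` up to the depth of `w` then
`w = q` -/
private theorem ev1f_eq (cap : Fin J → ℕ) (r1 : ℕ) (p : Fin κ → Pth m) (w q : Pth m)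
    (hq : ∀ t, ¬ ovf cap r1 p t q)
    (hw : pre (dep cap r1 p w) w = pre (dep cap r1 p w) q) : w = q := by
  classical
  by_contra hne
  -- the first letter where `w` and `q` differ
  have hex : ∃ k : ℕ, ∃ hk : k < J, w ⟨k, hk⟩ ≠ q ⟨k, hk⟩ := by
    by_contra hcon
    push_neg at hcon
    exact hne (funext fun s => hcon s s.2)
  obtain ⟨hk, hkne⟩ := Nat.find_spec hex
  have hkmin : ∀ j, j < Nat.find hex → ∀ hj : j < J, w ⟨j, hj⟩ = q ⟨j, hj⟩ := by
    intro j hj hjJ
    by_contra hcon
    exact Nat.find_min hex hj ⟨hjJ, hcon⟩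
  generalize Nat.find hex = k at *
  -- all nodes of depth `≤ k` on the way to `w` are nodes on the way to `q`
  have hpre : ∀ t : ℕ, t ≤ k → pre t w = pre t q := by
    intro t ht
    funext s
    unfold pre
    by_cases hs : (s : ℕ) < t
    · rw [if_pos hs, if_pos hs]
      exact hkmin s (by omega) s.2
    · rw [if_neg hs, if_neg hs]
  have hno : ∀ t : Fin J, (t : ℕ) ≤ k → ¬ ovf cap r1 p t w := by
    intro t ht hov
    apply hq t
    unfold ovf cnt at hov ⊢
    rw [hpre t ht] at hov
    exact hov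
  have hdep : k + 1 ≤ dep cap r1 p w := by
    unfold dep
    have hsub : (univ.filter fun t : Fin J => (t : ℕ) ≤ k) ⊆
        (univ.filter fun t : Fin J => ∀ s : Fin J, s ≤ t → ¬ ovf cap r1 p s w) := by
      intro t ht
      simp only [Finset.mem_filter, Finset.mem_univ, true_and] at ht ⊢
      intro s hs
      exact hno s (le_trans (Fin.le_def.1 hs) ht)
    refine le_trans ?_ (Finset.card_le_card hsub)
    have : (univ.filter fun t : Fin J => (t : ℕ) ≤ k) = Finset.Iic (⟨k, hk⟩ : Fin J) := by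
      ext t
      simp [Fin.le_def]
    rw [this, Fin.card_Iic]
  have := congrFun hw ⟨k, hk⟩
  unfold pre at this
  rw [if_pos (by simpa using hdep), if_pos (by simpa using hdep)] at this
  exact hkne this

/-- MAIN LEMMA 3 (certified labels): if the smallest bundle of the chain contains the
`r0`-dimensional range of `J0`, on which `N` is the scalar of the label `q`, then a labelling with
nonzero value has `q` present at every rank of the chain. Use `mixD_cert` with `Q = Pr (min Rk)`,
`s` = the lines `< min Rk`, `c l` = value of the label polynomial, and `Apoly_cert`. -/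
theorem TD_cert (M cap : Fin J → ℕ) (Rk : Finset ℕ)
    (Pr : ℕ → Matrix n n ℂ) (hc : Chain Rk Pr) (hκ : rmax Rk ≤ κ) (N : Matrix n n R)
    (hN : ∀ r ∈ Rk, cmat (Pr r) * N = N * cmat (Pr r)) (x : Fin J → Pth m → R)
    (q : Pth m)
    (hnil : ∀ t : Fin J, (∑ s ∈ univ.filter (t < ·), ((q s : ℕ) : R) * x s (pre s q)) ^ M t = 0)
    {r0 : ℕ} (J0 : Matrix n (Fin r0) ℂ) (hJ : J0.conjTranspose * J0 = 1)
    (hPJ : ∀ r ∈ Rk, Pr r * J0 = J0)
    (hNJ : N * cmat J0 = (∑ t, ((q t : ℕ) : R) * x t (pre t q)) • (cmat J0 : Matrix n (Fin r0) R))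
    (p : Fin κ → Pth m) (h : TD M cap Rk Pr N x p ≠ 0) (r : ℕ) (hr : r ∈ Rk) :
    pres cap r0 r p q := by
  classical
  -- the smallest rank
  obtain ⟨r1, h1, hmin⟩ : ∃ r1 ∈ Rk, ∀ r ∈ Rk, r1 ≤ r :=
    ⟨Rk.min' ⟨r, hr⟩, Finset.min'_mem _ _, fun r' hr' => Finset.min'_le _ _ hr'⟩
  have h1r : r1 ≤ r := hmin r hr
  have h1m : r1 ≤ rmax Rk := ev1f_le_rmax h1
  set lam : R := ∑ t, ((q t : ℕ) : R) * x t (pre t q) with hlam
  -- the mixed discriminant is not zero
  have hD : mixD (fun l : Ln Rk κ => cmat (Ql Rk Pr (l : Fin κ)) *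
      Polynomial.aeval N (Apoly M x (ldep cap Rk p l) (p l))) ≠ 0 := by
    intro h0
    apply h
    unfold TD
    rw [h0, mul_zero, mul_zero]
  have hBJ : ∀ (Y : Matrix n n ℂ) (P : Polynomial R), ((cmat Y : Matrix n n R) *
      Polynomial.aeval N P) * (cmat J0 : Matrix n (Fin r0) R) =
      P.eval lam • (cmat (Y * J0) : Matrix n (Fin r0) R) := by
    intro Y P
    rw [Matrix.mul_assoc, ev1f_aeval N (cmat J0) lam hNJ, Matrix.mul_smul, ev1f_cmat_mul]
  have hQ1 : ∀ l : Ln Rk κ, ((l : Fin κ) : ℕ) < r1 → Ql Rk Pr (l : Fin κ) = Pr r1 := by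
    intro l hl
    unfold Ql
    rw [ev1f_entr_min h1 hmin hl, ev1f_prv_min hmin hl, hc.zero, sub_zero]
  have hcert := mixD_cert (R := R)
    (fun l : Ln Rk κ => cmat (Ql Rk Pr (l : Fin κ)) *
      Polynomial.aeval N (Apoly M x (ldep cap Rk p l) (p l))) (Pr r1) (hc.idem r1 h1)
    (univ.filter fun l : Ln Rk κ => ((l : Fin κ) : ℕ) < r1)
    (by
      rw [hc.rank r1 h1]
      have himg : (univ.filter fun l : Ln Rk κ => ((l : Fin κ) : ℕ) < r1).image
          (fun l : Ln Rk κ => ((l : Fin κ) : ℕ)) = Finset.range r1 := by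
        ext a
        simp only [Finset.mem_image, Finset.mem_filter, Finset.mem_univ, true_and,
          Finset.mem_range]
        constructor
        · rintro ⟨l, hl, rfl⟩
          exact hl
        · intro ha
          exact ⟨⟨⟨a, by omega⟩, by show a < rmax Rk; omega⟩, ha, rfl⟩
      have hcard := congrArg Finset.card himg
      rw [Finset.card_image_of_injective _ (fun a b hab => by
        apply Subtype.ext
        apply Fin.ext
        exact hab), Finset.card_range] at hcard
      exact hcard.symm)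
    (by
      intro l hl
      simp only [Finset.mem_filter, Finset.mem_univ, true_and] at hl
      have key : ∀ Z : Matrix n n R, (cmat (Pr r1) : Matrix n n R) *
          ((cmat (Pr r1) : Matrix n n R) * Z) = (cmat (Pr r1) : Matrix n n R) * Z := by
        intro Z
        rw [← Matrix.mul_assoc, ← ev1f_cmat_mul, hc.idem r1 h1]
      show (cmat (Pr r1) : Matrix n n R) * ((cmat (Ql Rk Pr (l : Fin κ)) : Matrix n n R) * _) = _
      rw [hQ1 l hl]
      exact key _)
    J0 hJ (hPJ r1 h1) (fun l : Ln Rk κ => (Apoly M x (ldep cap Rk p l) (p l)).eval lam)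
    (by
      intro l hl
      simp only [Finset.mem_filter, Finset.mem_univ, true_and] at hl
      have := hBJ (Ql Rk Pr (l : Fin κ)) (Apoly M x (ldep cap Rk p l) (p l))
      rw [hQ1 l hl, hPJ r1 h1] at this
      show ((cmat (Ql Rk Pr (l : Fin κ)) : Matrix n n R) *
        Polynomial.aeval N (Apoly M x (ldep cap Rk p l) (p l))) *
        (cmat J0 : Matrix n (Fin r0) R) = _
      rw [hQ1 l hl]
      exact this)
    (by
      intro l hl
      simp only [Finset.mem_filter, Finset.mem_univ, true_and, not_lt] at hl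
      have := hBJ (Ql Rk Pr (l : Fin κ)) (Apoly M x (ldep cap Rk p l) (p l))
      have h0 : Ql Rk Pr (l : Fin κ) * J0 = 0 := by
        unfold Ql
        rw [Matrix.sub_mul, hPJ _ (ev1f_entr_mem l.2), hPJ _ (ev1f_prv_mem h1 hl), sub_self]
      rw [h0, ev1f_cmat_zero, smul_zero] at this
      exact this)
    hD
  -- it suffices to look at the smallest rank
  by_cases hov : ∃ t, ovf cap r1 p t q
  · obtain ⟨t, ht⟩ := hov
    left
    exact ⟨t, lt_of_lt_of_le ht (ev1f_cnt_mono h1r p t q)⟩
  · right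
    push_neg at hov
    refine le_trans ?_ (ev1f_cnt_mono h1r p J q)
    refine le_trans hcert ?_
    unfold cnt
    apply Finset.card_le_card_of_injOn (fun l : Ln Rk κ => (l : Fin κ))
    · intro l hl
      simp only [Finset.coe_filter, Set.mem_setOf_eq, Finset.mem_filter, Finset.mem_univ,
        true_and] at hl ⊢
      obtain ⟨hl1, hl2⟩ := hl
      refine ⟨hl1, ?_⟩
      have hdep : ldep cap Rk p (l : Fin κ) = dep cap r1 p (p l) := by
        unfold ldep
        rw [if_pos l.2, ev1f_entr_min h1 hmin hl1]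
      have hpre := Apoly_cert M x (ldep cap Rk p l) (p l) q hnil hl2
      rw [hdep] at hpre
      rw [ev1f_eq cap r1 p (p l) q hov hpre]
    · intro a _ b _ hab
      exact Subtype.ext hab

end Pool.Agent.MP_d8b6c2_an
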