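import Mathlib
import Pool.Agent.Lib.MP_d8b6c2_an.Forms
import Pool.Agent.Lib.MP_d8b6c2_an.Ev1

/-! Closed forms and covariantly constant matrices. -/

namespace Pool.Agent.MP_d8b6c2_an

open Finset Filter Topology
open scoped ContDiff

variable {ι R 𝔾 : Type*} [Fintype ι] [DecidableEq ι] [NormedCommRing R]
    [NormedAlgebra ℂ R] [NormedRing 𝔾] [NormedAlgebra ℂ 𝔾]
variable {n : Type*} [Fintype n] [DecidableEq n]
variable (g : GData ι R 𝔾)

theorem forms1a_self_neg {V : Type*} [NormedRing V] [NormedAlgebra ℂ V] {y : V} (h : y = -y) :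
    y = 0 := by
  have h2 : (2 : ℂ) • y = 0 := by
    rw [two_smul]
    nth_rewrite 2 [h]
    exact add_neg_cancel y
  rcases smul_eq_zero.mp h2 with h3 | h3
  · norm_num at h3
  · exact h3

theorem theta_sq (i : ι) : g.θ i * g.θ i = 0 :=
  forms1a_self_neg (g.anti i i)

theorem tt_anti (i j : ι) : g.tt i j = - g.tt j i := by
  apply g.inc_inj
  rw [map_neg, g.inc_tt, g.inc_tt, g.anti]

theorem tt_self (i : ι) : g.tt i i = 0 := by
  apply g.inc_inj
  rw [map_zero, g.inc_tt, theta_sq]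

theorem tt_mul_zero (i j k : ι) : g.tt i j * g.tt i k = 0 := by
  apply g.inc_inj
  rw [map_zero, map_mul, g.inc_tt, g.inc_tt]
  have h : g.θ i * g.θ j * (g.θ i * g.θ k) = -(g.θ i * g.θ i * g.θ j * g.θ k) := by
    have h1 : g.θ j * g.θ i = -(g.θ i * g.θ j) := g.anti j i
    calc g.θ i * g.θ j * (g.θ i * g.θ k) = g.θ i * (g.θ j * g.θ i) * g.θ k := by
          simp only [mul_assoc]
      _ = -(g.θ i * g.θ i * g.θ j * g.θ k) := by
          rw [h1]
          simp only [mul_neg, neg_mul, mul_assoc]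
  rw [h, theta_sq]
  simp

/-- `d (F G)` for an even form `F` (in `R`) and a form `G`: product rule for `pd` -/
theorem pd_mul {V : Type*} [NormedRing V] [NormedAlgebra ℝ V] (j : ι) {F G : (ι → ℝ) → V}
    {x : ι → ℝ} (hF : DifferentiableAt ℝ F x) (hG : DifferentiableAt ℝ G x) :
    pd j (fun y => F y * G y) x = pd j F x * G x + F x * pd j G x := by
  unfold pd
  have h := (hF.hasFDerivAt.mul' hG.hasFDerivAt).fderiv
  have h2 : fderiv ℝ (fun y => F y * G y) x = fderiv ℝ (F * G) x := rfl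
  rw [h2, h]
  simp [add_comm]

theorem forms1a_two_le : (1 : WithTop ℕ∞) + 1 ≤ ∞ := by
  have h : ((1 : ℕ∞) : WithTop ℕ∞) + ((1 : ℕ∞) : WithTop ℕ∞) ≤ ((⊤ : ℕ∞) : WithTop ℕ∞) := by
    rw [← WithTop.coe_add]
    exact WithTop.coe_le_coe.mpr le_top
  exact h

theorem forms1a_pd_pd {V : Type*} [NormedAddCommGroup V] [NormedSpace ℝ V] (i j : ι)
    {F : (ι → ℝ) → V} {x : ι → ℝ} (hF : ContDiffAt ℝ ∞ F x) :
    pd i (pd j F) x = fderiv ℝ (fderiv ℝ F) x (Pi.single i 1) (Pi.single j 1) := by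
  unfold pd
  have h1 : DifferentiableAt ℝ (fderiv ℝ F) x :=
    (hF.fderiv_right (m := 1) forms1a_two_le).differentiableAt one_ne_zero
  have h2 := (h1.hasFDerivAt.clm_apply
    (hasFDerivAt_const (Pi.single j (1 : ℝ) : ι → ℝ) x)).fderiv
  rw [h2]
  simp

/-- symmetry of second derivatives -/
theorem pd_comm {V : Type*} [NormedAddCommGroup V] [NormedSpace ℝ V] (i j : ι)
    {F : (ι → ℝ) → V} {x : ι → ℝ} (hF : ContDiffAt ℝ ∞ F x) :
    pd i (pd j F) x = pd j (pd i F) x := by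
  rw [forms1a_pd_pd i j hF, forms1a_pd_pd j i hF]
  have h : IsSymmSndFDerivAt ℝ F x := by
    apply ContDiffAt.isSymmSndFDerivAt hF
    rw [minSmoothness_of_isRCLikeNormedField]
    exact forms1a_two_le
  exact h (Pi.single i 1) (Pi.single j 1)

theorem contDiffAt_pd {V : Type*} [NormedAddCommGroup V] [NormedSpace ℝ V] (j : ι)
    {F : (ι → ℝ) → V} {x : ι → ℝ} (hF : ContDiffAt ℝ ∞ F x) : ContDiffAt ℝ ∞ (pd j F) x := by
  unfold pd
  exact (hF.fderiv_right (m := ∞) (by simp)).clm_apply contDiffAt_const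

theorem closed_const (c : R) (x : ι → ℝ) : Closed g (fun _ => c) x := by
  refine ⟨contDiffAt_const, ?_⟩
  simp [pd]

theorem closed_add {s t : (ι → ℝ) → R} {x : ι → ℝ} (hs : Closed g s x) (ht : Closed g t x) :
    Closed g (fun y => s y + t y) x := by
  obtain ⟨hs1, hs2⟩ := hs
  obtain ⟨ht1, ht2⟩ := ht
  refine ⟨hs1.add ht1, ?_⟩
  have hd : ∀ j, pd j (fun y => s y + t y) x = pd j s x + pd j t x := by
    intro j
    unfold pd
    have h := ((hs1.differentiableAt (by simp)).hasFDerivAt.add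
      (ht1.differentiableAt (by simp)).hasFDerivAt).fderiv
    have h2 : fderiv ℝ (fun y => s y + t y) x = fderiv ℝ (s + t) x := rfl
    rw [h2, h]
    simp
  simp only [hd, map_add, mul_add, sum_add_distrib, hs2, ht2, add_zero]

theorem closed_mul {s t : (ι → ℝ) → R} {x : ι → ℝ} (hs : Closed g s x) (ht : Closed g t x) :
    Closed g (fun y => s y * t y) x := by
  obtain ⟨hs1, hs2⟩ := hs
  obtain ⟨ht1, ht2⟩ := ht
  refine ⟨hs1.mul ht1, ?_⟩
  have hd : ∀ j, pd j (fun y => s y * t y) x = pd j s x * t x + s x * pd j t x := fun j =>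
    pd_mul j (hs1.differentiableAt (by simp)) (ht1.differentiableAt (by simp))
  have h1 : ∀ j, g.θ j * g.inc (pd j (fun y => s y * t y) x) =
      g.inc (t x) * (g.θ j * g.inc (pd j s x)) + g.inc (s x) * (g.θ j * g.inc (pd j t x)) := by
    intro j
    rw [hd, map_add, map_mul, map_mul, mul_add]
    congr 1
    · rw [g.comm (t x), mul_assoc]
    · rw [← mul_assoc, ← mul_assoc, g.comm (s x)]
  simp only [h1, sum_add_distrib, ← mul_sum, hs2, ht2, mul_zero, add_zero]

theorem closed_congr {s t : (ι → ℝ) → R} {x : ι → ℝ} (hs : Closed g s x)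
    (h : s =ᶠ[𝓝 x] t) : Closed g t x := by
  obtain ⟨hs1, hs2⟩ := hs
  refine ⟨hs1.congr_of_eventuallyEq h.symm, ?_⟩
  have hd : ∀ j, pd j t x = pd j s x := by
    intro j
    unfold pd
    rw [h.symm.fderiv_eq]
  simp only [hd, hs2]

end Pool.Agent.MP_d8b6c2_an
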