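import Mathlib
import Pool.Agent.Lib.MP_d8b6c2_an.Forms
import Pool.Agent.Lib.MP_d8b6c2_an.Ev1
import Pool.Agent.Lib.MP_d8b6c2_an.Forms1a

/-! Closed forms and covariantly constant matrices. -/

namespace Pool.Agent.MP_d8b6c2_an

open Finset Filter Topology
open scoped ContDiff

variable {ι R 𝔾 : Type*} [Fintype ι] [DecidableEq ι] [NormedCommRing R]
    [NormedAlgebra ℂ R] [NormedRing 𝔾] [NormedAlgebra ℂ 𝔾]
variable {n : Type*} [Fintype n] [DecidableEq n]
variable (g : GData ι R 𝔾)

variable {A : ι → (ι → ℝ) → Matrix n n ℂ}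

theorem forms1b_pd_add {V : Type*} [NormedAddCommGroup V] [NormedSpace ℝ V] (j : ι)
    {F G : (ι → ℝ) → V} {x : ι → ℝ} (hF : DifferentiableAt ℝ F x) (hG : DifferentiableAt ℝ G x) :
    pd j (fun y => F y + G y) x = pd j F x + pd j G x := by
  unfold pd
  have h := (hF.hasFDerivAt.add hG.hasFDerivAt).fderiv
  have h2 : fderiv ℝ (fun y => F y + G y) x = fderiv ℝ (F + G) x := rfl
  rw [h2, h]
  simp

theorem forms1b_pd_sum {V κ : Type*} [NormedAddCommGroup V] [NormedSpace ℝ V] (j : ι)
    (s : Finset κ) {F : κ → (ι → ℝ) → V} {x : ι → ℝ} (hF : ∀ k ∈ s, DifferentiableAt ℝ (F k) x) :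
    pd j (fun y => ∑ k ∈ s, F k y) x = ∑ k ∈ s, pd j (F k) x := by
  unfold pd
  rw [fderiv_fun_sum hF]
  simp

theorem forms1b_diff {V : Type*} [NormedAddCommGroup V] [NormedSpace ℝ V]
    {F : (ι → ℝ) → V} {x : ι → ℝ} (h : ContDiffAt ℝ ∞ F x) : DifferentiableAt ℝ F x :=
  h.differentiableAt (by simp)

theorem forms1b_pdm_mul {n' n'' : Type*} [Fintype n'] {V : Type*} [NormedRing V]
    [NormedAlgebra ℝ V] (j : ι) {B : (ι → ℝ) → Matrix n n' V} {C : (ι → ℝ) → Matrix n' n'' V}
    {x : ι → ℝ} (hB : SmAt B x) (hC : SmAt C x) :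
    pdm j (fun y => B y * C y) x = pdm j B x * C x + B x * pdm j C x := by
  ext a b
  simp only [pdm, Matrix.of_apply, Matrix.mul_apply, Matrix.add_apply]
  rw [← sum_add_distrib]
  refine (forms1b_pd_sum (F := fun k y => B y a k * C y k b) j univ
    (fun k _ => (forms1b_diff (hB a k)).mul (forms1b_diff (hC k b)))).trans ?_
  refine sum_congr rfl fun k _ => ?_
  exact pd_mul j (forms1b_diff (hB a k)) (forms1b_diff (hC k b))

theorem cov_add {B C : (ι → ℝ) → Matrix n n R} {x : ι → ℝ} (hB : Cov g A B x)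
    (hC : Cov g A C x) : Cov g A (fun y => B y + C y) x := by
  obtain ⟨hB1, hB2⟩ := hB
  obtain ⟨hC1, hC2⟩ := hC
  refine ⟨fun a b => (hB1 a b).add (hC1 a b), fun a b => ?_⟩
  have h : ∀ j, (pdm j (fun y => B y + C y) x + (cmat (A j x) * (B x + C x) -
      (B x + C x) * cmat (A j x)) : Matrix n n R) =
      (pdm j B x + (cmat (A j x) * B x - B x * cmat (A j x))) +
      (pdm j C x + (cmat (A j x) * C x - C x * cmat (A j x))) := by
    intro j
    have h1 : (pdm j (fun y => B y + C y) x : Matrix n n R) = pdm j B x + pdm j C x := by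
      ext a b
      exact forms1b_pd_add j (forms1b_diff (hB1 a b)) (forms1b_diff (hC1 a b))
    rw [h1, Matrix.mul_add, Matrix.add_mul]
    abel
  have h2 : ∀ j, g.θ j * g.inc ((pdm j (fun y => B y + C y) x + (cmat (A j x) * (B x + C x) -
      (B x + C x) * cmat (A j x)) : Matrix n n R) a b) =
      g.θ j * g.inc ((pdm j B x + (cmat (A j x) * B x - B x * cmat (A j x)) : Matrix n n R) a b) +
      g.θ j * g.inc ((pdm j C x + (cmat (A j x) * C x - C x * cmat (A j x)) :
        Matrix n n R) a b) := by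
    intro j
    rw [h j, ← mul_add, ← map_add]
    rfl
  rw [sum_congr rfl fun j _ => h2 j, sum_add_distrib, hB2 a b, hC2 a b, add_zero]

theorem cov_mul {B C : (ι → ℝ) → Matrix n n R} {x : ι → ℝ} (hB : Cov g A B x)
    (hC : Cov g A C x) : Cov g A (fun y => B y * C y) x := by
  obtain ⟨hB1, hB2⟩ := hB
  obtain ⟨hC1, hC2⟩ := hC
  refine ⟨fun a b => ?_, fun a b => ?_⟩
  · simp only [Matrix.mul_apply]
    exact ContDiffAt.sum fun k _ => (hB1 a k).mul (hC1 k b)
  have h : ∀ j, (pdm j (fun y => B y * C y) x + (cmat (A j x) * (B x * C x) -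
      (B x * C x) * cmat (A j x)) : Matrix n n R) =
      (pdm j B x + (cmat (A j x) * B x - B x * cmat (A j x))) * C x +
      B x * (pdm j C x + (cmat (A j x) * C x - C x * cmat (A j x))) := by
    intro j
    rw [forms1b_pdm_mul j hB1 hC1]
    noncomm_ring
  have h2 : ∀ j, g.θ j * g.inc ((pdm j (fun y => B y * C y) x + (cmat (A j x) * (B x * C x) -
      (B x * C x) * cmat (A j x)) : Matrix n n R) a b) =
      ∑ k, (g.inc (C x k b) * (g.θ j * g.inc ((pdm j B x + (cmat (A j x) * B x -
        B x * cmat (A j x)) : Matrix n n R) a k)) +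
      g.inc (B x a k) * (g.θ j * g.inc ((pdm j C x + (cmat (A j x) * C x -
        C x * cmat (A j x)) : Matrix n n R) k b))) := by
    intro j
    rw [h j, Matrix.add_apply (_ * _), Matrix.mul_apply, Matrix.mul_apply, ← sum_add_distrib,
      map_sum, mul_sum]
    refine sum_congr rfl fun k _ => ?_
    rw [map_add, map_mul, map_mul, mul_add]
    congr 1
    · rw [g.comm (C x k b), mul_assoc]
    · rw [← mul_assoc, ← mul_assoc, g.comm (B x a k)]
  calc ∑ j, g.θ j * g.inc ((pdm j (fun y => B y * C y) x + (cmat (A j x) * (B x * C x) -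
      (B x * C x) * cmat (A j x)) : Matrix n n R) a b)
      = ∑ j, ∑ k, (g.inc (C x k b) * (g.θ j * g.inc ((pdm j B x + (cmat (A j x) * B x -
        B x * cmat (A j x)) : Matrix n n R) a k)) +
      g.inc (B x a k) * (g.θ j * g.inc ((pdm j C x + (cmat (A j x) * C x -
        C x * cmat (A j x)) : Matrix n n R) k b))) := sum_congr rfl fun j _ => h2 j
    _ = 0 := by
        rw [sum_comm]
        refine sum_eq_zero fun k _ => ?_
        rw [sum_add_distrib, ← mul_sum, ← mul_sum, hB2 a k, hC2 k b]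
        simp

theorem cov_smul {s : (ι → ℝ) → R} {B : (ι → ℝ) → Matrix n n R} {x : ι → ℝ}
    (hs : Closed g s x) (hB : Cov g A B x) : Cov g A (fun y => s y • B y) x := by
  obtain ⟨hs1, hs2⟩ := hs
  obtain ⟨hB1, hB2⟩ := hB
  refine ⟨fun a b => hs1.mul (hB1 a b), fun a b => ?_⟩
  have h : ∀ j, (pdm j (fun y => s y • B y) x + (cmat (A j x) * (s x • B x) -
      (s x • B x) * cmat (A j x)) : Matrix n n R) a b =
      pd j s x * B x a b + s x * (pdm j B x + (cmat (A j x) * B x - B x * cmat (A j x)) :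
        Matrix n n R) a b := by
    intro j
    have h1 : (pdm j (fun y => s y • B y) x : Matrix n n R) a b =
        pd j s x * B x a b + s x * pdm j B x a b :=
      pd_mul j (forms1b_diff hs1) (forms1b_diff (hB1 a b))
    rw [Matrix.add_apply, h1, Matrix.mul_smul, Matrix.smul_mul, ← smul_sub, Matrix.smul_apply,
      Matrix.add_apply (pdm j B x), smul_eq_mul]
    ring
  have h2 : ∀ j, g.θ j * g.inc ((pdm j (fun y => s y • B y) x + (cmat (A j x) * (s x • B x) -
      (s x • B x) * cmat (A j x)) : Matrix n n R) a b) =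
      g.inc (B x a b) * (g.θ j * g.inc (pd j s x)) +
      g.inc (s x) * (g.θ j * g.inc ((pdm j B x + (cmat (A j x) * B x -
        B x * cmat (A j x)) : Matrix n n R) a b)) := by
    intro j
    rw [h j, map_add, map_mul, map_mul, mul_add]
    congr 1
    · rw [g.comm (B x a b), mul_assoc]
    · rw [← mul_assoc, ← mul_assoc, g.comm (s x)]
  rw [sum_congr rfl fun j _ => h2 j, sum_add_distrib, ← mul_sum, ← mul_sum, hs2, hB2 a b]
  simp

theorem cov_one (x : ι → ℝ) : Cov g A (fun _ => (1 : Matrix n n R)) x := by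
  refine ⟨fun a b => contDiffAt_const, fun a b => ?_⟩
  have h : ∀ j, (pdm j (fun _ => (1 : Matrix n n R)) x + (cmat (A j x) * (1 : Matrix n n R) -
      (1 : Matrix n n R) * cmat (A j x)) : Matrix n n R) = 0 := by
    intro j
    have h1 : (pdm j (fun _ => (1 : Matrix n n R)) x : Matrix n n R) = 0 := by
      ext a b
      simp [pdm, pd]
    rw [h1, Matrix.mul_one, Matrix.one_mul, sub_self, add_zero]
  simp only [h, Matrix.zero_apply, map_zero, mul_zero, sum_const_zero]

theorem forms1b_pd_alg (j : ι) {F : (ι → ℝ) → ℂ} {x : ι → ℝ} (hF : ContDiffAt ℝ ∞ F x) :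
    pd j (fun y => algebraMap ℂ R (F y)) x = algebraMap ℂ R (pd j F x) := by
  unfold pd
  have h := ((ContinuousLinearMap.restrictScalars ℝ
    (Algebra.linearMap ℂ R).toContinuousLinearMap).hasFDerivAt.comp x
    (forms1b_diff hF).hasFDerivAt).fderiv
  have h2 : (fun y => algebraMap ℂ R (F y)) = (ContinuousLinearMap.restrictScalars ℝ
    (Algebra.linearMap ℂ R).toContinuousLinearMap) ∘ F := rfl
  rw [h2, h]
  rfl

theorem forms1b_smooth_alg {F : (ι → ℝ) → ℂ} {x : ι → ℝ} (hF : ContDiffAt ℝ ∞ F x) :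
    ContDiffAt ℝ ∞ (fun y => algebraMap ℂ R (F y)) x :=
  (ContinuousLinearMap.restrictScalars ℝ
    (Algebra.linearMap ℂ R).toContinuousLinearMap).contDiff.contDiffAt.comp x hF

theorem cov_cmat {P : (ι → ℝ) → Matrix n n ℂ} {x : ι → ℝ} (hP : SmAt P x)
    (h : ∀ j, covd A j P x = 0) : Cov g A (fun y => (cmat (P y) : Matrix n n R)) x := by
  refine ⟨fun a b => forms1b_smooth_alg (hP a b), fun a b => ?_⟩
  have h1 : ∀ j, (pdm j (fun y => (cmat (P y) : Matrix n n R)) x +
      (cmat (A j x) * cmat (P x) - cmat (P x) * cmat (A j x)) : Matrix n n R) = 0 := by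
    intro j
    have h2 : (pdm j (fun y => (cmat (P y) : Matrix n n R)) x : Matrix n n R) =
        cmat (pdm j P x) := by
      ext a b
      exact forms1b_pd_alg j (hP a b)
    have h3 := congrArg (cmat (R := R)) (h j)
    have h4 : (cmat (covd A j P x) : Matrix n n R) = cmat (pdm j P x) +
        (cmat (A j x) * cmat (P x) - cmat (P x) * cmat (A j x)) := by
      have h5 : (cmat (A j x * P x) : Matrix n n R) = cmat (A j x) * cmat (P x) := cmat_mul _ _
      have h6 : (cmat (P x * A j x) : Matrix n n R) = cmat (P x) * cmat (A j x) := cmat_mul _ _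
      rw [← h5, ← h6]
      ext a b
      rw [Matrix.add_apply, Matrix.sub_apply]
      simp only [cmat, covd, Matrix.map_apply, Matrix.add_apply, Matrix.sub_apply, map_add,
        map_sub]
    rw [h2, ← h4, h3]
    ext a b
    simp [cmat]
  simp only [h1, Matrix.zero_apply, map_zero, mul_zero, sum_const_zero]

end Pool.Agent.MP_d8b6c2_an
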