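import Mathlib
import Pool.Agent.Lib.MP_d8b6c2_an.Forms
import Pool.Agent.Lib.MP_d8b6c2_an.Ev1
import Pool.Agent.Lib.MP_d8b6c2_an.Forms1b

/-! Closed forms and covariantly constant matrices. -/

namespace Pool.Agent.MP_d8b6c2_an

open Finset Filter Topology
open scoped ContDiff

variable {ι R 𝔾 : Type*} [Fintype ι] [DecidableEq ι] [NormedCommRing R]
    [NormedAlgebra ℂ R] [NormedRing 𝔾] [NormedAlgebra ℂ 𝔾]
variable {n : Type*} [Fintype n] [DecidableEq n]
variable (g : GData ι R 𝔾)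

variable {A : ι → (ι → ℝ) → Matrix n n ℂ}

section aux

variable {V : Type*} [NormedRing V] [NormedAlgebra ℝ V]

theorem forms1c_smAt_add {m m' : Type*} {B C : (ι → ℝ) → Matrix m m' V} {x : ι → ℝ}
    (hB : SmAt B x) (hC : SmAt C x) : SmAt (fun y => B y + C y) x := fun a b => by
  simpa [Matrix.add_apply] using (hB a b).add (hC a b)

theorem forms1c_smAt_sub {m m' : Type*} {B C : (ι → ℝ) → Matrix m m' V} {x : ι → ℝ}
    (hB : SmAt B x) (hC : SmAt C x) : SmAt (fun y => B y - C y) x := fun a b => by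
  simpa [Matrix.sub_apply] using (hB a b).sub (hC a b)

theorem forms1c_smAt_mul {m m' m'' : Type*} [Fintype m'] {B : (ι → ℝ) → Matrix m m' V}
    {C : (ι → ℝ) → Matrix m' m'' V} {x : ι → ℝ}
    (hB : SmAt B x) (hC : SmAt C x) : SmAt (fun y => B y * C y) x := fun a b => by
  simp only [Matrix.mul_apply]
  exact ContDiffAt.sum fun c _ => (hB a c).mul (hC c b)

theorem forms1c_smAt_pdm {m m' : Type*} {B : (ι → ℝ) → Matrix m m' V} {x : ι → ℝ} (j : ι)
    (hB : SmAt B x) : SmAt (pdm j B) x := fun a b => by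
  simpa [pdm] using contDiffAt_pd j (hB a b)

theorem forms1c_pdm_add {m m' : Type*} {B C : (ι → ℝ) → Matrix m m' V} {x : ι → ℝ} (j : ι)
    (hB : SmAt B x) (hC : SmAt C x) :
    pdm j (fun y => B y + C y) x = pdm j B x + pdm j C x := by
  ext a b
  simp only [pdm, Matrix.of_apply, Matrix.add_apply, pd]
  rw [fderiv_fun_add ((hB a b).differentiableAt (by simp)) ((hC a b).differentiableAt (by simp))]
  rfl

theorem forms1c_pdm_sub {m m' : Type*} {B C : (ι → ℝ) → Matrix m m' V} {x : ι → ℝ} (j : ι)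
    (hB : SmAt B x) (hC : SmAt C x) :
    pdm j (fun y => B y - C y) x = pdm j B x - pdm j C x := by
  ext a b
  simp only [pdm, Matrix.of_apply, Matrix.sub_apply, pd]
  rw [fderiv_fun_sub ((hB a b).differentiableAt (by simp)) ((hC a b).differentiableAt (by simp))]
  rfl

theorem forms1c_pdm_mul {m m' m'' : Type*} [Fintype m'] {B : (ι → ℝ) → Matrix m m' V}
    {C : (ι → ℝ) → Matrix m' m'' V} {x : ι → ℝ} (j : ι) (hB : SmAt B x) (hC : SmAt C x) :
    pdm j (fun y => B y * C y) x = pdm j B x * C x + B x * pdm j C x := by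
  ext a b
  simp only [pdm, Matrix.of_apply, Matrix.add_apply, Matrix.mul_apply]
  rw [← Finset.sum_add_distrib]
  have h1 : pd j (fun y => ∑ c, B y a c * C y c b) x
      = ∑ c, pd j (fun y => B y a c * C y c b) x := by
    simp only [pd]
    rw [fderiv_fun_sum fun c _ => (((hB a c).mul (hC c b)).differentiableAt (by simp))]
    simp
  rw [h1]
  refine Finset.sum_congr rfl fun c _ => ?_
  exact pd_mul j ((hB a c).differentiableAt (by simp)) ((hC c b).differentiableAt (by simp))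

theorem forms1c_pd_sum {κ : Type*} [Fintype κ] {f : κ → (ι → ℝ) → V} {x : ι → ℝ} (j : ι)
    (hf : ∀ i, ContDiffAt ℝ ∞ (f i) x) :
    pd j (fun y => ∑ i, f i y) x = ∑ i, pd j (f i) x := by
  simp only [pd]
  rw [fderiv_fun_sum fun c _ => ((hf c).differentiableAt (by simp))]
  simp

theorem forms1c_pdm_comm {m m' : Type*} {B : (ι → ℝ) → Matrix m m' V} {x : ι → ℝ} (i j : ι)
    (hB : SmAt B x) : pdm i (pdm j B) x = pdm j (pdm i B) x := by
  ext a b
  simpa [pdm] using pd_comm i j (hB a b)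

end aux

theorem forms1c_smAt_curv {x : ι → ℝ} (hA : ∀ j, SmAt (A j) x) (i j : ι) :
    SmAt (curv A i j) x :=
  forms1c_smAt_add (forms1c_smAt_sub (forms1c_smAt_pdm i (hA j)) (forms1c_smAt_pdm j (hA i)))
    (forms1c_smAt_sub (forms1c_smAt_mul (hA i) (hA j)) (forms1c_smAt_mul (hA j) (hA i)))

theorem forms1c_pdm_curv {x : ι → ℝ} (hA : ∀ j, SmAt (A j) x) (k i j : ι) :
    pdm k (curv A i j) x = pdm k (pdm i (A j)) x - pdm k (pdm j (A i)) x +
      ((pdm k (A i) x * A j x + A i x * pdm k (A j) x) -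
        (pdm k (A j) x * A i x + A j x * pdm k (A i) x)) := by
  have h1 : pdm k (curv A i j) x = pdm k (fun y => (pdm i (A j) y - pdm j (A i) y) +
      (A i y * A j y - A j y * A i y)) x := rfl
  rw [h1, forms1c_pdm_add k
    (forms1c_smAt_sub (forms1c_smAt_pdm i (hA j)) (forms1c_smAt_pdm j (hA i)))
    (forms1c_smAt_sub (forms1c_smAt_mul (hA i) (hA j)) (forms1c_smAt_mul (hA j) (hA i))),
    forms1c_pdm_sub k (forms1c_smAt_pdm i (hA j)) (forms1c_smAt_pdm j (hA i)),
    forms1c_pdm_sub k (forms1c_smAt_mul (hA i) (hA j)) (forms1c_smAt_mul (hA j) (hA i)),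
    forms1c_pdm_mul k (hA i) (hA j), forms1c_pdm_mul k (hA j) (hA i)]

theorem forms1c_bianchi {x : ι → ℝ} (hA : ∀ j, SmAt (A j) x) (k i j : ι) :
    covd A k (curv A i j) x + covd A i (curv A j k) x + covd A j (curv A k i) x = 0 := by
  simp only [covd, forms1c_pdm_curv hA]
  rw [forms1c_pdm_comm k i (hA j), forms1c_pdm_comm i j (hA k), forms1c_pdm_comm j k (hA i)]
  simp only [curv]
  generalize pdm i (pdm k (A j)) x = S1
  generalize pdm k (pdm j (A i)) x = S2
  generalize pdm j (pdm i (A k)) x = S3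
  generalize pdm i (A j) x = P1
  generalize pdm j (A i) x = P2
  generalize pdm j (A k) x = P3
  generalize pdm k (A j) x = P4
  generalize pdm k (A i) x = P5
  generalize pdm i (A k) x = P6
  generalize A i x = a
  generalize A j x = b
  generalize A k x = c
  noncomm_ring

theorem forms1c_pd_algebraMap (c : R) (k : ι) {e : (ι → ℝ) → ℂ} {x : ι → ℝ}
    (he : ContDiffAt ℝ ∞ e x) :
    ContDiffAt ℝ ∞ (fun y => c * algebraMap ℂ R (e y)) x ∧
      pd k (fun y => c * algebraMap ℂ R (e y)) x = c * algebraMap ℂ R (pd k e x) := by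
  let L : ℂ →L[ℝ] R := LinearMap.toContinuousLinearMap
    ((LinearMap.mulLeft ℝ c).comp ((Algebra.linearMap ℂ R).restrictScalars ℝ))
  have hL : ∀ z, L z = c * algebraMap ℂ R z := fun z => rfl
  refine ⟨?_, ?_⟩
  · exact (L.contDiff.contDiffAt.comp x he : ContDiffAt ℝ ∞ (fun y => L (e y)) x)
  · have h1 : HasFDerivAt (fun y => L (e y)) (L.comp (fderiv ℝ e x)) x :=
      L.hasFDerivAt.comp x (he.differentiableAt (by simp)).hasFDerivAt
    change fderiv ℝ (fun y => L (e y)) x (Pi.single k 1) = _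
    rw [h1.fderiv]
    rfl

theorem forms1c_curvN_apply (x : ι → ℝ) (a b : n) :
    curvN g A x a b = ∑ i, ∑ j, g.tt i j * algebraMap ℂ R ((1 / 2 : ℂ) * curv A i j x a b) := by
  simp [curvN, Matrix.sum_apply, cmat]

theorem forms1c_smAt_curvN {x : ι → ℝ} (hA : ∀ j, SmAt (A j) x) : SmAt (curvN g A) x := by
  intro a b
  have h : (fun y => curvN g A y a b) = fun y =>
      ∑ i, ∑ j, g.tt i j * algebraMap ℂ R ((1 / 2 : ℂ) * curv A i j y a b) := by
    funext y
    exact forms1c_curvN_apply g y a b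
  rw [h]
  refine ContDiffAt.sum fun i _ => ContDiffAt.sum fun j _ => ?_
  exact (forms1c_pd_algebraMap (g.tt i j) i
    (contDiffAt_const.mul (forms1c_smAt_curv hA i j a b))).1

theorem forms1c_pd_curvN {x : ι → ℝ} (hA : ∀ j, SmAt (A j) x) (k : ι) (a b : n) :
    pdm k (curvN g A) x a b =
      ∑ i, ∑ j, g.tt i j * algebraMap ℂ R ((1 / 2 : ℂ) * pdm k (curv A i j) x a b) := by
  have h : (fun y => curvN g A y a b) = fun y =>
      ∑ i, ∑ j, g.tt i j * algebraMap ℂ R ((1 / 2 : ℂ) * curv A i j y a b) := by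
    funext y
    exact forms1c_curvN_apply g y a b
  have hsm : ∀ i j, ContDiffAt ℝ ∞ (fun y => (1 / 2 : ℂ) * curv A i j y a b) x := fun i j =>
    contDiffAt_const.mul (forms1c_smAt_curv hA i j a b)
  simp only [pdm, Matrix.of_apply]
  rw [h]
  have h1 : pd k (fun y => ∑ i, ∑ j, g.tt i j *
      algebraMap ℂ R ((1 / 2 : ℂ) * curv A i j y a b)) x = ∑ i, ∑ j, pd k (fun y => g.tt i j *
      algebraMap ℂ R ((1 / 2 : ℂ) * curv A i j y a b)) x := by
    rw [forms1c_pd_sum k fun i => ContDiffAt.sum fun j _ =>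
      (forms1c_pd_algebraMap (g.tt i j) i (hsm i j)).1]
    refine Finset.sum_congr rfl fun i _ => ?_
    rw [forms1c_pd_sum k fun j => (forms1c_pd_algebraMap (g.tt i j) i (hsm i j)).1]
  rw [h1]
  refine Finset.sum_congr rfl fun i _ => Finset.sum_congr rfl fun j _ => ?_
  rw [(forms1c_pd_algebraMap (g.tt i j) k (hsm i j)).2]
  congr 2
  rw [pd_mul k (differentiableAt_const _)
    ((forms1c_smAt_curv hA i j a b).differentiableAt (by simp))]
  simp [pd]

theorem forms1c_shift (c : ι → ι → ι → ℂ) :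
    ∑ k, ∑ i, ∑ j, c k i j • (g.θ k * (g.θ i * g.θ j)) =
      ∑ k, ∑ i, ∑ j, c i j k • (g.θ k * (g.θ i * g.θ j)) := by
  have hcyc : ∀ k i j, g.θ k * (g.θ i * g.θ j) = g.θ i * (g.θ j * g.θ k) := fun k i j => by
    rw [← mul_assoc, g.anti k i, neg_mul, mul_assoc, g.anti k j, mul_neg, neg_neg]
  calc ∑ i, ∑ j, ∑ k, c i j k • (g.θ i * (g.θ j * g.θ k))
      = ∑ i, ∑ j, ∑ k, c i j k • (g.θ k * (g.θ i * g.θ j)) :=
        Finset.sum_congr rfl fun i _ => Finset.sum_congr rfl fun j _ =>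
          Finset.sum_congr rfl fun k _ => by rw [hcyc k i j]
    _ = ∑ i, ∑ k, ∑ j, c i j k • (g.θ k * (g.θ i * g.θ j)) :=
        Finset.sum_congr rfl fun i _ => Finset.sum_comm
    _ = ∑ k, ∑ i, ∑ j, c i j k • (g.θ k * (g.θ i * g.θ j)) := Finset.sum_comm

theorem forms1c_sum_cyc (c : ι → ι → ι → ℂ) (h : ∀ k i j, c k i j + c i j k + c j k i = 0) :
    ∑ k, ∑ i, ∑ j, c k i j • (g.θ k * (g.θ i * g.θ j)) = 0 := by
  have h1 := forms1c_shift g c
  have h2 := forms1c_shift g fun k i j => c i j k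
  have h3 : (3 : ℂ) • ∑ k, ∑ i, ∑ j, c k i j • (g.θ k * (g.θ i * g.θ j)) = 0 := by
    have h4 : ∑ k, ∑ i, ∑ j, c k i j • (g.θ k * (g.θ i * g.θ j)) +
        ∑ k, ∑ i, ∑ j, c i j k • (g.θ k * (g.θ i * g.θ j)) +
        ∑ k, ∑ i, ∑ j, c j k i • (g.θ k * (g.θ i * g.θ j)) = 0 := by
      simp only [← Finset.sum_add_distrib, ← add_smul, h, zero_smul, Finset.sum_const_zero]
    rw [← h2, ← h1] at h4
    rw [← h4]
    module
  exact (smul_eq_zero.mp h3).resolve_left (by norm_num)

/-- Bianchi identity -/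
theorem cov_curvN {x : ι → ℝ} (hA : ∀ j, SmAt (A j) x) : Cov g A (curvN g A) x := by
  refine ⟨forms1c_smAt_curvN g hA, fun a b => ?_⟩
  have hD : ∀ k, (pdm k (curvN g A) x + (cmat (A k x) * curvN g A x -
      curvN g A x * cmat (A k x)) : Matrix n n R) a b =
      ∑ i, ∑ j, g.tt i j * algebraMap ℂ R ((1 / 2 : ℂ) * covd A k (curv A i j) x a b) := by
    intro k
    rw [Matrix.add_apply, Matrix.sub_apply, forms1c_pd_curvN g hA, Matrix.mul_apply,
      Matrix.mul_apply]
    simp only [forms1c_curvN_apply]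
    have e1 : ∑ c, cmat (A k x) a c * ∑ i, ∑ j, g.tt i j *
        algebraMap ℂ R ((1 / 2 : ℂ) * curv A i j x c b) = ∑ i, ∑ j, g.tt i j *
        algebraMap ℂ R ((1 / 2 : ℂ) * (A k x * curv A i j x) a b) := by
      simp only [Finset.mul_sum, Matrix.mul_apply, map_sum, map_mul, cmat, Matrix.map_apply]
      rw [Finset.sum_comm]
      refine Finset.sum_congr rfl fun i _ => ?_
      rw [Finset.sum_comm]
      refine Finset.sum_congr rfl fun j _ => Finset.sum_congr rfl fun c _ => ?_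
      ring
    have e2 : ∑ c, (∑ i, ∑ j, g.tt i j *
        algebraMap ℂ R ((1 / 2 : ℂ) * curv A i j x a c)) * cmat (A k x) c b = ∑ i, ∑ j, g.tt i j *
        algebraMap ℂ R ((1 / 2 : ℂ) * (curv A i j x * A k x) a b) := by
      simp only [Finset.mul_sum, Finset.sum_mul, Matrix.mul_apply, map_sum, map_mul, cmat,
        Matrix.map_apply]
      rw [Finset.sum_comm]
      refine Finset.sum_congr rfl fun i _ => ?_
      rw [Finset.sum_comm]
      refine Finset.sum_congr rfl fun j _ => Finset.sum_congr rfl fun c _ => ?_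
      ring
    rw [e1, e2]
    simp only [← Finset.sum_sub_distrib, ← Finset.sum_add_distrib]
    refine Finset.sum_congr rfl fun i _ => Finset.sum_congr rfl fun j _ => ?_
    rw [← mul_sub, ← mul_add, ← map_sub, ← map_add]
    congr 2
    rw [covd, Matrix.add_apply, Matrix.sub_apply]
    ring
  simp only [hD]
  have key := forms1c_sum_cyc g (fun k i j => (1 / 2 : ℂ) * covd A k (curv A i j) x a b)
    (fun k i j => by
      have := congrFun (congrFun (forms1c_bianchi hA k i j) a) b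
      simp only [Matrix.add_apply, Matrix.zero_apply] at this
      rw [← mul_add, ← mul_add, this, mul_zero])
  rw [← key]
  refine Finset.sum_congr rfl fun k _ => ?_
  rw [map_sum, Finset.mul_sum]
  refine Finset.sum_congr rfl fun i _ => ?_
  rw [map_sum, Finset.mul_sum]
  refine Finset.sum_congr rfl fun j _ => ?_
  rw [map_mul, g.inc_tt, AlgHom.commutes, ← Algebra.commutes, ← Algebra.smul_def,
    mul_smul_comm]

end Pool.Agent.MP_d8b6c2_an
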