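import Mathlib
import Pool.Agent.Lib.MP_d8b6c2_an.Forms
import Pool.Agent.Lib.MP_d8b6c2_an.Ev1
import Pool.Agent.Lib.MP_d8b6c2_an.Forms1c

/-! Closed forms and covariantly constant matrices. -/

namespace Pool.Agent.MP_d8b6c2_an

open Finset Filter Topology
open scoped ContDiff

variable {ι R 𝔾 : Type*} [Fintype ι] [DecidableEq ι] [NormedCommRing R]
    [NormedAlgebra ℂ R] [NormedRing 𝔾] [NormedAlgebra ℂ 𝔾]
variable {n : Type*} [Fintype n] [DecidableEq n]
variable (g : GData ι R 𝔾)

variable {A : ι → (ι → ℝ) → Matrix n n ℂ}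

private theorem forms1d_cov_pow {B : (ι → ℝ) → Matrix n n R} {x : ι → ℝ} (hB : Cov g A B x)
    (k : ℕ) : Cov g A (fun y => B y ^ k) x := by
  induction k with
  | zero =>
    have h : (fun y : ι → ℝ => B y ^ 0) = fun _ => (1 : Matrix n n R) := by
      funext y
      exact pow_zero _
    rw [h]
    exact cov_one g x
  | succ k ih =>
    have h : (fun y : ι → ℝ => B y ^ (k + 1)) = fun y => B y ^ k * B y := by
      funext y
      exact pow_succ _ _
    rw [h]
    exact cov_mul g ih hB

private theorem forms1d_cov_zero (x : ι → ℝ) :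
    Cov g A (fun _ => (0 : Matrix n n R)) x := by
  have h : (fun _ : ι → ℝ => (0 : Matrix n n R)) = fun y => (0 : R) • (1 : Matrix n n R) := by
    funext y
    rw [zero_smul]
  rw [h]
  exact cov_smul g (closed_const g 0 x) (cov_one g x)

private theorem forms1d_cov_sum {B : ℕ → (ι → ℝ) → Matrix n n R} {x : ι → ℝ}
    (hB : ∀ k, Cov g A (B k) x) (N : ℕ) :
    Cov g A (fun y => ∑ k ∈ Finset.range N, B k y) x := by
  induction N with
  | zero =>
    have h : (fun y : ι → ℝ => ∑ k ∈ Finset.range 0, B k y) = fun _ => (0 : Matrix n n R) := by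
      funext y
      exact Finset.sum_range_zero _
    rw [h]
    exact forms1d_cov_zero g x
  | succ N ih =>
    have h : (fun y : ι → ℝ => ∑ k ∈ Finset.range (N + 1), B k y)
        = fun y => (∑ k ∈ Finset.range N, B k y) + B N y := by
      funext y
      exact Finset.sum_range_succ _ _
    rw [h]
    exact cov_add g ih (hB N)

omit [DecidableEq n] in
private theorem forms1d_mixD_eq {S : Type*} [CommRing S] {l : Type*} [Fintype l] [DecidableEq l]
    (B : l → Matrix n n S) :
    mixD B = ∑ f : l → n, ∑ σ : Equiv.Perm l, ((Equiv.Perm.sign σ : ℤ) : S) *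
      ∏ i, B i (f i) (f (σ i)) := by
  unfold mixD
  refine Finset.sum_congr rfl fun f _ => ?_
  rw [← Matrix.det_transpose, Matrix.det_apply']
  rfl

/-- polynomials with closed coefficients -/
theorem cov_aeval {B : (ι → ℝ) → Matrix n n R} {x : ι → ℝ} (hB : Cov g A B x)
    (f : (ι → ℝ) → Polynomial R) (d : ℕ) (hd : ∀ y, (f y).natDegree ≤ d)
    (hf : ∀ k, Closed g (fun y => (f y).coeff k) x) :
    Cov g A (fun y => Polynomial.aeval (B y) (f y)) x := by
  have h : (fun y : ι → ℝ => Polynomial.aeval (B y) (f y))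
      = fun y => ∑ k ∈ Finset.range (d + 1), (f y).coeff k • B y ^ k := by
    funext y
    exact Polynomial.aeval_eq_sum_range' (Nat.lt_succ_of_le (hd y)) (B y)
  rw [h]
  exact forms1d_cov_sum g (fun k => cov_smul g (hf k) (forms1d_cov_pow g hB k)) (d + 1)

/-- The mixed discriminant of covariantly constant matrices is closed. By the product rule
`pd j (mixD B) = ∑_l mixD (update B l (pd j B_l))`, by `mixD_update_eq_sum` and the hypothesis
`∑_j θ_j * inc (...)` equals `- ∑_j θ_j * inc (∑_l mixD (update B l [A_j, B_l]))`, and this is zero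
by `mixD_inf`. -/
theorem closed_mixD {l : Type*} [Fintype l] [DecidableEq l]
    {B : l → (ι → ℝ) → Matrix n n R} {x : ι → ℝ} (hB : ∀ i, Cov g A (B i) x) :
    Closed g (fun y => mixD (fun i => B i y)) x := by
  have hfun : (fun y => mixD (fun i => B i y)) = fun y => ∑ f : l → n,
      ∑ σ : Equiv.Perm l, ((Equiv.Perm.sign σ : ℤ) : R) * ∏ i, B i y (f i) (f (σ i)) := by
    funext y
    exact forms1d_mixD_eq _
  refine ⟨?_, ?_⟩
  · rw [hfun]
    refine ContDiffAt.sum fun f _ => ContDiffAt.sum fun σ _ => ?_
    exact contDiffAt_const.mul (contDiffAt_prod fun i _ => (hB i).1 _ _)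
  · have hpd : ∀ j, pd j (fun y => mixD (fun i => B i y)) x
        = ∑ i, mixD (Function.update (fun k => B k x) i (pdm j (B i) x)) := by
      intro j
      have h1 : ∀ (f : l → n) (σ : Equiv.Perm l), HasFDerivAt (𝕜 := ℝ)
          (fun y => ((Equiv.Perm.sign σ : ℤ) : R) * ∏ i, B i y (f i) (f (σ i)))
          (((Equiv.Perm.sign σ : ℤ) : R) • ∑ i, (∏ k ∈ Finset.univ.erase i,
            B k x (f k) (f (σ k))) • fderiv ℝ (fun y => B i y (f i) (f (σ i))) x) x := by
        intro f σ
        refine HasFDerivAt.const_mul ?_ _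
        refine HasFDerivAt.finsetProd fun i _ => ?_
        exact (((hB i).1 (f i) (f (σ i))).differentiableAt (by simp)).hasFDerivAt
      have h2 : HasFDerivAt (𝕜 := ℝ) (fun y => mixD (fun i => B i y))
          (∑ f : l → n, ∑ σ : Equiv.Perm l,
          (((Equiv.Perm.sign σ : ℤ) : R) • ∑ i, (∏ k ∈ Finset.univ.erase i,
            B k x (f k) (f (σ k))) • fderiv ℝ (fun y => B i y (f i) (f (σ i))) x)) x := by
        rw [hfun]
        refine HasFDerivAt.fun_sum fun f _ => HasFDerivAt.fun_sum fun σ _ => h1 f σ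
      unfold pd
      rw [h2.fderiv]
      simp only [forms1d_mixD_eq, _root_.sum_apply, _root_.smul_apply,
        smul_eq_mul]
      refine Eq.trans ?_ Finset.sum_comm
      refine Finset.sum_congr rfl fun f _ => ?_
      refine Eq.trans ?_ Finset.sum_comm
      refine Finset.sum_congr rfl fun σ _ => ?_
      rw [Finset.mul_sum]
      refine Finset.sum_congr rfl fun i _ => ?_
      congr 1
      rw [← Finset.mul_prod_erase Finset.univ _ (Finset.mem_univ i), mul_comm]
      congr 1
      · rw [Function.update_self]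
        rfl
      · refine Finset.prod_congr rfl fun k hk => ?_
        rw [Function.update_of_ne (Finset.ne_of_mem_erase hk)]
    have hX : ∀ j, pd j (fun y => mixD (fun i => B i y)) x
        = ∑ i, ∑ a, ∑ b, (pdm j (B i) x + (cmat (A j x) * B i x - B i x * cmat (A j x)) :
          Matrix n n R) a b *
          mixD (Function.update (fun k => B k x) i (Matrix.single a b 1)) := by
      intro j
      rw [hpd j, ← add_zero (∑ i, mixD (Function.update (fun k => B k x) i (pdm j (B i) x))),
        ← mixD_inf (fun k => B k x) (cmat (A j x)), ← Finset.sum_add_distrib]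
      refine Finset.sum_congr rfl fun i _ => ?_
      rw [← mixD_update_add, ← mixD_update_eq_sum]
    have hX2 : ∀ j, g.θ j * g.inc (pd j (fun y => mixD (fun i => B i y)) x)
        = ∑ i, ∑ a, ∑ b, (g.θ j *
          g.inc ((pdm j (B i) x + (cmat (A j x) * B i x - B i x * cmat (A j x)) :
          Matrix n n R) a b)) *
          g.inc (mixD (Function.update (fun k => B k x) i (Matrix.single a b 1))) := by
      intro j
      rw [hX j]
      simp only [map_sum, map_mul, Finset.mul_sum, mul_assoc]
    rw [Finset.sum_congr rfl fun j _ => hX2 j, Finset.sum_comm]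
    refine Finset.sum_eq_zero fun i _ => ?_
    rw [Finset.sum_comm]
    refine Finset.sum_eq_zero fun a _ => ?_
    rw [Finset.sum_comm]
    refine Finset.sum_eq_zero fun b _ => ?_
    rw [← Finset.sum_mul, (hB i).2 a b, zero_mul]

end Pool.Agent.MP_d8b6c2_an
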