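import Mathlib
import Pool.Agent.Lib.MP_d8b6c2_an.Forms
import Pool.Agent.Lib.MP_d8b6c2_an.Ev1
import Pool.Agent.Lib.MP_d8b6c2_an.Forms1d

/-! Closed forms and covariantly constant matrices. -/

namespace Pool.Agent.MP_d8b6c2_an

open Finset Filter Topology
open scoped ContDiff

variable {ι R 𝔾 : Type*} [Fintype ι] [DecidableEq ι] [NormedCommRing R]
    [NormedAlgebra ℂ R] [NormedRing 𝔾] [NormedAlgebra ℂ 𝔾]
variable {n : Type*} [Fintype n] [DecidableEq n]
variable (g : GData ι R 𝔾)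

variable {A : ι → (ι → ℝ) → Matrix n n ℂ}

theorem forms1e_pdm_congr {m m' : Type*} {B C : (ι → ℝ) → Matrix m m' ℂ} {x : ι → ℝ} (j : ι)
    (h : B =ᶠ[𝓝 x] C) : pdm j B x = pdm j C x := by
  ext a b
  simp only [pdm, Matrix.of_apply, pd]
  have h1 : (fun y => B y a b) =ᶠ[𝓝 x] fun y => C y a b := h.mono fun y hy => by simp only [hy]
  rw [h1.fderiv_eq]

theorem forms1e_smAt_smul {m m' : Type*} {a : (ι → ℝ) → ℂ} {B : (ι → ℝ) → Matrix m m' ℂ}
    {x : ι → ℝ} (ha : ContDiffAt ℝ ∞ a x) (hB : SmAt B x) : SmAt (fun y => a y • B y) x :=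
  fun c d => by
    simpa [Matrix.smul_apply] using ha.mul (hB c d)

theorem forms1e_pdm_smul {m m' : Type*} {a : (ι → ℝ) → ℂ} {B : (ι → ℝ) → Matrix m m' ℂ}
    {x : ι → ℝ} (j : ι) (ha : ContDiffAt ℝ ∞ a x) (hB : SmAt B x) :
    pdm j (fun y => a y • B y) x = pd j a x • B x + a x • pdm j B x := by
  ext c d
  simp only [pdm, Matrix.of_apply, Matrix.add_apply, Matrix.smul_apply, smul_eq_mul]
  exact pd_mul j (ha.differentiableAt (by simp)) ((hB c d).differentiableAt (by simp))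

/-- a matrix function with vanishing covariant derivatives near `x` commutes with the curvature -/
theorem curv_comm {P : (ι → ℝ) → Matrix n n ℂ} {x : ι → ℝ} (hP : SmAt P x)
    (hA : ∀ j, SmAt (A j) x) (h : ∀ᶠ y in 𝓝 x, ∀ j, covd A j P y = 0) (i j : ι) :
    curv A i j x * P x = P x * curv A i j x := by
  have h1 : ∀ j, pdm j P =ᶠ[𝓝 x] fun y => P y * A j y - A j y * P y := fun j =>
    h.mono fun y hy => by
      have := hy j
      simp only [covd] at this
      rw [← sub_eq_zero, ← this]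
      simp only
      abel
  have h2 : ∀ i j, pdm i (pdm j P) x = pdm i P x * A j x + P x * pdm i (A j) x -
      (pdm i (A j) x * P x + A j x * pdm i P x) := fun i j => by
    rw [forms1e_pdm_congr i (h1 j),
      forms1c_pdm_sub i (forms1c_smAt_mul hP (hA j)) (forms1c_smAt_mul (hA j) hP),
      forms1c_pdm_mul i hP (hA j), forms1c_pdm_mul i (hA j) hP]
  have h3 : ∀ j, pdm j P x = P x * A j x - A j x * P x := fun j => (h1 j).self_of_nhds
  have h4 := forms1c_pdm_comm i j hP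
  rw [h2, h2, h3 i, h3 j, ← sub_eq_zero] at h4
  rw [← sub_eq_zero, ← neg_eq_zero, ← h4]
  simp only [curv]
  noncomm_ring

theorem curvN_comm {P : (ι → ℝ) → Matrix n n ℂ} {x : ι → ℝ} (hP : SmAt P x)
    (hA : ∀ j, SmAt (A j) x) (h : ∀ᶠ y in 𝓝 x, ∀ j, covd A j P y = 0) :
    cmat (P x) * curvN g A x = curvN g A x * cmat (P x) := by
  simp only [curvN, Finset.mul_sum, Finset.sum_mul]
  refine Finset.sum_congr rfl fun i _ => Finset.sum_congr rfl fun j _ => ?_
  rw [Matrix.mul_smul, Matrix.smul_mul]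
  congr 1
  have h1 : ∀ U V : Matrix n n ℂ, (cmat U * cmat V : Matrix n n R) = cmat (U * V) := fun U V => by
    simp only [cmat, Matrix.map_mul]
  rw [h1, h1, Matrix.mul_smul, Matrix.smul_mul, curv_comm hP hA h i j]

/-- a subbundle with a frame `J0` such that `(d + A) J0 = J0 a`, `a` a scalar 1-form -/
theorem curv_frame {r0 : ℕ} {J0 : (ι → ℝ) → Matrix n (Fin r0) ℂ} {a : ι → (ι → ℝ) → ℂ}
    {x : ι → ℝ} (hJ : SmAt J0 x) (hA : ∀ j, SmAt (A j) x) (ha : ∀ j, ContDiffAt ℝ ∞ (a j) x)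
    (h : ∀ᶠ y in 𝓝 x, ∀ j, pdm j J0 y + A j y * J0 y = a j y • J0 y) (i j : ι) :
    curv A i j x * J0 x = (pd i (a j) x - pd j (a i) x) • J0 x := by
  have h1 : ∀ j, pdm j J0 =ᶠ[𝓝 x] fun y => a j y • J0 y - A j y * J0 y := fun j =>
    h.mono fun y hy => eq_sub_of_add_eq (hy j)
  have h2 : ∀ i j, pdm i (pdm j J0) x = pd i (a j) x • J0 x + a j x • pdm i J0 x -
      (pdm i (A j) x * J0 x + A j x * pdm i J0 x) := fun i j => by
    rw [forms1e_pdm_congr i (h1 j),
      forms1c_pdm_sub i (forms1e_smAt_smul (ha j) hJ) (forms1c_smAt_mul (hA j) hJ),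
      forms1e_pdm_smul i (ha j) hJ, forms1c_pdm_mul i (hA j) hJ]
  have h3 : ∀ j, pdm j J0 x = a j x • J0 x - A j x * J0 x := fun j => (h1 j).self_of_nhds
  have h4 := forms1c_pdm_comm i j hJ
  rw [h2, h2, h3 i, h3 j, ← sub_eq_zero] at h4
  rw [← sub_eq_zero, ← neg_eq_zero, ← h4]
  simp only [curv, Matrix.mul_sub, Matrix.add_mul, Matrix.sub_mul, Matrix.mul_smul, sub_smul,
    smul_sub, smul_smul, Matrix.mul_assoc]
  rw [mul_comm (a j x) (a i x)]
  abel

end Pool.Agent.MP_d8b6c2_an
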