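import Mathlib
import Pool.Agent.Lib.MP_d8b6c2_an.Forms
import Pool.Agent.Lib.MP_d8b6c2_an.Ev1
import Pool.Agent.Lib.MP_d8b6c2_an.Forms1e

/-! Closed forms and covariantly constant matrices. -/

namespace Pool.Agent.MP_d8b6c2_an

open Finset Filter Topology
open scoped ContDiff

variable {ι R 𝔾 : Type*} [Fintype ι] [DecidableEq ι] [NormedCommRing R]
    [NormedAlgebra ℂ R] [NormedRing 𝔾] [NormedAlgebra ℂ 𝔾]
variable {n : Type*} [Fintype n] [DecidableEq n]
variable (g : GData ι R 𝔾)

variable {A : ι → (ι → ℝ) → Matrix n n ℂ}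

variable {J : ℕ} {m : Fin J → ℕ} {κ : ℕ}

private theorem forms1f_cast {s t : (ι → ℝ) → R} {x : ι → ℝ} (h : Closed g s x)
    (e : ∀ y, s y = t y) : Closed g t x := by
  have : s = t := funext e
  rw [← this]
  exact h

private theorem forms1f_sum {α : Type*} (S : Finset α) (s : α → (ι → ℝ) → R) {x : ι → ℝ}
    (h : ∀ a ∈ S, Closed g (s a) x) : Closed g (fun y => ∑ a ∈ S, s a y) x := by
  classical
  induction S using Finset.induction_on with
  | empty => exact forms1f_cast g (closed_const g 0 x) (fun y => by simp)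
  | insert a S ha ih =>
    refine forms1f_cast g (closed_add g (h a (Finset.mem_insert_self a S))
      (ih fun b hb => h b (Finset.mem_insert_of_mem hb))) (fun y => ?_)
    rw [Finset.sum_insert ha]

/-- closedness of all coefficients -/
private def forms1f_CP (f : (ι → ℝ) → Polynomial R) (x : ι → ℝ) : Prop :=
  ∀ k, Closed g (fun y => (f y).coeff k) x

private theorem forms1f_CP_const (P : Polynomial R) (x : ι → ℝ) : forms1f_CP g (fun _ => P) x :=
  fun k => closed_const g _ x

private theorem forms1f_CP_C {s : (ι → ℝ) → R} {x : ι → ℝ} (h : Closed g s x) :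
    forms1f_CP g (fun y => Polynomial.C (s y)) x := by
  intro k
  rcases Nat.eq_zero_or_pos k with hk | hk
  · subst hk
    exact forms1f_cast g h (fun y => by simp)
  · exact forms1f_cast g (closed_const g 0 x)
      (fun y => by rw [Polynomial.coeff_C_of_ne_zero hk.ne'])

private theorem forms1f_CP_add {f f' : (ι → ℝ) → Polynomial R} {x : ι → ℝ}
    (h : forms1f_CP g f x) (h' : forms1f_CP g f' x) : forms1f_CP g (fun y => f y + f' y) x :=
  fun k => forms1f_cast g (closed_add g (h k) (h' k)) (fun y => by rw [Polynomial.coeff_add])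

private theorem forms1f_CP_mul {f f' : (ι → ℝ) → Polynomial R} {x : ι → ℝ}
    (h : forms1f_CP g f x) (h' : forms1f_CP g f' x) : forms1f_CP g (fun y => f y * f' y) x := by
  intro k
  refine forms1f_cast g (forms1f_sum g (Finset.HasAntidiagonal.antidiagonal k)
    (fun a y => (f y).coeff a.1 * (f' y).coeff a.2) fun a _ => closed_mul g (h a.1) (h' a.2))
    (fun y => ?_)
  rw [Polynomial.coeff_mul]

private theorem forms1f_CP_sub {f f' : (ι → ℝ) → Polynomial R} {x : ι → ℝ}
    (h : forms1f_CP g f x) (h' : forms1f_CP g f' x) : forms1f_CP g (fun y => f y - f' y) x := by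
  intro k
  refine forms1f_cast g (closed_add g (h k) (closed_mul g (closed_const g (-1) x) (h' k)))
    (fun y => ?_)
  rw [Polynomial.coeff_sub]
  ring

private theorem forms1f_CP_pow {f : (ι → ℝ) → Polynomial R} {x : ι → ℝ}
    (h : forms1f_CP g f x) (d : ℕ) : forms1f_CP g (fun y => f y ^ d) x := by
  induction d with
  | zero =>
    intro k
    exact forms1f_cast g (forms1f_CP_const g 1 x k) (fun y => by beta_reduce; rw [pow_zero])
  | succ d ih =>
    intro k
    exact forms1f_cast g (forms1f_CP_mul g ih h k) (fun y => by beta_reduce; rw [pow_succ])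

private theorem forms1f_CP_sum {α : Type*} (S : Finset α) (f : α → (ι → ℝ) → Polynomial R)
    {x : ι → ℝ} (h : ∀ a ∈ S, forms1f_CP g (f a) x) :
    forms1f_CP g (fun y => ∑ a ∈ S, f a y) x := by
  intro k
  refine forms1f_cast g (forms1f_sum g S (fun a y => (f a y).coeff k) fun a ha => h a ha k)
    (fun y => ?_)
  rw [Polynomial.finsetSum_coeff]

private theorem forms1f_CP_prod {α : Type*} (S : Finset α) (f : α → (ι → ℝ) → Polynomial R)
    {x : ι → ℝ} (h : ∀ a ∈ S, forms1f_CP g (f a) x) :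
    forms1f_CP g (fun y => ∏ a ∈ S, f a y) x := by
  classical
  induction S using Finset.induction_on with
  | empty =>
    intro k
    exact forms1f_cast g (forms1f_CP_const g 1 x k) (fun y => by beta_reduce; rw [Finset.prod_empty])
  | insert a S ha ih =>
    intro k
    refine forms1f_cast g (forms1f_CP_mul g (h a (Finset.mem_insert_self a S))
      (ih fun b hb => h b (Finset.mem_insert_of_mem hb)) k) (fun y => ?_)
    beta_reduce
    rw [Finset.prod_insert ha]

omit [NormedCommRing R] [NormedAlgebra ℂ R] in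
private theorem forms1f_comp [CommRing R] [Algebra ℂ R] (n M : ℕ) (k : Fin (n + 1)) (x : R)
    (q : Polynomial R) :
    (Afac n M k x).comp q =
      (∑ e ∈ range M, Polynomial.C (algebraMap ℂ R ((bez n M k).coeff e) * x ^ (M - 1 - e)) *
        q ^ e) * ∏ k' ∈ univ.erase k, (q - Polynomial.C (((k' : ℕ) : R) * x)) ^ M := by
  unfold Afac
  rw [Polynomial.mul_comp, Polynomial.sum_comp, Polynomial.prod_comp]
  congr 1
  · refine Finset.sum_congr rfl fun e _ => ?_
    rw [Polynomial.mul_comp, Polynomial.C_comp, Polynomial.X_pow_comp]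
  · refine Finset.prod_congr rfl fun e _ => ?_
    rw [Polynomial.pow_comp, Polynomial.sub_comp, Polynomial.X_comp, Polynomial.C_comp]

/-- coefficients of the label polynomials of closed forms are closed -/
theorem closed_Apoly (M : Fin J → ℕ) (X : Fin J → Pth m → (ι → ℝ) → R) {x : ι → ℝ}
    (hX : ∀ t q, Closed g (X t q) x) (τ : ℕ) (w : Pth m) (k : ℕ) :
    Closed g (fun y => (Apoly M (fun t q => X t q y) τ w).coeff k) x := by
  have hpow : ∀ t q e, Closed g (fun y => X t q y ^ e) x := by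
    intro t q e
    induction e with
    | zero => exact forms1f_cast g (closed_const g 1 x) (fun y => by rw [pow_zero])
    | succ e ih =>
      exact forms1f_cast g (closed_mul g ih (hX t q)) (fun y => by rw [pow_succ])
  have hq : ∀ t : Fin J, forms1f_CP g
      (fun y => Polynomial.X - Polynomial.C (xsum (fun t q => X t q y) t w)) x := by
    intro t
    refine forms1f_CP_sub g (forms1f_CP_const g _ x) (forms1f_CP_C g ?_)
    exact forms1f_sum g _ (fun (s : Fin J) y => ((w s : ℕ) : R) * X s (pre s w) y)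
      fun s _ => closed_mul g (closed_const g _ x) (hX s _)
  have key : forms1f_CP g (fun y => Apoly M (fun t q => X t q y) τ w) x := by
    intro k
    unfold Apoly
    simp only [forms1f_comp]
    refine forms1f_CP_prod g _ _ (fun t _ => ?_) k
    refine forms1f_CP_mul g (forms1f_CP_sum g _ _ fun e _ => ?_) (forms1f_CP_prod g _ _ fun k' _ => ?_)
    · exact forms1f_CP_mul g (forms1f_CP_C g (closed_mul g (closed_const g _ x) (hpow t _ _)))
        (forms1f_CP_pow g (hq t) e)
    · exact forms1f_CP_pow g (forms1f_CP_sub g (hq t)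
        (forms1f_CP_C g (closed_mul g (closed_const g _ x) (hX t _)))) _
  exact key k

omit [NormedCommRing R] [NormedAlgebra ℂ R] in
private theorem forms1f_deg [CommRing R] [Algebra ℂ R] (n M : ℕ) (k : Fin (n + 1)) (x : R) :
    (Afac n M k x).natDegree ≤ M + (n + 1) * M := by
  unfold Afac
  refine le_trans Polynomial.natDegree_mul_le (Nat.add_le_add ?_ ?_)
  · refine Polynomial.natDegree_sum_le_of_forall_le _ _ fun e he => ?_
    refine le_trans Polynomial.natDegree_mul_le ?_
    rw [Polynomial.natDegree_C, zero_add]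
    exact le_trans (Polynomial.natDegree_X_pow_le e) (Finset.mem_range.1 he).le
  · refine le_trans (Polynomial.natDegree_prod_le _ _) ?_
    refine le_trans (Finset.sum_le_card_nsmul _ _ M fun k' _ => ?_) ?_
    · refine le_trans Polynomial.natDegree_pow_le ?_
      have : (Polynomial.X - Polynomial.C (((k' : ℕ) : R) * x)).natDegree ≤ 1 :=
        Polynomial.natDegree_X_sub_C_le _
      calc M * _ ≤ M * 1 := Nat.mul_le_mul_left M this
        _ = M := mul_one M
    · rw [smul_eq_mul]
      refine Nat.mul_le_mul_right M (le_trans (Finset.card_le_univ _) ?_)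
      rw [Fintype.card_fin]

/-- a bound for the degree of the label polynomials -/
theorem exists_natDegree_Apoly (M : Fin J → ℕ) (τ : ℕ) (w : Pth m) :
    ∃ d, ∀ x : Fin J → Pth m → R, (Apoly M x τ w).natDegree ≤ d := by
  refine ⟨∑ t : Fin J, (M t + (m t + 1) * M t), fun x => ?_⟩
  unfold Apoly
  refine le_trans (Polynomial.natDegree_prod_le _ _) ?_
  refine le_trans (Finset.sum_le_sum fun t _ => ?_)
    (Finset.sum_le_sum_of_subset (Finset.filter_subset _ _))
  refine le_trans Polynomial.natDegree_comp_le ?_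
  calc (Afac (m t) (M t) (w t) (x t (pre t w))).natDegree *
        (Polynomial.X - Polynomial.C (xsum x t w)).natDegree
      ≤ (M t + (m t + 1) * M t) * 1 :=
        Nat.mul_le_mul (forms1f_deg _ _ _ _) (Polynomial.natDegree_X_sub_C_le _)
    _ = _ := mul_one _

private def forms1f_equiv (a b κ : ℕ) (h : a ≤ b) :
    ({l : Fin κ // (l : ℕ) < a} ⊕ {l : Fin κ // a ≤ (l : ℕ) ∧ (l : ℕ) < b}) ≃
      {l : Fin κ // (l : ℕ) < b} where
  toFun := Sum.elim (fun l => ⟨l.1, lt_of_lt_of_le l.2 h⟩) (fun l => ⟨l.1, l.2.2⟩)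
  invFun := fun l => if h' : (l.1 : ℕ) < a then Sum.inl ⟨l.1, h'⟩
    else Sum.inr ⟨l.1, ⟨not_lt.mp h', l.2⟩⟩
  left_inv := by
    rintro (l | l)
    · simp [l.2]
    · have : ¬ ((l.1 : ℕ) < a) := not_lt.mpr l.2.1
      simp [this]
  right_inv := by
    intro l
    by_cases h' : (l.1 : ℕ) < a <;> simp [h']

private theorem forms1f_rmax_mem {s : Finset ℕ} (h : 0 < rmax s) : rmax s ∈ s := by
  have hne : s.Nonempty := by
    by_contra hn
    rw [Finset.not_nonempty_iff_eq_empty] at hn
    subst hn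
    simp [rmax] at h
  obtain ⟨a, ha, hae⟩ := Finset.exists_mem_eq_sup s hne id
  unfold rmax
  rw [hae]
  exact ha

private theorem forms1f_le_rmax {s : Finset ℕ} {a : ℕ} (h : a ∈ s) : a ≤ rmax s :=
  Finset.le_sup (f := id) h

private theorem forms1f_lt (s : Finset ℕ) :
    rmax (s.erase (rmax s)) ≤ rmax s := by
  unfold rmax
  exact Finset.sup_mono (Finset.erase_subset _ _)

private theorem forms1f_entr {s : Finset ℕ} {l : ℕ} (h : l < rmax (s.erase (rmax s))) :
    entr s l = entr (s.erase (rmax s)) l := by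
  have hm := forms1f_rmax_mem (lt_of_le_of_lt (Nat.zero_le _) h)
  have h1 : ((s.erase (rmax s)).filter (l < ·)).Nonempty :=
    ⟨_, Finset.mem_filter.mpr ⟨hm, h⟩⟩
  have h2 : (s.filter (l < ·)).Nonempty :=
    ⟨_, Finset.mem_filter.mpr ⟨Finset.mem_of_mem_erase hm, h⟩⟩
  unfold entr
  rw [dif_pos h1, dif_pos h2]
  apply le_antisymm
  · apply Finset.min'_le
    have := Finset.min'_mem _ h1
    rw [Finset.mem_filter] at this ⊢
    exact ⟨Finset.mem_of_mem_erase this.1, this.2⟩
  · apply Finset.min'_le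
    have h3 := Finset.min'_mem _ h2
    have h4 : (s.filter (l < ·)).min' h2 ≤ rmax (s.erase (rmax s)) :=
      Finset.min'_le _ _ (Finset.mem_filter.mpr ⟨Finset.mem_of_mem_erase hm, h⟩)
    have h5 : rmax (s.erase (rmax s)) ≠ rmax s := (Finset.mem_erase.mp hm).1
    have h6 : rmax (s.erase (rmax s)) ≤ rmax s := forms1f_le_rmax (Finset.mem_of_mem_erase hm)
    rw [Finset.mem_filter] at h3 ⊢
    refine ⟨Finset.mem_erase.mpr ⟨?_, h3.1⟩, h3.2⟩
    intro h7
    rw [h7] at h4
    exact h5 (le_antisymm h6 h4)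

private theorem forms1f_prv {s : Finset ℕ} {l : ℕ} (h : l < rmax s) :
    prv s l = prv (s.erase (rmax s)) l := by
  unfold prv
  congr 1
  ext a
  simp only [Finset.mem_filter, Finset.mem_erase]
  constructor
  · rintro ⟨h1, h2⟩
    exact ⟨⟨fun h3 => absurd h (by rw [← h3]; omega), h1⟩, h2⟩
  · rintro ⟨⟨_, h1⟩, h2⟩
    exact ⟨h1, h2⟩

private theorem forms1f_entr2 {s : Finset ℕ} (hr : rmax s ∈ s) {l : ℕ}
    (h : rmax (s.erase (rmax s)) ≤ l) (h' : l < rmax s) : entr s l = rmax s := by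
  have h2 : (s.filter (l < ·)).Nonempty :=
    ⟨_, Finset.mem_filter.mpr ⟨hr, h'⟩⟩
  unfold entr
  rw [dif_pos h2]
  have h3 := Finset.min'_mem _ h2
  rw [Finset.mem_filter] at h3
  by_contra hne
  have h4 : (s.filter (l < ·)).min' h2 ∈ s.erase (rmax s) := Finset.mem_erase.mpr ⟨hne, h3.1⟩
  have h5 := forms1f_le_rmax h4
  omega

private theorem forms1f_prv2 {s : Finset ℕ} {l : ℕ}
    (h : rmax (s.erase (rmax s)) ≤ l) (h' : l < rmax s) :
    prv s l = rmax (s.erase (rmax s)) := by
  have h1 : s.filter (· ≤ l) = s.erase (rmax s) := by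
    ext a
    simp only [Finset.mem_filter, Finset.mem_erase]
    constructor
    · rintro ⟨h1, h2⟩
      exact ⟨fun h3 => by omega, h1⟩
    · rintro ⟨h1, h2⟩
      exact ⟨h2, le_trans (forms1f_le_rmax (Finset.mem_erase.mpr ⟨h1, h2⟩)) h⟩
  unfold prv
  rw [h1]
  rfl

private theorem forms1f_nest {Rk : Finset ℕ} {Pr : ℕ → Matrix n n ℂ} (hc : Chain Rk Pr)
    {a b : ℕ} (ha : a ∈ Rk ∨ a = 0) (hb : b ∈ Rk) (hab : a ≤ b) : Pr a * Pr b = Pr a := by
  rcases ha with ha | ha
  · exact (hc.nest a ha b hb hab).1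
  · subst ha
    rw [hc.zero, zero_mul]

private theorem forms1f_nest' {Rk : Finset ℕ} {Pr : ℕ → Matrix n n ℂ} (hc : Chain Rk Pr)
    {a b : ℕ} (ha : a ∈ Rk ∨ a = 0) (hb : b ∈ Rk) (hab : a ≤ b) : Pr b * Pr a = Pr a := by
  rcases ha with ha | ha
  · exact (hc.nest a ha b hb hab).2
  · subst ha
    rw [hc.zero, mul_zero]

private theorem forms1f_prv_mem (s : Finset ℕ) (l : ℕ) : prv s l ∈ s ∨ prv s l = 0 := by
  rcases Finset.eq_empty_or_nonempty (s.filter (· ≤ l)) with h | h
  · right
    unfold prv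
    rw [h]
    rfl
  · left
    obtain ⟨a, ha, hae⟩ := Finset.exists_mem_eq_sup _ h id
    unfold prv
    rw [hae]
    exact (Finset.mem_filter.mp ha).1

private theorem forms1f_prv_le (s : Finset ℕ) (l : ℕ) : prv s l ≤ l := by
  unfold prv
  apply Finset.sup_le
  intro a ha
  exact (Finset.mem_filter.mp ha).2

private theorem forms1f_split {Rk : Finset ℕ}
    {Pr : ℕ → Matrix n n ℂ} (hc : Chain Rk Pr) (hr : rmax Rk ∈ Rk) :
    mixD (fun l : Ln Rk κ => Ql Rk Pr (l : Fin κ)) =
      mixD (fun l : Ln (Rk.erase (rmax Rk)) κ => Ql (Rk.erase (rmax Rk)) Pr (l : Fin κ)) *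
      mixD (fun _ : {l : Fin κ // rmax (Rk.erase (rmax Rk)) ≤ (l : ℕ) ∧
        (l : ℕ) < rmax Rk} => Pr (rmax Rk) - Pr (rmax (Rk.erase (rmax Rk)))) := by
  set r' := rmax (Rk.erase (rmax Rk)) with hr'
  have hle : r' ≤ rmax Rk := forms1f_lt Rk
  rw [← mixD_sum]
  · rw [← mixD_perm _ (forms1f_equiv r' (rmax Rk) κ hle)]
    congr 1
    funext l
    rcases l with l | l
    · show Ql Rk Pr (l.1 : Fin κ) = Ql (Rk.erase (rmax Rk)) Pr (l.1 : Fin κ)
      unfold Ql
      rw [forms1f_entr l.2, forms1f_prv (lt_of_lt_of_le l.2 hle)]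
    · show Ql Rk Pr (l.1 : Fin κ) = Pr (rmax Rk) - Pr r'
      unfold Ql
      rw [forms1f_entr2 hr l.2.1 l.2.2, forms1f_prv2 l.2.1 l.2.2]
  · intro i j
    have hlt : 0 < r' := lt_of_le_of_lt (Nat.zero_le _) i.2
    have hr'm2 : r' ∈ Rk.erase (rmax Rk) := forms1f_rmax_mem hlt
    have he : entr (Rk.erase (rmax Rk)) (i.1 : Fin κ) ∈ Rk.erase (rmax Rk) ∧
        entr (Rk.erase (rmax Rk)) (i.1 : Fin κ) ≤ r' := by
      have h1 : ((Rk.erase (rmax Rk)).filter (((i.1 : Fin κ) : ℕ) < ·)).Nonempty :=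
        ⟨_, Finset.mem_filter.mpr ⟨hr'm2, i.2⟩⟩
      unfold entr
      rw [dif_pos h1]
      exact ⟨(Finset.mem_filter.mp (Finset.min'_mem _ h1)).1,
        Finset.min'_le _ _ (Finset.mem_filter.mpr ⟨hr'm2, i.2⟩)⟩
    have hp : prv (Rk.erase (rmax Rk)) (i.1 : Fin κ) ∈ Rk ∨
        prv (Rk.erase (rmax Rk)) (i.1 : Fin κ) = 0 := by
      rcases forms1f_prv_mem (Rk.erase (rmax Rk)) (i.1 : Fin κ) with h | h
      · exact Or.inl (Finset.mem_of_mem_erase h)
      · exact Or.inr h
    have hple : prv (Rk.erase (rmax Rk)) (i.1 : Fin κ) ≤ r' :=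
      le_trans (forms1f_prv_le _ _) i.2.le
    have heR := Finset.mem_of_mem_erase he.1
    have hrR := Finset.mem_of_mem_erase hr'm2
    show Ql (Rk.erase (rmax Rk)) Pr (i.1 : Fin κ) * (Pr (rmax Rk) - Pr r') = 0
    unfold Ql
    rw [sub_mul, mul_sub, mul_sub, forms1f_nest hc (Or.inl heR) hr (le_trans he.2 hle),
      forms1f_nest hc (Or.inl heR) hrR he.2, forms1f_nest hc hp hr (le_trans hple hle),
      forms1f_nest hc hp hrR hple]
    simp

private theorem forms1f_trace (Q : Matrix n n ℂ) (hQ : Q * Q = Q) : Q.trace = (Q.rank : ℂ) := by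
  obtain ⟨G, G', s, h1, h2, hs, hG⟩ := exists_basis Q hQ
  rw [← hs]
  conv_lhs => rw [hG]
  rw [Matrix.trace_mul_comm, ← mul_assoc, h2, one_mul, Matrix.trace_diagonal]
  simp

private theorem forms1f_last {Rk : Finset ℕ}
    {Pr : ℕ → Matrix n n ℂ} (hc : Chain Rk Pr) (hκ : rmax Rk ≤ κ) (hr : rmax Rk ∈ Rk) :
    mixD (fun _ : {l : Fin κ // rmax (Rk.erase (rmax Rk)) ≤ (l : ℕ) ∧
        (l : ℕ) < rmax Rk} => Pr (rmax Rk) - Pr (rmax (Rk.erase (rmax Rk)))) =
      (Nat.factorial (rmax Rk - rmax (Rk.erase (rmax Rk))) : ℂ) := by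
  set r' := rmax (Rk.erase (rmax Rk)) with hr'
  have hle : r' ≤ rmax Rk := forms1f_lt Rk
  have hr'm : r' ∈ Rk ∨ r' = 0 := by
    rcases Nat.eq_zero_or_pos r' with h | h
    · exact Or.inr h
    · exact Or.inl (Finset.mem_of_mem_erase (forms1f_rmax_mem h))
  have hid : Pr r' * Pr r' = Pr r' := by
    rcases hr'm with h | h
    · exact hc.idem _ h
    · rw [h, hc.zero, zero_mul]
  have hrk : (Pr r').rank = r' := by
    rcases hr'm with h | h
    · exact hc.rank _ h
    · rw [h, hc.zero, Matrix.rank_zero]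
  have hQ : (Pr (rmax Rk) - Pr r') * (Pr (rmax Rk) - Pr r') = Pr (rmax Rk) - Pr r' := by
    rw [sub_mul, mul_sub, mul_sub, hc.idem _ hr, hid, forms1f_nest hc hr'm hr hle,
      forms1f_nest' hc hr'm hr hle]
    simp
  have hrank : (Pr (rmax Rk) - Pr r').rank = rmax Rk - r' := by
    have h1 := forms1f_trace _ hQ
    rw [Matrix.trace_sub, forms1f_trace _ (hc.idem _ hr), forms1f_trace _ hid, hc.rank _ hr,
      hrk] at h1
    have h2 : (((rmax Rk - r' : ℕ)) : ℂ) = ((Pr (rmax Rk) - Pr r').rank : ℂ) := by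
      rw [Nat.cast_sub hle]
      exact h1
    exact (Nat.cast_injective h2).symm
  have hcard : Fintype.card {l : Fin κ // r' ≤ (l : ℕ) ∧ (l : ℕ) < rmax Rk} = rmax Rk - r' := by
    have h1 : Fintype.card {l : Fin κ // (l : ℕ) < rmax Rk} = rmax Rk := by
      rw [Fintype.card_subtype]
      have : (univ.filter fun l : Fin κ => (l : ℕ) < rmax Rk).card = min κ (rmax Rk) := by
        simpa using Fin.card_filter_val_lt (n := κ) (m := rmax Rk)
      omega
    have h2 : Fintype.card {l : Fin κ // (l : ℕ) < r'} = r' := by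
      rw [Fintype.card_subtype]
      have : (univ.filter fun l : Fin κ => (l : ℕ) < r').card = min κ r' := by
        simpa using Fin.card_filter_val_lt (n := κ) (m := r')
      omega
    have h3 := Fintype.card_congr (forms1f_equiv r' (rmax Rk) κ hle)
    rw [Fintype.card_sum, h1, h2] at h3
    omega
  have h := mixD_idem (R := ℂ) (l := {l : Fin κ // r' ≤ (l : ℕ) ∧ (l : ℕ) < rmax Rk})
    (Pr (rmax Rk) - Pr r') hQ (by rw [hrank, hcard])
  rw [hcard] at h
  rw [← h]
  congr 1

private theorem forms1f_mixD {Pr Pr' : ℕ → Matrix n n ℂ} : ∀ (N : ℕ) (Rk : Finset ℕ),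
    Rk.card ≤ N → Chain Rk Pr → Chain Rk Pr' → rmax Rk ≤ κ →
    mixD (fun l : Ln Rk κ => Ql Rk Pr (l : Fin κ)) =
      mixD (fun l : Ln Rk κ => Ql Rk Pr' (l : Fin κ)) := by
  intro N
  induction N with
  | zero =>
    intro Rk hN hc hc' hκ
    have : Rk = ∅ := Finset.card_eq_zero.1 (Nat.le_zero.1 hN)
    subst this
    congr 1
    funext l
    exact absurd l.2 (by simp [rmax])
  | succ N ih =>
    intro Rk hN hc hc' hκ
    rcases Nat.eq_zero_or_pos (rmax Rk) with h0 | h0
    · congr 1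
      funext l
      exact absurd (lt_of_lt_of_eq l.2 h0) (Nat.not_lt_zero _)
    · have hr := forms1f_rmax_mem h0
      rw [forms1f_split hc hr, forms1f_split hc' hr, forms1f_last hc hκ hr,
        forms1f_last hc' hκ hr, ih (Rk.erase (rmax Rk)) ?_ (chain_mono (Finset.erase_subset _ _) hc)
          (chain_mono (Finset.erase_subset _ _) hc') (le_trans (forms1f_lt Rk) hκ)]
      have := Finset.card_erase_lt_of_mem hr
      omega

/-- two chains with the same ranks have the same normalising constant -/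
theorem cR_const {Rk : Finset ℕ} {Pr Pr' : ℕ → Matrix n n ℂ} (hc : Chain Rk Pr)
    (hc' : Chain Rk Pr') (hκ : rmax Rk ≤ κ) : cR Rk Pr κ = cR Rk Pr' κ := by
  unfold cR
  rw [forms1f_mixD Rk.card Rk le_rfl hc hc' hκ]

end Pool.Agent.MP_d8b6c2_an
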