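import Mathlib
import Pool.Agent.Lib.MP_d8b6c2_an.Forms
import Pool.Agent.Lib.MP_d8b6c2_an.Ev1
import Pool.Agent.Lib.MP_d8b6c2_an.Forms1f

/-! Closed forms and covariantly constant matrices. -/

namespace Pool.Agent.MP_d8b6c2_an

open Finset Filter Topology
open scoped ContDiff

variable {ι R 𝔾 : Type*} [Fintype ι] [DecidableEq ι] [NormedCommRing R]
    [NormedAlgebra ℂ R] [NormedRing 𝔾] [NormedAlgebra ℂ 𝔾]
variable {n : Type*} [Fintype n] [DecidableEq n]
variable (g : GData ι R 𝔾)

variable {A : ι → (ι → ℝ) → Matrix n n ℂ}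

variable {J : ℕ} {m : Fin J → ℕ} {κ : ℕ}

private theorem forms1g_pow {s : (ι → ℝ) → R} {x : ι → ℝ} (hs : Closed g s x) (k : ℕ) :
    Closed g (fun y => s y ^ k) x := by
  induction k with
  | zero => simpa using closed_const g (1 : R) x
  | succ k ih => simpa [pow_succ] using closed_mul g ih hs

private theorem forms1g_prod {α : Type*} (S : Finset α) (s : α → (ι → ℝ) → R) {x : ι → ℝ}
    (hs : ∀ a ∈ S, Closed g (s a) x) : Closed g (fun y => ∏ a ∈ S, s a y) x := by
  classical
  induction S using Finset.induction_on with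
  | empty => simpa using closed_const g (1 : R) x
  | insert a S ha ih =>
    have h1 := hs a (Finset.mem_insert_self a S)
    have h2 := ih fun b hb => hs b (Finset.mem_insert_of_mem hb)
    simpa [Finset.prod_insert ha] using closed_mul g h1 h2

private theorem forms1g_cov_zero (x : ι → ℝ) : Cov g A (fun _ => (0 : Matrix n n R)) x := by
  have := cov_smul g (A := A) (closed_const g (0 : R) x) (cov_one g (A := A) x)
  simpa using this

private theorem forms1g_cov_sub {B C : (ι → ℝ) → Matrix n n R} {x : ι → ℝ}
    (hB : Cov g A B x) (hC : Cov g A C x) : Cov g A (fun y => B y - C y) x := by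
  have h1 := cov_smul g (closed_const g (-1 : R) x) hC
  have h2 := cov_add g hB h1
  simpa [sub_eq_add_neg] using h2

/-- The value of a labelling on a chain of parallel bundles is a closed form. -/
theorem closed_TD (M cap : Fin J → ℕ) (Rk : Finset ℕ) (hκ : rmax Rk ≤ κ)
    {Pr : ℕ → (ι → ℝ) → Matrix n n ℂ} {N : (ι → ℝ) → Matrix n n R}
    (X : Fin J → Pth m → (ι → ℝ) → R) {x : ι → ℝ}
    (hc : ∀ᶠ y in 𝓝 x, Chain Rk (fun r => Pr r y))
    (hP0 : ∀ y, Pr 0 y = 0)
    (hP : ∀ r ∈ Rk, Cov g A (fun y => (cmat (Pr r y) : Matrix n n R)) x)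
    (hN : Cov g A N x) (hX : ∀ t q, Closed g (X t q) x) (p : Fin κ → Pth m) :
    Closed g (fun y => TD M cap Rk (fun r => Pr r y) (N y) (fun t q => X t q y) p) x := by
  have hcx : Chain Rk (fun r => Pr r x) := hc.self_of_nhds
  have hxmon : Closed g (fun y => xmon M cap Rk (fun t q => X t q y) p) x := by
    unfold xmon
    exact forms1g_prod g _ _ fun v _ => forms1g_pow g (hX v.1 v.2) _
  have hmix : Closed g (fun y => mixD (fun l : Ln Rk κ =>
      (cmat (Ql Rk (fun r => Pr r y) (l : Fin κ)) : Matrix n n R) *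
      Polynomial.aeval (N y) (Apoly M (fun t q => X t q y) (ldep cap Rk p l) (p l)))) x := by
    refine closed_mixD g (A := A) (B := fun (l : Ln Rk κ) y =>
      (cmat (Ql Rk (fun r => Pr r y) (l : Fin κ)) : Matrix n n R) *
      Polynomial.aeval (N y) (Apoly M (fun t q => X t q y) (ldep cap Rk p l) (p l))) ?_
    intro l
    refine cov_mul g ?_ ?_
    · have he := entr_mem l.2
      have h1 : Cov g A (fun y => (cmat (Pr (entr Rk (l : Fin κ)) y) : Matrix n n R)) x :=
        hP _ he.1
      have h2 : Cov g A (fun y => (cmat (Pr (prv Rk (l : Fin κ)) y) : Matrix n n R)) x := by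
        rcases prv_mem Rk (l : Fin κ) with h | h
        · exact hP _ h
        · rw [h]
          have : (fun y => (cmat (Pr 0 y) : Matrix n n R)) = fun _ => 0 := by
            funext y
            rw [hP0]
            ext a b
            simp [cmat]
          rw [this]
          exact forms1g_cov_zero g x
      have h3 := forms1g_cov_sub g h1 h2
      have h4 : (fun y => (cmat (Ql Rk (fun r => Pr r y) (l : Fin κ)) : Matrix n n R)) =
          fun y => (cmat (Pr (entr Rk (l : Fin κ)) y) : Matrix n n R) -
            cmat (Pr (prv Rk (l : Fin κ)) y) := by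
        funext y
        unfold Ql
        rw [cmat_sub]
      rw [h4]
      exact h3
    · obtain ⟨d, hd⟩ := exists_natDegree_Apoly (R := R) M (ldep cap Rk p l) (p l)
      exact cov_aeval g hN _ d (fun y => hd _)
        (fun k => closed_Apoly g M X hX (ldep cap Rk p l) (p l) k)
  have hmain := closed_mul g (closed_const g (algebraMap ℂ R (cR Rk (fun r => Pr r x) κ)) x)
    (closed_mul g hxmon hmix)
  refine closed_congr g hmain ?_
  filter_upwards [hc] with y hy
  unfold TD
  rw [cR_const hcx hy hκ]

end Pool.Agent.MP_d8b6c2_an
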