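import Mathlib
import Pool.Agent.Lib.MP_d8b6c2_an.Str

/-! # The closed form `Th` (definitions) -/

namespace Pool.Agent.MP_d8b6c2_an

open Finset Filter Topology
open scoped ContDiff

variable {J : ℕ} {m d : Fin J → ℕ} {n : Type*} [Fintype n] [DecidableEq n] {κ r0 s o S : ℕ}
variable {R 𝔾 : Type*} [NormedCommRing R] [NormedAlgebra ℂ R] [NormedRing 𝔾] [NormedAlgebra ℂ 𝔾]

/-- bump function supported in `[-1/4, 1/4]` -/
noncomputable def w1 (y : ℝ) : ℝ := Real.smoothTransition (1 - 16 * y ^ 2)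

/-- `0` for `u ≥ 0`, `1` for `u ≤ -1` -/
noncomputable def ng (u : ℝ) : ℝ := Real.smoothTransition (-u)

namespace Str

variable (σ : Str m d n κ r0 s o S)

open Classical in
/-- active indices -/
noncomputable def act (x : Co m d → ℝ) : Finset (Fin S) := univ.filter fun i => σ.φ i x ≠ 0

open Classical in
/-- indices active at or near `x` -/
noncomputable def cact (x : Co m d → ℝ) : Finset (Fin S) :=
  univ.filter fun i => x ∈ tsupport (σ.φ i)

/-- the ranks of the idempotents with index in `K` -/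
noncomputable def Rks (K : Finset (Fin S)) (x : Co m d → ℝ) : Finset ℕ :=
  K.image fun i => (σ.Ph i x).rank

open Classical in
/-- the idempotent of rank `r` (where the ranks are taken at `x0`) -/
noncomputable def PrAt (K : Finset (Fin S)) (x0 x : Co m d → ℝ) (r : ℕ) : Matrix n n ℂ :=
  if h : r ≠ 0 ∧ ∃ i ∈ K, (σ.Ph i x0).rank = r then σ.Ph h.2.choose x else 0

/-- curvature -/
noncomputable def N (g : GData (Co m d) R 𝔾) (x : Co m d → ℝ) : Matrix n n R := curvN g σ.A x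

/-- the idempotents with index in `K` form a chain of parallel idempotents at `x` -/
structure Good (g : GData (Co m d) R 𝔾) (K : Finset (Fin S)) (x : Co m d → ℝ) : Prop where
  idem : ∀ i ∈ K, σ.Ph i x * σ.Ph i x = σ.Ph i x
  nest : ∀ i ∈ K, ∀ i' ∈ K, i ≤ i' →
    σ.Ph i x * σ.Ph i' x = σ.Ph i x ∧ σ.Ph i' x * σ.Ph i x = σ.Ph i x
  le : ∀ i ∈ K, (σ.Ph i x).rank ≤ κ
  comm : ∀ i ∈ K, cmat (σ.Ph i x) * σ.N g x = σ.N g x * cmat (σ.Ph i x)

/-- value of a labelling at `x` -/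
noncomputable def TDx (M cap : Fin J → ℕ) (g : GData (Co m d) R 𝔾) (K : Finset (Fin S))
    (x : Co m d → ℝ) (p : Fin κ → Pth m) : R :=
  TD M cap (σ.Rks K x) (σ.PrAt K x x) (σ.N g x) (fun t q => XX g t q x) p

/-- presence function: a number in `[0,1]` -/
noncomputable def mm (cap : Fin J → ℕ) (K : Finset (Fin S)) (x0 x : Co m d → ℝ)
    (p : Fin κ → Pth m) (q : Pth m) : ℝ :=
  ∑ i ∈ K, if pres cap r0 (σ.Ph i x0).rank p q then σ.φ i x else 0

/-- the map whose zeros are excluded; `x0` is the point where ranks are taken -/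
noncomputable def GG (cap : Fin J → ℕ) (K : Finset (Fin S)) (x0 x : Co m d → ℝ)
    (p : Fin κ → Pth m) (q : Pth m) : ℝ :=
  (1 - x cτ) * (σ.mm cap K x0 x p q - 1 / 2 - ng (x (cu q))) + x cτ * x (cu q)

/-- the form of a labelling: `∏ w1 (G_q) * ∏ dG_q` -/
noncomputable def gf (cap : Fin J → ℕ) (g : GData (Co m d) R 𝔾) (K : Finset (Fin S))
    (x0 x : Co m d → ℝ) (p : Fin κ → Pth m) : 𝔾 :=
  ((∏ q, w1 (σ.GG cap K x0 x p q) : ℝ) : ℂ) •
    ((univ : Finset (Pth m)).toList.map fun q => d1 g (fun y => σ.GG cap K x0 y p q) x).prod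

/-- the form with index set `K`; ranks are taken at `x0` -/
noncomputable def ThK (M cap : Fin J → ℕ) (g : GData (Co m d) R 𝔾) (K : Finset (Fin S))
    (x0 x : Co m d → ℝ) : 𝔾 :=
  ∑ p ∈ univ.filter (fun p : Fin κ → Pth m => IsCan cap (σ.Rks K x0) p),
    g.inc (TD M cap (σ.Rks K x0) (σ.PrAt K x0 x) (σ.N g x) (fun t q => XX g t q x) p) *
      σ.gf cap g K x0 x p

/-- the form -/
noncomputable def Th (M cap : Fin J → ℕ) (g : GData (Co m d) R 𝔾) (x : Co m d → ℝ) : 𝔾 :=
  σ.ThK M cap g (σ.act x) x x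

end Str

end Pool.Agent.MP_d8b6c2_an
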