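import Mathlib
import Pool.Agent.Lib.MP_d8b6c2_an.Glue
import Pool.Agent.Lib.MP_d8b6c2_an.Forms1

/-! # Properties of the closed form `Th` (pointwise and local) -/

namespace Pool.Agent.MP_d8b6c2_an

open Finset Filter Topology
open scoped ContDiff

variable {J : ℕ} {m d : Fin J → ℕ} {n : Type*} [Fintype n] [DecidableEq n] {κ r0 s o S : ℕ}
variable {R 𝔾 : Type*} [NormedCommRing R] [NormedAlgebra ℂ R] [NormedRing 𝔾] [NormedAlgebra ℂ 𝔾]

theorem w1_smooth : ContDiff ℝ ∞ w1 := by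
  unfold w1
  exact Real.smoothTransition.contDiff.comp (by fun_prop)

theorem w1_eq_zero {y : ℝ} (h : 1 / 4 ≤ |y|) : w1 y = 0 := by
  unfold w1
  apply Real.smoothTransition.zero_of_nonpos
  have h1 : y ^ 2 = |y| ^ 2 := (sq_abs y).symm
  rw [h1]
  nlinarith

theorem w1_nonneg (y : ℝ) : 0 ≤ w1 y := Real.smoothTransition.nonneg _

theorem w1_zero_pos : 0 < w1 0 := by
  unfold w1
  norm_num [Real.smoothTransition.one]

theorem ng_smooth : ContDiff ℝ ∞ ng := by
  unfold ng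
  exact Real.smoothTransition.contDiff.comp (by fun_prop)

theorem ng_eq_zero {u : ℝ} (h : 0 ≤ u) : ng u = 0 := by
  unfold ng
  apply Real.smoothTransition.zero_of_nonpos
  linarith

theorem ng_eq_one {u : ℝ} (h : u ≤ -1) : ng u = 1 := by
  unfold ng
  apply Real.smoothTransition.one_of_one_le
  linarith

theorem ng_mem (u : ℝ) : 0 ≤ ng u ∧ ng u ≤ 1 :=
  ⟨Real.smoothTransition.nonneg _, Real.smoothTransition.le_one _⟩

theorem d1_const (g : GData (Co m d) R 𝔾) (c : ℝ) (x : Co m d → ℝ) :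
    d1 g (fun _ => c) x = 0 := by
  unfold d1 pd
  simp

theorem d1_eq_zero_of_min (g : GData (Co m d) R 𝔾) {f : (Co m d → ℝ) → ℝ} {x : Co m d → ℝ}
    (hf : ∀ y, 0 ≤ f y) (hx : f x = 0) : d1 g f x = 0 := by
  have h1 : IsLocalMin f x := Filter.Eventually.of_forall fun y => by rw [hx]; exact hf y
  unfold d1 pd
  rw [h1.fderiv_eq_zero]
  simp

end Pool.Agent.MP_d8b6c2_an
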