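import Mathlib
import Pool.Agent.Lib.MP_d8b6c2_an.Glue
import Pool.Agent.Lib.MP_d8b6c2_an.Forms1
import Pool.Agent.Lib.MP_d8b6c2_an.Glue1a

/-! # Properties of the closed form `Th` (pointwise and local) -/

namespace Pool.Agent.MP_d8b6c2_an

open Finset Filter Topology
open scoped ContDiff

variable {J : ℕ} {m d : Fin J → ℕ} {n : Type*} [Fintype n] [DecidableEq n] {κ r0 s o S : ℕ}
variable {R 𝔾 : Type*} [NormedCommRing R] [NormedAlgebra ℂ R] [NormedRing 𝔾] [NormedAlgebra ℂ 𝔾]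

private theorem glue1b_double {v : 𝔾} (h : v = -v) : v = 0 := by
  have h2 : (2 : ℂ) • v = 0 := by
    rw [two_smul]
    nth_rewrite 1 [h]
    simp
  exact (smul_eq_zero.mp h2).resolve_left two_ne_zero

private theorem glue1b_pd {ι V : Type*} [Fintype ι] [DecidableEq ι] [NormedAddCommGroup V]
    [NormedSpace ℝ V] {F : (ι → ℝ) → V} {F' : (ι → ℝ) →L[ℝ] V} {x : ι → ℝ}
    (h : HasFDerivAt F F' x) (j : ι) : pd j F x = F' (Pi.single j 1) := by
  unfold pd
  rw [h.fderiv]

section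
variable {ι : Type*} [Fintype ι] [DecidableEq ι] (g : GData ι R 𝔾)

private theorem glue1b_anti (f : (ι → ℝ) → ℝ) (y : ι → ℝ) (i : ι) :
    g.θ i * d1 g f y = -(d1 g f y * g.θ i) := by
  unfold d1
  rw [Finset.mul_sum, Finset.sum_mul, ← Finset.sum_neg_distrib]
  refine Finset.sum_congr rfl fun j _ => ?_
  rw [mul_smul_comm, smul_mul_assoc, g.anti i j, smul_neg]

private theorem glue1b_anti2 (f f' : (ι → ℝ) → ℝ) (y : ι → ℝ) :
    d1 g f y * d1 g f' y = -(d1 g f' y * d1 g f y) := by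
  have h : d1 g f y = ∑ j, ((pd j f y : ℝ) : ℂ) • g.θ j := rfl
  rw [h, Finset.mul_sum, Finset.sum_mul, ← Finset.sum_neg_distrib]
  refine Finset.sum_congr rfl fun j _ => ?_
  rw [mul_smul_comm, smul_mul_assoc, glue1b_anti, smul_neg]

private theorem glue1b_sq (f : (ι → ℝ) → ℝ) (y : ι → ℝ) : d1 g f y * d1 g f y = 0 :=
  glue1b_double (glue1b_anti2 g f f y)

private theorem glue1b_mem {Q : Type*} (G : Q → (ι → ℝ) → ℝ) (y : ι → ℝ) (q : Q) (L : List Q)
    (hq : q ∈ L) : d1 g (G q) y * (L.map fun q => d1 g (G q) y).prod = 0 := by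
  induction L with
  | nil => simp at hq
  | cons a L ih =>
    rw [List.map_cons, List.prod_cons, ← mul_assoc]
    rcases List.mem_cons.mp hq with h | h
    · rw [h, glue1b_sq, zero_mul]
    · rw [glue1b_anti2, neg_mul, mul_assoc, ih h, mul_zero, neg_zero]

private theorem glue1b_contDiffAt {f : (ι → ℝ) → ℝ} {x : ι → ℝ} (hf : ContDiffAt ℝ ∞ f x) :
    ContDiffAt ℝ ∞ (d1 g f) x := by
  have h : d1 g f = fun y => ∑ j, ((pd j f y : ℝ) : ℂ) • g.θ j := rfl
  rw [h]
  refine ContDiffAt.sum fun j _ => ?_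
  exact (Complex.ofRealCLM.contDiff.contDiffAt.comp x (contDiffAt_pd j hf)).smul contDiffAt_const

/-- the derivative of `d1 g f` -/
private theorem glue1b_dd {f : (ι → ℝ) → ℝ} {x : ι → ℝ} (hf : ContDiffAt ℝ ∞ f x) :
    ∑ j, g.θ j * pd j (d1 g f) x = 0 := by
  have h1 : ∀ j, pd j (d1 g f) x = ∑ i, ((pd j (pd i f) x : ℝ) : ℂ) • g.θ i := by
    intro j
    have h2 : ∀ i, HasFDerivAt (fun y => ((pd i f y : ℝ) : ℂ) • g.θ i)
        ((Complex.ofRealCLM.comp (fderiv ℝ (pd i f) x)).smulRight (g.θ i)) x := by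
      intro i
      have h3 : HasFDerivAt (pd i f) (fderiv ℝ (pd i f) x) x :=
        ((contDiffAt_pd i hf).differentiableAt (by simp)).hasFDerivAt
      have h4 := Complex.ofRealCLM.hasFDerivAt.comp x h3
      exact h4.smul_const (g.θ i)
    have h5 : HasFDerivAt (fun y => ∑ i, ((pd i f y : ℝ) : ℂ) • g.θ i) _ x :=
      HasFDerivAt.fun_sum fun i (_ : i ∈ Finset.univ) => h2 i
    have h6 : d1 g f = fun y => ∑ i, ((pd i f y : ℝ) : ℂ) • g.θ i := rfl
    rw [h6, glue1b_pd h5 j]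
    simp
    rfl
  simp_rw [h1, Finset.mul_sum, mul_smul_comm]
  apply glue1b_double
  nth_rewrite 1 [Finset.sum_comm]
  rw [← Finset.sum_neg_distrib]
  refine Finset.sum_congr rfl fun i _ => ?_
  rw [← Finset.sum_neg_distrib]
  refine Finset.sum_congr rfl fun j _ => ?_
  rw [g.anti j i, smul_neg, pd_comm j i hf]

private theorem glue1b_list {Q : Type*} (G : Q → (ι → ℝ) → ℝ) {x : ι → ℝ}
    (hG : ∀ q, ContDiffAt ℝ ∞ (G q) x) (L : List Q) :
    ContDiffAt ℝ ∞ (fun y => (L.map fun q => d1 g (G q) y).prod) x ∧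
      ∑ j, g.θ j * pd j (fun y => (L.map fun q => d1 g (G q) y).prod) x = 0 := by
  induction L with
  | nil =>
    refine ⟨by simpa using contDiffAt_const, ?_⟩
    simp [pd]
  | cons a L ih =>
    have ha := glue1b_contDiffAt g (hG a)
    have e : (fun y => ((a :: L).map fun q => d1 g (G q) y).prod) =
        fun y => d1 g (G a) y * (L.map fun q => d1 g (G q) y).prod := by
      funext y
      rw [List.map_cons, List.prod_cons]
    rw [e]
    refine ⟨ha.mul ih.1, ?_⟩
    have h1 : ∀ j, pd j (fun y => d1 g (G a) y * (L.map fun q => d1 g (G q) y).prod) x =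
        pd j (d1 g (G a)) x * (L.map fun q => d1 g (G q) x).prod +
          d1 g (G a) x * pd j (fun y => (L.map fun q => d1 g (G q) y).prod) x := fun j =>
      pd_mul j (ha.differentiableAt (by simp)) (ih.1.differentiableAt (by simp))
    simp_rw [h1, mul_add, Finset.sum_add_distrib, ← mul_assoc, ← Finset.sum_mul]
    rw [glue1b_dd g (hG a), zero_mul, zero_add]
    simp_rw [glue1b_anti, neg_mul, mul_assoc]
    rw [Finset.sum_neg_distrib, ← Finset.mul_sum, ih.2, mul_zero, neg_zero]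

end

/-- closedness, in the form needed -/
theorem dF_prod (g : GData (Co m d) R 𝔾) {s' : (Co m d → ℝ) → R} {x : Co m d → ℝ}
    (hs : Closed g s' x) {Q : Type*} [Fintype Q] [DecidableEq Q]
    (G : Q → (Co m d → ℝ) → ℝ) (hG : ∀ q, ContDiffAt ℝ ∞ (G q) x)
    (W : ℝ → ℝ) (hW : ContDiff ℝ ∞ W) :
    dF g (fun y => g.inc (s' y) * (((∏ q, W (G q y) : ℝ) : ℂ) •
      ((univ : Finset Q).toList.map fun q => d1 g (G q) y).prod)) x = 0 := by
  have hL := glue1b_list g G hG (univ : Finset Q).toList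
  set P : (Co m d → ℝ) → 𝔾 := fun y => ((univ : Finset Q).toList.map fun q => d1 g (G q) y).prod
    with hP
  -- derivative of the even part
  have h1 : HasFDerivAt s' (fderiv ℝ s' x) x := (hs.1.differentiableAt (by simp)).hasFDerivAt
  let incL : R →L[ℝ] 𝔾 := (⟨g.inc.toLinearMap, g.inc_cont⟩ : R →L[ℂ] 𝔾).restrictScalars ℝ
  have h2 : HasFDerivAt (fun y => g.inc (s' y)) (incL.comp (fderiv ℝ s' x)) x :=
    incL.hasFDerivAt.comp x h1
  -- derivative of the scalar factor
  have h3 : ∀ q, HasFDerivAt (fun y => W (G q y)) (deriv W (G q x) • fderiv ℝ (G q) x) x := by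
    intro q
    have ha : HasDerivAt W (deriv W (G q x)) (G q x) :=
      ((hW.differentiable (by simp)) _).hasDerivAt
    have hb : HasFDerivAt (G q) (fderiv ℝ (G q) x) x :=
      ((hG q).differentiableAt (by simp)).hasFDerivAt
    exact ha.comp_hasFDerivAt x hb
  have h4 : HasFDerivAt (fun y => ∏ q, W (G q y)) _ x :=
    HasFDerivAt.finsetProd fun q (_ : q ∈ (univ : Finset Q)) => h3 q
  have h5 : HasFDerivAt P (fderiv ℝ P x) x := (hL.1.differentiableAt (by simp)).hasFDerivAt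
  have h6 : HasFDerivAt (fun y => g.inc (s' y) * ((∏ q, W (G q y)) • P y)) _ x :=
    h2.mul' (h4.smul h5)
  have e : (fun y => g.inc (s' y) * (((∏ q, W (G q y) : ℝ) : ℂ) •
      ((univ : Finset Q).toList.map fun q => d1 g (G q) y).prod)) =
      fun y => g.inc (s' y) * ((∏ q, W (G q y)) • P y) := by
    funext y
    rw [Complex.coe_smul]
  unfold dF
  have h7 : ∀ j, pd j (fun y => g.inc (s' y) * ((∏ q, W (G q y)) • P y)) x =
      g.inc (pd j s' x) * ((∏ q, W (G q x)) • P x) +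
      g.inc (s' x) * ((∏ q, W (G q x)) • pd j P x) +
      ∑ q, ((∏ q' ∈ univ.erase q, W (G q' x)) * deriv W (G q x) * pd j (G q) x) •
        (g.inc (s' x) * P x) := by
    intro j
    rw [glue1b_pd h6 j]
    simp [incL, Finset.sum_smul, Finset.mul_sum, pd]
    simp only [mul_assoc]
    abel
  rw [e]
  simp_rw [h7, mul_add, Finset.sum_add_distrib]
  have t1 : ∑ j, g.θ j * (g.inc (pd j s' x) * ((∏ q, W (G q x)) • P x)) = 0 := by
    simp_rw [← mul_assoc, ← Finset.sum_mul]
    rw [hs.2, zero_mul]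
  have t2 : ∑ j, g.θ j * (g.inc (s' x) * ((∏ q, W (G q x)) • pd j P x)) = 0 := by
    have h : ∀ j, g.θ j * (g.inc (s' x) * ((∏ q, W (G q x)) • pd j P x)) =
        (∏ q, W (G q x)) • (g.inc (s' x) * (g.θ j * pd j P x)) := by
      intro j
      rw [← mul_assoc, ← g.comm, mul_smul_comm, mul_assoc]
    simp_rw [h, ← Finset.smul_sum, ← Finset.mul_sum]
    rw [hL.2, mul_zero, smul_zero]
  have t3 : ∑ j, g.θ j * (∑ q, ((∏ q' ∈ univ.erase q, W (G q' x)) * deriv W (G q x) *
      pd j (G q) x) • (g.inc (s' x) * P x)) = 0 := by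
    simp_rw [Finset.mul_sum]
    rw [Finset.sum_comm]
    refine Finset.sum_eq_zero fun q _ => ?_
    have h : ∀ j, g.θ j * (((∏ q' ∈ univ.erase q, W (G q' x)) * deriv W (G q x) *
        pd j (G q) x) • (g.inc (s' x) * P x)) =
        ((∏ q' ∈ univ.erase q, W (G q' x)) * deriv W (G q x)) •
          (g.inc (s' x) * ((((pd j (G q) x : ℝ) : ℂ) • g.θ j) * P x)) := by
      intro j
      rw [Complex.coe_smul, mul_smul_comm, mul_smul, smul_mul_assoc, mul_smul_comm,
        ← mul_assoc, ← g.comm, mul_assoc]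
    simp_rw [h, ← Finset.smul_sum, ← Finset.mul_sum, ← Finset.sum_mul]
    have h8 : (∑ j, ((pd j (G q) x : ℝ) : ℂ) • g.θ j) * P x = 0 :=
      glue1b_mem g G x q _ (Finset.mem_toList.mpr (Finset.mem_univ q))
    rw [h8, mul_zero, smul_zero]
  rw [t1, t2, t3, add_zero, add_zero]

end Pool.Agent.MP_d8b6c2_an
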