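import Mathlib
import Pool.Agent.Lib.MP_d8b6c2_an.Glue
import Pool.Agent.Lib.MP_d8b6c2_an.Forms1
import Pool.Agent.Lib.MP_d8b6c2_an.Glue1b

/-! # Properties of the closed form `Th` (pointwise and local) -/

namespace Pool.Agent.MP_d8b6c2_an

open Finset Filter Topology
open scoped ContDiff

variable {J : ℕ} {m d : Fin J → ℕ} {n : Type*} [Fintype n] [DecidableEq n] {κ r0 s o S : ℕ}
variable {R 𝔾 : Type*} [NormedCommRing R] [NormedAlgebra ℂ R] [NormedRing 𝔾] [NormedAlgebra ℂ 𝔾]

private theorem glue1c_sum_pow {α K : Type*} [CommRing K] (T : Finset α) (f : α → K)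
    (e : α → ℕ) (hf : ∀ a ∈ T, f a ^ (e a + 1) = 0) :
    (∑ a ∈ T, f a) ^ (∑ a ∈ T, e a + 1) = 0 := by
  classical
  induction T using Finset.induction_on with
  | empty => simp
  | insert a T ha ih =>
    rw [Finset.sum_insert ha, Finset.sum_insert ha]
    have h1 := hf a (Finset.mem_insert_self a T)
    have h2 := ih fun b hb => hf b (Finset.mem_insert_of_mem hb)
    exact (Commute.all _ _).add_pow_eq_zero_of_add_le_succ_of_pow_eq_zero h1 h2 (by omega)

private theorem glue1c_cS : ContDiff ℝ ∞ cS := by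
  have h1 : ContDiff ℝ ∞ (fun y => Real.sin (ang y) ^ 2) := by
    unfold ang
    have h : ContDiff ℝ ∞ Real.smoothTransition := Real.smoothTransition.contDiff
    exact ((contDiff_const.mul h).sin).pow 2
  have h2 : ContDiff ℝ ∞ (deriv (fun y => Real.sin (ang y) ^ 2)) :=
    (contDiff_infty_iff_deriv.mp h1).2
  unfold cS
  exact contDiff_const.mul (Complex.ofRealCLM.contDiff.comp h2)

private theorem glue1c_closed (g : GData (Co m d) R 𝔾) (u : Sg m d) (x : Co m d → ℝ) :
    Closed g (fun y => cS (y (cr u)) • g.tt (cr u) (ct u)) x := by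
  have hp : ContDiff ℝ ∞ (fun y : Co m d → ℝ => y (cr u)) := contDiff_apply ℝ ℝ (cr u)
  refine ⟨?_, ?_⟩
  · exact ((glue1c_cS.comp hp).smul contDiff_const).contDiffAt
  · have h1 : HasFDerivAt (fun y : Co m d → ℝ => y (cr u))
        (ContinuousLinearMap.proj (R := ℝ) (φ := fun _ : Co m d => ℝ) (cr u)) x :=
      hasFDerivAt_apply (cr u) x
    have h2 : HasDerivAt cS (deriv cS (x (cr u))) (x (cr u)) :=
      ((glue1c_cS.differentiable (by simp)) _).hasDerivAt
    have h3 := h2.hasFDerivAt.comp x h1
    have h4 : HasFDerivAt (fun y : Co m d → ℝ => cS (y (cr u)) • g.tt (cr u) (ct u)) _ x :=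
      h3.smul_const (g.tt (cr u) (ct u))
    rw [Finset.sum_eq_single (cr u)]
    · unfold pd
      rw [h4.fderiv]
      simp
      right
      rw [g.inc_tt, ← mul_assoc, theta_sq, zero_mul]
    · intro j _ hj
      unfold pd
      rw [h4.fderiv]
      simp [hj]
    · intro h
      exact absurd (Finset.mem_univ _) h

/-- closedness of the forms of the nodes -/
theorem closed_XX (g : GData (Co m d) R 𝔾) (t : Fin J) (q : Pth m) (x : Co m d → ℝ) :
    Closed g (XX g t q) x := by
  have h : ∀ T : Finset (Sg m d),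
      Closed g (fun y => ∑ u ∈ T, cS (y (cr u)) • g.tt (cr u) (ct u)) x := by
    intro T
    classical
    induction T using Finset.induction_on with
    | empty => simpa using closed_const g (0 : R) x
    | insert a T ha ih =>
      have := closed_add g (glue1c_closed g a x) ih
      simpa [Finset.sum_insert ha] using this
  exact h _

/-- nilpotency: `XX t q` is a sum of `d t` elements with square zero -/
theorem XX_pow (g : GData (Co m d) R 𝔾) (t : Fin J) (q : Pth m) (x : Co m d → ℝ) :
    XX g t q x ^ (d t + 1) = 0 := by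
  have h1 : XX g t q x ^ (∑ a ∈ univ.filter (fun s : Sg m d => s.1.1 = (t, pre t q)), 1 + 1) = 0 := by
    unfold XX
    refine glue1c_sum_pow _ _ (fun _ => 1) fun a _ => ?_
    rw [pow_two, smul_mul_smul_comm, tt_mul_zero, smul_zero]
  have hn : pre t (pre t q) = pre t q := by
    funext s
    unfold pre
    split_ifs <;> rfl
  have h2 : (univ.filter (fun s : Sg m d => s.1.1 = (t, pre t q))).card ≤ d t := by
    have h3 : univ.filter (fun s : Sg m d => s.1.1 = (t, pre t q)) ⊆
        (univ : Finset (Fin (d t))).image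
          (fun i => (⟨⟨(t, pre t q), hn⟩, i⟩ : Sg m d)) := by
      intro s hs
      rw [Finset.mem_filter] at hs
      obtain ⟨⟨v, hv⟩, i⟩ := s
      have h4 : v = (t, pre t q) := hs.2
      subst h4
      exact Finset.mem_image.mpr ⟨i, Finset.mem_univ _, rfl⟩
    calc _ ≤ _ := Finset.card_le_card h3
      _ ≤ (univ : Finset (Fin (d t))).card := Finset.card_image_le
      _ = d t := by simp
  rw [← Finset.card_eq_sum_ones] at h1
  exact pow_eq_zero_of_le (by omega) h1

theorem XX_nil (g : GData (Co m d) R 𝔾) (M : Fin J → ℕ)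
    (hM : ∀ t, ∑ u ∈ univ.filter (t < ·), d u < M t) (q : Pth m) (x : Co m d → ℝ) (t : Fin J) :
    (∑ u ∈ univ.filter (t < ·), ((q u : ℕ) : R) * XX g u (pre u q) x) ^ M t = 0 := by
  have h := glue1c_sum_pow (univ.filter (t < ·))
    (fun u => ((q u : ℕ) : R) * XX g u (pre u q) x) d (fun u _ => by
      rw [mul_pow, XX_pow, mul_zero])
  exact pow_eq_zero_of_le (hM t) h

end Pool.Agent.MP_d8b6c2_an
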