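import Mathlib
import Pool.Agent.Lib.MP_d8b6c2_an.Glue
import Pool.Agent.Lib.MP_d8b6c2_an.Forms1
import Pool.Agent.Lib.MP_d8b6c2_an.Glue1c

/-! # Properties of the closed form `Th` (pointwise and local) -/

namespace Pool.Agent.MP_d8b6c2_an

open Finset Filter Topology
open scoped ContDiff

variable {J : ℕ} {m d : Fin J → ℕ} {n : Type*} [Fintype n] [DecidableEq n] {κ r0 s o S : ℕ}
variable {R 𝔾 : Type*} [NormedCommRing R] [NormedAlgebra ℂ R] [NormedRing 𝔾] [NormedAlgebra ℂ 𝔾]

private theorem glue1d_diff (r : ℝ) : DifferentiableAt ℝ (fun y => Real.sin (ang y) ^ 2) r := by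
  have h1 : ContDiff ℝ 1 Real.smoothTransition := Real.smoothTransition.contDiff
  have h2 : Differentiable ℝ Real.smoothTransition := h1.differentiable (by norm_num)
  have h3 : DifferentiableAt ℝ ang r := by
    unfold ang
    exact (h2 r).const_mul _
  exact (h3.sin).pow 2

private theorem glue1d_aS (r : ℝ) : HasDerivAt aS (cS r) r := by
  have h := (glue1d_diff r).hasDerivAt
  have h2 := h.ofReal_comp
  unfold cS
  have h3 := h2.const_mul (2 * Real.pi * Complex.I : ℂ)
  refine h3.congr_of_eventuallyEq ?_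
  filter_upwards with y
  simp [aS]

private theorem glue1d_pd (i : Co m d) (u : Sg m d) (x : Co m d → ℝ) (c : ℂ) :
    pd i (fun y : Co m d → ℝ => c * aS (y (cr u))) x =
      c * cS (x (cr u)) * (if i = cr u then 1 else 0) := by
  have h1 : HasFDerivAt (fun y : Co m d → ℝ => y (cr u))
      (ContinuousLinearMap.proj (R := ℝ) (φ := fun _ : Co m d => ℝ) (cr u)) x :=
    hasFDerivAt_apply (cr u) x
  have h2 := (glue1d_aS (x (cr u))).hasFDerivAt.comp x h1
  have h3 := h2.const_mul c
  unfold pd
  have h4 : HasFDerivAt (fun y : Co m d → ℝ => c * aS (y (cr u))) _ x := h3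
  rw [h4.fderiv]
  simp [Pi.single_apply, eq_comm]

private theorem glue1d_pd_aa (p : Pth m) (i j : Co m d) (x : Co m d → ℝ) :
    pd i (aa p j) x =
      ∑ u : Sg m d, (lw p u : ℂ) * cS (x (cr u)) * (if i = cr u ∧ j = ct u then 1 else 0) := by
  have h0 : ∀ j' : Co m d, (∀ u : Sg m d, j' ≠ ct u) → pd i (aa p j') x =
      ∑ u : Sg m d, (lw p u : ℂ) * cS (x (cr u)) * (if i = cr u ∧ j' = ct u then 1 else 0) := by
    intro j' hj'
    have h1 : aa p j' = fun _ => 0 := by
      funext y
      unfold aa
      split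
      · rename_i s
        exact absurd rfl (hj' s)
      · rfl
    rw [h1, Finset.sum_eq_zero]
    · simp [pd]
    · intro u _
      rw [if_neg]
      · simp
      · rintro ⟨_, h⟩
        exact hj' u h
  match j with
  | none => exact h0 _ (fun u h => by cases h)
  | some (Sum.inl q) => exact h0 _ (fun u h => by cases h)
  | some (Sum.inr (Sum.inl v)) => exact h0 _ (fun u h => by cases h)
  | some (Sum.inr (Sum.inr v)) =>
    have h1 : aa p (some (Sum.inr (Sum.inr v))) =
        fun y : Co m d → ℝ => (lw p v : ℂ) * aS (y (cr v)) := by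
      funext y
      rfl
    rw [h1, glue1d_pd, Finset.sum_eq_single v]
    · simp
    · intro u _ hu
      rw [if_neg]
      · simp
      · rintro ⟨_, h⟩
        apply hu
        simpa using h.symm
    · intro h
      exact absurd (Finset.mem_univ _) h

/-- the curvature of the connection 1-form `aa p` -/
theorem curv_aa (p : Pth m) (i j : Co m d) (x : Co m d → ℝ) :
    pd i (aa p j) x - pd j (aa p i) x =
      ∑ u : Sg m d, (lw p u : ℂ) * cS (x (cr u)) *
        ((if i = cr u ∧ j = ct u then 1 else 0) - (if i = ct u ∧ j = cr u then 1 else 0)) := by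
  rw [glue1d_pd_aa, glue1d_pd_aa, ← Finset.sum_sub_distrib]
  refine Finset.sum_congr rfl fun u _ => ?_
  rw [mul_sub]
  congr 2
  simp only [and_comm]

/-- `∑ lw p s cS tt = ∑_t p_t XX t p` -/
theorem sum_lw_XX (g : GData (Co m d) R 𝔾) (p : Pth m) (x : Co m d → ℝ) :
    ∑ u : Sg m d, ((lw p u : ℂ) * cS (x (cr u))) • g.tt (cr u) (ct u) =
      ∑ t, ((p t : ℕ) : R) * XX g t (pre t p) x := by
  have hpre : ∀ t : Fin J, pre t (pre t p) = pre t p := by
    intro t
    funext s
    unfold pre
    split_ifs <;> rfl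
  have h1 : ∀ t : Fin J, ((p t : ℕ) : R) * XX g t (pre t p) x =
      ∑ u : Sg m d, if u.1.1 = (t, pre t p) then
        ((p t : ℕ) : R) * (cS (x (cr u)) • g.tt (cr u) (ct u)) else 0 := by
    intro t
    unfold XX
    rw [Finset.mul_sum, Finset.sum_filter, hpre]
  simp_rw [h1]
  rw [Finset.sum_comm]
  refine Finset.sum_congr rfl fun u _ => ?_
  rw [Finset.sum_eq_single u.1.1.1]
  · unfold lw
    by_cases h : pre u.1.1.1 p = u.1.1.2
    · rw [if_pos h, if_pos]
      · rw [mul_smul, ← nsmul_eq_mul, Nat.cast_smul_eq_nsmul]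
      · rw [h]
    · rw [if_neg h, if_neg]
      · simp
      · intro h'
        apply h
        rw [h']
  · intro t _ ht
    rw [if_neg]
    intro h
    apply ht
    rw [h]
  · intro h
    exact absurd (Finset.mem_univ _) h

end Pool.Agent.MP_d8b6c2_an
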