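import Mathlib
import Pool.Agent.Lib.MP_d8b6c2_an.Glue
import Pool.Agent.Lib.MP_d8b6c2_an.Forms1
import Pool.Agent.Lib.MP_d8b6c2_an.Glue1d

/-! # Properties of the closed form `Th` (pointwise and local) -/

namespace Pool.Agent.MP_d8b6c2_an

open Finset Filter Topology
open scoped ContDiff

variable {J : ℕ} {m d : Fin J → ℕ} {n : Type*} [Fintype n] [DecidableEq n] {κ r0 s o S : ℕ}
variable {R 𝔾 : Type*} [NormedCommRing R] [NormedAlgebra ℂ R] [NormedRing 𝔾] [NormedAlgebra ℂ 𝔾]

namespace Str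

variable (σ : Str m d n κ r0 s o S)

theorem act_subset (x : Co m d → ℝ) : σ.act x ⊆ σ.cact x := by
  intro i hi
  simp only [act, cact, mem_filter, mem_univ, true_and] at hi ⊢
  exact subset_tsupport _ hi

theorem act_nonempty (x : Co m d → ℝ) : (σ.act x).Nonempty := by
  by_contra h
  rw [not_nonempty_iff_eq_empty] at h
  have h1 := σ.φ_sum x
  have h2 : ∀ i ∈ (univ : Finset (Fin S)), σ.φ i x = 0 := by
    intro i _
    by_contra h3
    have h4 : i ∈ σ.act x := by
      simp only [act, mem_filter, mem_univ, true_and]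
      exact h3
    rw [h] at h4
    simp at h4
  rw [sum_eq_zero h2] at h1
  exact zero_ne_one h1

/-- near `x0` the active indices are among those of `cact x0` -/
theorem act_subset_near (x0 : Co m d → ℝ) : ∀ᶠ x in 𝓝 x0, σ.act x ⊆ σ.cact x0 := by
  have h1 : ∀ i : Fin S, ∀ᶠ x in 𝓝 x0, i ∈ σ.act x → i ∈ σ.cact x0 := by
    intro i
    by_cases hi : x0 ∈ tsupport (σ.φ i)
    · refine Eventually.of_forall fun x _ => ?_
      simp only [cact, mem_filter, mem_univ, true_and]
      exact hi
    · have h2 : (tsupport (σ.φ i))ᶜ ∈ 𝓝 x0 :=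
        (isClosed_tsupport _).isOpen_compl.mem_nhds hi
      filter_upwards [h2] with x hx hx2
      simp only [act, mem_filter, mem_univ, true_and] at hx2
      exact absurd (subset_tsupport _ hx2) hx
  filter_upwards [eventually_all.2 h1] with x hx i hi
  exact hx i hi

theorem good_mono {g : GData (Co m d) R 𝔾} {K K' : Finset (Fin S)} {x : Co m d → ℝ}
    (h : σ.Good g K x) (hK : K' ⊆ K) : σ.Good g K' x :=
  ⟨fun i hi => h.idem i (hK hi), fun i hi i' hi' => h.nest i (hK hi) i' (hK hi'),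
    fun i hi => h.le i (hK hi), fun i hi => h.comm i (hK hi)⟩

/-- near `x0` the idempotents with index in `cact x0` are good -/
theorem good_near (g : GData (Co m d) R 𝔾) (x0 : Co m d → ℝ) :
    ∀ᶠ x in 𝓝 x0, σ.Good g (σ.cact x0) x := by
  have hmem : ∀ i, i ∈ σ.cact x0 → x0 ∈ tsupport (σ.φ i) := by
    intro i hi
    simpa only [cact, mem_filter, mem_univ, true_and] using hi
  have h1 : ∀ᶠ x in 𝓝 x0, ∀ i, i ∈ σ.cact x0 → σ.Ph i x * σ.Ph i x = σ.Ph i x := by
    refine eventually_all.2 fun i => ?_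
    by_cases hi : i ∈ σ.cact x0
    · filter_upwards [σ.Ph_idem i x0 (hmem i hi)] with x hx _
      exact hx
    · exact Eventually.of_forall fun x h => absurd h hi
  have h2 : ∀ᶠ x in 𝓝 x0, ∀ i, ∀ i', i ∈ σ.cact x0 → i' ∈ σ.cact x0 → i ≤ i' →
      σ.Ph i x * σ.Ph i' x = σ.Ph i x ∧ σ.Ph i' x * σ.Ph i x = σ.Ph i x := by
    refine eventually_all.2 fun i => eventually_all.2 fun i' => ?_
    by_cases hi : i ∈ σ.cact x0
    · by_cases hi' : i' ∈ σ.cact x0
      · by_cases hii : i ≤ i'
        · filter_upwards [σ.Ph_nest i i' x0 hii (hmem i hi) (hmem i' hi')] with x hx _ _ _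
          exact hx
        · exact Eventually.of_forall fun x _ _ h => absurd h hii
      · exact Eventually.of_forall fun x _ h => absurd h hi'
    · exact Eventually.of_forall fun x h => absurd h hi
  have h3 : ∀ᶠ x in 𝓝 x0, ∀ i, i ∈ σ.cact x0 → (σ.Ph i x).rank ≤ κ := by
    refine eventually_all.2 fun i => ?_
    by_cases hi : i ∈ σ.cact x0
    · filter_upwards [σ.Ph_rank i x0 (hmem i hi)] with x hx _
      rw [hx]
      exact σ.rank_le i x0 (hmem i hi)
    · exact Eventually.of_forall fun x h => absurd h hi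
  have h4 : ∀ᶠ x in 𝓝 x0, ∀ i, i ∈ σ.cact x0 →
      cmat (σ.Ph i x) * σ.N g x = σ.N g x * cmat (σ.Ph i x) := by
    refine eventually_all.2 fun i => ?_
    by_cases hi : i ∈ σ.cact x0
    · filter_upwards [σ.Ph_smooth i x0 (hmem i hi),
        eventually_eventually_nhds.2 (σ.Ph_cov i x0 (hmem i hi))] with x hx hx2 _
      exact curvN_comm g hx (fun j => σ.A_smooth j x) hx2
    · exact Eventually.of_forall fun x h => absurd h hi
  filter_upwards [h1, h2, h3, h4] with x h1 h2 h3 h4
  exact ⟨h1, fun i hi i' hi' hii => h2 i i' hi hi' hii, h3, h4⟩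

theorem good_at (g : GData (Co m d) R 𝔾) (x : Co m d → ℝ) : σ.Good g (σ.cact x) x :=
  (σ.good_near g x).self_of_nhds

end Str

end Pool.Agent.MP_d8b6c2_an
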