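import Mathlib
import Pool.Agent.Lib.MP_d8b6c2_an.Glue
import Pool.Agent.Lib.MP_d8b6c2_an.Forms1
import Pool.Agent.Lib.MP_d8b6c2_an.Glue1e

/-! # Properties of the closed form `Th` (pointwise and local) -/

namespace Pool.Agent.MP_d8b6c2_an

open Finset Filter Topology
open scoped ContDiff

variable {J : ℕ} {m d : Fin J → ℕ} {n : Type*} [Fintype n] [DecidableEq n] {κ r0 s o S : ℕ}
variable {R 𝔾 : Type*} [NormedCommRing R] [NormedAlgebra ℂ R] [NormedRing 𝔾] [NormedAlgebra ℂ 𝔾]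

namespace Str

variable (σ : Str m d n κ r0 s o S)

omit [DecidableEq n] in
theorem glue1f_eq {P Q : Matrix n n ℂ} (hP : P * P = P) (h1 : P * Q = P) (h2 : Q * P = P)
    (h : P.rank = Q.rank) : P = Q := by
  classical
  have hle : LinearMap.range P.mulVecLin ≤ LinearMap.range Q.mulVecLin := by
    rintro _ ⟨v, rfl⟩
    refine ⟨P.mulVec v, ?_⟩
    rw [Matrix.mulVecLin_apply, Matrix.mulVecLin_apply, Matrix.mulVec_mulVec, h2]
  have heq : LinearMap.range P.mulVecLin = LinearMap.range Q.mulVecLin :=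
    Submodule.eq_of_le_of_finrank_eq hle h
  have h3 : P * Q = Q := by
    refine Matrix.ext_of_mulVec_single fun j => ?_
    have h4 : Q.mulVec (Pi.single j 1) ∈ LinearMap.range P.mulVecLin := by
      rw [heq]
      exact ⟨_, rfl⟩
    obtain ⟨w, hw⟩ := h4
    rw [Matrix.mulVecLin_apply] at hw
    rw [← Matrix.mulVec_mulVec, ← hw, Matrix.mulVec_mulVec, hP]
  rw [← h3, h1]

/-- equal ranks: nested idempotents of the same rank agree -/
theorem Ph_eq_of_rank {g : GData (Co m d) R 𝔾} {K : Finset (Fin S)} {x : Co m d → ℝ}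
    (hG : σ.Good g K x) {i i' : Fin S} (hi : i ∈ K) (hi' : i' ∈ K)
    (h : (σ.Ph i x).rank = (σ.Ph i' x).rank) : σ.Ph i x = σ.Ph i' x := by
  rcases le_total i i' with hii | hii
  · have h1 := hG.nest i hi i' hi' hii
    exact glue1f_eq (hG.idem i hi) h1.1 h1.2 h
  · have h1 := hG.nest i' hi' i hi hii
    exact (glue1f_eq (hG.idem i' hi') h1.1 h1.2 h.symm).symm

theorem rank_mono {g : GData (Co m d) R 𝔾} {K : Finset (Fin S)} {x : Co m d → ℝ}
    (hG : σ.Good g K x) {i i' : Fin S} (hi : i ∈ K) (hi' : i' ∈ K) (h : i ≤ i') :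
    (σ.Ph i x).rank ≤ (σ.Ph i' x).rank := by
  have h1 := (hG.nest i hi i' hi' h).2
  calc (σ.Ph i x).rank = (σ.Ph i' x * σ.Ph i x).rank := by rw [h1]
    _ ≤ (σ.Ph i' x).rank := Matrix.rank_mul_le_left _ _

theorem PrAt_eq {g : GData (Co m d) R 𝔾} {K : Finset (Fin S)} {x : Co m d → ℝ}
    (hG : σ.Good g K x) {i : Fin S} (hi : i ∈ K) :
    σ.PrAt K x x (σ.Ph i x).rank = σ.Ph i x := by
  unfold PrAt
  split_ifs with h
  · have h1 := h.2.choose_spec
    exact σ.Ph_eq_of_rank hG h1.1 hi h1.2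
  · have h1 : (σ.Ph i x).rank = 0 := by
      by_contra h2
      exact h ⟨h2, i, hi, rfl⟩
    have h3 : LinearMap.range (σ.Ph i x).mulVecLin = ⊥ := Submodule.finrank_eq_zero.1 h1
    have h4 : (σ.Ph i x).mulVecLin = 0 := LinearMap.range_eq_bot.1 h3
    refine (Matrix.ext_of_mulVec_single fun j => ?_).symm
    have h5 := LinearMap.congr_fun h4 (Pi.single j 1)
    rw [Matrix.mulVecLin_apply] at h5
    rw [h5, Matrix.zero_mulVec]
    rfl

theorem chain_at {g : GData (Co m d) R 𝔾} {K : Finset (Fin S)} {x : Co m d → ℝ}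
    (hG : σ.Good g K x) : Chain (σ.Rks K x) (σ.PrAt K x x) := by
  have hmem : ∀ r ∈ σ.Rks K x, ∃ i ∈ K, (σ.Ph i x).rank = r := by
    intro r hr
    simpa only [Rks, mem_image] using hr
  refine ⟨?_, ?_, ?_, ?_⟩
  · unfold PrAt
    rw [dif_neg]
    rintro ⟨h, -⟩
    exact h rfl
  · intro r hr
    obtain ⟨i, hi, rfl⟩ := hmem r hr
    rw [σ.PrAt_eq hG hi]
    exact hG.idem i hi
  · intro r hr r' hr' hrr
    obtain ⟨i, hi, rfl⟩ := hmem r hr
    obtain ⟨i', hi', rfl⟩ := hmem r' hr'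
    rw [σ.PrAt_eq hG hi, σ.PrAt_eq hG hi']
    rcases le_total i i' with hii | hii
    · exact hG.nest i hi i' hi' hii
    · have h1 := σ.rank_mono hG hi' hi hii
      have h2 := σ.Ph_eq_of_rank hG hi hi' (le_antisymm hrr h1)
      rw [h2]
      exact ⟨hG.idem i' hi', hG.idem i' hi'⟩
  · intro r hr
    obtain ⟨i, hi, rfl⟩ := hmem r hr
    rw [σ.PrAt_eq hG hi]

end Str

end Pool.Agent.MP_d8b6c2_an
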