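import Mathlib
import Pool.Agent.Lib.MP_d8b6c2_an.Glue
import Pool.Agent.Lib.MP_d8b6c2_an.Forms1
import Pool.Agent.Lib.MP_d8b6c2_an.Glue1f

/-! # Properties of the closed form `Th` (pointwise and local) -/

namespace Pool.Agent.MP_d8b6c2_an

open Finset Filter Topology
open scoped ContDiff

variable {J : ℕ} {m d : Fin J → ℕ} {n : Type*} [Fintype n] [DecidableEq n] {κ r0 s o S : ℕ}
variable {R 𝔾 : Type*} [NormedCommRing R] [NormedAlgebra ℂ R] [NormedRing 𝔾] [NormedAlgebra ℂ 𝔾]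

private theorem glue1g_idem_eq {E F : Matrix n n ℂ} (hE : E * E = E)
    (h1 : E * F = E) (h2 : F * E = E) (hr : F.rank ≤ E.rank) : E = F := by
  have hle : LinearMap.range E.mulVecLin ≤ LinearMap.range F.mulVecLin := by
    rintro v ⟨w, rfl⟩
    refine ⟨E.mulVec w, ?_⟩
    rw [Matrix.mulVecLin_apply, Matrix.mulVecLin_apply, Matrix.mulVec_mulVec, h2]
  have heq : LinearMap.range E.mulVecLin = LinearMap.range F.mulVecLin :=
    Submodule.eq_of_le_of_finrank_le hle hr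
  apply Matrix.ext_of_mulVec_single
  intro i
  have hmem : F.mulVec (Pi.single i 1) ∈ LinearMap.range E.mulVecLin := by
    rw [heq]
    exact ⟨_, rfl⟩
  obtain ⟨w, hw⟩ := hmem
  rw [Matrix.mulVecLin_apply] at hw
  calc E.mulVec (Pi.single i 1) = (E * F).mulVec (Pi.single i 1) := by rw [h1]
    _ = E.mulVec (F.mulVec (Pi.single i 1)) := by rw [Matrix.mulVec_mulVec]
    _ = E.mulVec (E.mulVec w) := by rw [hw]
    _ = E.mulVec w := by rw [Matrix.mulVec_mulVec, hE]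
    _ = F.mulVec (Pi.single i 1) := hw

namespace Str

variable (σ : Str m d n κ r0 s o S)

private theorem glue1g_mem_cact {x0 : Co m d → ℝ} {i : Fin S} :
    i ∈ σ.cact x0 ↔ x0 ∈ tsupport (σ.φ i) := by
  classical
  unfold Str.cact
  rw [Finset.mem_filter]
  exact ⟨fun h => h.2, fun h => ⟨Finset.mem_univ _, h⟩⟩

private theorem glue1g_rank_near (x0 : Co m d → ℝ) :
    ∀ᶠ x in 𝓝 x0, ∀ i ∈ σ.cact x0, (σ.Ph i x).rank = (σ.Ph i x0).rank := by
  rw [Filter.eventually_all_finset]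
  intro i hi
  exact σ.Ph_rank i x0 (σ.glue1g_mem_cact.1 hi)

private theorem glue1g_idem_near (x0 : Co m d → ℝ) :
    ∀ᶠ x in 𝓝 x0, ∀ i ∈ σ.cact x0, σ.Ph i x * σ.Ph i x = σ.Ph i x := by
  rw [Filter.eventually_all_finset]
  intro i hi
  exact σ.Ph_idem i x0 (σ.glue1g_mem_cact.1 hi)

private theorem glue1g_nest_near (x0 : Co m d → ℝ) :
    ∀ᶠ x in 𝓝 x0, ∀ i ∈ σ.cact x0, ∀ i' ∈ σ.cact x0, i ≤ i' →
      σ.Ph i x * σ.Ph i' x = σ.Ph i x ∧ σ.Ph i' x * σ.Ph i x = σ.Ph i x := by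
  rw [Filter.eventually_all_finset]
  intro i hi
  rw [Filter.eventually_all_finset]
  intro i' hi'
  by_cases h : i ≤ i'
  · filter_upwards [σ.Ph_nest i i' x0 h (σ.glue1g_mem_cact.1 hi) (σ.glue1g_mem_cact.1 hi')]
      with x hx _
    exact hx
  · exact Filter.Eventually.of_forall (fun x h' => absurd h' h)

private theorem glue1g_PrAt_zero (K : Finset (Fin S)) (x0 x : Co m d → ℝ) :
    σ.PrAt K x0 x 0 = 0 := by
  unfold Str.PrAt
  rw [dif_neg]
  rintro ⟨h, _⟩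
  exact h rfl

private theorem glue1g_PrAt_pos {K : Finset (Fin S)} {x0 : Co m d → ℝ} {r : ℕ} (hr : r ≠ 0)
    (h : r ∈ σ.Rks K x0) :
    ∃ i ∈ K, (σ.Ph i x0).rank = r ∧ ∀ x, σ.PrAt K x0 x r = σ.Ph i x := by
  have h' : r ≠ 0 ∧ ∃ i ∈ K, (σ.Ph i x0).rank = r := by
    refine ⟨hr, ?_⟩
    unfold Str.Rks at h
    obtain ⟨i, hi, e⟩ := Finset.mem_image.1 h
    exact ⟨i, hi, e⟩
  refine ⟨h'.2.choose, h'.2.choose_spec.1, h'.2.choose_spec.2, ?_⟩
  intro x
  unfold Str.PrAt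
  rw [dif_pos h']

/-- near `x0` the idempotents with ranks taken at `x0` form a chain -/
theorem chain_near {K : Finset (Fin S)} {x0 : Co m d → ℝ} (hK : K ⊆ σ.cact x0) :
    ∀ᶠ x in 𝓝 x0, Chain (σ.Rks K x0) (σ.PrAt K x0 x) := by
  filter_upwards [σ.glue1g_rank_near x0, σ.glue1g_idem_near x0, σ.glue1g_nest_near x0]
    with x h1 h2 h3
  refine ⟨σ.glue1g_PrAt_zero K x0 x, ?_, ?_, ?_⟩
  · intro r hr
    by_cases h0 : r = 0
    · rw [h0, σ.glue1g_PrAt_zero, Matrix.mul_zero]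
    · obtain ⟨i, hi, _, e⟩ := σ.glue1g_PrAt_pos h0 hr
      rw [e, h2 i (hK hi)]
  · intro r hr r' hr' hle
    by_cases h0 : r = 0
    · rw [h0, σ.glue1g_PrAt_zero, Matrix.mul_zero, Matrix.zero_mul]
      exact ⟨rfl, rfl⟩
    · have h0' : r' ≠ 0 := by omega
      obtain ⟨i, hi, hri, e⟩ := σ.glue1g_PrAt_pos h0 hr
      obtain ⟨i', hi', hri', e'⟩ := σ.glue1g_PrAt_pos h0' hr'
      rw [e, e']
      rcases le_total i i' with h | h
      · exact h3 i (hK hi) i' (hK hi') h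
      · have h4 := h3 i' (hK hi') i (hK hi) h
        have h5 : σ.Ph i' x = σ.Ph i x :=
          glue1g_idem_eq (h2 i' (hK hi')) h4.1 h4.2 (by
            rw [h1 i (hK hi), h1 i' (hK hi'), hri, hri']
            exact hle)
        rw [h5]
        exact ⟨h2 i (hK hi), h2 i (hK hi)⟩
  · intro r hr
    by_cases h0 : r = 0
    · rw [h0, σ.glue1g_PrAt_zero, Matrix.rank_zero]
    · obtain ⟨i, hi, hri, e⟩ := σ.glue1g_PrAt_pos h0 hr
      rw [e, h1 i (hK hi), hri]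

theorem rmax_le {g : GData (Co m d) R 𝔾} {K : Finset (Fin S)} {x : Co m d → ℝ}
    (hG : σ.Good g K x) : rmax (σ.Rks K x) ≤ κ := by
  unfold rmax
  refine Finset.sup_le ?_
  intro r hr
  unfold Str.Rks at hr
  obtain ⟨i, hi, e⟩ := Finset.mem_image.1 hr
  rw [← e]
  exact hG.le i hi

theorem PrAt_comm {g : GData (Co m d) R 𝔾} {K : Finset (Fin S)} {x : Co m d → ℝ}
    (hG : σ.Good g K x) (r : ℕ) (hr : r ∈ σ.Rks K x) :
    cmat (σ.PrAt K x x r) * σ.N g x = σ.N g x * cmat (σ.PrAt K x x r) := by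
  by_cases h0 : r = 0
  · rw [h0, σ.glue1g_PrAt_zero]
    have : cmat (0 : Matrix n n ℂ) = (0 : Matrix n n R) := by
      ext a b
      simp [cmat]
    rw [this, Matrix.zero_mul, Matrix.mul_zero]
  · obtain ⟨i, hi, _, e⟩ := σ.glue1g_PrAt_pos h0 hr
    rw [e]
    exact hG.comm i hi

/-- near `x0` the ranks are those at `x0`, for the indices in `cact x0` -/
theorem rank_near (x0 : Co m d → ℝ) :
    ∀ᶠ x in 𝓝 x0, ∀ i ∈ σ.cact x0, (σ.Ph i x).rank = (σ.Ph i x0).rank :=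
  σ.glue1g_rank_near x0

end Str

end Pool.Agent.MP_d8b6c2_an
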