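import Mathlib
import Pool.Agent.Lib.MP_d8b6c2_an.Glue
import Pool.Agent.Lib.MP_d8b6c2_an.Forms1
import Pool.Agent.Lib.MP_d8b6c2_an.Glue1g

/-! # Properties of the closed form `Th` (pointwise and local) -/

namespace Pool.Agent.MP_d8b6c2_an

open Finset Filter Topology
open scoped ContDiff

variable {J : ℕ} {m d : Fin J → ℕ} {n : Type*} [Fintype n] [DecidableEq n] {κ r0 s o S : ℕ}
variable {R 𝔾 : Type*} [NormedCommRing R] [NormedAlgebra ℂ R] [NormedRing 𝔾] [NormedAlgebra ℂ 𝔾]

namespace Str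

variable (σ : Str m d n κ r0 s o S)

private theorem glue1h_cov_PrAt (g : GData (Co m d) R 𝔾) {K : Finset (Fin S)}
    {x0 : Co m d → ℝ} (hK : K ⊆ σ.cact x0) (r : ℕ) :
    Cov g σ.A (fun y => (cmat (σ.PrAt K x0 y r) : Matrix n n R)) x0 := by
  classical
  by_cases h : r ≠ 0 ∧ ∃ i ∈ K, (σ.Ph i x0).rank = r
  · have e : (fun y => (cmat (σ.PrAt K x0 y r) : Matrix n n R)) =
        fun y => (cmat (σ.Ph h.2.choose y) : Matrix n n R) := by
      funext y
      unfold PrAt
      rw [dif_pos h]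
    rw [e]
    have hi : x0 ∈ tsupport (σ.φ h.2.choose) := by
      have := hK h.2.choose_spec.1
      unfold cact at this
      exact (Finset.mem_filter.1 this).2
    exact cov_cmat g (σ.Ph_smooth _ x0 hi).self_of_nhds (σ.Ph_cov _ x0 hi).self_of_nhds
  · have e : (fun y => (cmat (σ.PrAt K x0 y r) : Matrix n n R)) = fun _ => 0 := by
      funext y
      unfold PrAt
      rw [dif_neg h]
      ext a b
      simp [cmat]
    rw [e]
    have := cov_smul g (A := σ.A) (closed_const g (0 : R) x0) (cov_one g (A := σ.A) x0)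
    simpa using this

/-- the value of a labelling is closed -/
theorem closed_TDx (M cap : Fin J → ℕ) (g : GData (Co m d) R 𝔾) {K : Finset (Fin S)}
    {x0 : Co m d → ℝ} (hK : K ⊆ σ.cact x0) (p : Fin κ → Pth m) :
    Closed g (fun x => TD M cap (σ.Rks K x0) (σ.PrAt K x0 x) (σ.N g x)
      (fun t q => XX g t q x) p) x0 := by
  have hG : σ.Good g K x0 := σ.good_mono (σ.good_at g x0) hK
  refine closed_TD (A := σ.A) g M cap (σ.Rks K x0) (σ.rmax_le hG)
    (Pr := fun r y => σ.PrAt K x0 y r) (N := σ.N g) (fun t q x => XX g t q x)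
    (σ.chain_near hK) ?_ ?_ ?_ ?_ p
  · intro y
    show σ.PrAt K x0 y 0 = 0
    unfold PrAt
    rw [dif_neg (fun h => h.1 rfl)]
  · intro r _
    exact σ.glue1h_cov_PrAt g hK r
  · exact cov_curvN g (fun j => σ.A_smooth j x0)
  · intro t q
    exact closed_XX g t q x0

end Str

end Pool.Agent.MP_d8b6c2_an
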