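import Mathlib
import Pool.Agent.Lib.MP_d8b6c2_an.Glue
import Pool.Agent.Lib.MP_d8b6c2_an.Forms1
import Pool.Agent.Lib.MP_d8b6c2_an.Glue1h

/-! # Properties of the closed form `Th` (pointwise and local) -/

namespace Pool.Agent.MP_d8b6c2_an

open Finset Filter Topology
open scoped ContDiff

variable {J : ℕ} {m d : Fin J → ℕ} {n : Type*} [Fintype n] [DecidableEq n] {κ r0 s o S : ℕ}
variable {R 𝔾 : Type*} [NormedCommRing R] [NormedAlgebra ℂ R] [NormedRing 𝔾] [NormedAlgebra ℂ 𝔾]

private theorem glue1i_ang : ContDiff ℝ ∞ ang := by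
  unfold ang
  exact contDiff_const.mul Real.smoothTransition.contDiff

private theorem glue1i_aS : ContDiff ℝ ∞ aS := by
  unfold aS
  have h : ContDiff ℝ ∞ fun r : ℝ => Real.sin (ang r) ^ 2 :=
    (Real.contDiff_sin.comp glue1i_ang).pow 2
  exact contDiff_const.mul (Complex.ofRealCLM.contDiff.comp h)

private theorem glue1i_coord {ι : Type*} [Fintype ι] (j : ι) :
    ContDiff ℝ ∞ (fun x : ι → ℝ => x j) := contDiff_apply ℝ ℝ j

private theorem glue1i_aa (p : Pth m) (j : Co m d) (x : Co m d → ℝ) :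
    ContDiffAt ℝ ∞ (aa p j) x := by
  rcases j with _ | j
  · exact contDiffAt_const
  · rcases j with j | j
    · exact contDiffAt_const
    · rcases j with u | u
      · exact contDiffAt_const
      · exact (contDiff_const.mul (glue1i_aS.comp (glue1i_coord _))).contDiffAt

omit [Fintype n] [DecidableEq n] in
private theorem glue1i_cmat_smul {n' : Type*} (c : ℂ) (P : Matrix n n' ℂ) :
    (cmat (c • P) : Matrix n n' R) = algebraMap ℂ R c • cmat P := by
  ext i j
  simp [cmat]

omit [Fintype n] [DecidableEq n] in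
private theorem glue1i_cmat_mul {n' n'' : Type*} [Fintype n'] (P : Matrix n n' ℂ)
    (Q : Matrix n' n'' ℂ) : (cmat P : Matrix n n' R) * (cmat Q : Matrix n' n'' R) =
      cmat (P * Q) := by
  ext i j
  simp [cmat, Matrix.mul_apply]

private theorem glue1i_sum (g : GData (Co m d) R 𝔾) (α : Sg m d → ℂ) :
    ∑ i : Co m d, ∑ j : Co m d, ((1 / 2 : ℂ) * ∑ u : Sg m d, α u *
      ((if i = cr u ∧ j = ct u then 1 else 0) - (if i = ct u ∧ j = cr u then 1 else 0))) • g.tt i j =
      ∑ u : Sg m d, α u • g.tt (cr u) (ct u) := by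
  have h1 : ∀ i j : Co m d, ((1 / 2 : ℂ) * ∑ u : Sg m d, α u *
      ((if i = cr u ∧ j = ct u then 1 else 0) - (if i = ct u ∧ j = cr u then 1 else 0))) •
        g.tt i j = ∑ u : Sg m d, (((1 / 2 : ℂ) * α u) • (if i = cr u then (if j = ct u then g.tt i j
          else 0) else 0) - ((1 / 2 : ℂ) * α u) • (if i = ct u then (if j = cr u then g.tt i j
          else 0) else 0)) := by
    intro i j
    rw [Finset.mul_sum, Finset.sum_smul]
    refine Finset.sum_congr rfl fun u _ => ?_
    by_cases a : i = cr u <;> by_cases b : j = ct u <;> by_cases c : i = ct u <;>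
      by_cases e : j = cr u <;> simp [a, b, c, e, mul_smul]
  simp_rw [h1]
  have h2 : ∀ u : Sg m d, ∑ i : Co m d, ∑ j : Co m d,
      (((1 / 2 : ℂ) * α u) • (if i = cr u then (if j = ct u then g.tt i j
          else 0) else 0) - ((1 / 2 : ℂ) * α u) • (if i = ct u then (if j = cr u then g.tt i j
          else 0) else 0)) = α u • g.tt (cr u) (ct u) := by
    intro u
    simp_rw [Finset.sum_sub_distrib, ← Finset.smul_sum]
    simp only [Finset.sum_ite_irrel, Finset.sum_const_zero, Finset.sum_ite_eq',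
      Finset.mem_univ, if_true]
    rw [tt_anti g (ct u) (cr u), smul_neg, sub_neg_eq_add, ← add_smul]
    congr 1
    ring
  calc _ = ∑ i : Co m d, ∑ u : Sg m d, ∑ j : Co m d,
      (((1 / 2 : ℂ) * α u) • (if i = cr u then (if j = ct u then g.tt i j
          else 0) else 0) - ((1 / 2 : ℂ) * α u) • (if i = ct u then (if j = cr u then g.tt i j
          else 0) else 0)) := Finset.sum_congr rfl fun i _ => Finset.sum_comm
    _ = _ := by
      rw [Finset.sum_comm]
      exact Finset.sum_congr rfl fun u _ => h2 u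

namespace Str

variable (σ : Str m d n κ r0 s o S)

/-- the curvature on a certified subbundle -/
theorem N_cert (g : GData (Co m d) R 𝔾) (q : Pth m) (x : Co m d → ℝ) (hx : 3 / 4 < x (cu q)) :
    σ.N g x * cmat (σ.Jf q x) = (∑ t, ((q t : ℕ) : R) * XX g t (pre t q) x) •
      (cmat (σ.Jf q x) : Matrix n (Fin r0) R) := by
  have hev : ∀ᶠ y in 𝓝 x, ∀ j, pdm j (σ.Jf q) y + σ.A j y * σ.Jf q y =
      aa q j y • σ.Jf q y := by
    have hop : ∀ᶠ y : Co m d → ℝ in 𝓝 x, 3 / 4 < y (cu q) :=
      (continuous_apply (cu q)).continuousAt.eventually (lt_mem_nhds hx)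
    filter_upwards [hop] with y hy
    exact σ.J_cov q y hy
  have hc : ∀ i j, curv σ.A i j x * σ.Jf q x =
      (∑ u : Sg m d, (lw q u : ℂ) * cS (x (cr u)) *
        ((if i = cr u ∧ j = ct u then 1 else 0) - (if i = ct u ∧ j = cr u then 1 else 0))) •
        σ.Jf q x := by
    intro i j
    rw [curv_frame (σ.J_smooth q x) (fun j => σ.A_smooth j x) (fun j => glue1i_aa q j x) hev i j,
      curv_aa]
  have h1 : (σ.N g x : Matrix n n R) * (cmat (σ.Jf q x) : Matrix n (Fin r0) R) = (∑ i : Co m d, ∑ j : Co m d,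
      ((1 / 2 : ℂ) * ∑ u : Sg m d, ((lw q u : ℂ) * cS (x (cr u))) *
      ((if i = cr u ∧ j = ct u then 1 else 0) - (if i = ct u ∧ j = cr u then 1 else 0))) •
        g.tt i j) • (cmat (σ.Jf q x) : Matrix n (Fin r0) R) := by
    unfold Str.N curvN
    rw [Matrix.sum_mul, Finset.sum_smul]
    refine Finset.sum_congr rfl fun i _ => ?_
    rw [Matrix.sum_mul, Finset.sum_smul]
    refine Finset.sum_congr rfl fun j _ => ?_
    rw [Matrix.smul_mul, glue1i_cmat_mul, Matrix.smul_mul, hc, smul_smul, glue1i_cmat_smul, smul_smul,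
      Algebra.smul_def, mul_comm (g.tt i j)]
  have h2 : (σ.N g x : Matrix n n R) * (cmat (σ.Jf q x) : Matrix n (Fin r0) R) =
      (∑ t, ((q t : ℕ) : R) * XX g t (pre t q) x) • (cmat (σ.Jf q x) : Matrix n (Fin r0) R) := by
    rw [h1, glue1i_sum g (fun u => (lw q u : ℂ) * cS (x (cr u))), sum_lw_XX]
  exact h2

end Str

end Pool.Agent.MP_d8b6c2_an
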