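import Mathlib
import Pool.Agent.Lib.MP_d8b6c2_an.Glue
import Pool.Agent.Lib.MP_d8b6c2_an.Forms1
import Pool.Agent.Lib.MP_d8b6c2_an.Glue1i

/-! # Properties of the closed form `Th` (pointwise and local) -/

namespace Pool.Agent.MP_d8b6c2_an

open Finset Filter Topology
open scoped ContDiff

variable {J : ℕ} {m d : Fin J → ℕ} {n : Type*} [Fintype n] [DecidableEq n] {κ r0 s o S : ℕ}
variable {R 𝔾 : Type*} [NormedCommRing R] [NormedAlgebra ℂ R] [NormedRing 𝔾] [NormedAlgebra ℂ 𝔾]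

namespace Str

variable (σ : Str m d n κ r0 s o S)

/-- if the value of a labelling is not zero then the certified labels are present -/
theorem pres_cert (M cap : Fin J → ℕ) (hM : ∀ t, ∑ u ∈ univ.filter (t < ·), d u < M t)
    (g : GData (Co m d) R 𝔾) {K : Finset (Fin S)} {x : Co m d → ℝ} (hK : K ⊆ σ.cact x)
    (p : Fin κ → Pth m) (h : σ.TDx M cap g K x p ≠ 0) (q : Pth m) (hx : 3 / 4 < x (cu q))
    (i : Fin S) (hi : i ∈ K) : pres cap r0 (σ.Ph i x).rank p q := by
  classical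
  have hG := σ.good_mono (σ.good_at g x) hK
  refine TD_cert M cap (σ.Rks K x) (σ.PrAt K x x) (σ.chain_at hG) (σ.rmax_le hG) (σ.N g x)
    (fun r hr => σ.PrAt_comm hG r hr) (fun t q => XX g t q x) q (XX_nil g M hM q x) (σ.Jf q x)
    (σ.J_orth q x) ?_ (σ.N_cert g q x hx) p h _ (Finset.mem_image_of_mem _ hi)
  intro r hr
  obtain ⟨i', hi', rfl⟩ := Finset.mem_image.1 hr
  rw [σ.PrAt_eq hG hi']
  exact σ.J_cert q x hx i' (by simpa [cact] using hK hi')

end Str

end Pool.Agent.MP_d8b6c2_an
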