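import Mathlib
import Pool.Agent.Lib.MP_d8b6c2_an.Glue
import Pool.Agent.Lib.MP_d8b6c2_an.Forms1
import Pool.Agent.Lib.MP_d8b6c2_an.Glue1j

/-! # Properties of the closed form `Th` (pointwise and local) -/

namespace Pool.Agent.MP_d8b6c2_an

open Finset Filter Topology
open scoped ContDiff

variable {J : ℕ} {m d : Fin J → ℕ} {n : Type*} [Fintype n] [DecidableEq n] {κ r0 s o S : ℕ}
variable {R 𝔾 : Type*} [NormedCommRing R] [NormedAlgebra ℂ R] [NormedRing 𝔾] [NormedAlgebra ℂ 𝔾]

/-- `TD` only depends on the idempotents with rank in `Rk` and on `Pr 0` -/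
private theorem glue1k_TD_congr (M cap : Fin J → ℕ) (Rk : Finset ℕ) {Pr Pr' : ℕ → Matrix n n ℂ}
    (h : ∀ r ∈ Rk, Pr r = Pr' r) (h0 : Pr 0 = Pr' 0) (N : Matrix n n R)
    (x : Fin J → Pth m → R) (p : Fin κ → Pth m) :
    TD M cap Rk Pr N x p = TD M cap Rk Pr' N x p := by
  have hQ : ∀ l : Ln Rk κ, Ql Rk Pr (l : Fin κ) = Ql Rk Pr' (l : Fin κ) := by
    intro l
    have h1 : Pr (entr Rk ((l : Fin κ) : ℕ)) = Pr' (entr Rk ((l : Fin κ) : ℕ)) :=
      h _ (entr_mem l.2).1
    have h2 : Pr (prv Rk ((l : Fin κ) : ℕ)) = Pr' (prv Rk ((l : Fin κ) : ℕ)) := by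
      rcases prv_mem Rk ((l : Fin κ) : ℕ) with h2 | h2
      · exact h _ h2
      · rw [h2]; exact h0
    unfold Ql
    rw [h1, h2]
  unfold TD cR
  simp only [hQ]

namespace Str

variable (σ : Str m d n κ r0 s o S)

open Classical in
/-- presence data of a labelling -/
private noncomputable def glue1k_data (cap : Fin J → ℕ) (x : Co m d → ℝ) (p : Fin κ → Pth m) :
    Finset (Fin S × Pth m) :=
  univ.filter fun iq => iq.1 ∈ σ.act x ∧ pres cap r0 (σ.Ph iq.1 x).rank p iq.2

open Classical in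
/-- the excluded map of presence data -/
private noncomputable def glue1k_G (x : Co m d → ℝ) (D : Finset (Fin S × Pth m))
    (q : Pth m) (y : Co m d → ℝ) : ℝ :=
  (1 - y cτ) * ((∑ i ∈ σ.act x, if (i, q) ∈ D then σ.φ i y else 0) - 1 / 2 - ng (y (cu q))) +
    y cτ * y (cu q)

/-- the form of presence data -/
private noncomputable def glue1k_H (g : GData (Co m d) R 𝔾) (x : Co m d → ℝ)
    (D : Finset (Fin S × Pth m)) : 𝔾 :=
  ((∏ q, w1 (σ.glue1k_G x D q x) : ℝ) : ℂ) •
    ((univ : Finset (Pth m)).toList.map fun q => d1 g (σ.glue1k_G x D q) x).prod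

private theorem glue1k_phi_deriv {x : Co m d → ℝ} {i : Fin S} (h : σ.φ i x = 0) :
    HasFDerivAt (σ.φ i) (0 : (Co m d → ℝ) →L[ℝ] ℝ) x := by
  have h1 : DifferentiableAt ℝ (σ.φ i) x :=
    ((σ.φ_smooth i).differentiable (by simp)).differentiableAt
  have h2 : IsLocalMin (σ.φ i) x := by
    refine Filter.Eventually.of_forall fun y => ?_
    rw [h]
    exact σ.φ_nonneg i y
  have h3 := h2.fderiv_eq_zero
  have h4 := h1.hasFDerivAt
  rw [h3] at h4
  exact h4

private theorem glue1k_G_diff (x : Co m d → ℝ) (D : Finset (Fin S × Pth m)) (q : Pth m)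
    (z : Co m d → ℝ) : DifferentiableAt ℝ (σ.glue1k_G x D q) z := by
  classical
  have hp : ∀ j : Co m d, DifferentiableAt ℝ (fun y : Co m d → ℝ => y j) z := fun j =>
    differentiableAt_apply j z
  have hng : DifferentiableAt ℝ (fun y : Co m d → ℝ => ng (y (cu q))) z :=
    ((ng_smooth.differentiable (by simp)).differentiableAt).comp z (hp (cu q))
  have hφ : ∀ i : Fin S, DifferentiableAt ℝ (fun y : Co m d → ℝ => σ.φ i y) z := fun i =>
    ((σ.φ_smooth i).differentiable (by simp)).differentiableAt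
  have hsum : DifferentiableAt ℝ
      (fun y : Co m d → ℝ => ∑ i ∈ σ.act x, if (i, q) ∈ D then σ.φ i y else 0) z := by
    refine DifferentiableAt.fun_sum fun i _ => ?_
    by_cases h : (i, q) ∈ D
    · simp only [if_pos h]; exact hφ i
    · simp only [if_neg h]; exact differentiableAt_const _
  unfold glue1k_G
  exact (((differentiableAt_const _).sub (hp cτ)).mul
    ((hsum.sub (differentiableAt_const _)).sub hng)).add ((hp cτ).mul (hp (cu q)))

open Classical in
private theorem glue1k_mem_data (cap : Fin J → ℕ) (x : Co m d → ℝ) (p : Fin κ → Pth m)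
    {i : Fin S} (hi : i ∈ σ.act x) (q : Pth m) :
    (i, q) ∈ σ.glue1k_data cap x p ↔ pres cap r0 (σ.Ph i x).rank p q := by
  unfold glue1k_data
  rw [mem_filter]
  constructor
  · rintro ⟨-, -, h⟩; exact h
  · intro h; exact ⟨mem_univ _, hi, h⟩

private theorem glue1k_GG (cap : Fin J → ℕ) {K : Finset (Fin S)} {x : Co m d → ℝ}
    (hK : σ.act x ⊆ K) (p : Fin κ → Pth m) (q : Pth m) :
    ∃ E : (Co m d → ℝ) → ℝ, HasFDerivAt E (0 : (Co m d → ℝ) →L[ℝ] ℝ) x ∧ E x = 0 ∧
      ∀ y, σ.GG cap K x y p q = σ.glue1k_G x (σ.glue1k_data cap x p) q y + E y := by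
  classical
  set b : (Co m d → ℝ) → ℝ := fun y => ∑ i ∈ K \ σ.act x,
    if pres cap r0 (σ.Ph i x).rank p q then σ.φ i y else 0 with hb
  have hφ0 : ∀ i ∈ K \ σ.act x, σ.φ i x = 0 := by
    intro i hi
    by_contra hne
    exact (Finset.mem_sdiff.1 hi).2 (by unfold act; rw [mem_filter]; exact ⟨mem_univ _, hne⟩)
  have hb0 : b x = 0 := by
    rw [hb]
    refine sum_eq_zero fun i hi => ?_
    split_ifs
    · exact hφ0 i hi
    · rfl
  have hbd : HasFDerivAt b (0 : (Co m d → ℝ) →L[ℝ] ℝ) x := by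
    have h1 : HasFDerivAt b (∑ i ∈ K \ σ.act x, (0 : (Co m d → ℝ) →L[ℝ] ℝ)) x := by
      refine HasFDerivAt.fun_sum fun i hi => ?_
      by_cases h : pres cap r0 (σ.Ph i x).rank p q
      · simp only [if_pos h]
        exact σ.glue1k_phi_deriv (hφ0 i hi)
      · simp only [if_neg h]
        exact hasFDerivAt_const _ _
    rwa [sum_const_zero] at h1
  have ha : HasFDerivAt (fun y : Co m d → ℝ => 1 - y cτ)
      (fderiv ℝ (fun y : Co m d → ℝ => 1 - y cτ) x) x :=
    (((differentiableAt_const _).sub (differentiableAt_apply cτ x))).hasFDerivAt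
  refine ⟨fun y => (1 - y cτ) * b y, ?_, ?_, ?_⟩
  · have h := ha.mul hbd
    rw [hb0, zero_smul, smul_zero, add_zero] at h
    exact h
  · simp only [hb0, mul_zero]
  · intro y
    have h1 : σ.mm cap K x y p q =
        (∑ i ∈ σ.act x, if (i, q) ∈ σ.glue1k_data cap x p then σ.φ i y else 0) + b y := by
      unfold mm
      rw [← sum_sdiff hK, add_comm]
      refine congrArg₂ (· + ·) (sum_congr rfl fun i hi => ?_) (by rw [hb])
      simp only [σ.glue1k_mem_data cap x p hi q]
    unfold GG glue1k_G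
    rw [h1]
    ring

private theorem glue1k_gf (cap : Fin J → ℕ) (g : GData (Co m d) R 𝔾) {K : Finset (Fin S)}
    {x : Co m d → ℝ} (hK : σ.act x ⊆ K) (p : Fin κ → Pth m) :
    σ.gf cap g K x x p = σ.glue1k_H g x (σ.glue1k_data cap x p) := by
  have h1 : ∀ q, σ.GG cap K x x p q = σ.glue1k_G x (σ.glue1k_data cap x p) q x := by
    intro q
    obtain ⟨E, -, hE0, hE⟩ := σ.glue1k_GG cap hK p q
    rw [hE, hE0, add_zero]
  have h2 : ∀ q, d1 g (fun y => σ.GG cap K x y p q) x =
      d1 g (σ.glue1k_G x (σ.glue1k_data cap x p) q) x := by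
    intro q
    obtain ⟨E, hEd, -, hE⟩ := σ.glue1k_GG cap hK p q
    have h3 : fderiv ℝ (fun y => σ.GG cap K x y p q) x =
        fderiv ℝ (σ.glue1k_G x (σ.glue1k_data cap x p) q) x := by
      have h4 : (fun y => σ.GG cap K x y p q) =
          fun y => σ.glue1k_G x (σ.glue1k_data cap x p) q y + E y := funext hE
      rw [h4]
      have h5 := ((σ.glue1k_G_diff x (σ.glue1k_data cap x p) q x).hasFDerivAt.add hEd).fderiv
      rw [add_zero] at h5
      exact h5
    unfold d1 pd
    rw [h3]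
  unfold gf glue1k_H
  simp only [h1, h2]

/-- MARGINALISATION: indices with `φ i x = 0` do not contribute. Group the sum over the canonical
labellings by the presence data `(i, q) ↦ pres cap r0 (rank (Ph i x)) p q`, `i ∈ act x`, and apply
`TD_sum_eq` (the presence data are class invariant by `pres_cls`). -/
theorem ThK_eq (M cap : Fin J → ℕ) (hM : ∀ t, 0 < M t) (g : GData (Co m d) R 𝔾)
    {K : Finset (Fin S)} {x : Co m d → ℝ} (hG : σ.Good g K x) (hK' : σ.act x ⊆ K) :
    σ.ThK M cap g K x x = σ.Th M cap g x := by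
  classical
  have hG' : σ.Good g (σ.act x) x := σ.good_mono hG hK'
  have hsub : σ.Rks (σ.act x) x ⊆ σ.Rks K x := image_subset_image hK'
  have hmem : ∀ i ∈ σ.act x, (σ.Ph i x).rank ∈ σ.Rks (σ.act x) x := fun i hi =>
    mem_image_of_mem _ hi
  have hPr0 : ∀ L : Finset (Fin S), σ.PrAt L x x 0 = 0 := by
    intro L
    unfold PrAt
    rw [dif_neg]
    rintro ⟨h, -⟩
    exact h rfl
  have hTD : ∀ p : Fin κ → Pth m, TD M cap (σ.Rks (σ.act x) x) (σ.PrAt K x x) (σ.N g x)
      (fun t q => XX g t q x) p = TD M cap (σ.Rks (σ.act x) x) (σ.PrAt (σ.act x) x x) (σ.N g x)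
      (fun t q => XX g t q x) p := by
    intro p
    refine glue1k_TD_congr M cap _ ?_ ?_ _ _ p
    · intro r hr
      unfold Rks at hr
      rw [mem_image] at hr
      obtain ⟨i, hi, rfl⟩ := hr
      rw [σ.PrAt_eq hG (hK' hi), σ.PrAt_eq hG' hi]
    · rw [hPr0, hPr0]
  -- grouping
  have key : ∀ D : Finset (Fin S × Pth m),
      ∑ p ∈ univ.filter (fun p : Fin κ → Pth m => IsCan cap (σ.Rks K x) p ∧
          σ.glue1k_data cap x p = D),
        TD M cap (σ.Rks K x) (σ.PrAt K x x) (σ.N g x) (fun t q => XX g t q x) p =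
      ∑ p ∈ univ.filter (fun p : Fin κ → Pth m => IsCan cap (σ.Rks (σ.act x) x) p ∧
          σ.glue1k_data cap x p = D),
        TD M cap (σ.Rks (σ.act x) x) (σ.PrAt (σ.act x) x x) (σ.N g x)
          (fun t q => XX g t q x) p := by
    intro D
    have hdata : ∀ p p' : Fin κ → Pth m,
        (∀ i ∈ σ.act x, ∀ q, pres cap r0 (σ.Ph i x).rank p' q ↔
          pres cap r0 (σ.Ph i x).rank p q) →
        σ.glue1k_data cap x p' = σ.glue1k_data cap x p := by
      intro p p' h
      unfold glue1k_data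
      refine filter_congr fun iq _ => ?_
      constructor
      · rintro ⟨h1, h2⟩; exact ⟨h1, (h _ h1 _).1 h2⟩
      · rintro ⟨h1, h2⟩; exact ⟨h1, (h _ h1 _).2 h2⟩
    have h := TD_sum_eq M cap hM (σ.Rks K x) (σ.Rks (σ.act x) x) hsub (σ.PrAt K x x)
      (σ.chain_at hG) (σ.rmax_le hG) (σ.N g x) (fun r hr => σ.PrAt_comm hG r hr)
      (fun t q => XX g t q x) (fun p => σ.glue1k_data cap x p = D) ?_ ?_ ?_
    · refine (sum_congr ?_ fun _ _ => rfl).trans (h.trans (sum_congr ?_ fun p _ => hTD p))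
      · ext p; simp only [mem_filter]
      · ext p; simp only [mem_filter]
    · intro p p' h
      simp only [hdata p p' fun i hi q => pres_cls cap r0 _ h (hsub (hmem i hi)) q]
    · intro p p' h
      simp only [hdata p p' fun i hi q => pres_cls cap r0 _ h (hmem i hi) q]
    · intro p τ hτ
      simp only [hdata p (fun l => p (τ l)) fun i hi q => pres_perm cap r0 _ p τ hτ (hmem i hi) q]
  have hgroup : ∀ (L : Finset (Fin S)), σ.act x ⊆ L → σ.ThK M cap g L x x =
      ∑ D : Finset (Fin S × Pth m), g.inc (∑ p ∈ univ.filter (fun p : Fin κ → Pth m =>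
        IsCan cap (σ.Rks L x) p ∧ σ.glue1k_data cap x p = D),
        TD M cap (σ.Rks L x) (σ.PrAt L x x) (σ.N g x) (fun t q => XX g t q x) p) *
        σ.glue1k_H g x D := by
    intro L hL
    unfold ThK
    rw [← sum_fiberwise_of_maps_to (s := univ.filter fun p : Fin κ → Pth m =>
      IsCan cap (σ.Rks L x) p) (t := (univ : Finset (Finset (Fin S × Pth m))))
      (g := fun p => σ.glue1k_data cap x p) (fun p _ => mem_univ _)]
    refine sum_congr rfl fun D _ => ?_
    rw [map_sum, sum_mul, filter_filter]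
    refine sum_congr rfl fun p hp => ?_
    rw [mem_filter] at hp
    rw [σ.glue1k_gf cap g hL p, hp.2.2]
  unfold Th
  rw [hgroup K hK', hgroup (σ.act x) (Subset.refl _)]
  exact sum_congr rfl fun D _ => by rw [key D]

end Str

end Pool.Agent.MP_d8b6c2_an
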