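import Mathlib
import Pool.Agent.Lib.MP_d8b6c2_an.Glue
import Pool.Agent.Lib.MP_d8b6c2_an.Forms1
import Pool.Agent.Lib.MP_d8b6c2_an.Glue1k

/-! # Properties of the closed form `Th` (pointwise and local) -/

namespace Pool.Agent.MP_d8b6c2_an

open Finset Filter Topology
open scoped ContDiff

variable {J : ℕ} {m d : Fin J → ℕ} {n : Type*} [Fintype n] [DecidableEq n] {κ r0 s o S : ℕ}
variable {R 𝔾 : Type*} [NormedCommRing R] [NormedAlgebra ℂ R] [NormedRing 𝔾] [NormedAlgebra ℂ 𝔾]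

private theorem glue1l_list {E V β : Type*} [NormedAddCommGroup E] [NormedSpace ℝ E]
    [NormedRing V] [NormedAlgebra ℝ V] {x : E} (f : β → E → V)
    (hf : ∀ b, ContDiffAt ℝ ∞ (f b) x) (L : List β) :
    ContDiffAt ℝ ∞ (fun y => (L.map fun b => f b y).prod) x := by
  induction L with
  | nil => simp only [List.map_nil, List.prod_nil]; exact contDiffAt_const
  | cons b L ih =>
    simp only [List.map_cons, List.prod_cons]
    exact (hf b).mul ih

namespace Str

variable (σ : Str m d n κ r0 s o S)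

open Classical in
private noncomputable def glue1l_pick (P : Fin S → Prop) (r : ℕ) (y : Co m d → ℝ) :
    Matrix n n ℂ :=
  if h : r ≠ 0 ∧ ∃ i, P i then σ.Ph h.2.choose y else 0

private theorem glue1l_PrAt (K : Finset (Fin S)) (x0 y : Co m d → ℝ) (r : ℕ) :
    σ.PrAt K x0 y r = σ.glue1l_pick (fun i => i ∈ K ∧ (σ.Ph i x0).rank = r) r y := by
  unfold PrAt glue1l_pick
  by_cases h : r ≠ 0 ∧ ∃ i ∈ K, (σ.Ph i x0).rank = r
  · rw [dif_pos h, dif_pos h]
  · rw [dif_neg h, dif_neg h]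

/-- near `x0` the form is `ThK` with `K = cact x0` and ranks taken at `x0` -/
theorem Th_near (M cap : Fin J → ℕ) (hM : ∀ t, 0 < M t) (g : GData (Co m d) R 𝔾)
    (x0 : Co m d → ℝ) :
    ∀ᶠ x in 𝓝 x0, σ.Th M cap g x = σ.ThK M cap g (σ.cact x0) x0 x := by
  classical
  filter_upwards [σ.good_near g x0, σ.act_subset_near x0, σ.rank_near x0] with x hG ha hr
  rw [← σ.ThK_eq M cap hM g hG ha]
  have hR : σ.Rks (σ.cact x0) x = σ.Rks (σ.cact x0) x0 := by
    unfold Rks
    exact image_congr fun i hi => hr i hi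
  have hP : σ.PrAt (σ.cact x0) x x = σ.PrAt (σ.cact x0) x0 x := by
    funext r
    rw [glue1l_PrAt, glue1l_PrAt]
    have h : (fun i => i ∈ σ.cact x0 ∧ (σ.Ph i x).rank = r) =
        fun i => i ∈ σ.cact x0 ∧ (σ.Ph i x0).rank = r := by
      funext i
      refine propext ⟨?_, ?_⟩
      · rintro ⟨h1, h2⟩; exact ⟨h1, (hr i h1).symm.trans h2⟩
      · rintro ⟨h1, h2⟩; exact ⟨h1, (hr i h1).trans h2⟩
    rw [h]
  have hmm : ∀ y p q, σ.mm cap (σ.cact x0) x y p q = σ.mm cap (σ.cact x0) x0 y p q := by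
    intro y p q
    unfold mm
    refine sum_congr rfl fun i hi => ?_
    rw [hr i hi]
  have hgf : ∀ p, σ.gf cap g (σ.cact x0) x x p = σ.gf cap g (σ.cact x0) x0 x p := by
    intro p
    unfold gf GG
    simp only [hmm]
  unfold ThK
  rw [hR, hP]
  exact sum_congr rfl fun p _ => by rw [hgf p]

private theorem glue1l_GG (cap : Fin J → ℕ) (K : Finset (Fin S)) (x0 : Co m d → ℝ)
    (p : Fin κ → Pth m) (q : Pth m) (z : Co m d → ℝ) :
    ContDiffAt ℝ ∞ (fun y => σ.GG cap K x0 y p q) z := by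
  classical
  have hp : ∀ j : Co m d, ContDiffAt ℝ ∞ (fun y : Co m d → ℝ => y j) z := fun j =>
    (contDiff_apply ℝ ℝ j).contDiffAt
  have hng : ContDiffAt ℝ ∞ (fun y : Co m d → ℝ => ng (y (cu q))) z :=
    ng_smooth.contDiffAt.comp z (hp (cu q))
  have hsum : ContDiffAt ℝ ∞ (fun y : Co m d → ℝ => σ.mm cap K x0 y p q) z := by
    unfold mm
    refine ContDiffAt.sum fun i _ => ?_
    by_cases h : pres cap r0 (σ.Ph i x0).rank p q
    · simp only [if_pos h]; exact (σ.φ_smooth i).contDiffAt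
    · simp only [if_neg h]; exact contDiffAt_const
  unfold GG
  exact ((contDiffAt_const.sub (hp cτ)).mul
    ((hsum.sub contDiffAt_const).sub hng)).add ((hp cτ).mul (hp (cu q)))

private theorem glue1l_ofReal {f : (Co m d → ℝ) → ℝ} {z : Co m d → ℝ}
    (hf : ContDiffAt ℝ ∞ f z) : ContDiffAt ℝ ∞ (fun y => (f y : ℂ)) z :=
  Complex.ofRealCLM.contDiff.contDiffAt.comp z hf

private theorem glue1l_inc (g : GData (Co m d) R 𝔾) {f : (Co m d → ℝ) → R} {z : Co m d → ℝ}
    (hf : ContDiffAt ℝ ∞ f z) : ContDiffAt ℝ ∞ (fun y => g.inc (f y)) z := by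
  have h : ContDiff ℝ ∞ (fun r : R => g.inc r) := by
    let L : R →L[ℝ] 𝔾 :=
      { toLinearMap := g.inc.toLinearMap.restrictScalars ℝ
        cont := g.inc_cont }
    exact L.contDiff
  exact h.contDiffAt.comp z hf

theorem ThK_smooth (M cap : Fin J → ℕ) (g : GData (Co m d) R 𝔾)
    (x0 : Co m d → ℝ) : ContDiffAt ℝ ∞ (σ.ThK M cap g (σ.cact x0) x0) x0 := by
  classical
  have hGG := σ.glue1l_GG cap (σ.cact x0) x0
  have h1 : ∀ p, ContDiffAt ℝ ∞ (fun x => g.inc (TD M cap (σ.Rks (σ.cact x0) x0)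
      (σ.PrAt (σ.cact x0) x0 x) (σ.N g x) (fun t q => XX g t q x) p)) x0 := fun p =>
    glue1l_inc g (σ.closed_TDx M cap g (Subset.refl (σ.cact x0)) p).1
  have h2 : ∀ p, ContDiffAt ℝ ∞ (fun x => σ.gf cap g (σ.cact x0) x0 x p) x0 := by
    intro p
    unfold gf
    refine ContDiffAt.smul (glue1l_ofReal ?_) (glue1l_list _ (fun q => ?_) _)
    · refine contDiffAt_prod fun q _ => ?_
      exact w1_smooth.contDiffAt.comp x0 (hGG p q x0)
    · unfold d1
      refine ContDiffAt.sum fun j _ => ContDiffAt.smul (glue1l_ofReal ?_) contDiffAt_const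
      exact contDiffAt_pd j (hGG p q x0)
  unfold ThK
  exact ContDiffAt.sum fun p _ => (h1 p).mul (h2 p)

end Str

end Pool.Agent.MP_d8b6c2_an
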