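import Mathlib
import Pool.Agent.Lib.MP_d8b6c2_an.Glue
import Pool.Agent.Lib.MP_d8b6c2_an.Forms1
import Pool.Agent.Lib.MP_d8b6c2_an.Glue1l

/-! # Properties of the closed form `Th` (pointwise and local) -/

namespace Pool.Agent.MP_d8b6c2_an

open Finset Filter Topology
open scoped ContDiff

variable {J : ℕ} {m d : Fin J → ℕ} {n : Type*} [Fintype n] [DecidableEq n] {κ r0 s o S : ℕ}
variable {R 𝔾 : Type*} [NormedCommRing R] [NormedAlgebra ℂ R] [NormedRing 𝔾] [NormedAlgebra ℂ 𝔾]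

section glue1m

variable {ι : Type*} [Fintype ι] [DecidableEq ι] (g : GData ι R 𝔾)

private theorem glue1m_eq_zero {a : 𝔾} (h : a = -a) : a = 0 := by
  have h2 : (2 : ℂ) • a = 0 := by
    rw [two_smul]
    nth_rewrite 2 [h]
    exact add_neg_cancel a
  exact (smul_eq_zero.1 h2).resolve_left two_ne_zero

private theorem glue1m_theta_d1 (f : (ι → ℝ) → ℝ) (x : ι → ℝ) (j : ι) :
    g.θ j * d1 g f x = -(d1 g f x * g.θ j) := by
  unfold d1
  rw [Finset.mul_sum, Finset.sum_mul, ← Finset.sum_neg_distrib]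
  refine Finset.sum_congr rfl fun k _ => ?_
  rw [mul_smul_comm, smul_mul_assoc, g.anti j k, smul_neg]

private theorem glue1m_d1_d1 (f h : (ι → ℝ) → ℝ) (x : ι → ℝ) :
    d1 g f x * d1 g h x = -(d1 g h x * d1 g f x) := by
  conv_lhs => rw [d1]
  conv_rhs => rw [d1.eq_1 (f := f)]
  rw [Finset.mul_sum, Finset.sum_mul, ← Finset.sum_neg_distrib]
  refine Finset.sum_congr rfl fun k _ => ?_
  rw [mul_smul_comm, smul_mul_assoc, glue1m_theta_d1, smul_neg]

private theorem glue1m_d1_sq (f : (ι → ℝ) → ℝ) (x : ι → ℝ) : d1 g f x * d1 g f x = 0 :=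
  glue1m_eq_zero (glue1m_d1_d1 g f f x)

private theorem glue1m_mem {α : Type*} (f : α → (ι → ℝ) → ℝ) (x : ι → ℝ) (q : α) (l : List α)
    (h : q ∈ l) : d1 g (f q) x * (l.map fun q => d1 g (f q) x).prod = 0 := by
  induction l with
  | nil => simp at h
  | cons a l ih =>
    rw [List.map_cons, List.prod_cons]
    rcases List.mem_cons.1 h with rfl | h
    · rw [← mul_assoc, glue1m_d1_sq, zero_mul]
    · rw [← mul_assoc, glue1m_d1_d1, neg_mul, mul_assoc, ih h, mul_zero, neg_zero]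

private theorem glue1m_contDiffAt_d1 {f : (ι → ℝ) → ℝ} {x : ι → ℝ} (hf : ContDiffAt ℝ ∞ f x) :
    ContDiffAt ℝ ∞ (fun y => d1 g f y) x := by
  unfold d1
  refine ContDiffAt.sum fun j _ => ?_
  have h1 : ContDiffAt ℝ ∞ (fun y => ((pd j f y : ℝ) : ℂ)) x :=
    Complex.ofRealCLM.contDiff.contDiffAt.comp x (contDiffAt_pd j hf)
  exact h1.smul contDiffAt_const

private theorem glue1m_pd_d1 {f : (ι → ℝ) → ℝ} {x : ι → ℝ} (hf : ContDiffAt ℝ ∞ f x) (j : ι) :
    pd j (fun y => d1 g f y) x = ∑ k, ((pd j (pd k f) x : ℝ) : ℂ) • g.θ k := by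
  have h1 : ∀ k, HasFDerivAt (fun y => ((pd k f y : ℝ) : ℂ) • g.θ k)
      ((Complex.ofRealCLM.comp (fderiv ℝ (pd k f) x)).smulRight (g.θ k)) x := by
    intro k
    have h2 : HasFDerivAt (pd k f) (fderiv ℝ (pd k f) x) x :=
      ((contDiffAt_pd k hf).differentiableAt (by simp)).hasFDerivAt
    have h3 : HasFDerivAt (fun y => ((pd k f y : ℝ) : ℂ))
        (Complex.ofRealCLM.comp (fderiv ℝ (pd k f) x)) x :=
      Complex.ofRealCLM.hasFDerivAt.comp x h2
    exact h3.smul_const (g.θ k)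
  have h2 := HasFDerivAt.fun_sum (u := (univ : Finset ι)) fun k _ => h1 k
  unfold pd d1
  rw [h2.fderiv]
  simp
  rfl

private theorem glue1m_dF_d1 {f : (ι → ℝ) → ℝ} {x : ι → ℝ} (hf : ContDiffAt ℝ ∞ f x) :
    dF g (fun y => d1 g f y) x = 0 := by
  apply glue1m_eq_zero
  have h1 : dF g (fun y => d1 g f y) x =
      ∑ j, ∑ k, ((pd j (pd k f) x : ℝ) : ℂ) • (g.θ j * g.θ k) := by
    unfold dF
    refine Finset.sum_congr rfl fun j _ => ?_
    rw [glue1m_pd_d1 g hf, Finset.mul_sum]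
    refine Finset.sum_congr rfl fun k _ => ?_
    rw [mul_smul_comm]
  rw [h1]
  nth_rewrite 1 [Finset.sum_comm]
  rw [← Finset.sum_neg_distrib]
  refine Finset.sum_congr rfl fun j _ => ?_
  rw [← Finset.sum_neg_distrib]
  refine Finset.sum_congr rfl fun k _ => ?_
  rw [pd_comm k j hf, g.anti k j, smul_neg]

private theorem glue1m_prod {α : Type*} (f : α → (ι → ℝ) → ℝ) {x : ι → ℝ}
    (hf : ∀ q, ContDiffAt ℝ ∞ (f q) x) (l : List α) :
    ContDiffAt ℝ ∞ (fun y => (l.map fun q => d1 g (f q) y).prod) x ∧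
      dF g (fun y => (l.map fun q => d1 g (f q) y).prod) x = 0 := by
  induction l with
  | nil =>
    refine ⟨by simpa using contDiffAt_const, ?_⟩
    simp [dF, pd]
  | cons a l ih =>
    simp only [List.map_cons, List.prod_cons]
    have hc := glue1m_contDiffAt_d1 g (hf a)
    refine ⟨hc.mul ih.1, ?_⟩
    have hd : dF g (fun y => d1 g (f a) y * (l.map fun q => d1 g (f q) y).prod) x =
        dF g (fun y => d1 g (f a) y) x * (l.map fun q => d1 g (f q) x).prod -
        d1 g (f a) x * dF g (fun y => (l.map fun q => d1 g (f q) y).prod) x := by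
      unfold dF
      rw [Finset.sum_mul, Finset.mul_sum, ← Finset.sum_sub_distrib]
      refine Finset.sum_congr rfl fun j _ => ?_
      rw [pd_mul j (hc.differentiableAt (by simp)) (ih.1.differentiableAt (by simp)),
        mul_add, ← mul_assoc, ← mul_assoc, glue1m_theta_d1, neg_mul, sub_eq_add_neg, mul_assoc
          (d1 g (f a) x)]
    rw [hd, glue1m_dF_d1 g (hf a), ih.2, zero_mul, mul_zero, sub_zero]

private theorem glue1m_dF_smul {s : (ι → ℝ) → ℝ} {P : (ι → ℝ) → 𝔾} {x : ι → ℝ}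
    (hs : DifferentiableAt ℝ s x) (hP : DifferentiableAt ℝ P x) :
    dF g (fun y => ((s y : ℝ) : ℂ) • P y) x = d1 g s x * P x + ((s x : ℝ) : ℂ) • dF g P x := by
  have h1 : ∀ j, pd j (fun y => ((s y : ℝ) : ℂ) • P y) x =
      ((pd j s x : ℝ) : ℂ) • P x + ((s x : ℝ) : ℂ) • pd j P x := by
    intro j
    have h3 : HasFDerivAt (fun y => ((s y : ℝ) : ℂ))
        (Complex.ofRealCLM.comp (fderiv ℝ s x)) x :=
      Complex.ofRealCLM.hasFDerivAt.comp x hs.hasFDerivAt
    have h4 := h3.fun_smul hP.hasFDerivAt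
    unfold pd
    rw [h4.fderiv]
    simp
    rw [add_comm]
  unfold dF d1
  rw [Finset.sum_mul, Finset.smul_sum, ← Finset.sum_add_distrib]
  refine Finset.sum_congr rfl fun j _ => ?_
  rw [h1, mul_add, mul_smul_comm, mul_smul_comm, smul_mul_assoc]

private theorem glue1m_d1_prod {α : Type*} [Fintype α] [DecidableEq α] {w : ℝ → ℝ}
    (hw : Differentiable ℝ w) (f : α → (ι → ℝ) → ℝ) {x : ι → ℝ}
    (hf : ∀ q, ContDiffAt ℝ ∞ (f q) x) :
    DifferentiableAt ℝ (fun y => ∏ q, w (f q y)) x ∧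
    ∃ c : α → ℝ, d1 g (fun y => ∏ q, w (f q y)) x = ∑ q, ((c q : ℝ) : ℂ) • d1 g (f q) x := by
  have h0 : ∀ q, HasFDerivAt (fun y => w (f q y)) (deriv w (f q x) • fderiv ℝ (f q) x) x := by
    intro q
    exact (hw (f q x)).hasDerivAt.comp_hasFDerivAt x
      ((hf q).differentiableAt (by simp)).hasFDerivAt
  have h1 := HasFDerivAt.finsetProd (u := (univ : Finset α)) fun q _ => h0 q
  refine ⟨h1.differentiableAt, fun q => (∏ j ∈ univ.erase q, w (f j x)) * deriv w (f q x), ?_⟩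
  have h2 : ∀ j, pd j (fun y => ∏ q, w (f q y)) x =
      ∑ q, ((∏ j ∈ univ.erase q, w (f j x)) * deriv w (f q x)) * pd j (f q) x := by
    intro j
    unfold pd
    rw [h1.fderiv]
    simp [mul_assoc]
  unfold d1
  simp_rw [h2, Finset.smul_sum]
  rw [Finset.sum_comm]
  refine Finset.sum_congr rfl fun j _ => ?_
  push_cast
  rw [Finset.sum_smul]
  refine Finset.sum_congr rfl fun q _ => ?_
  rw [smul_smul]

private theorem glue1m_dF_gf {α : Type*} [Fintype α] [DecidableEq α] {w : ℝ → ℝ}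
    (hw : Differentiable ℝ w) (f : α → (ι → ℝ) → ℝ) {x : ι → ℝ}
    (hf : ∀ q, ContDiffAt ℝ ∞ (f q) x) :
    DifferentiableAt ℝ (fun y => ((∏ q, w (f q y) : ℝ) : ℂ) •
      ((univ : Finset α).toList.map fun q => d1 g (f q) y).prod) x ∧
    dF g (fun y => ((∏ q, w (f q y) : ℝ) : ℂ) •
      ((univ : Finset α).toList.map fun q => d1 g (f q) y).prod) x = 0 := by
  obtain ⟨h1, c, hc⟩ := glue1m_d1_prod g hw f hf
  obtain ⟨h2, h3⟩ := glue1m_prod g f hf (univ : Finset α).toList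
  have h2' := h2.differentiableAt (by simp)
  refine ⟨?_, ?_⟩
  · have h4 : DifferentiableAt ℝ (fun y => ((∏ q, w (f q y) : ℝ) : ℂ)) x :=
      Complex.ofRealCLM.differentiableAt.comp x h1
    exact h4.fun_smul h2'
  · rw [glue1m_dF_smul g h1 h2', h3, smul_zero, add_zero, hc, Finset.sum_mul]
    refine Finset.sum_eq_zero fun q _ => ?_
    rw [smul_mul_assoc, glue1m_mem g f x q _ (by simp), smul_zero]

private theorem glue1m_pd_inc {T : (ι → ℝ) → R} {x : ι → ℝ} (hT : DifferentiableAt ℝ T x)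
    (j : ι) : DifferentiableAt ℝ (fun y => g.inc (T y)) x ∧
      pd j (fun y => g.inc (T y)) x = g.inc (pd j T x) := by
  let L : R →L[ℝ] 𝔾 := ⟨g.inc.toLinearMap.restrictScalars ℝ, g.inc_cont⟩
  have h1 : HasFDerivAt (fun y => g.inc (T y)) (L.comp (fderiv ℝ T x)) x :=
    L.hasFDerivAt.comp x hT.hasFDerivAt
  refine ⟨h1.differentiableAt, ?_⟩
  unfold pd
  rw [h1.fderiv]
  rfl

private theorem glue1m_dF_inc_mul {T : (ι → ℝ) → R} {F : (ι → ℝ) → 𝔾} {x : ι → ℝ}
    (hT : Closed g T x) (hF : DifferentiableAt ℝ F x) (hF0 : dF g F x = 0) :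
    DifferentiableAt ℝ (fun y => g.inc (T y) * F y) x ∧
      dF g (fun y => g.inc (T y) * F y) x = 0 := by
  have hTd := hT.1.differentiableAt (by simp : (∞ : WithTop ℕ∞) ≠ 0)
  by_cases hι : Nonempty ι
  · obtain ⟨j0⟩ := hι
    refine ⟨(glue1m_pd_inc g hTd j0).1.fun_mul hF, ?_⟩
    have h1 : dF g (fun y => g.inc (T y) * F y) x =
        (∑ j, g.θ j * g.inc (pd j T x)) * F x + g.inc (T x) * dF g F x := by
      unfold dF
      rw [Finset.sum_mul, Finset.mul_sum, ← Finset.sum_add_distrib]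
      refine Finset.sum_congr rfl fun j _ => ?_
      rw [pd_mul j (glue1m_pd_inc g hTd j).1 hF, (glue1m_pd_inc g hTd j).2, mul_add,
        ← mul_assoc, ← mul_assoc, ← g.comm (T x) (g.θ j), mul_assoc (g.inc (T x))]
    rw [h1, hT.2, hF0, zero_mul, mul_zero, add_zero]
  · have : IsEmpty ι := not_nonempty_iff.1 hι
    refine ⟨?_, by simp [dF]⟩
    exact ((hasFDerivAt_of_subsingleton (𝕜 := ℝ) _ x).differentiableAt)

private theorem glue1m_dF_sum {α : Type*} (A : Finset α) (F : α → (ι → ℝ) → 𝔾) {x : ι → ℝ}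
    (hF : ∀ p ∈ A, DifferentiableAt ℝ (F p) x) (hF0 : ∀ p ∈ A, dF g (F p) x = 0) :
    dF g (fun y => ∑ p ∈ A, F p y) x = 0 := by
  have h1 : ∀ j, pd j (fun y => ∑ p ∈ A, F p y) x = ∑ p ∈ A, pd j (F p) x := by
    intro j
    have h2 := HasFDerivAt.fun_sum (u := A) fun p hp => (hF p hp).hasFDerivAt
    unfold pd
    rw [h2.fderiv]
    simp
  unfold dF at hF0 ⊢
  simp_rw [h1, Finset.mul_sum]
  rw [Finset.sum_comm]
  exact Finset.sum_eq_zero hF0

private theorem glue1m_dF_congr {F G : (ι → ℝ) → 𝔾} {x : ι → ℝ} (h : F =ᶠ[𝓝 x] G) :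
    dF g F x = dF g G x := by
  unfold dF pd
  rw [h.fderiv_eq]

end glue1m

private theorem glue1m_contDiff_st (a : ℝ → ℝ) (ha : ContDiff ℝ ∞ a) :
    ContDiff ℝ ∞ (fun y => Real.smoothTransition (a y)) :=
  Real.smoothTransition.contDiff.comp ha

private theorem glue1m_w1 : ContDiff ℝ ∞ w1 := by
  unfold w1
  refine glue1m_contDiff_st _ ?_
  fun_prop

private theorem glue1m_ng : ContDiff ℝ ∞ ng := by
  unfold ng
  refine glue1m_contDiff_st _ ?_
  fun_prop

namespace Str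

variable (σ : Str m d n κ r0 s o S)

private theorem glue1m_GG (cap : Fin J → ℕ) (K : Finset (Fin S)) (x0 : Co m d → ℝ)
    (p : Fin κ → Pth m) (q : Pth m) : ContDiff ℝ ∞ (fun x => σ.GG cap K x0 x p q) := by
  unfold GG mm
  have h1 : ContDiff ℝ ∞ fun x : Co m d → ℝ => x cτ := contDiff_apply ℝ ℝ _
  have h2 : ContDiff ℝ ∞ fun x : Co m d → ℝ => x (cu q) := contDiff_apply ℝ ℝ _
  have h3 : ContDiff ℝ ∞ fun x : Co m d → ℝ => ng (x (cu q)) := glue1m_ng.comp h2
  have h4 : ContDiff ℝ ∞ fun x : Co m d → ℝ =>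
      ∑ i ∈ K, if pres cap r0 (σ.Ph i x0).rank p q then σ.φ i x else 0 := by
    refine ContDiff.sum fun i _ => ?_
    split_ifs
    · exact σ.φ_smooth i
    · exact contDiff_const
  exact ((contDiff_const.sub h1).mul ((h4.sub contDiff_const).sub h3)).add (h1.mul h2)

theorem ThK_closed (M cap : Fin J → ℕ) (g : GData (Co m d) R 𝔾)
    (x0 : Co m d → ℝ) : dF g (σ.ThK M cap g (σ.cact x0) x0) x0 = 0 := by
  have h1 : ∀ p : Fin κ → Pth m, _ := fun p =>
    glue1m_dF_gf g (glue1m_w1.differentiable (by simp))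
      (fun q y => σ.GG cap (σ.cact x0) x0 y p q) (x := x0)
      (fun q => (glue1m_GG σ cap (σ.cact x0) x0 p q).contDiffAt)
  have h2 : ∀ p : Fin κ → Pth m, _ := fun p =>
    glue1m_dF_inc_mul g (σ.closed_TDx M cap g (Finset.Subset.refl (σ.cact x0)) p)
      (h1 p).1 (h1 p).2
  exact glue1m_dF_sum g _ _ (fun p _ => (h2 p).1) (fun p _ => (h2 p).2)

theorem Th_smooth (M cap : Fin J → ℕ) (hM : ∀ t, 0 < M t) (g : GData (Co m d) R 𝔾) :
    ContDiff ℝ ∞ (σ.Th M cap g) := by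
  rw [contDiff_iff_contDiffAt]
  intro x0
  exact (σ.ThK_smooth M cap g x0).congr_of_eventuallyEq (σ.Th_near M cap hM g x0)

theorem Th_closed (M cap : Fin J → ℕ) (hM : ∀ t, 0 < M t) (g : GData (Co m d) R 𝔾)
    (x : Co m d → ℝ) : dF g (σ.Th M cap g) x = 0 := by
  rw [glue1m_dF_congr g (σ.Th_near M cap hM g x)]
  exact σ.ThK_closed M cap g x

end Str

end Pool.Agent.MP_d8b6c2_an
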