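import Mathlib
import Pool.Agent.Lib.MP_d8b6c2_an.Glue
import Pool.Agent.Lib.MP_d8b6c2_an.Forms1
import Pool.Agent.Lib.MP_d8b6c2_an.Glue1m

/-! # Properties of the closed form `Th` (pointwise and local) -/

namespace Pool.Agent.MP_d8b6c2_an

open Finset Filter Topology
open scoped ContDiff

variable {J : ℕ} {m d : Fin J → ℕ} {n : Type*} [Fintype n] [DecidableEq n] {κ r0 s o S : ℕ}
variable {R 𝔾 : Type*} [NormedCommRing R] [NormedAlgebra ℂ R] [NormedRing 𝔾] [NormedAlgebra ℂ 𝔾]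

namespace Str

variable (σ : Str m d n κ r0 s o S)

theorem mm_mem (cap : Fin J → ℕ) (K : Finset (Fin S)) (x0 x : Co m d → ℝ)
    (p : Fin κ → Pth m) (q : Pth m) : 0 ≤ σ.mm cap K x0 x p q ∧ σ.mm cap K x0 x p q ≤ 1 := by
  unfold mm
  refine ⟨Finset.sum_nonneg fun i _ => ?_, ?_⟩
  · split_ifs
    · exact σ.φ_nonneg i x
    · exact le_rfl
  · calc (∑ i ∈ K, if pres cap r0 (σ.Ph i x0).rank p q then σ.φ i x else 0)
        ≤ ∑ i ∈ K, σ.φ i x := by
          refine Finset.sum_le_sum fun i _ => ?_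
          split_ifs
          · exact le_rfl
          · exact σ.φ_nonneg i x
      _ ≤ ∑ i, σ.φ i x :=
          Finset.sum_le_sum_of_subset_of_nonneg (Finset.subset_univ K)
            fun i _ _ => σ.φ_nonneg i x
      _ = 1 := σ.φ_sum x

private theorem glue1n_sum_act (x : Co m d → ℝ) : ∑ i ∈ σ.act x, σ.φ i x = 1 := by
  classical
  rw [← σ.φ_sum x]
  unfold act
  rw [Finset.sum_filter]
  refine Finset.sum_congr rfl fun i _ => ?_
  split_ifs with h
  · rfl
  · exact (not_not.1 h).symm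

private theorem glue1n_gf (cap : Fin J → ℕ) (g : GData (Co m d) R 𝔾) (K : Finset (Fin S))
    (x0 x : Co m d → ℝ) (p : Fin κ → Pth m) (q : Pth m)
    (h : w1 (σ.GG cap K x0 x p q) = 0) : σ.gf cap g K x0 x p = 0 := by
  unfold gf
  rw [Finset.prod_eq_zero (Finset.mem_univ q) h, Complex.ofReal_zero, zero_smul]

/-- support in the `u` coordinates -/
theorem Th_supp (M cap : Fin J → ℕ) (hM : ∀ t, ∑ u ∈ univ.filter (t < ·), d u < M t)
    (g : GData (Co m d) R 𝔾) (x : Co m d → ℝ) (hτ : 0 ≤ x cτ) (hτ' : x cτ ≤ 1)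
    (q : Pth m) (hx : 3 / 4 < x (cu q) ∨ x (cu q) ≤ -1) : σ.Th M cap g x = 0 := by
  unfold Th ThK
  refine Finset.sum_eq_zero fun p _ => ?_
  rcases hx with hx | hx
  · by_cases h : σ.TDx M cap g (σ.act x) x p = 0
    · have h' : TD M cap (σ.Rks (σ.act x) x) (σ.PrAt (σ.act x) x x) (σ.N g x)
          (fun t q => XX g t q x) p = 0 := h
      rw [h', map_zero, zero_mul]
    · have hp : ∀ i ∈ σ.act x, pres cap r0 (σ.Ph i x).rank p q := fun i hi =>
        σ.pres_cert M cap hM g (σ.act_subset x) p h q hx i hi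
      have hm : σ.mm cap (σ.act x) x x p q = 1 := by
        unfold mm
        rw [← σ.glue1n_sum_act x]
        exact Finset.sum_congr rfl fun i hi => if_pos (hp i hi)
      rw [σ.glue1n_gf cap g _ x x p q ?_, mul_zero]
      apply w1_eq_zero
      unfold GG
      rw [hm, ng_eq_zero (by linarith)]
      rw [abs_of_nonneg (by nlinarith)]
      nlinarith
  · rw [σ.glue1n_gf cap g _ x x p q ?_, mul_zero]
    apply w1_eq_zero
    have h1 := (σ.mm_mem cap (σ.act x) x x p q).2
    unfold GG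
    rw [ng_eq_one hx]
    have h2 : (1 - x cτ) * (σ.mm cap (σ.act x) x x p q - 1 / 2 - 1) + x cτ * x (cu q) ≤ -(1 / 4) := by
      nlinarith
    rw [abs_of_nonpos (by linarith)]
    linarith

end Str

end Pool.Agent.MP_d8b6c2_an
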