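import Mathlib
import Pool.Agent.Lib.MP_d8b6c2_an.Glue
import Pool.Agent.Lib.MP_d8b6c2_an.Forms1
import Pool.Agent.Lib.MP_d8b6c2_an.Glue1n
import Pool.Agent.Lib.MP_d8b6c2_an.Comb1f

/-! # Properties of the closed form `Th` (pointwise and local) -/

namespace Pool.Agent.MP_d8b6c2_an

open Finset Filter Topology
open scoped ContDiff

variable {J : ℕ} {m d : Fin J → ℕ} {n : Type*} [Fintype n] [DecidableEq n] {κ r0 s o S : ℕ}
variable {R 𝔾 : Type*} [NormedCommRing R] [NormedAlgebra ℂ R] [NormedRing 𝔾] [NormedAlgebra ℂ 𝔾]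

private theorem glue1o_cnt (p : Fin κ → Pth m) (r : ℕ) (q : Pth m) [DecidableEq (Pth m)] :
    cnt r p J q = ((univ.filter fun l : Fin κ => (l : ℕ) < r).filter fun l => p l = q).card := by
  unfold cnt
  congr 1
  ext l
  simp only [mem_filter, mem_univ, true_and, pre_J]

/-- the lines with index `< r` -/
private theorem glue1o_lines (κ r : ℕ) : (univ.filter fun l : Fin κ => (l : ℕ) < r).card ≤ r := by
  have h1 : ((univ.filter fun l : Fin κ => (l : ℕ) < r).map Fin.valEmbedding) ⊆ range r := by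
    intro a ha
    simp only [Finset.mem_map, mem_filter, mem_univ, true_and, Fin.valEmbedding_apply] at ha
    obtain ⟨l, hl, rfl⟩ := ha
    exact mem_range.mpr hl
  have h2 := card_le_card h1
  rwa [card_map, card_range] at h2

private theorem glue1o_sum (p : Fin κ → Pth m) (r : ℕ) : ∑ q : Pth m, cnt r p J q ≤ r := by
  classical
  have h1 := card_eq_sum_card_fiberwise (f := p)
    (s := univ.filter fun l : Fin κ => (l : ℕ) < r) (t := univ) (fun _ _ => by simp)
  calc ∑ q : Pth m, cnt r p J q = (univ.filter fun l : Fin κ => (l : ℕ) < r).card := by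
        rw [h1]
        exact sum_congr rfl fun q _ => glue1o_cnt p r q
    _ ≤ r := glue1o_lines κ r

/-- number of labels present but not overfull -/
private theorem glue1o_big (p : Fin κ → Pth m) (r r0 : ℕ) (A : Finset (Pth m))
    (hA : ∀ q ∈ A, r0 ≤ cnt r p J q) : A.card * r0 ≤ r := by
  calc A.card * r0 = ∑ q ∈ A, r0 := by rw [sum_const, smul_eq_mul]
    _ ≤ ∑ q ∈ A, cnt r p J q := sum_le_sum hA
    _ ≤ ∑ q : Pth m, cnt r p J q := sum_le_univ_sum_of_nonneg fun _ => Nat.zero_le _
    _ ≤ r := glue1o_sum p r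

/-- new lines between two ranks -/
private theorem glue1o_new (p : Fin κ → Pth m) {r r' : ℕ} (A : Finset (Pth m))
    (hA : ∀ q ∈ A, cnt r p J q < cnt r' p J q) : A.card ≤ r' - r := by
  classical
  have h1 : A ⊆ (univ.filter fun l : Fin κ => r ≤ (l : ℕ) ∧ (l : ℕ) < r').image p := by
    intro q hq
    by_contra hc
    have h2 := hA q hq
    have h3 : cnt r' p J q ≤ cnt r p J q := by
      unfold cnt
      refine card_le_card fun l hl => ?_
      obtain ⟨_, h4, h5⟩ := mem_filter.mp hl
      refine mem_filter.mpr ⟨mem_univ _, ?_, h5⟩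
      by_contra h6
      apply hc
      refine mem_image.mpr ⟨l, mem_filter.mpr ⟨mem_univ _, not_lt.mp h6, h4⟩, ?_⟩
      rwa [pre_J, pre_J] at h5
    omega
  have h2 : (univ.filter fun l : Fin κ => r ≤ (l : ℕ) ∧ (l : ℕ) < r').card ≤ r' - r := by
    have h3 : ((univ.filter fun l : Fin κ => r ≤ (l : ℕ) ∧ (l : ℕ) < r').map
        Fin.valEmbedding) ⊆ Ico r r' := by
      intro a ha
      simp only [Finset.mem_map, mem_filter, mem_univ, true_and, Fin.valEmbedding_apply] at ha
      obtain ⟨l, hl, rfl⟩ := ha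
      exact mem_Ico.mpr hl
    have h4 := card_le_card h3
    rwa [card_map, Nat.card_Ico] at h4
  exact (card_le_card h1).trans (card_image_le.trans h2)

namespace Str

variable (σ : Str m d n κ r0 s o S)

/-- the counting argument: at `τ = 0` the form vanishes -/
theorem Th_zero (M cap : Fin J → ℕ) (hcap : ∀ t, 0 < cap t)
    (ho : ∑ t, (κ : ℝ) * nlv m t / cap t ≤ o)
    (g : GData (Co m d) R 𝔾) (x : Co m d → ℝ) (hτ : x cτ = 0) : σ.Th M cap g x = 0 := by
  classical
  unfold Th ThK
  refine sum_eq_zero fun p _ => ?_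
  suffices hgf : (∏ q, w1 (σ.GG cap (σ.act x) x x p q)) = 0 by
    unfold gf
    rw [hgf, Complex.ofReal_zero, zero_smul, mul_zero]
  by_contra hne
  have hall : ∀ q, w1 (σ.GG cap (σ.act x) x x p q) ≠ 0 := fun q =>
    (prod_ne_zero_iff.mp hne) q (mem_univ q)
  have hG : ∀ q, |σ.mm cap (σ.act x) x x p q - 1 / 2 - ng (x (cu q))| < 1 / 4 := by
    intro q
    by_contra hc
    apply hall q
    apply w1_eq_zero
    have h1 : σ.GG cap (σ.act x) x x p q =
        σ.mm cap (σ.act x) x x p q - 1 / 2 - ng (x (cu q)) := by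
      unfold GG
      rw [hτ]
      ring
    rw [h1]
    exact not_lt.mp hc
  have hgood : σ.Good g (σ.act x) x := σ.good_mono (σ.good_at g x) (σ.act_subset x)
  have hKne := σ.act_nonempty x
  set K := σ.act x with hK
  set i0 := K.min' hKne with hi0
  set i1 := K.max' hKne with hi1
  have hi0K : i0 ∈ K := min'_mem _ _
  have hi1K : i1 ∈ K := max'_mem _ _
  have hsupp : ∀ i ∈ K, x ∈ tsupport (σ.φ i) := by
    intro i hi
    have h1 := σ.act_subset x hi
    simp only [cact, mem_filter, mem_univ, true_and] at h1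
    exact h1
  have hle0 : ∀ i ∈ K, (σ.Ph i0 x).rank ≤ (σ.Ph i x).rank := fun i hi =>
    σ.rank_mono hgood hi0K hi (min'_le _ _ hi)
  have hle1 : ∀ i ∈ K, (σ.Ph i x).rank ≤ (σ.Ph i1 x).rank := fun i hi =>
    σ.rank_mono hgood hi hi1K (le_max' _ _ hi)
  -- every label is present at the largest rank
  have hpres : ∀ q, pres cap r0 (σ.Ph i1 x).rank p q := by
    intro q
    by_contra hc
    have h1 : σ.mm cap K x x p q = 0 := by
      unfold mm
      refine sum_eq_zero fun i hi => ?_
      rw [if_neg fun h => hc (pres_mono cap r0 p (hle1 i hi) h)]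
    have h2 := hG q
    rw [h1, abs_lt] at h2
    have h3 := (ng_mem (x (cu q))).1
    linarith [h2.1]
  -- labels with nonnegative coordinate are not present at the smallest rank
  have hnpres : ∀ q, 0 ≤ x (cu q) → ¬ pres cap r0 (σ.Ph i0 x).rank p q := by
    intro q hq hc
    have h1 : σ.mm cap K x x p q = 1 := by
      unfold mm
      have h2 : ∑ i ∈ K, (if pres cap r0 (σ.Ph i x).rank p q then σ.φ i x else 0) =
          ∑ i ∈ K, σ.φ i x := by
        refine sum_congr rfl fun i hi => ?_
        rw [if_pos (pres_mono cap r0 p (hle0 i hi) hc)]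
      rw [h2, ← σ.φ_sum x]
      refine sum_subset (subset_univ _) fun i _ hi => ?_
      by_contra h3
      apply hi
      rw [hK]
      simp only [act, mem_filter, mem_univ, true_and]
      exact h3
    have h2 := hG q
    rw [h1, ng_eq_zero hq, abs_lt] at h2
    linarith [h2.2]
  -- overfull labels
  set O := univ.filter fun q : Pth m => ∃ t, ovf cap (σ.Ph i1 x).rank p t q with hO
  have hOo : O.card ≤ o := by
    have h1 := (card_ovf_le cap hcap p (σ.Ph i1 x).rank).trans ho
    exact_mod_cast h1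
  have hcnt : ∀ q, q ∉ O → r0 ≤ cnt (σ.Ph i1 x).rank p J q := by
    intro q hq
    rcases hpres q with h1 | h1
    · exact absurd (mem_filter.mpr ⟨mem_univ q, h1⟩ : q ∈ O) hq
    · exact h1
  have hbig : r0 * (Fintype.card (Pth m) - o) ≤ (σ.Ph i1 x).rank := by
    have h1 := glue1o_big p (σ.Ph i1 x).rank r0 (univ \ O) (fun q hq => hcnt q (mem_sdiff.mp hq).2)
    have h2 : Fintype.card (Pth m) - o ≤ (univ \ O).card := by
      rw [card_sdiff_of_subset (subset_univ _), card_univ]
      omega
    calc r0 * (Fintype.card (Pth m) - o) ≤ r0 * (univ \ O).card := Nat.mul_le_mul_left _ h2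
      _ = (univ \ O).card * r0 := mul_comm _ _
      _ ≤ _ := h1
  have hP : o + s < (univ.filter fun p : Pth m => 0 ≤ x (cu p)).card := by
    by_contra hc
    have h1 := σ.rank_R i1 x (hsupp i1 hi1K) (not_lt.mp hc)
    omega
  have hwin := σ.rank_win i0 i1 x (min'_le _ _ hi1K) (hsupp i0 hi0K) (hsupp i1 hi1K)
  have hnew := glue1o_new p (r := (σ.Ph i0 x).rank) (r' := (σ.Ph i1 x).rank)
    ((univ.filter fun p : Pth m => 0 ≤ x (cu p)) \ O) (by
      intro q hq
      obtain ⟨h1, h2⟩ := mem_sdiff.mp hq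
      have h3 := hnpres q (mem_filter.mp h1).2
      have h4 := hcnt q h2
      have h5 : ¬ r0 ≤ cnt (σ.Ph i0 x).rank p J q := fun h => h3 (Or.inr h)
      omega)
  have hcard : (univ.filter fun p : Pth m => 0 ≤ x (cu p)).card ≤
      ((univ.filter fun p : Pth m => 0 ≤ x (cu p)) \ O).card + O.card := by
    have := le_card_sdiff O (univ.filter fun p : Pth m => 0 ≤ x (cu p))
    omega
  omega

end Str

end Pool.Agent.MP_d8b6c2_an
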