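import Mathlib
import Pool.Agent.Lib.MP_d8b6c2_an.Glue
import Pool.Agent.Lib.MP_d8b6c2_an.Forms1
import Pool.Agent.Lib.MP_d8b6c2_an.Glue1o

/-! # Properties of the closed form `Th` (pointwise and local) -/

namespace Pool.Agent.MP_d8b6c2_an

open Finset Filter Topology
open scoped ContDiff

variable {J : ℕ} {m d : Fin J → ℕ} {n : Type*} [Fintype n] [DecidableEq n] {κ r0 s o S : ℕ}
variable {R 𝔾 : Type*} [NormedCommRing R] [NormedAlgebra ℂ R] [NormedRing 𝔾] [NormedAlgebra ℂ 𝔾]

/-- multiplying by `a` kills the multiples of `a` in an ordered product -/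
private theorem glue1p_prod {Q A : Type*} [Ring A] [Algebra ℂ A] (a : A) (haa : a * a = 0)
    (b : Q → A) (hb : ∀ q, a * b q = -(b q * a)) (c : Q → ℂ) (L : List Q) :
    a * (L.map fun q => c q • a + b q).prod = a * (L.map b).prod := by
  induction L with
  | nil => simp
  | cons q L ih =>
    rw [List.map_cons, List.map_cons, List.prod_cons, List.prod_cons, ← mul_assoc, mul_add,
      mul_smul_comm, haa, smul_zero, zero_add, hb q, neg_mul, mul_assoc, ih, ← mul_assoc,
      ← mul_assoc, ← neg_mul, ← hb q]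

/-- the differential of an affine combination at `τ = 1` -/
private theorem glue1p_pd (f : (Co m d → ℝ) → ℝ) (q : Pth m) (x : Co m d → ℝ) (hτ : x cτ = 1)
    (hf : DifferentiableAt ℝ f x) (j : Co m d) :
    pd j (fun y => (1 - y cτ) * f y + y cτ * y (cu q)) x =
      (x (cu q) - f x) * (Pi.single j (1 : ℝ) : Co m d → ℝ) cτ +
        (Pi.single j (1 : ℝ) : Co m d → ℝ) (cu q) := by
  have h1 : HasFDerivAt (fun y : Co m d → ℝ => y cτ)
      (ContinuousLinearMap.proj (R := ℝ) (φ := fun _ : Co m d => ℝ) (cτ : Co m d)) x :=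
    (ContinuousLinearMap.proj (R := ℝ) (φ := fun _ : Co m d => ℝ) (cτ : Co m d)).hasFDerivAt
  have h2 : HasFDerivAt (fun y : Co m d → ℝ => y (cu q))
      (ContinuousLinearMap.proj (R := ℝ) (φ := fun _ : Co m d => ℝ) (cu q : Co m d)) x :=
    (ContinuousLinearMap.proj (R := ℝ) (φ := fun _ : Co m d => ℝ) (cu q : Co m d)).hasFDerivAt
  have h3 := ((h1.const_sub 1).mul hf.hasFDerivAt).add (h1.mul h2)
  have h4 : HasFDerivAt (fun y : Co m d → ℝ => (1 - y cτ) * f y + y cτ * y (cu q)) _ x := h3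
  unfold pd
  rw [HasFDerivAt.fderiv h4]
  simp only [hτ, ContinuousLinearMap.add_apply, ContinuousLinearMap.smul_apply,
    ContinuousLinearMap.neg_apply, ContinuousLinearMap.proj_apply, smul_eq_mul]
  ring

namespace Str

variable (σ : Str m d n κ r0 s o S)

private theorem glue1p_diff (cap : Fin J → ℕ) (K : Finset (Fin S)) (x0 x : Co m d → ℝ)
    (p : Fin κ → Pth m) (q : Pth m) :
    DifferentiableAt ℝ (fun y => σ.mm cap K x0 y p q - 1 / 2 - ng (y (cu q))) x := by
  have h1 : DifferentiableAt ℝ (fun y => σ.mm cap K x0 y p q) x := by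
    unfold mm
    refine DifferentiableAt.fun_sum fun i _ => ?_
    split_ifs
    · exact ((σ.φ_smooth i).differentiable (by simp)).differentiableAt
    · exact differentiableAt_const _
  have h2 : DifferentiableAt ℝ (fun y : Co m d → ℝ => ng (y (cu q))) x := by
    have h3 : DifferentiableAt ℝ ng (x (cu q)) :=
      (ng_smooth.differentiable (by simp)).differentiableAt
    exact h3.comp x (f := fun y : Co m d → ℝ => y (cu q)) (differentiableAt_apply _ _)
  exact (h1.sub_const _).sub h2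

private theorem glue1p_d1 (cap : Fin J → ℕ) (g : GData (Co m d) R 𝔾) (K : Finset (Fin S))
    (x0 x : Co m d → ℝ) (hτ : x cτ = 1) (p : Fin κ → Pth m) (q : Pth m) :
    d1 g (fun y => σ.GG cap K x0 y p q) x =
      ((x (cu q) - (σ.mm cap K x0 x p q - 1 / 2 - ng (x (cu q))) : ℝ) : ℂ) • g.θ cτ +
        g.θ (cu q) := by
  unfold d1 GG
  have h := fun j => glue1p_pd (fun y => σ.mm cap K x0 y p q - 1 / 2 - ng (y (cu q))) q x hτ
    (σ.glue1p_diff cap K x0 x p q) j
  simp only [h]
  push_cast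
  simp only [add_smul, Finset.sum_add_distrib]
  congr 1
  · rw [Finset.sum_eq_single (cτ : Co m d)]
    · simp
    · intro j _ hj
      simp [Ne.symm hj]
    · simp
  · rw [Finset.sum_eq_single (cu q : Co m d)]
    · simp
    · intro j _ hj
      simp [Ne.symm hj]
    · simp

/-- at `τ = 1` the labels do not matter -/
theorem Th_one (M cap : Fin J → ℕ) (hM : ∀ t, 0 < M t) (g : GData (Co m d) R 𝔾)
    (x : Co m d → ℝ) (hτ : x cτ = 1) :
    g.θ cτ * σ.Th M cap g x = g.inc (xtot M cap (fun t q => XX g t q x)) *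
      (((∏ q, w1 (x (cu q)) : ℝ) : ℂ) •
        (g.θ cτ * ((univ : Finset (Pth m)).toList.map fun q => g.θ (cu q)).prod)) := by
  have hG : σ.Good g (σ.act x) x := σ.good_mono (σ.good_at g x) (σ.act_subset x)
  have htot := TD_total M cap hM (σ.Rks (σ.act x) x) (σ.PrAt (σ.act x) x x) (σ.chain_at hG)
    (σ.rmax_le hG) (σ.N g x) (σ.PrAt_comm hG) (fun t q => XX g t q x)
  have hgf : ∀ p : Fin κ → Pth m, g.θ cτ * σ.gf cap g (σ.act x) x x p =
      ((∏ q, w1 (x (cu q)) : ℝ) : ℂ) •
        (g.θ cτ * ((univ : Finset (Pth m)).toList.map fun q => g.θ (cu q)).prod) := by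
    intro p
    unfold gf
    rw [mul_smul_comm]
    have h1 : ∏ q, w1 (σ.GG cap (σ.act x) x x p q) = ∏ q, w1 (x (cu q)) := by
      refine Finset.prod_congr rfl fun q _ => ?_
      unfold GG
      rw [hτ]
      congr 1
      ring
    rw [h1]
    congr 1
    simp only [σ.glue1p_d1 cap g (σ.act x) x x hτ p]
    exact glue1p_prod (g.θ cτ) (theta_sq g cτ) (fun q => g.θ (cu q)) (fun q => g.anti _ _) _ _
  unfold Th ThK
  rw [Finset.mul_sum, ← htot, map_sum, Finset.sum_mul]
  refine Finset.sum_congr rfl fun p _ => ?_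
  rw [← hgf p, ← mul_assoc, ← mul_assoc, g.comm]

end Str

end Pool.Agent.MP_d8b6c2_an
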