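import Mathlib
import Pool.Agent.Lib.MP_d8b6c2_an.Glue
import Pool.Agent.Lib.MP_d8b6c2_an.Forms1
import Pool.Agent.Lib.MP_d8b6c2_an.Glue1p

/-! # Properties of the closed form `Th` (pointwise and local) -/

namespace Pool.Agent.MP_d8b6c2_an

open Finset Filter Topology
open scoped ContDiff

variable {J : ℕ} {m d : Fin J → ℕ} {n : Type*} [Fintype n] [DecidableEq n] {κ r0 s o S : ℕ}
variable {R 𝔾 : Type*} [NormedCommRing R] [NormedAlgebra ℂ R] [NormedRing 𝔾] [NormedAlgebra ℂ 𝔾]

private theorem glue1q_pd {ι V : Type*} [Fintype ι] [DecidableEq ι] [NormedAddCommGroup V]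
    [NormedSpace ℝ V] (j : ι) {F : (ι → ℝ) → V} {e : ι → ℝ} (h : ∀ y, F (y + e) = F y)
    (x : ι → ℝ) : pd j F (x + e) = pd j F x := by
  have h2 : fderiv ℝ F (x + e) = fderiv ℝ F x := by
    rw [← fderiv_comp_add_right e]
    congr 1
    funext y
    exact h y
  unfold pd
  rw [h2]

private theorem glue1q_pdm {ι V n n' : Type*} [Fintype ι] [DecidableEq ι] [NormedAddCommGroup V]
    [NormedSpace ℝ V] (j : ι) {F : (ι → ℝ) → Matrix n n' V} {e : ι → ℝ}
    (h : ∀ y, F (y + e) = F y) (x : ι → ℝ) : pdm j F (x + e) = pdm j F x := by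
  unfold pdm
  congr 1
  funext a b
  exact glue1q_pd j (fun y => by rw [h]) x

private theorem glue1q_aeval_map {A B : Type*} [CommRing A] [CommRing B] (φ : A →+* B)
    (N : Matrix n n A) (f : Polynomial A) :
    (Polynomial.aeval N f).map φ = Polynomial.aeval (N.map φ) (f.map φ) := by
  have h := Polynomial.hom_eval₂ f (algebraMap A (Matrix n n A)) (φ.mapMatrix) N
  have e : (φ.mapMatrix).comp (algebraMap A (Matrix n n A)) =
      (algebraMap B (Matrix n n B)).comp φ := by
    ext a i j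
    simp [Matrix.algebraMap_matrix_apply]
    split_ifs <;> simp
  rw [Polynomial.aeval_def, Polynomial.aeval_def, Polynomial.eval₂_map, ← e]
  exact h

private theorem glue1q_TD_map {A B : Type*} [CommRing A] [Algebra ℂ A] [CommRing B] [Algebra ℂ B]
    (φ : A →ₐ[ℂ] B) (M cap : Fin J → ℕ) (Rk : Finset ℕ) (Pr : ℕ → Matrix n n ℂ)
    (N : Matrix n n A) (x : Fin J → Pth m → A) (p : Fin κ → Pth m) :
    φ (TD M cap Rk Pr N x p) = TD M cap Rk Pr (N.map φ) (fun t q => φ (x t q)) p := by
  unfold TD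
  rw [map_mul, map_mul, AlgHom.commutes]
  congr 2
  · unfold xmon
    rw [map_prod]
    exact prod_congr rfl fun v _ => map_pow _ _ _
  · have h := mixD_map (φ : A →+* B) (fun l : Ln Rk κ => cmat (Ql Rk Pr (l : Fin κ)) *
      Polynomial.aeval N (Apoly M x (ldep cap Rk p l) (p l)))
    refine h.trans ?_
    congr 1
    funext l
    rw [Matrix.map_mul, glue1q_aeval_map, Apoly_map]
    congr 1
    unfold cmat
    ext i j
    simp

private theorem glue1q_TD_mem (T : Subalgebra ℂ R) (M cap : Fin J → ℕ) (Rk : Finset ℕ)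
    (Pr : ℕ → Matrix n n ℂ) (N : Matrix n n R) (x : Fin J → Pth m → R) (p : Fin κ → Pth m)
    (hN : ∀ i j, N i j ∈ T) (hx : ∀ t q, x t q ∈ T) : TD M cap Rk Pr N x p ∈ T := by
  have h := glue1q_TD_map T.val M cap Rk Pr (Matrix.of fun i j => (⟨N i j, hN i j⟩ : T))
    (fun t q => (⟨x t q, hx t q⟩ : T)) p
  have e : TD M cap Rk Pr N x p = T.val (TD M cap Rk Pr (Matrix.of fun i j =>
    (⟨N i j, hN i j⟩ : T)) (fun t q => (⟨x t q, hx t q⟩ : T)) p) := by
    rw [h]
    rfl
  rw [e]
  exact Subtype.property _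

/-- `sin² ϑ` is locally constant off `[0, 1]` -/
private theorem glue1q_cS {r : ℝ} (hr : r < 0 ∨ 1 < r) : cS r = 0 := by
  have h : deriv (fun y => Real.sin (ang y) ^ 2) r = 0 := by
    rcases hr with hr | hr
    · have e : (fun y => Real.sin (ang y) ^ 2) =ᶠ[𝓝 r] fun _ => (0 : ℝ) := by
        filter_upwards [Iio_mem_nhds hr] with y hy
        unfold ang
        rw [Real.smoothTransition.zero_of_nonpos (le_of_lt hy)]
        simp
      rw [e.deriv_eq]
      simp
    · have e : (fun y => Real.sin (ang y) ^ 2) =ᶠ[𝓝 r] fun _ => (1 : ℝ) := by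
        filter_upwards [Ioi_mem_nhds hr] with y hy
        unfold ang
        rw [Real.smoothTransition.one_of_one_le (le_of_lt hy)]
        simp
      rw [e.deriv_eq]
      simp
  unfold cS
  rw [h]
  simp

namespace Str

variable (σ : Str m d n κ r0 s o S)

private theorem glue1q_curv (u : Sg m d) (x : Co m d → ℝ)
    (hx : x (cr u) < 0 ∨ 1 < x (cr u)) (i j : Co m d) (hij : i = cr u ∨ i = ct u ∨ j = cr u ∨ j = ct u) :
    curv σ.A i j x = 0 := by
  have hnear : ∀ᶠ y in 𝓝 x, y (cr u) < 0 ∨ 1 < y (cr u) := by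
    rcases hx with hx | hx
    · have : {y : Co m d → ℝ | y (cr u) < 0} ∈ 𝓝 x :=
        (isOpen_Iio.preimage (continuous_apply (cr u))).mem_nhds hx
      exact mem_of_superset this fun y hy => Or.inl hy
    · have : {y : Co m d → ℝ | 1 < y (cr u)} ∈ 𝓝 x :=
        (isOpen_Ioi.preimage (continuous_apply (cr u))).mem_nhds hx
      exact mem_of_superset this fun y hy => Or.inr hy
  have key : ∀ k : Co m d, (k = cr u ∨ k = ct u) → σ.A k x = 0 ∧ (∀ l, pdm k (σ.A l) x = 0) ∧
      (∀ l, pdm l (σ.A k) x = 0) := by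
    intro k hk
    refine ⟨?_, ?_, ?_⟩
    · rcases hk with rfl | rfl
      · exact (σ.end_A u x hx).1
      · exact (σ.end_A u x hx).2
    · intro l
      rcases hk with rfl | rfl
      · exact (σ.end_dA u x hx l).1
      · exact (σ.end_dA u x hx l).2
    · intro l
      have h0 : ∀ᶠ y in 𝓝 x, σ.A k y = 0 := by
        filter_upwards [hnear] with y hy
        rcases hk with rfl | rfl
        · exact (σ.end_A u y hy).1
        · exact (σ.end_A u y hy).2
      ext a b
      unfold pdm pd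
      simp only [Matrix.of_apply, Matrix.zero_apply]
      have e : (fun y => σ.A k y a b) =ᶠ[𝓝 x] fun _ => (0 : ℂ) := by
        filter_upwards [h0] with y hy
        rw [hy]
        rfl
      rw [e.fderiv_eq]
      simp
  unfold curv
  rcases hij with h | h | h | h
  · obtain ⟨h1, h2, h3⟩ := key i (Or.inl h)
    rw [h1, h2, h3]
    simp
  · obtain ⟨h1, h2, h3⟩ := key i (Or.inr h)
    rw [h1, h2, h3]
    simp
  · obtain ⟨h1, h2, h3⟩ := key j (Or.inl h)
    rw [h1, h2, h3]
    simp
  · obtain ⟨h1, h2, h3⟩ := key j (Or.inr h)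
    rw [h1, h2, h3]
    simp

private theorem glue1q_pdGG (cap : Fin J → ℕ) (K : Finset (Fin S)) (x0 x : Co m d → ℝ)
    (p : Fin κ → Pth m) (q : Pth m) (j : Co m d) (h1 : j ≠ cτ) (h2 : ∀ q, j ≠ cu q)
    (hφ : ∀ i, pd j (σ.φ i) x = 0) : pd j (fun y => σ.GG cap K x0 y p q) x = 0 := by
  have dφ : ∀ i, DifferentiableAt ℝ (σ.φ i) x := fun i =>
    ((σ.φ_smooth i).differentiable (by simp)).differentiableAt
  have dmm : HasFDerivAt (fun y => σ.mm cap K x0 y p q)
      (∑ i ∈ K, if pres cap r0 (σ.Ph i x0).rank p q then fderiv ℝ (σ.φ i) x else 0) x := by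
    unfold mm
    refine HasFDerivAt.fun_sum fun i _ => ?_
    split_ifs
    · exact (dφ i).hasFDerivAt
    · exact hasFDerivAt_const _ _
  have dp : ∀ k : Co m d, HasFDerivAt (fun y : Co m d → ℝ => y k)
      (ContinuousLinearMap.proj k : (Co m d → ℝ) →L[ℝ] ℝ) x := fun k => hasFDerivAt_apply k x
  have dng : HasDerivAt ng (deriv ng (x (cu q))) (x (cu q)) := by
    refine DifferentiableAt.hasDerivAt ?_
    unfold ng
    have h := (Real.smoothTransition.contDiff (n := 1)).comp (contDiff_neg (𝕜 := ℝ) (F := ℝ))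
    exact h.differentiable (by simp) _
  have dng' : HasFDerivAt (fun y : Co m d → ℝ => ng (y (cu q)))
      (deriv ng (x (cu q)) • (ContinuousLinearMap.proj (cu q) : (Co m d → ℝ) →L[ℝ] ℝ)) x :=
    HasDerivAt.comp_hasFDerivAt (h₂ := ng) (f := fun y : Co m d → ℝ => y (cu q)) x dng
      (dp (cu q))
  have hG := ((((hasFDerivAt_const (1:ℝ) x).sub (dp cτ)).mul ((dmm.sub_const (1 / 2)).sub dng')).add
    ((dp cτ).mul (dp (cu q))))
  have e := congrArg (fun L : (Co m d → ℝ) →L[ℝ] ℝ => L (Pi.single j 1)) hG.fderiv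
  refine Eq.trans e ?_
  have s1 : (Pi.single j (1 : ℝ) : Co m d → ℝ) cτ = 0 := by
    rw [Pi.single_apply, if_neg (Ne.symm h1)]
  have s2 : (Pi.single j (1 : ℝ) : Co m d → ℝ) (cu q) = 0 := by
    rw [Pi.single_apply, if_neg (Ne.symm (h2 q))]
  have s3 : (∑ i ∈ K, if pres cap r0 (σ.Ph i x0).rank p q then fderiv ℝ (σ.φ i) x else 0)
      (Pi.single j 1) = 0 := by
    rw [ContinuousLinearMap.sum_apply]
    refine sum_eq_zero fun i _ => ?_
    split_ifs
    · exact hφ i
    · rfl
  simp only [ContinuousLinearMap.add_apply, ContinuousLinearMap.smul_apply,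
    ContinuousLinearMap.sub_apply, ContinuousLinearMap.proj_apply, s1, s2, s3,
    ContinuousLinearMap.zero_apply]
  simp

private theorem glue1q_mem (M cap : Fin J → ℕ) (g : GData (Co m d) R 𝔾) (u : Sg m d)
    (x : Co m d → ℝ) (hx : x (cr u) < 0 ∨ 1 < x (cr u)) :
    σ.Th M cap g x ∈ Algebra.adjoin ℂ (g.θ '' {j | j ≠ cr u ∧ j ≠ ct u}) := by
  set T := Algebra.adjoin ℂ (g.θ '' {j | j ≠ cr u ∧ j ≠ ct u}) with hT
  have hθ : ∀ j : Co m d, j ≠ cr u → j ≠ ct u → g.θ j ∈ T := fun j h1 h2 =>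
    Algebra.subset_adjoin ⟨j, ⟨h1, h2⟩, rfl⟩
  have htt : ∀ i j : Co m d, i ≠ cr u → i ≠ ct u → j ≠ cr u → j ≠ ct u →
      g.tt i j ∈ T.comap g.inc := by
    intro i j h1 h2 h3 h4
    rw [Subalgebra.mem_comap, g.inc_tt]
    exact T.mul_mem (hθ i h1 h2) (hθ j h3 h4)
  have hN : ∀ a b, σ.N g x a b ∈ T.comap g.inc := by
    intro a b
    unfold N curvN
    rw [Matrix.sum_apply]
    refine Subalgebra.sum_mem _ fun i _ => ?_
    rw [Matrix.sum_apply]
    refine Subalgebra.sum_mem _ fun j _ => ?_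
    by_cases hij : i = cr u ∨ i = ct u ∨ j = cr u ∨ j = ct u
    · rw [σ.glue1q_curv u x hx i j hij]
      have : (g.tt i j • (cmat ((1 / 2 : ℂ) • (0 : Matrix n n ℂ)) : Matrix n n R)) a b = 0 := by
        simp [cmat]
      rw [this]
      exact Subalgebra.zero_mem _
    · push Not at hij
      obtain ⟨h1, h2, h3, h4⟩ := hij
      rw [Matrix.smul_apply, smul_eq_mul]
      refine Subalgebra.mul_mem _ (htt i j h1 h2 h3 h4) ?_
      unfold cmat
      rw [Matrix.map_apply]
      exact Subalgebra.algebraMap_mem _ _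
  have hX : ∀ t q, XX g t q x ∈ T.comap g.inc := by
    intro t q
    unfold XX
    refine Subalgebra.sum_mem _ fun v _ => ?_
    by_cases hv : v = u
    · subst hv
      rw [glue1q_cS hx, zero_smul]
      exact Subalgebra.zero_mem _
    · refine Subalgebra.smul_mem _ (htt _ _ ?_ ?_ ?_ ?_) _
      · simpa using hv
      · simp
      · simp
      · simpa using hv
  unfold Th ThK
  refine Subalgebra.sum_mem _ fun p _ => ?_
  refine Subalgebra.mul_mem _ ?_ ?_
  · exact glue1q_TD_mem (T.comap g.inc) M cap _ _ _ _ p hN hX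
  · unfold gf
    refine Subalgebra.smul_mem _ (Subalgebra.list_prod_mem _ ?_) _
    intro y hy
    rw [List.mem_map] at hy
    obtain ⟨q, _, rfl⟩ := hy
    unfold d1
    refine Subalgebra.sum_mem _ fun j _ => ?_
    by_cases hj : j = cr u ∨ j = ct u
    · have h0 : pd j (fun y => σ.GG cap (σ.act x) x y p q) x = 0 := by
        refine σ.glue1q_pdGG cap _ x x p q j ?_ ?_ ?_
        · rcases hj with rfl | rfl <;> simp
        · intro q
          rcases hj with rfl | rfl <;> simp
        · intro i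
          rcases hj with rfl | rfl
          · exact (σ.end_φ u x hx i).1
          · exact (σ.end_φ u x hx i).2
      rw [h0]
      simp
    · push Not at hj
      exact Subalgebra.smul_mem _ (hθ j hj.1 hj.2) _

/-- the ends of the spheres: no `θ (cr u)`, `θ (ct u)` -/
theorem Th_end (M cap : Fin J → ℕ) (g : GData (Co m d) R 𝔾) (u : Sg m d) (x : Co m d → ℝ)
    (hx : x (cr u) < 0 ∨ 1 < x (cr u)) :
    g.top (g.θ (cr u) * σ.Th M cap g x) = 0 ∧ g.top (g.θ (ct u) * σ.Th M cap g x) = 0 := by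
  have hm := σ.glue1q_mem M cap g u x hx
  have hne : (cr u : Co m d) ≠ ct u := by simp
  constructor
  · refine g.top_zero (ct u) _ (Subalgebra.mul_mem _ (Algebra.subset_adjoin ⟨cr u, hne, rfl⟩) ?_)
    exact Algebra.adjoin_mono (Set.image_mono fun j hj => hj.2) hm
  · refine g.top_zero (cr u) _ (Subalgebra.mul_mem _ (Algebra.subset_adjoin ⟨ct u, hne.symm, rfl⟩) ?_)
    exact Algebra.adjoin_mono (Set.image_mono fun j hj => hj.1) hm

theorem Th_per (M cap : Fin J → ℕ) (g : GData (Co m d) R 𝔾) (u : Sg m d) (x : Co m d → ℝ) :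
    σ.Th M cap g (x + ej (ct u)) = σ.Th M cap g x := by
  have hA : ∀ j y, σ.A j (y + ej (ct u)) = σ.A j y := fun j y => σ.per_A u y j
  have hP : ∀ i y, σ.Ph i (y + ej (ct u)) = σ.Ph i y := fun i y => σ.per_Ph u y i
  have hf : ∀ i y, σ.φ i (y + ej (ct u)) = σ.φ i y := fun i y => σ.per_φ u y i
  have hact : σ.act (x + ej (ct u)) = σ.act x := by
    unfold act
    simp only [hf]
  have hN : σ.N g (x + ej (ct u)) = σ.N g x := by
    unfold N curvN curv
    refine sum_congr rfl fun i _ => sum_congr rfl fun j _ => ?_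
    rw [hA, hA, glue1q_pdm i (hA j), glue1q_pdm j (hA i)]
  have hc : ∀ (k : Co m d), k ≠ ct u → ∀ y : Co m d → ℝ, (y + ej (ct u)) k = y k := by
    intro k hk y
    unfold ej
    rw [Pi.add_apply, Pi.single_apply, if_neg hk, add_zero]
  have hX : ∀ t q, XX g t q (x + ej (ct u)) = XX g t q x := by
    intro t q
    unfold XX
    refine sum_congr rfl fun v _ => ?_
    rw [hc (cr v) (by simp) x]
  have hR : ∀ K, σ.Rks K (x + ej (ct u)) = σ.Rks K x := by
    intro K
    unfold Rks
    simp only [hP]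
  have hPr : ∀ K, σ.PrAt K (x + ej (ct u)) (x + ej (ct u)) = σ.PrAt K x x := by
    intro K
    funext r
    unfold PrAt
    simp only [hP]
  have hGG : ∀ K x0 y p q, σ.GG cap K (x0 + ej (ct u)) y p q = σ.GG cap K x0 y p q := by
    intro K x0 y p q
    unfold GG mm
    simp only [hP]
  have hGG' : ∀ K x0 y p q, σ.GG cap K x0 (y + ej (ct u)) p q = σ.GG cap K x0 y p q := by
    intro K x0 y p q
    unfold GG mm
    simp only [hf]
    rw [hc cτ (by simp), hc (cu q) (by simp)]
  have hgf : ∀ K p, σ.gf cap g K (x + ej (ct u)) (x + ej (ct u)) p = σ.gf cap g K x x p := by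
    intro K p
    unfold gf
    congr 1
    · simp only [hGG, hGG']
    · congr 1
      refine List.map_congr_left fun q _ => ?_
      unfold d1
      refine sum_congr rfl fun j _ => ?_
      congr 2
      rw [show (fun y => σ.GG cap K (x + ej (ct u)) y p q) = fun y => σ.GG cap K x y p q from
        funext fun y => hGG K x y p q]
      exact glue1q_pd j (fun y => hGG' K x y p q) x
  unfold Th ThK
  rw [hact, hR, hN, hPr]
  simp only [hX, hgf]

end Str

end Pool.Agent.MP_d8b6c2_an
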