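import Mathlib
import Pool.Agent.Lib.MP_d8b6c2_an.Fld

/-! # Construction of the smooth structure: definitions -/

namespace Pool.Agent.MP_d8b6c2_an

open Finset Filter Topology
open scoped ContDiff

variable {J : ℕ} {m d : Fin J → ℕ} {n : Type*} [Fintype n] [DecidableEq n] {κ r0 s o : ℕ}
  {δ δ2 : ℝ}

/-- thresholds and cut-off functions for a field -/
structure Aux (F : Fld m d n κ r0 s o δ δ2) where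
  al : Fin (s + 1) → ℝ
  be : Fin (s + 1) → ℝ
  f : Fin (s + 1) → (n → n → ℂ) → ℝ
  ψ : Fin (s + 1) → (n → n → ℂ) → ℝ
  ψ' : Fin (s + 1) → (n → n → ℂ) → ℝ
  hab : ∀ i, δ < al i ∧ al i < be i ∧ be i < δ2
  hba : ∀ i i', i < i' → be i' < al i
  f_smooth : ∀ i, ContDiff ℝ ∞ (f i)
  ψ_smooth : ∀ i, ContDiff ℝ ∞ (ψ i)
  ψ'_smooth : ∀ i, ContDiff ℝ ∞ (ψ' i)
  f_nonneg : ∀ i B, 0 ≤ f i B
  ψ_mem : ∀ i B, 0 ≤ ψ i B ∧ ψ i B ≤ 1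
  ψ'_mem : ∀ i B, 0 ≤ ψ' i B ∧ ψ' i B ≤ 1
  f_sum : ∀ x, ∑ i, f i (fun a c => F.b x a c) = 1
  f_ψ : ∀ i, ∀ B ∈ tsupport (f i), ∀ᶠ C in 𝓝 B, ψ i C = 1
  ψ_ψ' : ∀ i, ∀ B ∈ tsupport (ψ i), ∀ᶠ C in 𝓝 B, ψ' i C = 1
  ψ'_gap : ∀ i, ∀ B ∈ tsupport (ψ' i), Gap (al i) (be i) (Matrix.of B)

end Pool.Agent.MP_d8b6c2_an
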