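import Mathlib
import Pool.Agent.Lib.MP_d8b6c2_an.Loc
import Pool.Agent.Lib.MP_d8b6c2_an.Forms1

/-! # Construction of the smooth structure: proofs -/

namespace Pool.Agent.MP_d8b6c2_an

open Finset Filter Topology
open scoped ContDiff

variable {J : ℕ} {m d : Fin J → ℕ} {n : Type*} [Fintype n] [DecidableEq n] {κ r0 s o : ℕ}
  {δ δ2 : ℝ} {F : Fld m d n κ r0 s o δ δ2}

section calculus

variable {ι : Type*} [Fintype ι] [DecidableEq ι]

private theorem loc1a_ne : (∞ : WithTop ℕ∞) ≠ 0 := by simp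

private theorem loc1a_pd_sum {V κ' : Type*} [NormedAddCommGroup V] [NormedSpace ℝ V]
    (j : ι) (s : Finset κ') {F : κ' → (ι → ℝ) → V} {x : ι → ℝ}
    (hF : ∀ k ∈ s, DifferentiableAt ℝ (F k) x) :
    pd j (fun y => ∑ k ∈ s, F k y) x = ∑ k ∈ s, pd j (F k) x := by
  unfold pd
  rw [fderiv_fun_sum hF]
  simp

theorem pdm_mul {n' n'' : Type*} [Fintype n'] (j : ι)
    {B : (ι → ℝ) → Matrix n n' ℂ} {C : (ι → ℝ) → Matrix n' n'' ℂ} {x : ι → ℝ}
    (hB : SmAt B x) (hC : SmAt C x) :
    pdm j (fun y => B y * C y) x = pdm j B x * C x + B x * pdm j C x := by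
  ext a b
  have hd : ∀ k, DifferentiableAt ℝ (fun y => B y a k) x :=
    fun k => (hB a k).differentiableAt loc1a_ne
  have hd' : ∀ k, DifferentiableAt ℝ (fun y => C y k b) x :=
    fun k => (hC k b).differentiableAt loc1a_ne
  have h1 : pdm j (fun y => B y * C y) x a b = pd j (fun y => ∑ k, B y a k * C y k b) x := rfl
  have h2 : (pdm j B x * C x + B x * pdm j C x) a b
      = ∑ k, (pd j (fun y => B y a k) x * C x k b + B x a k * pd j (fun y => C y k b) x) := by
    rw [Finset.sum_add_distrib]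
    rfl
  rw [h1, h2, loc1a_pd_sum (F := fun k y => B y a k * C y k b) j univ
    (fun k _ => (hd k).mul (hd' k))]
  exact Finset.sum_congr rfl fun k _ => pd_mul j (hd k) (hd' k)

theorem smAt_mul {n' n'' : Type*} [Fintype n']
    {B : (ι → ℝ) → Matrix n n' ℂ} {C : (ι → ℝ) → Matrix n' n'' ℂ} {x : ι → ℝ}
    (hB : SmAt B x) (hC : SmAt C x) : SmAt (fun y => B y * C y) x := by
  intro a b
  simp only [Matrix.mul_apply]
  exact ContDiffAt.sum fun k _ => (hB a k).mul (hC k b)

theorem smAt_pdm {n' : Type*} (j : ι) {B : (ι → ℝ) → Matrix n n' ℂ} {x : ι → ℝ}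
    (hB : SmAt B x) : SmAt (pdm j B) x := by
  intro a b
  simp only [pdm, Matrix.of_apply]
  exact contDiffAt_pd j (hB a b)

theorem smAt_smul {n' : Type*} {f : (ι → ℝ) → ℝ} {B : (ι → ℝ) → Matrix n n' ℂ} {x : ι → ℝ}
    (hf : ContDiffAt ℝ ∞ f x) (hB : SmAt B x) : SmAt (fun y => ((f y : ℝ) : ℂ) • B y) x := by
  intro a b
  simp only [Matrix.smul_apply, smul_eq_mul]
  exact (Complex.ofRealCLM.contDiff.contDiffAt.comp x hf).mul (hB a b)

private theorem loc1a_det {n' : Type*} [Fintype n'] [DecidableEq n']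
    {B : (ι → ℝ) → Matrix n' n' ℂ} {x : ι → ℝ} (hB : SmAt B x) :
    ContDiffAt ℝ ∞ (fun y => (B y).det) x := by
  simp only [Matrix.det_apply]
  refine ContDiffAt.sum fun σ _ => ?_
  have h : ContDiffAt ℝ ∞ (fun y => ∏ i, B y (σ i) i) x :=
    contDiffAt_prod fun i _ => hB (σ i) i
  have h2 : (fun y => Equiv.Perm.sign σ • ∏ i, B y (σ i) i)
      = fun y => ((Equiv.Perm.sign σ : ℤ) : ℂ) * ∏ i, B y (σ i) i := by
    funext y
    rw [Units.smul_def, zsmul_eq_mul]
  rw [h2]
  exact contDiffAt_const.mul h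

theorem smAt_inv {B : (ι → ℝ) → Matrix n n ℂ} {x : ι → ℝ}
    (hB : SmAt B x) (h : IsUnit (B x)) : SmAt (fun y => (B y)⁻¹) x := by
  intro a b
  have hd : (B x).det ≠ 0 := by
    rw [Matrix.isUnit_iff_isUnit_det] at h
    exact h.ne_zero
  have hdet : ContDiffAt ℝ ∞ (fun y => (B y).det) x := loc1a_det hB
  have hadj : ContDiffAt ℝ ∞ (fun y => (B y).adjugate a b) x := by
    simp only [Matrix.adjugate_apply]
    refine loc1a_det (B := fun y => (B y).updateRow b (Pi.single a 1)) ?_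
    intro c e
    by_cases hc : c = b
    · subst hc
      simp only [Matrix.updateRow_self]
      exact contDiffAt_const
    · have : (fun y => (B y).updateRow b (Pi.single a 1) c e) = fun y => B y c e := by
        funext y
        rw [Matrix.updateRow_ne hc]
      rw [this]
      exact hB c e
  have h3 : (fun y => (B y)⁻¹ a b) = fun y => ((B y).det)⁻¹ * (B y).adjugate a b := by
    funext y
    rw [Matrix.inv_def, Matrix.smul_apply, Ring.inverse_eq_inv', smul_eq_mul]
  rw [h3]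
  exact (hdet.inv hd).mul hadj

theorem smAt_congr {n' : Type*} {B C : (ι → ℝ) → Matrix n n' ℂ} {x : ι → ℝ}
    (hB : SmAt B x) (h : ∀ᶠ y in 𝓝 x, B y = C y) : SmAt C x := by
  intro a b
  refine (hB a b).congr_of_eventuallyEq ?_
  filter_upwards [h] with y hy
  rw [hy]

end calculus

end Pool.Agent.MP_d8b6c2_an
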