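import Mathlib
import Pool.Agent.Lib.MP_d8b6c2_an.Loc
import Pool.Agent.Lib.MP_d8b6c2_an.Forms1
import Pool.Agent.Lib.MP_d8b6c2_an.Loc1a

/-! # Construction of the smooth structure: proofs -/

namespace Pool.Agent.MP_d8b6c2_an

open Finset Filter Topology
open scoped ContDiff

variable {J : ℕ} {m d : Fin J → ℕ} {n : Type*} [Fintype n] [DecidableEq n] {κ r0 s o : ℕ}
  {δ δ2 : ℝ} {F : Fld m d n κ r0 s o δ δ2}

section calculus

variable {ι : Type*} [Fintype ι] [DecidableEq ι]

private theorem loc1b_pdm_congr {n1 n2 : Type*} (j : ι) {B C : (ι → ℝ) → Matrix n1 n2 ℂ}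
    {x : ι → ℝ} (h : ∀ᶠ y in 𝓝 x, B y = C y) : pdm j B x = pdm j C x := by
  ext a b
  have h1 : (fun y => B y a b) =ᶠ[𝓝 x] fun y => C y a b := by
    filter_upwards [h] with y hy
    rw [hy]
  change fderiv ℝ (fun y => B y a b) x (Pi.single j 1)
    = fderiv ℝ (fun y => C y a b) x (Pi.single j 1)
  rw [h1.fderiv_eq]

private theorem loc1b_covd_congr {A : ι → (ι → ℝ) → Matrix n n ℂ} (j : ι)
    {B C : (ι → ℝ) → Matrix n n ℂ}
    {x : ι → ℝ} (h : ∀ᶠ y in 𝓝 x, B y = C y) : covd A j B x = covd A j C x := by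
  unfold covd
  rw [loc1b_pdm_congr j h, h.self_of_nhds]

/-- Leibniz rule for the covariant derivative -/
theorem covd_mul {A : ι → (ι → ℝ) → Matrix n n ℂ} (j : ι) {B C : (ι → ℝ) → Matrix n n ℂ}
    {x : ι → ℝ} (hB : SmAt B x) (hC : SmAt C x) :
    covd A j (fun y => B y * C y) x = covd A j B x * C x + B x * covd A j C x := by
  unfold covd
  rw [pdm_mul j hB hC]
  noncomm_ring

/-- one correction step at a point where the cut-off is `1`: the idempotent becomes parallel -/
theorem covd_step {A A' : ι → (ι → ℝ) → Matrix n n ℂ} {P : (ι → ℝ) → Matrix n n ℂ} {x : ι → ℝ}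
    (hP : SmAt P x) (hi : ∀ᶠ y in 𝓝 x, P y * P y = P y) (j : ι)
    (hA : A' j x = A j x + (2 • P x - 1) * covd A j P x) : covd A' j P x = 0 := by
  have hx : P x * P x = P x := hi.self_of_nhds
  have h1 : covd A j P x * P x + P x * covd A j P x = covd A j P x := by
    rw [← covd_mul j hP hP]
    exact loc1b_covd_congr j hi
  have h0 : covd A' j P x = covd A j P x + ((A' j x - A j x) * P x - P x * (A' j x - A j x)) := by
    unfold covd
    noncomm_ring
  have h2 : A' j x - A j x = (2 • P x - 1) * covd A j P x := by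
    rw [hA]; abel
  rw [h0, h2]
  generalize covd A j P x = D at *
  generalize P x = p at *
  have h3 : p * D * p = 0 := by
    have e : p * D * p = p * D * p + p * D * p := by
      calc p * D * p = p * (D * p + p * D) * p := by rw [h1]
        _ = p * D * (p * p) + (p * p) * D * p := by noncomm_ring
        _ = p * D * p + p * D * p := by rw [hx]
    exact left_eq_add.mp e
  have h4 : p * (2 • p - 1) = p := by
    rw [mul_sub, mul_smul_comm, hx, mul_one, two_smul]
    abel
  calc D + ((2 • p - 1) * D * p - p * ((2 • p - 1) * D))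
      = D + ((2 • (p * D * p) - D * p) - (p * (2 • p - 1)) * D) := by noncomm_ring
    _ = D - (D * p + p * D) := by rw [h3, h4]; simp; abel
    _ = 0 := by rw [h1]; simp

/-- one correction step keeps smaller parallel idempotents parallel -/
theorem covd_step' {A A' : ι → (ι → ℝ) → Matrix n n ℂ} {P Q : (ι → ℝ) → Matrix n n ℂ}
    {x : ι → ℝ} (hP : SmAt P x) (hQ : SmAt Q x)
    (hn : ∀ᶠ y in 𝓝 x, Q y * P y = Q y ∧ P y * Q y = Q y) (j : ι) (c : ℂ)
    (hQ0 : covd A j Q x = 0)
    (hA : A' j x = A j x + c • ((2 • P x - 1) * covd A j P x)) : covd A' j Q x = 0 := by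
  have hx := hn.self_of_nhds
  have h1 : Q x * covd A j P x = 0 := by
    have e : covd A j Q x * P x + Q x * covd A j P x = covd A j Q x := by
      rw [← covd_mul j hQ hP]
      exact loc1b_covd_congr j (hn.mono fun y hy => hy.1)
    simpa [hQ0] using e
  have h2 : covd A j P x * Q x = 0 := by
    have e : covd A j P x * Q x + P x * covd A j Q x = covd A j Q x := by
      rw [← covd_mul j hP hQ]
      exact loc1b_covd_congr j (hn.mono fun y hy => hy.2)
    simpa [hQ0] using e
  have h0 : covd A' j Q x = covd A j Q x + ((A' j x - A j x) * Q x - Q x * (A' j x - A j x)) := by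
    unfold covd
    noncomm_ring
  have h3 : A' j x - A j x = c • ((2 • P x - 1) * covd A j P x) := by
    rw [hA]; abel
  rw [h0, h3, hQ0]
  generalize covd A j P x = D at *
  generalize P x = p at *
  generalize Q x = q at *
  have h4 : q * (2 • p - 1) = q := by
    rw [mul_sub, mul_smul_comm, hx.1, mul_one, two_smul]
    abel
  have h5 : c • ((2 • p - 1) * D) * q = 0 := by
    rw [smul_mul_assoc, mul_assoc, h2, mul_zero, smul_zero]
  have h6 : q * c • ((2 • p - 1) * D) = 0 := by
    rw [mul_smul_comm, ← mul_assoc, h4, h1, smul_zero]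
  rw [h5, h6]
  simp

/-- one correction step keeps the frames parallel -/
theorem frame_step {A A' : ι → (ι → ℝ) → Matrix n n ℂ} {P : (ι → ℝ) → Matrix n n ℂ}
    {Jf : (ι → ℝ) → Matrix n (Fin r0) ℂ} {a : ℂ} {x : ι → ℝ} (hP : SmAt P x) (hJ : SmAt Jf x)
    (hn : ∀ᶠ y in 𝓝 x, P y * Jf y = Jf y) (j : ι) (c : ℂ)
    (h0 : pdm j Jf x + A j x * Jf x = a • Jf x)
    (hA : A' j x = A j x + c • ((2 • P x - 1) * covd A j P x)) :
    pdm j Jf x + A' j x * Jf x = a • Jf x := by
  have hx : P x * Jf x = Jf x := hn.self_of_nhds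
  have h1 : pdm j P x * Jf x + P x * pdm j Jf x = pdm j Jf x := by
    rw [← pdm_mul j hP hJ]
    exact loc1b_pdm_congr j hn
  have h2 : covd A j P x * Jf x = 0 := by
    have e : covd A j P x * Jf x = (pdm j Jf x + A j x * Jf x)
        - P x * (pdm j Jf x + A j x * Jf x) := by
      have e1 : pdm j P x * Jf x = pdm j Jf x - P x * pdm j Jf x := eq_sub_of_add_eq h1
      unfold covd
      rw [Matrix.add_mul, e1, Matrix.sub_mul, Matrix.mul_assoc (A j x), hx, Matrix.mul_add,
        Matrix.mul_assoc]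
      abel
    rw [e, h0, Matrix.mul_smul, hx, sub_self]
  rw [hA, Matrix.add_mul, Matrix.smul_mul, Matrix.mul_assoc, h2, Matrix.mul_zero, smul_zero,
    add_zero, h0]

end calculus

end Pool.Agent.MP_d8b6c2_an
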