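import Mathlib
import Pool.Agent.Lib.MP_d8b6c2_an.Loc
import Pool.Agent.Lib.MP_d8b6c2_an.Forms1
import Pool.Agent.Lib.MP_d8b6c2_an.Loc1b

/-! # Construction of the smooth structure: proofs -/

namespace Pool.Agent.MP_d8b6c2_an

open Finset Filter Topology
open scoped ContDiff

variable {J : ℕ} {m d : Fin J → ℕ} {n : Type*} [Fintype n] [DecidableEq n] {κ r0 s o : ℕ}
  {δ δ2 : ℝ} {F : Fld m d n κ r0 s o δ δ2}

private theorem loc1c_bf (F : Fld m d n κ r0 s o δ δ2) : ContDiff ℝ ∞ (Aux.bf F) := by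
  refine contDiff_pi.2 fun a => contDiff_pi.2 fun c => ?_
  exact contDiff_iff_contDiffAt.2 fun x => F.b_smooth x a c

private theorem loc1c_tsupport {f : (n → n → ℂ) → ℝ} {x : Co m d → ℝ}
    (h : x ∈ tsupport (fun y => f (Aux.bf F y))) : Aux.bf F x ∈ tsupport f := by
  have h1 : tsupport (fun y => f (Aux.bf F y)) ⊆ Aux.bf F ⁻¹' tsupport f := by
    refine closure_minimal ?_ ((isClosed_tsupport f).preimage (loc1c_bf F).continuous)
    intro y hy
    exact subset_tsupport f hy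
  exact h1 h

namespace Aux

variable (X : Aux F)

theorem ph_smooth (i : Fin (s + 1)) : ContDiff ℝ ∞ (X.ph i) :=
  (X.f_smooth i).comp (loc1c_bf F)

theorem ps_smooth (i : Fin (s + 1)) : ContDiff ℝ ∞ (X.ps i) :=
  (X.ψ_smooth i).comp (loc1c_bf F)

theorem ps'_smooth (i : Fin (s + 1)) : ContDiff ℝ ∞ (X.ps' i) :=
  (X.ψ'_smooth i).comp (loc1c_bf F)

/-- `ψ_i = 1` near the support of `φ_i` -/
theorem ps_eq_one (i : Fin (s + 1)) {x : Co m d → ℝ} (h : x ∈ tsupport (X.ph i)) :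
    ∀ᶠ y in 𝓝 x, X.ps i y = 1 :=
  (loc1c_bf F).continuous.continuousAt.eventually (X.f_ψ i _ (loc1c_tsupport h))

theorem ps'_eq_one (i : Fin (s + 1)) {x : Co m d → ℝ} (h : x ∈ tsupport (X.ps i)) :
    ∀ᶠ y in 𝓝 x, X.ps' i y = 1 :=
  (loc1c_bf F).continuous.continuousAt.eventually (X.ψ_ψ' i _ (loc1c_tsupport h))

theorem gap_of (i : Fin (s + 1)) {x : Co m d → ℝ} (h : x ∈ tsupport (X.ps' i)) :
    ∀ᶠ y in 𝓝 x, Gap (X.al i) (X.be i) (F.b y) := by
  have h1 := X.ψ'_gap i _ (loc1c_tsupport h)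
  have h2 : ∀ᶠ C in 𝓝 (bf F x), Gap (X.al i) (X.be i) (Matrix.of C) :=
    (isOpen_gap (X.al i) (X.be i)).mem_nhds h1
  exact (loc1c_bf F).continuous.continuousAt.eventually h2

theorem P_smooth (i : Fin (s + 1)) {x : Co m d → ℝ} (h : x ∈ tsupport (X.ps' i)) :
    ∀ᶠ y in 𝓝 x, SmAt (X.P i) y := by
  filter_upwards [X.gap_of i h] with y hy
  refine sproj_smooth (X.be i) F.b_herm (F.b_smooth y) ?_
  intro z hz hz'
  exact hy z hz ⟨by rw [hz']; exact (X.hab i).2.1.le, hz'.le⟩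

end Aux

end Pool.Agent.MP_d8b6c2_an
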