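import Mathlib
import Pool.Agent.Lib.MP_d8b6c2_an.Loc
import Pool.Agent.Lib.MP_d8b6c2_an.Forms1
import Pool.Agent.Lib.MP_d8b6c2_an.Loc1c

/-! # Construction of the smooth structure: proofs -/

namespace Pool.Agent.MP_d8b6c2_an

open Finset Filter Topology
open scoped ContDiff

variable {J : ℕ} {m d : Fin J → ℕ} {n : Type*} [Fintype n] [DecidableEq n] {κ r0 s o : ℕ}
  {δ δ2 : ℝ} {F : Fld m d n κ r0 s o δ δ2}

private theorem loc1d_mul (f g : ℝ → ℝ) {B : Matrix n n ℂ} :
    cfc f B * cfc g B = cfc (fun y => f y * g y) B := by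
  symm
  exact cfc_mul f g B (Matrix.finite_real_spectrum.continuousOn f)
    (Matrix.finite_real_spectrum.continuousOn g)

private theorem loc1d_one_sub (f : ℝ → ℝ) {B : Matrix n n ℂ} (hB : B.IsHermitian) :
    1 - cfc f B = cfc (fun y => 1 - f y) B := by
  rw [cfc_sub (fun _ => (1 : ℝ)) f B continuousOn_const
    (Matrix.finite_real_spectrum.continuousOn f), cfc_const_one ℝ B hB.isSelfAdjoint]

omit [DecidableEq n] in
private theorem loc1d_nsq (v : n → ℂ) : ((nsq v : ℝ) : ℂ) = star v ⬝ᵥ v := by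
  unfold nsq
  rw [dotProduct]
  push_cast
  refine Finset.sum_congr rfl fun i _ => ?_
  rw [Pi.star_apply, RCLike.star_def, Complex.conj_mul']

private theorem loc1d_nsq_mul {T : Matrix n n ℂ} (hT : T.IsHermitian) (v : n → ℂ) :
    ((nsq (T.mulVec v) : ℝ) : ℂ) = star v ⬝ᵥ (T * T).mulVec v := by
  rw [loc1d_nsq, Matrix.star_mulVec, hT.eq, Matrix.dotProduct_mulVec, Matrix.dotProduct_mulVec,
    Matrix.vecMul_vecMul]

private theorem loc1d_contr (f : ℝ → ℝ) (hf : ∀ y, |f y| ≤ 1) {B : Matrix n n ℂ}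
    (v : n → ℂ) : nsq ((cfc f B).mulVec v) ≤ nsq v := by
  have h1 : (cfc f B).IsHermitian := cfc_predicate f B
  have h2 : (cfc (fun y => Real.sqrt (1 - f y ^ 2)) B).IsHermitian := cfc_predicate _ B
  by_cases hB : IsSelfAdjoint B
  · have h3 : cfc f B * cfc f B + cfc (fun y => Real.sqrt (1 - f y ^ 2)) B *
        cfc (fun y => Real.sqrt (1 - f y ^ 2)) B = 1 := by
      rw [loc1d_mul, loc1d_mul, ← cfc_add B (fun y => f y * f y) _
        (Matrix.finite_real_spectrum.continuousOn _) (Matrix.finite_real_spectrum.continuousOn _)]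
      rw [← cfc_const_one ℝ B hB]
      congr 1
      funext y
      have : f y ^ 2 ≤ 1 := by
        rw [← sq_abs]
        have := hf y
        have h0 := abs_nonneg (f y)
        nlinarith
      rw [Real.mul_self_sqrt (by linarith)]
      ring
    have h4 : ((nsq v : ℝ) : ℂ) = ((nsq ((cfc f B).mulVec v) : ℝ) : ℂ) +
        ((nsq ((cfc (fun y => Real.sqrt (1 - f y ^ 2)) B).mulVec v) : ℝ) : ℂ) := by
      rw [loc1d_nsq_mul h1, loc1d_nsq_mul h2, ← dotProduct_add, ← Matrix.add_mulVec, h3,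
        Matrix.one_mulVec, loc1d_nsq]
    have h5 : nsq v = nsq ((cfc f B).mulVec v) +
        nsq ((cfc (fun y => Real.sqrt (1 - f y ^ 2)) B).mulVec v) := by exact_mod_cast h4
    rw [h5]
    have : 0 ≤ nsq ((cfc (fun y => Real.sqrt (1 - f y ^ 2)) B).mulVec v) :=
      Finset.sum_nonneg fun i _ => by positivity
    linarith
  · rw [cfc_apply_of_not_predicate B hB, Matrix.zero_mulVec]
    have : 0 ≤ nsq v := Finset.sum_nonneg fun i _ => by positivity
    have h0 : nsq (0 : n → ℂ) = 0 := by simp [nsq]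
    rw [h0]; exact this

namespace Aux

variable (X : Aux F)

private noncomputable def loc1d_QT (T : Finset (Fin (s + 1))) (x : Co m d → ℝ) : Matrix n n ℂ :=
  cfc (fun y : ℝ => ∏ i ∈ T, (1 - X.ps' i x * (if X.be i < y then 0 else 1))) (F.b x)

private theorem loc1d_fac (i : Fin (s + 1)) (x : Co m d → ℝ) :
    cfc (fun y : ℝ => 1 - X.ps' i x * (if X.be i < y then 0 else 1)) (F.b x) =
      1 - ((X.ps' i x : ℝ) : ℂ) • (1 - X.P i x) := by
  unfold P sproj
  rw [loc1d_one_sub _ (F.b_herm x)]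
  rw [← loc1d_one_sub _ (F.b_herm x)]
  congr 1
  have h : ((X.ps' i x : ℝ) : ℂ) • cfc (fun y : ℝ => 1 - (if X.be i < y then (1 : ℝ) else 0))
      (F.b x) = (X.ps' i x : ℝ) • cfc (fun y : ℝ => 1 - (if X.be i < y then (1 : ℝ) else 0))
      (F.b x) := by
    ext a c
    simp
  rw [h, ← cfc_smul (X.ps' i x) _ (F.b x) (Matrix.finite_real_spectrum.continuousOn _)]
  congr 1
  funext y
  split_ifs <;> simp

omit [Fintype n] in
private theorem loc1d_one (x : Co m d → ℝ) : SmAt (fun _ : Co m d → ℝ => (1 : Matrix n n ℂ)) x :=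
  fun _ _ => contDiffAt_const

private theorem loc1d_QT_smooth (T : Finset (Fin (s + 1))) (x : Co m d → ℝ) :
    SmAt (X.loc1d_QT T) x := by
  classical
  induction T using Finset.induction_on with
  | empty =>
    have : X.loc1d_QT ∅ = fun _ => (1 : Matrix n n ℂ) := by
      funext y
      unfold loc1d_QT
      simp only [Finset.prod_empty]
      exact cfc_const_one ℝ (F.b y) (F.b_herm y).isSelfAdjoint
    rw [this]
    exact loc1d_one x
  | insert i T hi ih =>
    have : X.loc1d_QT (insert i T) = fun y =>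
        (1 - ((X.ps' i y : ℝ) : ℂ) • (1 - X.P i y)) * X.loc1d_QT T y := by
      funext y
      rw [← loc1d_fac]
      unfold loc1d_QT
      rw [loc1d_mul]
      congr 1
      funext z
      rw [Finset.prod_insert hi]
    rw [this]
    refine smAt_mul ?_ ih
    by_cases hx : x ∈ tsupport (X.ps' i)
    · have hP : SmAt (X.P i) x := (X.P_smooth i hx).self_of_nhds
      have h1 : SmAt (fun y => (1 : Matrix n n ℂ) - X.P i y) x := by
        intro a c
        simp only [Matrix.sub_apply]
        exact contDiffAt_const.sub (hP a c)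
      have h2 := smAt_smul (X.ps'_smooth i).contDiffAt h1
      intro a c
      simp only [Matrix.sub_apply]
      exact contDiffAt_const.sub (h2 a c)
    · have h0 : ∀ᶠ y in 𝓝 x, X.ps' i y = 0 := by
        have : (tsupport (X.ps' i))ᶜ ∈ 𝓝 x := (isClosed_tsupport _).isOpen_compl.mem_nhds hx
        filter_upwards [this] with y hy
        by_contra hne
        exact hy (subset_tsupport _ hne)
      refine smAt_congr (loc1d_one x) ?_
      filter_upwards [h0] with y hy
      rw [hy]
      simp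

theorem QQ_smooth (x : Co m d → ℝ) : SmAt X.QQ x :=
  X.loc1d_QT_smooth univ x

/-- `P_i QQ = QQ` where `ψ'_i = 1` -/
theorem P_mul_QQ (i : Fin (s + 1)) {x : Co m d → ℝ} (h : X.ps' i x = 1) :
    X.P i x * X.QQ x = X.QQ x := by
  unfold P QQ sproj
  rw [loc1d_mul]
  congr 1
  funext y
  by_cases hy : X.be i < y
  · rw [if_pos hy, one_mul]
  · rw [if_neg hy, zero_mul]
    symm
    refine Finset.prod_eq_zero (Finset.mem_univ i) ?_
    rw [if_neg hy, h]
    norm_num

/-- `1 - QQ` is a contraction below the projection onto the small eigenvalues -/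
theorem nsq_QQ_le (x : Co m d → ℝ) (v : n → ℂ) :
    nsq ((1 - X.QQ x).mulVec v) ≤ nsq ((1 - sproj δ2 (F.b x)).mulVec v) := by
  have hQ : 1 - X.QQ x = cfc (fun y : ℝ => 1 - ∏ i, (1 - X.ps' i x *
      (if X.be i < y then 0 else 1))) (F.b x) := by
    unfold QQ
    exact loc1d_one_sub _ (F.b_herm x)
  have h1 : 1 - X.QQ x = (1 - X.QQ x) * (1 - sproj δ2 (F.b x)) := by
    have h2 : 1 - sproj δ2 (F.b x) = cfc (fun y : ℝ => 1 - (if δ2 < y then (1 : ℝ) else 0))
        (F.b x) := loc1d_one_sub _ (F.b_herm x)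
    rw [h2, hQ, loc1d_mul]
    congr 1
    funext y
    by_cases hy : δ2 < y
    · have : ∏ i, (1 - X.ps' i x * (if X.be i < y then (0 : ℝ) else 1)) = 1 := by
        refine Finset.prod_eq_one fun i _ => ?_
        rw [if_pos (lt_trans (X.hab i).2.2 hy)]
        ring
      rw [this]
      ring
    · rw [if_neg hy]
      ring
  rw [h1, ← Matrix.mulVec_mulVec, hQ]
  refine loc1d_contr _ ?_ _
  intro y
  have hf : ∀ i, 0 ≤ 1 - X.ps' i x * (if X.be i < y then (0 : ℝ) else 1) ∧
      1 - X.ps' i x * (if X.be i < y then (0 : ℝ) else 1) ≤ 1 := by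
    intro i
    have := X.ψ'_mem i (bf F x)
    change 0 ≤ X.ps' i x ∧ X.ps' i x ≤ 1 at this
    split_ifs
    · norm_num
    · constructor <;> linarith [this.1, this.2]
  have h3 : 0 ≤ ∏ i, (1 - X.ps' i x * (if X.be i < y then (0 : ℝ) else 1)) :=
    Finset.prod_nonneg fun i _ => (hf i).1
  have h4 : ∏ i, (1 - X.ps' i x * (if X.be i < y then (0 : ℝ) else 1)) ≤ 1 :=
    Finset.prod_le_one (fun i _ => (hf i).1) fun i _ => (hf i).2
  rw [abs_le]
  constructor <;> linarith

end Aux

end Pool.Agent.MP_d8b6c2_an
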