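import Mathlib
import Pool.Agent.Lib.MP_d8b6c2_an.Loc
import Pool.Agent.Lib.MP_d8b6c2_an.Forms1
import Pool.Agent.Lib.MP_d8b6c2_an.Loc1d

/-! # Construction of the smooth structure: proofs -/

namespace Pool.Agent.MP_d8b6c2_an

open Finset Filter Topology
open scoped ContDiff

variable {J : ℕ} {m d : Fin J → ℕ} {n : Type*} [Fintype n] [DecidableEq n] {κ r0 s o : ℕ}
  {δ δ2 : ℝ} {F : Fld m d n κ r0 s o δ δ2}

theorem loc1e_dot {n : Type*} [Fintype n] (v : n → ℂ) :
    dotProduct (star v) v = (nsq v : ℂ) := by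
  unfold nsq dotProduct
  push_cast
  refine Finset.sum_congr rfl fun i _ => ?_
  rw [Pi.star_apply, Complex.star_def, ← Complex.normSq_eq_conj_mul_self,
    Complex.normSq_eq_norm_sq]
  push_cast
  rfl

theorem loc1e_nonneg {n : Type*} [Fintype n] (v : n → ℂ) : 0 ≤ nsq v :=
  Finset.sum_nonneg fun _ _ => by positivity

theorem loc1e_eq_zero {n : Type*} [Fintype n] {v : n → ℂ} (h : nsq v = 0) : v = 0 := by
  unfold nsq at h
  rw [Finset.sum_eq_zero_iff_of_nonneg (fun _ _ => by positivity)] at h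
  ext i
  have := h i (Finset.mem_univ i)
  simpa using this

theorem loc1e_adj {n n' : Type*} [Fintype n] [Fintype n'] (M : Matrix n n' ℂ) (a : n' → ℂ)
    (b : n → ℂ) : dotProduct (star (M.mulVec a)) b =
      dotProduct (star a) (M.conjTranspose.mulVec b) := by
  rw [Matrix.star_mulVec, Matrix.dotProduct_mulVec]

theorem loc1e_sum {P : Type*} [Fintype P] [DecidableEq P] {n n' : Type*} [Fintype n] [Fintype n']
    [DecidableEq n'] (Jf : P → Matrix n n' ℂ) (h1 : ∀ p, (Jf p).conjTranspose * Jf p = 1)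
    (h0 : ∀ p q, p ≠ q → (Jf p).conjTranspose * Jf q = 0) (ξ : P → n' → ℂ) (p : P) :
    (Jf p).conjTranspose.mulVec (∑ q, (Jf q).mulVec (ξ q)) = ξ p := by
  rw [Matrix.mulVec_sum, Finset.sum_eq_single p]
  · rw [Matrix.mulVec_mulVec, h1, Matrix.one_mulVec]
  · intro q _ hq
    rw [Matrix.mulVec_mulVec, h0 p q hq.symm, Matrix.zero_mulVec]
  · simp

theorem loc1e_nsq_sum {P : Type*} [Fintype P] [DecidableEq P] {n n' : Type*} [Fintype n]
    [Fintype n'] [DecidableEq n'] (Jf : P → Matrix n n' ℂ)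
    (h1 : ∀ p, (Jf p).conjTranspose * Jf p = 1)
    (h0 : ∀ p q, p ≠ q → (Jf p).conjTranspose * Jf q = 0) (ξ : P → n' → ℂ) :
    nsq (∑ q, (Jf q).mulVec (ξ q)) = ∑ q, nsq (ξ q) := by
  have h : ((nsq (∑ q, (Jf q).mulVec (ξ q)) : ℝ) : ℂ) = ((∑ q, nsq (ξ q) : ℝ) : ℂ) := by
    rw [← loc1e_dot]
    conv_lhs => rw [star_sum, sum_dotProduct]
    push_cast
    refine Finset.sum_congr rfl fun p _ => ?_
    rw [loc1e_adj, loc1e_sum Jf h1 h0, loc1e_dot]
  exact_mod_cast h

theorem loc1e_bessel {P : Type*} [Fintype P] [DecidableEq P] {n n' : Type*} [Fintype n]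
    [Fintype n'] [DecidableEq n'] (Jf : P → Matrix n n' ℂ)
    (h1 : ∀ p, (Jf p).conjTranspose * Jf p = 1)
    (h0 : ∀ p q, p ≠ q → (Jf p).conjTranspose * Jf q = 0) (v : n → ℂ) :
    ∑ q, nsq ((Jf q).conjTranspose.mulVec v) ≤ nsq v := by
  set ξ : P → n' → ℂ := fun q => (Jf q).conjTranspose.mulVec v with hξ
  set w : n → ℂ := ∑ q, (Jf q).mulVec (ξ q) with hw
  have e1 : dotProduct (star w) w = ((∑ q, nsq (ξ q) : ℝ) : ℂ) := by
    rw [loc1e_dot, hw, loc1e_nsq_sum Jf h1 h0]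
  have e2 : dotProduct (star w) v = ((∑ q, nsq (ξ q) : ℝ) : ℂ) := by
    rw [hw, star_sum, sum_dotProduct]
    push_cast
    refine Finset.sum_congr rfl fun p _ => ?_
    rw [loc1e_adj, loc1e_dot]
  have e3 : dotProduct (star v) w = ((∑ q, nsq (ξ q) : ℝ) : ℂ) := by
    rw [Matrix.star_dotProduct, e2]
    simp
  have e4 : (nsq (v - w) : ℂ) = (nsq v : ℂ) - ((∑ q, nsq (ξ q) : ℝ) : ℂ) := by
    rw [← loc1e_dot, ← loc1e_dot, star_sub, sub_dotProduct, dotProduct_sub, dotProduct_sub,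
      e1, e2, e3]
    ring
  have e5 : nsq (v - w) = nsq v - ∑ q, nsq (ξ q) := by exact_mod_cast e4
  have := loc1e_nonneg (v - w)
  linarith

namespace Aux

variable (X : Aux F)

theorem loc1e_W_mulVec (x : Co m d → ℝ) (v : n → ℂ) :
    (X.W x).mulVec v = v - (1 - X.QQ x).mulVec (∑ p, (F.Jf p x).mulVec
      (((chi (x (cu p)) : ℝ) : ℂ) • (F.Jf p x).conjTranspose.mulVec v)) := by
  unfold W PJ
  rw [Matrix.sub_mulVec, Matrix.one_mulVec, ← Matrix.mulVec_mulVec, Matrix.sum_mulVec]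
  have h : ∀ p, (((chi (x (cu p)) : ℝ) : ℂ) • (F.Jf p x * (F.Jf p x).conjTranspose)).mulVec v =
      (F.Jf p x).mulVec
        (((chi (x (cu p)) : ℝ) : ℂ) • (F.Jf p x).conjTranspose.mulVec v) := by
    intro p
    rw [Matrix.smul_mulVec, ← Matrix.mulVec_mulVec, Matrix.mulVec_smul]
  rw [Finset.sum_congr rfl fun p _ => h p]

/-- `W x` is invertible: `4 nsq ((1 - W x) v) ≤ nsq v` by `cert` -/
theorem W_unit (x : Co m d → ℝ) : IsUnit (X.W x) := by
  rw [← Matrix.mulVec_injective_iff_isUnit]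
  have key : ∀ v, (X.W x).mulVec v = 0 → v = 0 := by
    intro v hv
    rw [X.loc1e_W_mulVec, sub_eq_zero] at hv
    set ξ : Pth m → Fin r0 → ℂ := fun p =>
      ((chi (x (cu p)) : ℝ) : ℂ) • (F.Jf p x).conjTranspose.mulVec v with hξ
    have h1 := X.nsq_QQ_le x (∑ p, (F.Jf p x).mulVec (ξ p))
    rw [← hv] at h1
    have h2 := F.cert x ξ (fun p hp => by
      have : chi (x (cu p)) = 0 := Real.smoothTransition.zero_of_nonpos (by linarith)
      simp [hξ, this])
    rw [loc1e_nsq_sum (fun p => F.Jf p x) (fun p => F.J_orth p x)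
      (fun p q hpq => F.J_orth' p q x hpq)] at h2
    have h3 := loc1e_bessel (fun p => F.Jf p x) (fun p => F.J_orth p x)
      (fun p q hpq => F.J_orth' p q x hpq) v
    have h4 : ∑ p, nsq (ξ p) ≤ ∑ p, nsq ((F.Jf p x).conjTranspose.mulVec v) := by
      refine Finset.sum_le_sum fun p _ => ?_
      unfold nsq
      refine Finset.sum_le_sum fun i _ => ?_
      have hc0 : 0 ≤ chi (x (cu p)) := Real.smoothTransition.nonneg _
      have hc1 : chi (x (cu p)) ≤ 1 := Real.smoothTransition.le_one _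
      simp only [hξ, Pi.smul_apply, smul_eq_mul, norm_mul, Complex.norm_real, Real.norm_eq_abs,
        abs_of_nonneg hc0]
      rw [mul_pow]
      have : chi (x (cu p)) ^ 2 ≤ 1 := by nlinarith
      have h5 : 0 ≤ ‖(F.Jf p x).conjTranspose.mulVec v i‖ ^ 2 := by positivity
      nlinarith
    have h5 := loc1e_nonneg v
    exact loc1e_eq_zero (by linarith)
  intro v w hvw
  have := key (v - w) (by rw [Matrix.mulVec_sub]; exact sub_eq_zero.2 hvw)
  exact sub_eq_zero.1 this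

theorem loc1e_chi_smooth (p : Pth m) (x : Co m d → ℝ) :
    ContDiffAt ℝ ∞ (fun y : Co m d → ℝ => chi (y (cu p))) x := by
  unfold chi
  refine (Real.smoothTransition.contDiff.contDiffAt).comp x ?_
  exact ((contDiff_const.mul (contDiff_apply ℝ ℝ (cu p))).sub contDiff_const).contDiffAt

theorem loc1e_PJ_smooth (p : Pth m) (x : Co m d → ℝ) : SmAt (PJ F p) x := by
  intro a b
  unfold PJ
  have h : (fun y => (F.Jf p y * (F.Jf p y).conjTranspose) a b) =
      fun y => ∑ k, F.Jf p y a k * star (F.Jf p y b k) := by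
    funext y
    rw [Matrix.mul_apply]
    rfl
  rw [h]
  refine ContDiffAt.sum fun k _ => ?_
  refine (F.J_smooth p x a k).mul ?_
  exact (Complex.conjCLE.contDiff.contDiffAt).comp x (F.J_smooth p x b k)

theorem W_smooth (x : Co m d → ℝ) : SmAt X.W x := by
  have h1 : SmAt (fun y => 1 - X.QQ y) x := by
    intro a b
    simp only [Matrix.sub_apply]
    exact contDiffAt_const.sub (X.QQ_smooth x a b)
  have h2 : SmAt (fun y => ∑ p, ((chi (y (cu p)) : ℝ) : ℂ) • PJ F p y) x := by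
    intro a b
    have h : (fun y => (∑ p, ((chi (y (cu p)) : ℝ) : ℂ) • PJ F p y) a b) =
        fun y => ∑ p, (((chi (y (cu p)) : ℝ) : ℂ) • PJ F p y) a b := by
      funext y
      rw [Matrix.sum_apply]
    rw [h]
    exact ContDiffAt.sum fun p _ => smAt_smul (loc1e_chi_smooth p x) (loc1e_PJ_smooth p x) a b
  have h3 := smAt_mul h1 h2
  intro a b
  unfold W
  simp only [Matrix.sub_apply]
  exact contDiffAt_const.sub (h3 a b)

end Aux

end Pool.Agent.MP_d8b6c2_an
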