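import Mathlib
import Pool.Agent.Lib.MP_d8b6c2_an.Loc
import Pool.Agent.Lib.MP_d8b6c2_an.Forms1
import Pool.Agent.Lib.MP_d8b6c2_an.Loc1e

/-! # Construction of the smooth structure: proofs -/

namespace Pool.Agent.MP_d8b6c2_an

open Finset Filter Topology
open scoped ContDiff

variable {J : ℕ} {m d : Fin J → ℕ} {n : Type*} [Fintype n] [DecidableEq n] {κ r0 s o : ℕ}
  {δ δ2 : ℝ} {F : Fld m d n κ r0 s o δ δ2}

namespace Aux

variable (X : Aux F)

theorem Ph_smooth (i : Fin (s + 1)) {x : Co m d → ℝ} (h : x ∈ tsupport (X.ps' i)) :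
    ∀ᶠ y in 𝓝 x, SmAt (X.Ph i) y := by
  filter_upwards [X.P_smooth i h] with y hy
  exact smAt_mul (smAt_mul (smAt_inv (X.W_smooth y) (X.W_unit y)) hy) (X.W_smooth y)

private theorem loc1f_det (x : Co m d → ℝ) : IsUnit (X.W x).det :=
  (Matrix.isUnit_iff_isUnit_det _).1 (X.W_unit x)

private theorem loc1f_conj (x : Co m d → ℝ) (A B : Matrix n n ℂ) :
    ((X.W x)⁻¹ * A * X.W x) * ((X.W x)⁻¹ * B * X.W x) = (X.W x)⁻¹ * (A * B) * X.W x := by
  have h1 : X.W x * (X.W x)⁻¹ = 1 := Matrix.mul_nonsing_inv _ (loc1f_det X x)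
  calc ((X.W x)⁻¹ * A * X.W x) * ((X.W x)⁻¹ * B * X.W x)
      = (X.W x)⁻¹ * A * (X.W x * (X.W x)⁻¹) * B * X.W x := by noncomm_ring
    _ = (X.W x)⁻¹ * (A * B) * X.W x := by rw [h1]; noncomm_ring

theorem Ph_idem (i : Fin (s + 1)) (x : Co m d → ℝ) : X.Ph i x * X.Ph i x = X.Ph i x := by
  have h : X.P i x * X.P i x = X.P i x := sproj_idem _ (F.b_herm x)
  simp only [Ph]
  rw [loc1f_conj, h]

theorem Ph_nest {i i' : Fin (s + 1)} (h : i ≤ i') (x : Co m d → ℝ) :
    X.Ph i x * X.Ph i' x = X.Ph i x ∧ X.Ph i' x * X.Ph i x = X.Ph i x := by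
  have hb : X.be i' ≤ X.be i := by
    rcases h.eq_or_lt with rfl | h
    · exact le_rfl
    · exact ((X.hba i i' h).trans (X.hab i).2.1).le
  have h2 : X.P i x * X.P i' x = X.P i x ∧ X.P i' x * X.P i x = X.P i x :=
    sproj_nest hb (F.b_herm x)
  simp only [Ph]
  rw [loc1f_conj, loc1f_conj, h2.1, h2.2]
  exact ⟨rfl, rfl⟩

theorem rank_Ph (i : Fin (s + 1)) (x : Co m d → ℝ) :
    (X.Ph i x).rank = (sproj (X.be i) (F.b x)).rank := by
  have hd := loc1f_det X x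
  have hd' : IsUnit ((X.W x)⁻¹).det := Matrix.isUnit_nonsing_inv_det _ hd
  simp only [Ph]
  rw [Matrix.rank_mul_eq_left_of_isUnit_det _ _ hd, Matrix.rank_mul_eq_right_of_isUnit_det _ _ hd']
  rfl

/-- `Ph i` contains the certified subbundles -/
theorem Ph_mul_J (i : Fin (s + 1)) (p : Pth m) (x : Co m d → ℝ) (hx : 3 / 4 < x (cu p))
    (h : X.ps' i x = 1) : X.Ph i x * F.Jf p x = F.Jf p x := by
  have hchi : chi (x (cu p)) = 1 := Real.smoothTransition.one_of_one_le (by linarith)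
  have hsum : (∑ q, (chi (x (cu q)) : ℂ) • PJ F q x) * F.Jf p x = F.Jf p x := by
    rw [Matrix.sum_mul, Finset.sum_eq_single p]
    · rw [hchi]
      simp only [PJ, Complex.ofReal_one, one_smul]
      rw [Matrix.mul_assoc, F.J_orth, Matrix.mul_one]
    · intro q _ hq
      simp only [PJ]
      rw [Matrix.smul_mul, Matrix.mul_assoc, F.J_orth' q p x hq, Matrix.mul_zero, smul_zero]
    · intro h; exact absurd (mem_univ p) h
  have hW : X.W x * F.Jf p x = X.QQ x * F.Jf p x := by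
    simp only [W]
    rw [Matrix.sub_mul, Matrix.one_mul, Matrix.mul_assoc, hsum, Matrix.sub_mul, Matrix.one_mul]
    abel
  have hd := loc1f_det X x
  simp only [Ph]
  rw [Matrix.mul_assoc, hW, Matrix.mul_assoc, ← Matrix.mul_assoc (X.P i x), X.P_mul_QQ i h, ← hW,
    ← Matrix.mul_assoc, Matrix.nonsing_inv_mul _ hd, Matrix.one_mul]

end Aux

end Pool.Agent.MP_d8b6c2_an
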