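import Mathlib
import Pool.Agent.Lib.MP_d8b6c2_an.Loc
import Pool.Agent.Lib.MP_d8b6c2_an.Forms1
import Pool.Agent.Lib.MP_d8b6c2_an.Loc1f

/-! # Construction of the smooth structure: proofs -/

namespace Pool.Agent.MP_d8b6c2_an

open Finset Filter Topology
open scoped ContDiff

variable {J : ℕ} {m d : Fin J → ℕ} {n : Type*} [Fintype n] [DecidableEq n] {κ r0 s o : ℕ}
  {δ δ2 : ℝ} {F : Fld m d n κ r0 s o δ δ2}

namespace Aux

variable (X : Aux F)

private theorem loc1g_conj {ι n' n'' : Type*} [Fintype ι] {B : (ι → ℝ) → Matrix n' n'' ℂ}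
    {x : ι → ℝ} (hB : SmAt B x) : SmAt (fun y => (B y).conjTranspose) x := by
  intro a b
  have h := hB b a
  have h2 : ContDiffAt ℝ ∞ (fun y => Complex.conjCLE (B y b a)) x :=
    Complex.conjCLE.contDiff.contDiffAt.comp x h
  exact h2

private theorem loc1g_sum {ι n' n'' α : Type*} [Fintype ι] (t : Finset α)
    {B : α → (ι → ℝ) → Matrix n' n'' ℂ}
    {x : ι → ℝ} (hB : ∀ p ∈ t, SmAt (B p) x) : SmAt (fun y => ∑ p ∈ t, B p y) x := by
  intro a b
  have h : (fun y => (∑ p ∈ t, B p y) a b) = fun y => ∑ p ∈ t, B p y a b := by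
    funext y
    rw [Matrix.sum_apply]
  rw [h]
  exact ContDiffAt.sum fun p hp => hB p hp a b

private theorem loc1g_neg {ι n' n'' : Type*} [Fintype ι] {B : (ι → ℝ) → Matrix n' n'' ℂ}
    {x : ι → ℝ} (hB : SmAt B x) : SmAt (fun y => - B y) x := by
  intro a b
  exact (hB a b).neg

private theorem loc1g_PJ (F : Fld m d n κ r0 s o δ δ2) (p : Pth m) (x : Co m d → ℝ) :
    SmAt (PJ F p) x :=
  smAt_mul (F.J_smooth p x) (loc1g_conj (F.J_smooth p x))

private theorem loc1g_chi (p : Pth m) (x : Co m d → ℝ) :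
    ContDiffAt ℝ ∞ (fun y : Co m d → ℝ => chi (y (cu p))) x := by
  unfold chi
  have h : ContDiff ℝ ∞ (fun y : Co m d → ℝ => 4 * y (cu p) - 2) :=
    ContDiff.sub (ContDiff.mul contDiff_const (contDiff_apply ℝ ℝ (cu p))) contDiff_const
  exact (Real.smoothTransition.contDiff.comp h).contDiffAt

theorem A0_smooth (j : Co m d) (x : Co m d → ℝ) : SmAt (A0 F j) x := by
  have h : SmAt (fun y => - ∑ p : Pth m, ((chi (y (cu p)) : ℝ) : ℂ) •
      (pdm j (PJ F p) y * PJ F p y)) x := by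
    refine loc1g_neg (loc1g_sum _ fun p _ => ?_)
    exact smAt_smul (loc1g_chi p x) (smAt_mul (smAt_pdm j (loc1g_PJ F p x)) (loc1g_PJ F p x))
  exact h

theorem A0_frame (p : Pth m) (x : Co m d → ℝ) (hx : 3 / 4 < x (cu p)) (j : Co m d) :
    pdm j (F.Jf p) x + A0 F j x * F.Jf p x = aa p j x • F.Jf p x := by
  have hchi : chi (x (cu p)) = 1 := by
    unfold chi
    apply Real.smoothTransition.one_of_one_le
    linarith
  have hJ := F.J_smooth p x
  have hJc := loc1g_conj hJ
  -- the derivative of `J^* J = 1`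
  have h1 : pdm j (fun y => (F.Jf p y).conjTranspose) x * F.Jf p x +
      (F.Jf p x).conjTranspose * pdm j (F.Jf p) x = 0 := by
    rw [← pdm_mul j hJc hJ]
    have h2 : (fun y => (F.Jf p y).conjTranspose * F.Jf p y) = fun _ => 1 := by
      funext y
      exact F.J_orth p y
    rw [h2]
    ext a b
    simp [pdm, pd]
  have h2 : pdm j (fun y => (F.Jf p y).conjTranspose) x * F.Jf p x =
      - (aa p j x • (1 : Matrix (Fin r0) (Fin r0) ℂ)) := by
    rw [← F.J_aa p j x]
    exact eq_neg_of_add_eq_zero_left h1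
  -- `A0 J`
  have h3 : ∀ p' : Pth m, PJ F p' x * F.Jf p x = if p' = p then F.Jf p x else 0 := by
    intro p'
    unfold PJ
    by_cases hp : p' = p
    · subst hp
      rw [if_pos rfl, Matrix.mul_assoc, F.J_orth, Matrix.mul_one]
    · rw [if_neg hp, Matrix.mul_assoc, F.J_orth' p' p x hp, Matrix.mul_zero]
  have h4 : A0 F j x * F.Jf p x = - (pdm j (PJ F p) x * F.Jf p x) := by
    unfold A0
    rw [Matrix.neg_mul, Matrix.sum_mul]
    congr 1
    rw [Finset.sum_eq_single p]
    · rw [hchi, Matrix.smul_mul, Matrix.mul_assoc, h3, if_pos rfl, Complex.ofReal_one, one_smul]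
    · intro p' _ hp'
      rw [Matrix.smul_mul, Matrix.mul_assoc, h3, if_neg hp', Matrix.mul_zero, smul_zero]
    · intro h
      exact absurd (Finset.mem_univ p) h
  have h5 : pdm j (PJ F p) x = pdm j (F.Jf p) x * (F.Jf p x).conjTranspose +
      F.Jf p x * pdm j (fun y => (F.Jf p y).conjTranspose) x := pdm_mul j hJ hJc
  rw [h4, h5, Matrix.add_mul, Matrix.mul_assoc, F.J_orth, Matrix.mul_one, Matrix.mul_assoc, h2,
    Matrix.mul_neg, Matrix.mul_smul, Matrix.mul_one]
  abel

end Aux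

end Pool.Agent.MP_d8b6c2_an
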