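import Mathlib
import Pool.Agent.Lib.MP_d8b6c2_an.Loc
import Pool.Agent.Lib.MP_d8b6c2_an.Forms1
import Pool.Agent.Lib.MP_d8b6c2_an.Loc1g

/-! # Construction of the smooth structure: proofs -/

namespace Pool.Agent.MP_d8b6c2_an

open Finset Filter Topology
open scoped ContDiff

variable {J : ℕ} {m d : Fin J → ℕ} {n : Type*} [Fintype n] [DecidableEq n] {κ r0 s o : ℕ}
  {δ δ2 : ℝ} {F : Fld m d n κ r0 s o δ δ2}

namespace Aux

variable (X : Aux F)

theorem loc1h_zero (j : Co m d) (x : Co m d → ℝ) : X.Ak 0 j x = A0 F j x := rfl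

theorem loc1h_succ (k : ℕ) (h : k < s + 1) (j : Co m d) (x : Co m d → ℝ) :
    X.Ak (k + 1) j x = X.Ak k j x + ((X.ps ⟨k, h⟩ x : ℝ) : ℂ) •
      ((2 • X.Ph ⟨k, h⟩ x - 1) * covd (X.Ak k) j (X.Ph ⟨k, h⟩) x) := by
  rw [Ak]; simp only [h, dite_true]

theorem loc1h_succ' (k : ℕ) (h : ¬ k < s + 1) (j : Co m d) (x : Co m d → ℝ) :
    X.Ak (k + 1) j x = X.Ak k j x := by
  rw [Ak]; simp only [h, dite_false]

/-- `ψ'_i = 1` near points of the support of `ψ_i`; such points are in the support of `ψ'_i` -/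
theorem loc1h_mem (i : Fin (s + 1)) {x : Co m d → ℝ} (h : x ∈ tsupport (X.ps i)) :
    x ∈ tsupport (X.ps' i) := by
  have h1 := (X.ps'_eq_one i h).self_of_nhds
  apply subset_tsupport
  simp [Function.mem_support, h1]

theorem loc1h_Ph_smooth (i : Fin (s + 1)) {x : Co m d → ℝ} (h : x ∈ tsupport (X.ps i)) :
    ∀ᶠ y in 𝓝 x, SmAt (X.Ph i) y :=
  X.Ph_smooth i (X.loc1h_mem i h)

theorem loc1h_mem_of_ne (i : Fin (s + 1)) {x : Co m d → ℝ} (h : X.ps i x ≠ 0) :
    x ∈ tsupport (X.ps i) := subset_tsupport _ h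

theorem loc1h_add {ι n' n'' : Type*} [Fintype ι] {B C : (ι → ℝ) → Matrix n' n'' ℂ} {x : ι → ℝ}
    (hB : SmAt B x) (hC : SmAt C x) : SmAt (fun y => B y + C y) x := by
  intro a b
  exact (hB a b).add (hC a b)

theorem loc1h_sub {ι n' n'' : Type*} [Fintype ι] {B C : (ι → ℝ) → Matrix n' n'' ℂ} {x : ι → ℝ}
    (hB : SmAt B x) (hC : SmAt C x) : SmAt (fun y => B y - C y) x := by
  intro a b
  exact (hB a b).sub (hC a b)

theorem loc1h_const {ι n' n'' : Type*} [Fintype ι] (M : Matrix n' n'' ℂ) (x : ι → ℝ) :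
    SmAt (fun _ : ι → ℝ => M) x := by
  intro a b
  exact contDiffAt_const

theorem Ak_smooth (k : ℕ) (j : Co m d) (x : Co m d → ℝ) : SmAt (X.Ak k j) x := by
  induction k generalizing j x with
  | zero => exact A0_smooth j x
  | succ k ih =>
    by_cases hk : k < s + 1
    · by_cases hx : x ∈ tsupport (X.ps ⟨k, hk⟩)
      · have hP : SmAt (X.Ph ⟨k, hk⟩) x := (X.loc1h_Ph_smooth _ hx).self_of_nhds
        have hcov : SmAt (covd (X.Ak k) j (X.Ph ⟨k, hk⟩)) x := by
          have h1 : SmAt (fun y => X.Ak k j y * X.Ph ⟨k, hk⟩ y) x := smAt_mul (ih j x) hP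
          have h2 : SmAt (fun y => X.Ph ⟨k, hk⟩ y * X.Ak k j y) x := smAt_mul hP (ih j x)
          exact loc1h_add (smAt_pdm j hP) (loc1h_sub h1 h2)
        have h2P : SmAt (fun y => 2 • X.Ph ⟨k, hk⟩ y - 1) x := by
          have : SmAt (fun y => (X.Ph ⟨k, hk⟩ y + X.Ph ⟨k, hk⟩ y) - 1) x :=
            loc1h_sub (loc1h_add hP hP) (loc1h_const 1 x)
          refine smAt_congr this (Eventually.of_forall fun y => ?_)
          simp only [two_nsmul]
        have hprod : SmAt (fun y => (2 • X.Ph ⟨k, hk⟩ y - 1) *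
            covd (X.Ak k) j (X.Ph ⟨k, hk⟩) y) x := smAt_mul h2P hcov
        have hs : SmAt (fun y => ((X.ps ⟨k, hk⟩ y : ℝ) : ℂ) • ((2 • X.Ph ⟨k, hk⟩ y - 1) *
            covd (X.Ak k) j (X.Ph ⟨k, hk⟩) y)) x :=
          smAt_smul (X.ps_smooth ⟨k, hk⟩).contDiffAt hprod
        refine smAt_congr (loc1h_add (ih j x) hs) (Eventually.of_forall fun y => ?_)
        rw [X.loc1h_succ k hk]
      · have h0 : ∀ᶠ y in 𝓝 x, X.ps ⟨k, hk⟩ y = 0 :=
          notMem_tsupport_iff_eventuallyEq.mp hx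
        refine smAt_congr (ih j x) (h0.mono fun y hy => ?_)
        rw [X.loc1h_succ k hk, hy]
        simp
    · refine smAt_congr (ih j x) (Eventually.of_forall fun y => ?_)
      rw [X.loc1h_succ' k hk]

theorem Ak_frame (k : ℕ) (p : Pth m) (x : Co m d → ℝ) (hx : 3 / 4 < x (cu p)) (j : Co m d) :
    pdm j (F.Jf p) x + X.Ak k j x * F.Jf p x = aa p j x • F.Jf p x := by
  induction k with
  | zero => exact A0_frame p x hx j
  | succ k ih =>
    by_cases hk : k < s + 1
    · by_cases hz : X.ps ⟨k, hk⟩ x = 0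
      · rw [X.loc1h_succ k hk, hz]
        simpa using ih
      · have hm := X.loc1h_mem_of_ne _ hz
        have hP : SmAt (X.Ph ⟨k, hk⟩) x := (X.loc1h_Ph_smooth _ hm).self_of_nhds
        have hopen : ∀ᶠ y : Co m d → ℝ in 𝓝 x, 3 / 4 < y (cu p) :=
          (continuous_apply (cu p)).continuousAt.eventually (lt_mem_nhds hx)
        have hn : ∀ᶠ y in 𝓝 x, X.Ph ⟨k, hk⟩ y * F.Jf p y = F.Jf p y := by
          filter_upwards [hopen, X.ps'_eq_one _ hm] with y hy1 hy2
          exact X.Ph_mul_J _ p y hy1 hy2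
        exact frame_step (A := X.Ak k) (A' := X.Ak (k + 1)) hP (F.J_smooth p x) hn j
          ((X.ps ⟨k, hk⟩ x : ℝ) : ℂ) ih (X.loc1h_succ k hk j x)
    · rw [X.loc1h_succ' k hk]
      exact ih

/-- after the step `k` the idempotents `Ph i`, `i < k`, are parallel where `ψ_i = 1` -/
theorem Ak_cov (k : ℕ) (i : Fin (s + 1)) (hi : (i : ℕ) < k) {x : Co m d → ℝ}
    (h : ∀ᶠ y in 𝓝 x, X.ps i y = 1) : ∀ᶠ y in 𝓝 x, ∀ j, covd (X.Ak k) j (X.Ph i) y = 0 := by
  induction k with
  | zero => omega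
  | succ k ih =>
    by_cases hk : k < s + 1
    · by_cases hik : (i : ℕ) = k
      · have hi' : i = ⟨k, hk⟩ := Fin.ext hik
        subst hi'
        filter_upwards [h] with y hy j
        have hm := X.loc1h_mem_of_ne ⟨k, hk⟩ (x := y) (by rw [hy]; norm_num)
        have hP : SmAt (X.Ph ⟨k, hk⟩) y := (X.loc1h_Ph_smooth _ hm).self_of_nhds
        refine covd_step (A := X.Ak k) (A' := X.Ak (k + 1)) hP
          (Eventually.of_forall fun z => X.Ph_idem _ z) j ?_
        rw [X.loc1h_succ k hk, hy]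
        simp
      · have hlt : (i : ℕ) < k := by omega
        filter_upwards [ih hlt, h] with y hy hy1 j
        by_cases hz : X.ps ⟨k, hk⟩ y = 0
        · have h1 : X.Ak (k + 1) j y = X.Ak k j y := by
            rw [X.loc1h_succ k hk, hz]; simp
          have h2 := hy j
          unfold covd at h2 ⊢
          rw [h1]; exact h2
        · have hm := X.loc1h_mem_of_ne _ hz
          have hP : SmAt (X.Ph ⟨k, hk⟩) y := (X.loc1h_Ph_smooth _ hm).self_of_nhds
          have hmi := X.loc1h_mem_of_ne i (x := y) (by rw [hy1]; norm_num)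
          have hQ : SmAt (X.Ph i) y := (X.loc1h_Ph_smooth _ hmi).self_of_nhds
          have hle : i ≤ ⟨k, hk⟩ := by
            rw [Fin.le_def]; exact hlt.le
          exact covd_step' (A := X.Ak k) (A' := X.Ak (k + 1)) hP hQ
            (Eventually.of_forall fun z => X.Ph_nest hle z) j ((X.ps ⟨k, hk⟩ y : ℝ) : ℂ) (hy j)
            (X.loc1h_succ k hk j y)
    · have hlt : (i : ℕ) < k := by have := i.2; omega
      filter_upwards [ih hlt] with y hy j
      have h1 : X.Ak (k + 1) j y = X.Ak k j y := X.loc1h_succ' k hk j y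
      have h2 := hy j
      unfold covd at h2 ⊢
      rw [h1]; exact h2

end Aux

end Pool.Agent.MP_d8b6c2_an
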