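import Mathlib
import Pool.Agent.Lib.MP_d8b6c2_an.Loc
import Pool.Agent.Lib.MP_d8b6c2_an.Forms1
import Pool.Agent.Lib.MP_d8b6c2_an.Loc1h

/-! # Construction of the smooth structure: proofs -/

namespace Pool.Agent.MP_d8b6c2_an

open Finset Filter Topology
open scoped ContDiff

section dir

variable {ι : Type*} [Fintype ι] [DecidableEq ι]

/-- locally constant in the direction `e` near `x` -/
def LCd {V : Type*} (e : ι) (G : (ι → ℝ) → V) (x : ι → ℝ) : Prop :=
  ∀ᶠ q : (ι → ℝ) × ℝ in 𝓝 (x, 0), G (q.1 + q.2 • Pi.single e 1) = G q.1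

theorem LCd.pd_eq_zero {V : Type*} [NormedAddCommGroup V] [NormedSpace ℝ V] {e : ι}
    {G : (ι → ℝ) → V} {x : ι → ℝ} (h : LCd e G x) : pd e G x = 0 := by
  by_cases hd : DifferentiableAt ℝ G x
  · have h1 : HasDerivAt (fun t : ℝ => G (x + t • Pi.single e 1)) (pd e G x) 0 := by
      have h2 : HasDerivAt (fun t : ℝ => x + t • (Pi.single e 1 : ι → ℝ)) (Pi.single e 1) 0 := by
        simpa using ((hasDerivAt_id (0 : ℝ)).smul_const (Pi.single e 1 : ι → ℝ)).const_add x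
      have h3 : HasFDerivAt G (fderiv ℝ G x) (x + (0 : ℝ) • (Pi.single e 1 : ι → ℝ)) := by
        simpa using hd.hasFDerivAt
      exact h3.comp_hasDerivAt 0 h2
    have h2 : ∀ᶠ t : ℝ in 𝓝 0, G (x + t • Pi.single e 1) = G x := by
      have h4 : Tendsto (fun t : ℝ => (x, t)) (𝓝 0) (𝓝 (x, 0)) :=
        Continuous.tendsto' (by fun_prop) _ _ rfl
      exact h4.eventually h
    have h3 : HasDerivAt (fun t : ℝ => G (x + t • Pi.single e 1)) 0 0 :=
      (hasDerivAt_const 0 (G x)).congr_of_eventuallyEq h2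
    exact h1.unique h3
  · simp [pd, fderiv_zero_of_not_differentiableAt hd]

theorem loc1i_aux {V : Type*} [NormedAddCommGroup V] [NormedSpace ℝ V] {e : ι}
    {G : (ι → ℝ) → V} {q : (ι → ℝ) × ℝ} (j : ι)
    (hq : ∀ᶠ q' : (ι → ℝ) × ℝ in 𝓝 q, G (q'.1 + q'.2 • Pi.single e 1) = G q'.1) :
    pd j G (q.1 + q.2 • Pi.single e 1) = pd j G q.1 := by
  have h1 : (fun y => G (y + q.2 • Pi.single e 1)) =ᶠ[𝓝 q.1] G := by
    have h4 : Tendsto (fun y : ι → ℝ => (y, q.2)) (𝓝 q.1) (𝓝 q) :=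
      Continuous.tendsto' (by fun_prop) _ _ rfl
    exact h4.eventually hq
  have h2 : fderiv ℝ (fun y => G (y + q.2 • Pi.single e 1)) q.1 = fderiv ℝ G q.1 := h1.fderiv_eq
  rw [fderiv_comp_add_right] at h2
  simp only [pd]
  rw [h2]

theorem LCd.pd {V : Type*} [NormedAddCommGroup V] [NormedSpace ℝ V] {e : ι}
    {G : (ι → ℝ) → V} {x : ι → ℝ} (j : ι) (h : LCd e G x) : LCd e (pd j G) x := by
  unfold LCd at *
  filter_upwards [h.eventually_nhds] with q hq
  exact loc1i_aux j hq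

theorem LCd.pdm {n n' : Type*} {e : ι}
    {B : (ι → ℝ) → Matrix n n' ℂ} {x : ι → ℝ} (j : ι) (h : LCd e B x) : LCd e (pdm j B) x := by
  unfold LCd at *
  filter_upwards [h.eventually_nhds] with q hq
  ext a b
  exact loc1i_aux (G := fun y => B y a b) j (hq.mono fun q' hq' => by
    show B _ a b = B _ a b
    rw [hq'])

theorem LCd.pdm_eq_zero {n n' : Type*} {e : ι}
    {B : (ι → ℝ) → Matrix n n' ℂ} {x : ι → ℝ} (h : LCd e B x) :
    Pool.Agent.MP_d8b6c2_an.pdm e B x = 0 := by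
  ext a b
  exact LCd.pd_eq_zero (G := fun y => B y a b) (h.mono fun q hq => by
    show B _ a b = B _ a b
    rw [hq])

theorem LCd.of_pd {V : Type*} [NormedAddCommGroup V] [NormedSpace ℝ V] {e : ι}
    {G : (ι → ℝ) → V} {x : ι → ℝ}
    (h : ∀ᶠ y in 𝓝 x, DifferentiableAt ℝ G y ∧ Pool.Agent.MP_d8b6c2_an.pd e G y = 0) :
    LCd e G x := by
  obtain ⟨r, hr, hball⟩ := Metric.eventually_nhds_iff_ball.1 h
  have h1 : ∀ᶠ q : (ι → ℝ) × ℝ in 𝓝 (x, 0), q.1 ∈ Metric.ball x r ∧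
      q.1 + q.2 • Pi.single e 1 ∈ Metric.ball x r := by
    refine Filter.Eventually.and ?_ ?_
    · exact (continuous_fst.tendsto (x, (0 : ℝ))).eventually (Metric.ball_mem_nhds x hr)
    · have h4 : Tendsto (fun q : (ι → ℝ) × ℝ => q.1 + q.2 • (Pi.single e 1 : ι → ℝ)) (𝓝 (x, 0))
          (𝓝 x) := Continuous.tendsto' (by fun_prop) _ _ (by simp)
      exact h4.eventually (Metric.ball_mem_nhds x hr)
  filter_upwards [h1] with q hq
  set S : Set ℝ := {t | q.1 + t • (Pi.single e 1 : ι → ℝ) ∈ Metric.ball x r} with hS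
  have hconv : Convex ℝ S := by
    intro a ha b hb u v hu hv huv
    have := (convex_ball x r) ha hb hu hv huv
    simp only [hS, Set.mem_ofPred_eq]
    convert this using 1
    have : q.1 = (u + v) • q.1 := by rw [huv, one_smul]
    nth_rewrite 1 [this]
    simp only [smul_eq_mul, add_smul, smul_add, mul_smul]
    abel
  have h0 : (0 : ℝ) ∈ S := by simpa [hS] using hq.1
  have h2 : q.2 ∈ S := hq.2
  have hder : ∀ t ∈ S, HasDerivWithinAt (fun t : ℝ => G (q.1 + t • (Pi.single e 1 : ι → ℝ)))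
      0 S t := by
    intro t ht
    obtain ⟨hd, hz⟩ := hball _ ht
    have h2 : HasDerivAt (fun t : ℝ => q.1 + t • (Pi.single e 1 : ι → ℝ)) (Pi.single e 1) t := by
      simpa using ((hasDerivAt_id t).smul_const (Pi.single e 1 : ι → ℝ)).const_add q.1
    have h3 := hd.hasFDerivAt.comp_hasDerivAt t h2
    have h4 : fderiv ℝ G (q.1 + t • (Pi.single e 1 : ι → ℝ)) (Pi.single e 1) = 0 := hz
    rw [h4] at h3
    exact h3.hasDerivWithinAt
  have h5 := hconv.norm_image_sub_le_of_norm_hasDerivWithin_le (C := 0) hder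
    (fun t _ => by simp) h0 h2
  simp only [zero_mul, norm_le_zero_iff, sub_eq_zero, zero_smul, add_zero] at h5
  exact h5

theorem LCd.of_pdm {n n' : Type*} [Finite n] [Finite n'] {e : ι}
    {B : (ι → ℝ) → Matrix n n' ℂ} {x : ι → ℝ}
    (hs : ∀ᶠ y in 𝓝 x, SmAt B y)
    (h : ∀ᶠ y in 𝓝 x, Pool.Agent.MP_d8b6c2_an.pdm e B y = 0) : LCd e B x := by
  have h1 : ∀ a b, LCd e (fun y => B y a b) x := by
    intro a b
    refine LCd.of_pd ?_
    filter_upwards [hs, h] with y hy hy'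
    exact ⟨(hy a b).differentiableAt (by simp), congrFun (congrFun hy' a) b⟩
  have h2 := eventually_all.2 fun a => eventually_all.2 (h1 a)
  exact h2.mono fun q hq => by
    ext a b
    exact hq a b

end dir

variable {J : ℕ} {m d : Fin J → ℕ} {n : Type*} [Fintype n] [DecidableEq n] {κ r0 s o : ℕ}
  {δ δ2 : ℝ} {F : Fld m d n κ r0 s o δ δ2}

theorem loc1i_conj {ι n n' : Type*} [Fintype ι] {B : (ι → ℝ) → Matrix n n' ℂ} {x : ι → ℝ}
    (hB : SmAt B x) : SmAt (fun y => (B y).conjTranspose) x := by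
  intro a b
  have h1 := hB b a
  exact (Complex.conjCLE.contDiff (n := ∞)).contDiffAt.comp x h1

namespace Aux

variable (X : Aux F)

/-- the field and the certified subbundles are constant in the direction `e` near `x` -/
def Dir (F : Fld m d n κ r0 s o δ δ2) (e : Co m d) (x : Co m d → ℝ) : Prop :=
  (∀ p, e ≠ cu p) ∧ (∀ᶠ y in 𝓝 x, pdm e F.b y = 0) ∧ ∀ᶠ y in 𝓝 x, ∀ p, pdm e (PJ F p) y = 0

theorem PJ_smooth (F : Fld m d n κ r0 s o δ δ2) (p : Pth m) (x : Co m d → ℝ) :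
    SmAt (PJ F p) x := by
  intro a b
  have h : ∀ k, ContDiffAt ℝ ∞ (fun y => F.Jf p y a k * (F.Jf p y).conjTranspose k b) x :=
    fun k => (F.J_smooth p x a k).mul (loc1i_conj (F.J_smooth p x) k b)
  have h2 := ContDiffAt.sum (s := (univ : Finset (Fin r0))) fun k _ => h k
  refine h2.congr_of_eventuallyEq (Eventually.of_forall fun y => ?_)
  simp [PJ, Matrix.mul_apply]

variable {e : Co m d} {x : Co m d → ℝ}

theorem Dir.b (h : Dir F e x) : LCd e F.b x :=
  LCd.of_pdm (Eventually.of_forall F.b_smooth) h.2.1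

theorem Dir.PJ (h : Dir F e x) (p : Pth m) : LCd e (PJ F p) x :=
  LCd.of_pdm (Eventually.of_forall fun y => PJ_smooth F p y) (h.2.2.mono fun y hy => hy p)

theorem Dir.u (h : Dir F e x) (p : Pth m) (y : Co m d → ℝ) (t : ℝ) :
    (y + t • (Pi.single e 1 : Co m d → ℝ)) (cu p) = y (cu p) := by
  simp [(h.1 p).symm]

theorem loc1i_bf {y z : Co m d → ℝ} (h : F.b y = F.b z) : bf F y = bf F z := by
  funext a c
  show F.b y a c = F.b z a c
  rw [h]

theorem Dir.ph (h : Dir F e x) (i : Fin (s + 1)) : LCd e (X.ph i) x := by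
  filter_upwards [h.b] with q hq
  simp only [Aux.ph, loc1i_bf hq]

theorem Dir.ps (h : Dir F e x) (i : Fin (s + 1)) : LCd e (X.ps i) x := by
  filter_upwards [h.b] with q hq
  simp only [Aux.ps, loc1i_bf hq]

theorem Dir.ps' (h : Dir F e x) (i : Fin (s + 1)) : LCd e (X.ps' i) x := by
  filter_upwards [h.b] with q hq
  simp only [Aux.ps', loc1i_bf hq]

theorem Dir.Ph (h : Dir F e x) (i : Fin (s + 1)) : LCd e (X.Ph i) x := by
  have h2 := eventually_all.2 h.PJ
  filter_upwards [h.b, h2] with q hq hq2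
  simp only [Aux.Ph, W, QQ, P, Aux.ps', loc1i_bf hq, hq, hq2, h.u]

theorem Dir.Ak (h : Dir F e x) (k : ℕ) (j : Co m d) : LCd e (X.Ak k j) x := by
  induction k generalizing j with
  | zero =>
    have h2 := eventually_all.2 h.PJ
    have h3 := eventually_all.2 fun p => (h.PJ p).pdm j
    filter_upwards [h2, h3] with q hq2 hq3
    simp only [Aux.Ak, A0, hq2, hq3, h.u]
  | succ k ih =>
    have h2 := eventually_all.2 fun i => h.Ph X i
    have h3 := eventually_all.2 fun i => (h.Ph X i).pdm j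
    have h4 := eventually_all.2 fun i => h.ps X i
    filter_upwards [h2, h3, h4, ih j] with q hq2 hq3 hq4 hq5
    simp only [Aux.Ak, covd, hq2, hq3, hq4, hq5]

theorem Dir.Ak_zero (h : Dir F e x) (k : ℕ) : X.Ak k e x = 0 := by
  induction k with
  | zero =>
    simp only [Aux.Ak, A0]
    rw [neg_eq_zero]
    refine Finset.sum_eq_zero fun p _ => ?_
    rw [(h.PJ p).pdm_eq_zero, Matrix.zero_mul, smul_zero]
  | succ k ih =>
    simp only [Aux.Ak]
    split_ifs with hk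
    · simp only [covd, (h.Ph X ⟨k, hk⟩).pdm_eq_zero, ih, Matrix.zero_mul, Matrix.mul_zero,
        sub_zero, add_zero, smul_zero]
    · exact ih

theorem dir_end (u : Sg m d) (hx : x (cr u) < 0 ∨ 1 < x (cr u)) :
    Dir F (cr u) x ∧ Dir F (ct u) x := by
  have h1 : ∀ᶠ y : Co m d → ℝ in 𝓝 x, y (cr u) < 0 ∨ 1 < y (cr u) := by
    have h2 : Tendsto (fun y : Co m d → ℝ => y (cr u)) (𝓝 x) (𝓝 (x (cr u))) :=
      (continuous_apply _).tendsto _
    rcases hx with hx | hx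
    · exact (h2.eventually (gt_mem_nhds hx)).mono fun y hy => Or.inl hy
    · exact (h2.eventually (lt_mem_nhds hx)).mono fun y hy => Or.inr hy
  refine ⟨⟨fun p => by simp, h1.mono fun y hy => (F.b_end u y hy).1,
    h1.mono fun y hy p => (F.PJ_end u p y hy).1⟩,
    ⟨fun p => by simp, h1.mono fun y hy => (F.b_end u y hy).2,
    h1.mono fun y hy p => (F.PJ_end u p y hy).2⟩⟩

theorem dir_tau (x : Co m d → ℝ) : Dir F cτ x :=
  ⟨fun p => by simp, Eventually.of_forall fun y => F.b_tau y,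
    Eventually.of_forall fun y p => F.PJ_tau p y⟩

/-- all functions are locally constant in `cr u`, `ct u` at the ends -/
theorem Ph_end (i : Fin (s + 1)) (u : Sg m d) (x : Co m d → ℝ)
    (hx : x (cr u) < 0 ∨ 1 < x (cr u)) :
    pdm (cr u) (X.Ph i) x = 0 ∧ pdm (ct u) (X.Ph i) x = 0 :=
  ⟨((dir_end u hx).1.Ph X i).pdm_eq_zero, ((dir_end u hx).2.Ph X i).pdm_eq_zero⟩

theorem Ak_end (k : ℕ) (u : Sg m d) (x : Co m d → ℝ) (hx : x (cr u) < 0 ∨ 1 < x (cr u)) :
    X.Ak k (cr u) x = 0 ∧ X.Ak k (ct u) x = 0 :=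
  ⟨(dir_end u hx).1.Ak_zero X k, (dir_end u hx).2.Ak_zero X k⟩

theorem Ak_dend (k : ℕ) (u : Sg m d) (x : Co m d → ℝ) (hx : x (cr u) < 0 ∨ 1 < x (cr u))
    (j : Co m d) : pdm (cr u) (X.Ak k j) x = 0 ∧ pdm (ct u) (X.Ak k j) x = 0 :=
  ⟨((dir_end u hx).1.Ak X k j).pdm_eq_zero, ((dir_end u hx).2.Ak X k j).pdm_eq_zero⟩

end Aux

end Pool.Agent.MP_d8b6c2_an
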