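import Mathlib
import Pool.Agent.Lib.MP_d8b6c2_an.Loc
import Pool.Agent.Lib.MP_d8b6c2_an.Forms1
import Pool.Agent.Lib.MP_d8b6c2_an.Loc1i

/-! # Construction of the smooth structure: proofs -/

namespace Pool.Agent.MP_d8b6c2_an

open Finset Filter Topology
open scoped ContDiff

variable {J : ℕ} {m d : Fin J → ℕ} {n : Type*} [Fintype n] [DecidableEq n] {κ r0 s o : ℕ}
  {δ δ2 : ℝ} {F : Fld m d n κ r0 s o δ δ2}

namespace Aux

variable (X : Aux F)

private theorem loc1j_bf (F : Fld m d n κ r0 s o δ δ2) (x : Co m d → ℝ) :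
    ContDiffAt ℝ ∞ (bf F) x := by
  rw [contDiffAt_pi]
  intro a
  rw [contDiffAt_pi]
  intro c
  exact F.b_smooth x a c

private theorem loc1j_fderiv_bf (F : Fld m d n κ r0 s o δ δ2) (x : Co m d → ℝ) (j : Co m d)
    (h : pdm j F.b x = 0) : fderiv ℝ (bf F) x (Pi.single j 1) = 0 := by
  have hd : DifferentiableAt ℝ (bf F) x := (loc1j_bf F x).differentiableAt (by simp)
  funext a c
  have h1 : fderiv ℝ (fun y => bf F y a c) x (Pi.single j 1) = 0 := by
    have := congrFun (congrFun h a) c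
    exact this
  have hda : DifferentiableAt ℝ (fun y => bf F y a) x := differentiableAt_pi.1 hd a
  have h2 : fderiv ℝ (bf F) x (Pi.single j 1) a = fderiv ℝ (fun y => bf F y a) x (Pi.single j 1) := by
    have := hasFDerivAt_pi'.1 hd.hasFDerivAt a
    rw [this.fderiv]
    rfl
  have h3 : fderiv ℝ (fun y => bf F y a) x (Pi.single j 1) c =
      fderiv ℝ (fun y => bf F y a c) x (Pi.single j 1) := by
    have := hasFDerivAt_pi'.1 hda.hasFDerivAt c
    rw [this.fderiv]
    rfl
  rw [h2, h3, h1]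
  rfl

private theorem loc1j_pd_ph (i : Fin (s + 1)) (x : Co m d → ℝ) (j : Co m d)
    (h : pdm j F.b x = 0) : pd j (X.ph i) x = 0 := by
  have hd : DifferentiableAt ℝ (bf F) x := (loc1j_bf F x).differentiableAt (by simp)
  have hf : DifferentiableAt ℝ (X.f i) (bf F x) :=
    ((X.f_smooth i).contDiffAt).differentiableAt (by simp)
  have h1 : pd j (X.ph i) x = fderiv ℝ (X.f i ∘ bf F) x (Pi.single j 1) := rfl
  rw [h1, fderiv_comp x hf hd, ContinuousLinearMap.comp_apply, loc1j_fderiv_bf F x j h, map_zero]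

theorem ph_end (i : Fin (s + 1)) (u : Sg m d) (x : Co m d → ℝ)
    (hx : x (cr u) < 0 ∨ 1 < x (cr u)) : pd (cr u) (X.ph i) x = 0 ∧ pd (ct u) (X.ph i) x = 0 :=
  ⟨loc1j_pd_ph X i x _ (F.b_end u x hx).1, loc1j_pd_ph X i x _ (F.b_end u x hx).2⟩

/-- a vector along which everything is invariant -/
private def Loc1j_inv (F : Fld m d n κ r0 s o δ δ2) (e : Co m d → ℝ) : Prop :=
  (∀ x, F.b (x + e) = F.b x) ∧ (∀ p x, PJ F p (x + e) = PJ F p x) ∧ ∀ p, e (cu p) = 0

private theorem loc1j_bf_inv {e : Co m d → ℝ} (he : Loc1j_inv F e) (x : Co m d → ℝ) :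
    bf F (x + e) = bf F x := by
  unfold bf
  rw [he.1 x]

private theorem loc1j_pdm_inv {n' n'' : Type*} {e : Co m d → ℝ}
    {G : (Co m d → ℝ) → Matrix n' n'' ℂ} (hG : ∀ x, G (x + e) = G x) (j : Co m d)
    (x : Co m d → ℝ) : pdm j G (x + e) = pdm j G x := by
  ext a b
  change fderiv ℝ (fun y => G y a b) (x + e) (Pi.single j 1) =
    fderiv ℝ (fun y => G y a b) x (Pi.single j 1)
  rw [← fderiv_comp_add_right e]
  simp only [hG]

private theorem loc1j_W_inv {e : Co m d → ℝ} (he : Loc1j_inv F e) (x : Co m d → ℝ) :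
    X.W (x + e) = X.W x := by
  unfold W QQ ps'
  rw [he.1 x, loc1j_bf_inv he x]
  congr 2
  refine Finset.sum_congr rfl fun p _ => ?_
  rw [he.2.1 p x, Pi.add_apply, he.2.2 p, add_zero]

private theorem loc1j_Ph_inv {e : Co m d → ℝ} (he : Loc1j_inv F e) (i : Fin (s + 1))
    (x : Co m d → ℝ) : X.Ph i (x + e) = X.Ph i x := by
  unfold Ph P
  rw [loc1j_W_inv X he x, he.1 x]

private theorem loc1j_Ak_inv {e : Co m d → ℝ} (he : Loc1j_inv F e) (k : ℕ) :
    ∀ (j : Co m d) (x : Co m d → ℝ), X.Ak k j (x + e) = X.Ak k j x := by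
  induction k with
  | zero =>
    intro j x
    change A0 F j (x + e) = A0 F j x
    unfold A0
    congr 1
    refine Finset.sum_congr rfl fun p _ => ?_
    rw [he.2.1 p x, Pi.add_apply, he.2.2 p, add_zero,
      loc1j_pdm_inv (fun y => he.2.1 p y) j x]
  | succ k ih =>
    intro j x
    unfold Ak
    split_ifs with h
    · rw [ih, loc1j_Ph_inv X he]
      have h1 : covd (X.Ak k) j (X.Ph ⟨k, h⟩) (x + e) = covd (X.Ak k) j (X.Ph ⟨k, h⟩) x := by
        unfold covd
        rw [ih, loc1j_Ph_inv X he, loc1j_pdm_inv (fun y => loc1j_Ph_inv X he _ y) j x]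
      have h2 : X.ps ⟨k, h⟩ (x + e) = X.ps ⟨k, h⟩ x := by
        unfold ps
        rw [loc1j_bf_inv he x]
      rw [h1, h2]
    · exact ih j x

private theorem loc1j_ct (F : Fld m d n κ r0 s o δ δ2) (u : Sg m d) :
    Loc1j_inv F (ej (ct u)) := by
  refine ⟨fun x => F.b_per u x, fun p x => F.PJ_per u p x, fun p => ?_⟩
  unfold ej
  rw [Pi.single_eq_of_ne]
  simp

private theorem loc1j_const {V : Type*} [NormedAddCommGroup V] [NormedSpace ℝ V]
    {g : (Co m d → ℝ) → V} (hg : ∀ x, DifferentiableAt ℝ g x) (j : Co m d)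
    (h : ∀ x, pd j g x = 0) (x : Co m d → ℝ) (t : ℝ) : g (x + t • ej j) = g x := by
  have h1 : ∀ t : ℝ, HasDerivAt (fun t : ℝ => g (x + t • ej j)) 0 t := by
    intro t
    have h2 : HasDerivAt (fun t : ℝ => x + t • ej j) (ej j) t := by
      simpa using ((hasDerivAt_id t).smul_const (ej j)).const_add x
    have h3 := (hg (x + t • ej j)).hasFDerivAt.comp_hasDerivAt t h2
    have h4 : fderiv ℝ g (x + t • ej j) (ej j) = 0 := h (x + t • ej j)
    rw [h4] at h3
    exact h3
  have h5 := is_const_of_deriv_eq_zero (𝕜 := ℝ) (f := fun t : ℝ => g (x + t • ej j))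
    (fun t => (h1 t).differentiableAt) (fun t => (h1 t).deriv) t 0
  simpa using h5

private theorem loc1j_tauinv (F : Fld m d n κ r0 s o δ δ2) (t : ℝ) :
    Loc1j_inv F (t • ej cτ) := by
  refine ⟨fun x => ?_, fun p x => ?_, fun p => ?_⟩
  · ext a c
    exact loc1j_const (g := fun y => F.b y a c)
      (fun y => (F.b_smooth y a c).differentiableAt (by simp)) cτ
      (fun y => congrFun (congrFun (F.b_tau y) a) c) x t
  · ext a c
    have hs : ∀ y, SmAt (PJ F p) y := by
      intro y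
      refine smAt_mul (F.J_smooth p y) ?_
      intro a b
      exact Complex.conjCLE.contDiff.contDiffAt.comp y (F.J_smooth p y b a)
    exact loc1j_const (g := fun y => PJ F p y a c)
      (fun y => (hs y a c).differentiableAt (by simp)) cτ
      (fun y => congrFun (congrFun (F.PJ_tau p y) a) c) x t
  · unfold ej
    rw [Pi.smul_apply, Pi.single_eq_of_ne (by simp), smul_zero]

private theorem loc1j_pd_zero {V : Type*} [NormedAddCommGroup V] [NormedSpace ℝ V]
    {g : (Co m d → ℝ) → V} (j : Co m d)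
    (h : ∀ x (t : ℝ), g (x + t • ej j) = g x) (x : Co m d → ℝ) : pd j g x = 0 := by
  by_cases hd : DifferentiableAt ℝ g x
  · have h2 : HasDerivAt (fun t : ℝ => x + t • ej j) (ej j) 0 := by
      simpa using ((hasDerivAt_id (0 : ℝ)).smul_const (ej j)).const_add x
    have hd' : HasFDerivAt g (fderiv ℝ g x) (x + (0 : ℝ) • ej j) := by
      simpa using hd.hasFDerivAt
    have h3 := hd'.comp_hasDerivAt (0 : ℝ) h2
    have h4 : (g ∘ fun t : ℝ => x + t • ej j) = fun _ => g x := by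
      funext t
      exact h x t
    rw [h4] at h3
    exact h3.unique (hasDerivAt_const _ _)
  · unfold pd
    rw [fderiv_zero_of_not_differentiableAt hd]
    rfl

private theorem loc1j_pdm_zero {n' n'' : Type*} {G : (Co m d → ℝ) → Matrix n' n'' ℂ}
    (h : ∀ x (t : ℝ), G (x + t • ej cτ) = G x) (x : Co m d → ℝ) : pdm cτ G x = 0 := by
  ext a b
  exact loc1j_pd_zero (g := fun y => G y a b) cτ (fun y t => by rw [h y t]) x

theorem per (u : Sg m d) (x : Co m d → ℝ) (i : Fin (s + 1)) :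
    X.ph i (x + ej (ct u)) = X.ph i x ∧ X.Ph i (x + ej (ct u)) = X.Ph i x := by
  refine ⟨?_, loc1j_Ph_inv X (loc1j_ct F u) i x⟩
  unfold ph
  rw [loc1j_bf_inv (loc1j_ct F u) x]

theorem Ak_per (k : ℕ) (u : Sg m d) (x : Co m d → ℝ) (j : Co m d) :
    X.Ak k j (x + ej (ct u)) = X.Ak k j x :=
  loc1j_Ak_inv X (loc1j_ct F u) k j x

theorem tau (x : Co m d → ℝ) (i : Fin (s + 1)) : pd cτ (X.ph i) x = 0 :=
  loc1j_pd_ph X i x _ (F.b_tau x)

theorem Ak_tau (k : ℕ) (x : Co m d → ℝ) : X.Ak k cτ x = 0 := by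
  induction k with
  | zero =>
    change A0 F cτ x = 0
    unfold A0
    rw [neg_eq_zero]
    refine Finset.sum_eq_zero fun p _ => ?_
    have h : pdm cτ (PJ F p) x = 0 := F.PJ_tau p x
    rw [h, Matrix.zero_mul, smul_zero]
  | succ k ih =>
    unfold Ak
    split_ifs with h
    · have h1 : covd (X.Ak k) cτ (X.Ph ⟨k, h⟩) x = 0 := by
        unfold covd
        rw [ih, loc1j_pdm_zero (fun y t => loc1j_Ph_inv X (loc1j_tauinv F t) _ y),
          Matrix.zero_mul, Matrix.mul_zero, sub_zero, add_zero]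
      rw [ih, h1, Matrix.mul_zero, smul_zero, add_zero]
    · exact ih

theorem Ak_dtau (k : ℕ) (x : Co m d → ℝ) (j : Co m d) : pdm cτ (X.Ak k j) x = 0 :=
  loc1j_pdm_zero (fun y t => loc1j_Ak_inv X (loc1j_tauinv F t) k j y) x

end Aux

end Pool.Agent.MP_d8b6c2_an
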