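import Mathlib
import Pool.Agent.Lib.MP_d8b6c2_an.Loc
import Pool.Agent.Lib.MP_d8b6c2_an.Forms1
import Pool.Agent.Lib.MP_d8b6c2_an.Loc1j

/-! # Construction of the smooth structure: proofs -/

namespace Pool.Agent.MP_d8b6c2_an

open Finset Filter Topology
open scoped ContDiff

variable {J : ℕ} {m d : Fin J → ℕ} {n : Type*} [Fintype n] [DecidableEq n] {κ r0 s o : ℕ}
  {δ δ2 : ℝ} {F : Fld m d n κ r0 s o δ δ2}

private theorem loc1k_ps (X : Aux F) (i : Fin (s + 1)) {x : Co m d → ℝ}
    (h : x ∈ tsupport (X.ph i)) : x ∈ tsupport (X.ps i) := by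
  have h1 := (X.ps_eq_one i h).self_of_nhds
  refine subset_tsupport _ ?_
  rw [Function.mem_support, h1]
  exact one_ne_zero

private theorem loc1k_ps' (X : Aux F) (i : Fin (s + 1)) {x : Co m d → ℝ}
    (h : x ∈ tsupport (X.ph i)) : X.ps' i x = 1 :=
  (X.ps'_eq_one i (loc1k_ps X i h)).self_of_nhds

private theorem loc1k_ps'' (X : Aux F) (i : Fin (s + 1)) {x : Co m d → ℝ}
    (h : x ∈ tsupport (X.ph i)) : x ∈ tsupport (X.ps' i) := by
  refine subset_tsupport _ ?_
  rw [Function.mem_support, loc1k_ps' X i h]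
  exact one_ne_zero

private theorem loc1k_be (X : Aux F) {i i' : Fin (s + 1)} (h : i ≤ i') : X.be i' ≤ X.be i := by
  rcases h.eq_or_lt with rfl | h
  · exact le_rfl
  · exact ((X.hba i i' h).trans (X.hab i).2.1).le

private theorem loc1k_rank (X : Aux F) (i : Fin (s + 1)) (x : Co m d → ℝ) :
    (X.Ph i x).rank ≤ nGe δ (F.b x) := by
  rw [X.rank_Ph i x]
  exact rank_sproj_le ((X.hab i).1.trans (X.hab i).2.1).le (F.b_herm x)

theorem exists_str (F : Fld m d n κ r0 s o δ δ2) :
    ∃ S, Nonempty (Str m d n κ r0 s o S) := by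
  obtain ⟨X⟩ := exists_aux F
  refine ⟨s + 1, ⟨{
    φ := X.ph
    Ph := X.Ph
    A := X.AA
    Jf := F.Jf
    φ_smooth := fun i => X.ph_smooth i
    φ_nonneg := fun i x => X.f_nonneg i _
    φ_sum := fun x => X.f_sum x
    A_smooth := fun j x => X.Ak_smooth (s + 1) j x
    Ph_smooth := fun i x h => X.Ph_smooth i (loc1k_ps'' X i h)
    Ph_cov := fun i x h => X.Ak_cov (s + 1) i i.2 (X.ps_eq_one i h)
    Ph_idem := fun i x _ => Eventually.of_forall fun y => X.Ph_idem i y
    Ph_nest := fun i i' x h _ _ => Eventually.of_forall fun y => X.Ph_nest h y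
    Ph_rank := fun i x h => ?_
    rank_le := fun i x _ => (loc1k_rank X i x).trans (F.le x)
    rank_win := fun i i' x h _ _ => ?_
    rank_R := fun i x _ hR => (loc1k_rank X i x).trans_lt (F.hR x hR)
    J_smooth := F.J_smooth
    J_orth := F.J_orth
    J_cov := fun p x hx j => X.Ak_frame (s + 1) p x hx j
    J_cert := fun p x hx i h => X.Ph_mul_J i p x hx (loc1k_ps' X i h)
    end_φ := fun u x hx i => X.ph_end i u x hx
    end_A := fun u x hx => X.Ak_end (s + 1) u x hx
    end_dA := fun u x hx k => X.Ak_dend (s + 1) u x hx k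
    per_φ := fun u x i => (X.per u x i).1
    per_A := fun u x j => X.Ak_per (s + 1) u x j
    per_Ph := fun u x i => (X.per u x i).2
    tau_φ := fun x i => X.tau x i
    tau_A := fun x => X.Ak_tau (s + 1) x
    tau_dA := fun x j => X.Ak_dtau (s + 1) x j }⟩⟩
  · have hg := (X.gap_of i (loc1k_ps'' X i h)).self_of_nhds
    have h1 := sproj_rank_near (X.be i) F.b_herm (F.b_smooth x) (fun z hz hz' =>
      hg z hz ⟨by rw [hz']; exact (X.hab i).2.1.le, hz'.le⟩)
    filter_upwards [h1] with y hy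
    rw [X.rank_Ph, X.rank_Ph, hy]
  · rw [X.rank_Ph, X.rank_Ph]
    have h1 := rank_sproj_le_add (c := δ) (c' := δ2) (c1 := X.be i') (c2 := X.be i)
      ((X.hab i').1.trans (X.hab i').2.1).le (X.hab i).2.2.le (F.b_herm x)
    exact h1.trans (Nat.add_le_add_left (F.win x) _)

end Pool.Agent.MP_d8b6c2_an
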