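import Mathlib
import Pool.Agent.Lib.MP_d8b6c2_an.Fld
import Pool.Agent.Lib.MP_d8b6c2_an.Loc0

/-! # Construction of the smooth structure: definitions -/

namespace Pool.Agent.MP_d8b6c2_an

open Finset Filter Topology
open scoped ContDiff

variable {J : ℕ} {m d : Fin J → ℕ} {n : Type*} [Fintype n] [DecidableEq n] {κ r0 s o : ℕ}
  {δ δ2 : ℝ}

theorem exists_aux (F : Fld m d n κ r0 s o δ δ2) : Nonempty (Aux F) := by
  obtain ⟨al, be, hab, hba⟩ := exists_thresholds F.δ_lt s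
  have hU : ∀ i : Fin (s + 1), IsOpen {B : n → n → ℂ | Gap (al i) (be i) (Matrix.of B)} :=
    fun i => isOpen_gap _ _
  have hKU : (Set.range fun x => (fun i j => F.b x i j : n → n → ℂ)) ⊆
      ⋃ i, {B : n → n → ℂ | Gap (al i) (be i) (Matrix.of B)} := by
    rintro _ ⟨x, rfl⟩
    obtain ⟨i, hi⟩ := exists_gap al be (fun i => ⟨(hab i).1.le, (hab i).2.1, (hab i).2.2.le⟩)
      hba (F.b x) (F.win x)
    exact Set.mem_iUnion.2 ⟨i, hi⟩
  obtain ⟨f, ψ, ψ', hs, hm, hsum, h1, h2, h3⟩ := exists_pou F.b_cpt _ hU hKU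
  exact ⟨{
    al := al
    be := be
    f := f
    ψ := ψ
    ψ' := ψ'
    hab := hab
    hba := hba
    f_smooth := fun i => (hs i).1
    ψ_smooth := fun i => (hs i).2.1
    ψ'_smooth := fun i => (hs i).2.2
    f_nonneg := fun i B => (hm i B).1
    ψ_mem := fun i B => ⟨(hm i B).2.1, (hm i B).2.2.1⟩
    ψ'_mem := fun i B => ⟨(hm i B).2.2.2.1, (hm i B).2.2.2.2⟩
    f_sum := fun x => hsum _ ⟨x, rfl⟩
    f_ψ := h1
    ψ_ψ' := h2
    ψ'_gap := fun i B hB => h3 i hB }⟩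

end Pool.Agent.MP_d8b6c2_an
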