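import Mathlib
import Pool.Agent.Lib.MP_d8b6c2_an.Fld
import Pool.Agent.Lib.MP_d8b6c2_an.LocA

/-! # Construction of the smooth structure: definitions -/

namespace Pool.Agent.MP_d8b6c2_an

open Finset Filter Topology
open scoped ContDiff

variable {J : ℕ} {m d : Fin J → ℕ} {n : Type*} [Fintype n] [DecidableEq n] {κ r0 s o : ℕ}
  {δ δ2 : ℝ}

variable {F : Fld m d n κ r0 s o δ δ2}

namespace Aux

variable (X : Aux F)

/-- the matrix of the field as a function -/
def bf (F : Fld m d n κ r0 s o δ δ2) (x : Co m d → ℝ) : n → n → ℂ := fun a c => F.b x a c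

/-- partition of unity on the base -/
noncomputable def ph (X : Aux F) (i : Fin (s + 1)) (x : Co m d → ℝ) : ℝ := X.f i (bf F x)

noncomputable def ps (X : Aux F) (i : Fin (s + 1)) (x : Co m d → ℝ) : ℝ := X.ψ i (bf F x)

noncomputable def ps' (X : Aux F) (i : Fin (s + 1)) (x : Co m d → ℝ) : ℝ := X.ψ' i (bf F x)

/-- spectral projections -/
noncomputable def P (X : Aux F) (i : Fin (s + 1)) (x : Co m d → ℝ) : Matrix n n ℂ :=
  sproj (X.be i) (F.b x)

/-- the operator `∏ (1 - ψ'_i (1 - P_i))`, as a function of `b x` -/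
noncomputable def QQ (X : Aux F) (x : Co m d → ℝ) : Matrix n n ℂ :=
  cfc (fun y : ℝ => ∏ i, (1 - X.ps' i x * (if X.be i < y then 0 else 1))) (F.b x)

/-- projection onto the certified subbundle of the label `p` -/
noncomputable def PJ (F : Fld m d n κ r0 s o δ δ2) (p : Pth m) (x : Co m d → ℝ) :
    Matrix n n ℂ := F.Jf p x * (F.Jf p x).conjTranspose

/-- `1 - (1 - QQ) ∑ χ(u_p) PJ_p` -/
noncomputable def W (X : Aux F) (x : Co m d → ℝ) : Matrix n n ℂ :=
  1 - (1 - X.QQ x) * ∑ p, (chi (x (cu p)) : ℂ) • PJ F p x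

/-- corrected idempotents -/
noncomputable def Ph (X : Aux F) (i : Fin (s + 1)) (x : Co m d → ℝ) : Matrix n n ℂ :=
  (X.W x)⁻¹ * X.P i x * X.W x

/-- the first connection: parallel certified subbundles -/
noncomputable def A0 (F : Fld m d n κ r0 s o δ δ2) (j : Co m d) (x : Co m d → ℝ) :
    Matrix n n ℂ :=
  - ∑ p, (chi (x (cu p)) : ℂ) • (pdm j (PJ F p) x * PJ F p x)

/-- correction making `Ph i` parallel for the indices `i < k` -/
noncomputable def Ak (X : Aux F) : ℕ → Co m d → (Co m d → ℝ) → Matrix n n ℂ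
  | 0 => A0 F
  | k + 1 => fun j x =>
      if h : k < s + 1 then
        Ak X k j x + ((X.ps ⟨k, h⟩ x : ℝ) : ℂ) •
          ((2 • X.Ph ⟨k, h⟩ x - 1) * covd (Ak X k) j (X.Ph ⟨k, h⟩) x)
      else Ak X k j x

/-- the connection -/
noncomputable def AA (X : Aux F) : Co m d → (Co m d → ℝ) → Matrix n n ℂ := X.Ak (s + 1)

end Aux

end Pool.Agent.MP_d8b6c2_an
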