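import Mathlib
import Pool.Agent.Lib.MP_d8b6c2_an.MD

/-! Elementary properties of the mixed discriminant. -/

namespace Pool.Agent.MP_d8b6c2_an

open Finset

variable {R : Type*} [CommRing R]
variable {l n : Type*} [Fintype l] [DecidableEq l] [Fintype n] [DecidableEq n]

theorem mixD_map {S : Type*} [CommRing S] (φ : R →+* S) (B : l → Matrix n n R) :
    φ (mixD B) = mixD (fun i => (B i).map φ) := by
  unfold mixD
  rw [map_sum]
  refine Finset.sum_congr rfl fun f _ => ?_
  rw [RingHom.map_det]
  congr 1

private theorem md1a_row (B : l → Matrix n n R) (i : l) (Z : Matrix n n R) (f : l → n) :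
    (Matrix.of fun i' j => (Function.update B i Z) i' (f i') (f j)) =
      (Matrix.of fun i' j => B i' (f i') (f j)).updateRow i (fun j => Z (f i) (f j)) := by
  ext i' j
  by_cases h : i' = i
  · subst h
    simp
  · simp [Function.update_of_ne h, Matrix.updateRow_ne h]

theorem mixD_update_add (B : l → Matrix n n R) (i : l) (X Y : Matrix n n R) :
    mixD (Function.update B i (X + Y)) =
      mixD (Function.update B i X) + mixD (Function.update B i Y) := by
  unfold mixD
  rw [← Finset.sum_add_distrib]
  refine Finset.sum_congr rfl fun f _ => ?_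
  rw [md1a_row, md1a_row, md1a_row]
  have h : (fun j => (X + Y) (f i) (f j)) = (fun j => X (f i) (f j)) + fun j => Y (f i) (f j) := by
    ext j
    simp
  rw [h, Matrix.det_updateRow_add]

theorem mixD_update_smul (B : l → Matrix n n R) (i : l) (c : R) (X : Matrix n n R) :
    mixD (Function.update B i (c • X)) = c * mixD (Function.update B i X) := by
  unfold mixD
  rw [Finset.mul_sum]
  refine Finset.sum_congr rfl fun f _ => ?_
  rw [md1a_row, md1a_row]
  have h : (fun j => (c • X) (f i) (f j)) = c • (fun j => X (f i) (f j)) := by
    ext j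
    simp
  rw [h, Matrix.det_updateRow_smul]

/-- the mixed discriminant as a multilinear map -/
noncomputable def mixDL (R : Type*) [CommRing R] (l n : Type*) [Fintype l] [DecidableEq l]
    [Fintype n] [DecidableEq n] : MultilinearMap R (fun _ : l => Matrix n n R) R :=
  MultilinearMap.mk' mixD (fun B i X Y => by
      convert mixD_update_add B i X Y) (fun B i c X => by
      rw [smul_eq_mul]
      convert mixD_update_smul B i c X)

theorem mixDL_apply (B : l → Matrix n n R) : mixDL R l n B = mixD B := rfl

/-- symmetry -/
theorem mixD_perm (B : l → Matrix n n R) {l' : Type*} [Fintype l'] [DecidableEq l']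
    (σ : l' ≃ l) : mixD (fun i => B (σ i)) = mixD B := by
  unfold mixD
  rw [← Equiv.sum_comp (Equiv.arrowCongr σ.symm (Equiv.refl n))]
  refine Finset.sum_congr rfl fun f _ => ?_
  rw [← Matrix.det_submatrix_equiv_self σ]
  congr 1

end Pool.Agent.MP_d8b6c2_an
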