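import Mathlib
import Pool.Agent.Lib.MP_d8b6c2_an.MD
import Pool.Agent.Lib.MP_d8b6c2_an.MD1a

/-! Elementary properties of the mixed discriminant. -/

namespace Pool.Agent.MP_d8b6c2_an

open Finset

variable {R : Type*} [CommRing R]
variable {l n : Type*} [Fintype l] [DecidableEq l] [Fintype n] [DecidableEq n]

/-- rows of `A` on `s`, rows of the unit matrix elsewhere -/
private def md1b_pw {S : Type*} [CommRing S] {p : Type*} [DecidableEq p] (s : Finset p)
    (A : Matrix p p S) : Matrix p p S :=
  Matrix.of fun i j => if i ∈ s then A i j else (1 : Matrix p p S) i j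

private theorem md1b_det_one_add {S : Type*} [CommRing S] {p : Type*} [Fintype p] [DecidableEq p]
    (A : Matrix p p S) :
    Matrix.det (1 + A) = ∑ s : Finset p, Matrix.det (md1b_pw s A) := by
  have h := (Matrix.detRowAlternating (R := S) (n := p)).toMultilinearMap.map_add_univ
    (fun i j => A i j) (fun i j => (1 : Matrix p p S) i j)
  have h1 : Matrix.det (1 + A) = Matrix.detRowAlternating.toMultilinearMap
      ((fun i j => A i j) + (fun i j => (1 : Matrix p p S) i j)) := by
    rw [add_comm]
    rfl
  refine h1.trans (h.trans ?_)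
  refine Finset.sum_congr rfl fun s _ => ?_
  have h2 : md1b_pw s A = Matrix.of (s.piecewise (fun i j => A i j)
      (fun i j => (1 : Matrix p p S) i j)) := by
    ext i j
    by_cases hi : i ∈ s
    · simp [md1b_pw, hi, Finset.piecewise]
    · simp [md1b_pw, hi, Finset.piecewise]
  rw [h2]
  rfl

private theorem md1b_row_mul {S : Type*} [CommRing S] {p : Type*} [Fintype p] [DecidableEq p]
    (s : Finset p) (v : p → S) (A : Matrix p p S) :
    Matrix.det (md1b_pw s (Matrix.of fun i j => v i * A i j)) =
      (∏ i ∈ s, v i) * Matrix.det (md1b_pw s A) := by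
  have h := Matrix.det_mul_column (fun i => if i ∈ s then v i else 1) (md1b_pw s A)
  rw [Finset.prod_ite_mem, Finset.univ_inter] at h
  rw [← h]
  congr 1
  ext i j
  by_cases hi : i ∈ s
  · simp [md1b_pw, hi]
  · simp [md1b_pw, hi]

private theorem md1b_map {S : Type*} [CommRing S] {p : Type*} [Fintype p] [DecidableEq p]
    (s : Finset p) (φ : R →+* S) (A : Matrix p p R) :
    Matrix.det (md1b_pw s (A.map φ)) = φ (Matrix.det (md1b_pw s A)) := by
  rw [RingHom.map_det]
  congr 1
  ext i j
  by_cases hi : i ∈ s
  · simp [md1b_pw, hi]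
  · have h3 : md1b_pw s (A.map φ) i j = if i ∈ s then φ (A i j) else (1 : Matrix p p S) i j := rfl
    have h4 : φ.mapMatrix (md1b_pw s A) i j =
        φ (if i ∈ s then A i j else (1 : Matrix p p R) i j) := rfl
    rw [h3, h4, if_neg hi, if_neg hi, Matrix.one_apply, Matrix.one_apply]
    split_ifs
    · rw [map_one]
    · rw [map_zero]

/-- graph of a function -/
private def md1b_gr (f : l → n) : Finset (l × n) := Finset.univ.image fun i => (i, f i)

private theorem md1b_mem_gr (f : l → n) (p : l × n) : p ∈ md1b_gr f ↔ f p.1 = p.2 := by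
  unfold md1b_gr
  simp only [Finset.mem_image, Finset.mem_univ, true_and]
  constructor
  · rintro ⟨i, rfl⟩
    rfl
  · intro h
    exact ⟨p.1, by rw [h]⟩

private theorem md1b_block {S : Type*} [CommRing S] {p q : Type*} [Fintype p] [DecidableEq p]
    [Fintype q] [DecidableEq q] (P : p → Prop) [DecidablePred P] (e : q ≃ {x // P x})
    (A : Matrix p p S) (hA : ∀ i, ¬ P i → ∀ j, A i j = if i = j then 1 else 0) :
    Matrix.det A = Matrix.det (Matrix.of fun i j : q => A (e i : p) (e j : p)) := by
  rw [Matrix.twoBlockTriangular_det A P]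
  · have h2 : Matrix.toSquareBlockProp A (fun p => ¬ P p) = 1 := by
      ext i j
      have h3 : Matrix.toSquareBlockProp A (fun p => ¬ P p) i j = A i j := rfl
      rw [h3, hA i i.2, Matrix.one_apply]
      by_cases hij : i = j
      · rw [if_pos hij, if_pos (congrArg Subtype.val hij)]
      · rw [if_neg hij, if_neg]
        intro h
        exact hij (Subtype.ext h)
    rw [h2, Matrix.det_one, mul_one]
    refine (Matrix.det_submatrix_equiv_self e _).symm.trans ?_
    rfl
  · intro i hi j hj
    rw [hA i hi, if_neg]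
    rintro rfl
    exact hi hj

private theorem md1b_det_gr {S : Type*} [CommRing S] (f : l → n)
    (A : Matrix (l × n) (l × n) S) :
    Matrix.det (md1b_pw (md1b_gr f) A) =
      Matrix.det (Matrix.of fun i j : l => A (i, f i) (j, f j)) := by
  let e : l ≃ {p : l × n // f p.1 = p.2} :=
    { toFun := fun i => ⟨(i, f i), rfl⟩
      invFun := fun p => p.1.1
      left_inv := fun i => rfl
      right_inv := fun p => by
        apply Subtype.ext
        exact Prod.ext rfl p.2 }
  rw [md1b_block (fun p : l × n => f p.1 = p.2) e]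
  · congr 1
    ext i j
    have h3 : (Matrix.of fun i j : l => (md1b_pw (md1b_gr f) A) (e i : l × n) (e j : l × n)) i j =
      (if (i, f i) ∈ md1b_gr f then A (i, f i) (j, f j)
      else (1 : Matrix (l × n) (l × n) S) (i, f i) (j, f j)) := rfl
    rw [h3, if_pos ((md1b_mem_gr f _).2 rfl)]
    rfl
  · intro p hp q
    have h3 : md1b_pw (md1b_gr f) A p q = (if p ∈ md1b_gr f then A p q
      else (1 : Matrix (l × n) (l × n) S) p q) := rfl
    rw [h3, if_neg, Matrix.one_apply]
    rw [md1b_mem_gr]
    exact hp

private theorem md1b_wa (B : l → Matrix n n R) (v : l → R) :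
    Matrix.det (1 + ∑ i : l, v i • B i) =
      Matrix.det (1 + (Matrix.of fun p q : l × n => v p.1 * B p.1 p.2 q.2)) := by
  have h := Matrix.det_one_add_mul_comm
    (Matrix.of fun (a : n) (p : l × n) => if a = p.2 then (1 : R) else 0)
    (Matrix.of fun (p : l × n) (c : n) => v p.1 * B p.1 p.2 c)
  have e1 : (∑ i : l, v i • B i) =
      (Matrix.of fun (a : n) (p : l × n) => if a = p.2 then (1 : R) else 0) *
      (Matrix.of fun (p : l × n) (c : n) => v p.1 * B p.1 p.2 c) := by
    ext a c
    rw [Matrix.mul_apply, Matrix.sum_apply, Fintype.sum_prod_type]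
    refine Finset.sum_congr rfl fun i _ => ?_
    simp
  have e2 : (Matrix.of fun p q : l × n => v p.1 * B p.1 p.2 q.2) =
      (Matrix.of fun (p : l × n) (c : n) => v p.1 * B p.1 p.2 c) *
      (Matrix.of fun (a : n) (p : l × n) => if a = p.2 then (1 : R) else 0) := by
    ext p q
    rw [Matrix.mul_apply]
    simp
  rw [e1, h, ← e2]

private theorem md1b_gr_inj : Function.Injective (md1b_gr : (l → n) → Finset (l × n)) := by
  intro f g h
  funext i
  have h1 : (i, f i) ∈ md1b_gr f := (md1b_mem_gr f _).2 rfl
  rw [h] at h1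
  exact ((md1b_mem_gr g _).1 h1).symm

private theorem md1b_gr_iff (s : Finset (l × n)) :
    (∑ p ∈ s, Finsupp.single p.1 1 : l →₀ ℕ) = ∑ i, Finsupp.single i 1 ↔
      ∃ f : l → n, md1b_gr f = s := by
  constructor
  · intro h
    have h1 : ∀ i : l, (s.filter fun p => p.1 = i).card = 1 := by
      intro i
      have h2 := DFunLike.congr_fun h i
      rw [Finsupp.finsetSum_apply, Finsupp.finsetSum_apply] at h2
      simp only [Finsupp.single_apply] at h2
      rw [Finset.sum_boole, Finset.sum_boole] at h2
      simp only [Nat.cast_id] at h2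
      rw [h2]
      rw [Finset.card_eq_one]
      exact ⟨i, by ext j; simp⟩
    have h3 : ∀ i : l, ∃ a : n, (s.filter fun p => p.1 = i) = {(i, a)} := by
      intro i
      obtain ⟨p, hp⟩ := Finset.card_eq_one.1 (h1 i)
      have h4 : p ∈ s.filter fun p => p.1 = i := by
        rw [hp]
        exact Finset.mem_singleton_self p
      have h5 := (Finset.mem_filter.1 h4).2
      refine ⟨p.2, ?_⟩
      rw [hp, ← h5]
    choose f hf using h3
    refine ⟨f, ?_⟩
    ext p
    rw [md1b_mem_gr]
    have h6 : p ∈ s ↔ p ∈ s.filter fun q => q.1 = p.1 := by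
      simp
    rw [h6, hf p.1, Finset.mem_singleton]
    constructor
    · intro h7
      exact Prod.ext rfl h7.symm
    · intro h7
      exact (congrArg Prod.snd h7).symm
  · rintro ⟨f, rfl⟩
    unfold md1b_gr
    rw [Finset.sum_image]
    intro i _ j _ hij
    exact congrArg Prod.fst hij

/-- The mixed discriminant is a coefficient of `det (1 + ∑ X_i B_i)`. Expand the determinant:
`det (1 + Y) = ∑_{s ⊆ n} det (Y restricted to s)`; the coefficient of `∏ X_i` in the minor of `s`
is the sum over bijections `f : l → s`. Non injective `f` give a determinant with two equal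
columns. -/
theorem mixD_eq_coeff (B : l → Matrix n n R) :
    mixD B = MvPolynomial.coeff (∑ i, Finsupp.single i 1)
      (Matrix.det (1 + ∑ i : l, (MvPolynomial.X i : MvPolynomial l R) •
        (B i).map (MvPolynomial.C : R →+* MvPolynomial l R))) := by
  rw [md1b_wa, md1b_det_one_add, MvPolynomial.coeff_sum]
  have key : ∀ s : Finset (l × n), MvPolynomial.coeff (∑ i, Finsupp.single i 1)
      (Matrix.det (md1b_pw s (Matrix.of fun p q : l × n =>
        (MvPolynomial.X p.1 : MvPolynomial l R) *
        ((B p.1).map (MvPolynomial.C : R →+* MvPolynomial l R)) p.2 q.2))) =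
      if (∑ p ∈ s, Finsupp.single p.1 1 : l →₀ ℕ) = ∑ i, Finsupp.single i 1 then
        Matrix.det (md1b_pw s (Matrix.of fun p q : l × n => B p.1 p.2 q.2)) else 0 := by
    intro s
    have e1 : (Matrix.of fun p q : l × n => (MvPolynomial.X p.1 : MvPolynomial l R) *
        ((B p.1).map (MvPolynomial.C : R →+* MvPolynomial l R)) p.2 q.2) =
        Matrix.of fun p q : l × n => (fun p : l × n => (MvPolynomial.X p.1 : MvPolynomial l R)) p *
          ((Matrix.of fun p q : l × n => B p.1 p.2 q.2).map
            (MvPolynomial.C : R →+* MvPolynomial l R)) p q := by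
      rfl
    rw [e1, md1b_row_mul, md1b_map]
    have e2 : (∏ p ∈ s, (MvPolynomial.X p.1 : MvPolynomial l R)) =
        MvPolynomial.monomial (∑ p ∈ s, Finsupp.single p.1 1) 1 := by
      rw [MvPolynomial.monomial_sum_one]
      rfl
    rw [e2, mul_comm, MvPolynomial.coeff_C_mul, MvPolynomial.coeff_monomial]
    split_ifs
    · rw [mul_one]
    · rw [mul_zero]
  rw [Finset.sum_congr rfl fun s _ => key s, ← Finset.sum_filter]
  have himg : (Finset.univ.filter fun s : Finset (l × n) =>
      (∑ p ∈ s, Finsupp.single p.1 1 : l →₀ ℕ) = ∑ i, Finsupp.single i 1) =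
      Finset.univ.image (md1b_gr : (l → n) → Finset (l × n)) := by
    ext s
    rw [Finset.mem_filter, md1b_gr_iff]
    simp
  rw [himg, Finset.sum_image md1b_gr_inj.injOn]
  unfold mixD
  refine Finset.sum_congr rfl fun f _ => ?_
  rw [md1b_det_gr]
  rfl

end Pool.Agent.MP_d8b6c2_an
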