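import Mathlib
import Pool.Agent.Lib.MP_d8b6c2_an.MD1

/-! Further properties of the mixed discriminant. -/

namespace Pool.Agent.MP_d8b6c2_an

open Finset

variable {R : Type*} [CommRing R]
variable {l n : Type*} [Fintype l] [DecidableEq l] [Fintype n] [DecidableEq n]

/-- invariance under conjugation, from `mixD_eq_coeff` and `det (1 + X Z Y) = det (1 + Z Y X)` -/
theorem mixD_conj (B : l → Matrix n n R) {n' : Type*} [Fintype n'] [DecidableEq n']
    (X : Matrix n' n R) (Y : Matrix n n' R) (h : Y * X = 1) :
    mixD (fun i => X * B i * Y) = mixD B := by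
  rw [mixD_eq_coeff, mixD_eq_coeff]
  congr 1
  have hYX : (Y.map (MvPolynomial.C : R →+* MvPolynomial l R)) *
      X.map (MvPolynomial.C : R →+* MvPolynomial l R) = (1 : Matrix n n (MvPolynomial l R)) := by
    rw [← Matrix.map_mul, h]
    exact Matrix.map_one _ (map_zero _) (map_one _)
  have e : (∑ i : l, (MvPolynomial.X i : MvPolynomial l R) •
        (X * B i * Y).map (MvPolynomial.C : R →+* MvPolynomial l R))
      = X.map (MvPolynomial.C : R →+* MvPolynomial l R) * ((∑ i : l, (MvPolynomial.X i : MvPolynomial l R) •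
        (B i).map (MvPolynomial.C : R →+* MvPolynomial l R)) *
          Y.map (MvPolynomial.C : R →+* MvPolynomial l R)) := by
    rw [Matrix.sum_mul, Matrix.mul_sum]
    refine Finset.sum_congr rfl fun i _ => ?_
    rw [Matrix.map_mul, Matrix.map_mul, Matrix.smul_mul, Matrix.mul_smul, Matrix.mul_assoc]
  rw [e, Matrix.det_one_add_mul_comm, Matrix.mul_assoc, hYX, Matrix.mul_one]

private theorem md2a_idx {l' : Type*} (u s : l →₀ ℕ) (v t : l' →₀ ℕ) :
    u.mapDomain (Sum.inl : l → l ⊕ l') + v.mapDomain Sum.inr
      = s.mapDomain Sum.inl + t.mapDomain Sum.inr ↔ u = s ∧ v = t := by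
  constructor
  · intro h
    constructor
    · ext i
      have := DFunLike.congr_fun h (Sum.inl i)
      simpa [Finsupp.mapDomain_apply Sum.inl_injective, Finsupp.mapDomain_of_notMem_range] using this
    · ext i
      have := DFunLike.congr_fun h (Sum.inr i)
      simpa [Finsupp.mapDomain_apply Sum.inr_injective, Finsupp.mapDomain_of_notMem_range] using this
  · rintro ⟨rfl, rfl⟩
    rfl

private theorem md2a_coeff {l' : Type*} (p : MvPolynomial l R) (q : MvPolynomial l' R)
    (s : l →₀ ℕ) (t : l' →₀ ℕ) :
    MvPolynomial.coeff (s.mapDomain (Sum.inl : l → l ⊕ l') + t.mapDomain Sum.inr)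
      (MvPolynomial.rename Sum.inl p * MvPolynomial.rename Sum.inr q)
      = MvPolynomial.coeff s p * MvPolynomial.coeff t q := by
  classical
  induction p using MvPolynomial.induction_on' with
  | add p p' hp hp' => rw [map_add, add_mul, MvPolynomial.coeff_add, hp, hp',
      MvPolynomial.coeff_add, add_mul]
  | monomial u a =>
    induction q using MvPolynomial.induction_on' with
    | add q q' hq hq' => rw [map_add, mul_add, MvPolynomial.coeff_add, hq, hq',
        MvPolynomial.coeff_add, mul_add]
    | monomial v b =>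
      rw [MvPolynomial.rename_monomial, MvPolynomial.rename_monomial,
        MvPolynomial.monomial_mul, MvPolynomial.coeff_monomial, MvPolynomial.coeff_monomial,
        MvPolynomial.coeff_monomial]
      by_cases h1 : u = s
      · by_cases h2 : v = t
        · rw [if_pos ((md2a_idx u s v t).2 ⟨h1, h2⟩), if_pos h1, if_pos h2]
        · rw [if_neg (fun h => h2 ((md2a_idx u s v t).1 h).2), if_neg h2, mul_zero]
      · rw [if_neg (fun h => h1 ((md2a_idx u s v t).1 h).1), if_neg h1, zero_mul]

private theorem md2a_ren {l' : Type*} (f : l → l') (B : l → Matrix n n R) :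
    MvPolynomial.rename f (Matrix.det (1 + ∑ i : l, (MvPolynomial.X i : MvPolynomial l R) •
        (B i).map (MvPolynomial.C : R →+* MvPolynomial l R)))
      = Matrix.det (1 + ∑ i : l, (MvPolynomial.X (f i) : MvPolynomial l' R) •
        (B i).map (MvPolynomial.C : R →+* MvPolynomial l' R)) := by
  rw [AlgHom.map_det]
  congr 1
  rw [map_add, map_one, map_sum]
  congr 1
  refine Finset.sum_congr rfl fun i _ => ?_
  ext a b
  simp

/-- if the products of members of the two families vanish then the mixed discriminant factors: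
`1 + Z + W = (1 + Z) (1 + W)` when `Z * W = 0`. -/
theorem mixD_sum (B : l → Matrix n n R) {l' : Type*} [Fintype l'] [DecidableEq l']
    (C : l' → Matrix n n R) (h : ∀ i j, B i * C j = 0) :
    mixD (Sum.elim B C) = mixD B * mixD C := by
  rw [mixD_eq_coeff, mixD_eq_coeff, mixD_eq_coeff, ← md2a_coeff]
  have hidx : (∑ i : l ⊕ l', Finsupp.single i 1 : (l ⊕ l') →₀ ℕ)
      = (∑ i : l, Finsupp.single i 1 : l →₀ ℕ).mapDomain Sum.inl
        + (∑ i : l', Finsupp.single i 1 : l' →₀ ℕ).mapDomain Sum.inr := by
    rw [Fintype.sum_sum_type, Finsupp.mapDomain_finset_sum, Finsupp.mapDomain_finset_sum]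
    simp [Finsupp.mapDomain_single]
  rw [hidx, md2a_ren, md2a_ren]
  congr 1
  rw [← Matrix.det_mul]
  congr 1
  rw [Fintype.sum_sum_type]
  simp only [Sum.elim_inl, Sum.elim_inr]
  have hz : (∑ i : l, (MvPolynomial.X (Sum.inl i) : MvPolynomial (l ⊕ l') R) •
        (B i).map (MvPolynomial.C : R →+* MvPolynomial (l ⊕ l') R))
      * (∑ i : l', (MvPolynomial.X (Sum.inr i) : MvPolynomial (l ⊕ l') R) •
        (C i).map (MvPolynomial.C : R →+* MvPolynomial (l ⊕ l') R)) = 0 := by
    rw [Matrix.sum_mul]
    refine Finset.sum_eq_zero fun i _ => ?_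
    rw [Matrix.mul_sum]
    refine Finset.sum_eq_zero fun j _ => ?_
    rw [Matrix.smul_mul, Matrix.mul_smul, ← Matrix.map_mul, h i j]
    simp
  rw [add_mul, mul_add, mul_add, one_mul, mul_one, one_mul, hz, add_zero]
  abel

end Pool.Agent.MP_d8b6c2_an
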