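import Mathlib
import Pool.Agent.Lib.MP_d8b6c2_an.MD1
import Pool.Agent.Lib.MP_d8b6c2_an.MD2a

/-! Further properties of the mixed discriminant. -/

namespace Pool.Agent.MP_d8b6c2_an

open Finset

variable {R : Type*} [CommRing R]
variable {l n : Type*} [Fintype l] [DecidableEq l] [Fintype n] [DecidableEq n]

private theorem md2b_eps_mul (x : DualNumber R) :
    (DualNumber.eps : DualNumber R) * x
      = DualNumber.eps * TrivSqZeroExt.inlHom R R (TrivSqZeroExt.fst x) := by
  ext <;> simp

private theorem md2b_step (B C : l → Matrix n n R) (T : Finset l) :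
    mixD (fun i => if i ∈ T then (B i).map (TrivSqZeroExt.inlHom R R)
        + (DualNumber.eps : DualNumber R) • (C i).map (TrivSqZeroExt.inlHom R R)
        else (B i).map (TrivSqZeroExt.inlHom R R))
      = TrivSqZeroExt.inlHom R R (mixD B) + (DualNumber.eps : DualNumber R) *
        TrivSqZeroExt.inlHom R R (∑ i ∈ T, mixD (Function.update B i (C i))) := by
  induction T using Finset.induction_on with
  | empty =>
    simp only [Finset.notMem_empty, if_false, Finset.sum_empty, map_zero, mul_zero, add_zero]
    exact (mixD_map _ B).symm
  | insert j T hj ih =>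
    set g : l → Matrix n n (DualNumber R) := fun i => if i ∈ T then
      (B i).map (TrivSqZeroExt.inlHom R R)
        + (DualNumber.eps : DualNumber R) • (C i).map (TrivSqZeroExt.inlHom R R)
        else (B i).map (TrivSqZeroExt.inlHom R R) with hg
    have h1 : (fun i => if i ∈ insert j T then (B i).map (TrivSqZeroExt.inlHom R R)
        + (DualNumber.eps : DualNumber R) • (C i).map (TrivSqZeroExt.inlHom R R)
        else (B i).map (TrivSqZeroExt.inlHom R R))
        = Function.update g j ((B j).map (TrivSqZeroExt.inlHom R R)
        + (DualNumber.eps : DualNumber R) • (C j).map (TrivSqZeroExt.inlHom R R)) := by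
      funext i
      by_cases hij : i = j
      · subst hij
        rw [Function.update_self, if_pos (Finset.mem_insert_self _ _)]
      · rw [Function.update_of_ne hij, hg]
        simp only [Finset.mem_insert, hij, false_or]
    have h2 : Function.update g j ((B j).map (TrivSqZeroExt.inlHom R R)) = g := by
      rw [Function.update_eq_self_iff, hg]
      simp only [hj, if_false]
    rw [h1, mixD_update_add, mixD_update_smul, h2, ih, md2b_eps_mul (mixD (Function.update g j _)),
      Finset.sum_insert hj, map_add, mul_add]
    have h3 : TrivSqZeroExt.fst (mixD (Function.update g j ((C j).map (TrivSqZeroExt.inlHom R R))))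
        = mixD (Function.update B j (C j)) := by
      have h4 := mixD_map (TrivSqZeroExt.fstHom R R R).toRingHom
        (Function.update g j ((C j).map (TrivSqZeroExt.inlHom R R)))
      have h5 : (fun i => ((Function.update g j ((C j).map (TrivSqZeroExt.inlHom R R))) i).map
          (TrivSqZeroExt.fstHom R R R).toRingHom) = Function.update B j (C j) := by
        funext i
        by_cases hij : i = j
        · subst hij
          rw [Function.update_self, Function.update_self]
          ext a b
          simp
        · rw [Function.update_of_ne hij, Function.update_of_ne hij, hg]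
          ext a b
          by_cases hiT : i ∈ T
          · simp [hiT]
          · simp [hiT]
      rw [h5] at h4
      exact h4
    rw [h3]
    ring

/-- infinitesimal invariance: apply `mixD_conj` over the dual numbers `R[ε]` with
`X = 1 + ε A`, `Y = 1 - ε A` -/
theorem mixD_inf (B : l → Matrix n n R) (A : Matrix n n R) :
    ∑ i, mixD (Function.update B i (A * B i - B i * A)) = 0 := by
  set φ := TrivSqZeroExt.inlHom R R with hφ
  have hee : (DualNumber.eps : DualNumber R) * DualNumber.eps = 0 := DualNumber.eps_mul_eps
  have hYX : (1 - (DualNumber.eps : DualNumber R) • A.map φ) *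
      (1 + (DualNumber.eps : DualNumber R) • A.map φ) = 1 := by
    have hN : ((DualNumber.eps : DualNumber R) • A.map φ) *
        ((DualNumber.eps : DualNumber R) • A.map φ) = 0 := by
      rw [smul_mul_smul_comm, hee, zero_smul]
    rw [sub_mul, one_mul, mul_add, mul_one, hN]
    abel
  have hc := mixD_conj (fun i => (B i).map φ) (1 + (DualNumber.eps : DualNumber R) • A.map φ)
    (1 - (DualNumber.eps : DualNumber R) • A.map φ) hYX
  have hs := md2b_step B (fun i => A * B i - B i * A) Finset.univ
  have he : (fun i => (1 + (DualNumber.eps : DualNumber R) • A.map φ) * (B i).map φ *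
      (1 - (DualNumber.eps : DualNumber R) • A.map φ))
      = (fun i => if i ∈ (Finset.univ : Finset l) then (B i).map (TrivSqZeroExt.inlHom R R)
        + (DualNumber.eps : DualNumber R) • (A * B i - B i * A).map (TrivSqZeroExt.inlHom R R)
        else (B i).map (TrivSqZeroExt.inlHom R R)) := by
    funext i
    rw [if_pos (Finset.mem_univ i), ← hφ]
    have h6 : (A * B i - B i * A).map φ = A.map φ * (B i).map φ - (B i).map φ * A.map φ := by
      rw [Matrix.map_sub _ (by intro a b; exact map_sub φ a b), Matrix.map_mul, Matrix.map_mul]
    rw [h6]
    have hN : (((DualNumber.eps : DualNumber R) • A.map φ) * (B i).map φ) *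
        ((DualNumber.eps : DualNumber R) • A.map φ) = 0 := by
      rw [smul_mul_assoc, smul_mul_smul_comm, hee, zero_smul]
    rw [add_mul, one_mul, mul_sub, mul_one, add_mul, hN, smul_mul_assoc, mul_smul_comm, smul_sub]
    abel
  rw [he, hs, ← mixD_map φ B] at hc
  have h7 : (DualNumber.eps : DualNumber R) *
      φ (∑ i, mixD (Function.update B i (A * B i - B i * A))) = 0 := by
    have := hc
    rwa [add_eq_left] at this
  have h8 := congrArg TrivSqZeroExt.snd h7
  rw [hφ, TrivSqZeroExt.inlHom_apply, TrivSqZeroExt.snd_mul] at h8
  simpa using h8

/-- expansion of one argument in matrix units -/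
theorem mixD_update_eq_sum (B : l → Matrix n n R) (i : l) (X : Matrix n n R) :
    mixD (Function.update B i X) =
      ∑ a, ∑ b, X a b * mixD (Function.update B i (Matrix.single a b 1)) := by
  have h : ∀ Y, mixD (Function.update B i Y) = (mixDL R l n).toLinearMap B i Y := by
    intro Y
    rw [MultilinearMap.toLinearMap_apply, mixDL_apply]
  rw [h X]
  conv_lhs => rw [Matrix.matrix_eq_sum_single X]
  rw [map_sum]
  refine Finset.sum_congr rfl fun a _ => ?_
  rw [map_sum]
  refine Finset.sum_congr rfl fun b _ => ?_
  rw [h, ← smul_eq_mul, ← map_smul, Matrix.smul_single, smul_eq_mul, mul_one]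

end Pool.Agent.MP_d8b6c2_an
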