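import Mathlib
import Pool.Agent.Lib.MP_d8b6c2_an.MD1
import Pool.Agent.Lib.MP_d8b6c2_an.MD2b

/-! Further properties of the mixed discriminant. -/

namespace Pool.Agent.MP_d8b6c2_an

open Finset

variable {R : Type*} [CommRing R]
variable {l n : Type*} [Fintype l] [DecidableEq l] [Fintype n] [DecidableEq n]

variable [Algebra ℂ R]

/-- An idempotent complex matrix of rank `r` in diagonal form: there are `G, G'` with
`G' * G = 1 = G * G'` and `Q = G * diag * G'`. More generally for two nested commuting
idempotents see `exists_basis2`. -/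
theorem exists_basis (Q : Matrix n n ℂ) (hQ : Q * Q = Q) :
    ∃ (G G' : Matrix n n ℂ) (s : Finset n), G * G' = 1 ∧ G' * G = 1 ∧
      s.card = Q.rank ∧ Q = G * Matrix.diagonal (fun a => if a ∈ s then 1 else 0) * G' := by
  classical
  set f : (n → ℂ) →ₗ[ℂ] (n → ℂ) := Matrix.toLin' Q with hf
  have hff : f ∘ₗ f = f := by
    rw [hf, ← Matrix.toLin'_mul, hQ]
  have hid : ∀ x, f (f x) = f x := fun x => by
    have := congrArg (fun g => g x) hff
    simpa using this
  have hc : IsCompl (LinearMap.range f) (LinearMap.ker f) := by
    constructor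
    · rw [Submodule.disjoint_def]
      rintro x ⟨y, rfl⟩ hx
      rw [LinearMap.mem_ker, hid] at hx
      exact hx
    · rw [codisjoint_iff, Submodule.eq_top_iff']
      intro x
      rw [Submodule.mem_sup]
      refine ⟨f x, ⟨x, rfl⟩, x - f x, ?_, by abel⟩
      rw [LinearMap.mem_ker, map_sub, hid, sub_self]
  let b1 := Module.finBasis ℂ (LinearMap.range f)
  let b2 := Module.finBasis ℂ (LinearMap.ker f)
  let e := Submodule.prodEquivOfIsCompl _ _ hc
  let b := (b1.prod b2).map e
  have hcard : Fintype.card (Fin (Module.finrank ℂ (LinearMap.range f)) ⊕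
      Fin (Module.finrank ℂ (LinearMap.ker f))) = Fintype.card n := by
    rw [← Module.finrank_eq_card_basis b, Module.finrank_fintype_fun_eq_card]
  let ε := Fintype.equivOfCardEq hcard
  let b' := b.reindex ε
  let st := Pi.basisFun ℂ n
  refine ⟨st.toMatrix b', b'.toMatrix st,
    (univ : Finset (Fin (Module.finrank ℂ (LinearMap.range f)))).map
      (Function.Embedding.inl.trans ε.toEmbedding), ?_, ?_, ?_, ?_⟩
  · exact Module.Basis.toMatrix_mul_toMatrix_flip st b'
  · exact Module.Basis.toMatrix_mul_toMatrix_flip b' st
  · rw [Finset.card_map, Finset.card_univ, Fintype.card_fin]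
    rw [Matrix.rank, ← Matrix.toLin'_apply']
  · have h1 : LinearMap.toMatrix b' b' f =
        Matrix.diagonal (fun a => if a ∈ (univ : Finset (Fin (Module.finrank ℂ
          (LinearMap.range f)))).map (Function.Embedding.inl.trans ε.toEmbedding)
          then (1 : ℂ) else 0) := by
      ext i j
      rw [LinearMap.toMatrix_apply, Matrix.diagonal_apply]
      obtain ⟨j', rfl⟩ := ε.surjective j
      have hb' : b' (ε j') = b j' := by simp [b']
      rw [hb']
      rcases j' with j' | j'
      · have h2 : f (b (Sum.inl j')) = b (Sum.inl j') := by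
          have h3 : b (Sum.inl j') ∈ LinearMap.range f := by
            simp [b, e]
          obtain ⟨y, hy⟩ := h3
          rw [← hy, hid]
        rw [h2, ← hb', Module.Basis.repr_self, Finsupp.single_apply]
        by_cases hij : ε (Sum.inl j') = i
        · rw [if_pos hij, if_pos hij.symm, if_pos]
          rw [← hij]
          simp
        · rw [if_neg hij, if_neg (fun h => hij h.symm)]
      · have h2 : f (b (Sum.inr j')) = 0 := by
          have h3 : b (Sum.inr j') ∈ LinearMap.ker f := by
            simp [b, e]
          exact h3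
        rw [h2]
        by_cases hij : i = ε (Sum.inr j')
        · rw [if_pos hij, if_neg]
          · simp
          · rw [hij]
            simp
        · rw [if_neg hij]
          simp
    rw [← h1]
    have h4 := basis_toMatrix_mul_linearMap_toMatrix_mul_basis_toMatrix st b' st b' f
    rw [h4]
    rw [hf, LinearMap.toMatrix_eq_toMatrix', LinearMap.toMatrix'_toLin']

theorem md2c_det_zero (B : l → Matrix n n R) (f : l → n) (hf : ¬ Function.Injective f) :
    Matrix.det (Matrix.of fun i j => B i (f i) (f j)) = 0 := by
  rw [Function.Injective] at hf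
  push Not at hf
  obtain ⟨i, j, hij, hne⟩ := hf
  refine Matrix.det_zero_of_column_eq hne ?_
  intro k
  simp [hij]

theorem md2c_diag (t : Finset n) :
    (Matrix.diagonal (fun a => if a ∈ t then (1 : ℂ) else 0)).map (algebraMap ℂ R) =
      Matrix.diagonal (fun a => if a ∈ t then (1 : R) else 0) := by
  ext i j
  rw [Matrix.map_apply, Matrix.diagonal_apply, Matrix.diagonal_apply]
  split_ifs <;> simp

theorem md2c_conj (B : l → Matrix n n R) (G G' : Matrix n n ℂ) (h : G * G' = 1) :
    mixD (fun i => cmat G' * B i * cmat G) = mixD B := by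
  refine mixD_conj B (cmat G' : Matrix n n R) (cmat G) ?_
  rw [cmat, cmat, ← Matrix.map_mul, h]
  simp

/-- more than `rank Q` of the matrices have range in the range of the idempotent `Q` -/
theorem mixD_rank (B : l → Matrix n n R) (Q : Matrix n n ℂ) (hQ : Q * Q = Q)
    (s : Finset l) (hs : Q.rank < s.card) (hB : ∀ i ∈ s, cmat Q * B i = B i) :
    mixD B = 0 := by
  classical
  obtain ⟨G, G', t, h1, h2, h3, h4⟩ := exists_basis Q hQ
  rw [← md2c_conj B G G' h1]
  set C : l → Matrix n n R := fun i => cmat G' * B i * cmat G with hC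
  have hrow : ∀ i ∈ s, ∀ a, a ∉ t → ∀ b, C i a b = 0 := by
    intro i hi a ha b
    have h5 : C i = Matrix.diagonal (fun a => if a ∈ t then (1 : R) else 0) * C i := by
      have h6 : (cmat Q : Matrix n n R) = cmat G *
          Matrix.diagonal (fun a => if a ∈ t then (1 : R) else 0) * cmat G' := by
        rw [h4]
        simp only [cmat, Matrix.map_mul]
        rw [md2c_diag]
      have h7 : (cmat G' : Matrix n n R) * cmat G = 1 := by
        rw [cmat, cmat, ← Matrix.map_mul, h2]
        simp
      calc C i = cmat G' * (cmat Q * B i) * cmat G := by rw [hB i hi]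
        _ = (cmat G' * cmat G) * Matrix.diagonal (fun a => if a ∈ t then (1 : R) else 0) *
            (cmat G' * B i * cmat G) := by
          rw [h6]
          simp only [Matrix.mul_assoc]
        _ = _ := by rw [h7, Matrix.one_mul]
    rw [h5, Matrix.diagonal_mul, if_neg ha, zero_mul]
  rw [mixD]
  refine Finset.sum_eq_zero fun f _ => ?_
  by_cases hf : Function.Injective f
  · have : ∃ i ∈ s, f i ∉ t := by
      by_contra hcon
      push Not at hcon
      have h8 : (s.image f) ⊆ t := by
        intro a ha
        rw [Finset.mem_image] at ha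
        obtain ⟨i, hi, rfl⟩ := ha
        exact hcon i hi
      have h9 := Finset.card_le_card h8
      rw [Finset.card_image_of_injective _ hf, h3] at h9
      omega
    obtain ⟨i, hi, hfi⟩ := this
    refine Matrix.det_eq_zero_of_row_eq_zero i fun j => ?_
    rw [Matrix.of_apply]
    exact hrow i hi _ hfi _
  · exact md2c_det_zero C f hf

/-- value on copies of one idempotent of rank `card l` -/
theorem mixD_idem (Q : Matrix n n ℂ) (hQ : Q * Q = Q) (hr : Q.rank = Fintype.card l) :
    mixD (fun _ : l => (cmat Q : Matrix n n R)) = (Nat.factorial (Fintype.card l) : R) := by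
  classical
  obtain ⟨G, G', t, h1, h2, h3, h4⟩ := exists_basis Q hQ
  rw [← md2c_conj _ G G' h1]
  have h6 : (cmat G' * cmat Q * cmat G : Matrix n n R) =
      Matrix.diagonal (fun a => if a ∈ t then (1 : R) else 0) := by
    have h7 : (cmat G' * cmat Q * cmat G : Matrix n n R) = cmat (G' * Q * G) := by
      simp only [cmat, Matrix.map_mul]
    rw [h7]
    have h8 : G' * Q * G = Matrix.diagonal (fun a => if a ∈ t then (1 : ℂ) else 0) := by
      rw [h4]
      calc G' * (G * Matrix.diagonal (fun a => if a ∈ t then (1 : ℂ) else 0) * G') * G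
          = (G' * G) * Matrix.diagonal (fun a => if a ∈ t then (1 : ℂ) else 0) * (G' * G) := by
            simp only [Matrix.mul_assoc]
        _ = _ := by rw [h2, Matrix.one_mul, Matrix.mul_one]
    rw [h8, cmat, md2c_diag]
  simp only [h6]
  rw [mixD]
  have h9 : ∀ f : l → n, Matrix.det (Matrix.of fun i j =>
      (Matrix.diagonal (fun a => if a ∈ t then (1 : R) else 0)) (f i) (f j)) =
      if (Function.Injective f ∧ ∀ i, f i ∈ t) then 1 else 0 := by
    intro f
    split_ifs with h
    · have : (Matrix.of fun i j =>
          (Matrix.diagonal (fun a => if a ∈ t then (1 : R) else 0)) (f i) (f j)) =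
          (1 : Matrix l l R) := by
        ext i j
        rw [Matrix.of_apply, Matrix.diagonal_apply, Matrix.one_apply, if_pos (h.2 i)]
        simp only [h.1.eq_iff]
      rw [this, Matrix.det_one]
    · rw [not_and_or] at h
      rcases h with h | h
      · exact md2c_det_zero (fun _ => Matrix.diagonal (fun a => if a ∈ t then (1 : R) else 0)) f h
      · push Not at h
        obtain ⟨i, hi⟩ := h
        refine Matrix.det_eq_zero_of_row_eq_zero i fun j => ?_
        rw [Matrix.of_apply, Matrix.diagonal_apply, if_neg hi]
        simp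
  rw [Finset.sum_congr rfl fun f _ => h9 f, Finset.sum_boole]
  congr 1
  have h10 : (univ.filter fun f : l → n => Function.Injective f ∧ ∀ i, f i ∈ t).card =
      Fintype.card (l ↪ t) := by
    rw [← Finset.card_univ]
    symm
    refine Finset.card_bij (fun (g : l ↪ t) _ => fun i => (g i : n)) ?_ ?_ ?_
    · intro g _
      rw [Finset.mem_filter]
      exact ⟨Finset.mem_univ _, Subtype.val_injective.comp g.injective, fun i => (g i).2⟩
    · intro g _ g' _ h
      ext i
      exact congrFun h i
    · intro f hf
      rw [Finset.mem_filter] at hf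
      refine ⟨⟨fun i => ⟨f i, hf.2.2 i⟩, fun i j hij => ?_⟩, Finset.mem_univ _, rfl⟩
      exact hf.2.1 (congrArg Subtype.val hij)
  rw [h10, Fintype.card_embedding_eq, Fintype.card_coe, h3, hr, Nat.descFactorial_self]

end Pool.Agent.MP_d8b6c2_an
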