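import Mathlib
import Pool.Agent.Lib.MP_d8b6c2_an.MD1
import Pool.Agent.Lib.MP_d8b6c2_an.MD2c

/-! Further properties of the mixed discriminant. -/

namespace Pool.Agent.MP_d8b6c2_an

open Finset

variable {R : Type*} [CommRing R]
variable {l n : Type*} [Fintype l] [DecidableEq l] [Fintype n] [DecidableEq n]

variable [Algebra ℂ R]

/-- a basis of a space extending a linearly independent family -/
theorem md2d_ext {W : Type*} [AddCommGroup W] [Module ℂ W] [FiniteDimensional ℂ W] {r0 : ℕ}
    (v : Fin r0 → W) (hv : LinearIndependent ℂ v) :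
    ∃ (k : ℕ) (b : Module.Basis (Fin r0 ⊕ Fin k) ℂ W), ∀ i, b (Sum.inl i) = v i := by
  obtain ⟨C, hC⟩ := Submodule.exists_isCompl (Submodule.span ℂ (Set.range v))
  refine ⟨Module.finrank ℂ C, ((Module.Basis.span hv).prod (Module.finBasis ℂ C)).map
    (Submodule.prodEquivOfIsCompl _ _ hC), ?_⟩
  intro i
  rw [Module.Basis.map_apply, Module.Basis.prod_apply]
  simp [Submodule.coe_prodEquivOfIsCompl', Module.Basis.span_apply]

theorem md2d_basis (Q : Matrix n n ℂ) (hQ : Q * Q = Q) {r0 : ℕ}
    (J0 : Matrix n (Fin r0) ℂ) (hJ : J0.conjTranspose * J0 = 1) (hQJ : Q * J0 = J0) :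
    ∃ (k m : ℕ) (G : Matrix n ((Fin r0 ⊕ Fin k) ⊕ Fin m) ℂ)
      (G' : Matrix ((Fin r0 ⊕ Fin k) ⊕ Fin m) n ℂ), G * G' = 1 ∧ G' * G = 1 ∧
      (∀ a i, G a (Sum.inl (Sum.inl i)) = J0 a i) ∧ (∀ x a, (G' * Q) (Sum.inr x) a = 0) ∧
      r0 + k = Q.rank := by
  classical
  set f : (n → ℂ) →ₗ[ℂ] (n → ℂ) := Q.mulVecLin with hf
  have hff : IsIdempotentElem f := by
    show f * f = f
    rw [hf, Module.End.mul_eq_comp, ← Matrix.mulVecLin_mul, hQ]
  have hcompl := LinearMap.IsIdempotentElem.isCompl hff
  have hcol : ∀ i, J0.col i ∈ LinearMap.range f := by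
    intro i
    refine ⟨J0.col i, ?_⟩
    rw [hf, Matrix.mulVecLin_apply]
    have := congrFun (congrArg Matrix.transpose hQJ) i
    ext a
    have h2 := congrFun this a
    simpa [Matrix.mul_apply, Matrix.mulVec, dotProduct] using h2
  have hv0 : LinearIndependent ℂ J0.col := by
    rw [← Matrix.mulVec_injective_iff]
    intro x y hxy
    have := congrArg (fun z => J0.conjTranspose.mulVec z) hxy
    simpa [Matrix.mulVec_mulVec, hJ] using this
  let v : Fin r0 → LinearMap.range f := fun i => ⟨J0.col i, hcol i⟩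
  have hv : LinearIndependent ℂ v := by
    apply LinearIndependent.of_comp (LinearMap.range f).subtype
    exact hv0
  obtain ⟨k, b1, hb1⟩ := md2d_ext v hv
  let m := Module.finrank ℂ (LinearMap.ker f)
  let b2 : Module.Basis (Fin m) ℂ (LinearMap.ker f) := Module.finBasis ℂ _
  let b : Module.Basis ((Fin r0 ⊕ Fin k) ⊕ Fin m) ℂ (n → ℂ) :=
    (b1.prod b2).map (Submodule.prodEquivOfIsCompl _ _ hcompl)
  have hbl : ∀ x, b (Sum.inl x) = (b1 x : n → ℂ) := by
    intro x
    rw [Module.Basis.map_apply, Module.Basis.prod_apply]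
    simp [Submodule.coe_prodEquivOfIsCompl']
  have hbr : ∀ x, b (Sum.inr x) = (b2 x : n → ℂ) := by
    intro x
    rw [Module.Basis.map_apply, Module.Basis.prod_apply]
    simp [Submodule.coe_prodEquivOfIsCompl']
  let e := Pi.basisFun ℂ n
  let G0 : Matrix n ((Fin r0 ⊕ Fin k) ⊕ Fin m) ℂ := e.toMatrix b
  let G1 : Matrix ((Fin r0 ⊕ Fin k) ⊕ Fin m) n ℂ := b.toMatrix e
  let Dg : Matrix ((Fin r0 ⊕ Fin k) ⊕ Fin m) ((Fin r0 ⊕ Fin k) ⊕ Fin m) ℂ :=
    Matrix.diagonal (Sum.elim (fun _ => (1 : ℂ)) (fun _ => 0))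
  have hG0 : ∀ c y, G0 c y = b y c := by
    intro c y
    simp [G0, e, Module.Basis.toMatrix_apply]
  have hGG' : G0 * G1 = 1 := e.toMatrix_mul_toMatrix_flip b
  have hG'G : G1 * G0 = 1 := b.toMatrix_mul_toMatrix_flip e
  refine ⟨k, m, G0, G1, hGG', hG'G, ?_, ?_, ?_⟩
  · intro a i
    rw [hG0, hbl, hb1]
    rfl
  · intro x a
    have hQG : Q * G0 = G0 * Dg := by
      apply Matrix.ext
      intro c y
      have h0 : (G0 * Dg : Matrix n ((Fin r0 ⊕ Fin k) ⊕ Fin m) ℂ) c y =
          G0 c y * (Sum.elim (fun _ => (1 : ℂ)) (fun _ => 0) y) := Matrix.mul_diagonal _ _ _ _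
      have h1 : (Q * G0 : Matrix n ((Fin r0 ⊕ Fin k) ⊕ Fin m) ℂ) c y = (f (b y)) c := by
        rw [Matrix.mul_apply, hf, Matrix.mulVecLin_apply, Matrix.mulVec, dotProduct]
        exact Finset.sum_congr rfl fun j _ => by rw [hG0]
      refine h1.trans (Eq.trans ?_ h0.symm)
      rw [hG0]
      rcases y with y | y
      · have h3 : f (b (Sum.inl y)) = b (Sum.inl y) := by
          rw [hbl]
          exact (LinearMap.IsIdempotentElem.mem_range_iff hff).1 (b1 y).2
        rw [h3]
        simp
      · have h3 : f (b (Sum.inr y)) = 0 := by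
          rw [hbr]
          exact (LinearMap.mem_ker).1 (b2 y).2
        rw [h3]
        simp
    have h4 : G1 * Q = Dg * G1 := by
      calc G1 * Q = G1 * (Q * (G0 * G1)) := by rw [hGG', Matrix.mul_one]
        _ = G1 * ((Q * G0) * G1) := by rw [Matrix.mul_assoc Q]
        _ = (G1 * G0) * (Dg * G1) := by rw [hQG]; simp only [Matrix.mul_assoc]
        _ = Dg * G1 := by rw [hG'G, Matrix.one_mul]
    have h6 : (Dg * G1 : Matrix ((Fin r0 ⊕ Fin k) ⊕ Fin m) n ℂ) (Sum.inr x) a =
        (Sum.elim (fun _ => (1 : ℂ)) (fun _ => 0) (Sum.inr x : (Fin r0 ⊕ Fin k) ⊕ Fin m)) *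
          G1 (Sum.inr x) a := Matrix.diagonal_mul _ _ _ _
    have h7 : (G1 * Q : Matrix ((Fin r0 ⊕ Fin k) ⊕ Fin m) n ℂ) (Sum.inr x) a = 0 := by
      rw [h4]
      refine h6.trans ?_
      simp
    exact h7
  · have h5 : Module.finrank ℂ (LinearMap.range f) = Fintype.card (Fin r0 ⊕ Fin k) :=
      Module.finrank_eq_card_basis b1
    rw [Matrix.rank, ← hf, h5]
    simp

open Classical in
/-- The vanishing lemma for certified labels. `s` is the set of lines of the first piece
`Q` (idempotent of rank `s.card`), `J0` an isometry with range in the range of `Q`; the matrices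
of the first piece act on the range of `J0` as scalars `c i`, the other ones vanish there. If the
mixed discriminant is not zero then `c i ≠ 0` for at least `r0` of the `i ∈ s`.
Proof: choose a basis of `ℂ^n` whose first `r0` vectors are the columns of `J0`, the next ones
complete them to a basis of the range of `Q`, the remaining ones are a basis of the kernel of `Q`
(`mixD_conj`). In `∑_f det` only injective `f` with `f '' s` = the first `s.card` indices count
(the rows of `B i`, `i ∈ s`, outside the range of `Q` vanish). If fewer than `r0` of the `c i` are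
not zero there is `i ∈ s` with `c i = 0` such that `f i` is one of the first `r0` indices, and the
column `i` of the matrix `B_a (f a) (f b)` vanishes. -/
theorem mixD_cert (B : l → Matrix n n R) (Q : Matrix n n ℂ) (hQ : Q * Q = Q)
    (s : Finset l) (hs : Q.rank = s.card) (hB : ∀ i ∈ s, cmat Q * B i = B i)
    {r0 : ℕ} (J0 : Matrix n (Fin r0) ℂ) (hJ : J0.conjTranspose * J0 = 1) (hQJ : Q * J0 = J0)
    (c : l → R) (hc : ∀ i ∈ s, B i * cmat J0 = c i • (cmat J0 : Matrix n (Fin r0) R))
    (hc' : ∀ i ∉ s, B i * (cmat J0 : Matrix n (Fin r0) R) = 0) (h : mixD B ≠ 0) :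
    r0 ≤ (s.filter fun i => c i ≠ 0).card := by
  obtain ⟨k, m, G, G', hGG', hG'G, hGJ, hG'Q, hrk⟩ := md2d_basis Q hQ J0 hJ hQJ
  have hconj := mixD_conj B (cmat G' : Matrix _ _ R) (cmat G) (by
    have := congrArg (fun M => (cmat M : Matrix n n R)) hGG'
    simp only [cmat, Matrix.map_mul] at this
    simpa [cmat] using this)
  set B' : l → Matrix ((Fin r0 ⊕ Fin k) ⊕ Fin m) ((Fin r0 ⊕ Fin k) ⊕ Fin m) R :=
    fun i => (cmat G' : Matrix _ n R) * B i * (cmat G : Matrix n _ R) with hB'
  have hrow : ∀ i ∈ s, ∀ x y, B' i (Sum.inr x) y = 0 := by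
    intro i hi x y
    have e1 : B' i = (cmat (G' * Q) : Matrix _ n R) * (B i * (cmat G : Matrix n _ R)) := by
      simp only [hB']
      conv_lhs => rw [← hB i hi]
      simp only [cmat, Matrix.map_mul, Matrix.mul_assoc]
    rw [e1, Matrix.mul_apply]
    apply Finset.sum_eq_zero
    intro a _
    simp [cmat, hG'Q]
  have hG'J : G' * J0 = Matrix.of (fun y a => if y = Sum.inl (Sum.inl a) then (1 : ℂ) else 0) := by
    ext y a
    have h1 : (G' * J0) y a = (G' * G) y (Sum.inl (Sum.inl a)) := by
      simp [Matrix.mul_apply, hGJ]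
    rw [h1, hG'G, Matrix.one_apply, Matrix.of_apply]
  have hc2 : ∀ i ∈ s, (B i * (cmat J0 : Matrix n (Fin r0) R) : Matrix n (Fin r0) R) =
      c i • (cmat J0 : Matrix n (Fin r0) R) := fun i hi => hc i hi
  let P : l → Matrix ((Fin r0 ⊕ Fin k) ⊕ Fin m) (Fin r0) R := fun i =>
    (cmat G' : Matrix ((Fin r0 ⊕ Fin k) ⊕ Fin m) n R) * (B i * (cmat J0 : Matrix n (Fin r0) R))
  have hcolG : ∀ (i : l) (y : (Fin r0 ⊕ Fin k) ⊕ Fin m) (a : Fin r0),
      B' i y (Sum.inl (Sum.inl a)) = P i y a := by
    intro i y a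
    simp only [hB', P, Matrix.mul_assoc]
    simp only [Matrix.mul_apply, cmat, Matrix.map_apply, hGJ]
  have hcol : ∀ i ∈ s, ∀ (y : (Fin r0 ⊕ Fin k) ⊕ Fin m) (a : Fin r0),
      B' i y (Sum.inl (Sum.inl a)) = if y = Sum.inl (Sum.inl a) then c i else 0 := by
    intro i hi y a
    rw [hcolG]
    have e2 : (cmat G' : Matrix _ n R) * (cmat J0 : Matrix n (Fin r0) R) = cmat (G' * J0) := by
      simp only [cmat, Matrix.map_mul]
    have e3 : P i = c i • (cmat (G' * J0) : Matrix ((Fin r0 ⊕ Fin k) ⊕ Fin m) (Fin r0) R) := by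
      simp only [P]
      rw [hc2 i hi, Matrix.mul_smul, e2]
    rw [e3, Matrix.smul_apply, hG'J]
    simp only [cmat, Matrix.map_apply, Matrix.of_apply]
    split_ifs <;> simp
  have hcol' : ∀ i ∉ s, ∀ (y : (Fin r0 ⊕ Fin k) ⊕ Fin m) (a : Fin r0),
      B' i y (Sum.inl (Sum.inl a)) = 0 := by
    intro i hi y a
    rw [hcolG]
    have e3 : P i = 0 := by
      simp only [P]
      rw [hc' i hi, Matrix.mul_zero]
    rw [e3, Matrix.zero_apply]
  by_contra hlt
  push Not at hlt
  apply h
  rw [← hconj]
  show mixD B' = 0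
  unfold mixD
  apply Finset.sum_eq_zero
  intro f _
  by_cases hinj : Function.Injective f
  · by_cases hin : ∃ i ∈ s, ∃ x, f i = Sum.inr x
    · obtain ⟨i, hi, x, hx⟩ := hin
      apply Matrix.det_eq_zero_of_row_eq_zero i
      intro j
      simp only [Matrix.of_apply]
      rw [hx]
      exact hrow i hi x _
    · push Not at hin
      -- f maps s onto the inl indices
      have himg : s.image f = (Finset.univ : Finset (Fin r0 ⊕ Fin k)).image Sum.inl := by
        apply Finset.eq_of_subset_of_card_le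
        · intro z hz
          obtain ⟨i, hi, rfl⟩ := Finset.mem_image.1 hz
          rcases hfi : f i with y | y
          · exact Finset.mem_image.2 ⟨y, Finset.mem_univ _, rfl⟩
          · exact absurd hfi (hin i hi y)
        · rw [Finset.card_image_of_injective _ hinj,
            Finset.card_image_of_injective _ Sum.inl_injective]
          simp only [Finset.card_univ, Fintype.card_sum, Fintype.card_fin]
          omega
      -- for each a : Fin r0 there is i in s with f i = inl (inl a)
      have hex : ∀ a : Fin r0, ∃ i ∈ s, f i = Sum.inl (Sum.inl a) := by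
        intro a
        have : (Sum.inl (Sum.inl a) : (Fin r0 ⊕ Fin k) ⊕ Fin m) ∈ s.image f := by
          rw [himg]
          exact Finset.mem_image.2 ⟨_, Finset.mem_univ _, rfl⟩
        obtain ⟨i, hi, h1⟩ := Finset.mem_image.1 this
        exact ⟨i, hi, h1⟩
      choose g hg hfg using hex
      have hginj : Function.Injective g := by
        intro a a' haa
        have : f (g a) = f (g a') := by rw [haa]
        rw [hfg, hfg] at this
        exact Sum.inl_injective (Sum.inl_injective this)
      have hex2 : ∃ a, c (g a) = 0 := by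
        by_contra hno
        push Not at hno
        have hsub : (Finset.univ.image g) ⊆ s.filter fun i => c i ≠ 0 := by
          intro i hi
          obtain ⟨a, _, rfl⟩ := Finset.mem_image.1 hi
          exact Finset.mem_filter.2 ⟨hg a, hno a⟩
        have h2 := Finset.card_le_card hsub
        rw [Finset.card_image_of_injective _ hginj, Finset.card_univ, Fintype.card_fin] at h2
        omega
      obtain ⟨a, ha⟩ := hex2
      apply Matrix.det_eq_zero_of_column_eq_zero (g a)
      intro i
      simp only [Matrix.of_apply]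
      rw [hfg a]
      by_cases his : i ∈ s
      · rw [hcol i his]
        split_ifs with hfi
        · have : i = g a := hinj (by rw [hfi, hfg])
          rw [this, ha]
        · rfl
      · exact hcol' i his _ _
  · unfold Function.Injective at hinj
    push Not at hinj
    obtain ⟨i, j, hij, hne⟩ := hinj
    apply Matrix.det_zero_of_column_eq hne
    intro k'
    simp only [Matrix.of_apply]
    rw [hij]

end Pool.Agent.MP_d8b6c2_an
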