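import Mathlib
import Pool.Agent.Lib.MP_d8b6c2_an.Poly
import Pool.Agent.Lib.MP_d8b6c2_an.Comb1

/-! Properties of the label polynomials. -/

namespace Pool.Agent.MP_d8b6c2_an

open Finset Polynomial

variable {R : Type*} [CommRing R] [Algebra ℂ R]

theorem bez_natDegree (n M : ℕ) (hM : 0 < M) (k : Fin (n + 1)) : (bez n M k).natDegree < M := by
  rw [bez, dif_pos hM]
  exact (exists_bez n M hM).choose_spec.1 k

theorem bez_sum (n M : ℕ) (hM : 0 < M) :
    ∑ k, bez n M k * ∏ k' ∈ univ.erase k, (X - C ((k' : ℕ) : ℂ)) ^ M = 1 := by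
  have h : ∀ k, bez n M k = (exists_bez n M hM).choose k := by
    intro k
    rw [bez, dif_pos hM]
  simp only [h]
  exact (exists_bez n M hM).choose_spec.2

private theorem poly1a_map {S : Type*} [CommRing S] [Algebra ℂ S] (φ : R →ₐ[ℂ] S) (n M : ℕ)
    (k : Fin (n + 1)) (x : R) : (Afac n M k x).map (φ : R →+* S) = Afac n M k (φ x) := by
  rw [Afac, Afac, Polynomial.map_mul, Polynomial.map_sum, Polynomial.map_prod]
  congr 1
  · refine Finset.sum_congr rfl fun e _ => ?_
    simp
  · refine Finset.prod_congr rfl fun k' _ => ?_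
    simp

private theorem poly1a_sum_comp {K ι : Type*} [CommRing K] (s : Finset ι) (p : ι → K[X])
    (q : K[X]) : (∑ i ∈ s, p i).comp q = ∑ i ∈ s, (p i).comp q := by
  rw [Polynomial.comp, Polynomial.eval₂_finsetSum]
  rfl

private theorem poly1a_field {K : Type*} [Field K] [Algebra ℂ K] (n M : ℕ) (hM : 0 < M) (x : K)
    (hx : x ≠ 0) : ∑ k, Afac n M k x = C (x ^ ((n + 1) * M - 1)) := by
  have key : ∀ k : Fin (n + 1), Afac n M k x = C (x ^ ((n + 1) * M - 1)) *
      ((bez n M k * ∏ k' ∈ univ.erase k, (X - C ((k' : ℕ) : ℂ)) ^ M).map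
        (algebraMap ℂ K)).comp (C x⁻¹ * X) := by
    intro k
    have h1 : ∑ e ∈ range M, C (algebraMap ℂ K ((bez n M k).coeff e) * x ^ (M - 1 - e)) * X ^ e =
        C (x ^ (M - 1)) * ((bez n M k).map (algebraMap ℂ K)).comp (C x⁻¹ * X) := by
      have h2 : (bez n M k).map (algebraMap ℂ K) =
          ∑ e ∈ range M, C (algebraMap ℂ K ((bez n M k).coeff e)) * X ^ e := by
        conv_lhs => rw [(bez n M k).as_sum_range' M (bez_natDegree n M hM k)]
        rw [Polynomial.map_sum]
        refine Finset.sum_congr rfl fun e _ => ?_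
        rw [Polynomial.map_monomial, Polynomial.C_mul_X_pow_eq_monomial]
      rw [h2, poly1a_sum_comp, Finset.mul_sum]
      refine Finset.sum_congr rfl fun e he => ?_
      have he' : e < M := Finset.mem_range.1 he
      rw [Polynomial.mul_comp, Polynomial.C_comp, Polynomial.pow_comp, Polynomial.X_comp, mul_pow,
        ← C_pow]
      have h3 : x ^ (M - 1 - e) = x ^ (M - 1) * x⁻¹ ^ e := by
        have h4 : M - 1 = (M - 1 - e) + e := by omega
        conv_rhs => rw [h4, pow_add, mul_assoc, ← mul_pow, mul_inv_cancel₀ hx, one_pow, mul_one]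
      rw [h3, C_mul, C_mul]
      ring
    have h5 : ∏ k' ∈ univ.erase k, (X - C (((k' : ℕ) : K) * x)) ^ M =
        C (x ^ (n * M)) * ∏ k' ∈ univ.erase k,
          (((X - C ((k' : ℕ) : ℂ)) ^ M).map (algebraMap ℂ K)).comp (C x⁻¹ * X) := by
      have h6 : C (x ^ (n * M)) = ∏ _k' ∈ univ.erase k, (C x : K[X]) ^ M := by
        rw [Finset.prod_const, Finset.card_erase_of_mem (Finset.mem_univ k), Finset.card_univ,
          Fintype.card_fin, Nat.add_sub_cancel, ← C_pow, ← C_pow, ← pow_mul, mul_comm n M]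
      rw [h6, ← Finset.prod_mul_distrib]
      refine Finset.prod_congr rfl fun k' _ => ?_
      rw [Polynomial.map_pow, Polynomial.pow_comp, ← mul_pow]
      congr 1
      rw [Polynomial.map_sub, Polynomial.map_X, Polynomial.map_C, Polynomial.sub_comp,
        Polynomial.X_comp, Polynomial.C_comp, mul_sub, ← mul_assoc, ← C_mul, mul_inv_cancel₀ hx,
        C_1, one_mul, ← C_mul]
      congr 2
      rw [map_natCast, mul_comm]
    rw [Afac, h1, h5, Polynomial.map_mul, Polynomial.mul_comp, Polynomial.map_prod,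
      Polynomial.prod_comp]
    have h7 : x ^ ((n + 1) * M - 1) = x ^ (M - 1) * x ^ (n * M) := by
      rw [← pow_add]
      congr 1
      rw [add_mul, one_mul]
      omega
    rw [h7, C_mul]
    ring
  rw [Finset.sum_congr rfl fun k _ => key k, ← Finset.mul_sum, ← poly1a_sum_comp,
    ← Polynomial.map_sum, bez_sum n M hM, Polynomial.map_one, Polynomial.one_comp, mul_one]

/-- homogenisation of `bez_sum` (for instance: prove it for `x ≠ 0` in a field by scaling, hence
in `ℂ[x]`, hence in every `ℂ`-algebra; or compare coefficients) -/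
theorem Afac_sum (n M : ℕ) (hM : 0 < M) (x : R) :
    ∑ k, Afac n M k x = C (x ^ ((n + 1) * M - 1)) := by
  have h1 : ∑ k, Afac n M k (X : ℂ[X]) = C (X ^ ((n + 1) * M - 1)) := by
    have h2 := poly1a_field n M hM (algebraMap ℂ[X] (RatFunc ℂ) X)
      ((map_ne_zero_iff _ (RatFunc.algebraMap_injective ℂ)).2 X_ne_zero)
    let φ : ℂ[X] →ₐ[ℂ] RatFunc ℂ := IsScalarTower.toAlgHom ℂ ℂ[X] (RatFunc ℂ)
    have hφ : Function.Injective (φ : ℂ[X] →+* RatFunc ℂ) := RatFunc.algebraMap_injective ℂ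
    apply Polynomial.map_injective (φ : ℂ[X] →+* RatFunc ℂ) hφ
    rw [Polynomial.map_sum, Finset.sum_congr rfl fun k _ => poly1a_map φ n M k X,
      Polynomial.map_C]
    have h3 : (φ : ℂ[X] →+* RatFunc ℂ) (X ^ ((n + 1) * M - 1)) =
        (algebraMap ℂ[X] (RatFunc ℂ) X) ^ ((n + 1) * M - 1) := by
      rw [map_pow]
      rfl
    rw [h3]
    exact h2
  have h4 := congrArg (Polynomial.map ((aeval x : ℂ[X] →ₐ[ℂ] R) : ℂ[X] →+* R)) h1
  rw [Polynomial.map_sum, Finset.sum_congr rfl fun k _ => poly1a_map (aeval x) n M k X,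
    Polynomial.map_C] at h4
  simpa using h4

theorem Afac_map {S : Type*} [CommRing S] [Algebra ℂ S] (φ : R →ₐ[ℂ] S) (n M : ℕ)
    (k : Fin (n + 1)) (x : R) : (Afac n M k x).map (φ : R →+* S) = Afac n M k (φ x) :=
  poly1a_map φ n M k x

theorem Afac_eval_zero (n M : ℕ) (k k0 : Fin (n + 1)) (hk : k ≠ k0) (x η : R) (hη : η ^ M = 0) :
    (Afac n M k x).eval (((k0 : ℕ) : R) * x + η) = 0 := by
  rw [Afac, Polynomial.eval_mul, Polynomial.eval_prod]
  have h : ∏ k' ∈ univ.erase k,
      eval (((k0 : ℕ) : R) * x + η) ((X - C (((k' : ℕ) : R) * x)) ^ M) = 0 := by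
    refine Finset.prod_eq_zero (Finset.mem_erase.2 ⟨hk.symm, Finset.mem_univ k0⟩) ?_
    rw [Polynomial.eval_pow, Polynomial.eval_sub, Polynomial.eval_X, Polynomial.eval_C,
      add_sub_cancel_left]
    exact hη
  rw [h, mul_zero]

end Pool.Agent.MP_d8b6c2_an
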