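import Mathlib
import Pool.Agent.Lib.MP_d8b6c2_an.Poly
import Pool.Agent.Lib.MP_d8b6c2_an.Comb1
import Pool.Agent.Lib.MP_d8b6c2_an.Poly1a

/-! Properties of the label polynomials. -/

namespace Pool.Agent.MP_d8b6c2_an

open Finset Polynomial

variable {R : Type*} [CommRing R] [Algebra ℂ R]

variable {J : ℕ} {m : Fin J → ℕ}

theorem Apoly_zero (M : Fin J → ℕ) (x : Fin J → Pth m → R) (w : Pth m) :
    Apoly M x 0 w = 1 := by
  simp [Apoly]

theorem Apoly_map {S : Type*} [CommRing S] [Algebra ℂ S] (φ : R →ₐ[ℂ] S) (M : Fin J → ℕ)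
    (x : Fin J → Pth m → R) (τ : ℕ) (w : Pth m) :
    (Apoly M x τ w).map (φ : R →+* S) = Apoly M (fun t q => φ (x t q)) τ w := by
  unfold Apoly
  rw [Polynomial.map_prod]
  refine Finset.prod_congr rfl fun t _ => ?_
  rw [Polynomial.map_comp, Afac_map, Polynomial.map_sub, Polynomial.map_X, Polynomial.map_C]
  have h : (φ : R →+* S) (xsum x t w) = xsum (fun t q => φ (x t q)) t w := by
    simp [xsum]
  rw [h]

private theorem poly1b_pre_pre {t τ : ℕ} (h : t ≤ τ) (w : Pth m) : pre t (pre τ w) = pre t w := by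
  rw [pre_pre, min_eq_left h]

private theorem poly1b_pre_apply {τ : ℕ} (t : Fin J) (h : (t : ℕ) < τ) (w : Pth m) :
    pre τ w t = w t := by
  simp [pre, h]

theorem Apoly_pre (M : Fin J → ℕ) (x : Fin J → Pth m → R) (τ : ℕ) (w : Pth m) :
    Apoly M x τ (pre τ w) = Apoly M x τ w := by
  unfold Apoly
  refine Finset.prod_congr rfl fun t ht => ?_
  have ht' : (t : ℕ) < τ := (Finset.mem_filter.1 ht).2
  have h1 : xsum x t (pre τ w) = xsum x t w := by
    unfold xsum
    refine Finset.sum_congr rfl fun s hs => ?_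
    have hs' : (s : ℕ) < t := (Finset.mem_filter.1 hs).2
    rw [poly1b_pre_apply s (hs'.trans ht'), poly1b_pre_pre (hs'.trans ht').le]
  rw [h1, poly1b_pre_apply t ht', poly1b_pre_pre ht'.le]

/-- the label polynomial vanishes at a certified value which does not lie below its label -/
theorem Apoly_cert (M : Fin J → ℕ) (x : Fin J → Pth m → R) (τ : ℕ) (w q : Pth m)
    (hnil : ∀ t : Fin J, (∑ s ∈ univ.filter (t < ·), ((q s : ℕ) : R) * x s (pre s q)) ^ M t = 0)
    (h : (Apoly M x τ w).eval (∑ t, ((q t : ℕ) : R) * x t (pre t q)) ≠ 0) :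
    pre τ w = pre τ q := by
  by_contra hne
  apply h
  have hex : (univ.filter fun t : Fin J => (t : ℕ) < τ ∧ w t ≠ q t).Nonempty := by
    by_contra hemp
    rw [Finset.not_nonempty_iff_eq_empty] at hemp
    apply hne
    rw [pre_eq_iff]
    intro s hs
    by_contra hws
    have : s ∈ (univ.filter fun t : Fin J => (t : ℕ) < τ ∧ w t ≠ q t) :=
      Finset.mem_filter.2 ⟨Finset.mem_univ _, hs, hws⟩
    rw [hemp] at this
    simp at this
  obtain ⟨t, ht, hmin⟩ : ∃ t ∈ (univ.filter fun t : Fin J => (t : ℕ) < τ ∧ w t ≠ q t),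
      ∀ s ∈ (univ.filter fun t : Fin J => (t : ℕ) < τ ∧ w t ≠ q t), t ≤ s :=
    ⟨_, Finset.min'_mem _ hex, fun s hs => Finset.min'_le _ s hs⟩
  obtain ⟨_, htτ, hwt⟩ := Finset.mem_filter.1 ht
  have heq : ∀ s : Fin J, (s : ℕ) < t → w s = q s := by
    intro s hs
    by_contra hws
    have h1 := hmin s (Finset.mem_filter.2 ⟨Finset.mem_univ _, hs.trans htτ, hws⟩)
    have h2 : (t : ℕ) ≤ s := h1
    omega
  have hpre : ∀ s : ℕ, s ≤ t → pre s w = pre s q := by
    intro s hs
    rw [pre_eq_iff]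
    intro u hu
    exact heq u (by omega)
  have hxs : xsum x t w = xsum x t q := by
    unfold xsum
    refine Finset.sum_congr rfl fun s hs => ?_
    have hs' : (s : ℕ) < t := (Finset.mem_filter.1 hs).2
    rw [heq s hs', hpre s hs'.le]
  have hval : (∑ t, ((q t : ℕ) : R) * x t (pre t q)) - xsum x t w =
      ((q t : ℕ) : R) * x t (pre t w) +
        ∑ s ∈ univ.filter (t < ·), ((q s : ℕ) : R) * x s (pre s q) := by
    rw [hxs, hpre t le_rfl]
    have h1 : (∑ s, ((q s : ℕ) : R) * x s (pre s q)) = xsum x t q +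
        ∑ s ∈ univ.filter (fun s : Fin J => ¬ (s : ℕ) < t), ((q s : ℕ) : R) * x s (pre s q) := by
      unfold xsum
      rw [Finset.sum_filter_add_sum_filter_not]
    have h2 : (univ.filter (fun s : Fin J => ¬ (s : ℕ) < t)) =
        insert t (univ.filter (fun s : Fin J => t < s)) := by
      ext s
      simp only [Finset.mem_filter, Finset.mem_univ, true_and, Finset.mem_insert, not_lt]
      constructor
      · intro hs
        have hs' : t ≤ s := hs
        rcases hs'.eq_or_lt with h3 | h3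
        · exact Or.inl h3.symm
        · exact Or.inr h3
      · rintro (h3 | h3)
        · rw [h3]
        · exact Fin.le_def.1 h3.le
    rw [h1, h2, Finset.sum_insert (by simp)]
    ring
  unfold Apoly
  rw [Polynomial.eval_prod]
  refine Finset.prod_eq_zero (Finset.mem_filter.2 ⟨Finset.mem_univ t, htτ⟩) ?_
  rw [Polynomial.eval_comp, Polynomial.eval_sub, Polynomial.eval_X, Polynomial.eval_C, hval]
  exact Afac_eval_zero _ _ _ _ hwt _ _ (hnil t)

end Pool.Agent.MP_d8b6c2_an
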