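import Mathlib
import Pool.Agent.Lib.MP_d8b6c2_an.Poly
import Pool.Agent.Lib.MP_d8b6c2_an.Comb1
import Pool.Agent.Lib.MP_d8b6c2_an.Poly1b

/-! Properties of the label polynomials. -/

namespace Pool.Agent.MP_d8b6c2_an

open Finset Polynomial

variable {R : Type*} [CommRing R] [Algebra ℂ R]

variable {J : ℕ} {m : Fin J → ℕ}

section field

variable {F : Type*} [Field F] [Algebra ℂ F]

private theorem poly1c_filter_succ (τ : ℕ) (h : τ < J) (f : Fin J → F) :
    ∏ t ∈ univ.filter (fun t : Fin J => (t : ℕ) < τ + 1), f t =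
      f ⟨τ, h⟩ * ∏ t ∈ univ.filter (fun t : Fin J => (t : ℕ) < τ), f t := by
  have h1 : univ.filter (fun t : Fin J => (t : ℕ) < τ + 1) =
      insert ⟨τ, h⟩ (univ.filter (fun t : Fin J => (t : ℕ) < τ)) := by
    ext t
    simp only [mem_filter, mem_univ, true_and, mem_insert, Fin.ext_iff]
    omega
  rw [h1, Finset.prod_insert (by simp)]

private theorem poly1c_xsum (x : Fin J → Pth m → F) (t : ℕ) (w w' : Pth m)
    (h : pre t w = pre t w') : xsum x t w = xsum x t w' := by
  unfold xsum
  refine Finset.sum_congr rfl fun s hs => ?_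
  have hs' : (s : ℕ) < t := (mem_filter.1 hs).2
  have h1 : pre s w = pre s w' := by
    have := congrArg (pre (s : ℕ)) h
    rwa [pre_pre, pre_pre, min_eq_left hs'.le] at this
  have h2 : w s = w' s := (pre_eq_iff t w w').1 h s hs'
  rw [h1, h2]

private theorem poly1c_Apoly_succ (M : Fin J → ℕ) (x : Fin J → Pth m → F) (τ : ℕ) (h : τ < J)
    (w w' : Pth m) (hw : pre τ w' = w) (y : F) :
    (Apoly M x (τ + 1) w').eval y = (Afac (m ⟨τ, h⟩) (M ⟨τ, h⟩) (w' ⟨τ, h⟩)
      (x ⟨τ, h⟩ (pre τ w))).eval (y - xsum x τ w) * (Apoly M x τ w).eval y := by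
  have hww : pre τ w = w := by
    rw [← hw, pre_pre, min_self]
  have h3 : ∀ t : ℕ, t ≤ τ → pre t w' = pre t w := by
    intro t ht
    rw [← hw, pre_pre, min_eq_left ht]
  unfold Apoly
  rw [Polynomial.eval_prod, Polynomial.eval_prod, poly1c_filter_succ τ h]
  congr 1
  · rw [Polynomial.eval_comp, h3 τ le_rfl, poly1c_xsum x τ w' w (h3 τ le_rfl)]
    simp
  · refine Finset.prod_congr rfl fun t ht => ?_
    have ht' : (t : ℕ) < τ := (mem_filter.1 ht).2
    have h4 : w' t = w t := (pre_eq_iff τ w' w).1 (h3 τ le_rfl) t ht'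
    rw [h3 t ht'.le, poly1c_xsum x t w' w (h3 t ht'.le), h4]

private theorem poly1c_aux (M : Fin J → ℕ) (hM : ∀ t, 0 < M t) (x : Fin J → Pth m → F)
    (hx : ∀ t q, x t q ≠ 0) (y : F) (n : ℕ) : ∀ (τ : ℕ) (w : Pth m), pre τ w = w → J ≤ τ + n →
    ∑ p' ∈ univ.filter (fun p' : Pth m => pre τ p' = w),
      (Apoly M x J p').eval y / ∏ t, x t (pre t p') ^ eexp M m t =
    (Apoly M x τ w).eval y /
      ∏ t ∈ univ.filter (fun t : Fin J => (t : ℕ) < τ), x t (pre t w) ^ eexp M m t := by
  induction n with
  | zero =>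
    intro τ w hw hJ
    have h1 : univ.filter (fun p' : Pth m => pre τ p' = w) = {w} := by
      ext p'
      simp only [mem_filter, mem_univ, true_and, mem_singleton]
      have h2 : pre τ p' = p' := by
        funext t
        have : (t : ℕ) < τ := by have := t.2; omega
        simp [pre, this]
      rw [h2]
    have h3 : univ.filter (fun t : Fin J => (t : ℕ) < τ) = univ := by
      ext t
      have : (t : ℕ) < τ := by have := t.2; omega
      simp [this]
    have h4 : Apoly M x τ w = Apoly M x J w := by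
      unfold Apoly
      rw [h3]
      congr 1
      ext t
      simp
    rw [h1, Finset.sum_singleton, h3, h4]
  | succ n ih =>
    intro τ w hw hJ
    by_cases hc : J ≤ τ + n
    · exact ih τ w hw hc
    have hτ : τ < J := by omega
    set T : Fin J := ⟨τ, hτ⟩ with hT
    -- group by the prefix of length `τ + 1`
    have hmaps : ∀ p' ∈ univ.filter (fun p' : Pth m => pre τ p' = w),
        pre (τ + 1) p' ∈ univ.filter (fun w' : Pth m => pre (τ + 1) w' = w' ∧ pre τ w' = w) := by
      intro p' hp'
      have hp2 : pre τ p' = w := (mem_filter.1 hp').2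
      refine mem_filter.2 ⟨mem_univ _, ?_, ?_⟩
      · rw [pre_pre, min_self]
      · rw [pre_pre, min_eq_left (Nat.le_succ τ), hp2]
    rw [← Finset.sum_fiberwise_of_maps_to hmaps]
    have h1 : ∀ w' ∈ univ.filter (fun w' : Pth m => pre (τ + 1) w' = w' ∧ pre τ w' = w),
        ∑ p' ∈ (univ.filter (fun p' : Pth m => pre τ p' = w)).filter
          (fun p' => pre (τ + 1) p' = w'),
          (Apoly M x J p').eval y / ∏ t, x t (pre t p') ^ eexp M m t =
        (Afac (m T) (M T) (w' T) (x T (pre τ w))).eval (y - xsum x τ w) *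
          ((Apoly M x τ w).eval y / (x T (pre τ w) ^ eexp M m T *
          ∏ t ∈ univ.filter (fun t : Fin J => (t : ℕ) < τ), x t (pre t w) ^ eexp M m t)) := by
      intro w' hw'
      obtain ⟨-, hw1, hw2⟩ := mem_filter.1 hw'
      have h2 : (univ.filter (fun p' : Pth m => pre τ p' = w)).filter
          (fun p' => pre (τ + 1) p' = w') = univ.filter (fun p' : Pth m => pre (τ + 1) p' = w') := by
        ext p'
        simp only [mem_filter, mem_univ, true_and]
        refine ⟨fun h => h.2, fun h => ⟨?_, h⟩⟩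
        rw [← hw2, ← h, pre_pre, min_eq_left (Nat.le_succ τ)]
      rw [h2, ih (τ + 1) w' hw1 (by omega), poly1c_Apoly_succ M x τ hτ w w' hw2 y,
        poly1c_filter_succ τ hτ]
      have h3 : ∀ t : ℕ, t ≤ τ → pre t w' = pre t w := by
        intro t ht
        rw [← hw2, pre_pre, min_eq_left ht]
      have h4 : ∏ t ∈ univ.filter (fun t : Fin J => (t : ℕ) < τ), x t (pre t w') ^ eexp M m t =
          ∏ t ∈ univ.filter (fun t : Fin J => (t : ℕ) < τ), x t (pre t w) ^ eexp M m t := by
        refine Finset.prod_congr rfl fun t ht => ?_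
        rw [h3 t (mem_filter.1 ht).2.le]
      rw [h4]
      have h5 : pre ((⟨τ, hτ⟩ : Fin J) : ℕ) w' = pre τ w := h3 τ le_rfl
      rw [h5, mul_div_assoc]
    rw [Finset.sum_congr rfl h1, ← Finset.sum_mul]
    have h6 : ∑ w' ∈ univ.filter (fun w' : Pth m => pre (τ + 1) w' = w' ∧ pre τ w' = w),
        (Afac (m T) (M T) (w' T) (x T (pre τ w))).eval (y - xsum x τ w) =
        ∑ k : Fin (m T + 1), (Afac (m T) (M T) k (x T (pre τ w))).eval (y - xsum x τ w) := by
      refine Finset.sum_nbij' (fun w' => w' T) (fun k => Function.update w T k) ?_ ?_ ?_ ?_ ?_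
      · intro w' _
        exact mem_univ _
      · intro k _
        have hwT : ∀ s : Fin J, ¬ ((s : ℕ) < τ) → w s = 0 := by
          intro s hs
          have := congrFun hw s
          rw [← this]
          simp [pre, hs]
        refine mem_filter.2 ⟨mem_univ _, ?_, ?_⟩
        · funext s
          by_cases hs : s = T
          · subst hs
            simp [pre, hT]
          · rw [Function.update_of_ne hs]
            by_cases hs2 : (s : ℕ) < τ + 1
            · simp [pre, hs2, Function.update_of_ne hs]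
            · have : w s = 0 := hwT s (by omega)
              simp [pre, hs2, this]
        · funext s
          by_cases hs2 : (s : ℕ) < τ
          · have hs : s ≠ T := by
              intro h
              rw [h] at hs2
              exact lt_irrefl _ hs2
            simp [pre, hs2, Function.update_of_ne hs]
          · rw [hwT s hs2]
            simp [pre, hs2]
      · intro w' hw'
        obtain ⟨-, hw1, hw2⟩ := mem_filter.1 hw'
        funext s
        by_cases hs : s = T
        · subst hs
          simp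
        · rw [Function.update_of_ne hs, ← hw2]
          by_cases hs2 : (s : ℕ) < τ
          · simp [pre, hs2]
          · have h7 : ¬ (s : ℕ) < τ + 1 := by
              intro h
              apply hs
              rw [hT, Fin.ext_iff]
              simp only
              omega
            have := congrFun hw1 s
            rw [← this]
            simp [pre, hs2, h7]
      · intro k _
        simp
      · intro w' _
        rfl
    have h8 := congrArg (Polynomial.eval (y - xsum x τ w))
      (Afac_sum (m T) (M T) (hM T) (x T (pre τ w)))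
    rw [Polynomial.eval_finsetSum, Polynomial.eval_C] at h8
    rw [h6, h8]
    have h9 : x T (pre τ w) ^ eexp M m T ≠ 0 := pow_ne_zero _ (hx _ _)
    have h10 : ∏ t ∈ univ.filter (fun t : Fin J => (t : ℕ) < τ), x t (pre t w) ^ eexp M m t ≠ 0 :=
      Finset.prod_ne_zero_iff.2 fun t _ => pow_ne_zero _ (hx _ _)
    have h11 : (m T + 1) * M T - 1 = eexp M m T := rfl
    rw [h11]
    field_simp

/-- In a field: the sum of the normalised label polynomials over all labels below a node. -/
theorem sum_below (M : Fin J → ℕ) (hM : ∀ t, 0 < M t) (x : Fin J → Pth m → F)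
    (hx : ∀ t q, x t q ≠ 0) (τ : ℕ) (w : Pth m) (hw : pre τ w = w) (y : F) :
    ∑ p' ∈ univ.filter (fun p' : Pth m => pre τ p' = w),
      (Apoly M x J p').eval y / ∏ t, x t (pre t p') ^ eexp M m t =
    (Apoly M x τ w).eval y /
      ∏ t ∈ univ.filter (fun t : Fin J => (t : ℕ) < τ), x t (pre t w) ^ eexp M m t :=
  poly1c_aux M hM x hx y J τ w hw (Nat.le_add_left _ _)

/-- regrouping of the powers of the `x_v` -/
theorem xmon_eq (M cap : Fin J → ℕ) (Rk : Finset ℕ) {κ : ℕ} (x : Fin J → Pth m → F)
    (hx : ∀ t q, x t q ≠ 0) (p : Fin κ → Pth m) :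
    xmon M cap Rk x p = xtot M cap x /
      ∏ l, ∏ t ∈ univ.filter (fun t : Fin J => (t : ℕ) < ldep cap Rk p l),
        x t (pre t (p l)) ^ eexp M m t := by
  have h1 : ∏ l, ∏ t ∈ univ.filter (fun t : Fin J => (t : ℕ) < ldep cap Rk p l),
        x t (pre t (p l)) ^ eexp M m t =
      ∏ v ∈ nodes m, x v.1 v.2 ^ (eexp M m v.1 * rho cap Rk p v.1 v.2) := by
    have h2 : ∀ v ∈ nodes m, x v.1 v.2 ^ (eexp M m v.1 * rho cap Rk p v.1 v.2) =
        ∏ l : Fin κ, if (v.1 : ℕ) < ldep cap Rk p l ∧ pre v.1 (p l) = pre v.1 v.2 then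
          x v.1 v.2 ^ eexp M m v.1 else 1 := by
      intro v _
      rw [← Finset.prod_filter, Finset.prod_const, pow_mul]
      rfl
    rw [Finset.prod_congr rfl h2, Finset.prod_comm]
    refine Finset.prod_congr rfl fun l _ => ?_
    rw [← Finset.prod_filter]
    refine Finset.prod_nbij' (fun t => (t, pre t (p l))) (fun v => v.1) ?_ ?_ ?_ ?_ ?_
    · intro t ht
      have ht' := (mem_filter.1 ht).2
      refine mem_filter.2 ⟨mem_filter.2 ⟨mem_univ _, ?_⟩, ht', ?_⟩
      · simp only [pre_pre, min_self]
      · simp only [pre_pre, min_self]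
    · intro v hv
      exact mem_filter.2 ⟨mem_univ _, (mem_filter.1 hv).2.1⟩
    · intro t _
      rfl
    · intro v hv
      obtain ⟨h3, h4, h5⟩ := mem_filter.1 hv
      have h6 : pre v.1 v.2 = v.2 := (mem_filter.1 h3).2
      ext1
      · rfl
      · simp only [h5, h6]
    · intro t _
      rfl
  rw [h1, eq_div_iff (Finset.prod_ne_zero_iff.2 fun v _ => pow_ne_zero _ (hx _ _))]
  unfold xmon xtot
  rw [← Finset.prod_mul_distrib]
  refine Finset.prod_congr rfl fun v _ => ?_
  rw [← pow_add, ← mul_add, Nat.sub_add_cancel (rho_le cap Rk p v.1 v.2)]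

end field

end Pool.Agent.MP_d8b6c2_an
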