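import Mathlib
import Pool.Agent.Lib.MP_d8b6c2_an.Poly
import Pool.Agent.Lib.MP_d8b6c2_an.Comb1
import Pool.Agent.Lib.MP_d8b6c2_an.Poly1c

/-! Properties of the label polynomials. -/

namespace Pool.Agent.MP_d8b6c2_an

open Finset Polynomial

variable {R : Type*} [CommRing R] [Algebra ℂ R]

variable {J : ℕ} {m : Fin J → ℕ}

section field

variable {F : Type*} [Field F] [Algebra ℂ F]

open Classical in
/-- In a field: the sum over the canonical labellings with a class invariant property equals
the sum of the normalised products over all labellings with this property. -/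
theorem field_sum (M cap : Fin J → ℕ) (hM : ∀ t, 0 < M t) (Rk : Finset ℕ) {κ : ℕ}
    (x : Fin J → Pth m → F) (hx : ∀ t q, x t q ≠ 0) (y : Fin κ → F)
    (γ : (Fin κ → Pth m) → Prop) (hγ : ClsInv cap Rk γ) :
    ∑ p ∈ univ.filter (fun p : Fin κ → Pth m => IsCan cap Rk p ∧ γ p), Tval M cap Rk x p y =
      xtot M cap x * ∑ p ∈ univ.filter (fun p : Fin κ → Pth m => γ p),
        ∏ l, ((Apoly M x J (p l)).eval (y l) / ∏ t, x t (pre t (p l)) ^ eexp M m t) := by
  have hmaps : ∀ p ∈ univ.filter (fun p : Fin κ → Pth m => γ p),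
      (fun l => pre (ldep cap Rk p l) (p l)) ∈
        univ.filter (fun p : Fin κ → Pth m => IsCan cap Rk p ∧ γ p) := by
    intro p hp
    obtain ⟨h1, h2⟩ := can_spec cap Rk p
    exact mem_filter.2 ⟨mem_univ _, h1, (hγ _ _ h2).2 (mem_filter.1 hp).2⟩
  rw [← Finset.sum_fiberwise_of_maps_to hmaps, Finset.mul_sum]
  refine Finset.sum_congr rfl fun q hq => ?_
  obtain ⟨-, hcan, hγq⟩ := mem_filter.1 hq
  have hset : (univ.filter (fun p : Fin κ → Pth m => γ p)).filter
      (fun p => (fun l => pre (ldep cap Rk p l) (p l)) = q) =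
      Fintype.piFinset (fun l => univ.filter (fun w : Pth m => pre (ldep cap Rk q l) w = q l)) := by
    ext p
    rw [mem_filter, mem_filter, Fintype.mem_piFinset]
    constructor
    · rintro ⟨⟨-, -⟩, h2⟩ l
      have h3 : Cls cap Rk p q := by
        have := (can_spec cap Rk p).2
        rwa [h2] at this
      rw [mem_filter, ldep_cls cap Rk h3 l]
      exact ⟨mem_univ _, congrFun h2 l⟩
    · intro h
      have h1 : ∀ l, pre (ldep cap Rk q l) (p l) = q l := fun l => (mem_filter.1 (h l)).2
      have h2 : Cls cap Rk q p := fun l => (h1 l).trans (hcan l).symm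
      refine ⟨⟨mem_univ _, (hγ _ _ h2).2 hγq⟩, ?_⟩
      funext l
      rw [ldep_cls cap Rk h2 l]
      exact h1 l
  rw [hset, ← Finset.prod_univ_sum (fun l => univ.filter (fun w : Pth m =>
    pre (ldep cap Rk q l) w = q l))
    (fun l w => (Apoly M x J w).eval (y l) / ∏ t, x t (pre t w) ^ eexp M m t)]
  rw [Finset.prod_congr rfl fun l _ => sum_below M hM x hx (ldep cap Rk q l) (q l) (hcan l) (y l),
    Finset.prod_div_distrib, Tval, xmon_eq M cap Rk x hx q]
  ring

end field

end Pool.Agent.MP_d8b6c2_an
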