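import Mathlib
import Pool.Agent.Lib.MP_d8b6c2_an.Poly
import Pool.Agent.Lib.MP_d8b6c2_an.Comb1
import Pool.Agent.Lib.MP_d8b6c2_an.Poly1d

/-! Properties of the label polynomials. -/

namespace Pool.Agent.MP_d8b6c2_an

open Finset Polynomial

variable {R : Type*} [CommRing R] [Algebra ℂ R]

variable {J : ℕ} {m : Fin J → ℕ}

theorem Tval_map {S : Type*} [CommRing S] [Algebra ℂ S] (φ : R →ₐ[ℂ] S) (M cap : Fin J → ℕ)
    (Rk : Finset ℕ) {κ : ℕ} (x : Fin J → Pth m → R) (p : Fin κ → Pth m) (y : Fin κ → R) :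
    φ (Tval M cap Rk x p y) = Tval M cap Rk (fun t q => φ (x t q)) p (fun l => φ (y l)) := by
  unfold Tval xmon
  rw [map_mul, map_prod, map_prod]
  congr 1
  · exact Finset.prod_congr rfl fun v _ => map_pow φ _ _
  · refine Finset.prod_congr rfl fun l _ => ?_
    rw [← Apoly_map φ, Polynomial.eval_map]
    exact (Polynomial.eval₂_hom (φ : R →+* S) (y l)).symm

open Classical in
/-- The polynomial identity: two chains of ranks give the same sum for a property invariant for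
both. Both sides are polynomials over `ℂ`; they agree at all points with nonzero `x`
(`field_sum`, `Tval_map`), hence they are equal (multiply by `∏ x`, `MvPolynomial.funext`). -/
theorem Tpol_sum_eq (M cap : Fin J → ℕ) (hM : ∀ t, 0 < M t) (Rk Rk' : Finset ℕ) {κ : ℕ}
    (γ : (Fin κ → Pth m) → Prop) (hγ : ClsInv cap Rk γ) (hγ' : ClsInv cap Rk' γ) :
    ∑ p ∈ univ.filter (fun p : Fin κ → Pth m => IsCan cap Rk p ∧ γ p), Tpol M cap Rk p =
      ∑ p ∈ univ.filter (fun p : Fin κ → Pth m => IsCan cap Rk' p ∧ γ p), Tpol M cap Rk' p := by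
  have key : ∀ (Rk₀ : Finset ℕ), ClsInv cap Rk₀ γ → ∀ a : (Fin J × Pth m) ⊕ Fin κ → ℂ,
      (∀ v, a (Sum.inl v) ≠ 0) →
      MvPolynomial.eval a (∑ p ∈ univ.filter (fun p : Fin κ → Pth m => IsCan cap Rk₀ p ∧ γ p),
        Tpol M cap Rk₀ p) =
      xtot M cap (fun t q => a (Sum.inl (t, q))) *
        ∑ p ∈ univ.filter (fun p : Fin κ → Pth m => γ p),
        ∏ l, ((Apoly M (fun t q => a (Sum.inl (t, q))) J (p l)).eval (a (Sum.inr l)) /
          ∏ t, a (Sum.inl (t, pre t (p l))) ^ eexp M m t) := by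
    intro Rk₀ h a ha
    rw [← field_sum M cap hM Rk₀ (fun t q => a (Sum.inl (t, q))) (fun t q => ha _)
      (fun l => a (Sum.inr l)) γ h, map_sum]
    refine Finset.sum_congr rfl fun p _ => ?_
    have h1 := Tval_map (MvPolynomial.aeval a) M cap Rk₀
      (fun t q => (MvPolynomial.X (Sum.inl (t, q)) : MvPolynomial ((Fin J × Pth m) ⊕ Fin κ) ℂ)) p
      (fun l => MvPolynomial.X (Sum.inr l))
    simp only [MvPolynomial.aeval_X] at h1
    rw [← h1]
    rfl
  have hD : (∏ v : Fin J × Pth m,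
      (MvPolynomial.X (Sum.inl v) : MvPolynomial ((Fin J × Pth m) ⊕ Fin κ) ℂ)) ≠ 0 :=
    Finset.prod_ne_zero_iff.2 fun v _ => MvPolynomial.X_ne_zero _
  refine mul_left_cancel₀ hD ?_
  refine MvPolynomial.funext fun a => ?_
  rw [map_mul, map_mul]
  by_cases ha : ∀ v, a (Sum.inl v) ≠ 0
  · rw [key Rk hγ a ha, key Rk' hγ' a ha]
  · push Not at ha
    obtain ⟨v, hv⟩ := ha
    have h0 : MvPolynomial.eval a (∏ v : Fin J × Pth m,
        (MvPolynomial.X (Sum.inl v) : MvPolynomial ((Fin J × Pth m) ⊕ Fin κ) ℂ)) = 0 := by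
      rw [map_prod]
      exact Finset.prod_eq_zero (Finset.mem_univ v) (by rw [MvPolynomial.eval_X, hv])
    rw [h0, zero_mul, zero_mul]

end Pool.Agent.MP_d8b6c2_an
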