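import Mathlib
import Pool.Agent.Lib.MP_d8b6c2_an.Forms
import Pool.Agent.Lib.MP_d8b6c2_an.Specb

/-! # Spectral projections of Hermitian matrices -/

namespace Pool.Agent.MP_d8b6c2_an

open Finset Filter Topology
open scoped ContDiff

variable {n : Type*} [Fintype n] [DecidableEq n]

section
open scoped ComplexOrder

private theorem specc_inj {T H : Matrix n n ℂ} (hT : T.PosDef) (h : T * H + H * T = 0) : H = 0 := by
  have h1 : (H.conjTranspose * T * H).PosSemidef := hT.posSemidef.conjTranspose_mul_mul_same H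
  have h2 : (H * T * H.conjTranspose).PosSemidef := hT.posSemidef.mul_mul_conjTranspose_same H
  have h3 : (H.conjTranspose * T * H).trace + (H * T * H.conjTranspose).trace = 0 := by
    rw [Matrix.trace_mul_comm (H * T), ← Matrix.trace_add, Matrix.mul_assoc, ← Matrix.mul_add, h,
      Matrix.mul_zero, Matrix.trace_zero]
  have h4 := h1.trace_nonneg
  have h5 := h2.trace_nonneg
  have h6 : (H.conjTranspose * T * H).trace = 0 := by
    have h7 : (H.conjTranspose * T * H).trace ≤ 0 := by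
      calc (H.conjTranspose * T * H).trace ≤ (H.conjTranspose * T * H).trace +
            (H * T * H.conjTranspose).trace := le_add_of_nonneg_right h5
        _ = 0 := h3
    exact le_antisymm h7 h4
  rw [h1.trace_eq_zero_iff] at h6
  ext i j
  by_contra hij
  have hv : H.mulVec (Pi.single j 1) ≠ 0 := by
    intro h0
    apply hij
    have := congrFun h0 i
    simpa using this
  have h8 := hT.dotProduct_mulVec_pos hv
  have h9 : dotProduct (star (H.mulVec (Pi.single j 1))) (T.mulVec (H.mulVec (Pi.single j 1))) =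
      dotProduct (star (Pi.single j 1 : n → ℂ)) ((H.conjTranspose * T * H).mulVec (Pi.single j 1)) := by
    rw [Matrix.star_mulVec, Matrix.mulVec_mulVec, ← Matrix.dotProduct_mulVec,
      Matrix.mulVec_mulVec, Matrix.mul_assoc]
  rw [h9, h6] at h8
  simp at h8

private theorem specc_posDef {B : Matrix n n ℂ} (hB : B.IsHermitian) {f : ℝ → ℝ}
    (hf : ∀ i, 0 < f (hB.eigenvalues i)) : (cfc f B).PosDef := by
  rw [hB.cfc_eq, Matrix.IsHermitian.cfc, Unitary.conjStarAlgAut_apply]
  have hd : (Matrix.diagonal (RCLike.ofReal ∘ f ∘ hB.eigenvalues) : Matrix n n ℂ).PosDef := by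
    rw [Matrix.posDef_diagonal_iff]
    intro i
    simpa using hf i
  have hinj : Function.Injective ((hB.eigenvectorUnitary : Matrix n n ℂ)).vecMul := by
    intro v w hvw
    have h1 : Matrix.vecMul (Matrix.vecMul v (hB.eigenvectorUnitary : Matrix n n ℂ))
        (star (hB.eigenvectorUnitary : Matrix n n ℂ)) =
        Matrix.vecMul (Matrix.vecMul w (hB.eigenvectorUnitary : Matrix n n ℂ))
        (star (hB.eigenvectorUnitary : Matrix n n ℂ)) := by
      exact congrArg (fun u => Matrix.vecMul u (star (hB.eigenvectorUnitary : Matrix n n ℂ))) hvw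
    rw [Matrix.vecMul_vecMul, Matrix.vecMul_vecMul,
      Unitary.mul_star_self_of_mem hB.eigenvectorUnitary.2, Matrix.vecMul_one,
      Matrix.vecMul_one] at h1
    exact h1
  have := hd.mul_mul_conjTranspose_same hinj
  exact this

private theorem specc_absPos {B : Matrix n n ℂ} (hB : B.IsHermitian) {c : ℝ}
    (hc : ∀ z ∈ B.charpoly.roots, z.re ≠ c) : (cfc (fun t : ℝ => |t - c|) B).PosDef := by
  refine specc_posDef hB fun i => ?_
  have h := hc (hB.eigenvalues i : ℂ) (by
    rw [hB.roots_charpoly_eq_eigenvalues]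
    exact Multiset.mem_map.2 ⟨i, Finset.mem_univ i, rfl⟩)
  rw [Complex.ofReal_re] at h
  exact abs_pos.2 (sub_ne_zero.2 h)

private theorem specc_cfc_cont (B : Matrix n n ℂ) (f : ℝ → ℝ) :
    ContinuousOn f (spectrum ℝ B) := B.finite_real_spectrum.continuousOn f

private theorem specc_sq {B : Matrix n n ℂ} (hB : B.IsHermitian) (c : ℝ) :
    cfc (fun t : ℝ => |t - c|) B * cfc (fun t : ℝ => |t - c|) B =
      (B - algebraMap ℝ _ c) * (B - algebraMap ℝ _ c) := by
  have hB' : IsSelfAdjoint B := hB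
  have e : B - algebraMap ℝ _ c = cfc (fun t : ℝ => t - c) B := by
    rw [cfc_sub (fun t : ℝ => t) (fun _ => c) B (specc_cfc_cont _ _) (specc_cfc_cont _ _),
      cfc_id' ℝ B, cfc_const c B hB']
  rw [e, ← cfc_mul _ _ B (specc_cfc_cont _ _) (specc_cfc_cont _ _),
    ← cfc_mul _ _ B (specc_cfc_cont _ _) (specc_cfc_cont _ _)]
  congr 1
  ext t
  exact abs_mul_abs_self _

private theorem specc_sgn {B : Matrix n n ℂ} (hB : B.IsHermitian) (c : ℝ) :
    (2 * sproj c B - 1) * cfc (fun t : ℝ => |t - c|) B = B - algebraMap ℝ _ c := by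
  have hB' : IsSelfAdjoint B := hB
  have e : B - algebraMap ℝ _ c = cfc (fun t : ℝ => t - c) B := by
    rw [cfc_sub (fun t : ℝ => t) (fun _ => c) B (specc_cfc_cont _ _) (specc_cfc_cont _ _),
      cfc_id' ℝ B, cfc_const c B hB']
  have e2 : 2 * sproj c B - 1 = cfc (fun t : ℝ => 2 * (if c < t then (1 : ℝ) else 0) - 1) B := by
    rw [cfc_sub (fun t : ℝ => 2 * (if c < t then (1 : ℝ) else 0)) (fun _ => 1) B
      (specc_cfc_cont _ _) (specc_cfc_cont _ _), cfc_const 1 B hB',
      cfc_const_mul _ _ _ (specc_cfc_cont _ _), map_one]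
    rw [sproj, two_smul, two_mul]
  rw [e, e2, ← cfc_mul _ _ B (specc_cfc_cont _ _) (specc_cfc_cont _ _)]
  congr 1
  ext t
  split_ifs with h
  · rw [abs_of_pos (sub_pos.2 h)]; ring
  · rw [abs_of_nonpos (by linarith)]; ring

open scoped Matrix.Norms.L2Operator

private theorem specc_cont (f : ℝ → ℝ) (hf : Continuous f) {X : Type*} [TopologicalSpace X]
    {b : X → Matrix n n ℂ} (hb : ∀ y, (b y).IsHermitian) {x : X} (hs : ContinuousAt b x) :
    ContinuousAt (fun y => cfc f (b y)) x := by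
  have h := continuousOn_cfc (𝕜 := ℝ) (A := Matrix n n ℂ) (p := IsSelfAdjoint)
    (isCompact_closedBall (0 : ℝ) ((‖b x‖ + 1) * ‖(1 : Matrix n n ℂ)‖)) f hf.continuousOn
  have hn : ∀ᶠ y in 𝓝 x, ‖b y‖ < ‖b x‖ + 1 := by
    have : ContinuousAt (fun y => ‖b y‖) x := hs.norm
    exact this.eventually (gt_mem_nhds (lt_add_one _))
  have hmem : ∀ᶠ y in 𝓝 x, b y ∈ {a : Matrix n n ℂ | IsSelfAdjoint a ∧ spectrum ℝ a ⊆
      Metric.closedBall (0 : ℝ) ((‖b x‖ + 1) * ‖(1 : Matrix n n ℂ)‖)} := by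
    filter_upwards [hn] with y hy
    refine ⟨hb y, fun z hz => ?_⟩
    rw [mem_closedBall_zero_iff]
    refine (spectrum.norm_le_norm_mul_of_mem hz).trans ?_
    exact mul_le_mul_of_nonneg_right hy.le (norm_nonneg _)
  have hx := hmem.self_of_nhds
  have h1 : Tendsto b (𝓝 x) (𝓝[{a : Matrix n n ℂ | IsSelfAdjoint a ∧ spectrum ℝ a ⊆
      Metric.closedBall (0 : ℝ) ((‖b x‖ + 1) * ‖(1 : Matrix n n ℂ)‖)}] (b x)) :=
    tendsto_nhdsWithin_iff.2 ⟨hs, hmem⟩
  exact (h (b x) hx).tendsto.comp h1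

private theorem specc_inv {T : Matrix n n ℂ} (hT : T.PosDef) :
    ∃ g : Matrix n n ℂ → Matrix n n ℂ, ContDiffAt ℝ ∞ g (T * T) ∧ ∀ᶠ S in 𝓝 T, g (S * S) = S := by
  have hF : ContDiffAt ℝ ∞ (fun S : Matrix n n ℂ => S * S) T := contDiffAt_id.mul contDiffAt_id
  obtain ⟨L, hL, hd⟩ : ∃ L : Matrix n n ℂ →L[ℝ] Matrix n n ℂ, (∀ H, L H = T * H + H * T) ∧
      HasFDerivAt (𝕜 := ℝ) (fun S : Matrix n n ℂ => S * S) L T :=
    ⟨_, fun H => by simp, (hasFDerivAt_id (𝕜 := ℝ) T).mul' (hasFDerivAt_id (𝕜 := ℝ) T)⟩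
  have hinj : Function.Injective (L : Matrix n n ℂ →ₗ[ℝ] Matrix n n ℂ) := by
    rw [injective_iff_map_eq_zero]
    intro H hH
    refine specc_inj hT ?_
    rw [← hL]
    exact hH
  let e : Matrix n n ℂ ≃L[ℝ] Matrix n n ℂ :=
    (LinearEquiv.ofInjectiveEndo (L : Matrix n n ℂ →ₗ[ℝ] Matrix n n ℂ) hinj).toContinuousLinearEquiv
  have he : (e : Matrix n n ℂ →L[ℝ] Matrix n n ℂ) = L := by
    ext1 H
    rfl
  rw [← he] at hd
  refine ⟨hF.localInverse hd (by simp), hF.to_localInverse hd (by simp), ?_⟩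
  exact (hF.hasStrictFDerivAt' hd (by simp)).eventually_left_inverse

private theorem specc_entries {E : Type*} [NormedAddCommGroup E] [NormedSpace ℝ E]
    {b : E → Matrix n n ℂ} {x : E} :
    (∀ i j, ContDiffAt ℝ ∞ (fun y => b y i j) x) ↔ ContDiffAt ℝ ∞ b x := by
  constructor
  · intro h
    have e : b = fun y => ∑ i, ∑ j, b y i j • Matrix.single i j (1 : ℂ) := by
      funext y
      conv_lhs => rw [Matrix.matrix_eq_sum_single (b y)]
      refine Finset.sum_congr rfl fun i _ => Finset.sum_congr rfl fun j _ => ?_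
      rw [Matrix.smul_single, smul_eq_mul, mul_one]
    rw [e]
    refine ContDiffAt.sum fun i _ => ContDiffAt.sum fun j _ => ?_
    exact (h i j).smul contDiffAt_const
  · intro h i j
    have hl : ContDiff ℝ ∞ (fun M : Matrix n n ℂ => M i j) := by
      let l : Matrix n n ℂ →ₗ[ℝ] ℂ :=
        { toFun := fun M => M i j, map_add' := fun _ _ => rfl, map_smul' := fun _ _ => rfl }
      exact l.toContinuousLinearMap.contDiff
    exact hl.contDiffAt.comp x h

private theorem specc_smooth {ι : Type*} [Fintype ι] [DecidableEq ι] (c : ℝ)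
    {b : (ι → ℝ) → Matrix n n ℂ} (hb : ∀ y, (b y).IsHermitian) {x : ι → ℝ} (hs : SmAt b x)
    (hc : ∀ z ∈ (b x).charpoly.roots, z.re ≠ c) : SmAt (fun y => sproj c (b y)) x := by
  have hs' : ContDiffAt ℝ ∞ b x := specc_entries.1 hs
  refine specc_entries.2 ?_
  set T : (ι → ℝ) → Matrix n n ℂ := fun y => cfc (fun t : ℝ => |t - c|) (b y) with hT
  have hTc : ContinuousAt T x := specc_cont _ (by fun_prop) hb hs'.continuousAt
  have hTp : (T x).PosDef := specc_absPos (hb x) hc
  obtain ⟨g, hg, hg'⟩ := specc_inv hTp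
  have hY : ContDiffAt ℝ ∞ (fun y => b y - algebraMap ℝ (Matrix n n ℂ) c) x :=
    hs'.sub contDiffAt_const
  have hT1 : ∀ᶠ y in 𝓝 x, T y = g ((b y - algebraMap ℝ (Matrix n n ℂ) c) *
      (b y - algebraMap ℝ (Matrix n n ℂ) c)) := by
    filter_upwards [hTc.eventually hg'] with y hy
    rw [← specc_sq (hb y) c]
    exact hy.symm
  have hTs : ContDiffAt ℝ ∞ T x := by
    refine ContDiffAt.congr_of_eventuallyEq ?_ hT1
    refine ContDiffAt.comp x ?_ (hY.mul hY)
    rw [specc_sq (hb x) c] at hg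
    exact hg
  have hu : IsUnit (T x) := hTp.isUnit
  have hui : ContDiffAt ℝ ∞ (fun y => Ring.inverse (T y)) x := by
    have h0 : ContDiffAt ℝ ∞ (Ring.inverse : Matrix n n ℂ → Matrix n n ℂ) (T x) :=
      contDiffAt_ringInverse ℝ (n := ∞) hu.unit
    exact ContDiffAt.comp x h0 hTs
  have hfin : ∀ᶠ y in 𝓝 x, sproj c (b y) = (1 / 2 : ℝ) • (1 + (b y - algebraMap ℝ (Matrix n n ℂ) c) *
      Ring.inverse (T y)) := by
    filter_upwards [hTc.eventually (Units.isOpen.mem_nhds hu)] with y hy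
    have h1 := specc_sgn (hb y) c
    have h2 : (2 * sproj c (b y) - 1) = (b y - algebraMap ℝ (Matrix n n ℂ) c) * Ring.inverse (T y) := by
      rw [← h1, Ring.mul_inverse_cancel_right _ _ hy]
    rw [← h2, add_sub_cancel, two_mul, ← two_smul ℝ, smul_smul]
    norm_num
  refine ContDiffAt.congr_of_eventuallyEq ?_ hfin
  exact (contDiffAt_const.add (hY.mul hui)).const_smul _

end


/-- The spectral projection is a smooth function of the matrix. Possible proofs: (a)
`sproj c B = (1 + Y (Y^2)^(-1/2)) / 2` with `Y = B - c`, and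
`(Y^2)^(-1/2) = C^(-1/2) ∑ binom(2k,k) 4^(-k) (1 - Y^2/C)^k` for large `C`, a power series in a
Banach algebra; (b) Riesz integral; (c) implicit function theorem. -/
theorem sproj_smooth {ι : Type*} [Fintype ι] [DecidableEq ι] (c : ℝ)
    {b : (ι → ℝ) → Matrix n n ℂ} (hb : ∀ y, (b y).IsHermitian) {x : ι → ℝ} (hs : SmAt b x)
    (hc : ∀ z ∈ (b x).charpoly.roots, z.re ≠ c) : SmAt (fun y => sproj c (b y)) x :=
  specc_smooth c hb hs hc

end Pool.Agent.MP_d8b6c2_an
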