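import Mathlib
import Pool.Agent.Lib.MP_d8b6c2_an.Forms
import Pool.Agent.Lib.MP_d8b6c2_an.Specc

/-! # Spectral projections of Hermitian matrices -/

namespace Pool.Agent.MP_d8b6c2_an

open Finset Filter Topology
open scoped ContDiff

variable {n : Type*} [Fintype n] [DecidableEq n]

private theorem specd_trace {P : Matrix n n ℂ} (hP : P * P = P) : P.trace = (P.rank : ℂ) := by
  have h1 : IsIdempotentElem (Matrix.toLin' P) := by
    show Matrix.toLin' P * Matrix.toLin' P = Matrix.toLin' P
    rw [Module.End.mul_eq_comp, ← Matrix.toLin'_mul, hP]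
  have h2 := (LinearMap.IsIdempotentElem.isProj_range _ h1).trace
  rw [Matrix.trace_toLin'_eq] at h2
  rw [h2]
  rfl

/-- the rank of the spectral projection is locally constant -/
theorem sproj_rank_near {ι : Type*} [Fintype ι] [DecidableEq ι] (c : ℝ)
    {b : (ι → ℝ) → Matrix n n ℂ} (hb : ∀ y, (b y).IsHermitian) {x : ι → ℝ} (hs : SmAt b x)
    (hc : ∀ z ∈ (b x).charpoly.roots, z.re ≠ c) :
    ∀ᶠ y in 𝓝 x, (sproj c (b y)).rank = (sproj c (b x)).rank := by
  have h1 := sproj_smooth c hb hs hc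
  have h2 : ContinuousAt (fun y => (sproj c (b y)).trace) x := by
    have h3 : (fun y => (sproj c (b y)).trace) = fun y => ∑ i, sproj c (b y) i i := by
      funext y
      rfl
    rw [h3]
    apply tendsto_finsetSum
    intro i _
    exact (h1 i i).continuousAt
  have h4 : ∀ᶠ y in 𝓝 x, ‖(sproj c (b y)).trace - (sproj c (b x)).trace‖ < 1 := by
    have := Metric.tendsto_nhds.mp h2 1 one_pos
    filter_upwards [this] with y hy
    rwa [dist_eq_norm] at hy
  filter_upwards [h4] with y hy
  rw [specd_trace (sproj_idem c (hb y)), specd_trace (sproj_idem c (hb x))] at hy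
  have h5 : (((sproj c (b y)).rank : ℂ) - ((sproj c (b x)).rank : ℂ)) =
      ((((sproj c (b y)).rank : ℤ) - ((sproj c (b x)).rank : ℤ) : ℤ) : ℂ) := by
    push_cast
    rfl
  rw [h5, Complex.norm_intCast] at hy
  have h6 : |((sproj c (b y)).rank : ℤ) - ((sproj c (b x)).rank : ℤ)| < 1 := by
    exact_mod_cast hy
  have h7 := abs_lt.mp h6
  omega

private theorem specd_root_bound {B : Matrix n n ℂ} {z : ℂ} (hz : z ∈ B.charpoly.roots) :
    ‖z‖ ≤ ∑ i, ∑ j, ‖B i j‖ := by
  have h1 : B.charpoly.IsRoot z := (Polynomial.mem_roots'.mp hz).2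
  have h2 : Module.End.HasEigenvalue (Matrix.toLin' B) z := by
    rw [Module.End.hasEigenvalue_iff_isRoot_charpoly, Matrix.charpoly_toLin']
    exact h1
  obtain ⟨k, hk⟩ := eigenvalue_mem_ball h2
  rw [Metric.mem_closedBall, dist_eq_norm] at hk
  have h3 : ‖z‖ ≤ ‖B k k‖ + ∑ j ∈ univ.erase k, ‖B k j‖ := by
    calc ‖z‖ = ‖B k k + (z - B k k)‖ := by congr 1; ring
      _ ≤ ‖B k k‖ + ‖z - B k k‖ := norm_add_le _ _
      _ ≤ _ := by linarith
  rw [Finset.add_sum_erase univ (fun j => ‖B k j‖) (mem_univ k)] at h3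
  refine h3.trans ?_
  exact Finset.single_le_sum (f := fun i => ∑ j, ‖B i j‖)
    (fun i _ => Finset.sum_nonneg fun j _ => norm_nonneg _) (mem_univ k)

/-- having no eigenvalue (real part) in `[c, c']` is an open condition -/
theorem isOpen_gap (c c' : ℝ) : IsOpen {B : n → n → ℂ | Gap c c' (Matrix.of B)} := by
  rw [isOpen_iff_mem_nhds]
  intro B0 hB0
  have hB0' : Gap c c' (Matrix.of B0) := hB0
  set R : ℝ := (∑ i, ∑ j, ‖B0 i j‖) + 1 with hR
  set K : Set ℂ := Metric.closedBall 0 R ∩ {z | c ≤ z.re ∧ z.re ≤ c'} with hK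
  have hKc : IsCompact K := by
    apply (isCompact_closedBall (0 : ℂ) R).inter_right
    have : {z : ℂ | c ≤ z.re ∧ z.re ≤ c'} = {z | c ≤ z.re} ∩ {z | z.re ≤ c'} := by
      ext z
      simp
    rw [this]
    exact (isClosed_le continuous_const Complex.continuous_re).inter
      (isClosed_le Complex.continuous_re continuous_const)
  have hcont : Continuous fun p : (n → n → ℂ) × ℂ =>
      (Matrix.scalar n p.2 - Matrix.of p.1).det := by
    apply Continuous.matrix_det
    apply continuous_matrix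
    intro i j
    by_cases hij : i = j
    · subst hij
      simp only [Matrix.sub_apply, Matrix.scalar_apply, Matrix.diagonal_apply_eq, Matrix.of_apply]
      fun_prop
    · simp only [Matrix.sub_apply, Matrix.scalar_apply, Matrix.of_apply,
        Matrix.diagonal_apply_ne _ hij]
      fun_prop
  have heval : ∀ (B : n → n → ℂ) (z : ℂ), (Matrix.scalar n z - Matrix.of B).det =
      (Matrix.of B).charpoly.eval z := fun B z => (Matrix.eval_charpoly _ _).symm
  have h1 : ∀ᶠ B in 𝓝 B0, ∀ z ∈ K, (Matrix.scalar n z - Matrix.of B).det ≠ 0 := by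
    refine hKc.eventually_forall_of_forall_eventually (x₀ := B0)
      (P := fun (B : n → n → ℂ) (z : ℂ) => (Matrix.scalar n z - Matrix.of B).det ≠ 0) ?_
    intro z hz
    apply hcont.continuousAt.eventually_ne
    show (Matrix.scalar n z - Matrix.of B0).det ≠ 0
    intro h0
    rw [heval] at h0
    refine hB0' z ?_ hz.2
    rw [Polynomial.mem_roots (Matrix.charpoly_monic _).ne_zero]
    exact h0
  have h2 : ∀ᶠ B : n → n → ℂ in 𝓝 B0, ∑ i, ∑ j, ‖B i j‖ < R := by
    have hc2 : Continuous fun B : n → n → ℂ => ∑ i, ∑ j, ‖B i j‖ := by fun_prop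
    exact hc2.continuousAt.eventually_lt continuousAt_const (by rw [hR]; linarith)
  filter_upwards [h1, h2] with B hB1 hB2
  show Gap c c' (Matrix.of B)
  intro z hz hzc
  have h3 : ‖z‖ ≤ R := (specd_root_bound hz).trans hB2.le
  apply hB1 z ⟨by rw [Metric.mem_closedBall, dist_zero_right]; exact h3, hzc⟩
  rw [heval]
  exact (Polynomial.mem_roots'.mp hz).2

end Pool.Agent.MP_d8b6c2_an
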