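import Mathlib
import Pool.Agent.Lib.MP_d8b6c2_an.Forms
import Pool.Agent.Lib.MP_d8b6c2_an.Specd

/-! # Spectral projections of Hermitian matrices -/

namespace Pool.Agent.MP_d8b6c2_an

open Finset Filter Topology
open scoped ContDiff

variable {n : Type*} [Fintype n] [DecidableEq n]

/-- Pigeonhole: at most `s` eigenvalues in `[δ, δ2]` leave a gap among `s + 1` disjoint
intervals. -/
theorem exists_gap {δ δ2 : ℝ} {s : ℕ} (al be : Fin (s + 1) → ℝ)
    (h1 : ∀ i, δ ≤ al i ∧ al i < be i ∧ be i ≤ δ2) (h2 : ∀ i i', i < i' → be i' < al i)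
    (B : Matrix n n ℂ) (hB : nIcc δ δ2 B ≤ s) : ∃ i, Gap (al i) (be i) B := by
  classical
  by_contra hcon
  push Not at hcon
  have hex : ∀ i, ∃ z ∈ B.charpoly.roots, al i ≤ z.re ∧ z.re ≤ be i := by
    intro i
    have h := hcon i
    unfold Gap at h
    push Not at h
    exact h
  choose z hz hzl hzu using hex
  have hinj : Function.Injective z := by
    intro i i' hii
    rcases lt_trichotomy i i' with h | h | h
    · have := h2 i i' h
      have h3 := hzl i
      have h4 := hzu i'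
      rw [hii] at h3
      linarith
    · exact h
    · have := h2 i' i h
      have h3 := hzl i'
      have h4 := hzu i
      rw [hii] at h4
      linarith
  have hsub : univ.image z ⊆ (B.charpoly.roots.filter fun w => δ ≤ w.re ∧ w.re ≤ δ2).toFinset := by
    intro w hw
    rw [Finset.mem_image] at hw
    obtain ⟨i, -, rfl⟩ := hw
    rw [Multiset.mem_toFinset, Multiset.mem_filter]
    exact ⟨hz i, le_trans (h1 i).1 (hzl i), le_trans (hzu i) (h1 i).2.2⟩
  have hcard : s + 1 ≤ nIcc δ δ2 B := by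
    calc s + 1 = (univ.image z).card := by
          rw [Finset.card_image_of_injective _ hinj, Finset.card_univ, Fintype.card_fin]
      _ ≤ _ := Finset.card_le_card hsub
      _ ≤ (B.charpoly.roots.filter fun w => δ ≤ w.re ∧ w.re ≤ δ2).card :=
          Multiset.toFinset_card_le _
      _ = nIcc δ δ2 B := by
          unfold nIcc
          congr 1
  omega

theorem exists_thresholds {δ δ2 : ℝ} (h : δ < δ2) (s : ℕ) :
    ∃ al be : Fin (s + 1) → ℝ, (∀ i, δ < al i ∧ al i < be i ∧ be i < δ2) ∧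
      ∀ i i', i < i' → be i' < al i := by
  have hs : (0 : ℝ) ≤ (s : ℝ) := Nat.cast_nonneg s
  set e : ℝ := (δ2 - δ) / (2 * s + 4) with he
  have he0 : 0 < e := by
    rw [he]
    apply div_pos <;> linarith
  have he1 : e * (2 * s + 4) = δ2 - δ := by
    rw [he]
    field_simp
  refine ⟨fun i => δ + e * (2 * (s - (i : ℕ)) + 1), fun i => δ + e * (2 * (s - (i : ℕ)) + 2),
    ?_, ?_⟩
  · intro i
    have hi : ((i : ℕ) : ℝ) ≤ s := by
      have := i.2
      exact_mod_cast (by omega : (i : ℕ) ≤ s)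
    have hi0 : (0 : ℝ) ≤ ((i : ℕ) : ℝ) := Nat.cast_nonneg _
    refine ⟨?_, ?_, ?_⟩
    · have : 0 < e * (2 * (s - (i : ℕ)) + 1) := mul_pos he0 (by linarith)
      show δ < δ + e * (2 * (s - (i : ℕ)) + 1)
      linarith
    · show δ + e * (2 * (s - (i : ℕ)) + 1) < δ + e * (2 * (s - (i : ℕ)) + 2)
      nlinarith
    · show δ + e * (2 * (s - (i : ℕ)) + 2) < δ2
      nlinarith
  · intro i i' hii
    have hii' : ((i : ℕ) : ℝ) + 1 ≤ ((i' : ℕ) : ℝ) := by
      have : (i : ℕ) < (i' : ℕ) := hii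
      exact_mod_cast this
    show δ + e * (2 * (s - (i' : ℕ)) + 2) < δ + e * (2 * (s - (i : ℕ)) + 1)
    nlinarith

end Pool.Agent.MP_d8b6c2_an
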