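import Mathlib
import Pool.Agent.Lib.MP_d8b6c2_an.Forms
import Pool.Agent.Lib.MP_d8b6c2_an.Spece

/-! # Spectral projections of Hermitian matrices -/

namespace Pool.Agent.MP_d8b6c2_an

open Finset Filter Topology
open scoped ContDiff Manifold

variable {n : Type*} [Fintype n] [DecidableEq n]

/-- smooth Urysohn function with closed support in `U` -/
private theorem specf_ury {V : Type*} [NormedAddCommGroup V] [NormedSpace ℝ V]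
    [FiniteDimensional ℝ V] {A U : Set V} (hA : IsClosed A) (hU : IsOpen U) (hAU : A ⊆ U) :
    ∃ ψ : V → ℝ, ContDiff ℝ ∞ ψ ∧ (∀ B, 0 ≤ ψ B ∧ ψ B ≤ 1) ∧
      (∀ B ∈ A, ∀ᶠ C in 𝓝 B, ψ C = 1) ∧ tsupport ψ ⊆ U := by
  obtain ⟨W, hWo, hAW, hWU⟩ := normal_exists_closure_subset hA hU hAU
  obtain ⟨f, hf0, hf1, hf⟩ := exists_contMDiffMap_zero_one_nhds_of_isClosed (n := (⊤ : ℕ∞))
    𝓘(ℝ, V) (s := Wᶜ) (t := A) hWo.isClosed_compl hA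
    (by rw [Set.disjoint_left]; intro x hx hx'; exact hx (hAW hx'))
  refine ⟨f, f.contMDiff.contDiff, fun B => ⟨(hf B).1, (hf B).2⟩, ?_, ?_⟩
  · intro B hB
    exact eventually_nhdsSet_iff_forall.mp hf1 B hB
  · refine subset_trans ?_ hWU
    apply closure_mono
    intro x hx
    by_contra hxW
    exact hx (hf0.self_of_nhdsSet x hxW)

/-- Smooth partition of unity with two layers of cut-off functions, on the space of matrices.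
`K` is a compact set covered by the open sets `U i`. -/
theorem exists_pou {S : ℕ} {K : Set (n → n → ℂ)} (hK : IsCompact K)
    (U : Fin S → Set (n → n → ℂ)) (hU : ∀ i, IsOpen (U i)) (hKU : K ⊆ ⋃ i, U i) :
    ∃ f ψ ψ' : Fin S → (n → n → ℂ) → ℝ,
      (∀ i, ContDiff ℝ ∞ (f i) ∧ ContDiff ℝ ∞ (ψ i) ∧ ContDiff ℝ ∞ (ψ' i)) ∧
      (∀ i B, 0 ≤ f i B ∧ 0 ≤ ψ i B ∧ ψ i B ≤ 1 ∧ 0 ≤ ψ' i B ∧ ψ' i B ≤ 1) ∧
      (∀ B ∈ K, ∑ i, f i B = 1) ∧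
      (∀ i, ∀ B ∈ tsupport (f i), ∀ᶠ C in 𝓝 B, ψ i C = 1) ∧
      (∀ i, ∀ B ∈ tsupport (ψ i), ∀ᶠ C in 𝓝 B, ψ' i C = 1) ∧
      (∀ i, tsupport (ψ' i) ⊆ U i) := by
  obtain ⟨f, hf⟩ := SmoothPartitionOfUnity.exists_isSubordinate 𝓘(ℝ, n → n → ℂ)
    hK.isClosed U hU hKU
  have h1 : ∀ i, ∃ ψ : (n → n → ℂ) → ℝ, ContDiff ℝ ∞ ψ ∧ (∀ B, 0 ≤ ψ B ∧ ψ B ≤ 1) ∧
      (∀ B ∈ tsupport (f i), ∀ᶠ C in 𝓝 B, ψ C = 1) ∧ tsupport ψ ⊆ U i := fun i =>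
    specf_ury (isClosed_tsupport _) (hU i) (hf i)
  choose ψ hψ using h1
  have h2 : ∀ i, ∃ ψ' : (n → n → ℂ) → ℝ, ContDiff ℝ ∞ ψ' ∧ (∀ B, 0 ≤ ψ' B ∧ ψ' B ≤ 1) ∧
      (∀ B ∈ tsupport (ψ i), ∀ᶠ C in 𝓝 B, ψ' C = 1) ∧ tsupport ψ' ⊆ U i := fun i =>
    specf_ury (isClosed_tsupport _) (hU i) (hψ i).2.2.2
  choose ψ' hψ' using h2
  refine ⟨fun i => f i, ψ, ψ', fun i => ⟨(f i).contMDiff.contDiff, (hψ i).1, (hψ' i).1⟩,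
    fun i B => ⟨f.nonneg i B, ((hψ i).2.1 B).1, ((hψ i).2.1 B).2, ((hψ' i).2.1 B).1,
      ((hψ' i).2.1 B).2⟩, ?_, fun i => (hψ i).2.2.1, fun i => (hψ' i).2.2.1,
      fun i => (hψ' i).2.2.2⟩
  intro B hB
  rw [← finsum_eq_sum_of_fintype]
  exact f.sum_eq_one hB

end Pool.Agent.MP_d8b6c2_an
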