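import Mathlib
import Pool.Agent.Lib.MP_d8b6c2_an.Forms

/-! # Stokes on a box -/

namespace Pool.Agent.MP_d8b6c2_an

open Finset MeasureTheory
open scoped ContDiff

/-- prepend the homotopy parameter -/
def consO {ι0 : Type*} (τ : ℝ) (y : ι0 → ℝ) : Option ι0 → ℝ := fun j => j.elim τ y

/-- one coordinate direction: the integral over a box of a partial derivative is the integral of
the difference of the boundary values -/
theorem integral_pd {ι0 : Type*} [Fintype ι0] [DecidableEq ι0] (F : (ι0 → ℝ) → ℂ)
    (hF : ContDiff ℝ 1 F) (lo hi : ι0 → ℝ) (hlo : ∀ i, lo i ≤ hi i) (i : ι0)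
    (h : ∀ x, F (Function.update x i (hi i)) = F (Function.update x i (lo i))) :
    ∫ y in Set.Icc lo hi, pd i F y = 0 := by
  obtain ⟨n, hn⟩ : ∃ n, Fintype.card ι0 = n + 1 :=
    ⟨Fintype.card ι0 - 1, (Nat.succ_pred_eq_of_pos (Fintype.card_pos_iff.2 ⟨i⟩)).symm⟩
  let e : ι0 ≃ Fin (n + 1) := Fintype.equivFinOfCardEq hn
  let eL : (ι0 → ℝ) ≃L[ℝ] (Fin (n + 1) → ℝ) :=
    ContinuousLinearEquiv.piCongrLeft ℝ (fun _ : Fin (n + 1) => ℝ) e
  have heL : ∀ x k, eL x k = x (e.symm k) := by
    intro x k
    obtain ⟨j, rfl⟩ := e.surjective k
    have h1 : eL x (e j) = x j := Equiv.piCongrLeft_apply_apply (fun _ : Fin (n + 1) => ℝ) e x j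
    rw [h1, e.symm_apply_apply]
  have heLs : ∀ x j, eL.symm x j = x (e j) := by
    intro x j
    have := heL (eL.symm x) (e j)
    rw [eL.apply_symm_apply, e.symm_apply_apply] at this
    exact this.symm
  have hord : ∀ x y, eL x ≤ eL y ↔ x ≤ y := by
    intro x y
    simp only [Pi.le_def, heL]
    constructor
    · intro h j
      simpa using h (e j)
    · intro h k
      exact h _
  have hvol : MeasurePreserving eL volume volume :=
    volume_measurePreserving_piCongrLeft (fun _ : Fin (n + 1) => ℝ) e
  have hd : ∀ x, HasFDerivAt F (fderiv ℝ F x) x := fun x =>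
    (hF.differentiable one_ne_zero x).hasFDerivAt
  have hcont : Continuous fun x => pd i F x := by
    have h1 : Continuous (fderiv ℝ F) := hF.continuous_fderiv one_ne_zero
    exact h1.clm_apply continuous_const
  have key := integral_divergence_of_hasFDerivAt_off_countable_of_equiv (E := ℂ) eL hord hvol
    (fun k => if k = e i then F else fun _ => 0)
    (fun k x => if k = e i then fderiv ℝ F x else 0) ∅ Set.countable_empty lo hi hlo
    (fun k => by
      by_cases hk : k = e i
      · simp only [hk, if_true]; exact hF.continuous.continuousOn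
      · simp only [hk, if_false]; exact continuousOn_const)
    (fun x _ k => by
      by_cases hk : k = e i
      · simp only [hk, if_true]; exact hd x
      · simp only [hk, if_false]; exact hasFDerivAt_const _ _)
    (pd i F)
    (fun x => by
      rw [Finset.sum_eq_single (e i)]
      · simp only [if_true]
        unfold pd
        congr 1
        ext j
        rw [heLs]
        simp [Pi.single_apply, e.injective.eq_iff]
      · intro k _ hk
        simp [hk]
      · simp)
    (hcont.continuousOn.integrableOn_compact isCompact_Icc)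
  rw [key]
  refine Finset.sum_eq_zero fun k _ => ?_
  by_cases hk : k = e i
  · subst hk
    rw [sub_eq_zero]
    refine setIntegral_congr_fun measurableSet_Icc fun x _ => ?_
    simp only [if_true]
    have h1 : ∀ t, eL.symm ((e i).insertNth t x) =
        Function.update (eL.symm ((e i).insertNth 0 x)) i t := by
      intro t
      ext j
      rw [heLs]
      by_cases hj : j = i
      · subst hj; simp
      · rw [Function.update_of_ne hj, heLs]
        have hj' : e j ≠ e i := fun h => hj (e.injective h)
        obtain ⟨l, hl⟩ := Fin.exists_succAbove_eq hj'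
        rw [← hl]
        simp
    rw [heL, heL, e.symm_apply_apply, h1 (hi i), h1 (lo i)]
    exact h _
  · simp [hk]

end Pool.Agent.MP_d8b6c2_an
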