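import Mathlib
import Pool.Agent.Lib.MP_d8b6c2_an.Forms
import Pool.Agent.Lib.MP_d8b6c2_an.Stokesa

/-! # Stokes on a box -/

namespace Pool.Agent.MP_d8b6c2_an

open Finset MeasureTheory
open scoped ContDiff

/-- If `∑ pd j (c j) = 0` for `0 ≤ τ ≤ 1` and the boundary values in the directions `some i`
agree, then the integral of `c none` over the box does not depend on `τ`: the function
`τ ↦ ∫ c none (consO τ y)` has derivative `∫ pd none (c none) = - ∑ ∫ pd (some i) (c (some i)) = 0`
(`integral_pd` for `y ↦ c (some i) (consO τ y)`). -/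
theorem stokes {ι0 : Type*} [Fintype ι0] [DecidableEq ι0]
    (c : Option ι0 → (Option ι0 → ℝ) → ℂ) (hc : ∀ j, ContDiff ℝ ∞ (c j))
    (lo hi : ι0 → ℝ) (hlo : ∀ i, lo i ≤ hi i) (hdiv : ∀ x, ∑ j, pd j (c j) x = 0)
    (hbd : ∀ (i : ι0) (x : Option ι0 → ℝ), 0 ≤ x none → x none ≤ 1 →
      c (some i) (Function.update x (some i) (hi i)) =
        c (some i) (Function.update x (some i) (lo i))) :
    ∫ y in Set.Icc lo hi, c none (consO 1 y) = ∫ y in Set.Icc lo hi, c none (consO 0 y) := by
  obtain ⟨n, hn⟩ : ∃ n, Fintype.card ι0 = n := ⟨_, rfl⟩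
  let e0 : ι0 ≃ Fin n := Fintype.equivFinOfCardEq hn
  let e : Option ι0 ≃ Fin (n + 1) := e0.optionCongr.trans (finSuccEquiv n).symm
  have he_none : e none = 0 := by simp [e]
  have he_some : ∀ i, e (some i) = (e0 i).succ := by intro i; simp [e]
  let eL : (Option ι0 → ℝ) ≃L[ℝ] (Fin (n + 1) → ℝ) :=
    ContinuousLinearEquiv.piCongrLeft ℝ (fun _ : Fin (n + 1) => ℝ) e
  have heL : ∀ x j, eL x (e j) = x j := by
    intro x j
    exact Equiv.piCongrLeft_apply_apply (fun _ : Fin (n + 1) => ℝ) e x j
  have heLs : ∀ x j, eL.symm x j = x (e j) := by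
    intro x j
    have := heL (eL.symm x) j
    rw [eL.apply_symm_apply] at this
    exact this.symm
  have hord : ∀ x y, eL x ≤ eL y ↔ x ≤ y := by
    intro x y
    simp only [Pi.le_def]
    constructor
    · intro h j
      have := h (e j)
      rwa [heL, heL] at this
    · intro h k
      obtain ⟨j, rfl⟩ := e.surjective k
      rw [heL, heL]
      exact h _
  have hvol : MeasurePreserving eL volume volume :=
    volume_measurePreserving_piCongrLeft (fun _ : Fin (n + 1) => ℝ) e
  have hd : ∀ j x, HasFDerivAt (c j) (fderiv ℝ (c j) x) x := fun j x =>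
    ((hc j).differentiable (by simp) x).hasFDerivAt
  have hlo' : consO 0 lo ≤ consO 1 hi := by
    intro j
    cases j with
    | none => exact zero_le_one
    | some i => exact hlo i
  have hins : ∀ (j : Option ι0) (x : Fin n → ℝ) (t : ℝ), eL.symm ((e j).insertNth t x) =
      Function.update (eL.symm ((e j).insertNth 0 x)) j t := by
    intro j x t
    ext j'
    rw [heLs]
    by_cases hj : j' = j
    · subst hj; simp
    · rw [Function.update_of_ne hj, heLs]
      have hj' : e j' ≠ e j := fun h => hj (e.injective h)
      obtain ⟨l, hl⟩ := Fin.exists_succAbove_eq hj'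
      rw [← hl]
      simp
  have key := integral_divergence_of_hasFDerivAt_off_countable_of_equiv (E := ℂ) eL hord hvol
    (fun k => c (e.symm k))
    (fun k x => fderiv ℝ (c (e.symm k)) x) ∅ Set.countable_empty (consO 0 lo) (consO 1 hi) hlo'
    (fun k => (hc _).continuous.continuousOn)
    (fun x _ k => hd _ x)
    (fun _ => 0)
    (fun x => by
      rw [← hdiv x, ← e.sum_comp]
      refine Finset.sum_congr rfl fun j _ => ?_
      rw [e.symm_apply_apply]
      unfold pd
      congr 1
      ext j'
      rw [heLs]
      simp [Pi.single_apply, e.injective.eq_iff])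
    integrableOn_zero
  rw [← e.sum_comp] at key
  rw [Fintype.sum_option] at key
  have hz : ∀ i : ι0, ((∫ x in Set.Icc (eL (consO 0 lo) ∘ (e (some i)).succAbove)
        (eL (consO 1 hi) ∘ (e (some i)).succAbove),
          c (e.symm (e (some i))) (eL.symm ((e (some i)).insertNth (eL (consO 1 hi) (e (some i))) x))) -
      ∫ x in Set.Icc (eL (consO 0 lo) ∘ (e (some i)).succAbove)
        (eL (consO 1 hi) ∘ (e (some i)).succAbove),
          c (e.symm (e (some i))) (eL.symm ((e (some i)).insertNth (eL (consO 0 lo) (e (some i))) x))) = 0 := by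
    intro i
    rw [sub_eq_zero]
    refine setIntegral_congr_fun measurableSet_Icc fun x hx => ?_
    simp only [heL, e.symm_apply_apply]
    rw [hins, hins (some i) x (consO 0 lo (some i))]
    have hne : e none ≠ e (some i) := fun h => by simpa using e.injective h
    obtain ⟨l, hl⟩ := Fin.exists_succAbove_eq hne
    have hval : eL.symm ((e (some i)).insertNth 0 x) none = x l := by
      rw [heLs, ← hl]
      simp
    have h1 := hx.1 l
    have h2 := hx.2 l
    simp only [Function.comp_apply, hl, heL] at h1 h2
    exact hbd i _ (by rw [hval]; exact h1) (by rw [hval]; exact h2)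
  rw [Finset.sum_eq_zero (fun i _ => hz i), add_zero, integral_zero] at key
  have hfin : ∀ t : ℝ, ∫ y in Set.Icc lo hi, c none (consO t y) =
      ∫ x in Set.Icc (eL (consO 0 lo) ∘ (e none).succAbove)
        (eL (consO 1 hi) ∘ (e none).succAbove), c (e.symm (e none)) (eL.symm ((e none).insertNth t x)) := by
    intro t
    let f0 : (ι0 → ℝ) ≃ᵐ (Fin n → ℝ) := MeasurableEquiv.piCongrLeft (fun _ : Fin n => ℝ) e0
    have hf0 : ∀ x j, f0 x (e0 j) = x j := by
      intro x j
      exact Equiv.piCongrLeft_apply_apply (fun _ : Fin n => ℝ) e0 x j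
    have hmp : MeasurePreserving f0 volume volume :=
      volume_measurePreserving_piCongrLeft (fun _ : Fin n => ℝ) e0
    rw [← hmp.setIntegral_preimage_emb f0.measurableEmbedding]
    have hpre : f0 ⁻¹' Set.Icc (eL (consO 0 lo) ∘ (e none).succAbove)
        (eL (consO 1 hi) ∘ (e none).succAbove) = Set.Icc lo hi := by
      ext x
      have hk : ∀ i, (e none).succAbove (e0 i) = e (some i) := by
        intro i
        rw [he_none, he_some, Fin.succAbove_zero]
      simp only [Set.mem_preimage, Set.mem_Icc, Pi.le_def]
      constructor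
      · rintro ⟨h1, h2⟩
        refine ⟨fun i => ?_, fun i => ?_⟩
        · have := h1 (e0 i)
          simp only [Function.comp_apply, hk, heL, hf0] at this
          exact this
        · have := h2 (e0 i)
          simp only [Function.comp_apply, hk, heL, hf0] at this
          exact this
      · rintro ⟨h1, h2⟩
        refine ⟨fun k => ?_, fun k => ?_⟩
        · obtain ⟨i, rfl⟩ := e0.surjective k
          simp only [Function.comp_apply, hk, heL, hf0]
          exact h1 i
        · obtain ⟨i, rfl⟩ := e0.surjective k
          simp only [Function.comp_apply, hk, heL, hf0]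
          exact h2 i
    rw [hpre]
    refine setIntegral_congr_fun measurableSet_Icc fun y _ => ?_
    simp only [e.symm_apply_apply]
    congr 1
    ext j
    rw [heLs]
    cases j with
    | none => simp [consO]
    | some i =>
      rw [he_none, he_some, ← Fin.succAbove_zero_apply, Fin.insertNth_apply_succAbove]
      exact (hf0 y i).symm
  rw [hfin 1, hfin 0]
  have h1 : eL (consO 1 hi) (e none) = 1 := heL _ _
  have h0 : eL (consO 0 lo) (e none) = 0 := heL _ _
  rw [h1, h0] at key
  exact (sub_eq_zero.1 key.symm)

end Pool.Agent.MP_d8b6c2_an
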