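import Mathlib
import Pool.Agent.Lib.MP_d8b6c2_an.Glue1
import Pool.Agent.Lib.MP_d8b6c2_an.Stokes

/-! # There is no smooth structure -/

namespace Pool.Agent.MP_d8b6c2_an

open Finset Filter Topology MeasureTheory
open scoped ContDiff

variable {J : ℕ} {m d : Fin J → ℕ} {n : Type*} [Fintype n] [DecidableEq n] {κ r0 s o S : ℕ}
variable {R 𝔾 : Type*} [NormedCommRing R] [NormedAlgebra ℂ R] [NormedRing 𝔾] [NormedAlgebra ℂ 𝔾]

private theorem strfalsea_add_pow {A : Type*} [CommRing A] (a b : A) (h : a * a = 0) (k : ℕ) :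
    (a + b) ^ (k + 1) = b ^ (k + 1) + ((k + 1 : ℕ) : A) * (a * b ^ k) := by
  induction k with
  | zero => simp; ring
  | succ k ih =>
    rw [pow_succ, ih]
    have : (b ^ (k + 1) + ((k + 1 : ℕ) : A) * (a * b ^ k)) * (a + b) =
        b ^ (k + 1 + 1) + ((k + 1 + 1 : ℕ) : A) * (a * b ^ (k + 1)) +
          ((k + 1 : ℕ) : A) * b ^ k * (a * a) := by
      push_cast; ring
    rw [this, h]; ring

private theorem strfalsea_sum_pow {A ι : Type*} [CommRing A] [DecidableEq ι] (F : Finset ι)
    (a : ι → A) (h : ∀ i ∈ F, a i * a i = 0) :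
    (∑ i ∈ F, a i) ^ (F.card + 1) = 0 ∧
      (∑ i ∈ F, a i) ^ F.card = (Nat.factorial F.card : A) * ∏ i ∈ F, a i := by
  induction F using Finset.induction_on with
  | empty => simp
  | insert i F hi ih =>
    obtain ⟨h1, h2⟩ := ih (fun j hj => h j (mem_insert_of_mem hj))
    have hii := h i (mem_insert_self i F)
    rw [card_insert_of_notMem hi, sum_insert hi, prod_insert hi]
    refine ⟨?_, ?_⟩
    · rw [strfalsea_add_pow _ _ hii, h1, pow_succ, h1]; ring
    · rw [strfalsea_add_pow _ _ hii, h1, h2, Nat.factorial_succ]; push_cast; ring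

private theorem strfalsea_th_sq (g : GData (Co m d) R 𝔾) (i : Co m d) : g.θ i * g.θ i = 0 := by
  have h := g.anti i i
  have h2 : (2 : ℂ) • (g.θ i * g.θ i) = 0 := by
    rw [two_smul]; nth_rewrite 1 [h]; simp
  simpa using h2

private theorem strfalsea_tt_sq (g : GData (Co m d) R 𝔾) (i j : Co m d) :
    g.tt i j * g.tt i j = 0 := by
  apply g.inc_inj
  rw [map_mul, map_zero, g.inc_tt]
  have : g.θ i * g.θ j * (g.θ i * g.θ j) = g.θ i * (g.θ j * g.θ i) * g.θ j := by
    noncomm_ring
  rw [this, g.anti j i]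
  have : g.θ i * -(g.θ i * g.θ j) * g.θ j = -((g.θ i * g.θ i) * (g.θ j * g.θ j)) := by
    noncomm_ring
  rw [this, strfalsea_th_sq]; simp

private theorem strfalsea_card (t : Fin J) (q : Pth m) (hq : pre t q = q) :
    (univ.filter (fun u : Sg m d => u.1.1 = (t, q))).card = d t := by
  have : (univ.filter (fun u : Sg m d => u.1.1 = (t, q))) =
      (univ : Finset (Fin (d t))).map
        (Function.Embedding.sigmaMk (β := fun v : {v : Fin J × Pth m // pre v.1 v.2 = v.2} =>
          Fin (d v.1.1)) ⟨(t, q), hq⟩) := by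
    ext u
    simp only [mem_filter, mem_univ, true_and, Finset.mem_map, Function.Embedding.sigmaMk_apply]
    constructor
    · intro hu
      obtain ⟨⟨v, hv⟩, i⟩ := u
      simp only at hu
      subst hu
      exact ⟨i, rfl⟩
    · rintro ⟨i, rfl⟩
      rfl
  rw [this, card_map, card_univ, Fintype.card_fin]

/-- the power of the 2-form of a node -/
theorem XX_pow_d (g : GData (Co m d) R 𝔾) (t : Fin J) (q : Pth m) (hq : pre t q = q)
    (x : Co m d → ℝ) :
    XX g t q x ^ d t = (Nat.factorial (d t) : ℂ) •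
      ∏ u ∈ univ.filter (fun u : Sg m d => u.1.1 = (t, q)),
        (cS (x (cr u)) • g.tt (cr u) (ct u)) := by
  have h := (strfalsea_sum_pow (univ.filter (fun u : Sg m d => u.1.1 = (t, q)))
    (fun u => cS (x (cr u)) • g.tt (cr u) (ct u)) (by
      intro u _
      rw [smul_mul_smul_comm, strfalsea_tt_sq, smul_zero])).2
  rw [strfalsea_card t q hq] at h
  unfold XX
  rw [hq, h, Algebra.smul_def]
  simp

/-- the full product -/
theorem xtot_XX (M cap : Fin J → ℕ) (hd : ∀ t, d t = eexp M m t * cap t)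
    (g : GData (Co m d) R 𝔾) (x : Co m d → ℝ) :
    xtot M cap (fun t q => XX g t q x) =
      ((∏ v ∈ nodes m, (Nat.factorial (d v.1) : ℂ)) * ∏ u : Sg m d, cS (x (cr u))) •
        ∏ u : Sg m d, g.tt (cr u) (ct u) := by
  unfold xtot
  have h1 : ∏ v ∈ nodes m, XX g v.1 v.2 x ^ (eexp M m v.1 * cap v.1) =
      ∏ v ∈ nodes m, ((Nat.factorial (d v.1) : ℂ) •
        ∏ u ∈ univ.filter (fun u : Sg m d => u.1.1 = v),
          (cS (x (cr u)) • g.tt (cr u) (ct u))) := by
    apply prod_congr rfl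
    intro v hv
    have hv' : pre v.1 v.2 = v.2 := by simpa [nodes] using hv
    rw [← hd, XX_pow_d g v.1 v.2 hv' x]
  rw [h1, prod_smul, prod_fiberwise_of_maps_to (g := fun u : Sg m d => u.1.1), prod_smul,
    smul_smul]
  intro u _
  simp only [nodes, mem_filter, mem_univ, true_and]
  exact u.1.2

end Pool.Agent.MP_d8b6c2_an
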