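import Mathlib
import Pool.Agent.Lib.MP_d8b6c2_an.Glue1
import Pool.Agent.Lib.MP_d8b6c2_an.Stokes
import Pool.Agent.Lib.MP_d8b6c2_an.StrFalsea

/-! # There is no smooth structure -/

namespace Pool.Agent.MP_d8b6c2_an

open Finset Filter Topology MeasureTheory
open scoped ContDiff

variable {J : ℕ} {m d : Fin J → ℕ} {n : Type*} [Fintype n] [DecidableEq n] {κ r0 s o S : ℕ}
variable {R 𝔾 : Type*} [NormedCommRing R] [NormedAlgebra ℂ R] [NormedRing 𝔾] [NormedAlgebra ℂ 𝔾]

private theorem strfalseb_flat {α β M : Type*} [Monoid M] (f : β → M) (a b : α → β) (L : List α) :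
    ((L.flatMap fun u => [a u, b u]).map f).prod = (L.map fun u => f (a u) * f (b u)).prod := by
  induction L with
  | nil => simp
  | cons u L ih => simp [ih, mul_assoc]

/-- the product of all generators -/
theorem top_all_ne (g : GData (Co m d) R 𝔾) :
    g.top (g.inc (∏ u : Sg m d, g.tt (cr u) (ct u)) *
      (g.θ cτ * ((univ : Finset (Pth m)).toList.map fun q => g.θ (cu q)).prod)) ≠ 0 := by
  have h := g.top_ne (((univ : Finset (Sg m d)).toList.flatMap fun u => [cr u, ct u]) ++
    (cτ :: (univ : Finset (Pth m)).toList.map fun q => cu q)) ?_ ?_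
  · have e : g.inc (∏ u : Sg m d, g.tt (cr u) (ct u)) =
        (((univ : Finset (Sg m d)).toList.flatMap fun u => [cr u, ct u]).map g.θ).prod := by
      rw [strfalseb_flat, ← Finset.prod_map_toList, map_list_prod, List.map_map]
      congr 1
      apply List.map_congr_left
      intro u _
      exact g.inc_tt _ _
    rw [e]
    rw [List.map_append, List.prod_append, List.map_cons, List.prod_cons, List.map_map] at h
    exact h
  · rw [List.nodup_append]
    refine ⟨?_, ?_, ?_⟩
    · rw [List.nodup_flatMap]
      refine ⟨?_, ?_⟩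
      · intro u _
        simp
      · refine List.Pairwise.imp ?_ (nodup_toList (univ : Finset (Sg m d)))
        intro a b hab
        simp only [Function.onFun, List.disjoint_cons_left, List.mem_cons, List.not_mem_nil,
          or_false, not_or, List.disjoint_nil_left, and_true]
        refine ⟨⟨?_, ?_⟩, ?_, ?_⟩ <;> intro h <;> simp at h <;> exact hab h
    · rw [List.nodup_cons]
      refine ⟨by simp, ?_⟩
      refine (nodup_toList _).map ?_
      intro a b hab
      simpa using hab
    · intro a ha b hb
      simp only [List.mem_flatMap, List.mem_cons, List.not_mem_nil, or_false, List.mem_map] at ha hb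
      obtain ⟨u, _, rfl | rfl⟩ := ha <;> rcases hb with rfl | ⟨q, _, rfl⟩ <;> simp
  · intro i
    simp only [List.mem_append, List.mem_flatMap, mem_toList, mem_univ, true_and, List.mem_cons,
      List.not_mem_nil, or_false, List.mem_map]
    rcases i with _ | q | u | u
    · right; left; rfl
    · right; right; exact ⟨q, rfl⟩
    · left; exact ⟨u, Or.inl rfl⟩
    · left; exact ⟨u, Or.inr rfl⟩

end Pool.Agent.MP_d8b6c2_an
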