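import Mathlib
import Pool.Agent.Lib.MP_d8b6c2_an.Glue1
import Pool.Agent.Lib.MP_d8b6c2_an.Stokes
import Pool.Agent.Lib.MP_d8b6c2_an.StrFalseb

/-! # There is no smooth structure -/

namespace Pool.Agent.MP_d8b6c2_an

open Finset Filter Topology MeasureTheory
open scoped ContDiff

variable {J : ℕ} {m d : Fin J → ℕ} {n : Type*} [Fintype n] [DecidableEq n] {κ r0 s o S : ℕ}
variable {R 𝔾 : Type*} [NormedCommRing R] [NormedAlgebra ℂ R] [NormedRing 𝔾] [NormedAlgebra ℂ 𝔾]

theorem cS_zero_of_lt {r : ℝ} (h : r < 0 ∨ 1 < r) : cS r = 0 := by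
  have hd : deriv (fun y => Real.sin (ang y) ^ 2) r = 0 := by
    rcases h with h | h
    · have : (fun y => Real.sin (ang y) ^ 2) =ᶠ[𝓝 r] fun _ => (0 : ℝ) := by
        filter_upwards [Iio_mem_nhds h] with y hy
        simp [ang, Real.smoothTransition.zero_of_nonpos (le_of_lt hy)]
      rw [this.deriv_eq]
      simp
    · have : (fun y => Real.sin (ang y) ^ 2) =ᶠ[𝓝 r] fun _ => (1 : ℝ) := by
        filter_upwards [Ioi_mem_nhds h] with y hy
        simp [ang, Real.smoothTransition.one_of_one_le (le_of_lt hy)]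
      rw [this.deriv_eq]
      simp
  simp [cS, hd]

private theorem strfalsec_smooth : ContDiff ℝ ∞ (fun y => Real.sin (ang y) ^ 2) := by
  have h : ContDiff ℝ ∞ ang := by
    unfold ang
    exact contDiff_const.mul Real.smoothTransition.contDiff
  exact (Real.contDiff_sin.comp h).pow 2

private theorem strfalsec_int_cS :
    ∫ y in Set.Icc (-1 : ℝ) 2, cS y = 2 * Real.pi * Complex.I := by
  have h1 : ∫ y in (-1 : ℝ)..2, deriv (fun y => Real.sin (ang y) ^ 2) y = 1 := by
    rw [intervalIntegral.integral_deriv_eq_sub]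
    · simp [ang, Real.smoothTransition.zero_of_nonpos (show (-1 : ℝ) ≤ 0 by norm_num),
        Real.smoothTransition.one_of_one_le (show (1 : ℝ) ≤ 2 by norm_num)]
    · intro x _
      exact (strfalsec_smooth.differentiable (by simp)).differentiableAt
    · exact ((strfalsec_smooth.continuous_deriv (by simp))).intervalIntegrable _ _
  rw [integral_Icc_eq_integral_Ioc, ← intervalIntegral.integral_of_le (by norm_num)]
  unfold cS
  rw [intervalIntegral.integral_const_mul, intervalIntegral.integral_ofReal, h1]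
  simp

private theorem strfalsec_int_w1 :
    ∫ y in Set.Icc (-2 : ℝ) 2, (w1 y : ℂ) ≠ 0 := by
  have h1 : 0 < ∫ y in (-2 : ℝ)..2, w1 y := by
    have hc : Continuous w1 := w1_smooth.continuous
    refine intervalIntegral.integral_pos (by norm_num) hc.continuousOn
      (fun x _ => w1_nonneg x) ⟨0, by norm_num, w1_zero_pos⟩
  rw [integral_Icc_eq_integral_Ioc, ← intervalIntegral.integral_of_le (by norm_num),
    intervalIntegral.integral_ofReal]
  exact_mod_cast h1.ne'

/-- the integral of the product of the bump functions and the derivatives of `sin²` -/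
theorem integral_prod_ne :
    ∫ y in Set.Icc (fun j : Pth m ⊕ (Sg m d ⊕ Sg m d) =>
        Sum.elim (fun _ => (-2 : ℝ)) (Sum.elim (fun _ => -1) (fun _ => 0)) j)
      (fun j => Sum.elim (fun _ => (2 : ℝ)) (Sum.elim (fun _ => 2) (fun _ => 1)) j),
      (((∏ q : Pth m, w1 (y (Sum.inl q)) : ℝ) : ℂ) *
        ∏ u : Sg m d, cS (y (Sum.inr (Sum.inl u)))) ≠ 0 := by
  classical
  let f : (j : Pth m ⊕ (Sg m d ⊕ Sg m d)) → ℝ → ℂ := fun j =>
    Sum.elim (fun _ => fun y => ((w1 y : ℝ) : ℂ)) (Sum.elim (fun _ => cS) (fun _ => fun _ => 1)) j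
  have hf : (fun y : (Pth m ⊕ (Sg m d ⊕ Sg m d)) → ℝ =>
      (((∏ q : Pth m, w1 (y (Sum.inl q)) : ℝ) : ℂ) *
        ∏ u : Sg m d, cS (y (Sum.inr (Sum.inl u))))) = fun y => ∏ j, f j (y j) := by
    funext y
    rw [Fintype.prod_sum_type, Fintype.prod_sum_type]
    simp [f]
  rw [hf, ← Set.pi_univ_Icc, volume_pi, Measure.restrict_pi_pi, integral_fintype_prod_eq_prod,
    Finset.prod_ne_zero_iff]
  rintro (q | u | u) -
  · exact strfalsec_int_w1
  · have := strfalsec_int_cS
    simp only [f, Sum.elim_inl, Sum.elim_inr]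
    rw [this]
    simp [Real.pi_ne_zero]
  · simp [f]

end Pool.Agent.MP_d8b6c2_an
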