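import Mathlib
import Pool.Agent.Lib.MP_d8b6c2_an.Glue1
import Pool.Agent.Lib.MP_d8b6c2_an.Stokes
import Pool.Agent.Lib.MP_d8b6c2_an.StrFalsec

/-! # There is no smooth structure -/

namespace Pool.Agent.MP_d8b6c2_an

open Finset Filter Topology MeasureTheory
open scoped ContDiff

variable {J : ℕ} {m d : Fin J → ℕ} {n : Type*} [Fintype n] [DecidableEq n] {κ r0 s o S : ℕ}
variable {R 𝔾 : Type*} [NormedCommRing R] [NormedAlgebra ℂ R] [NormedRing 𝔾] [NormedAlgebra ℂ 𝔾]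

theorem div_zero (M cap : Fin J → ℕ) (hM : ∀ t, 0 < M t) (σ : Str m d n κ r0 s o S)
    (g : GData (Co m d) R 𝔾) (x : Co m d → ℝ) :
    ∑ j, pd j (fun y => g.top (g.θ j * σ.Th M cap g y)) x = 0 := by
  have hsm := σ.Th_smooth M cap hM g
  have hd : HasFDerivAt (σ.Th M cap g) (fderiv ℝ (σ.Th M cap g) x) x :=
    (hsm.differentiable (by simp) x).hasFDerivAt
  have hcl := σ.Th_closed M cap hM g x
  have key : ∀ j, pd j (fun y => g.top (g.θ j * σ.Th M cap g y)) x =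
      g.top (g.θ j * pd j (σ.Th M cap g) x) := by
    intro j
    let L : 𝔾 →L[ℝ] ℂ := (g.top.restrictScalars ℝ).comp (ContinuousLinearMap.mul ℝ 𝔾 (g.θ j))
    have h1 : HasFDerivAt (fun y => g.top (g.θ j * σ.Th M cap g y))
        (L.comp (fderiv ℝ (σ.Th M cap g) x)) x := L.hasFDerivAt.comp x hd
    unfold pd
    rw [h1.fderiv]
    rfl
  rw [Finset.sum_congr rfl fun j _ => key j, ← map_sum]
  unfold dF at hcl
  rw [hcl, map_zero]

end Pool.Agent.MP_d8b6c2_an
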