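import Mathlib
import Pool.Agent.Lib.MP_d8b6c2_an.Glue1
import Pool.Agent.Lib.MP_d8b6c2_an.Stokes
import Pool.Agent.Lib.MP_d8b6c2_an.StrFalsed

/-! # There is no smooth structure -/

namespace Pool.Agent.MP_d8b6c2_an

open Finset Filter Topology MeasureTheory
open scoped ContDiff

variable {J : ℕ} {m d : Fin J → ℕ} {n : Type*} [Fintype n] [DecidableEq n] {κ r0 s o S : ℕ}
variable {R 𝔾 : Type*} [NormedCommRing R] [NormedAlgebra ℂ R] [NormedRing 𝔾] [NormedAlgebra ℂ 𝔾]

theorem str_false (M cap : Fin J → ℕ) (hd : ∀ t, d t = eexp M m t * cap t)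
    (hM : ∀ t, ∑ u ∈ univ.filter (t < ·), d u < M t) (hcap : ∀ t, 0 < cap t)
    (ho : ∑ t, (κ : ℝ) * nlv m t / cap t ≤ o) (σ : Str m d n κ r0 s o S)
    (g : GData (Co m d) R 𝔾) : False := by
  have hM0 : ∀ t, 0 < M t := fun t => lt_of_le_of_lt (Nat.zero_le _) (hM t)
  have hTh := σ.Th_smooth M cap hM0 g
  have hst := stokes (ι0 := Pth m ⊕ (Sg m d ⊕ Sg m d))
    (fun j x => g.top (g.θ j * σ.Th M cap g x))
    (fun j => by
      have h1 : ContDiff ℝ ∞ (fun x => g.θ j * σ.Th M cap g x) :=
        contDiff_const.mul hTh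
      exact (g.top.restrictScalars ℝ).contDiff.comp h1)
    (fun j => Sum.elim (fun _ => (-2 : ℝ)) (Sum.elim (fun _ => -1) (fun _ => 0)) j)
    (fun j => Sum.elim (fun _ => (2 : ℝ)) (Sum.elim (fun _ => 2) (fun _ => 1)) j)
    (by
      rintro (q | u | u)
      · simp only [Sum.elim_inl]; norm_num
      · simp only [Sum.elim_inl, Sum.elim_inr]; norm_num
      · simp only [Sum.elim_inr]; norm_num)
    (fun x => div_zero M cap hM0 σ g x)
    (by
      rintro (q | u | u) x h0 h1
      · have e1 : σ.Th M cap g (Function.update x (some (Sum.inl q)) 2) = 0 := by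
          refine σ.Th_supp M cap hM g _ ?_ ?_ q (Or.inl ?_)
          · simpa [Function.update] using h0
          · simpa [Function.update] using h1
          · simp [Function.update]; norm_num
        have e2 : σ.Th M cap g (Function.update x (some (Sum.inl q)) (-2)) = 0 := by
          refine σ.Th_supp M cap hM g _ ?_ ?_ q (Or.inr ?_)
          · simpa [Function.update] using h0
          · simpa [Function.update] using h1
          · simp [Function.update]
        simp only [Sum.elim_inl]
        rw [e1, e2]
      · have e1 := (σ.Th_end M cap g u (Function.update x (some (Sum.inr (Sum.inl u))) 2)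
          (Or.inr (by simp [Function.update]))).1
        have e2 := (σ.Th_end M cap g u (Function.update x (some (Sum.inr (Sum.inl u))) (-1))
          (Or.inl (by simp [Function.update]))).1
        simp only [Sum.elim_inl, Sum.elim_inr]
        exact e1.trans e2.symm
      · have e1 : Function.update x (some (Sum.inr (Sum.inr u))) (1 : ℝ) =
            Function.update x (some (Sum.inr (Sum.inr u))) 0 + ej (ct u) := by
          funext j
          by_cases hj : j = some (Sum.inr (Sum.inr u))
          · subst hj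
            simp [ej]
          · simp [ej, Function.update, hj, Pi.single_apply]
        simp only [Sum.elim_inr]
        rw [e1, σ.Th_per])
  have hz : ∀ y : Pth m ⊕ (Sg m d ⊕ Sg m d) → ℝ,
      g.top (g.θ none * σ.Th M cap g (consO 0 y)) = 0 := by
    intro y
    rw [σ.Th_zero M cap hcap ho g (consO 0 y) rfl, mul_zero, map_zero]
  have ho1 : ∀ y : Pth m ⊕ (Sg m d ⊕ Sg m d) → ℝ,
      g.top (g.θ none * σ.Th M cap g (consO 1 y)) =
        ((∏ v ∈ nodes m, (Nat.factorial (d v.1) : ℂ)) *
          g.top (g.inc (∏ u : Sg m d, g.tt (cr u) (ct u)) *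
            (g.θ cτ * ((univ : Finset (Pth m)).toList.map fun q => g.θ (cu q)).prod))) *
        ((((∏ q : Pth m, w1 (y (Sum.inl q)) : ℝ) : ℂ) *
          ∏ u : Sg m d, cS (y (Sum.inr (Sum.inl u))))) := by
    intro y
    have h1 := σ.Th_one M cap hM0 g (consO 1 y) rfl
    rw [h1, xtot_XX M cap hd g, map_smul, smul_mul_smul_comm, map_smul, smul_eq_mul]
    simp only [consO, Option.elim]
    ring
  simp only [hz, ho1, integral_zero] at hst
  rw [integral_const_mul] at hst
  rcases mul_eq_zero.mp hst with h | h
  · rcases mul_eq_zero.mp h with h | h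
    · rw [Finset.prod_eq_zero_iff] at h
      obtain ⟨v, -, hv⟩ := h
      exact Nat.factorial_ne_zero _ (by exact_mod_cast hv)
    · exact top_all_ne g h
  · exact integral_prod_ne h

end Pool.Agent.MP_d8b6c2_an
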